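import Pool.Agent.Work.MP_bf98aa_gt.B3.DAl

-- merged part: Pool.Agent.Work.MP_bf98aa_gt.B3.ADef
section
-- merged part: Pool.Agent.Work.MP_bf98aa_gt.B3.GDef
section
/-!
Generic definitions: 1-forms as fields of linear maps, arrows, atlases without the freeness condition.
-/

set_option autoImplicit false

open scoped ContDiff Topology
open Set Complex

namespace Pool.Agent.Work.MP_bf98aa_gt.B3

open Pool.Agent.Work.MP_bf98aa_gt.Th Pool.Agent.Work.MP_bf98aa_gt.Cy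

noncomputable section

/-- Fields of linear forms. -/
abbrev F1 : Type := E6 → E6 →L[ℝ] ℝ

/-- The exterior derivative of a field of linear forms. -/
def d1 (l : F1) : Fm E6 2 := extDeriv fun z => alt1 (l z)

/-- The pull-back of a field of linear forms. -/
def pb1 (f : E6 → E6) (l : F1) : F1 := fun z => (l (f z)).comp (fderiv ℝ f z)

/-- `Im (conj g * d g) / (2 π)`. -/
def ang (g : E6 → ℂ) : F1 := fun z => (2 * Real.pi)⁻¹ •
  ((g z).re • imCLM.comp (fderiv ℝ g z) - (g z).im • reCLM.comp (fderiv ℝ g z))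

/-- The complex coordinate `i`. -/
def cc (i : Fin 3) (z : E6) : ℂ := ⟨z (i, 0), z (i, 1)⟩

/-- A point from three complex coordinates. -/
def mkc (a b c : ℂ) : E6 := mk a.re a.im b.re b.im c.re c.im

/-- The rotation form `(x dy - y dx) / (2 π)` of the complex coordinate `i`. -/
def rot1 (i : Fin 3) : F1 := fun z =>
  (2 * Real.pi)⁻¹ • (z (i, 0) • dc (i, 1) - z (i, 1) • dc (i, 0))

/-- Nondegenerate. -/
def ND (w : Alt E6 2) : Prop := ∀ u, (∀ v, w ![u, v] = 0) → u = 0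

/-- The first four coordinates. -/
def xv (z : E6) : V4 := ![z (0, 0), z (0, 1), z (1, 0), z (1, 1)]

/-- A point from `x`, the level and the angle. -/
def mk4 (x : V4) (μ φ : ℝ) : E6 := mk (x 0) (x 1) (x 2) (x 3) μ φ

/-- The linear form `a · dx`. -/
def lf (a : V4) : E6 →L[ℝ] ℝ := a 0 • dc (0, 0) + a 1 • dc (0, 1) + a 2 • dc (1, 0) + a 3 • dc (1, 1)

/-- `f` is a local diffeomorphism from `x` to `y` whose graph lies in `R` near `x`. -/
structure Ar (R : E6 → E6 → Prop) (x y : E6) (f : E6 → E6) : Prop where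
  sm : ContDiffAt ℝ ∞ f x
  eq : f x = y
  inj : Function.Injective (fderiv ℝ f x)
  ev : ∀ᶠ z in 𝓝 x, R z (f z)

variable {ι ι₁ ι₂ J : Type}

/-- A closed etale equivalence relation, possibly with fixed points. -/
structure Pre0 (A : Atl ι) : Prop where
  opn : ∀ i, IsOpen (A.W i)
  mem : ∀ {i x j y}, A.R i x j y → x ∈ A.W i ∧ y ∈ A.W j
  refl : ∀ {i x}, x ∈ A.W i → A.R i x i x
  symm : ∀ {i x j y}, A.R i x j y → A.R j y i x
  trans : ∀ {i x j y l z}, A.R i x j y → A.R j y l z → A.R i x l z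
  loc : ∀ {i x j y}, A.R i x j y → ∃ f, Ar (fun z w => A.R i z j w) x y f
  clo : ∀ {i x j y}, x ∈ A.W i → y ∈ A.W j →
    (x, y) ∈ closure {p : E6 × E6 | A.R i p.1 j p.2} → A.R i x j y

/-- The relation is locally trivial. -/
def Free (A : Atl ι) : Prop :=
  ∀ i, ∀ x ∈ A.W i, ∀ᶠ p : E6 × E6 in 𝓝 (x, x), A.R i p.1 i p.2 → p.1 = p.2

/-- A family of forms that is compatible with the relation. -/
def InvF {k : ℕ} (A : Atl ι) (α : ι → Fm E6 k) : Prop :=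
  ∀ i x j y, A.R i x j y → ∃ f, Ar (fun z w => A.R i z j w) x y f ∧ pb f (α j) x = α i x

/-- The saturation of a relation between two atlases. -/
def Bar (A : Atl ι₁) (B : Atl ι₂) (S : ι₁ → E6 → ι₂ → E6 → Prop) (i : ι₁) (x : E6) (j : ι₂)
    (y : E6) : Prop :=
  ∃ i' x' j' y', A.R i x i' x' ∧ S i' x' j' y' ∧ B.R j' y' j y

/-- Two atlases glued along a relation. -/
def glue (A : Atl ι₁) (B : Atl ι₂) (S : ι₁ → E6 → ι₂ → E6 → Prop) : Atl (ι₁ ⊕ ι₂) where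
  W := Sum.elim A.W B.W
  R := fun
    | .inl i, x, .inl j, y => A.R i x j y
    | .inl i, x, .inr j, y => Bar A B S i x j y
    | .inr i, x, .inl j, y => Bar A B S j y i x
    | .inr i, x, .inr j, y => B.R i x j y

/-- Conditions for gluing. -/
structure GOk (A : Atl ι₁) (B : Atl ι₂) (S : ι₁ → E6 → ι₂ → E6 → Prop) : Prop where
  mem : ∀ {i x j y}, S i x j y → x ∈ A.W i ∧ y ∈ B.W j
  loc : ∀ {i x j y}, S i x j y → ∃ f, Ar (fun z w => S i z j w) x y f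
  iff : ∀ {i x j y i' x' j' y'}, S i x j y → S i' x' j' y' → (A.R i x i' x' ↔ B.R j y j' y')
  clo : ∀ {i x j y}, x ∈ A.W i → y ∈ B.W j →
    (x, y) ∈ closure {p : E6 × E6 | Bar A B S i p.1 j p.2} →
      ∃ i' x' j' y', A.R i x i' x' ∧ S i' x' j' y'

/-- Restriction to smaller domains. -/
def res (A : Atl ι) (W : ι → Set E6) : Atl ι where
  W := W
  R i x j y := x ∈ W i ∧ y ∈ W j ∧ A.R i x j y

/-- Change of the index set. -/
def comap (A : Atl ι₂) (e : ι₁ → ι₂) : Atl ι₁ where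
  W i := A.W (e i)
  R i x j y := A.R (e i) x (e j) y

/-- Disjoint union of a family. -/
def fam (A : J → Atl ι) : Atl (J × ι) where
  W p := (A p.1).W p.2
  R p x p' y := p.1 = p'.1 ∧ (A p.1).R p.2 x p'.2 y

/-- One chart with the orbit relation of a family of maps. -/
def orb {Γ : Type} (W : Set E6) (g : Γ → E6 → E6) : Atl Unit where
  W _ := W
  R _ x _ y := x ∈ W ∧ y ∈ W ∧ ∃ γ, g γ x = y

/-- A properly discontinuous group of diffeomorphisms. -/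
structure Grp {Γ : Type} (g : Γ → E6 → E6) : Prop where
  sm : ∀ γ, ContDiff ℝ ∞ (g γ)
  one : ∃ γ, ∀ z, g γ z = z
  inv : ∀ γ, ∃ γ', ∀ z, g γ' (g γ z) = z
  mul : ∀ γ γ', ∃ γ'', ∀ z, g γ'' z = g γ' (g γ z)
  fin : ∀ r : ℝ, {γ | ∃ z, ‖z‖ ≤ r ∧ ‖g γ z‖ ≤ r}.Finite

end

end Pool.Agent.Work.MP_bf98aa_gt.B3
end

-- merged part: Pool.Agent.Work.MP_bf98aa_gt.B3.NDef
section
/-!
The neck. Charts `m` (fold and below the kink), `p` (above the kink) with coordinates `x = xv z`, `μ = z (2,0)`,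
`φ = z (2,1)`, and `f` (along the kink torus) with `u = cc 0 z`, `w = cc 2 z`, `y = (z (1,0), z (1,1))`.
The sets `Wo` have no holes (orbifold level), the sets `Wn` are the domains of the charts of the manifold.
-/

set_option autoImplicit false

open scoped ContDiff Topology Matrix
open Set Complex

namespace Pool.Agent.Work.MP_bf98aa_gt.B3

open Pool.Agent.Work.MP_bf98aa_gt.Th Pool.Agent.Work.MP_bf98aa_gt.Cy

noncomputable section

/-- Distance to the nearest integer, with sign. -/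
def rd (s : ℝ) : ℝ := s - round s

/-- The involution on the chart `m`. -/
def io (z : E6) : E6 := mk4 (-xv z) (z (2, 0)) (z (2, 1))

/-- The involution on the chart `p`. -/
def iop (z : E6) : E6 := mk4 (-xv z) (z (2, 0)) (z (2, 1) + 1 / 2)

/-- The involution on the charts `f` and `F`. -/
def iof (z : E6) : E6 := mkc (cc 0 z) (-cc 1 z) (-cc 2 z)

/-- The classes of singular strands. -/
abbrev J4 : Type := Fin 2 × Fin 2

/-- The half period on the kink torus. -/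
def wj (j : J4) : V4 := ![((j.1 : ℕ) : ℝ) / 2, ((j.2 : ℕ) : ℝ) / 2, 0, 0]

/-- The flat primitive for a path of forms. -/
def lamO (Ω : ℝ → M4) : F1 := fun z =>
  z (2, 0) • dc (2, 1) + (1 / 2 : ℝ) • lf (xv z ᵥ* Ω (z (2, 0)))

/-- The circle action. -/
def act (s : ℝ) : K3 → E6 → E6
  | .f, z => mkc (cc 0 z * ee (-s)) (cc 1 z) (cc 2 z * ee s)
  | _, z => mk4 (xv z) (z (2, 0)) (z (2, 1) + s)

namespace HD

variable (d : HD)

/-- The level above the kink. -/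
def tt (z : E6) : ℝ := z (2, 0) - d.μ₁

/-- The gauge function on a chart. -/
def gz (z : E6) : ℂ := d.g (z (1, 0), z (1, 1))

/-- The concentrated part of the curvature. -/
def al (q t : ℝ) : ℝ := if 0 < t then t * (1 - ss t) * d.η (d.c₀ * q / t) else 0

/-- The normal quadratic form at the nearest lattice point. -/
def qr (z : E6) : ℝ := d.qq (rd (z (1, 0))) (rd (z (1, 1)))

/-- The periodic version of `al`. -/
def a0 (z : E6) : ℝ := d.al (d.qr z) (d.tt z)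

/-- The level on the charts `f` and `F`. -/
def nuF (z : E6) : ℝ := d.μ₁ + normSq (cc 2 z) - normSq (cc 0 z)

/-- The primitive of the symplectic form. -/
def lam : K3 → F1
  | .m, z => d.tt z • dc (2, 1) + (1 / 2 : ℝ) • lf (xv z ᵥ* d.Om0 (z (2, 0))) +
      (d.a0 z / (2 * Real.pi * d.qr z)) • (rd (z (1, 0)) • dc (1, 1) - rd (z (1, 1)) • dc (1, 0))
  | .p, z => d.tt z • dc (2, 1) + (d.tt z / 2) • (z (1, 0) • dc (1, 1) + z (1, 1) • dc (1, 0)) +
      (1 / 2 : ℝ) • lf (xv z ᵥ* d.Om0 (z (2, 0))) -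
      ((d.tt z - shf (d.tt z) - d.a0 z) / normSq (d.gz z)) • ang d.gz z -
      (shf (d.tt z) * z (1, 0) + d.a0 z * round (z (1, 0))) • dc (1, 1)
  | .f, z => rot1 0 z + rot1 2 z +
      (d.b (d.nuF z) / 2) • (z (1, 0) • dc (1, 1) - z (1, 1) • dc (1, 0))

/-- The domains without holes. -/
def Wo : K3 → Set E6
  | .m => {z | -1 / 8 < z (2, 0) ∧ d.tt z < 1 / 8 ∧ (d.gz z ≠ 0 ∨ d.tt z < 0)}
  | .p => {z | 0 < d.tt z ∧ d.tt z < 9 / 8}
  | .f => {z | normSq (cc 0 z) < 1 / 8 ∧ normSq (cc 2 z) < 1 / 8}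

/-- Lattice translations on `m`. -/
def Dm (l : L4) (n : ℤ) (z : E6) : E6 :=
  mk4 (xv z + rv l) (z (2, 0)) (z (2, 1) - bf (rm d.v) (rv l) (xv z) / 2 + l 3 / 2 + n)

/-- The fold. -/
def ka (z : E6) : E6 :=
  mk4 (rm d.T *ᵥ xv z + (1 / 2 : ℝ) • rv d.c) (-z (2, 0))
    (-z (2, 1) - bf (rm d.v) (rv d.c) (xv z) / 4)

/-- Lattice translations on `p`. -/
def Dp (l : L4) (n : ℤ) (z : E6) : E6 :=
  mk4 (xv z + rv l) (z (2, 0))
    (z (2, 1) - bf (rm (d.v - E23)) (rv l) (xv z) / 2 + l 2 * (1 + l 3) / 2 + n)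

/-- The phase of a translation along the kink torus. -/
def psi (s t : ℝ) (z : E6) : ℝ := d.v 0 1 * (s * z (1, 1) - t * z (1, 0)) / 2

/-- Translations on `f`. -/
def Df (s t : ℝ) (z : E6) : E6 :=
  mkc (cc 0 z * ee (d.psi s t z)) (cc 1 z + ⟨s, t⟩) (cc 2 z * ee (-d.psi s t z))

/-- The group of the chart `m`. -/
def gm (γ : L4 × ℤ × Bool × Bool) (z : E6) : E6 :=
  d.Dm γ.1 γ.2.1 (cond γ.2.2.1 d.ka id (cond γ.2.2.2 io id z))

/-- The group of the chart `p`. -/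
def gp (γ : L4 × ℤ × Bool) (z : E6) : E6 := d.Dp γ.1 γ.2.1 (cond γ.2.2 iop id z)

/-- The group of the chart `f`. -/
def gf (γ : ℤ × ℤ × Bool) (z : E6) : E6 := d.Df γ.1 γ.2.1 (cond γ.2.2 iof id z)

/-- The change of gauge from `m` to `p`. -/
def Smp (z y : E6) : Prop :=
  z ∈ d.Wo .m ∧ y ∈ d.Wo .p ∧ xv y = xv z ∧ y (2, 0) = z (2, 0) ∧
    ee (y (2, 1)) * ‖d.gz z‖ = ee (z (2, 1) - z (1, 0) * z (1, 1) / 2) * d.gz z

/-- The excess `h - |z₁|²`. -/
def ex (ν : ℝ) (x : V4) : ℝ := d.al (d.qq (x 2) (x 3)) (ν - d.μ₁) + shf (ν - d.μ₁)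

/-- The function `h = |w|²`. -/
def hh (ν : ℝ) (x : V4) : ℝ := normSq (d.z1 ν x) + d.ex ν x

/-- The radius `|w|² + |z₂|²`. -/
def rho (ν : ℝ) (x : V4) : ℝ := d.hh ν x + normSq (d.z2 ν x)

/-- The unitary angle. -/
def phH (z : E6) : ℝ := z (2, 1) + d.Hh (z (2, 0)) (xv z)

/-- Unitary coordinates `(z₁, z₂, ν, φ')`. -/
def uni (z : E6) : E6 :=
  mkc (d.z1 (z (2, 0)) (xv z)) (d.z2 (z (2, 0)) (xv z)) ⟨z (2, 0), d.phH z⟩

/-- The coordinate `u` in the lower gauge. -/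
def uL (z : E6) : ℂ := (√(d.hh (z (2, 0)) (xv z) - d.tt z) : ℝ) * ee (-d.phH z)

/-- The coordinate `w` in the lower gauge. -/
def wL (z : E6) : ℂ := d.z1 (z (2, 0)) (xv z) *
  (√(1 + d.ex (z (2, 0)) (xv z) / normSq (d.z1 (z (2, 0)) (xv z))) : ℝ) * ee (d.phH z)

/-- The coordinate `u` in the upper gauge. -/
def uU (z : E6) : ℂ := d.z1 (z (2, 0)) (xv z) *
  (√(1 - (d.tt z - d.ex (z (2, 0)) (xv z)) / normSq (d.z1 (z (2, 0)) (xv z))) : ℝ) * ee (-d.phH z)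

/-- The coordinate `w` in the upper gauge. -/
def wU (z : E6) : ℂ := (√(d.hh (z (2, 0)) (xv z)) : ℝ) * ee (d.phH z)

/-- The flat angle on `p` near the kink torus. -/
def pu (z : E6) : E6 :=
  mk4 (xv z) (z (2, 0)) (z (2, 1) + (1 - deriv shf (d.tt z)) * (z (1, 0) * z (1, 1)) / 2)

/-- The projection to the kink torus as a complex number. -/
def yc (z : E6) : ℂ := ⟨d.y0 (z (2, 0)) (xv z), d.y1 (z (2, 0)) (xv z)⟩

/-- From `m` to `f`. -/
def omf (z : E6) : E6 := mkc (d.uL z) (d.yc z) (d.wL z)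

/-- From `p` to `f`. -/
def opf (z : E6) : E6 := mkc (d.uU (d.pu z)) (d.yc z) (d.wU (d.pu z))

/-- Near the kink torus. -/
def Nf : Set E6 := {z | d.tt z < 1 / 8 ∧ d.hh (z (2, 0)) (xv z) < 1 / 8 ∧
  d.hh (z (2, 0)) (xv z) - d.tt z < 1 / 8}

/-- The gluing relation to `f`. -/
def Sf : Unit ⊕ Unit → E6 → Unit → E6 → Prop
  | .inl _, z, _, y => z ∈ d.Wo .m ∧ z ∈ d.Nf ∧ y = d.omf z
  | .inr _, z, _, y => z ∈ d.Wo .p ∧ z ∈ d.Nf ∧ y = d.opf z

/-- The charts `m` and `p`. -/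
def atlMP : Atl (Unit ⊕ Unit) :=
  glue (orb (d.Wo .m) d.gm) (orb (d.Wo .p) d.gp) fun _ z _ y => d.Smp z y

/-- The half without holes. -/
def atlO : Atl K3 :=
  comap (glue d.atlMP (orb (d.Wo .f) d.gf) d.Sf) fun
    | .m => .inl (.inl ())
    | .p => .inl (.inr ())
    | .f => .inr ()

/-- The holes on `m` and `p`, around the half periods `l / 2` with `l 3` even. -/
def Hole : Set E6 := {z | ∃ l : L4, Even (l 3) ∧
  ((Even (l 2) ∧ d.rho (z (2, 0)) (xv z - (1 / 2 : ℝ) • rv l) ≤ max 2 (2 * d.tt z)) ∨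
    (Odd (l 2) ∧ d.rho (-z (2, 0)) (rm d.T *ᵥ (xv z - (1 / 2 : ℝ) • rv l)) ≤ 2))}

/-- The holes on `f`. -/
def HoleF : Set E6 := {z | ∃ l l' : ℤ,
  normSq (cc 2 z) + normSq (d.zy (d.nuF z) (z (1, 0) - l / 2) (z (1, 1) - l' / 2)) ≤ 2}

/-- The fixed tori of the fold. -/
def Kset : Set E6 := {z | ∃ l n, d.Dm l n (d.ka z) = z}

/-- The domains of the charts. -/
def Wn : K3 → Set E6
  | .m => d.Wo .m \ (d.Hole ∪ d.Kset)
  | .p => d.Wo .p \ d.Hole
  | .f => d.Wo .f \ d.HoleF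

end HD

namespace GD

variable (D : GD)

/-- From the half `b` to the other half. -/
def gl (b : Bool) (z : E6) : E6 :=
  mk4 (rm (D.G b) *ᵥ xv z) ((D.H b).M + (D.H (!b)).M - z (2, 0)) (-z (2, 1))

/-- The gluing relation of the halves. -/
def Sg (c : K3) (z : E6) (c' : K3) (y : E6) : Prop :=
  c = .p ∧ c' = .p ∧ z ∈ (D.H true).Wo .p ∧ 7 / 8 < (D.H true).tt z ∧ y = D.gl true z

/-- The neck without holes. -/
def atlO : Atl (Bool × K3) :=
  comap (glue (D.H true).atlO (D.H false).atlO D.Sg) fun p => cond p.1 (.inl p.2) (.inr p.2)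

/-- The neck. -/
def atlN : Atl (Bool × K3) := res D.atlO fun p => (D.H p.1).Wn p.2

end GD

end

end Pool.Agent.Work.MP_bf98aa_gt.B3
end

-- merged part: Pool.Agent.Work.MP_bf98aa_gt.B3.WDef
section
/-!
The pieces that replace the singular set. `F`: `(u, z₂, w) = (cc 0, cc 1, cc 2)`; `V`: `(u, β', a') = (cc 0, cc 1, cc 2)`;
`L`: `(a, β) = (cc 0, cc 1)`, `(ν, φ) = (z (2,0), z (2,1))`; `T`: `(ξ, π) = (cc 0, cc 1)`, `(m, ψ) = (z (2,0), z (2,1))`;
`K`: `(ξ, π) = (cc 0, cc 1)`, `(s, t) = (z (2,0), z (2,1))`.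
-/

set_option autoImplicit false

open scoped ContDiff Topology Matrix ComplexConjugate
open Set Complex

namespace Pool.Agent.Work.MP_bf98aa_gt.B3

open Pool.Agent.Work.MP_bf98aa_gt.Th Pool.Agent.Work.MP_bf98aa_gt.Cy

noncomputable section

/-- The charts of the resolved strand. -/
inductive X3
  | F
  | V
  | L
  deriving DecidableEq, Fintype

/-- The ambient space `(u, |w|², |z₂|², w conj z₂, s w², s w z₂, s z₂²)`, `s² = (|w|² + |z₂|² - 1) / 2`. -/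
abbrev XA : Type := ℂ × ℝ × ℝ × ℂ × ℂ × ℂ × ℂ

/-- The ambient space `(q, P)` of the cotangent bundle of the 3-sphere. -/
abbrev TA : Type := (ℂ × ℂ) × ℂ × ℂ

/-- The radius on `F`. -/
def rF (z : E6) : ℝ := normSq (cc 2 z) + normSq (cc 1 z)

/-- The level above the kink on `F` and `V`. -/
def tF (z : E6) : ℝ := normSq (cc 2 z) - normSq (cc 0 z)

/-- `|z₂|²` on `V`. -/
def r2 (z : E6) : ℝ := 2 * normSq (cc 1 z) + 1 - normSq (cc 2 z)

/-- `|w|²` on `L`. -/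
def r1 (z : E6) : ℝ := 2 * normSq (cc 1 z) + 1 - normSq (cc 0 z)

/-- The standard primitive. -/
def lamS : F1 := fun z => rot1 0 z + rot1 1 z + rot1 2 z

/-- The primitives on the resolved strand. -/
def lamX : X3 → F1
  | .L, z => rot1 0 z + rot1 1 z + z (2, 0) • dc (2, 1)
  | _, z => lamS z

/-- The level above the kink. -/
def xt (a : XA) : ℝ := a.2.1 - normSq a.1

/-- The radius. -/
def xr (a : XA) : ℝ := a.2.1 + a.2.2.1

/-- The radius in the upper gauge. -/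
def xu (a : XA) : ℝ := normSq a.1 + a.2.2.1

/-- `A₊ e(φ) b`. -/
def tal (a : XA) : ℂ × ℂ := (a.2.2.2.2.1 * a.1 / a.2.1, a.2.2.2.2.2.1 / (√a.2.1 : ℝ))

/-- `A₋ e(φ) b#`. -/
def tga (a : XA) : ℂ × ℂ :=
  √((xu a - (xt a - 1)) / 2) • (a.2.2.2.1 / (√a.2.1 : ℝ), -conj a.1)

/-- To the cotangent bundle of the 3-sphere. -/
def ta (ε : ℝ) (a : XA) : TA := ((xu a)⁻¹ • (tal a + ε • tga a), I • (tal a - ε • tga a))

/-- The quaternionic structure, times a phase. -/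
def sharp (θ : ℝ) (y : ℂ × ℂ) : ℂ × ℂ := ee θ • (conj y.2, -conj y.1)

/-- The map for the half `b`. -/
def taH (θ : ℝ) : Bool → XA → TA
  | true, a => ta 1 a
  | false, a => (sharp θ (ta (-1) a).1, sharp θ (ta (-1) a).2)

/-- The long map: `s` is the sum of the two levels above the kinks. -/
def lg (s θ : ℝ) (a : XA) : XA :=
  ((√(a.2.1 - (s - xt a)) : ℝ) * conj (a.1 / ‖a.1‖) * ee (-θ), a.2.1, a.2.2.1,
    a.2.2.2.1 * (a.1 / ‖a.1‖) ^ 2 * ee θ, a.2.2.2.2.1 * (a.1 / ‖a.1‖) ^ 4 * ee (2 * θ),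
    a.2.2.2.2.2.1 * (a.1 / ‖a.1‖) ^ 2 * ee θ, a.2.2.2.2.2.2)

/-- `1 + |ξ|²` on the Hopf charts. -/
def nT (z : E6) : ℝ := 1 + normSq (cc 0 z)

/-- The unit vector of a Hopf chart. -/
def hn : Bool → E6 → ℂ × ℂ
  | true, z => (√(nT z))⁻¹ • (1, cc 0 z)
  | false, z => (√(nT z))⁻¹ • (cc 0 z, 1)

/-- The orthogonal unit vector. -/
def hn' : Bool → E6 → ℂ × ℂ
  | true, z => (√(nT z))⁻¹ • (-conj (cc 0 z), 1)
  | false, z => (√(nT z))⁻¹ • (1, -conj (cc 0 z))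

/-- The Hopf charts. -/
def ambT (i : Bool) (z : E6) : TA :=
  (ee (z (2, 1)) • hn i z, ee (z (2, 1)) • ((I * z (2, 0)) • hn i z + cc 1 z • hn' i z))

/-- The domain of the Hopf charts. -/
def WT : Set E6 :=
  {z | |z (2, 0)| < 1 / 8 ∧ √(z (2, 0) ^ 2 + normSq (cc 1 z)) + |z (2, 0)| < 7}

/-- The primitive on the Hopf charts. -/
def lamT : F1 := fun z => z (2, 0) • dc (2, 1) + (z (2, 0) / nT z) • rot1 0 z +
  (2 * Real.pi * nT z)⁻¹ • (z (1, 0) • dc (0, 0) + z (1, 1) • dc (0, 1))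

/-- The point of the 2-sphere. -/
def qK (z : E6) : Fin 3 → ℝ := ![2 * z (0, 0) / nT z, 2 * z (0, 1) / nT z, 1 - 2 / nT z]

/-- The cotangent vector, of length `|π|`. -/
def pK (z : E6) : Fin 3 → ℝ :=
  ![z (1, 0) - 2 * z (0, 0) * (z (1, 0) * z (0, 0) + z (1, 1) * z (0, 1)) / nT z,
    z (1, 1) - 2 * z (0, 1) * (z (1, 0) * z (0, 0) + z (1, 1) * z (0, 1)) / nT z,
    2 * (z (1, 0) * z (0, 0) + z (1, 1) * z (0, 1)) / nT z]

/-- The domain of the chart `K`. -/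
def WK : Set E6 := {z | ‖cc 1 z‖ < 1 / 64}

/-- The relation on the chart `K`. -/
def RK (x y : E6) : Prop := ∃ n n' : ℤ, y (2, 0) = x (2, 0) + n ∧ y (2, 1) = x (2, 1) + n' ∧
  qK y = ((-1 : ℝ) ^ n) • qK x ∧ pK y = ((-1 : ℝ) ^ n) • pK x

/-- The chart `K` from `(q, P, s, t)`. -/
def toK (q P : Fin 3 → ℝ) (s t : ℝ) : E6 :=
  mk (q 0 / (1 - q 2)) (q 1 / (1 - q 2)) (P 0 + P 2 * q 0 / (1 - q 2))
    (P 1 + P 2 * q 1 / (1 - q 2)) s t

/-- The Veronese map. -/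
def ver (a b : ℂ) : Fin 3 → ℂ := ![a ^ 2 - b ^ 2, I * (a ^ 2 + b ^ 2), -2 * a * b]

/-- The square of the normal radius in untwisted coordinates `(z₁, z₂) = (cc 0, cc 1)`, `(s, t)`. -/
def kr (z : E6) : ℝ := normSq (cc 0 z) + normSq (cc 1 z)

/-- The twisted Veronese vector. -/
def kV (z : E6) : Fin 3 → ℂ := ee (-z (2, 0) / 2) • ver (cc 0 z) (cc 1 z)

/-- From untwisted coordinates to the chart `K`. -/
def tw (a : ℝ) (z : E6) : E6 :=
  toK (fun i => (kV z i).re / kr z) (fun i => -(kV z i).im) (z (2, 0)) (z (2, 1) - kr z / (4 * a))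

/-- Upper polar coordinates `(z₁, z₂, m, φ)`. -/
def Pup (z : E6) : E6 :=
  mkc (cc 0 z * ee (-z (2, 1))) (cc 1 z)
    ((√(1 + z (2, 0) + normSq (cc 0 z)) : ℝ) * ee (z (2, 1)))

/-- Lower polar coordinates `(z₁, z₂, ν, φ)` for a kink at the level `μ₁`. -/
def Plow (μ₁ : ℝ) (z : E6) : E6 :=
  mkc ((√(normSq (cc 0 z) - (z (2, 0) - μ₁)) : ℝ) * ee (-z (2, 1))) (cc 1 z)
    (cc 0 z * ee (z (2, 1)))

namespace HD

variable (d : HD)

/-- The domain upstairs, with the centre. -/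
def Fo : Set E6 := {z | rF z < 8 ∧ |d.nuF z| < d.M + 1 / 8}

/-- The domains of the resolved strand. -/
def WX : X3 → Set E6
  | .F => {z | z ∈ d.Fo ∧ 1 < rF z ∧ tF z - 1 < normSq (cc 0 z) + normSq (cc 1 z)}
  | .V => {z | normSq (cc 2 z) < 15 / 16 ∧ 2 * normSq (cc 1 z) + 1 < 8 ∧ -d.M - 1 / 8 < d.nuF z}
  | .L => {z | 0 < r1 z ∧ d.tt z < r1 z ∧ d.tt z < 15 / 16 ∧ 2 * normSq (cc 1 z) + 1 < 8 ∧
      -d.M - 1 / 8 < z (2, 0)}

/-- The maps to the ambient space. -/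
def amb : X3 → E6 → XA
  | .F, z => (cc 0 z, normSq (cc 2 z), normSq (cc 1 z), cc 2 z * conj (cc 1 z),
      (√((rF z - 1) / 2) : ℝ) * cc 2 z ^ 2, (√((rF z - 1) / 2) : ℝ) * (cc 2 z * cc 1 z),
      (√((rF z - 1) / 2) : ℝ) * cc 1 z ^ 2)
  | .V, z => (cc 0 z, normSq (cc 2 z), r2 z, cc 2 z * (√(r2 z) : ℝ), cc 1 z * cc 2 z ^ 2,
      cc 1 z * cc 2 z * (√(r2 z) : ℝ), cc 1 z * r2 z)
  | .L, z => ((√(r1 z - d.tt z) : ℝ) * ee (-z (2, 1)), r1 z, normSq (cc 0 z),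
      ee (z (2, 1)) * conj (cc 0 z) * (√(r1 z) : ℝ), cc 1 z * r1 z * ee (2 * z (2, 1)),
      ee (z (2, 1)) * cc 1 z * cc 0 z * (√(r1 z) : ℝ), cc 1 z * cc 0 z ^ 2)

/-- The translation by `-w`. -/
def trn (j : J4) (z : E6) : E6 :=
  mk4 (xv z - wj j) (z (2, 0)) (z (2, 1) + bf (rm d.v) (wj j) (xv z) / 2)

/-- The mirror centre. -/
def x0 (j : J4) : V4 := rm d.T *ᵥ wj j + (1 / 2 : ℝ) • rv d.c

/-- The flat angle on `p` near the mirror centre. -/
def pm (j : J4) (z : E6) : E6 :=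
  mk4 (xv z) (z (2, 0)) (z (2, 1) + z (1, 0) * z (1, 1) / 2 - d.x0 j 2 * z (1, 1) -
    (d.x0 j 2 - 1 / 2) / 2 - deriv shf (d.tt z) * ((z (1, 0) - d.x0 j 2) * (z (1, 1) - d.x0 j 3)) / 2)

/-- The lower map. -/
def lowF (z : E6) : E6 := mkc (d.uL z) (d.z2 (z (2, 0)) (xv z)) (d.wL z)

/-- The upper map. -/
def uppF (z : E6) : E6 := mkc (d.uU z) (d.z2 (z (2, 0)) (xv z)) (d.wU z)

/-- From `f`, centred, to `F`. -/
def fF (z : E6) : E6 := mkc (cc 0 z) (d.zy (d.nuF z) (z (1, 0)) (z (1, 1))) (cc 2 z)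

/-- Centred flat coordinates. -/
def cen (j : J4) : Fin 5 → E6 → E6 :=
  ![d.trn j, fun z => d.trn j (d.ka z), fun z => d.trn j (d.pu z),
    fun z => d.trn j (d.ka (d.pm j z)), d.Df (-wj j 0) (-wj j 1)]

/-- The maps to `F`. -/
def Ph (j : J4) (l : Fin 5) (z : E6) : E6 :=
  ![d.lowF, d.lowF, d.uppF, d.lowF, d.fF] l (d.cen j l z)

/-- The radius. -/
def rP (j : J4) (l : Fin 5) (z : E6) : ℝ :=
  if l = 4 then rF (d.Ph j l z) else d.rho (d.cen j l z (2, 0)) (xv (d.cen j l z))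

end HD

/-- The source charts of the maps to `F`. -/
def sP : Fin 5 → K3 := ![.m, .m, .p, .p, .f]

namespace HD

variable (d : HD)

/-- The domains of the maps to `F`, without holes. -/
def Do (j : J4) (l : Fin 5) : Set E6 := {z | z ∈ d.Wo (sP l) ∧ d.rP j l z < 8}

/-- The domains of the maps to `F`. -/
def DP (j : J4) (l : Fin 5) : Set E6 := {z | z ∈ d.Wn (sP l) ∧ d.rP j l z < 8}

/-- Fold coordinates. -/
def XX (z : E6) : V4 := rm d.A' *ᵥ xv z

/-- `x^T X y` in fold coordinates. -/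
def xy (s t u w : ℝ) : ℝ :=
  2 * (s * (d.Xh 0 0 * u + d.Xh 0 1 * w) + t * (d.Xh 1 0 * u + d.Xh 1 1 * w))

/-- First normal coordinate of the fixed torus. -/
def k1 (k : J4) (z : E6) : ℂ :=
  (√(Real.pi * d.gK (z (2, 0))) : ℝ) * (⟨d.XX z 2 - 1 / 4, d.XX z 3 - ((k.1 : ℕ) : ℝ) / 2⟩ : ℂ)

/-- The untwisted angle. -/
def kf (k : J4) (z : E6) : ℝ :=
  z (2, 1) + d.xy (d.XX z 0) (d.XX z 1) (d.XX z 2) (d.XX z 3) / 2 -
    d.xy (d.XX z 0) (d.XX z 1) (1 / 4) (((k.1 : ℕ) : ℝ) / 2) -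
    (((k.1 : ℕ) : ℝ) * d.e 3 / 4 + ((k.2 : ℕ) : ℝ) / 2)

/-- Second normal coordinate of the fixed torus. -/
def k2 (k : J4) (z : E6) : ℂ := (√Real.pi : ℝ) * (⟨z (2, 0), d.kf k z⟩ : ℂ)

/-- First coordinate along the fixed torus. -/
def ks (k : J4) (z : E6) : ℝ :=
  d.XX z 0 - z (2, 0) * d.xy 0 1 (d.XX z 2 - 1 / 4) (d.XX z 3 - ((k.1 : ℕ) : ℝ) / 2) / d.a

/-- Second coordinate along the fixed torus. -/
def kt (k : J4) (z : E6) : ℝ :=
  d.XX z 1 + z (2, 0) * d.xy 1 0 (d.XX z 2 - 1 / 4) (d.XX z 3 - ((k.1 : ℕ) : ℝ) / 2) / d.a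

/-- Untwisted coordinates near the fixed torus. -/
def kU (k : J4) (z : E6) : E6 := mkc (d.k1 k z) (d.k2 k z) ⟨d.ks k z, d.kt k z⟩

/-- From `m` to `K`. -/
def oK (k : J4) (z : E6) : E6 := tw d.a (d.kU k z)

/-- The tube around the fixed torus. -/
def Ko (k : J4) : Set E6 := {z | z ∈ d.Wo .m ∧ kr (d.kU k z) < 1 / 64}

/-- The domain of the map to `K`. -/
def DK (k : J4) : Set E6 :=
  {z | z ∈ d.Wn .m ∧ kr (d.kU k z) < 1 / 64 ∧ (kV (d.kU k z) 2).re ≠ kr (d.kU k z)}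

/-- The primitive in untwisted coordinates. -/
def lamU : F1 := fun z => rot1 0 z + rot1 1 z + (d.a * z (2, 0)) • dc (2, 1)

/-- The primitive on `K`. -/
def lamK : F1 := fun z => (d.a * z (2, 0)) • dc (2, 1) +
  (2 * Real.pi * nT z)⁻¹ • (z (1, 0) • dc (0, 0) + z (1, 1) • dc (0, 1))

end HD

namespace GD

variable (D : GD)

/-- The lattice vector that moves the image of the centre to the centre. -/
def lU (j : J4) : L4 := fun i =>
  (![((j.1 : ℕ) : ℤ), ((j.2 : ℕ) : ℤ), 0, 0] i -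
    (D.G true *ᵥ ![((j.1 : ℕ) : ℤ), ((j.2 : ℕ) : ℤ), 0, 0]) i) / 2

/-- Twice the mirror centre. -/
def lam0 (b : Bool) (j : J4) : L4 :=
  (D.H b).T *ᵥ ![((j.1 : ℕ) : ℤ), ((j.2 : ℕ) : ℤ), 0, 0] + (D.H b).c

/-- The lattice vector that moves the image of the mirror centre to the mirror centre. -/
def lL (j : J4) : L4 := fun i => (D.lam0 false j i - (D.G true *ᵥ D.lam0 true j) i) / 2

/-- The sum of the upper unitary angles. -/
def thU (j : J4) : ℝ :=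
  (D.H true).cen j 2 (mk4 (wj j) (D.H true).M 0) (2, 1) + (D.H false).cen j 2
    ((D.H false).Dp (D.lU j) 0 (D.gl true (mk4 (wj j) (D.H true).M 0))) (2, 1)

/-- The sum of the lower unitary angles. -/
def thL (j : J4) : ℝ :=
  (D.H true).cen j 3 (mk4 ((D.H true).x0 j) (D.H true).M 0) (2, 1) + (D.H false).cen j 3
    ((D.H false).Dp (D.lL j) 0 (D.gl true (mk4 ((D.H true).x0 j) (D.H true).M 0))) (2, 1)

/-- The sum of the levels above the kinks along the long map. -/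
def sL : ℝ := -2 * ((D.H true).μ₁ + (D.H false).μ₁ + 1)

/-- The relation between ambient points of the halves `b`, `b'`. -/
def RA (j : J4) (b : Bool) (a : XA) (b' : Bool) (a' : XA) : Prop :=
  (b = b' ∧ a = a') ∨ (b ≠ b' ∧
    ((xt a < -2 * (D.H b).μ₁ - 7 / 8 ∧ a' = lg D.sL (D.thL j) a) ∨
      (7 / 8 < xt a ∧ 7 / 8 < xt a' ∧ taH (D.thU j) b a = taH (D.thU j) b' a')))

/-- The neighbourhood of the resolved sphere `j`. -/
def atlW (j : J4) : Atl (Bool × X3 ⊕ Bool) where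
  W := Sum.elim (fun p => (D.H p.1).WX p.2) fun _ => WT
  R := fun
    | .inl p, x, .inl p', y => x ∈ (D.H p.1).WX p.2 ∧ y ∈ (D.H p'.1).WX p'.2 ∧
        D.RA j p.1 ((D.H p.1).amb p.2 x) p'.1 ((D.H p'.1).amb p'.2 y)
    | .inl p, x, .inr i, y => x ∈ (D.H p.1).WX p.2 ∧ y ∈ WT ∧ 7 / 8 < xt ((D.H p.1).amb p.2 x) ∧
        taH (D.thU j) p.1 ((D.H p.1).amb p.2 x) = ambT i y
    | .inr i, y, .inl p, x => x ∈ (D.H p.1).WX p.2 ∧ y ∈ WT ∧ 7 / 8 < xt ((D.H p.1).amb p.2 x) ∧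
        taH (D.thU j) p.1 ((D.H p.1).amb p.2 x) = ambT i y
    | .inr i, x, .inr i', y => x ∈ WT ∧ y ∈ WT ∧ ambT i x = ambT i' y

end GD

end

end Pool.Agent.Work.MP_bf98aa_gt.B3
end

-- merged part: Pool.Agent.Work.MP_bf98aa_gt.B3.ADef
section
/-!
The atlas of the manifold and the structure `WM` that all later layers use.
-/

set_option autoImplicit false

open scoped Manifold ContDiff Topology Matrix
open Set Complex

namespace Pool.Agent.Work.MP_bf98aa_gt.B3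

open Pool.Agent.Work.MP_bf98aa_gt.Th Pool.Agent.Work.MP_bf98aa_gt.Cy

noncomputable section

/-- The chart `K` as an atlas. -/
def atlK : Atl Unit where
  W _ := WK
  R _ x _ y := x ∈ WK ∧ y ∈ WK ∧ RK x y

/-- Charts of the pieces that replace the singular set. -/
abbrev IP : Type := (Bool × J4) × Unit ⊕ J4 × (Bool × X3 ⊕ Bool)

/-- All charts. -/
abbrev IM : Type := Bool × K3 ⊕ IP

namespace GD

variable (D : GD)

/-- The pieces. -/
def atlP : Atl IP :=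
  glue (fam fun _ : Bool × J4 => atlK) (fam D.atlW) fun _ _ _ _ => False

/-- The gluing relation from the neck to the pieces. -/
def SP (c : Bool × K3) (z : E6) : IP → E6 → Prop
  | .inl p, y => c = (p.1.1, .m) ∧ z ∈ (D.H c.1).DK p.1.2 ∧ y = (D.H c.1).oK p.1.2 z
  | .inr p, y => p.2 = .inl (c.1, .F) ∧
      ∃ l, c.2 = sP l ∧ z ∈ (D.H c.1).DP p.1 l ∧ y = (D.H c.1).Ph p.1 l z

/-- The atlas of the manifold. -/
def atlM : Atl IM := glue D.atlN D.atlP D.SP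

/-- The primitives of the symplectic form. -/
def lamM : IM → F1
  | .inl c => (D.H c.1).lam c.2
  | .inr (.inl p) => (D.H p.1.1).lamK
  | .inr (.inr (_, .inl p)) => lamX p.2
  | .inr (.inr (_, .inr _)) => lamT

end GD

/-- The maps of all charts. -/
structure Ch (M : Type) where
  N : Bool → K3 → E6 → M
  K : Bool → J4 → E6 → M
  X : J4 → Bool → X3 → E6 → M
  T : J4 → Bool → E6 → M

/-- The whole manifold. -/
structure WM {M : Type} [TopologicalSpace M] [ChartedSpace E6 M] (D : GD) (q : Ch M)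
    (η : Fo M 2) : Prop where
  ok : D.Ok
  pN : ∀ b c, Par (q.N b c) ((D.H b).Wn c)
  pK : ∀ b k, Par (q.K b k) WK
  pX : ∀ j b c, Par (q.X j b c) ((D.H b).WX c)
  pT : ∀ j i, Par (q.T j i) WT
  cl : ClO η univ
  nd : Form.Nondeg (E := E6) (M := M) η
  oN : ∀ b c, ∀ z ∈ (D.H b).Wn c, pl (q.N b c) η z = d1 ((D.H b).lam c) z
  oK : ∀ b k, ∀ z ∈ WK, pl (q.K b k) η z = d1 (D.H b).lamK z
  oX : ∀ j b c, ∀ z ∈ (D.H b).WX c, pl (q.X j b c) η z = d1 (lamX c) z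
  oT : ∀ j i, ∀ z ∈ WT, pl (q.T j i) η z = d1 lamT z
  cov : ∀ m, (∃ b c, m ∈ q.N b c '' (D.H b).Wn c) ∨ (∃ b k, m ∈ q.K b k '' WK) ∨
    (∃ j b c, m ∈ q.X j b c '' (D.H b).WX c) ∨ ∃ j i, m ∈ q.T j i '' WT
  eN : ∀ b c b' c', ∀ x ∈ (D.H b).Wn c, ∀ y ∈ (D.H b').Wn c',
    q.N b c x = q.N b' c' y ↔ D.atlO.R (b, c) x (b', c') y
  eK : ∀ b k b' k', ∀ x ∈ WK, ∀ y ∈ WK, q.K b k x = q.K b' k' y ↔ b = b' ∧ k = k' ∧ RK x y
  eX : ∀ j b c j' b' c', ∀ x ∈ (D.H b).WX c, ∀ y ∈ (D.H b').WX c',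
    q.X j b c x = q.X j' b' c' y ↔ j = j' ∧ D.RA j b ((D.H b).amb c x) b' ((D.H b').amb c' y)
  eXT : ∀ j b c j' i, ∀ x ∈ (D.H b).WX c, ∀ y ∈ WT, q.X j b c x = q.T j' i y ↔
    j = j' ∧ 7 / 8 < xt ((D.H b).amb c x) ∧ taH (D.thU j) b ((D.H b).amb c x) = ambT i y
  eT : ∀ j i j' i', ∀ x ∈ WT, ∀ y ∈ WT, q.T j i x = q.T j' i' y ↔ j = j' ∧ ambT i x = ambT i' y
  gK : ∀ b k, ∀ z ∈ (D.H b).DK k, q.N b .m z = q.K b k ((D.H b).oK k z)
  cK : ∀ b c b' k, ∀ x ∈ (D.H b).Wn c, ∀ y ∈ WK, q.N b c x = q.K b' k y →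
    ∃ z ∈ (D.H b').DK k, q.N b c x = q.N b' .m z
  gP : ∀ j b l, ∀ z ∈ (D.H b).DP j l, q.N b (sP l) z = q.X j b .F ((D.H b).Ph j l z)
  cX : ∀ b c j b' c', ∀ x ∈ (D.H b).Wn c, ∀ y ∈ (D.H b').WX c', q.N b c x = q.X j b' c' y →
    ∃ l, ∃ z ∈ (D.H b').DP j l, q.N b c x = q.N b' (sP l) z
  cT : ∀ b c j i, ∀ x ∈ (D.H b).Wn c, ∀ y ∈ WT, q.N b c x = q.T j i y →
    ∀ b', ∃ z ∈ (D.H b').DP j 2, q.N b c x = q.N b' .p z
  dX : ∀ b k j b' c, ∀ x ∈ WK, ∀ y ∈ (D.H b').WX c, q.K b k x ≠ q.X j b' c y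
  dT : ∀ b k j i, ∀ x ∈ WK, ∀ y ∈ WT, q.K b k x ≠ q.T j i y

end

end Pool.Agent.Work.MP_bf98aa_gt.B3
end
end

-- merged part: Pool.Agent.Work.MP_bf98aa_gt.Cy.G8
section
-- merged part: Pool.Agent.Work.MP_bf98aa_gt.Cy.G1
section
/-!
Pull-backs, local diffeomorphisms and transition maps.

PLAN. Chain rule `mfderiv_comp`, `mfderiv_eq_fderiv`, `contMDiffAt_iff_contDiffAt`. For the eventual statements use that `ContDiffAt ℝ ∞ f x`
gives differentiability of `f` near `x` (`ContDiffAt.eventually` at order 1). `Par.tr`: `f = χ ∘ c`. `par_chart`: `χ = chartAt p`.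
-/

set_option autoImplicit false

open scoped Manifold ContDiff Topology
open Set

namespace Pool.Agent.Work.MP_bf98aa_gt.Cy

open Pool.Agent.Work.MP_bf98aa_gt.Th

variable {M : Type} [TopologicalSpace M] [ChartedSpace E6 M] [IsManifold 𝓘(ℝ, E6) ∞ M]
  {F F' : Type} [NormedAddCommGroup F] [NormedSpace ℝ F] [FiniteDimensional ℝ F]
  [NormedAddCommGroup F'] [NormedSpace ℝ F'] [FiniteDimensional ℝ F'] {k : ℕ}
  {ψ ψ' ψ'' : E6 → M} {U U' U'' V : Set E6} {O O' A B : Set M}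

theorem pull_eq (c : F → M) (w : Fo M k) : pull (E := E6) c w = pl c w := rfl

theorem pl_add (c : F → M) (w w' : Fo M k) : pl c (w + w') = pl c w + pl c w' := by
  funext y
  ext v
  rfl

theorem pl_sub (c : F → M) (w w' : Fo M k) : pl c (w - w') = pl c w - pl c w' := by
  funext y
  ext v
  rfl

theorem pl_neg (c : F → M) (w : Fo M k) : pl c (-w) = -pl c w := by
  funext y
  ext v
  rfl

theorem pl_smul (c : F → M) (t : ℝ) (w : Fo M k) : pl c (t • w) = t • pl c w := by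
  funext y
  ext v
  rfl

theorem pl_zero (c : F → M) : pl c (0 : Fo M k) = 0 := by
  funext y
  ext v
  rfl

theorem pl_fsmul (c : F → M) (g : M → ℝ) (w : Fo M k) (x : F) :
    pl c (fun m => g m • w m) x = g (c x) • pl c w x := by
  ext v
  rfl

theorem pl_congr {c c' : F → M} {x : F} (h : c =ᶠ[𝓝 x] c') (w : Fo M k) :
    pl c w x = pl c' w x := by
  have h1 : dM c x = dM c' x := h.mfderiv_eq
  unfold pl
  rw [h1, h.eq_of_nhds]

theorem pl_congr' (c : F → M) {w w' : Fo M k} {x : F} (h : w (c x) = w' (c x)) :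
    pl c w x = pl c w' x := by
  unfold pl
  rw [h]

theorem SmAt.comp {c : F' → M} {f : F → F'} {x : F} (hc : SmAt c (f x))
    (hf : ContDiffAt ℝ ∞ f x) : SmAt (fun y => c (f y)) x :=
  ContMDiffAt.comp x hc hf.contMDiffAt

theorem SmAt.congr {c c' : F → M} {x : F} (hc : SmAt c x) (h : c' =ᶠ[𝓝 x] c) : SmAt c' x :=
  ContMDiffAt.congr_of_eventuallyEq hc h

theorem G1_pl {c : F' → M} {f : F → F'} {x : F} (hc : SmAt c (f x))
    (hf : DifferentiableAt ℝ f x) (w : Fo M k) : pl (fun y => c (f y)) w x = pb f (pl c w) x := by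
  have h1 := mfderiv_comp x (ContMDiffAt.mdifferentiableAt hc (by simp))
    (mdifferentiableAt_iff_differentiableAt.mpr hf)
  rw [mfderiv_eq_fderiv] at h1
  have h2 : dM (fun y => c (f y)) x = (dM c (f x)).comp (fderiv ℝ f x) := h1
  unfold pl pb
  rw [h2]
  ext v
  rfl

theorem pl_comp {c : F' → M} {f : F → F'} {x : F} (hc : SmAt c (f x)) (hf : ContDiffAt ℝ ∞ f x)
    (w : Fo M k) : pl (fun y => c (f y)) w x = pb f (pl c w) x :=
  G1_pl hc (hf.differentiableAt (by simp)) w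

theorem Tr.smAt {c : F → M} {f : F → E6} {x : F} (h : Tr c ψ f x) (h' : SmAt ψ (f x)) :
    SmAt c x :=
  (h'.comp h.1).congr (h.2.mono fun _ hz => hz.symm)

theorem Tr.pl {c : F → M} {f : F → E6} {x : F} (h : Tr c ψ f x) (h' : SmAt ψ (f x))
    (w : Fo M k) : pl c w x = pb f (pl ψ w) x :=
  (pl_congr (h.2.mono fun _ hz => hz.symm) w).trans (pl_comp h' h.1 w)

theorem Tr.pl_ev {c : F → M} {f : F → E6} {x : F} (h : Tr c ψ f x) (hP : Par ψ U) (hx : f x ∈ U)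
    (w : Fo M k) : Cy.pl c w =ᶠ[𝓝 x] pb f (Cy.pl ψ w) := by
  have h1 : ∀ᶠ z in 𝓝 x, ContDiffAt ℝ 1 f z := (h.1.of_le (by simp)).eventually (by simp)
  have h2 : ∀ᶠ z in 𝓝 x, f z ∈ U := h.1.continuousAt.eventually (hP.opn.mem_nhds hx)
  filter_upwards [h1, h2, h.2.eventually_nhds] with z h3 h4 h5
  exact (pl_congr (h5.mono fun _ hz => hz.symm) w).trans
    (G1_pl (hP.sm _ h4) (h3.differentiableAt (by simp)) w)

theorem Tr.comp {c : F → M} {f : F → E6} {g : E6 → E6} {x : F} (h : Tr c ψ f x)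
    (h' : Tr ψ ψ' g (f x)) : Tr c ψ' (fun y => g (f y)) x := by
  refine ⟨h'.1.comp x h.1, ?_⟩
  filter_upwards [h.2, h.1.continuousAt.eventually h'.2] with z h1 h2
  exact h2.trans h1

theorem Par.tr (hP : Par ψ U) {y : E6} (hy : y ∈ U) {c : F → M} {x : F} (hc : SmAt c x)
    (he : c x = ψ y) : ∃ f, Tr c ψ f x ∧ f x = y := by
  obtain ⟨χ, h1, h2, h3⟩ := hP.inv y hy
  rw [← he] at h1 h3
  refine ⟨fun z => χ (c z), ⟨(ContMDiffAt.comp x h1 hc).contDiffAt, ?_⟩, ?_⟩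
  · exact (ContMDiffAt.continuousAt hc).eventually h3
  · show χ (c x) = y
    rw [he]
    exact h2.self_of_nhds

theorem Par.tr_unique (hP : Par ψ U) {c : F → M} {f f' : F → E6} {x : F} (h : Tr c ψ f x)
    (h' : Tr c ψ f' x) (hy : f x ∈ U) (he : f x = f' x) : f =ᶠ[𝓝 x] f' := by
  obtain ⟨χ, -, h2, -⟩ := hP.inv (f x) hy
  have h3 := h.1.continuousAt.eventually h2
  rw [he] at h2
  have h4 := h'.1.continuousAt.eventually h2
  filter_upwards [h3, h4, h.2, h'.2] with z h5 h6 h7 h8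
  rw [← h5, ← h6, h7, h8]

theorem Par.mono (hP : Par ψ U) (hV : IsOpen V) (h : V ⊆ U) : Par ψ V :=
  ⟨hV, fun x hx => hP.sm x (h hx), fun x hx => hP.inv x (h hx)⟩

theorem Par.continuousOn (hP : Par ψ U) : ContinuousOn ψ U := fun x hx =>
  (ContMDiffAt.continuousAt (hP.sm x hx)).continuousWithinAt

theorem Par.isOpen_image (hP : Par ψ U) (hV : IsOpen V) (h : V ⊆ U) : IsOpen (ψ '' V) := by
  rw [isOpen_iff_mem_nhds]
  rintro _ ⟨x, hx, rfl⟩
  obtain ⟨χ, h1, h2, h3⟩ := hP.inv x (h hx)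
  have h4 : V ∈ 𝓝 (χ (ψ x)) := by
    rw [h2.self_of_nhds]
    exact hV.mem_nhds hx
  filter_upwards [h3, h1.continuousAt.eventually h4] with m h5 h6
  exact ⟨χ m, h6, h5⟩

theorem Par.isOpen_pre (hP : Par ψ U) (hO : IsOpen O) : IsOpen (U ∩ ψ ⁻¹' O) :=
  hP.continuousOn.isOpen_inter_preimage hP.opn hO

theorem Par.comp (hP : Par ψ U) {f f' : E6 → E6} (hf : ContDiff ℝ ∞ f) (hf' : ContDiff ℝ ∞ f')
    (h1 : ∀ z, f' (f z) = z) (h2 : ∀ z, f (f' z) = z) : Par (fun z => ψ (f z)) (f ⁻¹' U) := by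
  refine ⟨hP.opn.preimage hf.continuous, fun x hx => (hP.sm _ hx).comp hf.contDiffAt,
    fun x hx => ?_⟩
  obtain ⟨χ, h3, h4, h5⟩ := hP.inv (f x) hx
  refine ⟨fun m => f' (χ m), ContMDiffAt.comp _ hf'.contDiffAt.contMDiffAt h3, ?_, ?_⟩
  · filter_upwards [hf.continuous.continuousAt.eventually h4] with z hz
    rw [hz, h1]
  · filter_upwards [h5] with m hm
    rw [h2, hm]

theorem par_chart (p : M) : Par (chartAt E6 p).symm (chartAt E6 p).target := by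
  refine ⟨(chartAt E6 p).open_target, fun x hx => ?_, fun x hx => ⟨chartAt E6 p, ?_, ?_, ?_⟩⟩
  · exact contMDiffOn_chart_symm.contMDiffAt ((chartAt E6 p).open_target.mem_nhds hx)
  · exact contMDiffOn_chart.contMDiffAt
      ((chartAt E6 p).open_source.mem_nhds ((chartAt E6 p).map_target hx))
  · exact (chartAt E6 p).eventually_right_inverse hx
  · exact (chartAt E6 p).eventually_left_inverse' hx

theorem Par.bij (hP : Par ψ U) {x : E6} (hx : x ∈ U) : Function.Bijective (dM ψ x) := by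
  obtain ⟨χ, h1, h2, -⟩ := hP.inv x hx
  have h3 := mfderiv_comp x (h1.mdifferentiableAt (by simp))
    (ContMDiffAt.mdifferentiableAt (hP.sm x hx) (by simp))
  have h4 : (χ ∘ ψ) =ᶠ[𝓝 x] id := h2
  rw [h4.mfderiv_eq, mfderiv_id] at h3
  have h5 : Function.Injective (dM ψ x) := by
    refine Function.LeftInverse.injective
      (g := fun v => mfderiv 𝓘(ℝ, E6) 𝓘(ℝ, E6) χ (ψ x) v) fun v => ?_
    exact (congrArg (fun L => L v) h3).symm
  exact ⟨h5, (LinearMap.injective_iff_surjective (f := (dM ψ x).toLinearMap)).mp h5⟩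

theorem Tr.fderiv_inv (hP : Par ψ U) {f g : E6 → E6} {x : E6} (hx : x ∈ U) (h : Tr ψ ψ' f x)
    (h' : Tr ψ' ψ g (f x)) (he : g (f x) = x) (v : E6) :
    fderiv ℝ g (f x) (fderiv ℝ f x v) = v := by
  have h1 : Tr ψ ψ (fun z => z) x := ⟨contDiffAt_id, Filter.Eventually.of_forall fun _ => rfl⟩
  have h2 := hP.tr_unique h1 (h.comp h') hx he.symm
  have h3 := h2.fderiv_eq (𝕜 := ℝ)
  rw [fderiv_fun_comp x (h'.1.differentiableAt (by simp)) (h.1.differentiableAt (by simp)),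
    fderiv_fun_id] at h3
  exact (congrArg (fun L => L v) h3).symm

theorem Cmp.symm (hP : Par ψ U) (hP' : Par ψ' U') {α α' : Fm E6 k} {x y : E6} (hx : x ∈ U)
    (hy : y ∈ U') (h : Cmp ψ α x ψ' α' y) : Cmp ψ' α' y ψ α x := by
  obtain ⟨f, h1, h2, h3⟩ := h
  have h4 : ψ' y = ψ x := by
    rw [← h2]
    exact h1.2.self_of_nhds
  obtain ⟨g, h5, h6⟩ := hP.tr hx (hP'.sm y hy) h4
  subst h6
  refine ⟨g, h5, rfl, ?_⟩
  ext v
  have h7 : ∀ u, fderiv ℝ f (g y) (fderiv ℝ g y u) = u := Tr.fderiv_inv hP' hy h5 h1 h2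
  show α (g y) (fun i => fderiv ℝ g y (v i)) = α' y v
  rw [← h3]
  show α' (f (g y)) (fun i => fderiv ℝ f (g y) (fderiv ℝ g y (v i))) = α' y v
  rw [h2]
  exact congrArg _ (funext fun i => h7 (v i))

theorem Cmp.trans {α α' α'' : Fm E6 k} {x y z : E6} (h : Cmp ψ α x ψ' α' y)
    (h' : Cmp ψ' α' y ψ'' α'' z) : Cmp ψ α x ψ'' α'' z := by
  obtain ⟨f, h1, h2, h3⟩ := h
  obtain ⟨g, h4, h5, h6⟩ := h'
  subst h2
  refine ⟨fun u => g (f u), h1.comp h4, h5, ?_⟩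
  rw [pb_comp _ (h1.1.differentiableAt (by simp)) (h4.1.differentiableAt (by simp)),
    pb_congr' h6, h3]

/-- The vertical block of a linear map. -/
def G1_vm (L : E6 →L[ℝ] E6) : Matrix (Fin 3) (Fin 3) ℝ :=
  Matrix.of fun i j : Fin 3 => L (bv (j, 1)) (i, 1)

theorem G1_vert (a : Fin 3 → ℝ) (i : Fin 3) :
    (∑ j, a j • bv (j, 1)) (i, 0) = 0 ∧ (∑ j, a j • bv (j, 1)) (i, 1) = a i := by
  simp [bv, Finset.sum_apply, Pi.single_apply]

theorem G1_exp {v : E6} (hv : Vert v) : v = ∑ j, v (j, 1) • bv (j, 1) := by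
  funext ⟨i, s⟩
  fin_cases s
  · exact (hv i).trans (G1_vert _ i).1.symm
  · exact (G1_vert (fun j => v (j, 1)) i).2.symm

theorem G1_app (L : E6 →L[ℝ] E6) (a : Fin 3 → ℝ) (i : Fin 3) :
    L (∑ j, a j • bv (j, 1)) (i, 1) = (G1_vm L).mulVec a i := by
  rw [map_sum, Finset.sum_apply]
  show _ = ∑ j, L (bv (j, 1)) (i, 1) * a j
  refine Finset.sum_congr rfl fun j _ => ?_
  rw [map_smul, Pi.smul_apply, smul_eq_mul, mul_comm]

theorem G1_bv (j : Fin 3) : Vert (bv (j, 1)) := by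
  intro i
  simp [bv]

theorem G1_mul {L : E6 →L[ℝ] E6} (h : ∀ v, Vert v → Vert (L v)) (L' : E6 →L[ℝ] E6) :
    G1_vm (L'.comp L) = G1_vm L' * G1_vm L := by
  ext i j
  show L' (L (bv (j, 1))) (i, 1) = _
  rw [G1_exp (h _ (G1_bv j)), G1_app]
  rfl

theorem G1_comp {L L' : E6 →L[ℝ] E6} (h : VOk L) (h' : VOk L') : VOk (L'.comp L) := by
  refine ⟨fun v hv => h'.1 _ (h.1 v hv), ?_⟩
  have h1 : (G1_vm L).det = 1 := h.2
  have h2 : (G1_vm L').det = 1 := h'.2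
  show (G1_vm (L'.comp L)).det = 1
  rw [G1_mul h.1, Matrix.det_mul, h1, h2, mul_one]

theorem G1_inv {L L' : E6 →L[ℝ] E6} (h : VOk L) (hi : ∀ v, L' (L v) = v) : VOk L' := by
  have h1 : (G1_vm L).det = 1 := h.2
  constructor
  · intro v hv
    have hu : Vert (∑ j, (G1_vm L).adjugate.mulVec (fun m => v (m, 1)) j • bv (j, 1)) :=
      fun i => (G1_vert _ i).1
    have h2 : L (∑ j, (G1_vm L).adjugate.mulVec (fun m => v (m, 1)) j • bv (j, 1)) = v := by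
      funext ⟨i, s⟩
      fin_cases s
      · exact (h.1 _ hu i).trans (hv i).symm
      · refine (G1_app L _ i).trans ?_
        rw [Matrix.mulVec_mulVec, Matrix.mul_adjugate, h1, one_smul, Matrix.one_mulVec]
        rfl
    rw [← h2, hi]
    exact hu
  · have h3 : G1_vm (L'.comp L) = 1 := by
      ext i j
      show L' (L (bv (j, 1))) (i, 1) = _
      rw [hi]
      simp [bv, Pi.single_apply, Matrix.one_apply]
    have h4 := congrArg Matrix.det h3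
    rw [G1_mul h.1, Matrix.det_mul, h1, mul_one, Matrix.det_one] at h4
    exact h4

theorem VCmp.symm (hP : Par ψ U) (hP' : Par ψ' U') {x y : E6} (hx : x ∈ U) (hy : y ∈ U')
    (h : VCmp ψ x ψ' y) : VCmp ψ' y ψ x := by
  obtain ⟨f, h1, h2, h3⟩ := h
  have h4 : ψ' y = ψ x := by
    rw [← h2]
    exact h1.2.self_of_nhds
  obtain ⟨g, h5, h6⟩ := hP.tr hx (hP'.sm y hy) h4
  subst h2
  exact ⟨g, h5, h6, G1_inv h3 (Tr.fderiv_inv hP hx h1 h5 h6)⟩

theorem VCmp.trans {x y z : E6} (h : VCmp ψ x ψ' y) (h' : VCmp ψ' y ψ'' z) : VCmp ψ x ψ'' z := by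
  obtain ⟨f, h1, h2, h3⟩ := h
  obtain ⟨g, h4, h5, h6⟩ := h'
  subst h2
  refine ⟨fun u => g (f u), h1.comp h4, h5, ?_⟩
  rw [fderiv_fun_comp x (h4.1.differentiableAt (by simp)) (h1.1.differentiableAt (by simp))]
  exact G1_comp h3 h6


end Pool.Agent.Work.MP_bf98aa_gt.Cy
end

-- merged part: Pool.Agent.Work.MP_bf98aa_gt.Cy.G2a
section
/-!
Forms on open subsets of `M`: local criteria and algebra.

PLAN. `of_loc`: for a second parametrisation `ψ' U'` and `y ∈ U'` take `f` from `Par.tr` (`c = ψ'`), then `Tr.pl_ev`, `ContDiffAt.alt_comp` (with `ContDiffAt.fderiv_right`),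
`extDeriv_pb`, `Filter.EventuallyEq.extDeriv_eq`, `Tr.pl`. `ClO w O` is `IsDO w 0 O` up to `pl_zero`. `iUnion`: `of_loc` with `U ∩ ψ ⁻¹' N j` (`Par.isOpen_pre`, `Par.mono`, `par_chart`).
`congr`: the pull-backs agree on the open set `U`. `IsDO.pl`: near `y` write `c` through the chart at `c y` restricted to `O` (`par_chart`, `Par.isOpen_pre`, `Par.mono`, `Par.tr`, `Tr.pl_ev`).
-/

set_option autoImplicit false

open scoped Manifold ContDiff Topology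
open Set

namespace Pool.Agent.Work.MP_bf98aa_gt.Cy

open Pool.Agent.Work.MP_bf98aa_gt.Th

variable {M : Type} [TopologicalSpace M] [ChartedSpace E6 M] [IsManifold 𝓘(ℝ, E6) ∞ M]
  {F F' : Type} [NormedAddCommGroup F] [NormedSpace ℝ F] [FiniteDimensional ℝ F]
  [NormedAddCommGroup F'] [NormedSpace ℝ F'] [FiniteDimensional ℝ F'] {k : ℕ}
  {ψ ψ' ψ'' : E6 → M} {U U' U'' V : Set E6} {O O' A B : Set M}

theorem G2a_core {c : F → M} {y : F} (hc : SmAt c y) (hP : Par ψ U) {x : E6} (hx : x ∈ U)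
    (he : ψ x = c y) {b : Fo M k} (hb : ContDiffAt ℝ ∞ (pl ψ b) x) :
    ContDiffAt ℝ ∞ (pl c b) y ∧
      ∀ w : Fo M (k + 1), extDeriv (pl ψ b) x = pl ψ w x → extDeriv (pl c b) y = pl c w y := by
  obtain ⟨f, hf, rfl⟩ := hP.tr hx hc he.symm
  have e := hf.pl_ev hP hx b
  refine ⟨ContDiffAt.congr_of_eventuallyEq
    (ContDiffAt.alt_comp (hb.comp y hf.1) (hf.1.fderiv_right le_rfl)) e, fun w hw => ?_⟩
  rw [e.extDeriv_eq, extDeriv_pb (hb.differentiableAt (by simp)) hf.1, pb_congr' hw,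
    hf.pl (hP.sm _ hx) w]

theorem G2a_chart (hO : IsOpen O) {m : M} (hm : m ∈ O) :
    ∃ ψ U x, Par ψ U ∧ x ∈ U ∧ ψ x = m ∧ MapsTo ψ U O := by
  have e : (chartAt E6 m).symm (chartAt E6 m m) = m :=
    (chartAt E6 m).left_inv (mem_chart_source E6 m)
  refine ⟨(chartAt E6 m).symm, (chartAt E6 m).target ∩ (chartAt E6 m).symm ⁻¹' O, chartAt E6 m m,
    (par_chart m).mono ((par_chart m).isOpen_pre hO) inter_subset_left,
    ⟨mem_chart_target E6 m, ?_⟩, e, fun z hz => hz.2⟩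
  rw [mem_preimage, e]
  exact hm

theorem G2a_cl {w : Fo M k} : ClO w O ↔ IsDO w 0 O := by
  refine forall₄_congr fun ψ U _ _ => ?_
  rw [pl_zero]
  rfl

theorem G2a_add {b b' : Fo M k} {w w' : Fo M (k + 1)} (h : IsDO b w O) (h' : IsDO b' w' O) :
    IsDO (b + b') (w + w') O := fun ψ U hP hm => by
  have h1 := h ψ U hP hm
  have h2 := h' ψ U hP hm
  rw [pl_add, pl_add]
  refine ⟨ContDiffOn.add h1.1 h2.1, fun x hx => ?_⟩
  rw [extDeriv_add (h1.1.diffAt hP.opn hx) (h2.1.diffAt hP.opn hx), h1.2 x hx, h2.2 x hx]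
  rfl

theorem G2a_sub {b b' : Fo M k} {w w' : Fo M (k + 1)} (h : IsDO b w O) (h' : IsDO b' w' O) :
    IsDO (b - b') (w - w') O := fun ψ U hP hm => by
  have h1 := h ψ U hP hm
  have h2 := h' ψ U hP hm
  rw [pl_sub, pl_sub]
  refine ⟨ContDiffOn.sub h1.1 h2.1, fun x hx => ?_⟩
  rw [extDeriv_sub' (h1.1.diffAt hP.opn hx) (h2.1.diffAt hP.opn hx), h1.2 x hx, h2.2 x hx]
  rfl

theorem G2a_smul {b : Fo M k} {w : Fo M (k + 1)} (h : IsDO b w O) (t : ℝ) :
    IsDO (t • b) (t • w) O := fun ψ U hP hm => by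
  have h1 := h ψ U hP hm
  rw [pl_smul, pl_smul]
  refine ⟨ContDiffOn.const_smul t h1.1, fun x hx => ?_⟩
  rw [extDeriv_smul, h1.2 x hx]
  rfl

theorem SmO.of_loc {w : Fo M k} (h : ∀ m ∈ O, ∃ ψ U x, Par ψ U ∧ x ∈ U ∧ ψ x = m ∧
    ContDiffAt ℝ ∞ (pl ψ w) x) : SmO w O := fun _ _ hP' hm y hy => by
  obtain ⟨ψ, U, x, hP, hx, he, hb⟩ := h _ (hm hy)
  exact (G2a_core (hP'.sm y hy) hP hx he hb).1.contDiffWithinAt

theorem IsDO.of_loc {b : Fo M k} {w : Fo M (k + 1)} (h : ∀ m ∈ O, ∃ ψ U x, Par ψ U ∧ x ∈ U ∧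
    ψ x = m ∧ ContDiffAt ℝ ∞ (pl ψ b) x ∧ extDeriv (pl ψ b) x = pl ψ w x) : IsDO b w O :=
  fun _ _ hP' hm => by
  refine ⟨fun y hy => ?_, fun y hy => ?_⟩
  · obtain ⟨ψ, U, x, hP, hx, he, hb, _⟩ := h _ (hm hy)
    exact (G2a_core (hP'.sm y hy) hP hx he hb).1.contDiffWithinAt
  · obtain ⟨ψ, U, x, hP, hx, he, hb, hd⟩ := h _ (hm hy)
    exact (G2a_core (hP'.sm y hy) hP hx he hb).2 w hd

theorem ClO.of_loc {w : Fo M k} (h : ∀ m ∈ O, ∃ ψ U x, Par ψ U ∧ x ∈ U ∧ ψ x = m ∧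
    ContDiffAt ℝ ∞ (pl ψ w) x ∧ extDeriv (pl ψ w) x = 0) : ClO w O :=
  G2a_cl.2 (IsDO.of_loc fun m hm => by
    obtain ⟨ψ, U, x, hP, hx, he, hb, hd⟩ := h m hm
    exact ⟨ψ, U, x, hP, hx, he, hb, by rw [hd, pl_zero]; rfl⟩)

theorem IsDO.of_par (hP : Par ψ U) {b : Fo M k} {w : Fo M (k + 1)}
    (h : IsD (pl ψ b) (pl ψ w) U) : IsDO b w (ψ '' U) :=
  IsDO.of_loc fun _ ⟨x, hx, he⟩ => ⟨ψ, U, x, hP, hx, he, h.1.at hP.opn hx, h.2 x hx⟩

theorem ClO.of_par (hP : Par ψ U) {w : Fo M k} (h : Cl (pl ψ w) U) : ClO w (ψ '' U) :=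
  ClO.of_loc fun _ ⟨x, hx, he⟩ => ⟨ψ, U, x, hP, hx, he, h.1.at hP.opn hx, h.2 x hx⟩

theorem ClO.sm {w : Fo M k} (h : ClO w O) : SmO w O := fun ψ U hP hm => (h ψ U hP hm).1

theorem IsDO.sm {b : Fo M k} {w : Fo M (k + 1)} (h : IsDO b w O) : SmO b O :=
  fun ψ U hP hm => (h ψ U hP hm).1

theorem SmO.mono {w : Fo M k} (h : SmO w O) (hs : O' ⊆ O) : SmO w O' :=
  fun ψ U hP hm => h ψ U hP (hm.mono_right hs)

theorem ClO.mono {w : Fo M k} (h : ClO w O) (hs : O' ⊆ O) : ClO w O' :=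
  fun ψ U hP hm => h ψ U hP (hm.mono_right hs)

theorem IsDO.mono {b : Fo M k} {w : Fo M (k + 1)} (h : IsDO b w O) (hs : O' ⊆ O) :
    IsDO b w O' :=
  fun ψ U hP hm => h ψ U hP (hm.mono_right hs)

theorem ExO.mono {w : Fo M (k + 1)} (h : ExO w O) (hs : O' ⊆ O) : ExO w O' :=
  h.imp fun _ hb => hb.mono hs

theorem ClO.iUnion {J : Type} {N : J → Set M} (hN : ∀ j, IsOpen (N j)) {w : Fo M k}
    (h : ∀ j, ClO w (N j)) : ClO w (⋃ j, N j) :=
  ClO.of_loc fun m hm => by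
    obtain ⟨j, hj⟩ := mem_iUnion.1 hm
    obtain ⟨ψ, U, x, hP, hx, he, hmp⟩ := G2a_chart (hN j) hj
    exact ⟨ψ, U, x, hP, hx, he, (h j ψ U hP hmp).1.at hP.opn hx, (h j ψ U hP hmp).2 x hx⟩

theorem IsDO.iUnion {J : Type} {N : J → Set M} (hN : ∀ j, IsOpen (N j)) {b : Fo M k}
    {w : Fo M (k + 1)} (h : ∀ j, IsDO b w (N j)) : IsDO b w (⋃ j, N j) :=
  IsDO.of_loc fun m hm => by
    obtain ⟨j, hj⟩ := mem_iUnion.1 hm
    obtain ⟨ψ, U, x, hP, hx, he, hmp⟩ := G2a_chart (hN j) hj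
    exact ⟨ψ, U, x, hP, hx, he, (h j ψ U hP hmp).1.at hP.opn hx, (h j ψ U hP hmp).2 x hx⟩

theorem ClO.congr {w w' : Fo M k} (h : ClO w O) (he : ∀ m ∈ O, w' m = w m) : ClO w' O :=
  fun ψ U hP hm => by
  have e : ∀ x ∈ U, pl ψ w' x = pl ψ w x := fun x hx => pl_congr' ψ (he _ (hm hx))
  refine ⟨(h ψ U hP hm).1.congr e, fun x hx => ?_⟩
  rw [Filter.EventuallyEq.extDeriv_eq (Filter.mem_of_superset (hP.opn.mem_nhds hx) e),
    (h ψ U hP hm).2 x hx]

theorem IsDO.congr {b b' : Fo M k} {w w' : Fo M (k + 1)} (h : IsDO b w O)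
    (hb : ∀ m ∈ O, b' m = b m) (hw : ∀ m ∈ O, w' m = w m) : IsDO b' w' O :=
  fun ψ U hP hm => by
  have e : ∀ x ∈ U, pl ψ b' x = pl ψ b x := fun x hx => pl_congr' ψ (hb _ (hm hx))
  refine ⟨(h ψ U hP hm).1.congr e, fun x hx => ?_⟩
  rw [Filter.EventuallyEq.extDeriv_eq (Filter.mem_of_superset (hP.opn.mem_nhds hx) e),
    (h ψ U hP hm).2 x hx, pl_congr' ψ (hw _ (hm hx))]

theorem ExO.congr {w w' : Fo M (k + 1)} (h : ExO w O) (hw : ∀ m ∈ O, w' m = w m) : ExO w' O :=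
  h.imp fun _ hb => hb.congr (fun _ _ => rfl) hw

theorem ClO.zero : ClO (0 : Fo M k) O := fun ψ U _ _ => by
  rw [pl_zero]
  exact ⟨contDiffOn_const, fun x _ => extDeriv_const 0 x⟩

theorem ClO.add {w w' : Fo M k} (h : ClO w O) (h' : ClO w' O) : ClO (w + w') O :=
  G2a_cl.2 ((G2a_add (G2a_cl.1 h) (G2a_cl.1 h')).congr (fun _ _ => rfl) fun _ _ => by simp)

theorem ClO.sub {w w' : Fo M k} (h : ClO w O) (h' : ClO w' O) : ClO (w - w') O :=
  G2a_cl.2 ((G2a_sub (G2a_cl.1 h) (G2a_cl.1 h')).congr (fun _ _ => rfl) fun _ _ => by simp)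

theorem ClO.smul {w : Fo M k} (h : ClO w O) (t : ℝ) : ClO (t • w) O :=
  G2a_cl.2 ((G2a_smul (G2a_cl.1 h) t).congr (fun _ _ => rfl) fun _ _ => by simp)

theorem ExO.add {w w' : Fo M (k + 1)} (h : ExO w O) (h' : ExO w' O) : ExO (w + w') O := by
  obtain ⟨b, hb⟩ := h
  obtain ⟨b', hb'⟩ := h'
  exact ⟨_, G2a_add hb hb'⟩

theorem ExO.sub {w w' : Fo M (k + 1)} (h : ExO w O) (h' : ExO w' O) : ExO (w - w') O := by
  obtain ⟨b, hb⟩ := h
  obtain ⟨b', hb'⟩ := h'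
  exact ⟨_, G2a_sub hb hb'⟩

theorem ExO.smul {w : Fo M (k + 1)} (h : ExO w O) (t : ℝ) : ExO (t • w) O := by
  obtain ⟨b, hb⟩ := h
  exact ⟨_, G2a_smul hb t⟩

theorem IsDO.cl {b : Fo M k} {w : Fo M (k + 1)} (h : IsDO b w O) : ClO w O :=
  fun ψ U hP hm => (h ψ U hP hm).cl hP.opn

theorem IsDO.sub_cl {b b' : Fo M k} {w : Fo M (k + 1)} (h : IsDO b w O) (h' : IsDO b' w O) :
    ClO (b - b') O :=
  G2a_cl.2 ((G2a_sub h h').congr (fun _ _ => rfl) fun _ _ => by simp)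

theorem SmO.pl {w : Fo M k} (h : SmO w O) (hO : IsOpen O) {c : F → M} {N : Set F} (hN : IsOpen N)
    (hc : ∀ y ∈ N, SmAt c y) (hm : MapsTo c N O) : Sm (Cy.pl c w) N := fun y hy => by
  obtain ⟨ψ, U, x, hP, hx, he, hmp⟩ := G2a_chart hO (hm hy)
  exact (G2a_core (hc y hy) hP hx he ((h ψ U hP hmp).at hP.opn hx)).1.contDiffWithinAt

theorem ClO.pl {w : Fo M k} (h : ClO w O) (hO : IsOpen O) {c : F → M} {N : Set F} (hN : IsOpen N)
    (hc : ∀ y ∈ N, SmAt c y) (hm : MapsTo c N O) : Cl (Cy.pl c w) N := by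
  refine ⟨h.sm.pl hO hN hc hm, fun y hy => ?_⟩
  obtain ⟨ψ, U, x, hP, hx, he, hmp⟩ := G2a_chart hO (hm hy)
  rw [(G2a_core (hc y hy) hP hx he ((h ψ U hP hmp).1.at hP.opn hx)).2 0
    ((G2a_cl.1 h ψ U hP hmp).2 x hx), pl_zero]
  rfl

theorem IsDO.pl {b : Fo M k} {w : Fo M (k + 1)} (h : IsDO b w O) (hO : IsOpen O) {c : F → M}
    {N : Set F} (hN : IsOpen N) (hc : ∀ y ∈ N, SmAt c y) (hm : MapsTo c N O) :
    IsD (Cy.pl c b) (Cy.pl c w) N := by
  refine ⟨h.sm.pl hO hN hc hm, fun y hy => ?_⟩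
  obtain ⟨ψ, U, x, hP, hx, he, hmp⟩ := G2a_chart hO (hm hy)
  exact (G2a_core (hc y hy) hP hx he ((h ψ U hP hmp).1.at hP.opn hx)).2 w
    ((h ψ U hP hmp).2 x hx)

end Pool.Agent.Work.MP_bf98aa_gt.Cy
end

-- merged part: Pool.Agent.Work.MP_bf98aa_gt.Cy.G8a
section
/-!
Gluing of atlases.

PLAN. `Gl.Ok.pre`: case analysis on the four (eight for `trans`) cases. First prove for the mixed relation `S`: left and right composition with `A.R`, `B.R`; two `S` with the same right (left) end give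
`A.R` (`B.R`) by `iff`. `loc`: compose the local maps, `D l` is open; for `inr, inl` use `o'`. `clo`: if `x` is related to `z ∈ D l` through the local map `f`,
then nearby pairs `(x', y')` of the mixed relation satisfy `B.R (o (f x')) y'`, so `(o z, y)` is in the closure (`mem_closure_iff_frequently`, or `map_mem_closure` after restricting), and `B.clo` applies;
for `inr, inl` swap the factors.
-/

set_option autoImplicit false

open scoped Manifold ContDiff Topology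
open Set

namespace Pool.Agent.Work.MP_bf98aa_gt.Cy

open Pool.Agent.Work.MP_bf98aa_gt.Th

theorem Atl.Pre.copies {ι : Type} {A : Atl ι} (h : A.Pre) (J : Type) : (A.copies J).Pre where
  opn p := h.opn p.2
  mem hr := h.mem hr.2
  refl hx := ⟨rfl, h.refl hx⟩
  symm hr := ⟨hr.1.symm, h.symm hr.2⟩
  trans hr hr' := ⟨hr.1.trans hr'.1, h.trans hr.2 hr'.2⟩
  loc hr := by
    obtain ⟨f, h1, h2, h3⟩ := h.loc hr.2
    exact ⟨f, h1, h2, h3.mono fun z hz => ⟨hr.1, hz⟩⟩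
  inj hx := (h.inj hx).mono fun p hp hr => hp hr.2
  clo := fun {i x j y} hx hy hc => by
    obtain ⟨p, hp⟩ := (mem_closure_iff_frequently.1 hc).exists
    exact ⟨hp.1, h.clo hx hy (closure_mono (fun p hp => hp.2) hc)⟩

section
variable {ι₁ ι₂ L : Type} {G : Gl ι₁ ι₂ L} {A : Atl ι₁} {B : Atl ι₂} {i i' : ι₁} {j j' : ι₂}
  {x x' y y' : E6}

theorem G8a_mem (hA : A.Pre) (hB : B.Pre) (hs : G.S A B i x j y) : x ∈ A.W i ∧ y ∈ B.W j := by
  obtain ⟨l, z, -, h1, h2⟩ := hs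
  exact ⟨(hA.mem h1).1, (hB.mem h2).2⟩

theorem G8a_left (hA : A.Pre) (hr : A.R i' x' i x) (hs : G.S A B i x j y) : G.S A B i' x' j y := by
  obtain ⟨l, z, hz, h1, h2⟩ := hs
  exact ⟨l, z, hz, hA.trans hr h1, h2⟩

theorem G8a_right (hB : B.Pre) (hs : G.S A B i x j y) (hr : B.R j y j' y') : G.S A B i x j' y' := by
  obtain ⟨l, z, hz, h1, h2⟩ := hs
  exact ⟨l, z, hz, h1, hB.trans h2 hr⟩

theorem G8a_A (h : G.Ok A B) (hA : A.Pre) (hB : B.Pre) (hs : G.S A B i x j y)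
    (hs' : G.S A B i' x' j y) : A.R i x i' x' := by
  obtain ⟨l, z, hz, h1, h2⟩ := hs
  obtain ⟨l', z', hz', h1', h2'⟩ := hs'
  exact hA.trans (hA.trans h1 ((h.iff l l' z hz z' hz').2 (hB.trans h2 (hB.symm h2'))))
    (hA.symm h1')

theorem G8a_B (h : G.Ok A B) (hA : A.Pre) (hB : B.Pre) (hs : G.S A B i x j y)
    (hs' : G.S A B i x j' y') : B.R j y j' y' := by
  obtain ⟨l, z, hz, h1, h2⟩ := hs
  obtain ⟨l', z', hz', h1', h2'⟩ := hs'
  exact hB.trans (hB.trans (hB.symm h2) ((h.iff l l' z hz z' hz').1 (hA.trans (hA.symm h1) h1')))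
    h2'

theorem G8a_loc (h : G.Ok A B) (hA : A.Pre) (hB : B.Pre) (hs : G.S A B i x j y) :
    ∃ f : E6 → E6, ContDiffAt ℝ ∞ f x ∧ f x = y ∧ ∀ᶠ w in 𝓝 x, G.S A B i w j (f w) := by
  obtain ⟨l, z, hz, h1, h2⟩ := hs
  obtain ⟨f, f1, rfl, f3⟩ := hA.loc h1
  obtain ⟨g, g1, rfl, g3⟩ := hB.loc h2
  have h3 : ContDiffAt ℝ ∞ (fun w => G.o l (f w)) x := (h.sm l _ hz).1.comp x f1
  refine ⟨fun w => g (G.o l (f w)), g1.comp x h3, rfl, ?_⟩
  filter_upwards [f3, f1.continuousAt.eventually ((h.opn l).mem_nhds hz),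
    h3.continuousAt.eventually g3] with w a1 a2 a3
  exact ⟨l, f w, a2, a1, a3⟩

theorem G8a_loc' (h : G.Ok A B) (hA : A.Pre) (hB : B.Pre) (hs : G.S A B i x j y) :
    ∃ f : E6 → E6, ContDiffAt ℝ ∞ f y ∧ f y = x ∧ ∀ᶠ w in 𝓝 y, G.S A B i (f w) j w := by
  obtain ⟨l, z, hz, h1, h2⟩ := hs
  obtain ⟨f, f1, f2, f3⟩ := hB.loc (hB.symm h2)
  obtain ⟨g, g1, g2, g3⟩ := hA.loc (hA.symm h1)
  obtain ⟨-, o, o1, o2, o3⟩ := h.sm l z hz
  rw [← f2] at o1 o2 o3
  have h3 : ContDiffAt ℝ ∞ (fun w => o (f w)) y := o1.comp y f1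
  rw [← o2] at g1 g2 g3 hz
  refine ⟨fun w => g (o (f w)), g1.comp y h3, g2, ?_⟩
  filter_upwards [f3, f1.continuousAt.eventually o3,
    h3.continuousAt.eventually ((h.opn l).mem_nhds hz), h3.continuousAt.eventually g3]
    with w a1 a2 a3 a4
  exact ⟨l, o (f w), a3, hA.symm a4, a2.symm ▸ hB.symm a1⟩

theorem G8a_clo (h : G.Ok A B) (hA : A.Pre) (hB : B.Pre) (hx : x ∈ A.W i) (hy : y ∈ B.W j)
    (hc : (x, y) ∈ closure {p : E6 × E6 | G.S A B i p.1 j p.2}) : G.S A B i x j y := by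
  obtain ⟨l, z, hz, h1⟩ := h.clo i j x hx y hy hc
  obtain ⟨f, f1, rfl, f3⟩ := hA.loc h1
  refine ⟨l, f x, hz, h1, hB.clo (h.maps l hz) hy (mem_closure_iff_frequently.2 ?_)⟩
  have h3 : ContinuousAt (fun w => G.o l (f w)) x := ((h.sm l _ hz).1.comp x f1).continuousAt
  have h4 : ContinuousAt (fun p : E6 × E6 => (G.o l (f p.1), p.2)) (x, y) :=
    (ContinuousAt.comp (f := Prod.fst) (x := (x, y)) h3 continuousAt_fst).prodMk continuousAt_snd
  have h5 : ∀ᶠ p : E6 × E6 in 𝓝 (x, y), A.R i p.1 (G.s l) (f p.1) ∧ f p.1 ∈ G.D l :=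
    (continuousAt_fst (p := (x, y))).eventually
      (f3.and (f1.continuousAt.eventually ((h.opn l).mem_nhds hz)))
  refine Filter.Tendsto.frequently h4 (((mem_closure_iff_frequently.1 hc).and_eventually h5).mono
    fun p hp => ?_)
  exact G8a_B h hA hB ⟨l, f p.1, hp.2.2, hp.2.1, hB.refl (h.maps l hp.2.2)⟩ hp.1

end

theorem Gl.Ok.pre {ι₁ ι₂ L : Type} {G : Gl ι₁ ι₂ L} {A : Atl ι₁} {B : Atl ι₂} (h : G.Ok A B)
    (hA : A.Pre) (hB : B.Pre) : (G.atl A B).Pre where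
  opn := fun
    | .inl i => hA.opn i
    | .inr i => hB.opn i
  mem := fun {i x j y} hr => by
    rcases i with i | i <;> rcases j with j | j
    · exact hA.mem hr
    · exact G8a_mem (G := G) (i := i) (j := j) hA hB hr
    · exact (G8a_mem hA hB hr).symm
    · exact hB.mem hr
  refl := fun {i x} hx => by
    rcases i with i | i
    · exact hA.refl hx
    · exact hB.refl hx
  symm := fun {i x j y} hr => by
    rcases i with i | i <;> rcases j with j | j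
    · exact hA.symm hr
    · exact hr
    · exact hr
    · exact hB.symm hr
  trans := fun {i x j y l z} hr hr' => by
    rcases i with i | i <;> rcases j with j | j <;> rcases l with l | l
    · exact hA.trans hr hr'
    · exact G8a_left hA hr hr'
    · exact G8a_A (i := i) (i' := l) h hA hB hr hr'
    · exact G8a_right hB hr hr'
    · exact G8a_left hA (hA.symm hr') hr
    · exact G8a_B (j := i) (j' := l) h hA hB hr hr'
    · exact G8a_right hB hr' (hB.symm hr)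
    · exact hB.trans hr hr'
  loc := fun {i x j y} hr => by
    rcases i with i | i <;> rcases j with j | j
    · exact hA.loc hr
    · exact G8a_loc h hA hB hr
    · exact G8a_loc' h hA hB hr
    · exact hB.loc hr
  inj := fun {i x} hx => by
    rcases i with i | i
    · exact hA.inj hx
    · exact hB.inj hx
  clo := fun {i x j y} hx hy hc => by
    rcases i with i | i <;> rcases j with j | j
    · exact hA.clo hx hy hc
    · exact G8a_clo h hA hB hx hy hc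
    · exact G8a_clo h hA hB hy hx (map_mem_closure (f := Prod.swap) (x := (x, y)) continuous_swap hc
        fun p hp => hp)
    · exact hB.clo hx hy hc

end Pool.Agent.Work.MP_bf98aa_gt.Cy
end

-- merged part: Pool.Agent.Work.MP_bf98aa_gt.Cy.G8
section
/-!
From an atlas with a gluing relation to a manifold.

PLAN. `exists_mfd`: `X = Σ i, W i`, `M` the quotient; the quotient map is open (`loc`), `M` is Hausdorff because the relation is closed (`clo`), compact as a finite union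
of images. For `m` choose a representative `(i, x)` and an open neighbourhood `N ⊆ W i` on which the relation is trivial (`inj`); the chart is the inverse of `q i` on `N`;
transition maps agree locally with the maps of `loc`. Compare `Th/ZMan.lean` and `Cp/PMan.lean` (same construction).
-/

set_option autoImplicit false

open scoped Manifold ContDiff Topology
open Set

namespace Pool.Agent.Work.MP_bf98aa_gt.Cy

open Pool.Agent.Work.MP_bf98aa_gt.Th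

/-- The quotient as a topological space. -/
theorem G8_space {ι : Type} {A : Atl ι} (h : A.Pre) (hne : ∃ i, (A.W i).Nonempty) :
    ∃ (M : Type) (_ : TopologicalSpace M) (q : ι → E6 → M),
      (∀ i j, ∀ x ∈ A.W i, ∀ y ∈ A.W j, q i x = q j y ↔ A.R i x j y) ∧
      (∀ m, ∃ i, ∃ x ∈ A.W i, q i x = m) ∧
      ∀ U : Set M, IsOpen U ↔ ∀ a, IsOpen (A.W a ∩ q a ⁻¹' U) := by
  classical
  obtain ⟨i₀, y₀, h₀⟩ := hne
  let s : Setoid {p : ι × E6 // p.2 ∈ A.W p.1} :=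
    ⟨fun p p' => A.R p.1.1 p.1.2 p'.1.1 p'.1.2, fun p => h.refl p.2, fun h1 => h.symm h1,
      fun h1 h2 => h.trans h1 h2⟩
  let q : ι → E6 → Quotient s := fun a y =>
    if hy : y ∈ A.W a then Quotient.mk s ⟨(a, y), hy⟩ else Quotient.mk s ⟨(i₀, y₀), h₀⟩
  let τ : TopologicalSpace (Quotient s) :=
    { IsOpen := fun U => ∀ a, IsOpen (A.W a ∩ q a ⁻¹' U)
      isOpen_univ := fun a => by simpa using h.opn a
      isOpen_inter := fun U U' h1 h2 a => by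
        have e : A.W a ∩ q a ⁻¹' (U ∩ U') = (A.W a ∩ q a ⁻¹' U) ∩ (A.W a ∩ q a ⁻¹' U') := by
          ext x
          simp only [mem_inter_iff, mem_preimage]
          tauto
        rw [e]
        exact (h1 a).inter (h2 a)
      isOpen_sUnion := fun S h0 a => by
        have e : A.W a ∩ q a ⁻¹' (⋃₀ S) = ⋃ U ∈ S, A.W a ∩ q a ⁻¹' U := by
          ext x
          simp only [mem_inter_iff, mem_preimage, mem_sUnion, mem_iUnion]
          constructor
          · rintro ⟨h1, U, h2, h3⟩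
            exact ⟨U, h2, h1, h3⟩
          · rintro ⟨U, h2, h1, h3⟩
            exact ⟨h1, U, h2, h3⟩
        rw [e]
        exact isOpen_biUnion fun U hU => h0 U hU a }
  refine ⟨Quotient s, τ, q, ?_, ?_, fun U => Iff.rfl⟩
  · intro a b y hy z hz
    simp only [q, dif_pos hy, dif_pos hz]
    exact Quotient.eq
  · intro m
    obtain ⟨⟨⟨a, y⟩, h1⟩, rfl⟩ := Quotient.exists_rep m
    exact ⟨a, y, h1, dif_pos h1⟩

section
variable {ι : Type} {A : Atl ι} {M : Type} [TopologicalSpace M] {q : ι → E6 → M}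

theorem G8_cont (h : A.Pre) (ho : ∀ U : Set M, IsOpen U ↔ ∀ a, IsOpen (A.W a ∩ q a ⁻¹' U))
    (a : ι) : ContinuousOn (q a) (A.W a) :=
  (continuousOn_open_iff (h.opn a)).2 fun U hU => (ho U).1 hU a

theorem G8_opn (h : A.Pre)
    (he : ∀ i j, ∀ x ∈ A.W i, ∀ y ∈ A.W j, q i x = q j y ↔ A.R i x j y)
    (ho : ∀ U : Set M, IsOpen U ↔ ∀ a, IsOpen (A.W a ∩ q a ⁻¹' U))
    (a : ι) (U : Set E6) (hU : IsOpen U) (hW : U ⊆ A.W a) : IsOpen (q a '' U) := by
  refine (ho _).2 fun b => ?_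
  rw [isOpen_iff_mem_nhds]
  rintro z ⟨hz, y, hy, e⟩
  obtain ⟨f, hf, rfl, hr⟩ := h.loc ((he b a z hz y (hW hy)).1 e.symm)
  filter_upwards [hr, hf.continuousAt.eventually (hU.mem_nhds hy)] with x h1 h2
  exact ⟨(h.mem h1).1, f x, h2, ((he b a x (h.mem h1).1 _ (h.mem h1).2).2 h1).symm⟩

theorem G8_t2 (h : A.Pre)
    (he : ∀ i j, ∀ x ∈ A.W i, ∀ y ∈ A.W j, q i x = q j y ↔ A.R i x j y)
    (hs : ∀ m, ∃ i, ∃ x ∈ A.W i, q i x = m)
    (hm : ∀ a U, IsOpen U → U ⊆ A.W a → IsOpen (q a '' U)) : T2Space M := by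
  refine ⟨fun m m' hne => ?_⟩
  obtain ⟨a, y, hy, rfl⟩ := hs m
  obtain ⟨b, z, hz, rfl⟩ := hs m'
  have h0 : (y, z) ∉ closure {p : E6 × E6 | A.R a p.1 b p.2} := fun hc =>
    hne ((he a b y hy z hz).2 (h.clo hy hz hc))
  have h1 : (closure {p : E6 × E6 | A.R a p.1 b p.2})ᶜ ∈ 𝓝 (y, z) :=
    isClosed_closure.isOpen_compl.mem_nhds h0
  obtain ⟨U, V, hU, hyU, hV, hzV, h2⟩ := mem_nhds_prod_iff'.1 h1
  refine ⟨q a '' (U ∩ A.W a), q b '' (V ∩ A.W b),
    hm a _ (hU.inter (h.opn a)) inter_subset_right,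
    hm b _ (hV.inter (h.opn b)) inter_subset_right, ⟨y, ⟨hyU, hy⟩, rfl⟩, ⟨z, ⟨hzV, hz⟩, rfl⟩, ?_⟩
  rw [Set.disjoint_left]
  rintro _ ⟨x, hx, rfl⟩ ⟨x', hx', e⟩
  exact h2 (mk_mem_prod hx.1 hx'.1) (subset_closure ((he a b x hx.2 x' hx'.2).1 e.symm))

theorem G8_cpt [Finite ι] (hK : A.Cpt)
    (he : ∀ i j, ∀ x ∈ A.W i, ∀ y ∈ A.W j, q i x = q j y ↔ A.R i x j y)
    (hs : ∀ m, ∃ i, ∃ x ∈ A.W i, q i x = m) (hc : ∀ a, ContinuousOn (q a) (A.W a)) :
    CompactSpace M := by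
  obtain ⟨K, h1, h2⟩ := hK
  refine ⟨?_⟩
  have e : (univ : Set M) = ⋃ a, q a '' K a := by
    refine (eq_univ_of_forall fun m => ?_).symm
    obtain ⟨a, y, hy, rfl⟩ := hs m
    obtain ⟨j, z, hz, h⟩ := h2 a y hy
    exact mem_iUnion.2 ⟨j, z, hz, ((he a j y hy z ((h1 j).2 hz)).2 h).symm⟩
  rw [e]
  exact isCompact_iUnion fun a => (h1 a).1.image_of_continuousOn ((hc a).mono (h1 a).2)

theorem G8_inj (h : A.Pre) {i : ι} {x : E6} (hx : x ∈ A.W i) :
    ∃ O : Set E6, IsOpen O ∧ x ∈ O ∧ O ⊆ A.W i ∧ ∀ y ∈ O, ∀ y' ∈ O, A.R i y i y' → y = y' := by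
  obtain ⟨U, V, hU, hxU, hV, hxV, h2⟩ := mem_nhds_prod_iff'.1 (h.inj hx)
  exact ⟨U ∩ V ∩ A.W i, (hU.inter hV).inter (h.opn i), ⟨⟨hxU, hxV⟩, hx⟩, inter_subset_right,
    fun y hy y' hy' hr => h2 (mk_mem_prod hy.1.1 hy'.1.2) hr⟩

theorem G8_chart
    (he : ∀ i j, ∀ x ∈ A.W i, ∀ y ∈ A.W j, q i x = q j y ↔ A.R i x j y)
    (hc : ∀ a, ContinuousOn (q a) (A.W a))
    (hm : ∀ a U, IsOpen U → U ⊆ A.W a → IsOpen (q a '' U)) {i : ι} {O : Set E6}
    (hO : IsOpen O) (hW : O ⊆ A.W i) (hi : ∀ x ∈ O, ∀ x' ∈ O, A.R i x i x' → x = x') :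
    ∃ e : OpenPartialHomeomorph M E6, e.source = q i '' O ∧ e.target = O ∧
      ∀ y, e.symm y = q i y := by
  have hinj : InjOn (q i) O := fun x hx x' hx' h1 =>
    hi x hx x' hx' ((he i i x (hW hx) x' (hW hx')).1 h1)
  have hop : IsOpenMap (O.domRestrict (q i)) := by
    intro U hU
    have h1 : IsOpen (Subtype.val '' U) := hO.isOpenMap_subtype_val U hU
    have h3 : Subtype.val '' U ⊆ A.W i := by
      rintro _ ⟨x, -, rfl⟩
      exact hW x.2
    have h4 := hm i _ h1 h3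
    rw [image_image] at h4
    exact h4
  exact ⟨(OpenPartialHomeomorph.ofContinuousOpenRestrict
    (hinj.toPartialEquiv _ _) ((hc i).mono hW) hop hO).symm, rfl, rfl, fun y => rfl⟩

/-- In a chart the map `q a` is a local map of the relation. -/
theorem G8_lift (h : A.Pre)
    (he : ∀ i j, ∀ x ∈ A.W i, ∀ y ∈ A.W j, q i x = q j y ↔ A.R i x j y)
    {a j : ι} {O : Set E6} (hO : IsOpen O) (hW : O ⊆ A.W j) {e : OpenPartialHomeomorph M E6}
    (h1 : e.source = q j '' O) (h2 : e.target = O) (h3 : ∀ y, e.symm y = q j y) {x : E6}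
    (hx : x ∈ A.W a) (hs : q a x ∈ e.source) :
    ContDiffAt ℝ ∞ (fun y => e (q a y)) x ∧ ∀ᶠ y in 𝓝 x, A.R a y j (e (q a y)) := by
  rw [h1] at hs
  obtain ⟨z, hz, hq⟩ := hs
  obtain ⟨f, hf, rfl, hr⟩ := h.loc ((he a j x hx z (hW hz)).1 hq.symm)
  have hev : ∀ᶠ y in 𝓝 x, e (q a y) = f y := by
    filter_upwards [hr, hf.continuousAt.eventually (hO.mem_nhds hz)] with y a1 a2
    rw [(he a j y (h.mem a1).1 _ (hW a2)).2 a1, ← h3]
    exact e.right_inv (h2 ▸ a2)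
  refine ⟨hf.congr_of_eventuallyEq hev, ?_⟩
  filter_upwards [hr, hev] with y a1 a2
  rwa [a2]

end

theorem Atl.exists_mfd {ι : Type} [Finite ι] (A : Atl ι) (h : A.Pre) (hc : A.Cpt)
    (hne : ∃ i, (A.W i).Nonempty) :
    ∃ (M : Type) (_ : TopologicalSpace M) (_ : T2Space M) (_ : CompactSpace M)
      (_ : ChartedSpace E6 M) (_ : IsManifold 𝓘(ℝ, E6) ∞ M) (q : ι → E6 → M),
      (∀ i, Par (q i) (A.W i)) ∧
      (∀ i j, ∀ x ∈ A.W i, ∀ y ∈ A.W j, q i x = q j y ↔ A.R i x j y) ∧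
      ∀ m, ∃ i, ∃ x ∈ A.W i, q i x = m := by
  obtain ⟨M, τ, q, he, hs, ho⟩ := G8_space h hne
  have hco := G8_cont h ho
  have hm := G8_opn h he ho
  have key : ∀ m : M, ∃ (i : ι) (O : Set E6) (e : OpenPartialHomeomorph M E6),
      IsOpen O ∧ O ⊆ A.W i ∧ m ∈ e.source ∧
        e.source = q i '' O ∧ e.target = O ∧ ∀ y, e.symm y = q i y := by
    intro m
    obtain ⟨a, y, hy, rfl⟩ := hs m
    obtain ⟨O, h1, h2, h3, h4⟩ := G8_inj h hy
    obtain ⟨e, h5, h6, h7⟩ := G8_chart he hco hm h1 h3 h4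
    exact ⟨a, O, e, h1, h3, h5 ▸ mem_image_of_mem _ h2, h5, h6, h7⟩
  choose i O e h1 h2 h4 h5 h6 h7 using key
  let cs : ChartedSpace E6 M :=
    { atlas := range e
      chartAt := e
      mem_chart_source := h4
      chart_mem_atlas := fun m => mem_range_self m }
  have hman : IsManifold 𝓘(ℝ, E6) ∞ M := by
    refine isManifold_of_contDiffOn _ _ _ ?_
    rintro _ _ ⟨m, rfl⟩ ⟨m', rfl⟩
    have h0 : ContDiffOn ℝ ∞ ((e m).symm ≫ₕ e m') ((e m).symm ≫ₕ e m').source := by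
      intro x hx
      rw [OpenPartialHomeomorph.trans_source, OpenPartialHomeomorph.symm_source, h6] at hx
      have hx2 : q (i m) x ∈ (e m').source := by
        rw [← h7]
        exact hx.2
      have h8 := (G8_lift h he (h1 m') (h2 m') (h5 m') (h6 m') (h7 m') (h2 m hx.1) hx2).1
      refine (h8.congr_of_eventuallyEq (Filter.Eventually.of_forall fun y => ?_)).contDiffWithinAt
      show e m' ((e m).symm y) = e m' (q (i m) y)
      rw [h7]
    simpa using h0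
  refine ⟨M, τ, G8_t2 h he hs hm, G8_cpt hc he hs hco, cs, hman, q, fun a => ⟨h.opn a, ?_, ?_⟩,
    he, hs⟩
  · intro x hx
    have h8 := (G8_lift h he (h1 _) (h2 _) (h5 _) (h6 _) (h7 _) hx (h4 (q a x))).1
    unfold SmAt
    rw [contMDiffAt_iff_target]
    exact ⟨(hco a).continuousAt ((h.opn a).mem_nhds hx), h8.contMDiffAt⟩
  · intro x hx
    obtain ⟨h8, h9⟩ := G8_lift h he (h1 _) (h2 _) (h5 _) (h6 _) (h7 _) hx (h4 (q a x))
    obtain ⟨g, hg, hgx, hr⟩ := h.loc (h.symm h9.self_of_nhds)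
    have hch : ContMDiffAt 𝓘(ℝ, E6) 𝓘(ℝ, E6) ∞ (e (q a x)) (q a x) :=
      contMDiffAt_extChartAt (I := 𝓘(ℝ, E6)) (x := q a x)
    refine ⟨fun m => g (e (q a x) m), hg.contMDiffAt.comp _ hch, ?_, ?_⟩
    · have ht : Filter.Tendsto (fun y => (y, g (e (q a x) (q a y)))) (𝓝 x) (𝓝 (x, x)) := by
        have h10 := (hg.continuousAt.comp (f := fun y => e (q a x) (q a y)) h8.continuousAt).tendsto
        refine Filter.Tendsto.prodMk_nhds Filter.tendsto_id ?_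
        have h11 : (g ∘ fun y => e (q a x) (q a y)) x = x := hgx
        rwa [h11] at h10
      filter_upwards [h9, h8.continuousAt.eventually hr, ht.eventually (h.inj hx)] with y a1 a2 a3
      exact (a3 (h.trans a1 a2)).symm
    · filter_upwards [hch.continuousAt.eventually hr, (e (q a x)).open_source.mem_nhds (h4 _)]
        with m a1 a2
      rw [← (he _ _ _ (h.mem a1).1 _ (h.mem a1).2).2 a1, ← h7]
      exact (e (q a x)).left_inv a2

end Pool.Agent.Work.MP_bf98aa_gt.Cy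
end
end
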