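import Pool.Agent.Work.MP_bf98aa_gt.Cy.G8
import Pool.Agent.Work.MP_bf98aa_gt.B3.DAl

-- merged part: Pool.Agent.Work.MP_bf98aa_gt.Cy.G4a
section
-- merged part: Pool.Agent.Work.MP_bf98aa_gt.Cy.G2
section
/-!
Descent of forms.

PLAN. `fo_ext`: `Par.bij`. `desc`: for `m` choose `(i, x)` with `q i x = m` and put `w m = α i x ∘ (dM (q i) x)⁻¹` (`Par.bij`, `LinearEquiv.ofBijective ..|>.toContinuousLinearEquiv`),
zero if there is none; for another `(j, y)` use the `Cmp` map `f` and `Tr.pl`. `dlog`: for a transition map `f` (`Par.tr`) the function `l j ∘ f - l i` is continuous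
with integer values near `x`, hence locally constant; closedness by `ClO.of_par`, `ClO.iUnion`, `extDeriv_one_apply`, `extDeriv_two_apply`, `D2_symm`.
`closed_iff`: `Form.loc w p = pl (chartAt E6 p).symm w` by `rfl`, `par_chart`, `ClO.of_loc`.
-/

set_option autoImplicit false

open scoped Manifold ContDiff Topology
open Set

namespace Pool.Agent.Work.MP_bf98aa_gt.Cy

open Pool.Agent.Work.MP_bf98aa_gt.Th

variable {M : Type} [TopologicalSpace M] [ChartedSpace E6 M] [IsManifold 𝓘(ℝ, E6) ∞ M]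
  {F F' : Type} [NormedAddCommGroup F] [NormedSpace ℝ F] [FiniteDimensional ℝ F]
  [NormedAddCommGroup F'] [NormedSpace ℝ F'] [FiniteDimensional ℝ F'] {k : ℕ}
  {ψ ψ' ψ'' : E6 → M} {U U' U'' V : Set E6} {O O' A B : Set M}

theorem fo_ext (hP : Par ψ U) {w w' : Fo M k} {x : E6} (hx : x ∈ U) (h : pl ψ w x = pl ψ w' x) :
    w (ψ x) = w' (ψ x) := by
  choose u hu using (hP.bij hx).2
  ext v
  have e : v = dM ψ x ∘ fun i => u (v i) := funext fun i => (hu _).symm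
  rw [e]
  exact congrArg (fun a : Alt E6 k => a fun i => u (v i)) h

theorem glue_disj {J : Type} {N : J → Set M} (hN : Pairwise fun i j => Disjoint (N i) (N j))
    (b : J → Fo M k) : ∃ b' : Fo M k, ∀ j, ∀ m ∈ N j, b' m = b j m := by
  have : ∀ m, ∃ a : Alt E6 k, ∀ j, m ∈ N j → a = b j m := fun m => by
    by_cases h : ∃ i, m ∈ N i
    · obtain ⟨i, hi⟩ := h
      refine ⟨b i m, fun j hj => ?_⟩
      by_cases e : i = j
      · rw [e]
      · exact absurd hj (Set.disjoint_left.1 (hN e) hi)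
    · exact ⟨0, fun j hj => absurd ⟨j, hj⟩ h⟩
  choose b' hb using this
  exact ⟨b', fun j m hm => hb m j hm⟩

theorem desc {ι : Type} {q : ι → E6 → M} {W : ι → Set E6} (hP : ∀ i, Par (q i) (W i))
    (α : ι → Fm E6 k)
    (h : ∀ i j, ∀ x ∈ W i, ∀ y ∈ W j, q i x = q j y → Cmp (q i) (α i) x (q j) (α j) y) :
    ∃ w : Fo M k, ∀ i, ∀ x ∈ W i, pl (q i) w x = α i x := by
  have : ∀ m, ∃ a : Alt E6 k, ∀ j, ∀ y ∈ W j, q j y = m → pl (q j) (fun _ => a) y = α j y := by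
    intro m
    by_cases hm : ∃ i, ∃ x ∈ W i, q i x = m
    · obtain ⟨i, x, hx, rfl⟩ := hm
      let L := (LinearEquiv.ofBijective (dM (q i) x).toLinearMap
        ((hP i).bij hx)).toContinuousLinearEquiv
      refine ⟨(α i x).compContinuousLinearMap L.symm.toContinuousLinearMap, fun j y hy e => ?_⟩
      obtain ⟨f, f1, rfl, f3⟩ := h j i y hy x hx e
      rw [f1.pl ((hP i).sm _ hx), ← f3]
      refine pb_congr' ?_
      ext v
      exact congrArg (α i (f y)) (funext fun s => L.symm_apply_apply (v s))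
    · exact ⟨0, fun j y hy e => absurd ⟨j, y, hy, e⟩ hm⟩
  choose w hw using this
  exact ⟨w, fun i x hx => hw _ i x hx rfl⟩

theorem G2_tr (hP : Par ψ U) (hP' : Par ψ' U') {l l' : E6 → ℝ} (hl : ContDiffOn ℝ ∞ l U)
    (hl' : ContDiffOn ℝ ∞ l' U')
    (h : ∀ x ∈ U, ∀ y ∈ U', ψ x = ψ' y → ∃ n : ℤ, l' y - l x = n) {f : E6 → E6} {x : E6}
    (hf : Tr ψ ψ' f x) (hx : x ∈ U) (hy : f x ∈ U') :
    (fderiv ℝ l' (f x)).comp (fderiv ℝ f x) = fderiv ℝ l x := by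
  have a := hl.contDiffAt (hP.opn.mem_nhds hx)
  have a' := hl'.contDiffAt (hP'.opn.mem_nhds hy)
  have c : ContinuousAt (fun z => l' (f z) - l z) x :=
    (a'.continuousAt.comp hf.1.continuousAt).sub a.continuousAt
  obtain ⟨n, hn⟩ := h x hx _ hy hf.2.self_of_nhds.symm
  have e : (fun z => l' (f z)) =ᶠ[𝓝 x] fun z => l z + n := by
    filter_upwards [hP.opn.mem_nhds hx, hf.1.continuousAt (hP'.opn.mem_nhds hy), hf.2,
      c (Metric.ball_mem_nhds _ one_pos)] with z h1 h2 h3 h4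
    obtain ⟨m, hm⟩ := h z h1 _ h2 h3.symm
    simp only [mem_preimage, Metric.mem_ball, hm, hn, Real.dist_eq] at h4
    have : m = n := by
      have h5 : |m - n| < 1 := by exact_mod_cast h4
      have := abs_lt.1 h5
      omega
    rw [← this, ← hm]
    ring
  rw [← fderiv_fun_comp x (a'.differentiableAt (by simp)) (hf.1.differentiableAt (by simp)),
    e.fderiv_eq, fderiv_add_const]

theorem G2_d2 {l : E6 → ℝ} {x : E6} (h : ContDiffAt ℝ ∞ l x) (v : E6) :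
    HasFDerivAt (fun y => fderiv ℝ l y v) ((D2 l x).flip v) x :=
  (ContinuousLinearMap.apply ℝ ℝ v).hasFDerivAt.comp x
    ((h.fderiv_right (m := ∞) le_rfl).differentiableAt (by simp)).hasFDerivAt

theorem G2_cl {α β : Fm E6 k} (hU : IsOpen U) (h : Cl α U) (e : ∀ x ∈ U, β x = α x) : Cl β U :=
  ⟨ContDiffOn.congr h.1 e, fun x hx =>
    (Filter.EventuallyEq.extDeriv_eq (Filter.mem_of_superset (hU.mem_nhds hx) e)).trans (h.2 x hx)⟩

theorem G2_cl1 (hU : IsOpen U) {l : E6 → ℝ} (hl : ContDiffOn ℝ ∞ l U) :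
    Cl (fun x => alt1 (fderiv ℝ l x)) U := by
  have s : Sm (fun x => alt1 (fderiv ℝ l x)) U :=
    contDiff_alt1.comp_contDiffOn (hl.fderiv_of_isOpen (m := ∞) hU le_rfl)
  refine ⟨s, fun x hx => alt_ext_two fun u v => ?_⟩
  have d := s.diffAt hU hx
  have a := hl.contDiffAt (hU.mem_nhds hx)
  have e : ∀ u v, fderiv ℝ (fun x => alt1 (fderiv ℝ l x)) x u ![v] = D2 l x u v := fun u v => by
    rw [← fderiv_continuousAlternatingMap_apply_const_apply d]
    exact congrArg (fun A : E6 →L[ℝ] ℝ => A u) (G2_d2 a v).fderiv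
  rw [extDeriv_one_apply d, e, e, D2_symm a, sub_self]
  rfl

theorem G2_cl2 (hU : IsOpen U) {l l' : E6 → ℝ} (hl : ContDiffOn ℝ ∞ l U)
    (hl' : ContDiffOn ℝ ∞ l' U) : Cl (fun x => wedge (fderiv ℝ l x) (fderiv ℝ l' x)) U := by
  have s : Sm (fun x => wedge (fderiv ℝ l x) (fderiv ℝ l' x)) U :=
    (contDiff_wedge.comp_contDiffOn ((hl.fderiv_of_isOpen (m := ∞) hU le_rfl).prodMk
      (hl'.fderiv_of_isOpen (m := ∞) hU le_rfl)) :)
  refine ⟨s, fun x hx => alt_ext_three fun u v z => ?_⟩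
  have d := s.diffAt hU hx
  have a := hl.contDiffAt (hU.mem_nhds hx)
  have a' := hl'.contDiffAt (hU.mem_nhds hx)
  have e : ∀ u v z, fderiv ℝ (fun x => wedge (fderiv ℝ l x) (fderiv ℝ l' x)) x u ![v, z] =
      fderiv ℝ l x v * D2 l' x u z + fderiv ℝ l' x z * D2 l x u v -
        (fderiv ℝ l x z * D2 l' x u v + fderiv ℝ l' x v * D2 l x u z) := fun u v z => by
    rw [← fderiv_continuousAlternatingMap_apply_const_apply d]
    simp only [wedge_apply]
    exact congrArg (fun A : E6 →L[ℝ] ℝ => A u)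
      (((G2_d2 a v).mul (G2_d2 a' z)).sub ((G2_d2 a z).mul (G2_d2 a' v))).fderiv
  rw [extDeriv_two_apply d, e, e, e, D2_symm a v u, D2_symm a z u, D2_symm a z v, D2_symm a' v u,
    D2_symm a' z u, D2_symm a' z v]
  show _ = (0 : ℝ)
  ring

theorem G2_desc {ι : Type} {q : ι → E6 → M} {W : ι → Set E6} (hP : ∀ i, Par (q i) (W i))
    (α : ι → Fm E6 k) (hc : ∀ i, Cl (α i) (W i))
    (h : ∀ i j f, ∀ x ∈ W i, f x ∈ W j → Tr (q i) (q j) f x → pb f (α j) x = α i x) :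
    ∃ a : Fo M k, ClO a (⋃ i, q i '' W i) ∧ ∀ i, ∀ x ∈ W i, pl (q i) a x = α i x := by
  obtain ⟨a, ha⟩ := desc hP α fun i j x hx y hy e => by
    obtain ⟨f, f1, rfl⟩ := (hP j).tr hy ((hP i).sm x hx) e
    exact ⟨f, f1, rfl, h i j f x hx hy f1⟩
  exact ⟨a, ClO.iUnion (fun i => (hP i).isOpen_image (hP i).opn subset_rfl)
    fun i => ClO.of_par (hP i) (G2_cl (hP i).opn (hc i) (ha i)), ha⟩

theorem dlog {ι : Type} {q : ι → E6 → M} {W : ι → Set E6} (hP : ∀ i, Par (q i) (W i))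
    {l : ι → E6 → ℝ} (hl : ∀ i, ContDiffOn ℝ ∞ (l i) (W i))
    (h : ∀ i j, ∀ x ∈ W i, ∀ y ∈ W j, q i x = q j y → ∃ n : ℤ, l j y - l i x = n) :
    ∃ a : Fo M 1, ClO a (⋃ i, q i '' W i) ∧
      ∀ i, ∀ x ∈ W i, pl (q i) a x = alt1 (fderiv ℝ (l i) x) :=
  G2_desc hP _ (fun i => G2_cl1 (hP i).opn (hl i)) fun i j f x hx hy hf => by
    rw [← G2_tr (hP i) (hP j) (hl i) (hl j) (h i j) hf hx hy]
    rfl

theorem dlog2 {ι : Type} {q : ι → E6 → M} {W : ι → Set E6} (hP : ∀ i, Par (q i) (W i))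
    {l l' : ι → E6 → ℝ} (hl : ∀ i, ContDiffOn ℝ ∞ (l i) (W i))
    (hl' : ∀ i, ContDiffOn ℝ ∞ (l' i) (W i))
    (h : ∀ i j, ∀ x ∈ W i, ∀ y ∈ W j, q i x = q j y → ∃ n : ℤ, l j y - l i x = n)
    (h' : ∀ i j, ∀ x ∈ W i, ∀ y ∈ W j, q i x = q j y → ∃ n : ℤ, l' j y - l' i x = n) :
    ∃ e : Fo M 2, ClO e (⋃ i, q i '' W i) ∧
      ∀ i, ∀ x ∈ W i, pl (q i) e x = wedge (fderiv ℝ (l i) x) (fderiv ℝ (l' i) x) :=
  G2_desc hP _ (fun i => G2_cl2 (hP i).opn (hl i) (hl' i)) fun i j f x hx hy hf => by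
    rw [← G2_tr (hP i) (hP j) (hl i) (hl j) (h i j) hf hx hy,
      ← G2_tr (hP i) (hP j) (hl' i) (hl' j) (h' i j) hf hx hy]
    ext v
    rw [wedge_apply]
    exact wedge_apply _ _ _

theorem closed_iff (w : Fo M k) : Form.Closed (E := E6) (M := M) w ↔ ClO w univ := by
  refine ⟨fun h => ClO.of_loc fun m _ => ?_, fun h =>
    ⟨fun p => (h _ _ (par_chart p) (mapsTo_univ _ _)).1,
      fun p => (h _ _ (par_chart p) (mapsTo_univ _ _)).2⟩⟩
  have hm := mem_chart_target E6 m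
  exact ⟨_, _, _, par_chart m, hm, (chartAt E6 m).left_inv (mem_chart_source E6 m),
    (h.1 m).contDiffAt ((chartAt E6 m).open_target.mem_nhds hm), h.2 m _ hm⟩

theorem exact_of {w : Fo M (k + 1)} (h : ExO w univ) : Form.Exact (E := E6) (M := M) w :=
  let ⟨b, hb⟩ := h
  ⟨b, fun p => (hb _ _ (par_chart p) (mapsTo_univ _ _)).1,
    fun p => (hb _ _ (par_chart p) (mapsTo_univ _ _)).2⟩

theorem nondeg_of {w : Fo M 2} (h : ∀ m, ∃ ψ U x, Par ψ U ∧ x ∈ U ∧ ψ x = m ∧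
    ∀ u, (∀ v, pl ψ w x ![u, v] = 0) → u = 0) : Form.Nondeg (E := E6) (M := M) w := by
  intro m u hu
  obtain ⟨ψ, U, x, hP, hx, rfl, h⟩ := h m
  obtain ⟨u', rfl⟩ := (hP.bij hx).2 u
  have : u' = 0 := h u' fun v =>
    (congrArg (w (ψ x)) (funext fun i => by fin_cases i <;> rfl)).trans (hu (dM ψ x v))
  rw [this]
  exact map_zero (dM ψ x)

end Pool.Agent.Work.MP_bf98aa_gt.Cy
end

-- merged part: Pool.Agent.Work.MP_bf98aa_gt.Cy.G4a
section
/-!
Retractions along segments.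

PLAN. `RA_seg`: `FMV_hom`, `IsD.pb`. `RA_star`: `RA_retract` with a small ball around `z` and the constant map. `preconn_seg`: every point is joined to `π x` by a segment
(`isPreconnected_of_forall_pair` or `isPreconnected_of_forall`). `contractible_seg`: the identity of `U` is homotopic to `π`, and `π` to a constant through `V`
(`contractible_iff_id_nullhomotopic`, `ContinuousMap.Homotopic.trans`).
-/

set_option autoImplicit false

open scoped Manifold ContDiff Topology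
open Set

namespace Pool.Agent.Work.MP_bf98aa_gt.Cy

open Pool.Agent.Work.MP_bf98aa_gt.Th

variable {k : ℕ} {U V : Set E6}

theorem RA_seg (hU : IsOpen U) (hV : IsOpen V) (hs : V ⊆ U) {π : E6 → E6} (hπ : ContDiff ℝ ∞ π)
    (hm : MapsTo π U V) (hg : Seg U π) (h : RA (k + 1) V) : RA (k + 1) U := by
  intro α hα
  obtain ⟨γ, e⟩ := h α (FMV_mono hα hs)
  exact FMV_hom hU hπ hg hα (e.pb hU hV hπ.contDiffOn hm)

theorem RA_star (hU : IsOpen U) {z : E6} (hz : z ∈ U) (h : StarConvex ℝ z U) (k : ℕ) : RA k U := by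
  obtain ⟨ε, hε, hb⟩ := Metric.isOpen_iff.1 hU z hz
  refine RA_retract hU Metric.isOpen_ball (convex_ball z ε) hb (r := fun _ => z) contDiff_const
    (fun _ _ => Metric.mem_ball_self hε) (fun x hx t ht => ?_) k
  have h1 := h hx ht.1 (sub_nonneg.2 ht.2) (by ring)
  have h2 : x + t • (z - x) = t • z + (1 - t) • x := by module
  rw [h2]
  exact h1

theorem preconn_seg {π : E6 → E6} (hm : MapsTo π U V) (hs : V ⊆ U) (hg : Seg U π)
    (h : IsPreconnected V) : IsPreconnected U := by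
  have hc : ∀ x : E6, IsPreconnected ((fun t : ℝ => x + t • (π x - x)) '' Icc 0 1) := fun x =>
    isPreconnected_Icc.image _ (by fun_prop)
  have h0 : ∀ x : E6, x ∈ (fun t : ℝ => x + t • (π x - x)) '' Icc 0 1 := fun x =>
    ⟨0, ⟨le_rfl, zero_le_one⟩, by simp⟩
  have h1 : ∀ x : E6, π x ∈ (fun t : ℝ => x + t • (π x - x)) '' Icc 0 1 := fun x =>
    ⟨1, ⟨zero_le_one, le_rfl⟩, by simp⟩
  have h2 : ∀ x ∈ U, (fun t : ℝ => x + t • (π x - x)) '' Icc 0 1 ⊆ U := by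
    rintro x hx _ ⟨t, ht, rfl⟩
    exact hg x hx t ht
  refine isPreconnected_of_forall_pair fun x hx y hy => ?_
  refine ⟨((fun t : ℝ => x + t • (π x - x)) '' Icc 0 1 ∪ V) ∪
    (fun t : ℝ => y + t • (π y - y)) '' Icc 0 1, union_subset (union_subset (h2 x hx) hs) (h2 y hy),
    Or.inl (Or.inl (h0 x)), Or.inr (h0 y), ?_⟩
  exact ((hc x).union (π x) (h1 x) (hm hx) h).union (π y) (Or.inr (hm hy)) (h1 y) (hc y)

theorem contractible_seg {π : E6 → E6} (hπ : Continuous π) (hm : MapsTo π U V) (hs : V ⊆ U)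
    (hg : Seg U π) (h : Convex ℝ V) (hne : V.Nonempty) : ContractibleSpace U := by
  obtain ⟨v, hv⟩ := hne
  let p : C(U, U) := ⟨fun x => ⟨π x, hs (hm x.2)⟩, by fun_prop⟩
  have h1 : (ContinuousMap.id U).Homotopic p := ⟨
    { toFun := fun q => ⟨q.2.1 + (q.1 : ℝ) • (π q.2.1 - q.2.1), hg _ q.2.2 _ q.1.2⟩
      continuous_toFun := by fun_prop
      map_zero_left := fun x => Subtype.ext (by simp)
      map_one_left := fun x => Subtype.ext (by simp [p]) }⟩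
  have h2 : p.Homotopic (ContinuousMap.const U ⟨v, hs hv⟩) := ⟨
    { toFun := fun q => ⟨π q.2.1 + (q.1 : ℝ) • (v - π q.2.1),
        hs (h.add_smul_sub_mem (hm q.2.2) hv q.1.2)⟩
      continuous_toFun := by fun_prop
      map_zero_left := fun x => Subtype.ext (by simp [p])
      map_one_left := fun x => Subtype.ext (by simp) }⟩
  exact (contractible_iff_id_nullhomotopic U).2 ⟨_, h1.trans h2⟩

end Pool.Agent.Work.MP_bf98aa_gt.Cy
end
end

-- merged part: Pool.Agent.Work.MP_bf98aa_gt.Cy.G4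
section
-- merged part: Pool.Agent.Work.MP_bf98aa_gt.Cy.G5
section
/-!
Charts with a deck group; retractions.

PLAN. `ex_of_inv`: `desc` with one chart (the deck maps are transition maps), `IsDO.of_par`. `retr`: `homotopy` with `H (t, x) = x + t • (π x - x)`,
`O = {p | p.2 ∈ U ∧ H p ∈ U}`, `p = 1`, `q = 0`, and `hK_nat` with `g = f`. `ex_of_sub`: if `w = d b` on `O'` then `pb π (pl ψ w) = d (pl (ψ ∘ π) b)`
(`IsDO.pl`, `pl_comp`), and `ψ ∘ π ∘ f = ψ ∘ f ∘ π = ψ ∘ π` on `U` (`Comm` at `t = 1`).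
-/

set_option autoImplicit false

open scoped Manifold ContDiff Topology
open Set

namespace Pool.Agent.Work.MP_bf98aa_gt.Cy

open Pool.Agent.Work.MP_bf98aa_gt.Th

variable {M : Type} [TopologicalSpace M] [ChartedSpace E6 M] [IsManifold 𝓘(ℝ, E6) ∞ M]
  {F F' : Type} [NormedAddCommGroup F] [NormedSpace ℝ F] [FiniteDimensional ℝ F]
  [NormedAddCommGroup F'] [NormedSpace ℝ F'] [FiniteDimensional ℝ F'] {k : ℕ}
  {ψ ψ' ψ'' : E6 → M} {U U' U'' V : Set E6} {O O' A B : Set M}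

variable {T : Set (E6 → E6)}

theorem G5_tr (hD : Deck ψ U T) {f : E6 → E6} (hf : f ∈ T) {x : E6} (hx : x ∈ U) : Tr ψ ψ f x :=
  ⟨(hD.sm f hf).contDiffAt, Filter.mem_of_superset (hD.par.opn.mem_nhds hx) fun z hz => hD.eq f hf z hz⟩

theorem G5_congr {β β' : Fm E6 k} {α α' : Fm E6 (k + 1)} (h : IsD β α U) (hU : IsOpen U)
    (hb : ∀ x ∈ U, β' x = β x) (ha : ∀ x ∈ U, α' x = α x) : IsD β' α' U := by
  refine ⟨ContDiffOn.congr h.1 hb, fun x hx => ?_⟩
  have e : β' =ᶠ[𝓝 x] β := Filter.mem_of_superset (hU.mem_nhds hx) hb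
  rw [e.extDeriv_eq, h.2 x hx, ha x hx]

theorem Deck.inv (hD : Deck ψ U T) (w : Fo M k) {f : E6 → E6} (hf : f ∈ T) {x : E6} (hx : x ∈ U) :
    pb f (pl ψ w) x = pl ψ w x :=
  ((G5_tr hD hf hx).pl (hD.par.sm _ (hD.maps f hf hx)) w).symm

theorem Deck.desc (hD : Deck ψ U T) {β : Fm E6 k} (hi : ∀ f ∈ T, ∀ x ∈ U, pb f β x = β x) :
    ∃ b : Fo M k, ∀ x ∈ U, pl ψ b x = β x := by
  obtain ⟨b, hb⟩ := Cy.desc (ι := Unit) (q := fun _ => ψ) (W := fun _ => U) (fun _ => hD.par)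
    (fun _ => β) fun _ _ x hx y hy e => by
      obtain ⟨f, hf, rfl⟩ := hD.trans x hx y hy e
      exact ⟨f, G5_tr hD hf hx, rfl, hi f hf x hx⟩
  exact ⟨b, hb ()⟩

theorem Deck.ex_of_inv (hD : Deck ψ U T) {β : Fm E6 k} {w : Fo M (k + 1)}
    (h : IsD β (pl ψ w) U) (hi : ∀ f ∈ T, ∀ x ∈ U, pb f β x = β x) : ExO w (ψ '' U) := by
  obtain ⟨b, hb⟩ := hD.desc hi
  exact ⟨b, IsDO.of_par hD.par (G5_congr h hD.par.opn hb fun _ _ => rfl)⟩

theorem Deck.retr (hD : Deck ψ U T) {π : E6 → E6} (hπ : ContDiff ℝ ∞ π) (hg : Seg U π)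
    (hc : Comm T π) {w : Fo M (k + 1)} (hw : ClO w (ψ '' U)) :
    ∃ β : Fm E6 k, IsD β (fun x => pl ψ w x - pb π (pl ψ w) x) U ∧
      ∀ f ∈ T, ∀ x ∈ U, pb f β x = β x := by
  have hU := hD.par.opn
  have hα : Cl (pl ψ w) U := hw ψ U hD.par (mapsTo_image ψ U)
  have hH : ContDiff ℝ ∞ fun p : ℝ × E6 => p.2 + p.1 • (π p.2 - p.2) :=
    contDiff_snd.add (contDiff_fst.smul ((hπ.comp contDiff_snd).sub contDiff_snd))
  have hO : IsOpen {p : ℝ × E6 | p.2 ∈ U ∧ p.2 + p.1 • (π p.2 - p.2) ∈ U} :=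
    (hU.preimage continuous_snd).inter (hU.preimage hH.continuous)
  have hUO : ∀ t ∈ Icc (0 : ℝ) 1, ∀ x ∈ U,
      (t, x) ∈ {p : ℝ × E6 | p.2 ∈ U ∧ p.2 + p.1 • (π p.2 - p.2) ∈ U} :=
    fun t ht x hx => ⟨hx, hg x hx t ht⟩
  have h := homotopy hO hH.contDiffOn hU (fun p hp => hp.2) hα hU hUO (-1) 0
  refine ⟨_, G5_congr h hU (fun _ _ => rfl) fun x _ => ?_, fun f hf x hx => ?_⟩
  · simp only [hA, add_zero, zero_smul, sub_zero, one_smul, add_sub_cancel]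
    rw [pb_id]
    ext v
    simp only [ContinuousAlternatingMap.sub_apply, ContinuousAlternatingMap.smul_apply, smul_eq_mul]
    ring
  · exact hK_nat hO hH.contDiffOn hU (fun p hp => hp.2) hα.1 (hD.sm f hf) (hD.sm f hf)
      (fun p hp => ⟨hD.maps f hf hp.1, hc f hf p.2 p.1 ▸ hD.maps f hf hp.2⟩)
      (fun p _ => (hc f hf p.2 p.1).symm) (fun y hy => hD.inv w hf hy) (by fun_prop)
      fun t ht => hUO t ht x hx

theorem Deck.ex_of_sub (hD : Deck ψ U T) {π : E6 → E6} (hπ : ContDiff ℝ ∞ π) (hg : Seg U π)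
    (hc : Comm T π) {w : Fo M (k + 1)} (hw : ClO w (ψ '' U)) (hO : IsOpen O)
    (hm : ∀ x ∈ U, ψ (π x) ∈ O) (he : ExO w O) : ExO w (ψ '' U) := by
  obtain ⟨β, h1, h2⟩ := hD.retr hπ hg hc hw
  obtain ⟨b, hb⟩ := he
  have hU := hD.par.opn
  have e1 : ∀ x ∈ U, π x ∈ U := fun x hx => by
    simpa using hg x hx 1 ⟨zero_le_one, le_rfl⟩
  have e2 : ∀ f ∈ T, ∀ x, π (f x) = f (π x) := fun f hf x => by simpa using (hc f hf x 1).symm
  have sm : ∀ y ∈ U, SmAt (fun z => ψ (π z)) y := fun y hy =>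
    (hD.par.sm _ (e1 y hy)).comp hπ.contDiffAt
  have h3 := hb.pl hO hU sm hm
  refine hD.ex_of_inv (β := β + pl (fun z => ψ (π z)) b) ⟨h1.1.add h3.1, fun x hx => ?_⟩
    fun f hf x hx => ?_
  · rw [extDeriv_add (h1.1.diffAt hU hx) (h3.1.diffAt hU hx), h1.2 x hx, h3.2 x hx,
      pl_comp (hD.par.sm _ (e1 x hx)) hπ.contDiffAt, sub_add_cancel]
  · rw [pb_add, Pi.add_apply, Pi.add_apply, h2 f hf x hx,
      ← pl_comp (sm _ (hD.maps f hf hx)) (hD.sm f hf).contDiffAt]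
    congr 1
    refine pl_congr (Filter.mem_of_superset (hU.mem_nhds hx) fun z hz => ?_) b
    show ψ (π (f z)) = ψ (π z)
    rw [e2 f hf, hD.eq f hf _ (e1 z hz)]

end Pool.Agent.Work.MP_bf98aa_gt.Cy
end

-- merged part: Pool.Agent.Work.MP_bf98aa_gt.Cy.G4
section
/-!
Potentials of closed 1-forms.

PLAN. A form of degree zero is `ContinuousAlternatingMap.constOfIsEmpty` of a function (`extDeriv_constOfIsEmpty`). `ex_of_pot`: `desc` with one chart;
a transition map `g` (`Par.tr`) satisfies `f ∘ g = f` near the point, `pb_deg_zero`. `jump`: the derivative of `f ∘ T - f` vanishes (`Tr.pl`), `IsOpen.is_const_of_fderiv_eq_zero`.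
`circ_pot`: `pl_comp` with `t ↦ (s, t)` and with `γ`, fundamental theorem of calculus.
-/

set_option autoImplicit false

open scoped Manifold ContDiff Topology
open Set

namespace Pool.Agent.Work.MP_bf98aa_gt.Cy

open Pool.Agent.Work.MP_bf98aa_gt.Th

variable {M : Type} [TopologicalSpace M] [ChartedSpace E6 M] [IsManifold 𝓘(ℝ, E6) ∞ M]
  {F F' : Type} [NormedAddCommGroup F] [NormedSpace ℝ F] [FiniteDimensional ℝ F]
  [NormedAddCommGroup F'] [NormedSpace ℝ F'] [FiniteDimensional ℝ F'] {k : ℕ}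
  {ψ ψ' ψ'' : E6 → M} {U U' U'' V : Set E6} {O O' A B : Set M}

/-- A number as a form of degree zero. -/
noncomputable def G4_c (E : Type) [NormedAddCommGroup E] [NormedSpace ℝ E] (a : ℝ) : Alt E 0 :=
  ContinuousAlternatingMap.constOfIsEmpty ℝ E (Fin 0) a

theorem G4_zero (w : Alt F 0) : w = G4_c F (w ![]) := by
  ext v
  exact congrArg w (Subsingleton.elim _ _)

theorem G4_ext (f : F → ℝ) (x : F) :
    extDeriv (fun y => G4_c F (f y)) x = alt1 (fderiv ℝ f x) :=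
  extDeriv_constOfIsEmpty f x

theorem pot (hP : Par ψ U) (hR : RA 1 U) {c : Fo M 1} (hc : ClO c O) (hm : MapsTo ψ U O) :
    ∃ f : E6 → ℝ, ContDiffOn ℝ ∞ f U ∧ ∀ x ∈ U, pl ψ c x = alt1 (fderiv ℝ f x) := by
  obtain ⟨β, hβ, hd⟩ := hR (pl ψ c) (hc ψ U hP hm)
  refine ⟨fun x => β x ![], fun x hx => ?_, fun x hx => ?_⟩
  · exact (contDiffAt_alt_iff.1 (hβ.at hP.opn hx) ![]).contDiffWithinAt
  · rw [← hd x hx, ← G4_ext]
    congr 1
    funext y
    exact G4_zero (β y)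

theorem ex_of_pot (hP : Par ψ U) {c : Fo M 1} {f : E6 → ℝ} (hf : ContDiffOn ℝ ∞ f U)
    (h : ∀ x ∈ U, pl ψ c x = alt1 (fderiv ℝ f x)) (hi : ∀ x ∈ U, ∀ y ∈ U, ψ x = ψ y → f x = f y) :
    ExO c (ψ '' U) := by
  classical
  let g : M → ℝ := fun m => if hm : ∃ x ∈ U, ψ x = m then f hm.choose else 0
  have hg : ∀ x ∈ U, g (ψ x) = f x := fun x hx => by
    have hm : ∃ y ∈ U, ψ y = ψ x := ⟨x, hx, rfl⟩
    simp only [g, dif_pos hm]
    exact hi _ hm.choose_spec.1 _ hx hm.choose_spec.2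
  refine ⟨fun m => G4_c E6 (g m), fun q W hq hm => ?_⟩
  have key : ∀ y ∈ W, ∃ t : E6 → E6, Tr q ψ t y ∧ t y ∈ U ∧
      pl q (fun m => G4_c E6 (g m)) =ᶠ[𝓝 y] fun z => G4_c E6 (f (t z)) := fun y hy => by
    obtain ⟨x, hx, e⟩ := hm hy
    obtain ⟨t, ht, e'⟩ := hP.tr hx (hq.sm y hy) e.symm
    have hU : t y ∈ U := e' ▸ hx
    refine ⟨t, ht, hU, ?_⟩
    filter_upwards [ht.2, ht.1.continuousAt.eventually (hP.opn.mem_nhds hU)] with z h1 h2
    rw [← hg _ h2, h1]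
    rfl
  refine ⟨fun y hy => ?_, fun y hy => ?_⟩
  · obtain ⟨t, ht, hU, e⟩ := key y hy
    have h1 : ContDiffAt ℝ ∞ (fun z => f (t z)) y :=
      (hf.contDiffAt (hP.opn.mem_nhds hU)).comp y ht.1
    have h2 : ContDiffAt ℝ ∞ (fun z => G4_c E6 (f (t z))) y :=
      contDiffAt_alt_iff.2 fun _ => h1
    exact (h2.congr_of_eventuallyEq e).contDiffWithinAt
  · obtain ⟨t, ht, hU, e⟩ := key y hy
    rw [e.extDeriv_eq, G4_ext, ht.pl (hP.sm _ hU), pb, h _ hU,
      fderiv_fun_comp y ((hf.contDiffAt (hP.opn.mem_nhds hU)).differentiableAt (by simp))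
        (ht.1.differentiableAt (by simp))]
    rfl

theorem jump (hP : Par ψ U) (hU : IsPreconnected U) {c : Fo M 1} {f : E6 → ℝ}
    (hf : ContDiffOn ℝ ∞ f U) (h : ∀ x ∈ U, pl ψ c x = alt1 (fderiv ℝ f x)) {T : E6 → E6}
    (hT : ContDiff ℝ ∞ T) (hm : MapsTo T U U) (he : ∀ x ∈ U, ψ (T x) = ψ x) :
    ∃ a : ℝ, ∀ x ∈ U, f (T x) - f x = a := by
  have hd : ∀ x ∈ U, DifferentiableAt ℝ f x := fun x hx =>
    (hf.contDiffAt (hP.opn.mem_nhds hx)).differentiableAt (by simp)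
  have hT' : ∀ x, DifferentiableAt ℝ T x := fun x => hT.differentiable (by simp) x
  have hc : ∀ x ∈ U, DifferentiableAt ℝ (fun x => f (T x)) x := fun x hx =>
    (hd _ (hm hx)).comp x (hT' x)
  have h0 : ∀ x ∈ U, fderiv ℝ (fun x => f (T x) - f x) x = 0 := fun x hx => by
    have ht : Tr ψ ψ T x := ⟨hT.contDiffAt, Filter.mem_of_superset (hP.opn.mem_nhds hx) he⟩
    have h1 := ht.pl (hP.sm _ (hm hx)) c
    rw [pb, h _ hx, h _ (hm hx)] at h1
    rw [fderiv_fun_sub (hc x hx) (hd x hx), fderiv_fun_comp x (hd _ (hm hx)) (hT' x)]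
    ext v
    have h2 : fderiv ℝ f x v = fderiv ℝ f (T x) (fderiv ℝ T x v) :=
      congrArg (fun w : Alt E6 1 => w ![v]) h1
    simp [h2]
  rcases U.eq_empty_or_nonempty with rfl | ⟨x₀, hx₀⟩
  · exact ⟨0, fun _ hx => hx.elim⟩
  · refine ⟨f (T x₀) - f x₀, fun x hx => ?_⟩
    exact hP.opn.is_const_of_fderiv_eq_zero (𝕜 := ℝ) (f := fun x => f (T x) - f x) hU
      (fun z hz => ((hc z hz).sub (hd z hz)).differentiableWithinAt) h0 hx hx₀

theorem circ_pot (hP : Par ψ U) {b : Fo M 1} {f : E6 → ℝ} (hf : ContDiffOn ℝ ∞ f U)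
    (h : ∀ x ∈ U, pl ψ b x = alt1 (fderiv ℝ f x)) {c : ℝ × ℝ → M} {s : ℝ} {γ : ℝ → E6}
    (hγ : ContDiff ℝ ∞ γ) (hm : ∀ t, γ t ∈ U) (hc : ∀ t, SmAt c (s, t))
    (he : ∀ t, c (s, t) = ψ (γ t)) : circ c b s = f (γ 1) - f (γ 0) := by
  have hfγ : ContDiff ℝ ∞ fun t => f (γ t) := hf.comp_contDiff hγ hm
  have hσ : ContDiff ℝ ∞ fun t : ℝ => (s, t) := contDiff_const.prodMk contDiff_id
  have key : ∀ t, pl c b (s, t) ![(0, 1)] = deriv (fun t => f (γ t)) t := fun t => by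
    have h1 := pl_comp (c := c) (f := fun t : ℝ => (s, t)) (x := t) (hc t) hσ.contDiffAt b
    have h2 := pl_comp (c := ψ) (f := γ) (x := t) (hP.sm _ (hm t)) hγ.contDiffAt b
    rw [show (fun y => c (s, y)) = fun y => ψ (γ y) from funext he, h2, pb, pb, h _ (hm t)] at h1
    have h3 := congrArg (fun w : Alt ℝ 1 => w ![1]) h1
    have h4 : fderiv ℝ (fun t : ℝ => (s, t)) t 1 = (0, 1) := by
      rw [(hasFDerivAt_prodMk_right s t).fderiv]
      rfl
    have h5 : (fderiv ℝ (fun t : ℝ => (s, t)) t) ∘ ![(1 : ℝ)] = ![(0, 1)] := by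
      funext i
      fin_cases i
      exact h4
    simp only [ContinuousAlternatingMap.compContinuousLinearMap_apply, h5] at h3
    rw [← h3, ← fderiv_apply_one_eq_deriv,
      fderiv_fun_comp t ((hf.contDiffAt (hP.opn.mem_nhds (hm t))).differentiableAt (by simp))
        (hγ.differentiable (by simp) t)]
    rfl
  rw [circ]
  simp only [key]
  exact intervalIntegral.integral_deriv_eq_sub
    (fun t _ => hfγ.differentiable (by simp) t)
    ((hfγ.continuous_deriv (by simp)).intervalIntegrable _ _)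

end Pool.Agent.Work.MP_bf98aa_gt.Cy
end
end
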