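import Pool.Agent.Work.MP_bf98aa_gt.B3.DAl
import Pool.Agent.Work.MP_bf98aa_gt.Cy.G8
import Pool.Agent.Work.MP_bf98aa_gt.Cy.G4

-- merged part: Pool.Agent.Work.MP_bf98aa_gt.Cy.G6a
section
/-!
Averaging over a torus; Stokes on a parallelogram.

PLAN. `avg`: induction on `S' ⊆ S` with the statement: there are `α'`, `β` with `IsD β (α - α') univ`, `α'` closed, `α'` and `β` periodic for all `i ∈ S`, `α'` invariant under all real
translations in the directions of `S'`. Step: `homotopy` with `H (t, x) = x + t • bv i`, `O = univ`, `p = 0`, `q = 1` gives `d (hK ..) = hA 1 - ∫ hA t` and `hA H α t x = α (x + t • bv i)`;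
`hK_nat` for translations; the average is invariant in the direction `i` by `Function.Periodic.intervalIntegral_add_eq`, closed by `Cl.sub`, `IsD.cl`.
`per2_eq`: with `P (s, t) = β (z + s a + t b) ![a]`, `Q (s, t) = β (..) ![b]` the integrand is `κ ![a, b] + ∂s Q - ∂t P` (`extDeriv_one_apply`); integrate with the fundamental theorem of calculus
(swap the order for the `Q` term, or differentiate `s ↦ ∫ Q dt` by `contDiffOn_integral`); `Q (1, t) = Q (0, t)` since `fderiv fa p b = b` along the plane (differentiate `ha` in `t`).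
-/

set_option autoImplicit false

open scoped Manifold ContDiff Topology
open Set

namespace Pool.Agent.Work.MP_bf98aa_gt.Cy

open Pool.Agent.Work.MP_bf98aa_gt.Th

variable {U : Set E6}

theorem G6a_pb {k : ℕ} (u : E6) (γ : Fm E6 k) (x : E6) :
    pb (fun y => y + u) γ x = γ (x + u) := by
  ext v
  simp [pb]

theorem G6a_step (v : E6) {α : Fm E6 2} (hα : Cl α univ) (hv : ∀ x, α (x + v) = α x) :
    ∃ (α' : Fm E6 2) (β : Fm E6 1), IsD β (α - α') univ ∧
      (∀ u, (∀ x, α (x + u) = α x) → (∀ x, β (x + u) = β x) ∧ ∀ x, α' (x + u) = α' x) ∧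
      ∀ (x : E6) (t : ℝ), α' (x + t • v) = α' x := by
  have hH : ContDiff ℝ ∞ fun p : ℝ × E6 => p.2 + p.1 • v :=
    contDiff_snd.add (contDiff_fst.smul contDiff_const)
  have h := homotopy isOpen_univ hH.contDiffOn isOpen_univ (mapsTo_univ _ _) hα isOpen_univ
    (fun _ _ _ _ => mem_univ _) 0 1
  have hA' : ∀ t x, hA (fun p : ℝ × E6 => p.2 + p.1 • v) α t x = α (x + t • v) :=
    fun t x => G6a_pb (t • v) α x
  refine ⟨fun x => ∫ t in (0 : ℝ)..1, α (x + t • v), _, ⟨h.1, fun x hx => (h.2 x hx).trans ?_⟩,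
    fun u hu => ⟨fun x => ?_, fun x => ?_⟩, fun x t => ?_⟩
  · simp only [hA', one_smul, zero_add, zero_smul, sub_zero, hv, Pi.sub_apply]
  · refine (G6a_pb u _ x).symm.trans ?_
    exact hK_nat isOpen_univ hH.contDiffOn isOpen_univ (mapsTo_univ _ _) hα.1
      (f := fun y => y + u) (g := fun y => y + u) (contDiff_id.add contDiff_const)
      (contDiff_id.add contDiff_const) (fun _ _ => mem_univ _)
      (fun p _ => add_right_comm _ _ _) (fun y _ => (G6a_pb u α y).trans (hu y)) (by fun_prop)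
      fun _ _ => mem_univ _
  · simp only [add_right_comm x u, hu]
  · have hp : Function.Periodic (fun s : ℝ => α (x + s • v)) 1 := fun s => by
      simp only [add_smul, one_smul, ← add_assoc, hv]
    have h1 := hp.intervalIntegral_add_eq t 0
    have h2 := intervalIntegral.integral_comp_add_left (a := 0) (b := 1)
      (fun s : ℝ => α (x + s • v)) t
    simp only [add_zero, zero_add] at h1 h2
    simp only [add_assoc, ← add_smul]
    exact h2.trans h1

theorem avg (S : Finset Cx) {α : Fm E6 2} (hα : Cl α univ)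
    (hi : ∀ i ∈ S, ∀ x, α (x + bv i) = α x) :
    ∃ (α' : Fm E6 2) (β : Fm E6 1), IsD β (α - α') univ ∧ (∀ i ∈ S, ∀ x, β (x + bv i) = β x) ∧
      ∀ i ∈ S, ∀ (x : E6) (t : ℝ), α' (x + t • bv i) = α' x := by
  have key : ∀ S' : Finset Cx, S' ⊆ S → ∃ (α' : Fm E6 2) (β : Fm E6 1), IsD β (α - α') univ ∧
      (∀ i ∈ S, ∀ x, β (x + bv i) = β x) ∧ (∀ i ∈ S, ∀ x, α' (x + bv i) = α' x) ∧
      ∀ i ∈ S', ∀ (x : E6) (t : ℝ), α' (x + t • bv i) = α' x := by
    intro S'
    induction S' using Finset.induction_on with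
    | empty =>
      refine fun _ => ⟨α, fun _ => 0, ⟨contDiffOn_const, fun x _ => ?_⟩, fun _ _ _ => rfl, hi,
        fun _ h => absurd h (Finset.notMem_empty _)⟩
      rw [extDeriv_const, Pi.sub_apply, sub_self]
    | insert j S' _ ih =>
      intro hS
      obtain ⟨α₁, β₁, d1, p1, q1, r1⟩ := ih ((Finset.subset_insert j S').trans hS)
      have c1 : Cl α₁ univ := by
        have := Cl.sub isOpen_univ hα (d1.cl isOpen_univ)
        rwa [sub_sub_cancel] at this
      obtain ⟨α₂, β₂, d2, p2, r2⟩ := G6a_step (bv j) c1 (q1 j (hS (Finset.mem_insert_self j S')))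
      refine ⟨α₂, fun x => β₁ x + β₂ x, ⟨ContDiffOn.add d1.1 d2.1, fun x hx => ?_⟩,
        fun i hi' x => ?_, fun i hi' => (p2 _ (q1 i hi')).2, fun i hi' x t => ?_⟩
      · rw [extDeriv_fun_add (d1.1.diffAt isOpen_univ hx) (d2.1.diffAt isOpen_univ hx), d1.2 x hx,
          d2.2 x hx]
        simp
      · simp only [p1 i hi', (p2 _ (q1 i hi')).1]
      · rcases Finset.mem_insert.1 hi' with rfl | hi'
        · exact r2 x t
        · exact (p2 _ fun y => r1 i hi' y t).2 x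
  obtain ⟨α', β, h1, h2, -, h3⟩ := key S (Finset.Subset.refl S)
  exact ⟨α', β, h1, h2, h3⟩

theorem G6a_inv {β : Fm E6 1} {f : E6 → E6} (hf : ContDiff ℝ ∞ f) {x u v : E6}
    (h : ∀ t : ℝ, f (x + t • v) = x + t • v + u) (e : pb f β x = β x) :
    β (x + u) ![v] = β x ![v] := by
  have hl : HasDerivAt (fun t : ℝ => x + t • v) v 0 := by
    simpa using ((hasDerivAt_id (0 : ℝ)).smul_const v).const_add x
  have h0 : x + (0 : ℝ) • v = x := by simp
  have h1 : HasDerivAt (fun t : ℝ => f (x + t • v)) (fderiv ℝ f x v) 0 := by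
    have k : HasFDerivAt f (fderiv ℝ f x) (x + (0 : ℝ) • v) := by
      rw [h0]
      exact (hf.differentiable (by simp) x).hasFDerivAt
    exact HasFDerivAt.comp_hasDerivAt (l := f) (f := fun t : ℝ => x + t • v) 0 k hl
  simp only [h] at h1
  have h2 : fderiv ℝ f x v = v := h1.unique (hl.add_const u)
  have h3 : f x = x + u := by simpa using h 0
  rw [← e, pb, h3, ContinuousAlternatingMap.compContinuousLinearMap_apply]
  congr 1
  funext i
  fin_cases i
  exact h2.symm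

theorem per2_eq (hU : IsOpen U) {α : Fm E6 2} {κ : Alt E6 2} {β : Fm E6 1}
    (h : IsD β (fun x => α x - κ) U) {z a b : E6} (hz : ∀ s t : ℝ, z + s • a + t • b ∈ U)
    {fa fb : E6 → E6} (hfa : ContDiff ℝ ∞ fa) (hfb : ContDiff ℝ ∞ fb)
    (ha : ∀ s t : ℝ, fa (z + s • a + t • b) = z + s • a + t • b + a)
    (hb : ∀ s t : ℝ, fb (z + s • a + t • b) = z + s • a + t • b + b)
    (ia : ∀ x ∈ U, pb fa β x = β x) (ib : ∀ x ∈ U, pb fb β x = β x) :
    per2 α z a b = κ ![a, b] := by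
  set c : ℝ × ℝ → E6 := fun p => z + p.1 • a + p.2 • b with hc
  set L : ℝ × ℝ →L[ℝ] E6 := (ContinuousLinearMap.fst ℝ ℝ ℝ).smulRight a +
    (ContinuousLinearMap.snd ℝ ℝ ℝ).smulRight b with hL
  have hcd : ∀ p, HasFDerivAt c L p := fun p =>
    ((hasFDerivAt_fst.smul_const a).const_add z).add (hasFDerivAt_snd.smul_const b)
  have hcc : Continuous c := continuous_iff_continuousAt.2 fun p => (hcd p).continuousAt
  have hβ : ∀ p, DifferentiableAt ℝ β (c p) := fun p => h.1.diffAt hU (hz _ _)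
  have hev : ∀ (v : E6) p, HasFDerivAt (fun p => β (c p) ![v])
      ((ContinuousAlternatingMap.apply ℝ E6 ℝ ![v]).comp ((fderiv ℝ β (c p)).comp L)) p :=
    fun v p => (ContinuousAlternatingMap.apply ℝ E6 ℝ ![v]).hasFDerivAt.comp p
      ((hβ p).hasFDerivAt.comp p (hcd p))
  have hf : ∀ p, HasFDerivAt (fun p : ℝ × ℝ => β (c p) ![b] + p.1 * κ ![a, b]) _ p :=
    fun p => (hev b p).add (hasFDerivAt_fst.mul_const _)
  have hg : ∀ p, HasFDerivAt (fun p : ℝ × ℝ => -β (c p) ![a]) _ p := fun p => (hev a p).neg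
  have hα : Continuous fun p => α (c p) ![a, b] := by
    have k : ContinuousOn (fun x => α x - κ) U := (h.cl hU).1.continuousOn
    have k2 : Continuous fun p => (α (c p) - κ) + κ :=
      (k.comp_continuous hcc fun p => hz _ _).add continuous_const
    simp only [sub_add_cancel] at k2
    exact (ContinuousAlternatingMap.apply ℝ E6 ℝ ![a, b]).continuous.comp k2
  have hint : ∀ p : ℝ × ℝ,
      ((ContinuousAlternatingMap.apply ℝ E6 ℝ ![b]).comp ((fderiv ℝ β (c p)).comp L) +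
        κ ![a, b] • ContinuousLinearMap.fst ℝ ℝ ℝ) (1, 0) +
      (-(ContinuousAlternatingMap.apply ℝ E6 ℝ ![a]).comp ((fderiv ℝ β (c p)).comp L)) (0, 1) =
        α (c p) ![a, b] := by
    intro p
    have k := extDeriv_one_apply (hβ p) a b
    rw [h.2 _ (hz _ _)] at k
    simp only [ContinuousAlternatingMap.sub_apply] at k
    simp [hL]
    linarith
  have key := MeasureTheory.integral2_divergence_prod_of_hasFDerivAt _ _ _ _ 0 0 1 1
    (continuous_iff_continuousAt.2 fun p => (hf p).continuousAt).continuousOn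
    (continuous_iff_continuousAt.2 fun p => (hg p).continuousAt).continuousOn
    (fun p _ => hf p) (fun p _ => hg p) (by
      simp only [hint]
      exact hα.continuousOn.integrableOn_compact (isCompact_uIcc.prod isCompact_uIcc))
  simp only [hint] at key
  have e1 : ∀ s : ℝ, β (c (s, 1)) ![a] = β (c (s, 0)) ![a] := fun s => by
    have := G6a_inv (β := β) hfb (x := z + s • a + (0 : ℝ) • b) (u := b) (v := a) (fun t => by
      have k := hb (s + t) 0
      simp only [add_smul, zero_smul, add_zero, ← add_assoc] at k ⊢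
      exact k) (ib _ (hz s 0))
    simpa [hc] using this
  have e2 : ∀ t : ℝ, β (c (1, t)) ![b] = β (c (0, t)) ![b] := fun t => by
    have := G6a_inv (β := β) hfa (x := z + (0 : ℝ) • a + t • b) (u := a) (v := b) (fun s => by
      have k := ha 0 (t + s)
      simp only [add_smul, zero_smul, add_zero, ← add_assoc] at k ⊢
      exact k) (ia _ (hz 0 t))
    simpa [hc, add_right_comm] using this
  have hQ : IntervalIntegrable (fun t : ℝ => β (c (0, t)) ![b]) MeasureTheory.volume 0 1 :=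
    ((continuous_iff_continuousAt.2 fun p => (hev b p).continuousAt).comp
      (Continuous.prodMk_right 0)).intervalIntegrable 0 1
  refine key.trans ?_
  simp only [e1, e2, one_mul, zero_mul, add_zero, sub_self, zero_add]
  rw [intervalIntegral.integral_add hQ intervalIntegrable_const]
  simp

end Pool.Agent.Work.MP_bf98aa_gt.Cy
end

-- merged part: Pool.Agent.Work.MP_bf98aa_gt.Cy.G7a
section
/-!
Stokes on cylinders.

PLAN. `IsDO.pl` on the open set `N = c ⁻¹' O`; by the tube lemma (`IsCompact.eventually_forall_of_forall_eventually`) the set of `s` with `(s, t) ∈ N` for all `t ∈ Icc 0 1` is open.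
Write `pl c b = P ds + Q dt`; `d/ds ∫ Q dt = ∫ Q_s dt` (`contDiffOn_integral` with the variables swapped), `cyl = ∫ (Q_s - P_t) dt` (`extDeriv_one_apply`) and
`∫ P_t dt = 0` by periodicity (`pl_comp` with the translation `(s, t) ↦ (s, t + 1)`). `circ_shift`: `pl c b (s, t) ![(0,1)]` only depends on the curve
`t ↦ c (s, t)` (`pl_comp` with `t ↦ (s, t)`), then `Function.Periodic.intervalIntegral_add_eq`.
-/

set_option autoImplicit false

open scoped Manifold ContDiff Topology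
open Set

namespace Pool.Agent.Work.MP_bf98aa_gt.Cy

open Pool.Agent.Work.MP_bf98aa_gt.Th

variable {M : Type} [TopologicalSpace M] [ChartedSpace E6 M] [IsManifold 𝓘(ℝ, E6) ∞ M]
  {F F' : Type} [NormedAddCommGroup F] [NormedSpace ℝ F] [FiniteDimensional ℝ F]
  [NormedAddCommGroup F'] [NormedSpace ℝ F'] [FiniteDimensional ℝ F'] {k : ℕ}
  {ψ ψ' ψ'' : E6 → M} {U U' U'' V : Set E6} {O O' A B : Set M}

theorem G7a_tube {N : Set (ℝ × ℝ)} (hN : IsOpen N) : IsOpen {s | ∀ t ∈ Icc (0 : ℝ) 1, (s, t) ∈ N} :=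
  isOpen_iff_mem_nhds.2 fun _ hs => isCompact_Icc.eventually_forall_of_forall_eventually
    (P := fun s t => (s, t) ∈ N) fun t ht => hN.mem_nhds (hs t ht)

theorem G7a_cont {V : Type} [TopologicalSpace V] {N : Set (ℝ × ℝ)} {g : ℝ × ℝ → V}
    (hg : ContinuousOn g N) {s : ℝ} (hs : ∀ t ∈ Icc (0 : ℝ) 1, (s, t) ∈ N) :
    ContinuousOn (fun t => g (s, t)) (uIcc 0 1) := by
  rw [uIcc_of_le zero_le_one]
  exact hg.comp (Continuous.prodMk_right s).continuousOn hs

theorem G7a_int {N : Set (ℝ × ℝ)} (hN : IsOpen N) {f : ℝ × ℝ → ℝ} (hf : ContDiffOn ℝ ∞ f N) :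
    ContinuousOn (fun s => ∫ t in (0 : ℝ)..1, f (s, t)) {s | ∀ t ∈ Icc (0 : ℝ) 1, (s, t) ∈ N} ∧
      ∀ s, (∀ t ∈ Icc (0 : ℝ) 1, (s, t) ∈ N) → HasDerivAt (fun s => ∫ t in (0 : ℝ)..1, f (s, t))
        (∫ t in (0 : ℝ)..1, fderiv ℝ f (s, t) (1, 0)) s := by
  obtain ⟨h1, h2⟩ := contDiffOn_integral (O := Prod.swap ⁻¹' N) (hN.preimage continuous_swap)
    (f := fun p => f p.swap) (hf.comp (contDiff_snd.prodMk contDiff_fst).contDiffOn fun _ h => h)
    (G7a_tube hN) fun t ht s hs => hs t ht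
  refine ⟨h1.continuousOn, fun s hs => ?_⟩
  have h3 := ((h1.contDiffAt ((G7a_tube hN).mem_nhds hs)).differentiableAt (by simp)).hasFDerivAt
  rw [h2 s hs] at h3
  have h4 : ∀ t ∈ uIcc (0 : ℝ) 1, fderiv ℝ (fun y => f (t, y).swap) s =
      (fderiv ℝ f (s, t)).comp (ContinuousLinearMap.inl ℝ ℝ ℝ) := fun t ht =>
    (((hf.contDiffAt (hN.mem_nhds (hs t (by simpa using ht)))).differentiableAt
      (by simp)).hasFDerivAt.comp s (hasFDerivAt_prodMk_left s t)).fderiv
  rw [intervalIntegral.integral_congr h4] at h3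
  have h5 := h3.hasDerivAt
  rw [ContinuousLinearMap.intervalIntegral_apply] at h5
  · exact h5
  · exact ((G7a_cont (hf.continuousOn_fderiv_of_isOpen hN (by simp)) hs).clm_comp
      continuousOn_const).intervalIntegrable

theorem G7a_app {N : Set (ℝ × ℝ)} {β : Fm (ℝ × ℝ) k} (h : Sm β N) (v : Fin k → ℝ × ℝ) :
    ContDiffOn ℝ ∞ (fun p => β p v) N :=
  (ContinuousAlternatingMap.apply ℝ (ℝ × ℝ) ℝ v).contDiff.comp_contDiffOn h

theorem G7a_flat {N : Set (ℝ × ℝ)} (hN : IsOpen N) {β : Fm (ℝ × ℝ) 1} {η : Fm (ℝ × ℝ) 2}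
    (h : IsD β η N) {s : ℝ} (hs : ∀ t ∈ Icc (0 : ℝ) 1, (s, t) ∈ N) (hp : β (s, 1) = β (s, 0)) :
    HasDerivAt (fun s => ∫ t in (0 : ℝ)..1, β (s, t) ![(0, 1)])
      (∫ t in (0 : ℝ)..1, η (s, t) ![(1, 0), (0, 1)]) s := by
  have hs' : ∀ t ∈ uIcc (0 : ℝ) 1, (s, t) ∈ N := fun t ht => hs t (by simpa using ht)
  have hi : ∀ v u, IntervalIntegrable (fun t => fderiv ℝ (fun p => β p v) (s, t) u)
      MeasureTheory.volume 0 1 := fun v u =>
    ((G7a_cont ((G7a_app h.1 v).continuousOn_fderiv_of_isOpen hN (by simp)) hs).clm_apply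
      continuousOn_const).intervalIntegrable
  have h1 : ∫ t in (0 : ℝ)..1, fderiv ℝ (fun p => β p ![(1, 0)]) (s, t) (0, 1) = 0 := by
    rw [intervalIntegral.integral_eq_sub_of_hasDerivAt (f := fun t => β (s, t) ![(1, 0)])
      (fun t ht => ?_) (hi _ _), hp, sub_self]
    exact (((G7a_app h.1 _).contDiffAt (hN.mem_nhds (hs' t ht))).differentiableAt
      (by simp)).hasFDerivAt.comp_hasDerivAt t ((hasDerivAt_const t s).prodMk (hasDerivAt_id t))
  have h2 : ∫ t in (0 : ℝ)..1, η (s, t) ![(1, 0), (0, 1)] =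
      ∫ t in (0 : ℝ)..1, fderiv ℝ (fun p => β p ![(0, 1)]) (s, t) (1, 0) := by
    have h3 := intervalIntegral.integral_sub (hi ![(0, 1)] (1, 0)) (hi ![(1, 0)] (0, 1))
    rw [h1, sub_zero] at h3
    refine Eq.trans (intervalIntegral.integral_congr fun t ht => ?_) h3
    have hd := h.1.diffAt hN (hs' t ht)
    simp only [fderiv_continuousAlternatingMap_apply_const_apply hd]
    rw [← h.2 _ (hs' t ht), extDeriv_one_apply hd]
  rw [h2]
  exact (G7a_int hN (G7a_app h.1 _)).2 s hs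

omit [IsManifold 𝓘(ℝ, E6) ∞ M] in
theorem G7a_open {c : ℝ × ℝ → M} (hc : ∀ p, SmAt c p) (hO : IsOpen O) : IsOpen (c ⁻¹' O) :=
  hO.preimage (continuous_iff_continuousAt.2 fun p => (hc p).continuousAt)

theorem G7a_per (b : Fo M k) {c : ℝ × ℝ → M} (hc : ∀ p, SmAt c p)
    (hp : ∀ s t, c (s, t + 1) = c (s, t)) (s t : ℝ) : pl c b (s, t + 1) = pl c b (s, t) := by
  have h := pl_comp (f := fun p : ℝ × ℝ => p + (0, 1)) (x := (s, t)) (hc _)
    (contDiffAt_id.add contDiffAt_const) b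
  have e : (fun p : ℝ × ℝ => c (p + (0, 1))) = c := funext fun p => by
    rw [show p + (0, 1) = (p.1, p.2 + 1) from Prod.ext (add_zero _) rfl, hp]
  rw [e] at h
  rw [h, pb, fderiv_add_const, fderiv_fun_id, show ((s, t) + (0, 1) : ℝ × ℝ) = (s, t + 1) from
    Prod.ext (add_zero _) rfl]
  rfl

theorem G7a_line (b : Fo M 1) {c : ℝ × ℝ → M} (hc : ∀ p, SmAt c p) (s t₀ t : ℝ) :
    pl (fun t => c (s, t + t₀)) b t ![1] = pl c b (s, t + t₀) ![(0, 1)] := by
  have hd : HasDerivAt (fun t : ℝ => (s, t + t₀)) (0, 1) t :=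
    (hasDerivAt_const t s).prodMk ((hasDerivAt_id t).add_const t₀)
  rw [pl_comp (f := fun t : ℝ => (s, t + t₀)) (hc _)
    (contDiffAt_const.prodMk (contDiffAt_id.add contDiffAt_const)), pb,
    ContinuousAlternatingMap.compContinuousLinearMap_apply, hd.hasFDerivAt.fderiv]
  refine congrArg _ (funext fun i => ?_)
  fin_cases i
  simp

theorem stokes_cyl {b : Fo M 1} {w : Fo M 2} (h : IsDO b w O) (hO : IsOpen O) {c : ℝ × ℝ → M}
    (hc : ∀ p, SmAt c p) (hp : ∀ s t, c (s, t + 1) = c (s, t)) {s₀ s₁ : ℝ}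
    (hm : ∀ s ∈ uIcc s₀ s₁, ∀ t, c (s, t) ∈ O) :
    ∫ s in s₀..s₁, cyl c w s = circ c b s₁ - circ c b s₀ := by
  have hN := G7a_open hc hO
  have h1 := h.pl hO hN (fun y _ => hc y) fun _ hy => hy
  refine intervalIntegral.integral_eq_sub_of_hasDerivAt (f := circ c b) (fun s hs =>
    G7a_flat hN h1 (fun t _ => hm s hs t) ?_) ?_
  · simpa using G7a_per b hc hp s 0
  · exact ((G7a_int hN (G7a_app (h1.cl hN).1 _)).1.mono fun s hs t _ => hm s hs t).intervalIntegrable

theorem cyl_continuous {w : Fo M 2} (h : SmO w O) (hO : IsOpen O) {c : ℝ × ℝ → M}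
    (hc : ∀ p, SmAt c p) (hm : ∀ p, c p ∈ O) : Continuous (cyl c w) := by
  have h1 := h.pl hO isOpen_univ (fun y _ => hc y) fun y _ => hm y
  exact continuousOn_univ.1 ((G7a_int isOpen_univ (G7a_app h1 _)).1.mono fun _ _ _ _ => mem_univ _)

theorem circ_sub {b b' : Fo M 1} (h : SmO b O) (h' : SmO b' O) (hO : IsOpen O) {c : ℝ × ℝ → M}
    (hc : ∀ p, SmAt c p) {s : ℝ} (hm : ∀ t, c (s, t) ∈ O) :
    circ c (b - b') s = circ c b s - circ c b' s := by
  have hN := G7a_open hc hO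
  have hi : ∀ {a : Fo M 1}, SmO a O → IntervalIntegrable (fun t => pl c a (s, t) ![(0, 1)])
      MeasureTheory.volume 0 1 := fun ha =>
    (G7a_cont (G7a_app (ha.pl hO hN (fun y _ => hc y) fun _ hy => hy) _).continuousOn
      fun t _ => hm t).intervalIntegrable
  rw [circ, circ, circ, ← intervalIntegral.integral_sub (hi h) (hi h'), pl_sub]
  rfl

theorem circ_shift (b : Fo M 1) {c : ℝ × ℝ → M} (hc : ∀ p, SmAt c p)
    (hp : ∀ s t, c (s, t + 1) = c (s, t)) {s s' t₀ : ℝ} (h : ∀ t, c (s', t) = c (s, t + t₀)) :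
    circ c b s' = circ c b s := by
  have h1 : ∀ t, pl c b (s', t) ![(0, 1)] = pl c b (s, t + t₀) ![(0, 1)] := fun t => by
    have h2 := G7a_line b hc s' 0 t
    simp only [add_zero, h] at h2
    rw [← h2, G7a_line b hc]
  have h3 : Function.Periodic (fun t => pl c b (s, t) ![(0, 1)]) 1 := fun t => by
    simp only [G7a_per b hc hp]
  simp only [circ, h1]
  rw [intervalIntegral.integral_comp_add_right (fun t => pl c b (s, t) ![(0, 1)]), zero_add,
    add_comm, h3.intervalIntegral_add_eq t₀ 0, zero_add]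

end Pool.Agent.Work.MP_bf98aa_gt.Cy
end

-- merged part: Pool.Agent.Work.MP_bf98aa_gt.Cy.G7
section
/-!
Periods.

PLAN. `per2_pl`: `pl_comp` with the affine map `p ↦ z + p.1 • a + p.2 • b`. `per2_congr`: the two maps `lin` are equal. `per2_ex`: `stokes_cyl`, `circ_shift`.
`per2_lin`: continuity of the integrands (`intervalIntegral.continuous_parametric_intervalIntegral_of_continuous'`).
-/

set_option autoImplicit false

open scoped Manifold ContDiff Topology
open Set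

namespace Pool.Agent.Work.MP_bf98aa_gt.Cy

open Pool.Agent.Work.MP_bf98aa_gt.Th

variable {M : Type} [TopologicalSpace M] [ChartedSpace E6 M] [IsManifold 𝓘(ℝ, E6) ∞ M]
  {F F' : Type} [NormedAddCommGroup F] [NormedSpace ℝ F] [FiniteDimensional ℝ F]
  [NormedAddCommGroup F'] [NormedSpace ℝ F'] [FiniteDimensional ℝ F'] {k : ℕ}
  {ψ ψ' ψ'' : E6 → M} {U U' U'' V : Set E6} {O O' A B : Set M}

/-- The affine parametrisation of a plane. -/
noncomputable def G7_L (a b : E6) : ℝ × ℝ →L[ℝ] E6 :=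
  (ContinuousLinearMap.fst ℝ ℝ ℝ).smulRight a + (ContinuousLinearMap.snd ℝ ℝ ℝ).smulRight b

theorem G7_L_apply (a b : E6) (p : ℝ × ℝ) : G7_L a b p = p.1 • a + p.2 • b := rfl

theorem G7_cd (z a b : E6) : ContDiff ℝ ∞ (fun p : ℝ × ℝ => z + p.1 • a + p.2 • b) := by
  fun_prop

theorem G7_fd (z a b : E6) (p : ℝ × ℝ) :
    fderiv ℝ (fun p : ℝ × ℝ => z + p.1 • a + p.2 • b) p = G7_L a b := by
  have h : (fun p : ℝ × ℝ => z + p.1 • a + p.2 • b) = fun p => z + G7_L a b p := by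
    funext q
    rw [G7_L_apply, add_assoc]
  rw [h]
  exact ((G7_L a b).hasFDerivAt.const_add z).fderiv

theorem G7_pb (α : Fm E6 2) (z a b : E6) (s t : ℝ) :
    pb (fun p : ℝ × ℝ => z + p.1 • a + p.2 • b) α (s, t) ![(1, 0), (0, 1)] =
      α (z + s • a + t • b) ![a, b] := by
  unfold pb
  rw [G7_fd, ContinuousAlternatingMap.compContinuousLinearMap_apply]
  congr 1
  funext i
  fin_cases i <;> simp [G7_L_apply]

theorem G7_cont {α : Fm E6 2} (h : Sm α U) {z a b : E6}
    (hz : ∀ s t : ℝ, z + s • a + t • b ∈ U) :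
    Continuous (fun p : ℝ × ℝ => α (z + p.1 • a + p.2 • b) ![a, b]) := by
  have h1 : Continuous (fun p : ℝ × ℝ => α (z + p.1 • a + p.2 • b)) :=
    h.continuousOn.comp_continuous (G7_cd z a b).continuous fun p => hz p.1 p.2
  exact (ContinuousAlternatingMap.apply ℝ E6 ℝ ![a, b]).continuous.comp h1

theorem lin_smAt (hP : Par ψ U) {z a b : E6} (hz : ∀ s t : ℝ, z + s • a + t • b ∈ U) (p : ℝ × ℝ) :
    SmAt (lin ψ z a b) p :=
  SmAt.comp (c := ψ) (f := fun p : ℝ × ℝ => z + p.1 • a + p.2 • b) (hP.sm _ (hz p.1 p.2))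
    (G7_cd z a b).contDiffAt

theorem per2_pl (hP : Par ψ U) {z a b : E6} (hz : ∀ s t : ℝ, z + s • a + t • b ∈ U) (w : Fo M 2) :
    per2 (pl ψ w) z a b = ∫ s in (0 : ℝ)..1, cyl (lin ψ z a b) w s := by
  unfold per2 cyl
  congr 1
  funext s
  congr 1
  funext t
  have h := pl_comp (c := ψ) (f := fun p : ℝ × ℝ => z + p.1 • a + p.2 • b) (x := (s, t))
    (hP.sm _ (hz s t)) (G7_cd z a b).contDiffAt w
  rw [← G7_pb, ← h]
  rfl

theorem per2_congr (hP : Par ψ U) (hP' : Par ψ' U') {z a b z' a' b' : E6}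
    (hz : ∀ s t : ℝ, z + s • a + t • b ∈ U) (hz' : ∀ s t : ℝ, z' + s • a' + t • b' ∈ U')
    (h : ∀ s t : ℝ, ψ (z + s • a + t • b) = ψ' (z' + s • a' + t • b')) (w : Fo M 2) :
    per2 (pl ψ w) z a b = per2 (pl ψ' w) z' a' b' := by
  have e : lin ψ z a b = lin ψ' z' a' b' := funext fun p => h p.1 p.2
  rw [per2_pl hP hz, per2_pl hP' hz', e]

theorem per2_ex (hP : Par ψ U) {z a b : E6} (hz : ∀ s t : ℝ, z + s • a + t • b ∈ U) {w : Fo M 2}
    (he : ExO w O) (hO : IsOpen O) (hm : ∀ s t : ℝ, ψ (z + s • a + t • b) ∈ O)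
    (hb : ∀ s t : ℝ, ψ (z + s • a + (t + 1) • b) = ψ (z + s • a + t • b)) {t₀ : ℝ}
    (ha : ∀ t : ℝ, ψ (z + a + t • b) = ψ (z + (t + t₀) • b)) : per2 (pl ψ w) z a b = 0 := by
  obtain ⟨β, hβ⟩ := he
  have hc := lin_smAt hP hz
  have hp : ∀ s t, lin ψ z a b (s, t + 1) = lin ψ z a b (s, t) := hb
  rw [per2_pl hP hz, stokes_cyl hβ hO hc hp fun s _ t => hm s t,
    circ_shift β hc hp (s := 0) (s' := 1) (t₀ := t₀) fun t => by
      simpa [lin] using ha t, sub_self]

theorem per2_lin {α α' : Fm E6 2} (hU : IsOpen U) (h : Sm α U) (h' : Sm α' U) {z a b : E6}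
    (hz : ∀ s t : ℝ, z + s • a + t • b ∈ U) (x y : ℝ) :
    per2 (x • α + y • α') z a b = x * per2 α z a b + y * per2 α' z a b := by
  have c1 := G7_cont h hz
  have c2 := G7_cont h' hz
  have d1 : Continuous fun s : ℝ => ∫ t in (0 : ℝ)..1, α (z + s • a + t • b) ![a, b] :=
    intervalIntegral.continuous_parametric_intervalIntegral_of_continuous'
      (f := fun s t : ℝ => α (z + s • a + t • b) ![a, b]) c1 0 1
  have d2 : Continuous fun s : ℝ => ∫ t in (0 : ℝ)..1, α' (z + s • a + t • b) ![a, b] :=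
    intervalIntegral.continuous_parametric_intervalIntegral_of_continuous'
      (f := fun s t : ℝ => α' (z + s • a + t • b) ![a, b]) c2 0 1
  unfold per2
  rw [← intervalIntegral.integral_const_mul, ← intervalIntegral.integral_const_mul,
    ← intervalIntegral.integral_add ((d1.const_mul x).intervalIntegrable 0 1)
      ((d2.const_mul y).intervalIntegrable 0 1)]
  congr 1
  funext s
  have e1 : Continuous fun t : ℝ => α (z + s • a + t • b) ![a, b] :=
    c1.comp (continuous_const.prodMk continuous_id)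
  have e2 : Continuous fun t : ℝ => α' (z + s • a + t • b) ![a, b] :=
    c2.comp (continuous_const.prodMk continuous_id)
  rw [← intervalIntegral.integral_const_mul, ← intervalIntegral.integral_const_mul,
    ← intervalIntegral.integral_add ((e1.const_mul x).intervalIntegrable 0 1)
      ((e2.const_mul y).intervalIntegrable 0 1)]
  congr 1

theorem per2_const {α : Fm E6 2} {z a b : E6} {x : ℝ}
    (h : ∀ s t : ℝ, α (z + s • a + t • b) ![a, b] = x) : per2 α z a b = x := by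
  unfold per2
  simp [h]

end Pool.Agent.Work.MP_bf98aa_gt.Cy
end

-- merged part: Pool.Agent.Work.MP_bf98aa_gt.Cy.G3
section
/-!
Mayer-Vietoris on `M`.

PLAN. Copy `exists_cut`, `FMV_cut`, `RA_union_succ` of `Th/FMV.lean` to the manifold: `IsOpen.exists_contMDiff_support_eq` (or
`exists_contMDiff_support_eq...`) gives smooth `a, b ≥ 0` with supports `A`, `B`, `φ = smoothTransition (3 * (a / (a + b)) - 1)`. Replace `b₁` by `b₁ - c₁` and
`b₂` by `b₂ - c₂`; their difference is `d γ` on `A ∩ B`. The forms `d ((1 - φ) γ)` on `A` and `d (φ γ)` on `B` are obtained by `desc` from the charts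
(`exists_d`: every form smooth on an open set has an exterior derivative there).
-/

set_option autoImplicit false

open scoped Manifold ContDiff Topology
open Set

namespace Pool.Agent.Work.MP_bf98aa_gt.Cy

open Pool.Agent.Work.MP_bf98aa_gt.Th

variable {M : Type} [TopologicalSpace M] [ChartedSpace E6 M] [IsManifold 𝓘(ℝ, E6) ∞ M]
  {F F' : Type} [NormedAddCommGroup F] [NormedSpace ℝ F] [FiniteDimensional ℝ F]
  [NormedAddCommGroup F'] [NormedSpace ℝ F'] [FiniteDimensional ℝ F'] {k : ℕ}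
  {ψ ψ' ψ'' : E6 → M} {U U' U'' V : Set E6} {O O' A B : Set M}

theorem G3_par (m : M) (hO : IsOpen O) :
    Par (chartAt E6 m).symm ((chartAt E6 m).target ∩ (chartAt E6 m).symm ⁻¹' O) :=
  (par_chart m).mono ((par_chart m).isOpen_pre hO) inter_subset_left

omit [IsManifold 𝓘(ℝ, E6) ∞ M] in
theorem G3_mem {m : M} (hm : m ∈ O) :
    chartAt E6 m m ∈ (chartAt E6 m).target ∩ (chartAt E6 m).symm ⁻¹' O ∧
      (chartAt E6 m).symm (chartAt E6 m m) = m := by
  have e := (chartAt E6 m).left_inv (mem_chart_source E6 m)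
  exact ⟨⟨mem_chart_target E6 m, by rw [mem_preimage, e]; exact hm⟩, e⟩

theorem exists_d {b : Fo M k} (hO : IsOpen O) (h : SmO b O) : ∃ w : Fo M (k + 1), IsDO b w O := by
  have hs := fun m : M => h _ _ (G3_par m hO) fun _ hx => hx.2
  obtain ⟨w, hw⟩ := desc (fun m : M => G3_par m hO)
    (fun m => extDeriv (pl (chartAt E6 m).symm b)) fun i j x hx y hy e => by
      obtain ⟨f, hf, rfl⟩ := (G3_par j hO).tr hy ((G3_par i hO).sm x hx) e
      refine ⟨f, hf, rfl, ?_⟩
      rw [(hf.pl_ev (G3_par j hO) hy b).extDeriv_eq,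
        extDeriv_pb ((hs j).diffAt (G3_par j hO).opn hy) hf.1]
  refine ⟨w, IsDO.of_loc fun m hm => ?_⟩
  obtain ⟨h1, h2⟩ := G3_mem hm
  exact ⟨_, _, _, G3_par m hO, h1, h2, (hs m).at (G3_par m hO).opn h1, (hw m _ h1).symm⟩

theorem G3_uniq {b : Fo M k} {w w' : Fo M (k + 1)} (hO : IsOpen O) (h : IsDO b w O)
    (h' : IsDO b w' O) {m : M} (hm : m ∈ O) : w m = w' m := by
  obtain ⟨h1, h2⟩ := G3_mem hm
  have e := fo_ext (G3_par m hO) h1 (((h _ _ (G3_par m hO) fun _ hx => hx.2).2 _ h1).symm.trans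
    ((h' _ _ (G3_par m hO) fun _ hx => hx.2).2 _ h1))
  rwa [h2] at e

theorem G3_sub {b b' : Fo M k} {w w' : Fo M (k + 1)} (h : IsDO b w O) (h' : IsDO b' w' O) :
    IsDO (b - b') (w - w') O := fun ψ U hP hm => by
  rw [pl_sub, pl_sub]
  exact FMV_sub hP.opn (h ψ U hP hm) (h' ψ U hP hm) fun _ _ => rfl

theorem G3_subcl {b c : Fo M k} {w : Fo M (k + 1)} (h : IsDO b w O) (h' : ClO c O) :
    IsDO (b - c) w O := fun ψ U hP hm => by
  rw [pl_sub]
  exact FMV_sub hP.opn (α' := fun _ => 0) (h ψ U hP hm) (h' ψ U hP hm) fun _ _ => sub_zero _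

theorem G3_exists_cut [T2Space M] [CompactSpace M] (hA : IsOpen A) (hB : IsOpen B) :
    ∃ φ : M → ℝ, (∀ x ∈ A ∪ B, ContMDiffAt 𝓘(ℝ, E6) 𝓘(ℝ, ℝ) ∞ φ x) ∧
      (∀ x ∈ A, x ∉ B → ∀ᶠ y in 𝓝 x, φ y = 1) ∧ ∀ x ∈ B, x ∉ A → ∀ᶠ y in 𝓝 x, φ y = 0 := by
  obtain ⟨a, a1, a2, a0⟩ := hA.exists_contMDiff_support_eq (n := ⊤) 𝓘(ℝ, E6)
  obtain ⟨b, b1, b2, b0⟩ := hB.exists_contMDiff_support_eq (n := ⊤) 𝓘(ℝ, E6)
  subst a1 b1
  have h0 : ∀ x ∈ a.support ∪ b.support, a x + b x ≠ 0 := fun x hx e => by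
    rcases hx with hx | hx <;> exact hx (by linarith [a0 x, b0 x])
  have h1 : ∀ x ∈ a.support ∪ b.support, ContMDiffAt 𝓘(ℝ, E6) 𝓘(ℝ, ℝ) ∞
      (fun x => 3 * (a x / (a x + b x)) - 1) x := fun x hx => by
    have e1 : ContDiffAt ℝ ∞ (fun p : ℝ × ℝ => 3 * (p.1 / (p.1 + p.2)) - 1) (a x, b x) :=
      (contDiffAt_const.mul (contDiffAt_fst.div (contDiffAt_fst.add contDiffAt_snd)
        (h0 x hx))).sub contDiffAt_const
    exact e1.comp_contMDiffAt (f := fun x => (a x, b x)) ((a2 x).prodMk_space (b2 x))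
  have h2 := fun x hx => (h1 x hx).continuousAt
  refine ⟨_, fun x hx => Real.smoothTransition.contDiff.contDiffAt.comp_contMDiffAt (h1 x hx),
    fun x hx hx' => ?_, fun x hx hx' => ?_⟩
  · refine ((h2 x (Or.inl hx)).eventually (lt_mem_nhds (a := 1) ?_)).mono fun y hy =>
      Real.smoothTransition.one_of_one_le hy.le
    beta_reduce
    rw [Function.notMem_support.1 hx', add_zero, div_self hx]
    norm_num
  · refine ((h2 x (Or.inr hx)).eventually (gt_mem_nhds (a := 0) ?_)).mono fun y hy =>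
      Real.smoothTransition.zero_of_nonpos hy.le
    simp [Function.notMem_support.1 hx']

theorem G3_cut (hA : IsOpen A) (hB : IsOpen B) {g : M → ℝ}
    (hg : ∀ x ∈ A, ContMDiffAt 𝓘(ℝ, E6) 𝓘(ℝ, ℝ) ∞ g x)
    (h0 : ∀ x ∈ A, x ∉ B → ∀ᶠ y in 𝓝 x, g y = 0) {γ : Fo M k} (hγ : SmO γ (A ∩ B)) :
    SmO (fun x => g x • γ x) A := by
  refine SmO.of_loc fun m hm => ?_
  obtain ⟨h1, h2⟩ := G3_mem hm
  refine ⟨_, _, _, G3_par m hA, h1, h2, ?_⟩
  have s1 := (G3_par m hA).sm _ h1
  rw [funext (pl_fsmul (chartAt E6 m).symm g γ)]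
  by_cases h : m ∈ B
  · have hAB := hA.inter hB
    have s2 : ContDiffAt ℝ ∞ (fun y => g ((chartAt E6 m).symm y)) (chartAt E6 m m) :=
      contMDiffAt_iff_contDiffAt.1 (ContMDiffAt.comp _ (hg _ h1.2) s1)
    exact s2.smul ((hγ _ _ (G3_par m hAB) fun _ hx => hx.2).at (G3_par m hAB).opn
      (G3_mem (O := A ∩ B) ⟨hm, h⟩).1)
  · have e := h0 m hm h
    rw [← h2] at e
    exact (contDiffAt_const (c := 0)).congr_of_eventuallyEq
      ((s1.continuousAt.eventually e).mono fun y hy => by simp [hy])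

theorem mv [T2Space M] [CompactSpace M] (hA : IsOpen A) (hB : IsOpen B) {w : Fo M (k + 2)}
    {b₁ b₂ c₁ c₂ : Fo M (k + 1)} (h₁ : IsDO b₁ w A) (h₂ : IsDO b₂ w B) (hc₁ : ClO c₁ A)
    (hc₂ : ClO c₂ B) (h : ExO (b₁ - b₂ - c₁ + c₂) (A ∩ B)) : ExO w (A ∪ B) := by
  classical
  obtain ⟨γ, e⟩ := h
  obtain ⟨φ, f1, f2, f3⟩ := G3_exists_cut hA hB
  obtain ⟨δ₁, d1⟩ := exists_d hA (G3_cut hA hB (g := fun x => 1 - φ x)
    (fun x hx => (contDiff_const.sub contDiff_id).contDiffAt.comp_contMDiffAt (f1 x (Or.inl hx)))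
    (fun x hx hx' => (f2 x hx hx').mono fun y hy => by simp [hy]) e.sm)
  obtain ⟨δ₂, d2⟩ := exists_d hB (G3_cut hB hA (g := fun x => -φ x)
    (fun x hx => contDiff_neg.contDiffAt.comp_contMDiffAt (f1 x (Or.inr hx)))
    (fun x hx hx' => (f3 x hx hx').mono fun y hy => by simp [hy]) (inter_comm A B ▸ e.sm))
  have d3 : IsDO γ (δ₁ - δ₂) (A ∩ B) :=
    (G3_sub (d1.mono inter_subset_left) (d2.mono inter_subset_right)).congr
      (fun m _ => by ext v; simp [sub_mul]) fun _ _ => rfl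
  have k1 := G3_subcl h₁ (hc₁.add d1.cl)
  have k2 := G3_subcl h₂ (hc₂.add d2.cl)
  refine ⟨A.piecewise (b₁ - (c₁ + δ₁)) (b₂ - (c₂ + δ₂)), ?_⟩
  rw [union_eq_iUnion]
  refine IsDO.iUnion (fun j => by cases j; exacts [hB, hA]) fun j => ?_
  cases j
  · refine k2.congr (fun m hm => ?_) fun _ _ => rfl
    by_cases q : m ∈ A
    · have u := G3_uniq (hA.inter hB) d3 e ⟨q, hm⟩
      rw [piecewise_eq_of_mem _ _ _ q]
      simp only [Pi.sub_apply, Pi.add_apply] at u ⊢
      rw [sub_eq_iff_eq_add.1 u]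
      abel
    · exact piecewise_eq_of_notMem _ _ _ q
  · exact k1.congr (fun m hm => piecewise_eq_of_mem _ _ _ hm) fun _ _ => rfl

end Pool.Agent.Work.MP_bf98aa_gt.Cy
end

-- merged part: Pool.Agent.Work.MP_bf98aa_gt.Cy.G6
section
/-!
Closed 2-forms on a chart that retracts to a torus.

PLAN. `torus`: `Deck.retr` with `π = slice S z₀` (an affine map with linear part `slice S 0`, `π ∘ π = π`); `α = pb π (pl ψ w) = pl (ψ ∘ π) w` is closed on `univ` and periodic
(`π (x + bv i) = π x + bv i` for `i ∈ S`, `hE`, `pl_comp` with the translation); apply `avg` and pull back by `π` once more: `pb π α' x = α' z₀ ∘ slice S 0` because `π x - z₀` is a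
combination of the `bv i`, `i ∈ S`. Invariance of `pb π β` under `f ∈ T`: `π (f z) = π z + ∑ i ∈ S, n i • bv i` for all `z` (`pb_comp`), `β` is periodic under this lattice vector.
`torus_ex`: `per2_eq` gives `κ ![bv i, bv j] = 0` for `i, j ∈ S`, expand `slice S 0 u = ∑ i ∈ S, u i • bv i` (`exists_bilin`), `Deck.ex_of_inv`.
-/

set_option autoImplicit false

open scoped Manifold ContDiff Topology
open Set

namespace Pool.Agent.Work.MP_bf98aa_gt.Cy

open Pool.Agent.Work.MP_bf98aa_gt.Th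

variable {M : Type} [TopologicalSpace M] [ChartedSpace E6 M] [IsManifold 𝓘(ℝ, E6) ∞ M]
  {F F' : Type} [NormedAddCommGroup F] [NormedSpace ℝ F] [FiniteDimensional ℝ F]
  [NormedAddCommGroup F'] [NormedSpace ℝ F'] [FiniteDimensional ℝ F'] {k : ℕ}
  {ψ ψ' ψ'' : E6 → M} {U U' U'' V : Set E6} {O O' A B : Set M}

variable {T : Set (E6 → E6)}

/-- The linear part of `slice S z₀`. -/
noncomputable def G6_L (S : Finset Cx) : E6 →L[ℝ] E6 :=
  ContinuousLinearMap.pi fun i => if i ∈ S then dc i else 0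

theorem G6_L_apply (S : Finset Cx) (u : E6) : G6_L S u = slice S 0 u := by
  funext i
  by_cases hi : i ∈ S <;> simp [G6_L, slice, dc, hi]

theorem G6_aff (S : Finset Cx) (z₀ : E6) : slice S z₀ = fun z => G6_L S z + slice S z₀ 0 := by
  funext z i
  by_cases hi : i ∈ S <;> simp [G6_L, slice, dc, hi]

theorem G6_sm (S : Finset Cx) (z₀ : E6) : ContDiff ℝ ∞ (slice S z₀) := by
  rw [G6_aff]
  exact (G6_L S).contDiff.add contDiff_const

theorem G6_fd (S : Finset Cx) (z₀ x : E6) : HasFDerivAt (slice S z₀) (G6_L S) x := by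
  rw [G6_aff]
  exact (G6_L S).hasFDerivAt.add_const _

theorem G6_idem (S : Finset Cx) (z₀ z : E6) : slice S z₀ (slice S z₀ z) = slice S z₀ z := by
  funext i
  by_cases hi : i ∈ S <;> simp [slice, hi]

theorem G6_sum (S : Finset Cx) (c : Cx → ℝ) (j : Cx) :
    (∑ i ∈ S, c i • bv i) j = if j ∈ S then c j else 0 := by
  simp [Finset.sum_apply, bv, Pi.single_apply]

theorem G6_add (S : Finset Cx) (z₀ z : E6) {i : Cx} (hi : i ∈ S) (t : ℝ) :
    slice S z₀ (z + t • bv i) = slice S z₀ z + t • bv i := by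
  funext j
  by_cases hj : j ∈ S
  · simp [slice, hj]
  · have : j ≠ i := fun h => hj (h ▸ hi)
    simp [slice, hj, bv, this]

theorem G6_self (S : Finset Cx) (z₀ : E6) : slice S z₀ z₀ = z₀ := by
  funext j
  simp [slice]

theorem G6_per {X : Type} (S : Finset Cx) {g : E6 → X} {v : Cx → E6}
    (h : ∀ i ∈ S, ∀ x, g (x + v i) = g x) (x : E6) : g (x + ∑ i ∈ S, v i) = g x := by
  classical
  induction S using Finset.induction_on generalizing x with
  | empty => simp
  | insert a s ha ih =>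
    rw [Finset.sum_insert ha, add_comm (v a), ← add_assoc, h a (Finset.mem_insert_self _ _)]
    exact ih (fun i hi => h i (Finset.mem_insert_of_mem hi)) x

theorem G6_trans (α : Fm E6 k) (v x : E6) : pb (fun y => y + v) α x = α (x + v) := by
  have : fderiv ℝ (fun y : E6 => y + v) x = ContinuousLinearMap.id ℝ E6 :=
    ((hasFDerivAt_id x).add_const v).fderiv
  unfold pb
  rw [this]
  ext u
  simp

theorem torus (hD : Deck ψ U T) (S : Finset Cx) (z₀ : E6) (hs : ∀ z, slice S z₀ z ∈ U)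
    (hg : Seg U (slice S z₀)) (hc : Comm T (slice S z₀))
    (hT : ∀ f ∈ T, ∃ n : Cx → ℤ, ∀ z, ∀ i ∈ S, f z i = z i + n i)
    (hE : ∀ i ∈ S, ∀ z, ψ (slice S z₀ z + bv i) = ψ (slice S z₀ z)) {w : Fo M 2}
    (hw : ClO w (ψ '' U)) :
    ∃ (κ : Alt E6 2) (β : Fm E6 1), (∀ u v, κ ![u, v] = κ ![slice S 0 u, slice S 0 v]) ∧
      IsD β (fun x => pl ψ w x - κ) U ∧ ∀ f ∈ T, ∀ x ∈ U, pb f β x = β x := by
  have hπ := G6_sm S z₀
  have hcl : Cl (pl ψ w) U := hw ψ U hD.par (mapsTo_image _ _)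
  obtain ⟨β₀, hβ₀, hi₀⟩ := hD.retr hπ hg hc hw
  have hα : Cl (pb (slice S z₀) (pl ψ w)) univ :=
    hcl.pb isOpen_univ hD.par.opn hπ.contDiffOn fun z _ => hs z
  have hsm : ∀ x, SmAt (fun y => ψ (slice S z₀ y)) x := fun x =>
    (hD.par.sm _ (hs x)).comp hπ.contDiffAt
  have he : ∀ x, pl (fun y => ψ (slice S z₀ y)) w x = pb (slice S z₀) (pl ψ w) x := fun x =>
    pl_comp (hD.par.sm _ (hs x)) hπ.contDiffAt w
  have hper : ∀ i ∈ S, ∀ x,
      pb (slice S z₀) (pl ψ w) (x + bv i) = pb (slice S z₀) (pl ψ w) x := by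
    intro i hi x
    have h1 := pl_comp (c := fun y => ψ (slice S z₀ y)) (f := fun y : E6 => y + bv i) (x := x)
      (hsm _) (contDiffAt_id.add contDiffAt_const) w
    have h2 : (fun y : E6 => ψ (slice S z₀ (y + bv i))) = fun y => ψ (slice S z₀ y) := by
      funext y
      have := G6_add S z₀ y hi 1
      rw [one_smul] at this
      rw [this, hE i hi]
    rw [G6_trans] at h1
    rw [← he, ← he, ← h1, h2]
  obtain ⟨α', β₁, hβ₁, hp₁, hα'⟩ := avg S hα hper
  have h1 := hβ₁.pb hD.par.opn isOpen_univ hπ.contDiffOn (mapsTo_univ _ _)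
  refine ⟨(α' z₀).compContinuousLinearMap (G6_L S), β₀ + pb (slice S z₀) β₁, ?_, ⟨?_, ?_⟩, ?_⟩
  · intro u v
    simp only [ContinuousAlternatingMap.compContinuousLinearMap_apply]
    congr 1
    funext j
    fin_cases j <;> simp [G6_L_apply, G6_idem]
  · exact ContDiffOn.add hβ₀.1 h1.1
  · intro x hx
    have e1 : pb (slice S z₀) (pb (slice S z₀) (pl ψ w)) x = pb (slice S z₀) (pl ψ w) x := by
      rw [← pb_comp _ (G6_fd S z₀ _).differentiableAt (G6_fd S z₀ _).differentiableAt]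
      simp only [G6_idem]
    have e2 : pb (slice S z₀) α' x = (α' z₀).compContinuousLinearMap (G6_L S) := by
      have e3 : slice S z₀ x = z₀ + ∑ i ∈ S, (x i - z₀ i) • bv i := by
        funext j
        rw [Pi.add_apply, G6_sum]
        by_cases hj : j ∈ S <;> simp [slice, hj]
      unfold pb
      rw [(G6_fd S z₀ x).fderiv, e3, G6_per S (fun i hi y => hα' i hi y _)]
    rw [extDeriv_add (hβ₀.1.diffAt hD.par.opn hx) (h1.1.diffAt hD.par.opn hx), hβ₀.2 x hx,
      h1.2 x hx, pb_sub, Pi.sub_apply, e1, e2]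
    exact sub_add_sub_cancel _ _ _
  · intro f hf x hx
    obtain ⟨n, hn⟩ := hT f hf
    have e1 : (fun y => slice S z₀ (f y)) = fun y => slice S z₀ y + ∑ i ∈ S, (n i : ℝ) • bv i := by
      funext y j
      rw [Pi.add_apply, G6_sum]
      by_cases hj : j ∈ S <;> simp [slice, hj, hn]
    have e2 : ∀ y, β₁ (y + ∑ i ∈ S, (n i : ℝ) • bv i) = β₁ y := by
      refine G6_per S fun i hi y => ?_
      have : Function.Periodic β₁ (bv i) := hp₁ i hi
      rw [Int.cast_smul_eq_zsmul]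
      exact this.zsmul (n i) y
    rw [pb_add, Pi.add_apply, Pi.add_apply, hi₀ f hf x hx,
      ← pb_comp _ ((hD.sm f hf).differentiable (by simp) x) (G6_fd S z₀ _).differentiableAt, e1]
    congr 1
    unfold pb
    rw [e2, fderiv_add_const]

theorem torus_ex (hD : Deck ψ U T) (S : Finset Cx) (z₀ : E6) (hs : ∀ z, slice S z₀ z ∈ U)
    (hg : Seg U (slice S z₀)) (hc : Comm T (slice S z₀))
    (hT : ∀ f ∈ T, ∃ n : Cx → ℤ, ∀ z, ∀ i ∈ S, f z i = z i + n i)
    (hE : ∀ i ∈ S, ∃ f ∈ T, ∀ z, f (slice S z₀ z) = slice S z₀ z + bv i) {w : Fo M 2}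
    (hw : ClO w (ψ '' U)) (h0 : ∀ i ∈ S, ∀ j ∈ S, per2 (pl ψ w) z₀ (bv i) (bv j) = 0) :
    ExO w (ψ '' U) := by
  obtain ⟨κ, β, hκ, hβ, hi⟩ := torus hD S z₀ hs hg hc hT (fun i hi z => by
    obtain ⟨f, hf, h⟩ := hE i hi
    rw [← h z]
    exact hD.eq f hf _ (hs z)) hw
  have h1 : ∀ i ∈ S, ∀ j ∈ S, κ ![bv i, bv j] = 0 := by
    intro i hi' j hj
    obtain ⟨f, hf, h⟩ := hE i hi'
    obtain ⟨f', hf', h'⟩ := hE j hj
    have e : ∀ s t : ℝ, slice S z₀ (z₀ + s • bv i + t • bv j) = z₀ + s • bv i + t • bv j := by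
      intro s t
      rw [G6_add S z₀ _ hj, G6_add S z₀ _ hi', G6_self]
    rw [← per2_eq hD.par.opn hβ (z := z₀) (fun s t => e s t ▸ hs _) (hD.sm f hf) (hD.sm f' hf')
      (fun s t => by rw [← e s t, h]) (fun s t => by rw [← e s t, h']) (hi f hf) (hi f' hf')]
    exact h0 i hi' j hj
  have h2 : κ = 0 := by
    refine alt_ext_two fun u v => ?_
    obtain ⟨B, hB⟩ := exists_bilin κ
    have e : ∀ u : E6, slice S 0 u = ∑ i ∈ S, u i • bv i := by
      intro u
      funext j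
      rw [G6_sum]
      simp [slice]
    rw [hκ, hB, e, e]
    simp only [map_sum, map_smul, sum_apply, smul_apply,
      ContinuousAlternatingMap.coe_zero, Pi.zero_apply]
    refine Finset.sum_eq_zero fun j hj => ?_
    rw [Finset.sum_eq_zero fun i hi' => by rw [← hB, h1 i hi' j hj, smul_zero], smul_zero]
  subst h2
  exact hD.ex_of_inv (by simpa using hβ) hi

end Pool.Agent.Work.MP_bf98aa_gt.Cy
end
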