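import Pool.Agent.Work.MP_bf98aa_gt.Cy.Stmt

/-!
Homotopies of nondegenerate 2-forms.
-/

set_option autoImplicit false

open scoped Manifold ContDiff

namespace Pool.Agent.Work.MP_bf98aa_gt.Cy

open Pool.Agent.Work.MP_bf98aa_gt.Th

/-- Joined by a smooth path of nondegenerate forms. -/
def Homotopic {E : Type} [NormedAddCommGroup E] [NormedSpace ℝ E] {M : Type} [TopologicalSpace M]
    [ChartedSpace E M] (τ τ' : Form E M 2) : Prop :=
  ∃ H : ℝ → Form E M 2, H 0 = τ ∧ H 1 = τ' ∧ (∀ t ∈ Set.Icc (0 : ℝ) 1, (H t).Nondeg) ∧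
    ∀ p, ContDiffOn ℝ ∞ (fun z : ℝ × E => (H z.1).loc p z.2) (Set.univ ×ˢ (chartAt E p).target)

end Pool.Agent.Work.MP_bf98aa_gt.Cy
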