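import Pool.Agent.Work.MP_bf98aa_gt.B3.DAl
import Pool.Agent.Work.MP_bf98aa_gt.Cy.Stmt2
import Pool.Agent.Work.MP_bf98aa_gt.Th.IPf

-- merged part: Pool.Agent.Work.MP_bf98aa_gt.Cy.QDefs
section
-- merged part: Pool.Agent.Work.MP_bf98aa_gt.Cy.G10d
section
/-!
Definitions for the patching of `(3, 0)`-forms.
-/

set_option autoImplicit false

open scoped Manifold ContDiff Topology
open Set

namespace Pool.Agent.Work.MP_bf98aa_gt.Cy

open Pool.Agent.Work.MP_bf98aa_gt.Th

/-- Complex coframes. -/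
abbrev CF : Type := E6 →L[ℝ] (Fin 3 → ℂ)

/-- The vertical frame. -/
def fr : Fin 3 → E6 := fun j => bv (j, 1)

/-- The coframe is the identity on the vertical frame. -/
def NormS (S : CF) : Prop := ∀ j, S (fr j) = Pi.single j 1

/-- The vertical space is isotropic. -/
def Lag (η : Alt E6 2) : Prop := ∀ u v, Vert u → Vert v → η ![u, v] = 0

/-- The complex determinant as a real alternating map. -/
noncomputable def det3 : (Fin 3 → ℂ) [⋀^Fin 3]→L[ℝ] ℂ :=
  ContinuousAlternatingMap.restrictScalars ℝ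
    { (Matrix.detRowAlternating : (Fin 3 → ℂ) [⋀^Fin 3]→ₗ[ℂ] ℂ) with
      cont := Continuous.matrix_det (A := fun v : Fin 3 → Fin 3 → ℂ => Matrix.of v) continuous_id }

/-- The real part of `c * detC S`. -/
noncomputable def dre (c : ℂ) (S : CF) : Alt E6 3 :=
  Complex.reCLM.compContinuousAlternatingMap (c • det3.compContinuousLinearMap S)

/-- The imaginary part of `c * detC S`. -/
noncomputable def dim (c : ℂ) (S : CF) : Alt E6 3 :=
  Complex.imCLM.compContinuousAlternatingMap (c • det3.compContinuousLinearMap S)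

theorem det3_apply (S : CF) (v : Fin 3 → E6) : det3.compContinuousLinearMap S v = detC S v := by
  change Matrix.det (Matrix.of fun j i => S (v j) i) = _
  rw [detC, ← Matrix.det_transpose]
  rfl

theorem dre_apply (c : ℂ) (S : CF) (v : Fin 3 → E6) : dre c S v = (c * detC S v).re := by
  rw [← det3_apply]; rfl

theorem dim_apply (c : ℂ) (S : CF) (v : Fin 3 → E6) : dim c S v = (c * detC S v).im := by
  rw [← det3_apply]; rfl

/-- The values of `ρ + i σ` on two vectors of the vertical frame and one arbitrary vector. -/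
noncomputable def th (ρ σ : Alt E6 3) : CF :=
  ContinuousLinearMap.pi fun j =>
    Complex.ofRealCLM.comp (ρ.toContinuousMultilinearMap.toContinuousLinearMap fr j) +
      Complex.I • Complex.ofRealCLM.comp (σ.toContinuousMultilinearMap.toContinuousLinearMap fr j)

theorem th_apply (ρ σ : Alt E6 3) (u : E6) (j : Fin 3) :
    th ρ σ u j = ρ (Function.update fr j u) + Complex.I * σ (Function.update fr j u) := rfl

/-- The normalised coframe of `ρ + i σ`. -/
noncomputable def thN (ρ σ : Alt E6 3) : CF := (ρ fr)⁻¹ • th ρ σ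

/-- The real part of the projection to decomposable forms. -/
noncomputable def pre (ρ σ : Alt E6 3) : Alt E6 3 := dre (ρ fr) (thN ρ σ)

/-- The imaginary part of the projection to decomposable forms. -/
noncomputable def pim (ρ σ : Alt E6 3) : Alt E6 3 := dim (ρ fr) (thN ρ σ)

/-- The forms agree when two arguments are vertical. -/
def Agr (ρ ρ' : Alt E6 3) : Prop := ∀ a b u, Vert a → Vert b → ρ ![a, b, u] = ρ' ![a, b, u]

end Pool.Agent.Work.MP_bf98aa_gt.Cy
end

-- merged part: Pool.Agent.Work.MP_bf98aa_gt.Cy.QDefs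
section
/-!
Spinors on `ℂ³`, bundles with structure group `SU(3)`.
-/

set_option autoImplicit false

open scoped Manifold ContDiff Topology ComplexConjugate
open Set Complex

namespace Pool.Agent.Work.MP_bf98aa_gt.Cy

open Pool.Agent.Work.MP_bf98aa_gt.Th

noncomputable section

/-- The model fibre. -/
abbrev V3 : Type := Fin 3 → ℂ

/-- Real endomorphisms. -/
abbrev En : Type := V3 →L[ℝ] V3

/-- Real automorphisms. -/
abbrev Au : Type := V3 ≃L[ℝ] V3

/-- Spinors. -/
abbrev Spn : Type := ℂ × V3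

/-- The hermitian product. -/
def herm (u v : V3) : ℂ := conj (u 0) * v 0 + conj (u 1) * v 1 + conj (u 2) * v 2

/-- The real inner product. -/
def ip (u v : V3) : ℝ := (herm u v).re

/-- The conjugate of the cross product. -/
def xp (u v : V3) : V3 := fun k => conj (u (k + 1) * v (k + 2) - u (k + 2) * v (k + 1))

theorem xp0 (u v : V3) : xp u v 0 = conj (u 1 * v 2 - u 2 * v 1) := rfl

theorem xp1 (u v : V3) : xp u v 1 = conj (u 2 * v 0 - u 0 * v 2) := rfl

theorem xp2 (u v : V3) : xp u v 2 = conj (u 0 * v 1 - u 1 * v 0) := rfl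

/-- Clifford multiplication. -/
def cl (v : V3) (s : Spn) : Spn := (-herm s.2 v, conj s.1 • v + xp v s.2)

/-- The hermitian product of spinors. -/
def hs (s t : Spn) : ℂ := conj s.1 * t.1 + herm s.2 t.2

/-- The square of the length of a spinor. -/
def nS (s : Spn) : ℝ := (hs s s).re

/-- The complex volume form of a spinor. -/
def Om (s : Spn) (u v z : V3) : ℂ := -hs s (cl u (cl v (cl z s)))

/-- The complex structure of a spinor, times the square of its length. -/
def Jf (s : Spn) (u : V3) : V3 :=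
  I • ((conj s.1 * s.1 - herm s.2 s.2) • u + (2 * herm s.2 u) • s.2 + (2 * s.1) • xp u s.2)

/-- `Jf` as a linear map. -/
def Jt (s : Spn) : En := LinearMap.toContinuousLinearMap
  { toFun := Jf s
    map_add' := fun u v => by
      funext k
      simp only [Jf, herm, xp, Pi.add_apply, Pi.smul_apply, smul_eq_mul, map_add, map_mul, map_sub]
      ring
    map_smul' := fun r u => by
      funext k
      simp only [Jf, herm, xp, Pi.add_apply, Pi.smul_apply, smul_eq_mul, map_mul, map_sub,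
        real_smul, conj_ofReal, RingHom.id_apply]
      ring }

/-- The real basis. -/
def bs : Fin 6 → V3 := ![![1, 0, 0], ![I, 0, 0], ![0, 1, 0], ![0, I, 0], ![0, 0, 1], ![0, 0, I]]

/-- A term of the wedge product of the real and imaginary parts. -/
def bt (Ω : V3 → V3 → V3 → ℂ) (a b c d e : Fin 6) : ℝ :=
  (conj (Ω (bs 0) (bs a) (bs b)) * Ω (bs c) (bs d) (bs e)).im

/-- The wedge product of the real and imaginary parts. -/
def Bq (Ω : V3 → V3 → V3 → ℂ) : ℝ :=
  bt Ω 1 2 3 4 5 - bt Ω 1 3 2 4 5 + bt Ω 1 4 2 3 5 - bt Ω 1 5 2 3 4 + bt Ω 2 3 1 4 5 -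
    bt Ω 2 4 1 3 5 + bt Ω 2 5 1 3 4 + bt Ω 3 4 1 2 5 - bt Ω 3 5 1 2 4 + bt Ω 4 5 1 2 3

/-- The complex basis. -/
def e3 : Fin 3 → V3 := fun j => Pi.single j 1

/-- An isometry. -/
def Iso (g : V3 → V3) : Prop := ∀ u v, ip (g u) (g v) = ip u v

/-- A special unitary map. -/
def SUn (g : Au) : Prop :=
  (∀ u v, herm (g u) (g v) = herm u v) ∧ ∀ v : Fin 3 → V3, det3 (fun j => g (v j)) = det3 v

/-- The action on spinors. -/
def act (g : Au) (s : Spn) : Spn := (s.1, g s.2)

/-- A positive definite symmetric bilinear form. -/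
def PDf (B : V3 → V3 → ℝ) : Prop :=
  (∀ v, IsLinearMap ℝ fun u => B u v) ∧ (∀ u v, B u v = B v u) ∧ ∀ u, u ≠ 0 → 0 < B u u

/-- A positive symmetric map. -/
def SP (R : V3 → V3) : Prop := (∀ u v, ip (R u) v = ip u (R v)) ∧ ∀ u, u ≠ 0 → 0 < ip (R u) u

/-- The positive square root of a form. -/
def sqt (B : V3 → V3 → ℝ) : Au :=
  Classical.epsilon fun R : Au => SP R ∧ ∀ u v, ip (R u) (R v) = B u v

/-- The square root of `1 + Aᵀ A`. -/
def Rf (A : En) : Au := sqt fun u v => ip u v + ip (A u) (A v)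

section
variable {V W : Type} [NormedAddCommGroup V] [NormedSpace ℝ V] [NormedAddCommGroup W]
  [NormedSpace ℝ W]

/-- Conjugation. -/
def cj (g : V ≃L[ℝ] W) (A : V →L[ℝ] V) : W →L[ℝ] W :=
  (g : V →L[ℝ] W).comp (A.comp (g.symm : W →L[ℝ] V))

/-- Push-forward of a form. -/
def psh {k : ℕ} (g : V ≃L[ℝ] W) (w : Alt V k) : Alt W k :=
  w.compContinuousLinearMap (g.symm : W →L[ℝ] V)

/-- `β` tames `A`. -/
def Tms (β : Alt V 2) (A : V →L[ℝ] V) : Prop := ∀ v, v ≠ 0 → 0 < β ![v, A v]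

/-- `ρ + i σ` is a nonzero form of type `(3, 0)` for the complex structure `J`. -/
def Ty (J : V →L[ℝ] V) (ρ σ : Alt V 3) : Prop := (∀ v, J (J v) = -v) ∧ ρ ≠ 0 ∧
  ∀ u v z, ρ ![J u, v, z] = -σ ![u, v, z] ∧ σ ![J u, v, z] = ρ ![u, v, z]

/-- The form `ρ + i σ`. -/
def om3 (ρ σ : Alt V 3) (v : Fin 3 → V) : ℂ := ρ v + I * σ v

end

/-- Local frames, relative to a fixed (discontinuous) global frame. -/
structure Bdl (X ι : Type) where
  O : ι → Set X
  g : ι → X → Au

namespace Bdl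

variable {X ι : Type} [TopologicalSpace X] (B : Bdl X ι)

/-- The frames cover, are special unitary and have continuous transitions. -/
structure Ok : Prop where
  opn : ∀ i, IsOpen (B.O i)
  cov : ∀ x, ∃ i, x ∈ B.O i
  su : ∀ i, ∀ x ∈ B.O i, SUn (B.g i x)
  cont : ∀ i j, ContinuousOn (fun x => ((B.g i x).symm.trans (B.g j x) : En)) (B.O i ∩ B.O j)

/-- A continuous form. -/
def CF {k : ℕ} (w : X → Alt V3 k) : Prop := ∀ i, ContinuousOn (fun x => psh (B.g i x) (w x)) (B.O i)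

/-- A continuous spinor. -/
def CS (s : X → Spn) : Prop := ∀ i, ContinuousOn (fun x => act (B.g i x) (s x)) (B.O i)

end Bdl

/-- A continuous frame on a manifold. -/
def Adm {M : Type} [TopologicalSpace M] [ChartedSpace E6 M] (F : M → E6 ≃L[ℝ] V3) (O : Set M) :
    Prop :=
  ∀ ψ U, Par ψ U → MapsTo ψ U O → ContinuousOn (fun y => (F (ψ y) : CF).comp (dM ψ y)) U

end

end Pool.Agent.Work.MP_bf98aa_gt.Cy
end
end

-- merged part: Pool.Agent.Work.MP_bf98aa_gt.Cy.Q4
section
-- merged part: Pool.Agent.Work.MP_bf98aa_gt.Cy.Q1a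
section
/-!
Clifford algebra in coordinates.

PLAN. All identities are polynomial in the coordinates and their conjugates: `Prod.ext`, `funext k; fin_cases k`, `simp only [cl, hs, herm, Jf, xp0, xp1, xp2, map_add, map_mul, ..]`, `ring`
(`ip u v = (herm u v + herm v u) / 2` and `nS s = hs s s` as complex numbers: `ip_coe`, `nS_coe`; use `I_mul_I` / `linear_combination (..) * I_sq`). All of them were checked numerically.
-/

set_option autoImplicit false

open scoped Manifold ContDiff Topology ComplexConjugate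
open Set Complex

namespace Pool.Agent.Work.MP_bf98aa_gt.Cy

open Pool.Agent.Work.MP_bf98aa_gt.Th

variable {s t : Spn} {u v z : V3}

theorem Jt_apply (s : Spn) (u : V3) : Jt s u = Jf s u := rfl

theorem herm_conj (u v : V3) : conj (herm u v) = herm v u := by
  simp only [herm, map_add, map_mul, conj_conj]
  ring

theorem herm_add_left (u u' v : V3) : herm (u + u') v = herm u v + herm u' v := by
  simp only [herm, Pi.add_apply, map_add]
  ring

theorem herm_add_right (u v v' : V3) : herm u (v + v') = herm u v + herm u v' := by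
  simp only [herm, Pi.add_apply, map_add]
  ring

theorem herm_smul_left (c : ℂ) (u v : V3) : herm (c • u) v = conj c * herm u v := by
  simp only [herm, Pi.smul_apply, smul_eq_mul, map_mul]
  ring

theorem herm_smul_right (c : ℂ) (u v : V3) : herm u (c • v) = c * herm u v := by
  simp only [herm, Pi.smul_apply, smul_eq_mul, map_mul]
  ring

theorem herm_eq (u v : V3) : herm u v = ip u v + I * ip (I • u) v := by
  rw [ip, ip, herm_smul_left]
  exact Complex.ext (by simp) (by simp)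

theorem ip_coe (u v : V3) : (ip u v : ℂ) = (herm u v + herm v u) / 2 := by
  rw [ip, ← herm_conj u v, re_eq_add_conj]

theorem ip_symm (u v : V3) : ip u v = ip v u := by
  rw [ip, ip, ← herm_conj u v, conj_re]

theorem ip_lin (v : V3) : IsLinearMap ℝ fun u => ip u v := ⟨fun a b => by rw [ip, herm_add_left, add_re, ip, ip], fun r a => by
    rw [ip, ip, ← Complex.coe_smul, herm_smul_left, conj_ofReal, re_ofReal_mul, smul_eq_mul]⟩

theorem ip_lin' (u : V3) : IsLinearMap ℝ fun v => ip u v := by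
  simpa only [ip_symm u] using ip_lin u

theorem ip_I (u v : V3) : ip (I • u) (I • v) = ip u v := by
  rw [ip, ip, herm_smul_left, herm_smul_right, conj_I, ← mul_assoc, neg_mul, I_mul_I, neg_neg, one_mul]

theorem Q1a_ip (u : V3) : ip u u = normSq (u 0) + normSq (u 1) + normSq (u 2) := by
  simp [ip, herm, normSq_apply]

theorem ip_pos (h : u ≠ 0) : 0 < ip u u := by
  have h0 := normSq_nonneg (u 0)
  have h1 := normSq_nonneg (u 1)
  have h2 := normSq_nonneg (u 2)
  by_contra hn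
  rw [Q1a_ip, not_lt] at hn
  refine h (funext fun k => normSq_eq_zero.1 ?_)
  fin_cases k
  · exact h0.antisymm' (by linarith)
  · exact h1.antisymm' (by linarith)
  · exact h2.antisymm' (by linarith)

theorem ip_nonneg (u : V3) : 0 ≤ ip u u := by
  rw [Q1a_ip]
  exact add_nonneg (add_nonneg (normSq_nonneg _) (normSq_nonneg _)) (normSq_nonneg _)

theorem ip_ext (h : ∀ z, ip u z = ip v z) : u = v := by
  by_contra hn
  have h1 := ip_pos (sub_ne_zero.2 hn)
  rw [(ip_lin (u - v)).map_sub, h, sub_self] at h1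
  exact h1.false

theorem cont_herm : Continuous fun p : V3 × V3 => herm p.1 p.2 := by
  unfold herm
  fun_prop

theorem cont_ip : Continuous fun p : V3 × V3 => ip p.1 p.2 := continuous_re.comp cont_herm

theorem nS_coe (s : Spn) : (nS s : ℂ) = hs s s := by
  rw [nS, ← conj_eq_iff_re, hs, map_add, herm_conj, map_mul, conj_conj, mul_comm]

theorem nS_eq (s : Spn) : nS s = normSq s.1 + ip s.2 s.2 := by
  simp [nS, hs, ip, normSq_apply]

theorem nS_pos (h : s ≠ 0) : 0 < nS s := by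
  rw [nS_eq]
  by_cases h2 : s.2 = 0
  · exact add_pos_of_pos_of_nonneg (normSq_pos.2 fun h1 => h (Prod.ext h1 h2)) (ip_nonneg _)
  · exact add_pos_of_nonneg_of_pos (normSq_nonneg _) (ip_pos h2)

theorem nS_bound (s : Spn) : ‖s‖ ^ 2 ≤ nS s ∧ nS s ≤ 4 * ‖s‖ ^ 2 := by
  have e : nS s = ‖s.1‖ ^ 2 + (‖s.2 0‖ ^ 2 + ‖s.2 1‖ ^ 2 + ‖s.2 2‖ ^ 2) := by
    simp only [nS_eq, Q1a_ip, normSq_eq_norm_sq]
  have h0 := sq_nonneg ‖s.1‖
  have h1 := sq_nonneg ‖s.2 0‖
  have h2 := sq_nonneg ‖s.2 1‖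
  have h3 := sq_nonneg ‖s.2 2‖
  have b : ∀ k, ‖s.2 k‖ ^ 2 ≤ ‖s‖ ^ 2 := fun k =>
    pow_le_pow_left₀ (norm_nonneg _) ((norm_le_pi_norm _ k).trans (norm_snd_le s)) 2
  refine ⟨(Real.le_sqrt (norm_nonneg _) (by linarith)).1 (norm_prod_le_iff.2
    ⟨Real.le_sqrt_of_sq_le (by linarith), (pi_norm_le_iff_of_nonneg (Real.sqrt_nonneg _)).2
      fun k => Real.le_sqrt_of_sq_le ?_⟩),
    by linarith [b 0, b 1, b 2, pow_le_pow_left₀ (norm_nonneg _) (norm_fst_le s) 2]⟩
  fin_cases k
  · exact (by linarith : ‖s.2 0‖ ^ 2 ≤ nS s)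
  · exact (by linarith : ‖s.2 1‖ ^ 2 ≤ nS s)
  · exact (by linarith : ‖s.2 2‖ ^ 2 ≤ nS s)

theorem nS_smul (r : ℝ) (s : Spn) : nS (r • s) = r ^ 2 * nS s := by
  simp only [nS_eq, Prod.smul_fst, Prod.smul_snd, (ip_lin _).map_smul, (ip_lin' _).map_smul,
    real_smul, map_mul, normSq_ofReal, smul_eq_mul]
  ring

theorem cont_hs : Continuous fun p : Spn × Spn => hs p.1 p.2 := by
  unfold hs herm
  fun_prop

theorem cont_nS : Continuous nS := continuous_re.comp (cont_hs.comp (continuous_id.prodMk continuous_id))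

theorem hs_conj (s t : Spn) : conj (hs s t) = hs t s := by
  rw [hs, hs, map_add, herm_conj, map_mul, conj_conj, mul_comm]

theorem hs_smul_left (c : ℂ) (s t : Spn) : hs (c • s) t = conj c * hs s t := by
  simp only [hs, Prod.smul_fst, Prod.smul_snd, herm_smul_left, smul_eq_mul, map_mul]
  ring

theorem hs_smul_right (c : ℂ) (s t : Spn) : hs s (c • t) = c * hs s t := by
  simp only [hs, Prod.smul_fst, Prod.smul_snd, herm_smul_right, smul_eq_mul]
  ring

theorem hs_add_right (s t t' : Spn) : hs s (t + t') = hs s t + hs s t' := by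
  simp only [hs, Prod.fst_add, Prod.snd_add, herm_add_right]
  ring

end Pool.Agent.Work.MP_bf98aa_gt.Cy
end

-- merged part: Pool.Agent.Work.MP_bf98aa_gt.Cy.Q4a
section
/-!
Positive square roots.

PLAN. Let `b : Module.Basis (Fin 6) ℝ V3` (or index `Fin 3 × Fin 2`) be the orthonormal basis `bs` for `ip`. The matrix `P = (B (b i) (b j))` is positive definite; `CFC.sqrt P`
(`open scoped MatrixOrder Matrix.Norms.L2Operator`, `CFC.sqrt_mul_sqrt_self`, `CFC.sqrt_unique` or `Matrix.PosSemidef.sq_eq_sq_iff`, `CFC.continuousOn_sqrt`) gives existence, uniqueness and continuity.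
`cont_symm`: `ContinuousLinearMap.inverse`, `contDiffAt_map_inverse`. `sqt_conj`: both sides are positive symmetric with the same square (`sp_unique`).
-/

set_option autoImplicit false

open scoped Manifold ContDiff Topology ComplexConjugate
open Set Complex

namespace Pool.Agent.Work.MP_bf98aa_gt.Cy

open Pool.Agent.Work.MP_bf98aa_gt.Th

open scoped Matrix MatrixOrder Matrix.Norms.L2Operator

/-- Real coordinates. -/
noncomputable def Q4a_E : V3 ≃ₗ[ℝ] (Fin 3 ⊕ Fin 3 → ℝ) where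
  toFun u := Sum.elim (fun j => (u j).re) fun j => (u j).im
  invFun x := fun j => ⟨x (.inl j), x (.inr j)⟩
  map_add' u v := by
    funext k
    rcases k with j | j <;> rfl
  map_smul' r u := by
    funext k
    rcases k with j | j <;> simp
  left_inv u := rfl
  right_inv x := by
    funext k
    rcases k with j | j <;> rfl

theorem Q4a_ip (u v : V3) : ip u v = Q4a_E u ⬝ᵥ Q4a_E v := by
  have h1 : ∀ (w : V3) j, Q4a_E w (.inl j) = (w j).re := fun _ _ => rfl
  have h2 : ∀ (w : V3) j, Q4a_E w (.inr j) = (w j).im := fun _ _ => rfl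
  simp only [ip, herm, dotProduct, Fintype.sum_sum_type, Fin.sum_univ_three, h1, h2, add_re, mul_re,
    conj_re, conj_im]
  ring

/-- The Gram matrix. -/
noncomputable def Q4a_G (B : V3 → V3 → ℝ) : Matrix (Fin 3 ⊕ Fin 3) (Fin 3 ⊕ Fin 3) ℝ :=
  Matrix.of fun i j => B (Q4a_E.symm (Pi.single i 1)) (Q4a_E.symm (Pi.single j 1))

theorem Q4a_lin {f : V3 → ℝ} (hf : IsLinearMap ℝ f) (u : V3) :
    f u = ∑ i, Q4a_E u i * f (Q4a_E.symm (Pi.single i 1)) := by
  have h1 : u = ∑ i, Q4a_E u i • Q4a_E.symm (Pi.single i 1) := by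
    simp only [← map_smul, ← map_sum]
    rw [← pi_eq_sum_univ', LinearEquiv.symm_apply_apply]
  have h2 := congrArg (hf.mk' f) h1
  rw [map_sum] at h2
  simpa only [map_smul, IsLinearMap.mk'_apply, smul_eq_mul] using h2

theorem Q4a_form {B : V3 → V3 → ℝ} (h : PDf B) (u v : V3) :
    B u v = Q4a_E u ⬝ᵥ Q4a_G B *ᵥ Q4a_E v := by
  rw [Q4a_lin (h.1 v) u, dotProduct]
  refine Finset.sum_congr rfl fun i _ => congrArg _ ?_
  rw [h.2.1, Q4a_lin (h.1 _) v, Matrix.mulVec, dotProduct]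
  refine Finset.sum_congr rfl fun j _ => ?_
  rw [mul_comm, h.2.1]
  rfl

theorem Q4a_pd {B : V3 → V3 → ℝ} (h : PDf B) : (Q4a_G B).PosDef :=
  .of_dotProduct_mulVec_pos (Matrix.ext fun i j => h.2.1 _ _) fun x hx => by
    have h1 := h.2.2 (Q4a_E.symm x) (by simpa using hx)
    rwa [Q4a_form h, LinearEquiv.apply_symm_apply] at h1

theorem Q4a_pdf {R : En} (h : SP R) : PDf fun u v => ip u (R v) :=
  ⟨fun _ => ip_lin _, fun u v => (h.1 u v).symm.trans (ip_symm _ _),
    fun u hu => (h.2 u hu).trans_eq (h.1 u u)⟩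

theorem Q4a_mat {R : En} (h : SP R) (v : V3) :
    Q4a_E (R v) = Q4a_G (fun u v => ip u (R v)) *ᵥ Q4a_E v := by
  refine dotProduct_eq_iff.1 fun x => ?_
  have h1 := Q4a_form (Q4a_pdf h) (Q4a_E.symm x) v
  rw [Q4a_ip, LinearEquiv.apply_symm_apply] at h1
  rw [dotProduct_comm, h1, dotProduct_comm]

theorem Q4a_sym {S : Matrix (Fin 3 ⊕ Fin 3) (Fin 3 ⊕ Fin 3) ℝ} (h : S.PosSemidef)
    (x y : Fin 3 ⊕ Fin 3 → ℝ) : S *ᵥ x ⬝ᵥ y = x ⬝ᵥ S *ᵥ y := by
  have h1 : Sᵀ = S := h.1
  rw [Matrix.dotProduct_mulVec, ← Matrix.mulVec_transpose, h1]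

theorem Q4a_ex {B : V3 → V3 → ℝ} (h : PDf B) : ∃ R : Au,
    (∀ u, R u = Q4a_E.symm (CFC.sqrt (Q4a_G B) *ᵥ Q4a_E u)) ∧
      SP R ∧ ∀ u v, ip (R u) (R v) = B u v := by
  have hS : (CFC.sqrt (Q4a_G B)).PosSemidef := Matrix.nonneg_iff_posSemidef.1 (CFC.sqrt_nonneg _)
  have h2 := CFC.sqrt_mul_sqrt_self (Q4a_G B) (Q4a_pd h).posSemidef.nonneg
  generalize CFC.sqrt (Q4a_G B) = S at hS h2 ⊢
  let L : V3 →ₗ[ℝ] V3 := Q4a_E.symm.toLinearMap ∘ₗ S.mulVecLin ∘ₗ Q4a_E.toLinearMap
  have hL : ∀ u, Q4a_E (L u) = S *ᵥ Q4a_E u := fun u => Q4a_E.apply_symm_apply _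
  have h3 : ∀ u v, ip (L u) (L v) = B u v := fun u v => by
    rw [Q4a_ip, hL, hL, Q4a_sym hS, Matrix.mulVec_mulVec, h2, Q4a_form h]
  have h4 : ∀ u, L u = 0 → u = 0 := fun u hu => by_contra fun h0 => by
    have h5 := h.2.2 u h0
    rw [← h3, hu, Q4a_ip, map_zero, zero_dotProduct] at h5
    exact lt_irrefl _ h5
  refine ⟨(LinearEquiv.ofInjectiveEndo L
    ((injective_iff_map_eq_zero L).2 h4)).toContinuousLinearEquiv, fun u => rfl,
    ⟨fun u v => ?_, fun u hu => ?_⟩, h3⟩
  · change ip (L u) v = ip u (L v)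
    rw [Q4a_ip, Q4a_ip, hL, hL, Q4a_sym hS]
  · change 0 < ip (L u) u
    rw [Q4a_ip, hL, Q4a_sym hS]
    refine lt_of_le_of_ne (hS.dotProduct_mulVec_nonneg _) fun h0 => hu (h4 u ?_)
    have h5 := (hS.dotProduct_mulVec_zero_iff (Q4a_E u)).1 h0.symm
    rwa [← hL, map_eq_zero_iff _ Q4a_E.injective] at h5

theorem sp_unique {R R' : En} (h : SP R) (h' : SP R')
    (he : ∀ u v, ip (R u) (R v) = ip (R' u) (R' v)) : R = R' := by
  have h1 : ∀ v, R (R v) = R' (R' v) := fun v => ip_ext fun z => by rw [h.1, h'.1, he]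
  have h2 := (CFC.mul_self_eq_mul_self_iff _ _ (Q4a_pd (Q4a_pdf h)).posSemidef.nonneg
    (Q4a_pd (Q4a_pdf h')).posSemidef.nonneg).1 (Matrix.ext_iff_mulVec.2 fun x => by
      obtain ⟨v, rfl⟩ := Q4a_E.surjective x
      rw [← Matrix.mulVec_mulVec, ← Matrix.mulVec_mulVec, ← Q4a_mat h, ← Q4a_mat h, ← Q4a_mat h',
        ← Q4a_mat h', h1])
  ext1 v
  apply Q4a_E.injective
  rw [Q4a_mat h, Q4a_mat h', h2]

theorem sqt_spec {B : V3 → V3 → ℝ} (h : PDf B) :
    SP (sqt B) ∧ ∀ u v, ip (sqt B u) (sqt B v) = B u v := by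
  obtain ⟨R, -, hR⟩ := Q4a_ex h
  exact Classical.epsilon_spec (p := fun R : Au => SP R ∧ ∀ u v, ip (R u) (R v) = B u v) ⟨R, hR⟩

theorem sqt_cont : ContinuousOn (fun B => (sqt B : En)) {B | PDf B} := by
  refine continuousOn_clm_apply.2 fun u => ?_
  have h1 : Continuous Q4a_G := continuous_matrix fun i j => continuous_apply_apply _ _
  have h2 : ContinuousOn (fun B => CFC.sqrt (Q4a_G B)) {B | PDf B} :=
    CFC.continuousOn_sqrt.comp h1.continuousOn fun B hB => (Q4a_pd hB).posSemidef.nonneg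
  have h3 : Continuous fun S : Matrix (Fin 3 ⊕ Fin 3) (Fin 3 ⊕ Fin 3) ℝ =>
      Q4a_E.symm (S *ᵥ Q4a_E u) :=
    Q4a_E.symm.toLinearMap.continuous_of_finiteDimensional.comp
      (continuous_id.matrix_mulVec continuous_const)
  refine (h3.comp_continuousOn h2).congr fun B hB => ?_
  obtain ⟨R, h4, h5, h6⟩ := Q4a_ex hB
  obtain ⟨h7, h8⟩ := sqt_spec hB
  have h9 : (sqt B : En) = (R : En) := sp_unique h7 h5 fun u v => (h8 u v).trans (h6 u v).symm
  rw [h9]
  exact h4 u

theorem cont_symm {X V W : Type} [TopologicalSpace X] [NormedAddCommGroup V] [NormedSpace ℝ V]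
    [FiniteDimensional ℝ V] [NormedAddCommGroup W] [NormedSpace ℝ W] {T : X → V ≃L[ℝ] W}
    {S : Set X} (h : ContinuousOn (fun x => (T x : V →L[ℝ] W)) S) :
    ContinuousOn (fun x => ((T x).symm : W →L[ℝ] V)) S := by
  have := FiniteDimensional.complete ℝ V
  intro x hx
  have h1 := (contDiffAt_map_inverse (n := 0) (T x)).continuousAt.comp_continuousWithinAt
    (f := fun x => (T x : V →L[ℝ] W)) (h x hx)
  simpa only [Function.comp_def, ContinuousLinearMap.inverse_equiv] using h1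

end Pool.Agent.Work.MP_bf98aa_gt.Cy
end

-- merged part: Pool.Agent.Work.MP_bf98aa_gt.Cy.Q4
section
/-!
Positive square roots: conjugation, continuity, taming.
-/

set_option autoImplicit false

open scoped Manifold ContDiff Topology ComplexConjugate
open Set Complex

namespace Pool.Agent.Work.MP_bf98aa_gt.Cy

open Pool.Agent.Work.MP_bf98aa_gt.Th

theorem Q4_pdf {B : V3 → V3 → ℝ} (h : PDf B) (g : Au) : PDf fun u v => B (g u) (g v) :=
  ⟨fun v => ⟨fun a b => by simp only [map_add, (h.1 _).map_add], fun r a => by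
    simp only [map_smul, (h.1 _).map_smul]⟩, fun _ _ => h.2.1 _ _,
    fun u hu => h.2.2 _ fun h0 => hu (g.injective (h0.trans (map_zero g).symm))⟩

theorem Q4_rf (A : En) : PDf fun u v => ip u v + ip (A u) (A v) :=
  ⟨fun v => ⟨fun a b => by
      simp only [map_add, (ip_lin _).map_add]
      ring, fun r a => by
      simp only [map_smul, (ip_lin _).map_smul, smul_add]⟩,
    fun u v => congrArg₂ (· + ·) (ip_symm _ _) (ip_symm _ _),
    fun u hu => add_pos_of_pos_of_nonneg (ip_pos hu) (ip_nonneg _)⟩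

theorem sqt_conj {B : V3 → V3 → ℝ} (h : PDf B) {g : Au} (hg : Iso g) (v : V3) :
    sqt (fun u v => B (g.symm u) (g.symm v)) (g v) = g (sqt B v) := by
  obtain ⟨h1, h2⟩ := sqt_spec h
  obtain ⟨h3, h4⟩ := sqt_spec (Q4_pdf h g.symm)
  have h5 : ∀ u w, ip (g u) w = ip u (g.symm w) := fun u w => by
    rw [← hg u, g.apply_symm_apply]
  have h6 : ∀ u, cj g (sqt B : En) u = g (sqt B (g.symm u)) := fun _ => rfl
  have h7 : (sqt (fun u v => B (g.symm u) (g.symm v)) : En) = cj g (sqt B : En) :=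
    sp_unique h3 ⟨fun u w => by rw [h6, h6, h5, h1.1, ip_symm u, h5, ip_symm],
      fun u hu => by
        rw [h6, h5]
        exact h1.2 _ fun h0 => hu (g.symm.injective (h0.trans (map_zero g.symm).symm))⟩
      fun u w => by
        rw [h6, h6, hg, h2]
        exact h4 u w
  have h8 := DFunLike.congr_fun h7 (g v)
  rwa [h6, g.symm_apply_apply] at h8

/-- Multiplication by `I`. -/
noncomputable def Q4_I : Au :=
  (LinearEquiv.restrictScalars ℝ
    (LinearEquiv.smulOfNeZero ℂ V3 I I_ne_zero)).toContinuousLinearEquiv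

theorem sqt_I {B : V3 → V3 → ℝ} (h : PDf B) (hI : ∀ u v, B (I • u) (I • v) = B u v) (v : V3) :
    sqt B (I • v) = I • sqt B v := by
  have h1 : ∀ u, Q4_I u = I • u := fun _ => rfl
  have h2 := sqt_conj h (g := Q4_I) ip_I v
  have h3 : (fun u v => B (Q4_I.symm u) (Q4_I.symm v)) = B := by
    funext u w
    rw [← hI, ← h1, ← h1, Q4_I.apply_symm_apply, Q4_I.apply_symm_apply]
  rwa [h3] at h2

theorem Rf_spec (A : En) (u v : V3) : ip (Rf A u) (Rf A v) = ip u v + ip (A u) (A v) :=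
  (sqt_spec (Q4_rf A)).2 u v

theorem Rf_zero (v : V3) : Rf 0 v = v := by
  have h1 : ip (0 : V3) 0 = 0 := (ip_lin 0).map_zero
  have h2 : (Rf 0 : En) = ContinuousLinearMap.id ℝ V3 :=
    sp_unique (sqt_spec (Q4_rf 0)).1 ⟨fun _ _ => rfl, fun _ hu => ip_pos hu⟩ fun u w =>
      (Rf_spec 0 u w).trans (by
        rw [zero_apply, zero_apply, h1, add_zero]
        rfl)
  exact DFunLike.congr_fun h2 v

theorem Rf_cont : Continuous fun A => (Rf A : En) := by
  have h1 : Continuous fun (A : En) (u v : V3) => ip u v + ip (A u) (A v) :=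
    continuous_pi fun u => continuous_pi fun v => continuous_const.add
      (cont_ip.comp (f := fun A : En => (A u, A v)) (by fun_prop))
  exact sqt_cont.comp_continuous h1 Q4_rf

theorem Rf_symm_cont : Continuous fun A => ((Rf A).symm : En) :=
  continuousOn_univ.1 (cont_symm Rf_cont.continuousOn)

theorem Rf_conj (A : En) {g : Au} (hg : Iso g) (v : V3) : Rf (cj g A) (g v) = g (Rf A v) := by
  have h1 : (fun u w => ip u w + ip (cj g A u) (cj g A w)) =
      fun u w => ip (g.symm u) (g.symm w) + ip (A (g.symm u)) (A (g.symm w)) := by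
    funext u w
    rw [← hg (g.symm u), g.apply_symm_apply, g.apply_symm_apply, ← hg (A _)]
    rfl
  rw [Rf, h1]
  exact sqt_conj (Q4_rf A) hg v

theorem tame_of_skew {A : En} (h : ∀ u v, ip (A u) v = -ip u (A v)) (hi : ∀ v, v ≠ 0 → A v ≠ 0) :
    ∃ β : Alt V3 2, Tms β A := by
  let L : V3 →ₗ[ℝ] V3 →L[ℝ] ℝ :=
    { toFun := fun u => LinearMap.toContinuousLinearMap ((ip_lin' (A u)).mk' _)
      map_add' := fun a b => ContinuousLinearMap.ext fun v => by
        change ip (A (a + b)) v = ip (A a) v + ip (A b) v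
        rw [map_add, (ip_lin v).map_add]
      map_smul' := fun r a => ContinuousLinearMap.ext fun v => by
        change ip (A (r • a)) v = r • ip (A a) v
        rw [map_smul, (ip_lin v).map_smul] }
  refine ⟨alt2 (LinearMap.toContinuousLinearMap L), fun v hv => ?_⟩
  rw [alt2_apply]
  change 0 < ip (A v) (A v) - ip (A (A v)) v
  have h1 := ip_pos (hi v hv)
  rw [h (A v) v]
  linarith

end Pool.Agent.Work.MP_bf98aa_gt.Cy
end
end

-- merged part: Pool.Agent.Work.MP_bf98aa_gt.Cy.Q6a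
section
-- merged part: Pool.Agent.Work.MP_bf98aa_gt.Cy.Q1
section
/-!
Clifford algebra in coordinates.

PLAN. All identities are polynomial in the coordinates and their conjugates: `Prod.ext`, `funext k; fin_cases k`, `simp only [cl, hs, herm, Jf, xp0, xp1, xp2, map_add, map_mul, ..]`, `ring`
(`ip u v = (herm u v + herm v u) / 2` and `nS s = hs s s` as complex numbers: `ip_coe`, `nS_coe`; use `I_mul_I` / `linear_combination (..) * I_sq`). All of them were checked numerically.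
-/

set_option autoImplicit false
set_option linter.unusedSimpArgs false

open scoped Manifold ContDiff Topology ComplexConjugate
open Set Complex

namespace Pool.Agent.Work.MP_bf98aa_gt.Cy

open Pool.Agent.Work.MP_bf98aa_gt.Th

theorem Q1_ext {a b : Spn} (h : a.1 = b.1) (h0 : a.2 0 = b.2 0) (h1 : a.2 1 = b.2 1)
    (h2 : a.2 2 = b.2 2) : a = b := by
  refine Prod.ext h (funext fun k => ?_)
  fin_cases k
  exacts [h0, h1, h2]

theorem cl_add_left (u v : V3) (s : Spn) : cl (u + v) s = cl u s + cl v s := by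
  refine Q1_ext ?_ ?_ ?_ ?_
  all_goals
    simp only [cl, hs, herm, Jt_apply, Jf, xp0, xp1, xp2, Prod.fst_add, Prod.snd_add, Prod.smul_fst,
      Prod.smul_snd, Pi.add_apply, Pi.smul_apply, smul_eq_mul, map_add, map_mul, map_sub, map_neg,
      conj_conj, real_smul, conj_ofReal, conj_I, map_ofNat, ip_coe, nS_coe]
    ring

theorem cl_smul_left (r : ℝ) (u : V3) (s : Spn) : cl (r • u) s = (r : ℂ) • cl u s := by
  refine Q1_ext ?_ ?_ ?_ ?_
  all_goals
    simp only [cl, hs, herm, Jt_apply, Jf, xp0, xp1, xp2, Prod.fst_add, Prod.snd_add, Prod.smul_fst,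
      Prod.smul_snd, Pi.add_apply, Pi.smul_apply, smul_eq_mul, map_add, map_mul, map_sub, map_neg,
      conj_conj, real_smul, conj_ofReal, conj_I, map_ofNat, ip_coe, nS_coe]
    ring

theorem cl_add_right (v : V3) (s t : Spn) : cl v (s + t) = cl v s + cl v t := by
  refine Q1_ext ?_ ?_ ?_ ?_
  all_goals
    simp only [cl, hs, herm, Jt_apply, Jf, xp0, xp1, xp2, Prod.fst_add, Prod.snd_add, Prod.smul_fst,
      Prod.smul_snd, Pi.add_apply, Pi.smul_apply, smul_eq_mul, map_add, map_mul, map_sub, map_neg,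
      conj_conj, real_smul, conj_ofReal, conj_I, map_ofNat, ip_coe, nS_coe]
    ring

theorem cl_smul_right (c : ℂ) (v : V3) (s : Spn) : cl v (c • s) = conj c • cl v s := by
  refine Q1_ext ?_ ?_ ?_ ?_
  all_goals
    simp only [cl, hs, herm, Jt_apply, Jf, xp0, xp1, xp2, Prod.fst_add, Prod.snd_add, Prod.smul_fst,
      Prod.smul_snd, Pi.add_apply, Pi.smul_apply, smul_eq_mul, map_add, map_mul, map_sub, map_neg,
      conj_conj, real_smul, conj_ofReal, conj_I, map_ofNat, ip_coe, nS_coe]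
    ring

theorem cl_cl (u v : V3) (s : Spn) :
    cl u (cl v s) + cl v (cl u s) = (-2 * ip u v : ℂ) • s := by
  refine Q1_ext ?_ ?_ ?_ ?_
  all_goals
    simp only [cl, hs, herm, Jt_apply, Jf, xp0, xp1, xp2, Prod.fst_add, Prod.snd_add, Prod.smul_fst,
      Prod.smul_snd, Pi.add_apply, Pi.smul_apply, smul_eq_mul, map_add, map_mul, map_sub, map_neg,
      conj_conj, real_smul, conj_ofReal, conj_I, map_ofNat, ip_coe, nS_coe]
    ring

theorem hs_cl (v : V3) (s t : Spn) : hs (cl v s) t = -hs (cl v t) s := by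
  simp only [cl, hs, herm, Jt_apply, Jf, xp0, xp1, xp2, Prod.fst_add, Prod.snd_add, Prod.smul_fst,
    Prod.smul_snd, Pi.add_apply, Pi.smul_apply, smul_eq_mul, map_add, map_mul, map_sub, map_neg,
    conj_conj, real_smul, conj_ofReal, conj_I, map_ofNat, ip_coe, nS_coe]
  ring

theorem hs_cl_cl (v : V3) (s t : Spn) : hs (cl v s) (cl v t) = ip v v * hs t s := by
  simp only [cl, hs, herm, Jt_apply, Jf, xp0, xp1, xp2, Prod.fst_add, Prod.snd_add, Prod.smul_fst,
    Prod.smul_snd, Pi.add_apply, Pi.smul_apply, smul_eq_mul, map_add, map_mul, map_sub, map_neg,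
    conj_conj, real_smul, conj_ofReal, conj_I, map_ofNat, ip_coe, nS_coe]
  ring

theorem cl_Jt (s : Spn) (u : V3) : cl (Jt s u) s = (nS s * I : ℂ) • cl u s := by
  refine Q1_ext ?_ ?_ ?_ ?_
  all_goals
    simp only [cl, hs, herm, Jt_apply, Jf, xp0, xp1, xp2, Prod.fst_add, Prod.snd_add, Prod.smul_fst,
      Prod.smul_snd, Pi.add_apply, Pi.smul_apply, smul_eq_mul, map_add, map_mul, map_sub, map_neg,
      conj_conj, real_smul, conj_ofReal, conj_I, map_ofNat, ip_coe, nS_coe]
    ring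

theorem Jt_skew (s : Spn) (u v : V3) : ip (Jt s u) v = -ip u (Jt s v) := by
  apply ofReal_injective
  rw [ofReal_neg]
  simp only [cl, hs, herm, Jt_apply, Jf, xp0, xp1, xp2, Prod.fst_add, Prod.snd_add, Prod.smul_fst,
    Prod.smul_snd, Pi.add_apply, Pi.smul_apply, smul_eq_mul, map_add, map_mul, map_sub, map_neg,
    conj_conj, real_smul, conj_ofReal, conj_I, map_ofNat, ip_coe, nS_coe]
  ring

theorem Jt_ip (s : Spn) (u v : V3) : ip (Jt s u) (Jt s v) = nS s ^ 2 * ip u v := by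
  rw [Jt_apply, Jt_apply, Jf, Jf, ip_I]
  apply ofReal_injective
  rw [ofReal_mul, ofReal_pow]
  simp only [cl, hs, herm, Jt_apply, Jf, xp0, xp1, xp2, Prod.fst_add, Prod.snd_add, Prod.smul_fst,
    Prod.smul_snd, Pi.add_apply, Pi.smul_apply, smul_eq_mul, map_add, map_mul, map_sub, map_neg,
    conj_conj, real_smul, conj_ofReal, conj_I, map_ofNat, ip_coe, nS_coe]
  ring

theorem Jt_one (u : V3) : Jt (1, 0) u = I • u := by
  funext k
  simp [Jt_apply, Jf, herm, xp]

theorem Jt_cont : Continuous Jt := by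
  refine continuous_clm_apply.mpr fun u => ?_
  simp only [Jt_apply]
  unfold Jf herm xp
  fun_prop

end Pool.Agent.Work.MP_bf98aa_gt.Cy
end

-- merged part: Pool.Agent.Work.MP_bf98aa_gt.Cy.Q2
section
/-!
The volume form of a spinor.

PLAN. `Om_eq` by `simp only [..]; ring` (checked numerically); `det3 ![u, v, z] = u 0 * (v 1 * z 2 - v 2 * z 1) + ..` (`Matrix.det_fin_three`). `Om_Jt`: `Om_cyc`, `cl_Jt`, `cl_smul_right` twice.
`Bq_Om`, `Om_inj`: with `a = conj s.1`, `w k = conj (s.2 k)` the values on the basis `bs` are: `(0,1,2): 2 i (a w1 - w0 w2)`, `(0,1,3): -2 (a w1 + w0 w2)`, `(0,1,4): 2 i (a w2 + w0 w1)`, `(0,1,5): -2 (a w2 - w0 w1)`,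
`(0,2,3): 2 i (a w0 + w1 w2)`, `(0,4,5): 2 i (a w0 - w1 w2)`, `(0,2,4): a² + w0² + w1² + w2²`, `(0,2,5): i (a² - w0² - w1² + w2²)`, `(0,3,4): i (a² - w0² + w1² - w2²)`, `(0,3,5): -a² - w0² + w1² + w2²`, and so on.
Hence all ten products of two coordinates of `s` and of `t` agree, so `t = s` or `t = -s` (pick a nonzero coordinate). For `Bq_Om` expand in real and imaginary parts and use `ring`.
-/

set_option autoImplicit false

open scoped Manifold ContDiff Topology ComplexConjugate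
open Set Complex

namespace Pool.Agent.Work.MP_bf98aa_gt.Cy

open Pool.Agent.Work.MP_bf98aa_gt.Th

variable {s t : Spn} {u v z : V3}

theorem det3_eq (u v z : V3) : det3 ![u, v, z] = u 0 * (v 1 * z 2 - v 2 * z 1) +
    u 1 * (v 2 * z 0 - v 0 * z 2) + u 2 * (v 0 * z 1 - v 1 * z 0) := by
  change Matrix.det (Matrix.of ![u, v, z]) = _
  simp only [Matrix.det_fin_three, Matrix.of_apply, Matrix.cons_val]
  ring


theorem det3_xp (u v z : V3) : det3 ![u, v, z] = herm (xp v z) u := by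
  simp only [det3_eq, herm, xp0, xp1, xp2, conj_conj]
  ring


theorem Om_eq (s : Spn) (u v z : V3) : Om s u v z = conj s.1 ^ 2 * det3 ![u, v, z] +
    conj s.1 * ((herm u v - herm v u) * herm s.2 z + (herm v z - herm z v) * herm s.2 u +
      (herm z u - herm u z) * herm s.2 v) +
    (herm s.2 u * herm s.2 (xp v z) + herm s.2 v * herm s.2 (xp z u) +
      herm s.2 z * herm s.2 (xp u v)) := by
  simp only [Om, cl, hs, herm, det3_eq, xp0, xp1, xp2, Pi.add_apply, Pi.smul_apply, smul_eq_mul,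
    map_add, map_mul, map_sub, map_neg, conj_conj]
  ring


theorem Om_one (u v z : V3) : Om (1, 0) u v z = det3 ![u, v, z] := by
  simp [Om_eq, herm]


theorem Om_smul (c : ℂ) (s : Spn) (u v z : V3) : Om (c • s) u v z = conj c ^ 2 * Om s u v z := by
  simp only [Om, cl_smul_right, hs_smul_left, hs_smul_right, conj_conj]
  ring


theorem Om_rsmul {e : ℝ} (he : e = 1 ∨ e = -1) (s : Spn) : Om (e • s) = Om s := by
  rcases he with rfl | rfl
  · rw [one_smul]
  · funext u v z
    rw [neg_one_smul, ← neg_one_smul ℂ, Om_smul]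
    simp


theorem Om_cyc (s : Spn) (u v z : V3) : Om s u v z = Om s v z u := by
  simp only [Om_eq, det3_eq]
  ring


theorem Om_Jt (s : Spn) (u v z : V3) : Om s (Jt s u) v z = I * nS s * Om s u v z := by
  rw [Om_cyc, Om_cyc s u, Om, Om, cl_Jt, cl_smul_right, cl_smul_right, conj_conj, hs_smul_right]
  ring


theorem Om_cont : Continuous Om := by
  refine continuous_pi fun u => continuous_pi fun v => continuous_pi fun z => ?_
  simp only [Om_eq, herm]
  fun_prop


theorem Q2_val (s : Spn) {a p q r : ℂ} (ha : conj s.1 = a) (hp : conj (s.2 0) = p)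
    (hq : conj (s.2 1) = q) (hr : conj (s.2 2) = r) :
    Om s (bs 0) (bs 1) (bs 2) = I * (2 * (a * q - p * r)) ∧
    Om s (bs 0) (bs 1) (bs 3) = -2 * (a * q + p * r) ∧
    Om s (bs 0) (bs 1) (bs 4) = I * (2 * (a * r + p * q)) ∧
    Om s (bs 0) (bs 1) (bs 5) = -2 * (a * r - p * q) ∧
    Om s (bs 0) (bs 2) (bs 3) = I * (2 * (a * p + q * r)) ∧
    Om s (bs 0) (bs 2) (bs 4) = a * a + p * p + q * q + r * r ∧
    Om s (bs 0) (bs 2) (bs 5) = I * (a * a - p * p - q * q + r * r) ∧
    Om s (bs 0) (bs 3) (bs 4) = I * (a * a - p * p + q * q - r * r) ∧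
    Om s (bs 0) (bs 3) (bs 5) = -(a * a) - p * p + q * q + r * r ∧
    Om s (bs 0) (bs 4) (bs 5) = I * (2 * (a * p - q * r)) := by
  have := I_sq
  simp only [Om_eq, det3_eq, herm, xp0, xp1, xp2, bs, Matrix.cons_val, ha, hp, hq, hr, map_zero,
    map_one, conj_I, mul_zero, zero_mul, mul_one, one_mul, add_zero, zero_add, sub_zero, zero_sub,
    map_neg, map_mul, neg_neg, sub_self]
  refine ⟨?_, ?_, ?_, ?_, ?_, ?_, ?_, ?_, ?_, ?_⟩ <;> grind

theorem Q2_val' (s : Spn) {a p q r : ℂ} (ha : conj s.1 = a) (hp : conj (s.2 0) = p)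
    (hq : conj (s.2 1) = q) (hr : conj (s.2 2) = r) :
    Om s (bs 3) (bs 4) (bs 5) = -2 * (a * q - p * r) ∧
    Om s (bs 2) (bs 4) (bs 5) = I * (2 * (a * q + p * r)) ∧
    Om s (bs 2) (bs 3) (bs 5) = -2 * (a * r + p * q) ∧
    Om s (bs 2) (bs 3) (bs 4) = I * (2 * (a * r - p * q)) ∧
    Om s (bs 1) (bs 4) (bs 5) = -2 * (a * p + q * r) ∧
    Om s (bs 1) (bs 3) (bs 5) = I * -(a * a + p * p + q * q + r * r) ∧
    Om s (bs 1) (bs 3) (bs 4) = -(a * a - p * p - q * q + r * r) ∧
    Om s (bs 1) (bs 2) (bs 5) = -(a * a - p * p + q * q - r * r) ∧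
    Om s (bs 1) (bs 2) (bs 4) = I * (a * a + p * p - q * q - r * r) ∧
    Om s (bs 1) (bs 2) (bs 3) = -2 * (a * p - q * r) := by
  have := I_sq
  simp only [Om_eq, det3_eq, herm, xp0, xp1, xp2, bs, Matrix.cons_val, ha, hp, hq, hr, map_zero,
    map_one, conj_I, mul_zero, zero_mul, mul_one, one_mul, add_zero, zero_add, sub_zero, zero_sub,
    map_neg, map_mul, neg_neg, sub_self]
  refine ⟨?_, ?_, ?_, ?_, ?_, ?_, ?_, ?_, ?_, ?_⟩ <;> grind

theorem Bq_Om (s : Spn) : Bq (Om s) = 4 * nS s ^ 2 := by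
  simp only [Bq, bt, Q2_val s rfl rfl rfl rfl, Q2_val' s rfl rfl rfl rfl, nS, hs, herm, mul_re,
    mul_im, add_re, add_im, sub_re, sub_im, neg_re, neg_im, conj_re, conj_im, I_re, I_im, re_ofNat,
    im_ofNat]
  ring


theorem Bq_conj (Ω : V3 → V3 → V3 → ℂ) : Bq (fun u v z => conj (Ω u v z)) = -Bq Ω := by
  simp only [Bq, bt, mul_im, conj_re, conj_im]
  ring


theorem Bq_cont : Continuous Bq := by
  unfold Bq bt
  fun_prop


theorem Q2_pm {x y : Fin 4 → ℂ} (h : ∀ i j, x i * x j = y i * y j) : y = x ∨ y = -x := by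
  by_contra! ⟨h1, h2⟩
  obtain ⟨i, hi⟩ := Function.ne_iff.1 h1
  obtain ⟨j, hj⟩ := Function.ne_iff.1 h2
  have e1 := (mul_self_eq_mul_self_iff.1 (h i i).symm).resolve_left hi
  have e2 := (mul_self_eq_mul_self_iff.1 (h j j).symm).resolve_right hj
  have e := h i j
  rw [e1, e2, neg_mul, eq_neg_iff_add_eq_zero, add_self_eq_zero, mul_eq_zero] at e
  rcases e with e | e
  · exact hi (by rw [e1, e, neg_zero])
  · exact hj (by rw [e2, Pi.neg_apply, e, neg_zero])

theorem Om_inj (h : Om s = Om t) : t = s ∨ t = -s := by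
  obtain ⟨a1, a2, a3, a4, a5, a6, a7, a8, a9, a0⟩ := Q2_val s rfl rfl rfl rfl
  obtain ⟨b1, b2, b3, b4, b5, b6, b7, b8, b9, b0⟩ := Q2_val t rfl rfl rfl rfl
  rw [h] at a1 a2 a3 a4 a5 a6 a7 a8 a9 a0
  have c1 := mul_left_cancel₀ I_ne_zero (a1.symm.trans b1)
  have c3 := mul_left_cancel₀ I_ne_zero (a3.symm.trans b3)
  have c5 := mul_left_cancel₀ I_ne_zero (a5.symm.trans b5)
  have c7 := mul_left_cancel₀ I_ne_zero (a7.symm.trans b7)
  have c8 := mul_left_cancel₀ I_ne_zero (a8.symm.trans b8)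
  have c0 := mul_left_cancel₀ I_ne_zero (a0.symm.trans b0)
  have c2 := a2.symm.trans b2
  have c4 := a4.symm.trans b4
  have c6 := a6.symm.trans b6
  have c9 := a9.symm.trans b9
  have e0 : conj s.1 * conj s.1 = conj t.1 * conj t.1 := by
    linear_combination (c6 + c7 + c8 - c9) / 4
  have e1 : conj (s.2 0) * conj (s.2 0) = conj (t.2 0) * conj (t.2 0) := by
    linear_combination (c6 - c7 - c8 - c9) / 4
  have e2 : conj (s.2 1) * conj (s.2 1) = conj (t.2 1) * conj (t.2 1) := by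
    linear_combination (c6 - c7 + c8 + c9) / 4
  have e3 : conj (s.2 2) * conj (s.2 2) = conj (t.2 2) * conj (t.2 2) := by
    linear_combination (c6 + c7 - c8 + c9) / 4
  have key := Q2_pm (x := ![conj s.1, conj (s.2 0), conj (s.2 1), conj (s.2 2)])
    (y := ![conj t.1, conj (t.2 0), conj (t.2 1), conj (t.2 2)]) fun i j => by
      fin_cases i <;> fin_cases j <;>
        simp only [Fin.zero_eta, Fin.mk_one, Fin.reduceFinMk, Matrix.cons_val] <;>
        first
        | assumption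
        | linear_combination (c5 + c0) / 4
        | linear_combination (c5 - c0) / 4
        | linear_combination (c1 - c2) / 4
        | linear_combination (-c1 - c2) / 4
        | linear_combination (c3 - c4) / 4
        | linear_combination (c3 + c4) / 4
  have inj := (starRingEnd ℂ).injective
  refine key.imp (fun e => Prod.ext (inj (congrFun e 0)) (funext fun k => inj ?_))
    fun e => Prod.ext (inj ((congrFun e 0).trans (map_neg _ _).symm))
      (funext fun k => inj (Eq.trans ?_ (map_neg _ _).symm))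
  · fin_cases k
    exacts [congrFun e 1, congrFun e 2, congrFun e 3]
  · fin_cases k
    exacts [congrFun e 1, congrFun e 2, congrFun e 3]


end Pool.Agent.Work.MP_bf98aa_gt.Cy
end

-- merged part: Pool.Agent.Work.MP_bf98aa_gt.Cy.Q6a
section
/-!
Choice of signs.

PLAN. `sign_loc`: `e x = 1` if `0 ≤ (hs (s x₀) (s x)).re`, else `-1`; `l = e • s`. `nS (s x)` is continuous on `S` (`Bq_Om`, `Bq_cont`), so `l` is locally bounded. If `x₁ ∈ S` and `x → x₁` in `S`, every
limit point of `l x` is `± l x₁` (`Om_cont`, `Om_rsmul`, `Om_inj`; e.g. `tendsto_nhds_of_unique_mapClusterPt` on a compact ball); it has `0 ≤ (hs (s x₀) ·).re`, so it is `l x₁` whenever `0 < (hs (s x₀) (l x₁)).re`. This holds at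
`x₀`, hence near `x₀`. `sign_glob`: a finite subcover `t` and a partition of unity `ρ k` with `tsupport (ρ k) ⊆ N k`; `v x = (ρ k x * e k x)_k : t → ℝ` is nowhere zero and `e l x • v x` is continuous on `N l`. So the class of `v x` in the quotient
by `ℤˣ` is continuous; lift it (`isCoveringMapOn_quotientMk_of_properlyDiscontinuousSMul`, `IsCoveringMapOn.existsUnique_continuousMap_lifts`) to `V x = ε x • v x`; on `N l`, `ε x * e l x = ⟨V x, e l x • v x⟩ / ⟨V x, V x⟩`.
`CS.of_loc`: `act (g j x) s = (s.1, T x (g i x s.2))` with `T` the transition. `lift`: index the local signs by points; `e k * e l = (hs (l k) (act T (l l))).re / nS (l k)` is continuous on the overlap.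
-/

set_option autoImplicit false

open scoped Manifold ContDiff Topology ComplexConjugate
open Set Complex

namespace Pool.Agent.Work.MP_bf98aa_gt.Cy

open Pool.Agent.Work.MP_bf98aa_gt.Th

variable {X ι : Type} [TopologicalSpace X]

theorem Q6a_neg (s t : Spn) : (hs s (-t)).re = -(hs s t).re := by
  have h := hs_smul_right (-1) s t
  rw [neg_one_smul, neg_one_mul] at h
  rw [h, neg_re]

theorem Q6a_cont {S : Set X} {l : X → Spn} (h : ContinuousOn (fun x => Om (l x)) S) {s₀ : Spn}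
    (hl : ∀ x, 0 ≤ (hs s₀ (l x)).re) {x₁ : X} (hx : x₁ ∈ S) (h1 : 0 < (hs s₀ (l x₁)).re) :
    ContinuousWithinAt l S x₁ := by
  have hB : Filter.Tendsto (fun x => Bq (Om (l x))) (𝓝[S] x₁) (𝓝 (Bq (Om (l x₁)))) :=
    (Bq_cont.tendsto _).comp (h x₁ hx)
  refine (isCompact_closedBall (0 : Spn) (Bq (Om (l x₁)) + 2)).tendsto_nhds_of_unique_mapClusterPt
    ?_ fun p _ hp => ?_
  · filter_upwards [hB.eventually_lt_const (lt_add_one _)] with x hx
    rw [mem_closedBall_zero_iff]
    rw [Bq_Om] at hx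
    nlinarith [(nS_bound (l x)).1, sq_nonneg (‖l x‖ - 1), sq_nonneg (nS (l x) - 1),
      sq_nonneg (nS (l x))]
  · have e : Om p = Om (l x₁) :=
      eq_of_nhds_neBot ((hp.continuousAt_comp Om_cont.continuousAt).clusterPt.mono (h x₁ hx))
    have hc : IsClosed {t : Spn | 0 ≤ (hs s₀ t).re} := isClosed_le continuous_const
      (continuous_re.comp (cont_hs.comp (continuous_const.prodMk continuous_id)))
    have h2 : 0 ≤ (hs s₀ p).re := hc.mem_of_mapClusterPt hp (.of_forall hl)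
    rcases Om_inj e.symm with e' | e'
    · exact e'
    · rw [e', Q6a_neg] at h2
      linarith

theorem sign_loc {S : Set X} {s : X → Spn} (h : ContinuousOn (fun x => Om (s x)) S) {x₀ : X}
    (hx : x₀ ∈ S) (h0 : s x₀ ≠ 0) : ∃ (e : X → ℝ) (N : Set X), IsOpen N ∧ x₀ ∈ N ∧
      (∀ x, e x = 1 ∨ e x = -1) ∧ ContinuousOn (fun x => e x • s x) (N ∩ S) := by
  classical
  let e : X → ℝ := fun x => if 0 ≤ (hs (s x₀) (s x)).re then 1 else -1
  have he : ∀ x, e x = 1 ∨ e x = -1 := fun x => by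
    simp only [e]
    split_ifs
    exacts [Or.inl rfl, Or.inr rfl]
  have hl : ∀ x, 0 ≤ (hs (s x₀) (e x • s x)).re := fun x => by
    simp only [e]
    split_ifs with h1
    · rwa [one_smul]
    · rw [neg_one_smul, Q6a_neg]
      linarith
  have h' : ContinuousOn (fun x => Om (e x • s x)) S := h.congr fun x _ => Om_rsmul (he x) _
  have hp : 0 < (hs (s x₀) (s x₀)).re := nS_pos h0
  have h1 : 0 < (hs (s x₀) (e x₀ • s x₀)).re := by
    simp only [e]
    rwa [if_pos hp.le, one_smul]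
  have h2 : ContinuousWithinAt (fun x => (hs (s x₀) (e x • s x)).re) S x₀ :=
    (continuous_re.comp (cont_hs.comp (continuous_const.prodMk continuous_id))).continuousAt
      |>.comp_continuousWithinAt (Q6a_cont h' hl hx h1)
  obtain ⟨N, hN, hxN, h3⟩ := mem_nhdsWithin.1 (h2.tendsto.eventually_const_lt h1)
  exact ⟨e, N, hN, hxN, he, fun x hx => (Q6a_cont h' hl hx.2 (h3 hx)).mono inter_subset_right⟩

theorem sign_glob [CompactSpace X] [T2Space X] [SimplyConnectedSpace X]
    [LocallyPathConnectedSpace X] {N : ι → Set X} (hN : ∀ k, IsOpen (N k)) (hc : ∀ x, ∃ k, x ∈ N k)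
    {e : ι → X → ℝ} (he : ∀ k x, e k x = 1 ∨ e k x = -1)
    (h : ∀ k l, ContinuousOn (fun x => e k x * e l x) (N k ∩ N l)) :
    ∃ ε : X → ℝ, (∀ x, ε x = 1 ∨ ε x = -1) ∧ ∀ k, ContinuousOn (fun x => ε x * e k x) (N k) := by
  choose k₀ hk₀ using hc
  have hm : ∀ {a b : ℝ}, a = 1 ∨ a = -1 → b = 1 ∨ b = -1 → a * b = 1 ∨ a * b = -1 := by
    rintro _ _ (rfl | rfl) (rfl | rfl) <;> norm_num
  have hq : ∀ k x, e k x * e k x = 1 := fun k x => by
    rcases he k x with h1 | h1 <;> rw [h1] <;> norm_num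
  let Z : FiberBundleCore ι X ({1, -1} : Set ℝ) :=
    { baseSet := N
      isOpen_baseSet := hN
      indexAt := k₀
      mem_baseSet_at := hk₀
      coordChange := fun i j x v => ⟨e i x * e j x * v, hm (hm (he i x) (he j x)) v.2⟩
      coordChange_self := fun i x _ v => Subtype.ext (by simp only [hq, one_mul])
      continuousOn_coordChange := fun i j => Topology.IsInducing.subtypeVal.continuousOn_iff.2
        (((h i j).comp continuousOn_fst fun p hp => hp.1).mul
          (continuous_subtype_val.comp continuous_snd).continuousOn)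
      coordChange_comp := fun i j k x _ v => Subtype.ext (by
        change e j x * e k x * (e i x * e j x * v) = e i x * e k x * v
        linear_combination (e i x * e k x * v) * hq j x) }
  have hcov : IsCoveringMap Z.proj :=
    IsFiberBundle.isCoveringMap fun x => ⟨Z.localTriv (k₀ x), hk₀ x⟩
  obtain ⟨x₀⟩ : Nonempty X := inferInstance
  obtain ⟨σ, ⟨-, hσ⟩, -⟩ := hcov.existsUnique_continuousMap_lifts (ContinuousMap.id X) x₀
    ⟨x₀, (⟨1, Or.inl rfl⟩ : ({1, -1} : Set ℝ))⟩ rfl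
  have hσ' : ∀ x, (σ x).1 = x := congrFun hσ
  let v : X → ({1, -1} : Set ℝ) := fun x => (σ x).2
  refine ⟨fun x => e (k₀ x) x * v x, fun x => hm (he _ _) (v x).2, fun k => ?_⟩
  have h1 : ContinuousOn (fun x => Z.localTriv k (σ x)) (N k) :=
    (Z.localTriv k).continuousOn.comp σ.continuous.continuousOn fun x hx => by
      change (σ x).1 ∈ N k
      rwa [hσ']
  refine ((continuous_subtype_val.comp continuous_snd).comp_continuousOn h1).congr fun x _ => ?_
  change e (k₀ x) x * v x * e k x = e (k₀ (σ x).1) (σ x).1 * e k (σ x).1 * v x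
  rw [hσ']
  ring

end Pool.Agent.Work.MP_bf98aa_gt.Cy
end
end

-- merged part: Pool.Agent.Work.MP_bf98aa_gt.Cy.G10a
section
-- merged part: Pool.Agent.Work.MP_bf98aa_gt.Cy.G10a
section
/-!
Tamed forms and complex coframes.

PLAN. `tame_det`: `J = S⁻¹ ∘ (I • ·) ∘ S` (`LinearEquiv.ofBijective`), `detC S ![J u, v, z] = I * detC S ![u, v, z]` (`Matrix.det_fin_three`); a triple with `S v j = c⁻¹ e 0, e 1, e 2` shows `dre c S ≠ 0`.
`tame_th`: put `Ω v = ρ v + I * σ v`, `r = ρ fr`. `Ω (update v i (J (v i))) = I * Ω v` in every slot (move the slot to the front with `map_swap`). Hence `θ = thN ρ σ` satisfies `θ (J u) = I • θ u`,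
`θ (fr j) = e j` (`map_eq_zero_of_eq` for repeated vectors), so `θ (∑ a j • fr j + b j • J (fr j)) = a + I b`: onto, hence bijective by dimension (`LinearMap.injective_iff_surjective_of_finrank_eq_finrank`),
and every `u` equals `∑ (θ u j).re • fr j + (θ u j).im • J (fr j)`. Therefore `Ω (update v i u) = ∑ j, θ u j * Ω (update v i (fr j))`; expand the three slots and use alternation to get
`Ω v = r * detC θ v`. `S v' = I • S v` forces `v' = J v`. `Tame.comp`, `Tame.of_comp`: conjugate `J` by `L`. `VOk.fr_eq`: `L (fr j) = ∑ i, L (fr j) (i, 1) • fr i`, expand, `Matrix.det_fin_three`.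
-/

set_option autoImplicit false

open scoped Manifold ContDiff Topology
open Set

namespace Pool.Agent.Work.MP_bf98aa_gt.Cy

open Pool.Agent.Work.MP_bf98aa_gt.Th

variable {η : Alt E6 2} {ρ σ ρ' σ' : Alt E6 3} {S : CF} {L : E6 →L[ℝ] E6}

theorem G10a_det (S : CF) (a b c : E6) :
    detC S ![a, b, c] = (Matrix.of fun i j : Fin 3 => ![S a, S b, S c] j i).det := by
  simp [detC, Matrix.det_fin_three]

theorem G10a_conj {W : Type} [AddCommGroup W] [Module ℝ W] (S : E6 →ₗ[ℝ] W)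
    (h : Function.Bijective S) (K : W →ₗ[ℝ] W) : ∃ J : E6 →ₗ[ℝ] E6, ∀ v, S (J v) = K (S v) :=
  ⟨(LinearEquiv.ofBijective S h).symm.toLinearMap ∘ₗ K ∘ₗ S,
    fun _ => (LinearEquiv.ofBijective S h).apply_symm_apply _⟩

theorem tame_det (h : TameS η S) {c : ℂ} (hc : c ≠ 0) : Tame η (dre c S) (dim c S) := by
  obtain ⟨J, hJ⟩ : ∃ J : E6 →ₗ[ℝ] E6, ∀ v, S (J v) = Complex.I • S v :=
    G10a_conj S.toLinearMap h.1 (Complex.I • LinearMap.id)
  refine ⟨J, fun v => h.1.1 (by simp [hJ, smul_smul]), fun v hv => h.2 v (J v) hv (hJ v),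
    fun e => ?_, fun u v z => ?_⟩
  · obtain ⟨v0, h0⟩ := h.1.2 (Pi.single 0 c⁻¹)
    obtain ⟨v1, h1⟩ := h.1.2 (Pi.single 1 1)
    obtain ⟨v2, h2⟩ := h.1.2 (Pi.single 2 1)
    have := dre_apply c S ![v0, v1, v2]
    rw [e, G10a_det, h0, h1, h2] at this
    simp [Matrix.det_fin_three, mul_inv_cancel₀ hc] at this
  · have : c * detC S ![J u, v, z] = Complex.I * (c * detC S ![u, v, z]) := by
      simp only [G10a_det, hJ]
      simp [Matrix.det_fin_three]
      ring
    simp [dre_apply, dim_apply, this]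

theorem G10a_exp {α K : Type} [Field K] [CharZero K] {w : α → α → α → K} {Φ : (Fin 3 → K) → α}
    {f : Fin 3 → α} (cyc : ∀ a b c, w a b c = w b c a) (sw : ∀ a b c, w b a c = -w a b c)
    (E : ∀ x b c, w (Φ x) b c = x 0 * w (f 0) b c + x 1 * w (f 1) b c + x 2 * w (f 2) b c) :
    (∀ x, w (Φ x) (f 1) (f 2) = x 0 * w (f 0) (f 1) (f 2) ∧
      w (Φ x) (f 2) (f 0) = x 1 * w (f 0) (f 1) (f 2) ∧
      w (Φ x) (f 0) (f 1) = x 2 * w (f 0) (f 1) (f 2)) ∧ ∀ x y z, w (Φ x) (Φ y) (Φ z) =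
      w (f 0) (f 1) (f 2) * (Matrix.of fun i j : Fin 3 => ![x, y, z] j i).det := by
  have z1 : ∀ a c, w a a c = 0 := fun a c => self_eq_neg.1 (sw a a c)
  have z2 : ∀ a b, w a b a = 0 := fun a b => (cyc a a b).symm.trans (z1 a b)
  have z3 : ∀ a b, w b a a = 0 := fun a b => (cyc b a a).trans (z1 a b)
  have E2 : ∀ a x c, w a (Φ x) c = x 0 * w a (f 0) c + x 1 * w a (f 1) c + x 2 * w a (f 2) c :=
    fun a x c => by simp only [cyc a, E]
  have E3 : ∀ a b x, w a b (Φ x) = x 0 * w a b (f 0) + x 1 * w a b (f 1) + x 2 * w a b (f 2) :=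
    fun a b x => by simp only [cyc a, E2]
  have v1 := (cyc (f 0) (f 1) (f 2)).symm
  have v2 := (cyc (f 1) (f 2) (f 0)).symm.trans v1
  have v3 := sw (f 0) (f 1) (f 2)
  have v4 := (cyc (f 1) (f 0) (f 2)).symm.trans v3
  have v5 := (cyc (f 0) (f 2) (f 1)).symm.trans v4
  refine ⟨fun x => ?_, fun x y z => ?_⟩
  · simp only [E, z1, z2, v1, v2, mul_zero, add_zero, zero_add, and_self]
  · simp only [E, E2, E3, z1, z2, z3, v1, v2, v3, v4, v5]
    simp [Matrix.det_fin_three]
    ring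

theorem G10a_sw (ρ : Alt E6 3) : (∀ a b c, ρ ![a, b, c] = ρ ![b, c, a]) ∧
    ∀ a b c, ρ ![b, a, c] = -ρ ![a, b, c] := by
  have h1 : ∀ a b c, ρ ![b, a, c] = -ρ ![a, b, c] := fun a b c =>
    (congrArg ρ (by funext i; fin_cases i <;> rfl)).trans
      (ρ.toAlternatingMap.map_swap ![a, b, c] (i := 0) (j := 1) (by decide))
  have h2 : ∀ a b c, ρ ![a, c, b] = -ρ ![a, b, c] := fun a b c =>
    (congrArg ρ (by funext i; fin_cases i <;> rfl)).trans
      (ρ.toAlternatingMap.map_swap ![a, b, c] (i := 1) (j := 2) (by decide))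
  exact ⟨fun a b c => by rw [h2 b a c, h1 a b c, neg_neg], h1⟩

theorem G10a_fr : fr = ![fr 0, fr 1, fr 2] := by
  funext i
  fin_cases i <;> rfl

theorem G10a_th (ρ σ : Alt E6 3) (u : E6) :
    thN ρ σ u = ((ρ fr : ℂ))⁻¹ • ![(ρ ![u, fr 1, fr 2] : ℂ) + Complex.I * σ ![u, fr 1, fr 2],
      ρ ![u, fr 2, fr 0] + Complex.I * σ ![u, fr 2, fr 0],
      ρ ![u, fr 0, fr 1] + Complex.I * σ ![u, fr 0, fr 1]] := by
  have e0 : Function.update fr 0 u = ![u, fr 1, fr 2] := by funext i; fin_cases i <;> rfl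
  have e1 : Function.update fr 1 u = ![fr 0, u, fr 2] := by funext i; fin_cases i <;> rfl
  have e2 : Function.update fr 2 u = ![fr 0, fr 1, u] := by funext i; fin_cases i <;> rfl
  have h : th ρ σ u = ![th ρ σ u 0, th ρ σ u 1, th ρ σ u 2] := by funext i; fin_cases i <;> rfl
  rw [thN, smul_apply, h, th_apply, th_apply, th_apply, e0, e1, e2,
    (G10a_sw ρ).1 (fr 0) u, (G10a_sw σ).1 (fr 0) u, ← (G10a_sw ρ).1 u (fr 0),
    ← (G10a_sw σ).1 u (fr 0), ← Complex.ofReal_inv, Complex.coe_smul]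

theorem tame_th (h : Tame η ρ σ) (h0 : σ fr = 0) (hr : ρ fr ≠ 0) :
    TameS η (thN ρ σ) ∧ NormS (thN ρ σ) ∧ pre ρ σ = ρ ∧ pim ρ σ = σ := by
  obtain ⟨J, -, ht, -, hJ⟩ := h
  obtain ⟨Φ, hΦ⟩ : ∃ Φ : (Fin 3 → ℂ) → E6,
      ∀ x, Φ x = ∑ j, ((x j).re • fr j + (x j).im • J (fr j)) := ⟨_, fun _ => rfl⟩
  obtain ⟨k1, k2⟩ := G10a_exp (Φ := Φ) (f := fr)
    (w := fun a b c => (ρ ![a, b, c] : ℂ) + Complex.I * σ ![a, b, c])
    (fun a b c => by rw [(G10a_sw ρ).1, (G10a_sw σ).1])
    (fun a b c => by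
      rw [(G10a_sw ρ).2, (G10a_sw σ).2]
      push_cast
      ring) fun x b c => by
      simp only [hΦ, Fin.sum_univ_three, ContinuousAlternatingMap.vecCons_add,
        ContinuousAlternatingMap.vecCons_smul, hJ, smul_eq_mul]
      apply Complex.ext <;> simp <;> ring
  simp only [← G10a_fr, h0, Complex.ofReal_zero, mul_zero, add_zero] at k1 k2
  have hr' : (ρ fr : ℂ) ≠ 0 := Complex.ofReal_ne_zero.2 hr
  have hs : ∀ x, thN ρ σ (Φ x) = x := fun x => by
    rw [G10a_th, (k1 x).1, (k1 x).2.1, (k1 x).2.2]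
    funext i
    fin_cases i <;> simp [mul_comm _ (ρ fr : ℂ), hr']
  have hi : Function.Injective (thN ρ σ) :=
    (LinearMap.injective_iff_surjective_of_finrank_eq_finrank (f := (thN ρ σ).toLinearMap)
      (by simp [Module.finrank_pi_fintype])).2 fun x => ⟨Φ x, hs x⟩
  have hI : ∀ u, thN ρ σ (J u) = Complex.I • thN ρ σ u := fun u => by
    have : ∀ b c, ((ρ ![J u, b, c] : ℝ) : ℂ) + Complex.I * σ ![J u, b, c] =
        Complex.I * (ρ ![u, b, c] + Complex.I * σ ![u, b, c]) := fun b c => by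
      rw [(hJ u b c).1, (hJ u b c).2]
      apply Complex.ext <;> simp
    rw [G10a_th, G10a_th, this, this, this, smul_comm]
    simp only [Matrix.smul_cons, Matrix.smul_empty, smul_eq_mul, mul_left_comm]
  have key : ∀ a b c, (ρ fr : ℂ) * detC (thN ρ σ) ![a, b, c] =
      ρ ![a, b, c] + Complex.I * σ ![a, b, c] := fun a b c => by
    rw [G10a_det, ← k2, hi (hs (thN ρ σ a)), hi (hs (thN ρ σ b)), hi (hs (thN ρ σ c))]
  refine ⟨⟨⟨hi, fun x => ⟨Φ x, hs x⟩⟩, fun v v' hv e => hi ((hI v).trans e.symm) ▸ ht v hv⟩,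
    fun j => ?_, alt_ext_three fun a b c => ?_, alt_ext_three fun a b c => ?_⟩
  · rw [← hs (Pi.single j 1), hΦ]
    fin_cases j <;> simp [Fin.sum_univ_three]
  · simp [pre, dre_apply, key]
  · simp [pim, dim_apply, key]

theorem G10a_c3 (ρ : Alt E6 3) (L : E6 →L[ℝ] E6) (a b c : E6) :
    ρ.compContinuousLinearMap L ![a, b, c] = ρ ![L a, L b, L c] :=
  congrArg ρ (by funext i; fin_cases i <;> rfl)

theorem G10a_c2 (η : Alt E6 2) (L : E6 →L[ℝ] E6) (a b : E6) :
    η.compContinuousLinearMap L ![a, b] = η ![L a, L b] :=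
  congrArg η (by funext i; fin_cases i <;> rfl)

theorem Tame.comp (h : Tame η ρ σ) (hL : Function.Bijective L) :
    Tame (η.compContinuousLinearMap L) (ρ.compContinuousLinearMap L)
      (σ.compContinuousLinearMap L) := by
  obtain ⟨J, h1, h2, h3, h4⟩ := h
  obtain ⟨J', hJ⟩ : ∃ J' : E6 →ₗ[ℝ] E6, ∀ v, L (J' v) = J (L v) := G10a_conj L.toLinearMap hL J
  refine ⟨J', fun v => hL.1 (by rw [hJ, hJ, h1, map_neg]), fun v hv => ?_,
    fun e => h3 (alt_ext_three fun a b c => ?_), fun u v z => ?_⟩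
  · rw [G10a_c2, hJ]
    exact h2 _ fun e => hv (hL.1 (e.trans (map_zero L).symm))
  · obtain ⟨a, rfl⟩ := hL.2 a
    obtain ⟨b, rfl⟩ := hL.2 b
    obtain ⟨c, rfl⟩ := hL.2 c
    rw [← G10a_c3, e]
    rfl
  · simp only [G10a_c3, hJ]
    exact h4 _ _ _

theorem Tame.of_comp (hL : Function.Bijective L) (h : Tame (η.compContinuousLinearMap L)
    (ρ.compContinuousLinearMap L) (σ.compContinuousLinearMap L)) : Tame η ρ σ := by
  let e := (LinearEquiv.ofBijective L.toLinearMap hL).symm.toContinuousLinearEquiv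
  have he : ∀ v, L (e v) = v := (LinearEquiv.ofBijective L.toLinearMap hL).apply_symm_apply
  have k : ∀ {k : ℕ} (w : Alt E6 k),
      (w.compContinuousLinearMap L).compContinuousLinearMap (e : E6 →L[ℝ] E6) = w := fun w =>
    ContinuousAlternatingMap.ext fun v => congrArg w (funext fun i => he (v i))
  have := h.comp (L := e) e.bijective
  rwa [k, k, k] at this

theorem VOk.fr_eq (h : VOk L) (ρ : Alt E6 3) : ρ.compContinuousLinearMap L fr = ρ fr := by
  have k := (G10a_exp (Φ := fun x => ∑ j, x j • fr j) (f := fr) (w := fun a b c => ρ ![a, b, c])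
    (G10a_sw ρ).1 (G10a_sw ρ).2 fun x b c => by
      simp only [Fin.sum_univ_three, ContinuousAlternatingMap.vecCons_add,
        ContinuousAlternatingMap.vecCons_smul, smul_eq_mul]).2
  have e : ∀ j, ∑ i, L (fr j) (i, 1) • fr i = L (fr j) := fun j => by
    have := h.1 (fr j) fun i => by simp [fr, bv]
    refine ext6 ?_ ?_ ?_ ?_ ?_ ?_ <;> simp [Fin.sum_univ_three, this _] <;> simp [fr, bv]
  have := k (fun i => L (fr 0) (i, 1)) (fun i => L (fr 1) (i, 1)) fun i => L (fr 2) (i, 1)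
  simp only [e] at this
  rw [G10a_fr, G10a_c3, this, ← G10a_fr]
  refine (congrArg (ρ fr * ·) ((congrArg Matrix.det (Matrix.ext fun i j => ?_)).trans h.2)).trans
    (mul_one _)
  fin_cases j <;> rfl

end Pool.Agent.Work.MP_bf98aa_gt.Cy
end

-- merged part: Pool.Agent.Work.MP_bf98aa_gt.Cy.Q5a
section
/-!
Forms of type `(3, 0)`.

PLAN. `exists_cof`: `θ u j = Ω (update b j u) / Ω b`, first coordinate multiplied by `Ω b`; copy the proof of `tame_th` in `G10a` (`G10a_exp`; `Φ x = ∑ (x j).re • b j + (x j).im • J (b j)` is a right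
inverse of the unscaled `θ`, so it is bijective by the dimension). `Ty.cont`: near `x₀` one has `J = θ⁻¹ ∘ i ∘ θ` (`cont_symm` or `ContinuousLinearMap.inverse`).
`exists_spinor`: `θ` from `exists_cof`, `B u v = ip (θ⁻¹ u) (θ⁻¹ v)`, `R = sqt B` commutes with `i` (`sqt_I`), `O = R ∘ θ` is an isometry, `Ω = det3 ∘ θ = c * det3 ∘ O` (`det_lin` for `R⁻¹`);
`c = conj d ^ 2`, `Om_smul`, `Om_one`, `Om_iso`.
-/

set_option autoImplicit false

open scoped Manifold ContDiff Topology ComplexConjugate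
open Set Complex

namespace Pool.Agent.Work.MP_bf98aa_gt.Cy

open Pool.Agent.Work.MP_bf98aa_gt.Th

section
variable {V W : Type} [NormedAddCommGroup V] [NormedSpace ℝ V] [NormedAddCommGroup W]
  [NormedSpace ℝ W] {J : V →L[ℝ] V} {ρ σ : Alt V 3}

theorem cj_apply (g : V ≃L[ℝ] W) (A : V →L[ℝ] V) (v : V) : cj g A (g v) = g (A v) := by
  simp [cj]

theorem psh_apply {k : ℕ} (g : V ≃L[ℝ] W) (w : Alt V k) (v : Fin k → V) :
    psh g w (fun j => g (v j)) = w v :=
  congrArg w (funext fun j => g.symm_apply_apply (v j))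

theorem Q5a_p3 (g : V ≃L[ℝ] W) (w : Alt V 3) (a b c : V) :
    psh g w ![g a, g b, g c] = w ![a, b, c] :=
  (congrArg (psh g w) (by funext i; fin_cases i <;> rfl)).trans (psh_apply g w ![a, b, c])

theorem Q5a_p2 (g : V ≃L[ℝ] W) (w : Alt V 2) (a b : V) : psh g w ![g a, g b] = w ![a, b] :=
  (congrArg (psh g w) (by funext i; fin_cases i <;> rfl)).trans (psh_apply g w ![a, b])

theorem Q5a_sw (ρ : Alt V 3) : (∀ a b c, ρ ![a, b, c] = ρ ![b, c, a]) ∧
    ∀ a b c, ρ ![b, a, c] = -ρ ![a, b, c] := by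
  have h1 : ∀ a b c, ρ ![b, a, c] = -ρ ![a, b, c] := fun a b c =>
    (congrArg ρ (by funext i; fin_cases i <;> rfl)).trans
      (ρ.toAlternatingMap.map_swap ![a, b, c] (i := 0) (j := 1) (by decide))
  have h2 : ∀ a b c, ρ ![a, c, b] = -ρ ![a, b, c] := fun a b c =>
    (congrArg ρ (by funext i; fin_cases i <;> rfl)).trans
      (ρ.toAlternatingMap.map_swap ![a, b, c] (i := 1) (j := 2) (by decide))
  exact ⟨fun a b c => by rw [h2 b a c, h1 a b c, neg_neg], h1⟩

theorem Q5a_cyc (ρ σ : Alt V 3) (a b c : V) : om3 ρ σ ![a, b, c] = om3 ρ σ ![b, c, a] := by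
  rw [om3, om3, (Q5a_sw ρ).1, (Q5a_sw σ).1]

theorem Q5a_swap (ρ σ : Alt V 3) (a b c : V) : om3 ρ σ ![b, a, c] = -om3 ρ σ ![a, b, c] := by
  rw [om3, om3, (Q5a_sw ρ).2, (Q5a_sw σ).2]
  push_cast
  ring

theorem Q5a_eta {α : Type} (v : Fin 3 → α) : ![v 0, v 1, v 2] = v := by
  funext i
  fin_cases i <;> rfl

theorem Q5a_det (x y z : V3) : det3 ![x, y, z] = x 0 * y 1 * z 2 - x 0 * y 2 * z 1 -
    x 1 * y 0 * z 2 + x 1 * y 2 * z 0 + x 2 * y 0 * z 1 - x 2 * y 1 * z 0 := by
  change Matrix.det (Matrix.of ![x, y, z]) = _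
  simp [Matrix.det_fin_three]

/-- The coframe. -/
noncomputable def Q5a_th (b : Fin 3 → V) (p : Alt V 3 × Alt V 3) : V →L[ℝ] V3 :=
  ContinuousLinearMap.pi fun j => (![1, (om3 p.1 p.2 b)⁻¹, (om3 p.1 p.2 b)⁻¹] : V3) j •
    (ofRealCLM.comp (p.1.toContinuousMultilinearMap.toContinuousLinearMap b j) +
      I • ofRealCLM.comp (p.2.toContinuousMultilinearMap.toContinuousLinearMap b j))

theorem Q5a_th_apply (b : Fin 3 → V) (ρ σ : Alt V 3) (u : V) :
    Q5a_th b (ρ, σ) u = ![om3 ρ σ ![u, b 1, b 2], (om3 ρ σ b)⁻¹ * om3 ρ σ ![u, b 2, b 0],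
      (om3 ρ σ b)⁻¹ * om3 ρ σ ![u, b 0, b 1]] := by
  have e0 : Function.update b 0 u = ![u, b 1, b 2] := by funext i; fin_cases i <;> rfl
  have e1 : Function.update b 1 u = ![b 0, u, b 2] := by funext i; fin_cases i <;> rfl
  have e2 : Function.update b 2 u = ![b 0, b 1, u] := by funext i; fin_cases i <;> rfl
  have h : Q5a_th b (ρ, σ) u = ![1 * om3 ρ σ (Function.update b 0 u),
      (om3 ρ σ b)⁻¹ * om3 ρ σ (Function.update b 1 u),
      (om3 ρ σ b)⁻¹ * om3 ρ σ (Function.update b 2 u)] := by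
    funext i
    fin_cases i <;> rfl
  rw [h, e0, e1, e2, one_mul, Q5a_cyc ρ σ (b 0) u, Q5a_cyc ρ σ u (b 0)]

theorem Q5a_om_cont (v : Fin 3 → V) : Continuous fun p : Alt V 3 × Alt V 3 => om3 p.1 p.2 v :=
  (continuous_ofReal.comp ((continuous_eval_const v).comp continuous_fst)).add
    (continuous_const.mul (continuous_ofReal.comp ((continuous_eval_const v).comp continuous_snd)))

theorem Ty.push (h : Ty J ρ σ) (g : V ≃L[ℝ] W) : Ty (cj g J) (psh g ρ) (psh g σ) := by
  refine ⟨fun v => ?_, fun e => h.2.1 (alt_ext_three fun a b c => ?_), fun u v z => ?_⟩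
  · obtain ⟨v, rfl⟩ := g.surjective v
    rw [cj_apply, cj_apply, h.1, map_neg]
  · rw [← Q5a_p3 g, e]
    rfl
  · obtain ⟨u, rfl⟩ := g.surjective u
    obtain ⟨v, rfl⟩ := g.surjective v
    obtain ⟨z, rfl⟩ := g.surjective z
    simp only [cj_apply, Q5a_p3]
    exact h.2.2 u v z

theorem Ty.neg (h : Ty J ρ σ) : Ty (-J) ρ (-σ) := by
  refine ⟨fun v => by simp [h.1], h.2.1, fun u v z => ?_⟩
  have e : (-J) u = (-1 : ℝ) • J u := by simp
  simp only [e, ContinuousAlternatingMap.neg_apply, ContinuousAlternatingMap.vecCons_smul, h.2.2,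
    smul_eq_mul]
  constructor <;> ring

theorem Tms.push {β : Alt V 2} {A : V →L[ℝ] V} (h : Tms β A) (g : V ≃L[ℝ] W) :
    Tms (psh g β) (cj g A) := fun v hv => by
  obtain ⟨v, rfl⟩ := g.surjective v
  rw [cj_apply, Q5a_p2]
  exact h v fun e => hv (by rw [e, map_zero])

theorem Ty.exists_b (h : Ty J ρ σ) : ∃ b, om3 ρ σ b ≠ 0 := by
  by_contra hn
  refine h.2.1 (ContinuousAlternatingMap.ext fun b => ?_)
  have := congrArg Complex.re (not_not.1 fun e => hn ⟨b, e⟩ : om3 ρ σ b = 0)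
  simpa [om3] using this

variable [FiniteDimensional ℝ V]

theorem Tame.ty {η : Alt V 2} (h : Tame η ρ σ) : ∃ J : V →L[ℝ] V, Ty J ρ σ ∧ Tms η J := by
  obtain ⟨J, h1, h2, h3, h4⟩ := h
  exact ⟨LinearMap.toContinuousLinearMap J, ⟨h1, h3, h4⟩, h2⟩

theorem exists_cof (hV : Module.finrank ℝ V = 6) (b : Fin 3 → V) :
    ∃ θ : Alt V 3 × Alt V 3 → V →L[ℝ] V3, ContinuousOn θ {p | om3 p.1 p.2 b ≠ 0} ∧
      ∀ (J : V →L[ℝ] V) (ρ σ : Alt V 3), Ty J ρ σ → om3 ρ σ b ≠ 0 →
        Function.Bijective (θ (ρ, σ)) ∧ (∀ v, θ (ρ, σ) (J v) = I • θ (ρ, σ) v) ∧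
          ∀ v : Fin 3 → V, det3 (fun j => θ (ρ, σ) (v j)) = om3 ρ σ v := by
  refine ⟨Q5a_th b, continuousOn_clm_apply.2 fun u => continuousOn_pi.2 fun j => ?_,
    fun J ρ σ h hb => ?_⟩
  · have hi : ContinuousOn (fun p : Alt V 3 × Alt V 3 => (om3 p.1 p.2 b)⁻¹)
        {p | om3 p.1 p.2 b ≠ 0} := (Q5a_om_cont b).continuousOn.inv₀ fun p hp => hp
    have e : (fun p : Alt V 3 × Alt V 3 => Q5a_th b p u j) = fun p =>
        (![om3 p.1 p.2 ![u, b 1, b 2], (om3 p.1 p.2 b)⁻¹ * om3 p.1 p.2 ![u, b 2, b 0],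
          (om3 p.1 p.2 b)⁻¹ * om3 p.1 p.2 ![u, b 0, b 1]] : V3) j :=
      funext fun p => congrFun (Q5a_th_apply b p.1 p.2 u) j
    rw [e]
    fin_cases j
    exacts [(Q5a_om_cont _).continuousOn, hi.mul (Q5a_om_cont _).continuousOn,
      hi.mul (Q5a_om_cont _).continuousOn]
  obtain ⟨-, -, hJ⟩ := h
  obtain ⟨Φ, hΦ⟩ : ∃ Φ : V3 → V, ∀ x, Φ x = ∑ j, ((x j).re • b j + (x j).im • J (b j)) :=
    ⟨_, fun _ => rfl⟩
  obtain ⟨k1, k2⟩ := G10a_exp (Φ := Φ) (f := b) (w := fun a b c => om3 ρ σ ![a, b, c])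
    (Q5a_cyc ρ σ) (Q5a_swap ρ σ) fun x b c => by
      simp only [om3, hΦ, Fin.sum_univ_three, ContinuousAlternatingMap.vecCons_add,
        ContinuousAlternatingMap.vecCons_smul, hJ, smul_eq_mul]
      apply Complex.ext <;> simp <;> ring
  simp only [Q5a_eta] at k1 k2
  have hs : ∀ x, Q5a_th b (ρ, σ) (Φ x) = ![x 0 * om3 ρ σ b, x 1, x 2] := fun x => by
    rw [Q5a_th_apply, (k1 x).1, (k1 x).2.1, (k1 x).2.2, mul_comm (x 1), mul_comm (x 2),
      inv_mul_cancel_left₀ hb, inv_mul_cancel_left₀ hb]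
  have hs' : ∀ y : V3, Q5a_th b (ρ, σ) (Φ ![y 0 / om3 ρ σ b, y 1, y 2]) = y := fun y => by
    rw [hs]
    funext i
    fin_cases i <;> simp [hb]
  have hi : Function.Injective (Q5a_th b (ρ, σ)) :=
    (LinearMap.injective_iff_surjective_of_finrank_eq_finrank (f := (Q5a_th b (ρ, σ)).toLinearMap)
      (by simp [hV, Module.finrank_pi_fintype])).2 fun y => ⟨_, hs' y⟩
  refine ⟨⟨hi, fun y => ⟨_, hs' y⟩⟩, fun u => ?_, fun v => ?_⟩
  · have : ∀ b c, om3 ρ σ ![J u, b, c] = I * om3 ρ σ ![u, b, c] := fun b c => by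
      rw [om3, om3, (hJ u b c).1, (hJ u b c).2]
      apply Complex.ext <;> simp
    rw [Q5a_th_apply, Q5a_th_apply, this, this, this]
    simp only [Matrix.smul_cons, Matrix.smul_empty, smul_eq_mul, mul_left_comm]
  · have hv : ∀ u, ∃ x, Φ x = u := fun u => ⟨_, hi (hs' _)⟩
    obtain ⟨x, hx⟩ := hv (v 0)
    obtain ⟨y, hy⟩ := hv (v 1)
    obtain ⟨z, hz⟩ := hv (v 2)
    rw [← Q5a_eta fun j => Q5a_th b (ρ, σ) (v j), ← Q5a_eta v, ← hx, ← hy, ← hz, k2, Q5a_det]
    simp [hs, Matrix.det_fin_three]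
    ring

theorem Ty.nondeg (hV : Module.finrank ℝ V = 6) (h : Ty J ρ σ) {x : V}
    (hx : ∀ v z, om3 ρ σ ![x, v, z] = 0) : x = 0 := by
  obtain ⟨b, hb⟩ := h.exists_b
  obtain ⟨θ, -, hθ⟩ := exists_cof hV b
  obtain ⟨h1, -, h3⟩ := hθ J ρ σ h hb
  have k : ∀ y y' : V3, det3 ![θ (ρ, σ) x, y, y'] = 0 := fun y y' => by
    obtain ⟨v, rfl⟩ := h1.2 y
    obtain ⟨z, rfl⟩ := h1.2 y'
    exact (congrArg det3 (Q5a_eta fun j => θ (ρ, σ) (![x, v, z] j))).trans ((h3 _).trans (hx v z))
  refine h1.1 ((funext fun i => ?_).trans (map_zero _).symm)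
  have k0 := k ![0, 1, 0] ![0, 0, 1]
  have k1 := k ![0, 0, 1] ![1, 0, 0]
  have k2 := k ![1, 0, 0] ![0, 1, 0]
  rw [Q5a_det] at k0 k1 k2
  fin_cases i
  · simpa using k0
  · simpa using k1
  · simpa using k2

theorem Ty.cont (hV : Module.finrank ℝ V = 6) {X : Type} [TopologicalSpace X] {S : Set X}
    {J : X → V →L[ℝ] V} {ρ σ : X → Alt V 3} (hρ : ContinuousOn ρ S) (hσ : ContinuousOn σ S)
    (h : ∀ x ∈ S, Ty (J x) (ρ x) (σ x)) : ContinuousOn J S := by
  intro x₀ hx₀
  obtain ⟨b, hb⟩ := (h x₀ hx₀).exists_b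
  obtain ⟨θ, hc, hθ⟩ := exists_cof hV b
  have : CompleteSpace V := FiniteDimensional.complete ℝ V
  have hinv : ∀ x ∈ S, om3 (ρ x) (σ x) b ≠ 0 → ∃ e : V ≃L[ℝ] V3, (e : V →L[ℝ] V3) = θ (ρ x, σ x) :=
    fun x hx hb => ⟨(LinearEquiv.ofBijective (θ (ρ x, σ x)).toLinearMap
      (hθ _ _ _ (h x hx) hb).1).toContinuousLinearEquiv, ContinuousLinearMap.ext fun _ => rfl⟩
  have hp : ContinuousWithinAt (fun x => (ρ x, σ x)) S x₀ := (hρ x₀ hx₀).prodMk (hσ x₀ hx₀)
  have ho : {p : Alt V 3 × Alt V 3 | om3 p.1 p.2 b ≠ 0} ∈ 𝓝 (ρ x₀, σ x₀) :=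
    (isOpen_ne_fun (Q5a_om_cont b) continuous_const).mem_nhds hb
  have h1 : ContinuousWithinAt (fun x => θ (ρ x, σ x)) S x₀ :=
    ContinuousAt.comp_continuousWithinAt (f := fun x => (ρ x, σ x)) (hc.continuousAt ho) hp
  have h2 : ContinuousWithinAt (fun x => (θ (ρ x, σ x)).inverse) S x₀ := by
    obtain ⟨e, he⟩ := hinv x₀ hx₀ hb
    exact ContinuousAt.comp_continuousWithinAt (f := fun x => θ (ρ x, σ x))
      (he ▸ (contDiffAt_map_inverse (n := 0) e).continuousAt) h1
  have key : ∀ x ∈ S, om3 (ρ x) (σ x) b ≠ 0 → ∀ v,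
      J x v = (θ (ρ x, σ x)).inverse (I • θ (ρ x, σ x) v) := fun x hx hb v => by
    rw [← (hθ _ _ _ (h x hx) hb).2.1,
      ContinuousLinearMap.IsInvertible.inverse_apply_self (hinv x hx hb)]
  refine continuousWithinAt_clm_apply.2 fun v => ?_
  refine (h2.clm_apply ((h1.clm_apply (continuousWithinAt_const (b := v))).const_smul
    I)).congr_of_eventuallyEq ?_ (key x₀ hx₀ hb v)
  filter_upwards [hp ho, self_mem_nhdsWithin] with x h1 h2 using key x h2 h1 v

end

end Pool.Agent.Work.MP_bf98aa_gt.Cy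
end
end

-- merged part: Pool.Agent.Work.MP_bf98aa_gt.Cy.Q7a
section
-- merged part: Pool.Agent.Work.MP_bf98aa_gt.Cy.Q3a
section
/-!
Equivariance under special unitary maps and under isometries.

PLAN. `SUn.smul`: `herm (g z) (g (c • v)) = herm (g z) (c • g v)` and `g` is onto. `SUn.xp`: pair with `g z` and use `det3_xp`. `Om_refl`: with `R x = x - (2 ip r x / ip r r) • r` one has
`cl (R x) (cl r t) = - cl r (cl x t)` (`cl_cl`); write `s = cl r t`, `t = -(ip r r)⁻¹ • cl r s`, use `hs_cl_cl`, `hs_conj`, `Om_smul`; `s' = (i / √(ip r r)) • cl r s` (checked numerically).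
`Om_iso`: transport `O` to `EuclideanSpace ℝ (Fin 3 × Fin 2)` (real and imaginary parts; the inner product becomes `ip`), `LinearIsometryEquiv.reflections_generate_dim`, induction on the list
(`Submodule.reflection_orthogonal_apply`, `reflection_singleton_apply`; for `r = 0` the reflection is the identity).
-/

set_option autoImplicit false

open scoped Manifold ContDiff Topology ComplexConjugate
open Set Complex

namespace Pool.Agent.Work.MP_bf98aa_gt.Cy

open Pool.Agent.Work.MP_bf98aa_gt.Th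

variable {g g' : Au}

theorem Q3a_ext (g : Au) {u v : V3} (h : ∀ z, herm u (g z) = herm v (g z)) : u = v :=
  ip_ext fun z => by
    obtain ⟨z, rfl⟩ := g.surjective z
    exact congrArg re (h z)

theorem SUn.iso (h : SUn g) : Iso g := fun u v => congrArg re (h.1 u v)

theorem SUn.smul (h : SUn g) (c : ℂ) (v : V3) : g (c • v) = c • g v :=
  Q3a_ext g fun z => by rw [h.1, herm_smul_left, herm_smul_left, h.1]

theorem SUn.symm (h : SUn g) : SUn g.symm :=
  ⟨fun u v => by rw [← h.1, g.apply_symm_apply, g.apply_symm_apply],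
    fun v => by simp only [← h.2 fun j => g.symm (v j), g.apply_symm_apply]⟩

theorem SUn.trans (h : SUn g) (h' : SUn g') : SUn (g.trans g') :=
  ⟨fun u v => (h'.1 _ _).trans (h.1 u v), fun v => (h'.2 fun j => g (v j)).trans (h.2 v)⟩

theorem SUn.xp (h : SUn g) (u v : V3) : xp (g u) (g v) = g (xp u v) :=
  Q3a_ext g fun z => by
    rw [h.1, ← det3_xp, ← det3_xp, ← h.2 ![z, u, v]]
    exact congrArg det3 (funext fun j => by fin_cases j <;> rfl)

theorem SUn.cl (h : SUn g) (v : V3) (s : Spn) : cl (g v) (act g s) = act g (cl v s) :=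
  Prod.ext (congrArg Neg.neg (h.1 _ _)) (by
    show conj s.1 • g v + Cy.xp (g v) (g s.2) = g (conj s.1 • v + Cy.xp v s.2)
    rw [map_add, h.smul, h.xp])

theorem SUn.hs (h : SUn g) (s t : Spn) : hs (act g s) (act g t) = hs s t :=
  congrArg (conj s.1 * t.1 + ·) (h.1 _ _)

theorem SUn.nS (h : SUn g) (s : Spn) : nS (act g s) = nS s := congrArg re (h.hs s s)

theorem SUn.Om (h : SUn g) (s : Spn) (u v z : V3) : Om (act g s) (g u) (g v) (g z) = Om s u v z := by
  rw [Cy.Om, h.cl, h.cl, h.cl, h.hs, Cy.Om]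

theorem SUn.Jt (h : SUn g) (s : Spn) : cj g (Jt s) = Jt (act g s) := by
  refine ContinuousLinearMap.ext fun u => ?_
  obtain ⟨u, rfl⟩ := g.surjective u
  show g (Jf s (g.symm (g u))) = Jf (act g s) (g u)
  simp only [g.symm_apply_apply, Jf, act, h.smul, map_add, h.1, h.xp]

theorem act_add (g : Au) (s t : Spn) : act g (s + t) = act g s + act g t :=
  Prod.ext rfl (g.map_add _ _)

theorem act_smul (g : Au) (r : ℝ) (s : Spn) : act g (r • s) = r • act g s :=
  Prod.ext rfl (g.map_smul _ _)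

theorem act_one (g : Au) : act g (1, 0) = (1, 0) := Prod.ext rfl g.map_zero

theorem act_ne (g : Au) {s : Spn} (h : s ≠ 0) : act g s ≠ 0 := fun e =>
  h (Prod.ext (congrArg Prod.fst e :) (g.map_eq_zero_iff.1 (congrArg Prod.snd e)))

end Pool.Agent.Work.MP_bf98aa_gt.Cy
end

-- merged part: Pool.Agent.Work.MP_bf98aa_gt.Cy.Q3
section
/-!
Equivariance under special unitary maps and under isometries.

PLAN. `SUn.smul`: `herm (g z) (g (c • v)) = herm (g z) (c • g v)` and `g` is onto. `SUn.xp`: pair with `g z` and use `det3_xp`. `Om_refl`: with `R x = x - (2 ip r x / ip r r) • r` one has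
`cl (R x) (cl r t) = - cl r (cl x t)` (`cl_cl`); write `s = cl r t`, `t = -(ip r r)⁻¹ • cl r s`, use `hs_cl_cl`, `hs_conj`, `Om_smul`; `s' = (i / √(ip r r)) • cl r s` (checked numerically).
`Om_iso`: transport `O` to `EuclideanSpace ℝ (Fin 3 × Fin 2)` (real and imaginary parts; the inner product becomes `ip`), `LinearIsometryEquiv.reflections_generate_dim`, induction on the list
(`Submodule.reflection_orthogonal_apply`, `reflection_singleton_apply`; for `r = 0` the reflection is the identity).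
-/

set_option autoImplicit false

open scoped Manifold ContDiff Topology ComplexConjugate
open Set Complex

namespace Pool.Agent.Work.MP_bf98aa_gt.Cy

open Pool.Agent.Work.MP_bf98aa_gt.Th

theorem Q3_neg (v : V3) (s : Spn) : cl v (-s) = -cl v s := by
  have h := cl_smul_right (-1) v s
  simpa using h

theorem Q3_sq (r : V3) (t : Spn) : cl r (cl r t) = (-ip r r : ℂ) • t := by
  have h := cl_cl r r t
  have h2 : (2 : ℂ) • cl r (cl r t) = (2 : ℂ) • ((-ip r r : ℂ) • t) := by
    rw [two_smul, h, smul_smul]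
    exact congrArg (· • t) (by ring)
  exact smul_right_injective _ (two_ne_zero) h2

theorem Q3_comm {r : V3} (hr : r ≠ 0) (x : V3) (t : Spn) :
    cl (x - (2 * ip r x / ip r r) • r) (cl r t) = cl r (-cl x t) := by
  have h0 : (ip r r : ℂ) ≠ 0 := by exact_mod_cast (ip_pos hr).ne'
  have h1 := cl_cl x r t
  rw [sub_eq_add_neg, ← neg_smul, cl_add_left, cl_smul_left, Q3_sq, smul_smul, Q3_neg,
    eq_neg_iff_add_eq_zero, add_right_comm, h1, ← add_smul, ip_symm x r]
  have h2 : (-2 * ip r x : ℂ) + ((-(2 * ip r x / ip r r) : ℝ) : ℂ) * (-ip r r : ℂ) = 0 := by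
    push_cast
    field_simp
    ring
  rw [h2, zero_smul]

theorem Om_refl {r : V3} (hr : r ≠ 0) (s : Spn) : ∃ s', ∀ u v z,
    Om s (u - (2 * ip r u / ip r r) • r) (v - (2 * ip r v / ip r r) • r)
      (z - (2 * ip r z / ip r r) • r) = conj (Om s' u v z) := by
  have hp := ip_pos hr
  have h0 : (ip r r : ℂ) ≠ 0 := by exact_mod_cast hp.ne'
  obtain ⟨t, rfl⟩ : ∃ t, cl r t = s := by
    refine ⟨(-(ip r r : ℂ)⁻¹) • cl r s, ?_⟩
    rw [cl_smul_right, Q3_sq, smul_smul]
    have h1 : conj (-(ip r r : ℂ)⁻¹) * (-ip r r : ℂ) = 1 := by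
      rw [map_neg, map_inv₀, conj_ofReal]
      field_simp
    rw [h1, one_smul]
  refine ⟨(I * √(ip r r) : ℂ) • t, fun u v z => ?_⟩
  have h2 : (I * √(ip r r) : ℂ) ^ 2 = -ip r r := by
    rw [mul_pow, I_sq, ← ofReal_pow, Real.sq_sqrt hp.le]
    ring
  rw [Om_smul, map_mul, map_pow, conj_conj, h2]
  unfold Om
  rw [Q3_comm hr, Q3_comm hr, Q3_comm hr, hs_cl_cl, map_neg, hs_conj, Q3_neg v, neg_neg,
    ← hs_conj t, ← hs_conj t, ← neg_one_smul ℂ (cl u _), hs_smul_right]
  simp

/-- The Euclidean model. -/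
abbrev Q3_E : Type := PiLp 2 fun _ : Fin 3 => ℂ

theorem Q3_inner (x y : Q3_E) : inner ℝ x y = ip x.ofLp y.ofLp := by
  rw [PiLp.inner_apply, Fin.sum_univ_three, Complex.inner, Complex.inner, Complex.inner, ip, herm,
    add_re, add_re, mul_comm (y 0), mul_comm (y 1), mul_comm (y 2)]

theorem Q3_refl (r x : Q3_E) : ((ℝ ∙ r)ᗮ.reflection x).ofLp =
    x.ofLp - (2 * ip r.ofLp x.ofLp / ip r.ofLp r.ofLp) • r.ofLp := by
  rw [Submodule.reflection_orthogonal_apply, Submodule.reflection_singleton_apply, neg_sub,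
    ← Q3_inner, ← Q3_inner, real_inner_self_eq_norm_sq, WithLp.ofLp_sub, two_smul, ← add_smul,
    WithLp.ofLp_smul]
  refine congrArg (fun c : ℝ => x.ofLp - c • r.ofLp) ?_
  simp only [RCLike.ofReal_real_eq_id, id]
  ring

theorem Q3_list (l : List Q3_E) : ∀ s : Spn, ∃ s',
    (∀ u v z : Q3_E, Om s ((l.map fun v => (ℝ ∙ v)ᗮ.reflection).prod u).ofLp
      ((l.map fun v => (ℝ ∙ v)ᗮ.reflection).prod v).ofLp
      ((l.map fun v => (ℝ ∙ v)ᗮ.reflection).prod z).ofLp = Om s' u.ofLp v.ofLp z.ofLp) ∨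
    ∀ u v z : Q3_E, Om s ((l.map fun v => (ℝ ∙ v)ᗮ.reflection).prod u).ofLp
      ((l.map fun v => (ℝ ∙ v)ᗮ.reflection).prod v).ofLp
      ((l.map fun v => (ℝ ∙ v)ᗮ.reflection).prod z).ofLp = conj (Om s' u.ofLp v.ofLp z.ofLp) := by
  induction l with
  | nil => exact fun s => ⟨s, Or.inl fun u v z => rfl⟩
  | cons r l ih =>
    intro s
    simp only [List.map_cons, List.prod_cons, LinearIsometryEquiv.coe_mul, Function.comp_apply,
      Q3_refl r]
    by_cases hr : r.ofLp = 0
    · simpa only [hr, smul_zero, sub_zero] using ih s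
    obtain ⟨s₁, h₁⟩ := Om_refl hr s
    obtain ⟨s', h | h⟩ := ih s₁
    · exact ⟨s', Or.inr fun u v z => by rw [h₁, h]⟩
    · exact ⟨s', Or.inl fun u v z => by rw [h₁, h, conj_conj]⟩

theorem Om_iso {O : Au} (h : Iso O) (s : Spn) : ∃ s', (∀ u v z, Om s (O u) (O v) (O z) = Om s' u v z) ∨
    ∀ u v z, Om s (O u) (O v) (O z) = conj (Om s' u v z) := by
  let e : Q3_E ≃ₗ[ℝ] V3 := WithLp.linearEquiv 2 ℝ V3
  let φ : Q3_E ≃ₗᵢ[ℝ] Q3_E := LinearEquiv.isometryOfInner
    (e.trans (O.toLinearEquiv.trans e.symm)) fun x y => by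
      rw [Q3_inner, Q3_inner]
      exact h _ _
  obtain ⟨l, -, hl⟩ := φ.reflections_generate_dim
  obtain ⟨s', h'⟩ := Q3_list l s
  rw [← hl] at h'
  refine ⟨s', h'.imp (fun k u v z => ?_) fun k u v z => ?_⟩
  · exact k (WithLp.toLp 2 u) (WithLp.toLp 2 v) (WithLp.toLp 2 z)
  · exact k (WithLp.toLp 2 u) (WithLp.toLp 2 v) (WithLp.toLp 2 z)

end Pool.Agent.Work.MP_bf98aa_gt.Cy
end

-- merged part: Pool.Agent.Work.MP_bf98aa_gt.Cy.Q5
section
/-!
Forms of type `(3, 0)`.

PLAN. `exists_cof`: `θ u j = Ω (update b j u) / Ω b`, first coordinate multiplied by `Ω b`; copy the proof of `tame_th` in `G10a` (`G10a_exp`; `Φ x = ∑ (x j).re • b j + (x j).im • J (b j)` is a right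
inverse of the unscaled `θ`, so it is bijective by the dimension). `Ty.cont`: near `x₀` one has `J = θ⁻¹ ∘ i ∘ θ` (`cont_symm` or `ContinuousLinearMap.inverse`).
`exists_spinor`: `θ` from `exists_cof`, `B u v = ip (θ⁻¹ u) (θ⁻¹ v)`, `R = sqt B` commutes with `i` (`sqt_I`), `O = R ∘ θ` is an isometry, `Ω = det3 ∘ θ = c * det3 ∘ O` (`det_lin` for `R⁻¹`);
`c = conj d ^ 2`, `Om_smul`, `Om_one`, `Om_iso`.
-/

set_option autoImplicit false

open scoped Manifold ContDiff Topology ComplexConjugate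
open Set Complex

namespace Pool.Agent.Work.MP_bf98aa_gt.Cy

open Pool.Agent.Work.MP_bf98aa_gt.Th

theorem finrank_V3 : Module.finrank ℝ V3 = 6 := by
  simp [Module.finrank_pi_fintype]

theorem Q5_det (v : Fin 3 → V3) : det3 v = (Matrix.of v).det := rfl

theorem Q5_vec {α : Type} (v : Fin 3 → α) : v = ![v 0, v 1, v 2] := by
  funext j
  fin_cases j <;> rfl

theorem det_lin {T : En} (h : ∀ v, T (I • v) = I • T v) (v : Fin 3 → V3) :
    det3 (fun j => T (v j)) = det3 (fun j => T (e3 j)) * det3 v := by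
  have hc : ∀ (c : ℂ) (u : V3), T (c • u) = c • T u := fun c u => by
    rw [← re_add_im c, add_smul, add_smul, mul_smul, mul_smul, coe_smul, coe_smul, coe_smul,
      coe_smul, map_add, map_smul, map_smul, h]
  have : (Matrix.of fun j => T (v j)) = Matrix.of v * Matrix.of fun j => T (e3 j) := by
    ext j k
    rw [Matrix.mul_apply, Matrix.of_apply, pi_eq_sum_univ' (v j), map_sum, Finset.sum_apply]
    exact Finset.sum_congr rfl fun i _ => congrFun (hc _ _) k
  rw [Q5_det, Q5_det, Q5_det, this, Matrix.det_mul, mul_comm]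

theorem det_unit {T : V3 → V3} (h : ∀ u v, herm (T u) (T v) = herm u v) :
    ‖det3 fun j => T (e3 j)‖ = 1 := by
  refine CStarRing.norm_of_mem_unitary (Matrix.det_of_mem_unitary
    (A := Matrix.of fun j => T (e3 j)) (Matrix.mem_unitaryGroup_iff.2 ?_))
  ext i j
  have := h (e3 j) (e3 i)
  rw [Matrix.mul_apply, Fin.sum_univ_three]
  refine Eq.trans (b := herm (T (e3 j)) (T (e3 i))) ?_ (this.trans ?_)
  · simp only [herm, Matrix.star_apply, Matrix.of_apply, star_def]
    ring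
  · fin_cases i <;> fin_cases j <;> simp [herm, e3]

theorem det3_e3 : det3 e3 = 1 := by
  rw [Q5_vec e3, det3_eq]
  simp [e3]

theorem exists_spinor {J : En} {ρ σ : Alt V3 3} (h : Ty J ρ σ) (hJ : Iso J) :
    ∃ s, (∀ u v z, om3 ρ σ ![u, v, z] = Om s u v z) ∨
      ∀ u v z, om3 ρ σ ![u, v, z] = conj (Om s u v z) := by
  obtain ⟨b, hb⟩ := h.exists_b
  obtain ⟨θ, -, hθ⟩ := exists_cof finrank_V3 b
  obtain ⟨t1, t2, t3⟩ := hθ J ρ σ h hb
  let g : Au := (LinearEquiv.ofBijective (θ (ρ, σ)).toLinearMap t1).toContinuousLinearEquiv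
  have g1 : ∀ v, g.symm (I • v) = J (g.symm v) := fun v =>
    g.symm_apply_eq.2 ((congrArg (I • ·) (g.apply_symm_apply v)).symm.trans (t2 _).symm)
  have hB : PDf fun u v => ip (g.symm u) (g.symm v) :=
    ⟨fun v => ⟨fun x y => by simp only [map_add, (ip_lin _).1],
      fun c x => by simp only [map_smul, (ip_lin _).2]⟩,
      fun u v => ip_symm _ _, fun u hu => ip_pos (by simpa using hu)⟩
  have hI := sqt_I hB fun u v => by rw [g1, g1, hJ]
  have hS := (sqt_spec hB).2
  generalize sqt _ = R at hI hS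
  have hO : Iso (g.trans R) := fun u v => (hS _ _).trans
    (congrArg₂ ip (g.symm_apply_apply u) (g.symm_apply_apply v))
  have hR : ∀ v, (R.symm : En) (I • v) = I • (R.symm : En) v := fun v =>
    R.symm_apply_eq.2 ((congrArg (I • ·) (R.apply_symm_apply v)).symm.trans (hI _).symm)
  obtain ⟨d, hd⟩ := IsAlgClosed.exists_pow_nat_eq (det3 fun j => (R.symm : En) (e3 j)) two_pos
  have e : ∀ u v z, om3 ρ σ ![u, v, z] =
      Om (conj d • (1, 0)) (g.trans R u) (g.trans R v) (g.trans R z) := fun u v z => by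
    rw [Om_smul, Om_one, conj_conj, hd, ← det_lin hR, ← t3]
    refine congrArg det3 (funext fun j => ?_)
    fin_cases j <;> exact (R.symm_apply_apply _).symm
  obtain ⟨s, hs⟩ := Om_iso hO (conj d • (1, 0))
  exact ⟨s, hs.imp (fun k u v z => (e u v z).trans (k u v z)) fun k u v z => (e u v z).trans (k u v z)⟩

theorem Ty.Jt_eq {J : En} {ρ σ : Alt V3 3} (h : Ty J ρ σ) {s : Spn}
    (hs : ∀ u v z, om3 ρ σ ![u, v, z] = Om s u v z) : s ≠ 0 ∧ Jt s = nS s • J := by
  refine ⟨fun h0 => ?_, ContinuousLinearMap.ext fun u => sub_eq_zero.1 (h.nondeg finrank_V3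
    fun v z => ?_)⟩
  · obtain ⟨b, hb⟩ := h.exists_b
    refine hb ?_
    rw [Q5_vec b, hs, h0, ← zero_smul ℂ (0 : Spn), Om_smul, map_zero, zero_pow two_ne_zero, zero_mul]
  · have h1 := Om_Jt s u v z
    rw [← hs, ← hs] at h1
    simp only [om3, smul_apply, ContinuousAlternatingMap.map_vecCons_sub,
      ContinuousAlternatingMap.vecCons_smul, (h.2.2 u v z).1, (h.2.2 u v z).2, smul_eq_mul] at h1 ⊢
    push_cast
    linear_combination h1 + (nS s * σ ![u, v, z] : ℂ) * I_sq

end Pool.Agent.Work.MP_bf98aa_gt.Cy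
end

-- merged part: Pool.Agent.Work.MP_bf98aa_gt.Cy.Q6
section
/-!
Choice of signs.

PLAN. `sign_loc`: `e x = 1` if `0 ≤ (hs (s x₀) (s x)).re`, else `-1`; `l = e • s`. `nS (s x)` is continuous on `S` (`Bq_Om`, `Bq_cont`), so `l` is locally bounded. If `x₁ ∈ S` and `x → x₁` in `S`, every
limit point of `l x` is `± l x₁` (`Om_cont`, `Om_rsmul`, `Om_inj`; e.g. `tendsto_nhds_of_unique_mapClusterPt` on a compact ball); it has `0 ≤ (hs (s x₀) ·).re`, so it is `l x₁` whenever `0 < (hs (s x₀) (l x₁)).re`. This holds at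
`x₀`, hence near `x₀`. `sign_glob`: a finite subcover `t` and a partition of unity `ρ k` with `tsupport (ρ k) ⊆ N k`; `v x = (ρ k x * e k x)_k : t → ℝ` is nowhere zero and `e l x • v x` is continuous on `N l`. So the class of `v x` in the quotient
by `ℤˣ` is continuous; lift it (`isCoveringMapOn_quotientMk_of_properlyDiscontinuousSMul`, `IsCoveringMapOn.existsUnique_continuousMap_lifts`) to `V x = ε x • v x`; on `N l`, `ε x * e l x = ⟨V x, e l x • v x⟩ / ⟨V x, V x⟩`.
`CS.of_loc`: `act (g j x) s = (s.1, T x (g i x s.2))` with `T` the transition. `lift`: index the local signs by points; `e k * e l = (hs (l k) (act T (l l))).re / nS (l k)` is continuous on the overlap.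
-/

set_option autoImplicit false

open scoped Manifold ContDiff Topology ComplexConjugate
open Set Complex

namespace Pool.Agent.Work.MP_bf98aa_gt.Cy

open Pool.Agent.Work.MP_bf98aa_gt.Th

variable {X ι : Type} [TopologicalSpace X]

variable {B : Bdl X ι}

theorem Q6_tr (h : B.Ok) {s : X → Spn} {i j : ι} {x : X} (hi : x ∈ B.O i) (hj : x ∈ B.O j)
    (hc : ContinuousAt (fun x => act (B.g i x) (s x)) x) :
    ContinuousAt (fun x => act (B.g j x) (s x)) x := by
  have hT : ContinuousAt (fun x => ((B.g i x).symm.trans (B.g j x) : En)) x :=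
    (h.cont i j).continuousAt (((h.opn i).inter (h.opn j)).mem_nhds ⟨hi, hj⟩)
  have e : (fun x => act (B.g j x) (s x)) = fun x => ((act (B.g i x) (s x)).1,
      ((B.g i x).symm.trans (B.g j x) : En) (act (B.g i x) (s x)).2) := by
    funext y
    simp [act]
  rw [e]
  exact hc.fst.prodMk (hT.clm_apply hc.snd)

theorem Bdl.Ok.cs_of_loc (h : B.Ok) {s : X → Spn}
    (hs : ∀ x, ∃ i, x ∈ B.O i ∧ ContinuousAt (fun x => act (B.g i x) (s x)) x) : B.CS s := by
  intro j x hx
  obtain ⟨i, hi, hc⟩ := hs x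
  exact (Q6_tr h hi hx hc).continuousWithinAt

theorem Q6_sq {e : ℝ} (h : e = 1 ∨ e = -1) : e * e = 1 := by
  rcases h with rfl | rfl <;> norm_num

theorem Q6_mul {e e' : ℝ} (h : e = 1 ∨ e = -1) (h' : e' = 1 ∨ e' = -1) {a : Spn} (ha : a ≠ 0) :
    e * e' = nS (e • a + e' • a) / (2 * nS (e • a)) - 1 := by
  have h0 := (nS_pos ha).ne'
  rw [← add_smul, nS_smul, nS_smul]
  rcases h with rfl | rfl <;> rcases h' with rfl | rfl <;> field_simp <;> norm_num

theorem Bdl.Ok.lift [CompactSpace X] [T2Space X] [SimplyConnectedSpace X]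
    [LocallyPathConnectedSpace X] (h : B.Ok) {s : X → Spn} (h0 : ∀ x, s x ≠ 0)
    (hs : ∀ i, ContinuousOn (fun x => Om (act (B.g i x) (s x))) (B.O i)) :
    ∃ e : X → ℝ, (∀ x, e x = 1 ∨ e x = -1) ∧ B.CS fun x => e x • s x := by
  choose i hi using h.cov
  choose e N hN hm he hc using fun k => sign_loc (hs (i k)) (hi k) (act_ne _ (h0 k))
  have ho : ∀ k, IsOpen (N k ∩ B.O (i k)) := fun k => (hN k).inter (h.opn _)
  have c1 : ∀ k, ∀ x ∈ N k ∩ B.O (i k),
      ContinuousAt (fun y => act (B.g (i k) y) (e k y • s y)) x := fun k x hx => by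
    simp only [act_smul]
    exact (hc k).continuousAt ((ho k).mem_nhds hx)
  obtain ⟨ε, h1, h2⟩ := sign_glob ho (fun x => ⟨x, hm x, hi x⟩) he fun k l x hx => by
    have a1 := c1 k x hx.1
    have a2 := Q6_tr (s := fun y => e l y • s y) h hx.2.2 hx.1.2 (c1 l x hx.2)
    have e1 : (fun y => e k y * e l y) = fun y =>
        nS (act (B.g (i k) y) (e k y • s y) + act (B.g (i k) y) (e l y • s y)) /
          (2 * nS (act (B.g (i k) y) (e k y • s y))) - 1 := funext fun y => by
      rw [act_smul, act_smul]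
      exact Q6_mul (he k y) (he l y) (act_ne _ (h0 y))
    have n0 : 2 * nS (act (B.g (i k) x) (e k x • s x)) ≠ 0 := by
      rw [act_smul, nS_smul, sq, Q6_sq (he k x), one_mul]
      exact mul_ne_zero two_ne_zero (nS_pos (act_ne _ (h0 x))).ne'
    rw [e1]
    exact (((cont_nS.continuousAt.comp (a1.add a2)).div
      (continuousAt_const.mul (cont_nS.continuousAt.comp a1)) n0).sub
        continuousAt_const).continuousWithinAt
  refine ⟨ε, h1, h.cs_of_loc fun x => ⟨i x, hi x, ?_⟩⟩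
  have e2 : (fun y => act (B.g (i x) y) (ε y • s y)) =
      fun y => (ε y * e x y) • act (B.g (i x) y) (e x y • s y) := funext fun y => by
    rw [act_smul, act_smul, smul_smul, mul_assoc, Q6_sq (he x y), mul_one]
  rw [e2]
  exact ((h2 x).continuousAt ((ho x).mem_nhds ⟨hm x, hi x⟩)).smul (c1 x x ⟨hm x, hi x⟩)

end Pool.Agent.Work.MP_bf98aa_gt.Cy
end

-- merged part: Pool.Agent.Work.MP_bf98aa_gt.Cy.Q7a
section
/-!
General position: a section of a bundle of rank 7 over a 6-manifold can be moved off the zero section.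

PLAN. `gp_chart`: Tietze (`ContinuousMap.exists_restrict_eq` on the closed set `K`), `Continuous.exists_contDiff_approx`, `ContDiff.dense_compl_range_of_finrank_lt_finrank`, `p = p₀ - c`.
`gp_loc`: take `i` with `x₀ ∈ O i`, compact neighbourhoods `K ⊆ interior K'`, `K' ⊆ O i ∩ source`, `χ` continuous, `0 ≤ χ ≤ 1`, `1` on `K`, `tsupport χ ⊆ interior K'` (`exists_continuousMap_one_of_isCompact_subset_isOpen` or `exists_tsupport_one_of_isOpen_isClosed`). With `f = ((s x).1.im, g i x (s x).2)`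
and `d x = p (chart x) - f x` put `s' x = s x + χ x • (i (d x).1, (g i x).symm (d x).2)`; `cs_of_loc` (off `tsupport χ` one has `s' = s` locally); `SUn.nS`, `nS_bound`. `gp`: `nI (s x)` and `nS (s x)` are continuous on `X`; induction
`IsCompact.induction_on` for the property of `gp_loc` (use `√ nS`, or `nS (a + b) ≤ 2 nS a + 2 nS b`, `nI b ≤ 2 nI a + 2 nS (a - b)`); finally `δ = min nS Ψ` (the space may be empty).
-/

set_option autoImplicit false

open scoped Manifold ContDiff Topology ComplexConjugate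
open Set Complex

namespace Pool.Agent.Work.MP_bf98aa_gt.Cy

open Pool.Agent.Work.MP_bf98aa_gt.Th

/-- The square of the length of the component orthogonal to `(1, 0)`. -/
noncomputable def nI (s : Spn) : ℝ := s.1.im ^ 2 + ip s.2 s.2

theorem gp_chart {K : Set E6} (hK : IsCompact K) {f : E6 → ℝ × V3} (hf : ContinuousOn f K) {δ : ℝ}
    (hδ : 0 < δ) : ∃ p : E6 → ℝ × V3, Continuous p ∧ (∀ y, p y ≠ 0) ∧ ∀ y ∈ K, ‖p y - f y‖ < δ := by
  obtain ⟨F, hF⟩ := ContinuousMap.exists_restrict_eq hK.isClosed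
    (⟨K.domRestrict f, hf.domRestrict⟩ : C(K, ℝ × V3))
  obtain ⟨q, q1, q2, -⟩ := F.continuous.exists_contDiff_approx 1 (ε := fun _ => δ / 2)
    continuous_const fun _ => half_pos hδ
  obtain ⟨c, c1, c2⟩ := (ContDiff.dense_compl_range_of_finrank_lt_finrank q1
    (by simp [Module.finrank_pi_fintype])).exists_dist_lt 0 (half_pos hδ)
  refine ⟨fun y => q y - c, q1.continuous.sub continuous_const,
    fun y e => c1 ⟨y, sub_eq_zero.1 e⟩, fun y hy => ?_⟩
  have e : F y = f y := DFunLike.congr_fun hF ⟨y, hy⟩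
  have h := q2 y
  rw [dist_eq_norm, e] at h
  rw [dist_zero_left] at c2
  rw [sub_right_comm]
  exact (norm_sub_le _ _).trans_lt (by linarith)

variable {X ι : Type} [TopologicalSpace X] [CompactSpace X] [T2Space X] [ChartedSpace E6 X]
  {B : Bdl X ι}

theorem Bdl.Ok.gp_loc (h : B.Ok) (x₀ : X) : ∃ K ∈ 𝓝 x₀, ∀ s, B.CS s → ∀ δ : ℝ, 0 < δ →
    ∃ s', B.CS s' ∧ (∀ x, nS (s' x - s x) ≤ δ) ∧ ∃ η : ℝ, 0 < η ∧ ∀ x ∈ K, η ≤ nI (s' x) := by
  obtain ⟨i, hi⟩ := h.cov x₀
  obtain ⟨φ, hφ⟩ : ∃ φ : OpenPartialHomeomorph X E6, x₀ ∈ φ.source := ⟨_, mem_chart_source E6 x₀⟩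
  have hU := (h.opn i).inter φ.open_source
  obtain ⟨K, K1, K2, K3⟩ := exists_compact_subset hU ⟨hi, hφ⟩
  obtain ⟨χ, c1, c2, c3, c4⟩ := exists_continuousMap_one_of_isCompact_subset_isOpen K1 hU K3
  refine ⟨K, mem_interior_iff_mem_nhds.1 K2, fun s hs δ hδ => ?_⟩
  have hc : Continuous fun a : Spn => ((a.1.im, a.2) : ℝ × V3) := by fun_prop
  obtain ⟨p, p1, p2, p3⟩ := gp_chart (f := fun y => ((act (B.g i (φ.symm y)) (s (φ.symm y))).1.im,
      (act (B.g i (φ.symm y)) (s (φ.symm y))).2))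
    (c2.image_of_continuousOn (φ.continuousOn.mono fun x hx => (c3 hx).2))
    (hc.comp_continuousOn ((hs i).comp (φ.continuousOn_symm.mono (by
      rintro _ ⟨x, hx, rfl⟩
      exact φ.map_source (c3 hx).2)) (by
      rintro _ ⟨x, hx, rfl⟩
      rw [φ.left_inv (c3 hx).2]
      exact (c3 hx).1))) (half_pos (Real.sqrt_pos.2 hδ))
  obtain ⟨D, hD⟩ : ∃ D : X → Spn, D = fun x => (I * ((p (φ x)).1 - (act (B.g i x) (s x)).1.im : ℝ),
    (p (φ x)).2 - (act (B.g i x) (s x)).2) := ⟨_, rfl⟩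
  have e : ∀ x, act (B.g i x) (s x + χ x • act (B.g i x).symm (D x)) =
      act (B.g i x) (s x) + χ x • D x := fun x => by
    rw [act_add, act_smul]
    simp [act]
  refine ⟨fun x => s x + χ x • act (B.g i x).symm (D x), h.cs_of_loc fun x => ?_, fun x => ?_, ?_⟩
  · by_cases hx : x ∈ tsupport χ
    · have a1 := (hs i).continuousAt ((h.opn i).mem_nhds (c3 hx).1)
      have a2 := p1.continuousAt.comp (φ.continuousAt (c3 hx).2)
      refine ⟨i, (c3 hx).1, ?_⟩
      simp only [e]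
      rw [hD]
      exact a1.add (χ.continuous.continuousAt.smul ((continuousAt_const.mul
        (continuous_ofReal.continuousAt.comp (a2.fst.sub
          (continuous_im.continuousAt.comp a1.fst)))).prodMk (a2.snd.sub a1.snd)))
    · obtain ⟨j, hj⟩ := h.cov x
      refine ⟨j, hj, ((hs j).continuousAt ((h.opn j).mem_nhds hj)).congr ?_⟩
      filter_upwards [notMem_tsupport_iff_eventuallyEq.1 hx] with y hy
      rw [hy, Pi.zero_apply, zero_smul, add_zero]
  · rw [add_sub_cancel_left, nS_smul]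
    by_cases hx : x ∈ tsupport χ
    · have a1 := p3 _ ⟨x, hx, rfl⟩
      have a2 : ‖D x‖ < √δ / 2 := by
        simp only [φ.left_inv (c3 hx).2] at a1
        refine lt_of_eq_of_lt ?_ a1
        rw [hD, Prod.norm_def, Prod.norm_def, norm_mul, norm_I, one_mul, norm_real]
        rfl
      have a3 := pow_le_pow_left₀ (norm_nonneg _) a2.le 2
      have a4 := nS_bound (D x)
      rw [div_pow, Real.sq_sqrt hδ.le] at a3
      rw [(h.su i x (c3 hx).1).symm.nS]
      exact (mul_le_of_le_one_left ((sq_nonneg _).trans a4.1)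
        (pow_le_one₀ (c4 x).1 (c4 x).2)).trans (by linarith [a4.2])
    · rw [image_eq_zero_of_notMem_tsupport hx, zero_pow two_ne_zero, zero_mul]
      exact hδ.le
  · have a1 : ContinuousOn (fun x => p (φ x)) K :=
      p1.comp_continuousOn (φ.continuousOn.mono fun x hx => (K3 hx).2)
    obtain ⟨η, η1, η2⟩ := K1.exists_forall_le' (a := 0) ((a1.fst.pow 2).add
      (cont_ip.comp_continuousOn (a1.snd.prodMk a1.snd))) fun x _ => by
        by_cases a2 : (p (φ x)).2 = 0
        · exact add_pos_of_pos_of_nonneg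
            (sq_pos_of_ne_zero fun a3 => p2 _ (Prod.ext a3 a2)) (ip_nonneg _)
        · exact add_pos_of_nonneg_of_pos (sq_nonneg _) (ip_pos a2)
    refine ⟨η, η1, fun x hx => (η2 x hx).trans_eq ?_⟩
    have a3 : (s x + χ x • act (B.g i x).symm (D x)).1.im = (p (φ x)).1 :=
      (congrArg (fun a : Spn => a.1.im) (e x)).trans (by simp [c1 hx, hD])
    have a4 : B.g i x (s x + χ x • act (B.g i x).symm (D x)).2 = (p (φ x)).2 :=
      (congrArg Prod.snd (e x)).trans (by simp [c1 hx, hD])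
    rw [nI, ← (h.su i x (K3 hx).1).iso, a3, a4]
    rfl

end Pool.Agent.Work.MP_bf98aa_gt.Cy
end

-- merged part: Pool.Agent.Work.MP_bf98aa_gt.Cy.Q9
section
/-!
Reduction of the structure group from `SL(3, ℂ)` to `SU(3)`.

PLAN. A finite subcover `t` and a continuous partition of unity `ρ k`, `tsupport (ρ k) ⊆ O k`; `G x u v = ∑ k ∈ t, ρ k x * ip (θ k x u) (θ k x v)`. In the frame `i` the form
`B i x a b = G x ((θ i x).symm a) ((θ i x).symm b)` is `PDf`, invariant under `i` (`hI`, `ip_I`) and continuous on `O i` (each term is continuous near `tsupport` and zero off it). `R = sqt (B i x)` (`sqt_spec`, `sqt_cont`, `sqt_I`),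
`l = det3 (R ∘ e3) ≠ 0` (`det_lin` for `R` and `R.symm`), `T = D (conj l / ‖l‖) ∘ R` where `D c` multiplies the coordinate `0` by the unit `c`. The new transition preserves `ip` and commutes with `i`, so it preserves `herm` (`herm_eq`);
it multiplies `det3` by `‖l j‖ / ‖l i‖ > 0`, which has norm one (`det_unit`, `det3_e3`).
-/

set_option autoImplicit false

open scoped Manifold ContDiff Topology ComplexConjugate
open Set Complex

namespace Pool.Agent.Work.MP_bf98aa_gt.Cy

open Pool.Agent.Work.MP_bf98aa_gt.Th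

/-- Multiplication of the coordinate `0` by `c`. -/
noncomputable def Q9_D (c : ℂ) : En := LinearMap.toContinuousLinearMap
  { toFun := fun v => ![c, 1, 1] * v
    map_add' := fun u v => mul_add _ u v
    map_smul' := fun r u => by
      funext k
      simp only [Pi.mul_apply, Pi.smul_apply, real_smul, RingHom.id_apply]
      ring }

theorem Q9_D_apply (c : ℂ) (v : V3) : Q9_D c v = ![c, 1, 1] * v := rfl

theorem Q9_D_inv {c d : ℂ} (h : c * d = 1) (v : V3) : Q9_D c (Q9_D d v) = v := by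
  funext k
  rw [Q9_D_apply, Q9_D_apply]
  fin_cases k <;> simp [← mul_assoc, h]

theorem Q9_D_equiv (c : ℂ) : ∃ D : Au, c ≠ 0 → ∀ v, D v = Q9_D c v := by
  by_cases h : c = 0
  · exact ⟨ContinuousLinearEquiv.refl ℝ V3, fun h' => absurd h h'⟩
  · exact ⟨ContinuousLinearEquiv.equivOfInverse (Q9_D c) (Q9_D c⁻¹)
      (Q9_D_inv (inv_mul_cancel₀ h)) (Q9_D_inv (mul_inv_cancel₀ h)), fun _ _ => rfl⟩

theorem Q9_D_I (c : ℂ) (v : V3) : Q9_D c (I • v) = I • Q9_D c v := by
  rw [Q9_D_apply, Q9_D_apply, mul_smul_comm]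

theorem Q9_D_ip {c : ℂ} (h : conj c * c = 1) (u v : V3) :
    ip (Q9_D c u) (Q9_D c v) = ip u v := by
  have : herm (Q9_D c u) (Q9_D c v) = herm u v := by
    simp only [herm, Q9_D_apply, Pi.mul_apply, map_mul, Matrix.cons_val_zero, Matrix.cons_val_one,
      Matrix.cons_val_two, Matrix.head_cons, Matrix.tail_cons, one_mul]
    linear_combination (conj (u 0) * v 0) * h
  rw [ip, ip, this]

theorem Q9_D_det (c : ℂ) (v : Fin 3 → V3) : det3 (fun j => Q9_D c (v j)) = c * det3 v := by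
  have h1 : (fun j => Q9_D c (v j)) = ![Q9_D c (v 0), Q9_D c (v 1), Q9_D c (v 2)] := by
    funext j; fin_cases j <;> rfl
  have h2 : v = ![v 0, v 1, v 2] := by
    funext j; fin_cases j <;> rfl
  rw [h1, det3_eq]
  conv_rhs => rw [h2, det3_eq]
  simp only [Q9_D_apply, Pi.mul_apply, Matrix.cons_val_zero, Matrix.cons_val_one,
    Matrix.cons_val_two, Matrix.head_cons, Matrix.tail_cons, one_mul]
  ring

theorem Q9_det_ne {R : Au} (h : ∀ v, R (I • v) = I • R v) : det3 (fun j => R (e3 j)) ≠ 0 := by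
  intro h0
  have h1 := det_lin (T := (R : En)) h fun j => R.symm (e3 j)
  simp only [ContinuousLinearEquiv.coe_coe, ContinuousLinearEquiv.apply_symm_apply] at h1
  rw [h0, zero_mul] at h1
  exact one_ne_zero (det3_e3.symm.trans h1)

theorem Q9_T {X : Type} [TopologicalSpace X] {S : Set X} {B : X → V3 → V3 → ℝ}
    (hp : ∀ x ∈ S, PDf (B x)) (hI : ∀ x ∈ S, ∀ u v, B x (I • u) (I • v) = B x u v)
    (hc : ContinuousOn B S) :
    ∃ T : X → Au, ContinuousOn (fun x => (T x : En)) S ∧ ∀ x ∈ S,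
      (∀ v, T x (I • v) = I • T x v) ∧ (∀ u v, ip (T x u) (T x v) = B x u v) ∧
        ∃ r : ℝ, 0 < r ∧ det3 (fun j => T x (e3 j)) = r := by
  choose D hD using Q9_D_equiv
  obtain ⟨l, hl⟩ : ∃ l : X → ℂ, l = fun x => det3 fun j => sqt (B x) (e3 j) := ⟨_, rfl⟩
  have hl' : ∀ x, l x = det3 fun j => sqt (B x) (e3 j) := fun x => congrFun hl x
  have hR : ContinuousOn (fun x => (sqt (B x) : En)) S := sqt_cont.comp hc hp
  have hRv : ∀ v, ContinuousOn (fun x => sqt (B x) v) S := fun v =>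
    continuousOn_clm_apply.1 hR v
  have hlc : ContinuousOn l S := by
    rw [hl]
    exact det3.cont.comp_continuousOn (continuousOn_pi.2 fun j => hRv _)
  have hl0 : ∀ x ∈ S, l x ≠ 0 := fun x hx => by
    rw [hl']
    exact Q9_det_ne (sqt_I (hp x hx) (hI x hx))
  have hn : ∀ x ∈ S, ((‖l x‖ : ℝ) : ℂ) ≠ 0 := fun x hx =>
    ofReal_ne_zero.2 (norm_ne_zero_iff.2 (hl0 x hx))
  have hc0 : ∀ x ∈ S, conj (l x) / (‖l x‖ : ℝ) ≠ 0 := fun x hx =>
    div_ne_zero ((map_ne_zero _).2 (hl0 x hx)) (hn x hx)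
  have hcc : ContinuousOn (fun x => conj (l x) / ((‖l x‖ : ℝ) : ℂ)) S :=
    (continuous_conj.comp_continuousOn hlc).div
      (continuous_ofReal.comp_continuousOn hlc.norm) hn
  have hT : ∀ x ∈ S, ∀ v, ((sqt (B x)).trans (D (conj (l x) / (‖l x‖ : ℝ)))) v =
      Q9_D (conj (l x) / (‖l x‖ : ℝ)) (sqt (B x) v) := fun x hx v => hD _ (hc0 x hx) _
  refine ⟨fun x => (sqt (B x)).trans (D (conj (l x) / (‖l x‖ : ℝ))), ?_, fun x hx => ⟨?_, ?_, ?_⟩⟩
  · refine continuousOn_clm_apply.2 fun v => ?_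
    refine ContinuousOn.congr (f := fun x => ![conj (l x) / ((‖l x‖ : ℝ) : ℂ), 1, 1] *
      sqt (B x) v) ?_ fun x hx => hT x hx v
    refine ContinuousOn.mul (continuousOn_pi.2 fun k => ?_) (hRv v)
    fin_cases k
    · exact hcc
    · exact continuousOn_const
    · exact continuousOn_const
  · intro v
    rw [hT x hx, hT x hx, sqt_I (hp x hx) (hI x hx), Q9_D_I]
  · intro u v
    rw [hT x hx, hT x hx, Q9_D_ip, (sqt_spec (hp x hx)).2]
    have h1 := hn x hx
    rw [map_div₀, conj_conj, conj_ofReal, div_mul_div_comm, mul_conj, normSq_eq_norm_sq]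
    push_cast
    field_simp
  · refine ⟨‖l x‖, norm_pos_iff.2 (hl0 x hx), ?_⟩
    have h1 := hn x hx
    simp only [hT x hx]
    rw [Q9_D_det, ← hl', div_mul_eq_mul_div, mul_comm, mul_conj, normSq_eq_norm_sq]
    push_cast
    field_simp

theorem Q9_su {E : Type} [NormedAddCommGroup E] [NormedSpace ℝ E] {a b : E ≃L[ℝ] V3}
    {J : E → E} (ha : ∀ v, a (J v) = I • a v) (hb : ∀ v, b (J v) = I • b v)
    (hd : ∀ v : Fin 3 → E, det3 (fun k => a (v k)) = det3 fun k => b (v k)) {S S' : Au}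
    (hS : ∀ v, S (I • v) = I • S v) (hS' : ∀ v, S' (I • v) = I • S' v)
    (hip : ∀ u v, ip (S' (b u)) (S' (b v)) = ip (S (a u)) (S (a v))) {r r' : ℝ} (hr : 0 < r)
    (hr' : 0 < r') (h : det3 (fun j => S (e3 j)) = r) (h' : det3 (fun j => S' (e3 j)) = r') :
    SUn ((a.trans S).symm.trans (b.trans S')) := by
  obtain ⟨g, hg⟩ : ∃ g, g = (a.trans S).symm.trans (b.trans S') := ⟨_, rfl⟩
  rw [← hg]
  have h1 : ∀ w, g (S (a w)) = S' (b w) := fun w => by
    rw [hg]
    exact congrArg (fun y => S' (b y)) ((a.trans S).symm_apply_apply w)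
  have h2 : ∀ u, ∃ w, u = S (a w) := fun u =>
    ⟨(a.trans S).symm u, ((a.trans S).apply_symm_apply u).symm⟩
  have h3 : ∀ u v, herm (g u) (g v) = herm u v := fun u v => by
    obtain ⟨w, rfl⟩ := h2 u
    obtain ⟨z, rfl⟩ := h2 v
    rw [h1, h1, herm_eq, herm_eq, ← hS', ← hb, ← hS, ← ha, hip, hip]
  have h4 : ∀ v : Fin 3 → V3, (r : ℂ) * det3 (fun j => g (v j)) = r' * det3 v := fun v => by
    choose w hw using fun j => h2 (v j)
    obtain rfl : v = fun j => S (a (w j)) := funext hw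
    have e1 := det_lin (T := (S : En)) hS fun j => a (w j)
    have e2 := det_lin (T := (S' : En)) hS' fun j => b (w j)
    simp only [ContinuousLinearEquiv.coe_coe] at e1 e2
    simp only [h1]
    rw [e1, e2, h, h', hd]
    ring
  have h5 : r = r' := by
    have e := congrArg norm (h4 e3)
    rw [norm_mul, norm_mul, det_unit h3, det3_e3, norm_one, norm_real, norm_real,
      Real.norm_of_nonneg hr.le, Real.norm_of_nonneg hr'.le] at e
    simpa using e
  refine ⟨h3, fun v => ?_⟩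
  have e := h4 v
  rw [← h5] at e
  exact mul_left_cancel₀ (ofReal_ne_zero.2 hr.ne') e

theorem Q9_ip {X : Type} [TopologicalSpace X] {S : Set X} {f g : X → V3} (hf : ContinuousOn f S)
    (hg : ContinuousOn g S) : ContinuousOn (fun x => ip (f x) (g x)) S :=
  Continuous.comp_continuousOn (g := fun p : V3 × V3 => ip p.1 p.2) (f := fun x => (f x, g x))
    cont_ip (hf.prodMk hg)

theorem Q9_metric {X ι E : Type} [TopologicalSpace X] [CompactSpace X] [T2Space X]
    [NormedAddCommGroup E] [NormedSpace ℝ E] {O : ι → Set X} {θ : ι → X → E ≃L[ℝ] V3}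
    (opn : ∀ i, IsOpen (O i)) (cov : ∀ x, ∃ i, x ∈ O i) {J : X → E →L[ℝ] E}
    (hI : ∀ i, ∀ x ∈ O i, ∀ v, θ i x (J x v) = I • θ i x v)
    (hc : ∀ i j, ContinuousOn (fun x => ((θ i x).symm.trans (θ j x) : En)) (O i ∩ O j)) :
    ∃ G : X → E → E → ℝ, (∀ x, (∀ v, IsLinearMap ℝ fun u => G x u v) ∧
      (∀ u v, G x u v = G x v u) ∧ (∀ u, u ≠ 0 → 0 < G x u u) ∧
        ∀ u v, G x (J x u) (J x v) = G x u v) ∧
      ∀ i a b, ContinuousOn (fun x => G x ((θ i x).symm a) ((θ i x).symm b)) (O i) := by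
  obtain ⟨ρ, hρ⟩ := PartitionOfUnity.exists_isSubordinate (X := X) isClosed_univ O opn
    fun x _ => mem_iUnion.2 (cov x)
  have hfin := ρ.locallyFinite.finite_nonempty_of_compact
  have hO : ∀ k x, ρ k x ≠ 0 → x ∈ O k := fun k x h => hρ k (subset_tsupport _ h)
  refine ⟨fun x u v => ∑ k ∈ hfin.toFinset, ρ k x * ip (θ k x u) (θ k x v),
    fun x => ⟨fun v => ⟨fun u u' => ?_, fun r u => ?_⟩, fun u v => ?_, fun u hu => ?_,
      fun u v => ?_⟩, fun i a b => ?_⟩
  · rw [← Finset.sum_add_distrib]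
    refine Finset.sum_congr rfl fun k _ => ?_
    rw [map_add, (ip_lin _).map_add, mul_add]
  · rw [smul_eq_mul, Finset.mul_sum]
    refine Finset.sum_congr rfl fun k _ => ?_
    rw [map_smul, (ip_lin _).map_smul, smul_eq_mul]
    ring
  · exact Finset.sum_congr rfl fun k _ => by rw [ip_symm]
  · obtain ⟨k, hk⟩ := ρ.exists_pos (mem_univ x)
    refine Finset.sum_pos' (fun k _ => mul_nonneg (ρ.nonneg k x) (ip_nonneg _))
      ⟨k, hfin.mem_toFinset.2 ⟨x, hk.ne'⟩, mul_pos hk (ip_pos ?_)⟩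
    exact (map_ne_zero_iff _ (θ k x).injective).2 hu
  · refine Finset.sum_congr rfl fun k _ => ?_
    by_cases h : ρ k x = 0
    · rw [h, zero_mul, zero_mul]
    · rw [hI k x (hO k x h), hI k x (hO k x h), ip_I]
  · refine continuousOn_finsetSum _ fun k _ x hx => ?_
    by_cases h : x ∈ O k
    · have h1 : ∀ c, ContinuousOn (fun x => θ k x ((θ i x).symm c)) (O i ∩ O k) := fun c =>
        continuousOn_clm_apply.1 (hc i k) c
      have h2 : ContinuousOn (fun x => ρ k x * ip (θ k x ((θ i x).symm a))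
          (θ k x ((θ i x).symm b))) (O i ∩ O k) :=
        (ρ k).continuous.continuousOn.mul (Q9_ip (h1 a) (h1 b))
      exact (h2.continuousAt (((opn i).inter (opn k)).mem_nhds ⟨hx, h⟩)).continuousWithinAt
    · have h1 : ρ k =ᶠ[𝓝 x] 0 := notMem_tsupport_iff_eventuallyEq.1 fun h' => h (hρ k h')
      refine ContinuousAt.continuousWithinAt
        (ContinuousAt.congr (f := fun _ => (0 : ℝ)) continuousAt_const ?_)
      filter_upwards [h1] with y hy
      rw [hy, Pi.zero_apply, zero_mul]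

theorem su_frames {X ι E : Type} [TopologicalSpace X] [CompactSpace X] [T2Space X]
    [NormedAddCommGroup E] [NormedSpace ℝ E] {O : ι → Set X} {θ : ι → X → E ≃L[ℝ] V3}
    (opn : ∀ i, IsOpen (O i)) (cov : ∀ x, ∃ i, x ∈ O i) {J : X → E →L[ℝ] E}
    (hI : ∀ i, ∀ x ∈ O i, ∀ v, θ i x (J x v) = I • θ i x v)
    (hd : ∀ i j, ∀ x ∈ O i ∩ O j, ∀ v : Fin 3 → E,
      det3 (fun k => θ i x (v k)) = det3 fun k => θ j x (v k))
    (hc : ∀ i j, ContinuousOn (fun x => ((θ i x).symm.trans (θ j x) : En)) (O i ∩ O j)) :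
    ∃ T : ι → X → Au, (∀ i, ContinuousOn (fun x => (T i x : En)) (O i)) ∧
      (∀ i, ∀ x ∈ O i, ∀ v, T i x (I • v) = I • T i x v) ∧ ∀ i j, ∀ x ∈ O i ∩ O j,
        SUn (((θ i x).trans (T i x)).symm.trans ((θ j x).trans (T j x))) := by
  obtain ⟨G, hG, hGc⟩ := Q9_metric opn cov hI hc
  have hJ : ∀ i, ∀ x ∈ O i, ∀ a, (θ i x).symm (I • a) = J x ((θ i x).symm a) := fun i x hx a => by
    rw [ContinuousLinearEquiv.symm_apply_eq, hI i x hx, ContinuousLinearEquiv.apply_symm_apply]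
  have key := fun i => Q9_T (S := O i)
    (B := fun x a b => G x ((θ i x).symm a) ((θ i x).symm b))
    (fun x _ => ⟨fun v => ⟨fun u u' => by simp only [map_add, ((hG x).1 _).map_add],
      fun r u => by simp only [map_smul, ((hG x).1 _).map_smul]⟩, fun u v => (hG x).2.1 _ _,
      fun u hu => (hG x).2.2.1 _ ((map_ne_zero_iff _ (θ i x).symm.injective).2 hu)⟩)
    (fun x hx u v => by rw [hJ i x hx, hJ i x hx, (hG x).2.2.2])
    (continuousOn_pi.2 fun a => continuousOn_pi.2 fun b => hGc i a b)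
  choose T hT hT' using key
  refine ⟨T, hT, fun i x hx => (hT' i x hx).1, fun i j x hx => ?_⟩
  obtain ⟨h1, h2, r, hr, h3⟩ := hT' i x hx.1
  obtain ⟨h1', h2', r', hr', h3'⟩ := hT' j x hx.2
  refine Q9_su (hI i x hx.1) (hI j x hx.2) (hd i j x hx) h1 h1' (fun u v => ?_) hr hr' h3 h3'
  rw [h2, h2']
  simp only [ContinuousLinearEquiv.symm_apply_apply]

end Pool.Agent.Work.MP_bf98aa_gt.Cy
end
end

-- merged part: Pool.Agent.Work.MP_bf98aa_gt.Cy.G10b
section
/-!
Normalised tamed coframes form a nonempty convex set; tameness is an open condition.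

PLAN. `convex_tame`: let `ι y = ∑ j, y j • fr j` (vertical, `S (ι y) = y` for `NormS S`). For `a b : E6` put `u = a - ι (re (S a)) + ι (im (S b))`, `u' = b - ι (re (S b)) - ι (im (S a))`, so `S u' = I • S u`,
and `Q S a b = η ![u, u']`. Show for normalised `S`: `TameS η S ↔ ∀ a b, ¬ (Vert a ∧ Vert b) → 0 < Q S a b` (forward: `u = 0` makes `a` vertical and `S u' = 0`, so `u' = 0`, `b` vertical;
backward: injective since `S a = 0`, `b = 0` give `u' = 0`, so `a` is vertical, and a vertical `a` equals `ι (re (S a))`; bijective by dimension; if `S v' = I • S v` take `a = v`, `b = v'`, then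
`u = v`, `u' = v'`, and both vertical would force `S v = 0`). By `Lag` the function `Q S a b` is affine in `S` (`exists_bilin`).
`exists_tame`: `exists_darboux` gives `A` with `η ∘ A = omA` (injective, hence bijective); `S₀ v j = (A⁻¹ v) (j,0) + I (A⁻¹ v) (j,1)` is tamed; `c = detC S₀ fr ≠ 0` (otherwise
`Matrix.exists_mulVec_eq_zero_iff` gives `a + I b ≠ 0` with `S₀ (ι b) = I • S₀ (ι a)`, contradicting `Lag`); apply `tame_th` to `tame_det h (c⁻¹ ≠ 0)`.
`isOpen_tame`: at a tamed pair `S` is a continuous linear equivalence; `contDiffAt_map_inverse` (or `ContinuousLinearEquiv.nhds` and continuity of `ContinuousLinearMap.inverse`) shows that nearby `S'` are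
invertible and `S' ↦ S'⁻¹` is continuous; `v ↦ η' ![v, S'⁻¹ (I • S' v)]` is positive on the unit sphere for nearby pairs (`IsCompact.eventually_forall_of_forall_eventually`), and homogeneous of degree two.
-/

set_option autoImplicit false

open scoped Manifold ContDiff Topology
open Set

namespace Pool.Agent.Work.MP_bf98aa_gt.Cy

open Pool.Agent.Work.MP_bf98aa_gt.Th

variable {η : Alt E6 2}

/-- The vertical vector with the real parts as coordinates. -/
noncomputable def G10b_R (z : Fin 3 → ℂ) : E6 := ∑ j, (z j).re • fr j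

/-- The vertical vector with the imaginary parts as coordinates. -/
noncomputable def G10b_M (z : Fin 3 → ℂ) : E6 := ∑ j, (z j).im • fr j

theorem G10b_c0 (y : Fin 3 → ℝ) (i : Fin 3) : (∑ j, y j • fr j : E6) (i, 0) = 0 := by
  simp [fr, bv, Finset.sum_apply]

theorem G10b_c1 (y : Fin 3 → ℝ) (i : Fin 3) : (∑ j, y j • fr j : E6) (i, 1) = y i := by
  simp [fr, bv, Finset.sum_apply, Pi.single_apply]

theorem G10b_vR (z : Fin 3 → ℂ) : Vert (G10b_R z) := fun i => G10b_c0 _ i

theorem G10b_vM (z : Fin 3 → ℂ) : Vert (G10b_M z) := fun i => G10b_c0 _ i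

theorem G10b_vadd {a b : E6} (ha : Vert a) (hb : Vert b) : Vert (a + b) := fun i => by
  rw [Pi.add_apply, ha i, hb i, add_zero]

theorem G10b_vneg {a : E6} (ha : Vert a) : Vert (-a) := fun i => by
  rw [Pi.neg_apply, ha i, neg_zero]

theorem G10b_norm {S : CF} (h : NormS S) (y : Fin 3 → ℝ) (i : Fin 3) :
    S (∑ j, y j • fr j) i = y i := by
  simp [map_sum, h _, Finset.sum_apply, Pi.single_apply]

theorem G10b_vert {a : E6} (ha : Vert a) : a = ∑ j, a (j, 1) • fr j := by
  funext ⟨i, k⟩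
  fin_cases k
  · exact (ha i).trans (G10b_c0 _ i).symm
  · exact (G10b_c1 (fun j => a (j, 1)) i).symm

theorem G10b_Sv {S : CF} (h : NormS S) {a : E6} (ha : Vert a) (i : Fin 3) : S a i = a (i, 1) := by
  conv_lhs => rw [G10b_vert ha]
  exact G10b_norm h (fun j => a (j, 1)) i

theorem G10b_Rv {S : CF} (h : NormS S) {a : E6} (ha : Vert a) : G10b_R (S a) = a := by
  simp only [G10b_R, G10b_Sv h ha, Complex.ofReal_re]
  exact (G10b_vert ha).symm

theorem G10b_Mv {S : CF} (h : NormS S) {a : E6} (ha : Vert a) : G10b_M (S a) = 0 := by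
  simp [G10b_M, G10b_Sv h ha]

theorem G10b_MI (z : Fin 3 → ℂ) : G10b_M (Complex.I • z) = G10b_R z := by
  simp [G10b_M, G10b_R]

theorem G10b_RI (z : Fin 3 → ℂ) : G10b_R (Complex.I • z) = -G10b_M z := by
  simp [G10b_M, G10b_R]

theorem G10b_Rc (s t : ℝ) (z z' : Fin 3 → ℂ) :
    G10b_R (s • z + t • z') = s • G10b_R z + t • G10b_R z' := by
  simp [G10b_R, Finset.smul_sum, add_smul, mul_smul, Finset.sum_add_distrib]

theorem G10b_Mc (s t : ℝ) (z z' : Fin 3 → ℂ) :
    G10b_M (s • z + t • z') = s • G10b_M z + t • G10b_M z' := by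
  simp [G10b_M, Finset.smul_sum, add_smul, mul_smul, Finset.sum_add_distrib]

theorem G10b_zero (η : Alt E6 2) (u : E6) : η ![u, 0] = 0 :=
  η.map_coord_zero 1 rfl

theorem G10b_bij {S : CF} (h : ∀ v, S v = 0 → v = 0) : Function.Bijective S := by
  have hi : Function.Injective (S : E6 →ₗ[ℝ] (Fin 3 → ℂ)) := (injective_iff_map_eq_zero _).2 h
  refine ⟨hi, (LinearMap.injective_iff_surjective_of_finrank_eq_finrank ?_).1 hi⟩
  simp [Module.finrank_pi_fintype]

/-- The correction of the first vector. -/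
noncomputable def G10b_p (S : CF) (a b : E6) : E6 := -G10b_R (S a) + G10b_M (S b)

/-- The correction of the second vector. -/
noncomputable def G10b_q (S : CF) (a b : E6) : E6 := -G10b_R (S b) + -G10b_M (S a)

theorem G10b_vp (S : CF) (a b : E6) : Vert (G10b_p S a b) :=
  G10b_vadd (G10b_vneg (G10b_vR _)) (G10b_vM _)

theorem G10b_vq (S : CF) (a b : E6) : Vert (G10b_q S a b) :=
  G10b_vadd (G10b_vneg (G10b_vR _)) (G10b_vneg (G10b_vM _))

theorem G10b_rot {S : CF} (h : NormS S) (a b : E6) :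
    S (b + G10b_q S a b) = Complex.I • S (a + G10b_p S a b) := by
  funext i
  simp only [G10b_p, G10b_q, G10b_R, G10b_M, map_add, map_neg, Pi.add_apply, Pi.neg_apply,
    Pi.smul_apply, G10b_norm h, smul_eq_mul]
  apply Complex.ext <;> simp

theorem G10b_iff {S : CF} (h : NormS S) : TameS η S ↔
    ∀ a b, ¬ (Vert a ∧ Vert b) → 0 < η ![a + G10b_p S a b, b + G10b_q S a b] := by
  constructor
  · rintro ⟨hb, ht⟩ a b hab
    refine ht _ _ (fun h0 => hab ?_) (G10b_rot h a b)
    have h1 : b + G10b_q S a b = 0 := by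
      apply hb.1
      rw [G10b_rot h, h0, map_zero, smul_zero]
    rw [add_eq_zero_iff_eq_neg] at h0 h1
    exact ⟨h0 ▸ G10b_vneg (G10b_vp S a b), h1 ▸ G10b_vneg (G10b_vq S a b)⟩
  · intro H
    refine ⟨G10b_bij fun a ha => ?_, fun v v' hv e => ?_⟩
    · have hv : Vert a := by
        by_contra hn
        have h1 := H a 0 fun k => hn k.1
        have h2 : (0 : E6) + G10b_q S a 0 = 0 := by simp [G10b_q, ha, G10b_R, G10b_M]
        rw [h2, G10b_zero] at h1
        exact lt_irrefl _ h1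
      rw [← G10b_Rv h hv, ha]
      simp [G10b_R]
    · have h1 := H v v' fun k => hv (by rw [← G10b_Rv h k.1, ← G10b_MI, ← e, G10b_Mv h k.2])
      have h2 : G10b_p S v v' = 0 := by rw [G10b_p, e, G10b_MI, neg_add_cancel]
      have h3 : G10b_q S v v' = 0 := by rw [G10b_q, e, G10b_RI, neg_neg, add_neg_cancel]
      rwa [h2, h3, add_zero, add_zero] at h1

theorem convex_tame (h : Lag η) : Convex ℝ {S : CF | NormS S ∧ TameS η S} := by
  rintro S ⟨n1, t1⟩ S' ⟨n2, t2⟩ s t hs ht hst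
  have n3 : NormS (s • S + t • S') := fun j => by
    rw [add_apply, smul_apply,
      smul_apply, n1 j, n2 j, ← add_smul, hst, one_smul]
  refine ⟨n3, (G10b_iff n3).2 fun a b hab => ?_⟩
  have k1 := (G10b_iff n1).1 t1 a b hab
  have k2 := (G10b_iff n2).1 t2 a b hab
  obtain ⟨B, hB⟩ := exists_bilin η
  have hQ : ∀ T : CF, η ![a + G10b_p T a b, b + G10b_q T a b] =
      B a b + B a (G10b_q T a b) + B (G10b_p T a b) b := fun T => by
    have h0 := h _ _ (G10b_vp T a b) (G10b_vq T a b)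
    rw [hB] at h0
    rw [hB, map_add, map_add, add_apply, add_apply, h0]
    ring
  have e1 : G10b_p (s • S + t • S') a b = s • G10b_p S a b + t • G10b_p S' a b := by
    simp only [G10b_p, add_apply, smul_apply, G10b_Rc,
      G10b_Mc]
    module
  have e2 : G10b_q (s • S + t • S') a b = s • G10b_q S a b + t • G10b_q S' a b := by
    simp only [G10b_q, add_apply, smul_apply, G10b_Rc,
      G10b_Mc]
    module
  rw [hQ] at k1 k2 ⊢
  rw [e1, e2]
  simp only [map_add, map_smul, add_apply, smul_apply,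
    smul_eq_mul]
  have e3 : B a b = s * B a b + t * B a b := by rw [← add_mul, hst, one_mul]
  rcases hs.eq_or_lt with rfl | hs'
  · have : t = 1 := by linarith
    subst this
    linarith
  · nlinarith [mul_pos hs' k1, mul_nonneg ht k2.le]

/-- The standard complex coframe. -/
noncomputable def G10b_C : CF :=
  ContinuousLinearMap.pi fun j =>
    Complex.ofRealCLM.comp (dc (j, 0)) + Complex.I • Complex.ofRealCLM.comp (dc (j, 1))

theorem G10b_C_apply (v : E6) (j : Fin 3) : G10b_C v j = v (j, 0) + Complex.I * v (j, 1) := rfl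

theorem G10b_std : TameS omA G10b_C := by
  refine ⟨G10b_bij fun v hv => ?_, fun v v' hv e => ?_⟩
  · funext ⟨i, k⟩
    have h1 := congrFun hv i
    rw [G10b_C_apply] at h1
    fin_cases k
    · simpa using congrArg Complex.re h1
    · simpa using congrArg Complex.im h1
  · have h1 : ∀ i, v' (i, 0) = -v (i, 1) ∧ v' (i, 1) = v (i, 0) := fun i => by
      have h2 := congrFun e i
      rw [Pi.smul_apply, G10b_C_apply, G10b_C_apply] at h2
      exact ⟨by simpa using congrArg Complex.re h2, by simpa using congrArg Complex.im h2⟩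
    rw [IPf_omA]
    obtain ⟨⟨i, k⟩, hi⟩ := Function.ne_iff.1 hv
    refine Finset.sum_pos' (fun j _ => ?_) ⟨i, Finset.mem_univ _, ?_⟩
    · rw [(h1 j).1, (h1 j).2]
      nlinarith [mul_self_nonneg (v (j, 0)), mul_self_nonneg (v (j, 1))]
    · rw [(h1 i).1, (h1 i).2]
      fin_cases k
      · have : v (i, 0) ≠ 0 := hi
        nlinarith [mul_self_pos.2 this, mul_self_nonneg (v (i, 1))]
      · have : v (i, 1) ≠ 0 := hi
        nlinarith [mul_self_pos.2 this, mul_self_nonneg (v (i, 0))]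

theorem G10b_one (hn : ∀ u, (∀ v, η ![u, v] = 0) → u = 0) : ∃ S : CF, TameS η S := by
  obtain ⟨A, hA⟩ := exists_darboux η hn
  have hi : Function.Injective (A : E6 →ₗ[ℝ] E6) := by
    refine (injective_iff_map_eq_zero _).2 fun u hu => ?_
    by_contra h0
    obtain ⟨u', e⟩ := G10b_std.1.2 (Complex.I • G10b_C u)
    have h1 := G10b_std.2 u u' h0 e
    have h2 : A u = 0 := hu
    rw [← hA, IPf_comp, h2, alt2_swap, G10b_zero, neg_zero] at h1
    exact lt_irrefl _ h1
  let e : E6 ≃L[ℝ] E6 := (LinearEquiv.ofInjectiveEndo _ hi).toContinuousLinearEquiv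
  have he : ∀ v, A (e.symm v) = v := fun v => e.apply_symm_apply v
  refine ⟨G10b_C.comp (e.symm : E6 →L[ℝ] E6), G10b_std.1.comp e.symm.bijective,
    fun v v' hv k => ?_⟩
  have h1 := G10b_std.2 (e.symm v) (e.symm v') (fun h0 => hv (by rw [← he v, h0, map_zero])) k
  rwa [← hA, IPf_comp, he, he] at h1

theorem G10b_det {S : CF} (hS : TameS η S) (h : Lag η) : detC S fr ≠ 0 := by
  intro h0
  obtain ⟨z, hz, e⟩ := Matrix.exists_mulVec_eq_zero_iff.2 h0
  have e1 : S (G10b_M z) = Complex.I • S (G10b_R z) := by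
    funext i
    have e2 := congrFun e i
    simp only [Matrix.mulVec, dotProduct, Matrix.of_apply, Pi.zero_apply, Fin.sum_univ_three] at e2
    simp only [G10b_M, G10b_R, Fin.sum_univ_three, map_add, map_smul, Pi.add_apply, Pi.smul_apply,
      smul_eq_mul, Complex.real_smul]
    rw [← Complex.re_add_im (z 0), ← Complex.re_add_im (z 1), ← Complex.re_add_im (z 2)] at e2
    linear_combination (-Complex.I) * e2 +
      (S (fr 0) i * (z 0).im + S (fr 1) i * (z 1).im + S (fr 2) i * (z 2).im) * Complex.I_mul_I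
  have e3 : G10b_R z = 0 := by
    by_contra h1
    exact (hS.2 _ _ h1 e1).ne' (h _ _ (G10b_vR z) (G10b_vM z))
  have e4 : G10b_M z = 0 := by
    apply hS.1.1
    rw [e1, e3, map_zero, smul_zero]
  refine hz (funext fun i => Complex.ext ?_ ?_)
  · exact (G10b_c1 (fun j => (z j).re) i).symm.trans (congrFun e3 (i, 1))
  · exact (G10b_c1 (fun j => (z j).im) i).symm.trans (congrFun e4 (i, 1))

theorem exists_tame (hn : ∀ u, (∀ v, η ![u, v] = 0) → u = 0) (h : Lag η) :
    ∃ S : CF, NormS S ∧ TameS η S := by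
  obtain ⟨S, hS⟩ := G10b_one hn
  have hc := G10b_det hS h
  have k := tame_th (tame_det hS (inv_ne_zero hc))
    (by rw [dim_apply, inv_mul_cancel₀ hc, Complex.one_im])
    (by rw [dre_apply, inv_mul_cancel₀ hc, Complex.one_re]; exact one_ne_zero)
  exact ⟨_, k.2.1, k.1⟩

theorem G10b_sph {S : CF} : TameS η S ↔ ∀ w ∈ Metric.sphere (0 : E6 × E6) 1,
    S w.2 ≠ Complex.I • S w.1 ∨ 0 < η ![w.1, w.2] := by
  constructor
  · rintro ⟨hb, ht⟩ w hw
    refine or_iff_not_imp_left.2 fun e => ht _ _ (fun h0 => ?_) (not_not.1 e)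
    have h1 : w.2 = 0 := by
      apply hb.1
      rw [not_not.1 e, h0, map_zero, smul_zero]
    have h2 : w = 0 := Prod.ext h0 h1
    simp [h2] at hw
  · intro H
    obtain ⟨B, hB⟩ := exists_bilin η
    have key : ∀ v v', v ≠ 0 → S v' = Complex.I • S v → 0 < η ![v, v'] := by
      intro v v' hv e
      have h0 : (v, v') ≠ 0 := fun k => hv (congrArg Prod.fst k)
      have h1 : 0 < ‖(v, v')‖ := norm_pos_iff.2 h0
      have h2 := H (‖(v, v')‖⁻¹ • (v, v')) (by
        rw [mem_sphere_zero_iff_norm, norm_smul, norm_inv, norm_norm, inv_mul_cancel₀ h1.ne'])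
      have h3 := h2.resolve_left (by
        rw [not_not, Prod.smul_snd, Prod.smul_fst, map_smul, map_smul, e, smul_comm])
      rw [hB, Prod.smul_snd, Prod.smul_fst, map_smul, map_smul, smul_apply,
        smul_eq_mul, smul_eq_mul] at h3
      rw [hB]
      exact (mul_pos_iff_of_pos_left (inv_pos.2 h1)).1
        ((mul_pos_iff_of_pos_left (inv_pos.2 h1)).1 h3)
    refine ⟨G10b_bij fun v hv => ?_, key⟩
    by_contra h0
    have h1 := key v 0 h0 (by rw [hv, map_zero, smul_zero])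
    rw [G10b_zero] at h1
    exact lt_irrefl _ h1

theorem isOpen_tame : IsOpen {p : Alt E6 2 × CF | TameS p.1 p.2} := by
  refine isOpen_iff_mem_nhds.2 fun p hp => ?_
  have c1 : Continuous fun q : (Alt E6 2 × CF) × E6 × E6 => q.1.2 q.2.2 :=
    continuous_fst.snd.clm_apply continuous_snd.snd
  have c2 : Continuous fun q : (Alt E6 2 × CF) × E6 × E6 => Complex.I • q.1.2 q.2.1 :=
    (continuous_const (y := Complex.I)).smul (continuous_fst.snd.clm_apply continuous_snd.fst)
  have c3 : Continuous fun q : (Alt E6 2 × CF) × E6 × E6 => q.1.1 ![q.2.1, q.2.2] := by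
    refine continuous_iff_continuousAt.2 fun q => (ContDiffAt.alt_apply (n := 0)
      (α := fun q : (Alt E6 2 × CF) × E6 × E6 => q.1.1) (v := fun q => ![q.2.1, q.2.2])
      contDiffAt_fst.fst fun i => ?_).continuousAt
    fin_cases i
    · exact contDiffAt_snd.fst
    · exact contDiffAt_snd.snd
  have ho : IsOpen {q : (Alt E6 2 × CF) × E6 × E6 |
      q.1.2 q.2.2 ≠ Complex.I • q.1.2 q.2.1 ∨ 0 < q.1.1 ![q.2.1, q.2.2]} :=
    (isOpen_ne_fun c1 c2).union (isOpen_lt continuous_const c3)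
  have k := (isCompact_sphere (0 : E6 × E6) 1).eventually_forall_of_forall_eventually
    (x₀ := p) (P := fun (x : Alt E6 2 × CF) (w : E6 × E6) =>
      x.2 w.2 ≠ Complex.I • x.2 w.1 ∨ 0 < x.1 ![w.1, w.2])
    fun w hw => ho.mem_nhds (G10b_sph.1 hp w hw)
  filter_upwards [k] with x hx
  exact G10b_sph.2 hx

end Pool.Agent.Work.MP_bf98aa_gt.Cy
end
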