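import Pool.Agent.Work.MP_bf98aa_gt.Cy.N6

/-!
Stokes for top forms.

PLAN. `stokes_ball`: `b = d γ` on the ball (`RA_star`), `χ` a smooth cut-off with compact support in the ball and equal to 1 near `K` (`exists_contMDiff_support_eq..` or `ContDiffBump` for a slightly smaller ball containing `K`);
`d (χ γ)` is closed everywhere and equals `b` near `K`; extend `a` by zero and use `pf_stokes` with `s₀ = 0`. `cont_rat`: in a chart the determinants cancel (`pf_pl`, `Par.bij`, `contDiff_pf`).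
`Vol.stokes`: a finite smooth partition of unity `ρ q` subordinate to images of balls under charts; `w q = d (ρ q • β)` (`G3_cut`, `exists_d`), `∑ w q = w` (`G3_uniq`), `w q = 0` off `tsupport (ρ q)`; `rat` is additive in the first slot
(`exists_pfM`); `Vol.loc`; the sign of `pf (pl symm η y)` is constant on the ball.
-/

set_option autoImplicit false

open scoped Manifold ContDiff Topology
open Set Complex

namespace Pool.Agent.Work.MP_bf98aa_gt.Cy

open Pool.Agent.Work.MP_bf98aa_gt.Th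

variable {M : Type} [TopologicalSpace M] [ChartedSpace E6 M] [IsManifold 𝓘(ℝ, E6) ∞ M]

theorem N7_cut {O K : Set E6} (hO : IsOpen O) (hK : IsClosed K) (hs : K ⊆ O) {k : ℕ}
    {γ : Fm E6 k} (hγ : Sm γ O) : ∃ (φ : E6 → ℝ), Sm (fun x => φ x • γ x) univ ∧
      (∀ x ∈ K, ∀ᶠ y in 𝓝 x, φ y = 1) ∧ ∀ x ∉ O, φ x = 0 := by
  obtain ⟨φ, h1, h2, h3⟩ := exists_cut hO hK.isOpen_compl
  have e : O ∪ Kᶜ = univ := eq_univ_of_forall fun x => (em (x ∈ K)).imp (@hs x) id
  have h4 : ∀ x ∉ O, ∀ᶠ y in 𝓝 x, φ y = 0 := fun x hx => h3 x (fun h => hx (hs h)) hx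
  exact ⟨φ, FMV_cut isOpen_univ hO (e ▸ h1) (fun x _ => h4 x) (by rwa [univ_inter]),
    fun x hx => h2 x (hs hx) (not_not.2 hx), fun x hx => (h4 x hx).self_of_nhds⟩

theorem N7_ext {z : E6} {r : ℝ} {K : Set E6} (hK : IsClosed K) (hs : K ⊆ Metric.ball z r)
    {b : Fm E6 2} (hb : Cl b (Metric.ball z r)) :
    ∃ b' : Fm E6 2, Cl b' univ ∧ ∀ x ∈ K, b' x = b x := by
  obtain ⟨γ, h1, h2⟩ := RA_convex Metric.isOpen_ball (convex_ball z r) 2 b hb
  obtain ⟨φ, h3, h4, -⟩ := N7_cut Metric.isOpen_ball hK hs h1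
  refine ⟨extDeriv fun x => φ x • γ x, IsD.cl ⟨h3, fun _ _ => rfl⟩ isOpen_univ, fun x hx => ?_⟩
  rw [← h2 x (hs hx)]
  exact Filter.EventuallyEq.extDeriv_eq ((h4 x hx).mono fun y hy => by simp only [hy, one_smul])

theorem stokes_ball {z : E6} {r : ℝ} {K : Set E6} (hK : IsCompact K) (hs : K ⊆ Metric.ball z r)
    {a : Fm E6 1} {b c : Fm E6 2} (ha : Sm a (Metric.ball z r))
    (h0 : ∀ y ∈ Metric.ball z r, y ∉ K → a y = 0) (hb : Cl b (Metric.ball z r))
    (hc : Cl c (Metric.ball z r)) :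
    ∫ y in Metric.ball z r, pf ![extDeriv a y, b y, c y] = 0 := by
  obtain ⟨b', b1, b2⟩ := N7_ext hK.isClosed hs hb
  obtain ⟨c', c1, c2⟩ := N7_ext hK.isClosed hs hc
  obtain ⟨φ, a1, a2, a3⟩ := N7_cut Metric.isOpen_ball hK.isClosed hs ha
  have a4 : ∀ y ∉ K, φ y • a y = 0 := fun y hy => by
    by_cases h : y ∈ Metric.ball z r
    · rw [h0 y h hy, smul_zero]
    · rw [a3 y h, zero_smul]
  have a5 : ∀ y ∉ K, extDeriv (fun x => φ x • a x) y = 0 := fun y hy =>
    (Filter.EventuallyEq.extDeriv_eq (Filter.mem_of_superset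
      (hK.isClosed.isOpen_compl.mem_nhds hy) a4)).trans (extDeriv_const 0 y)
  have a6 : ∀ y ∈ Metric.ball z r, extDeriv (fun x => φ x • a x) y = extDeriv a y := fun y hy =>
    Filter.EventuallyEq.extDeriv_eq ((Metric.isOpen_ball.eventually_mem hy).mono fun x hx => by
      by_cases h : x ∈ K
      · simp only [(a2 x h).self_of_nhds, one_smul]
      · simp only [h0 x hx h, smul_zero])
  have h := pf_stokes 0 (contDiffOn_univ.1 a1) (HasCompactSupport.intro hK a4)
    (w := ![b', b', c']) fun s _ => by fin_cases s <;> assumption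
  rw [← MeasureTheory.setIntegral_eq_integral_of_forall_compl_eq_zero
    (s := Metric.ball z r) fun y hy => pf_eq_zero (s := 0) (a5 y fun h => hy (hs h))] at h
  refine Eq.trans (MeasureTheory.setIntegral_congr_fun measurableSet_ball fun y hy => ?_) h
  by_cases h : y ∈ K
  · refine congrArg pf (funext fun s => ?_)
    fin_cases s
    exacts [(a6 y hy).symm, (b2 y h).symm, (c2 y h).symm]
  · exact (pf_eq_zero (s := 0) ((a6 y hy).symm.trans (a5 y h))).trans
      (pf_eq_zero (s := 0) (a5 y h)).symm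

variable {η a b c w : Fo M 2}

theorem N7_rat (hn : Form.Nondeg (E := E6) (M := M) η) {ψ : E6 → M} {U : Set E6} (hP : Par ψ U)
    {y : E6} (hy : y ∈ U) : (pf fun _ : Fin 3 => pl ψ η y) ≠ 0 ∧ ∀ a b c : Fo M 2,
      rat η a b c (ψ y) = pf ![pl ψ a y, pl ψ b y, pl ψ c y] / pf fun _ : Fin 3 => pl ψ η y := by
  have hd : (dM ψ y).det ≠ 0 :=
    (LinearEquiv.ofBijective (dM ψ y).toLinearMap (hP.bij hy)).isUnit_det'.ne_zero
  have e := pf_comp (fun _ : Fin 3 => η (ψ y)) (dM ψ y)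
  refine ⟨e ▸ mul_ne_zero hd (pf_ne_zero _ (hn _)), fun a b c => ?_⟩
  have e' : ![pl ψ a y, pl ψ b y, pl ψ c y] = fun s =>
      (![a (ψ y), b (ψ y), c (ψ y)] s).compContinuousLinearMap (dM ψ y) := by
    funext s
    fin_cases s <;> rfl
  rw [e', pf_comp, rat, ← mul_div_mul_left _ _ hd, ← e]
  rfl

theorem N7_pf {U : Set E6} {α β γ : Fm E6 2} (h1 : Sm α U) (h2 : Sm β U) (h3 : Sm γ U) :
    ContinuousOn (fun y => pf ![α y, β y, γ y]) U :=
  (contDiff_pf (S := Fin 3)).continuous.comp_continuousOn (continuousOn_pi.2 fun s => by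
    fin_cases s
    exacts [h1.continuousOn, h2.continuousOn, h3.continuousOn])

theorem N7_pf' {U : Set E6} {α : Fm E6 2} (h1 : Sm α U) :
    ContinuousOn (fun y => pf fun _ : Fin 3 => α y) U :=
  (contDiff_pf (S := Fin 3)).continuous.comp_continuousOn (continuousOn_pi.2 fun _ => h1.continuousOn)

theorem cont_rat (hη : SmO η univ) (hn : Form.Nondeg (E := E6) (M := M) η) (ha : SmO a univ)
    (hb : SmO b univ) (hc : SmO c univ) : Continuous (rat η a b c) := by
  refine continuous_iff_continuousAt.2 fun m => ?_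
  have hP := par_chart (M := M) m
  have h1 : ContinuousOn (fun y => rat η a b c ((chartAt E6 m).symm y)) (chartAt E6 m).target :=
    ((N7_pf (ha _ _ hP (mapsTo_univ _ _)) (hb _ _ hP (mapsTo_univ _ _))
      (hc _ _ hP (mapsTo_univ _ _))).div (N7_pf' (hη _ _ hP (mapsTo_univ _ _)))
      fun y hy => (N7_rat hn hP hy).1).congr fun y hy => (N7_rat hn hP hy).2 a b c
  exact ((h1.comp (chartAt E6 m).continuousOn (chartAt E6 m).mapsTo).congr fun x hx => by
    simp only [Function.comp, (chartAt E6 m).left_inv hx]).continuousAt (chart_source_mem_nhds E6 m)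

omit [TopologicalSpace M] [ChartedSpace E6 M] [IsManifold 𝓘(ℝ, E6) ∞ M] in
theorem N7_add (η a a' b c : Fo M 2) : rat η (a + a') b c = rat η a b c + rat η a' b c := by
  obtain ⟨Φ, h⟩ := exists_pfM (S := Fin 3)
  funext m
  simp only [rat, Pi.add_apply, ← h, ← add_div]
  exact congrArg (· / _) (Φ.cons_add ![b m, c m] (a m) (a' m))

theorem N7_loc [T2Space M] [CompactSpace M] {J : (M → ℝ) → ℝ} (hJ : Vol η J) (hη : SmO η univ)
    (hn : Form.Nondeg (E := E6) (M := M) η) {β : Fo M 1} (hw : IsDO β w univ) (hb : ClO b univ)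
    (hc : ClO c univ) {q : M} {z : E6} {r : ℝ} (hr : Metric.ball z r ⊆ (chartAt E6 q).target)
    {L : Set M} (hL : IsClosed L) (h0 : ∀ m ∉ L, β m = 0)
    (hs : L ⊆ (chartAt E6 q).symm '' Metric.ball z r) : J (rat η w b c) = 0 := by
  have hP := (par_chart (M := M) q).mono Metric.isOpen_ball hr
  have h1 : ∀ m ∉ L, w m = 0 := fun m hm => G3_uniq hL.isOpen_compl (hw.mono (subset_univ _))
    ((G2a_cl.1 ClO.zero).congr h0 fun _ _ => rfl) hm
  have h2 : tsupport (rat η w b c) ⊆ L := closure_minimal (fun m hm => by_contra fun h =>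
    hm (by rw [rat, pf_eq_zero (s := 0) (h1 m h), zero_div])) hL
  have h3 : L ⊆ (chartAt E6 q).source := fun m hm => by
    obtain ⟨y, hy, rfl⟩ := hs hm
    exact (chartAt E6 q).map_target (hr hy)
  have h4 := hw _ _ hP (mapsTo_univ _ _)
  have h5 := stokes_ball (hL.isCompact.image_of_continuousOn
    ((chartAt E6 q).continuousOn.mono h3)) (by
      rintro _ ⟨m, hm, rfl⟩
      obtain ⟨y, hy, rfl⟩ := hs hm
      rwa [(chartAt E6 q).right_inv (hr hy)]) h4.1
    (fun y hy h => (pl_congr' _ (h0 _ fun h' => h ⟨_, h', (chartAt E6 q).right_inv (hr hy)⟩)).trans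
      (congrFun (pl_zero _) y)) (hb _ _ hP (mapsTo_univ _ _)) (hc _ _ hP (mapsTo_univ _ _))
  have h6 := N7_pf' (hη _ _ hP (mapsTo_univ _ _))
  rw [hJ.loc _ _ hP ((chartAt E6 q).symm.injOn.mono hr) _ (cont_rat hη hn hw.cl.sm hb.sm hc.sm)
    (h2.trans hs)]
  rcases (convex_ball z r).isPreconnected.eq_or_eq_neg_of_sq_eq h6.abs h6 (fun y _ => sq_abs _)
    (fun hy => (N7_rat hn hP hy).1) with h | h
  · refine Eq.trans (MeasureTheory.setIntegral_congr_fun measurableSet_ball fun y hy => ?_) h5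
    have := h hy
    beta_reduce at this ⊢
    rw [this, (N7_rat hn hP hy).2, h4.2 y hy, div_mul_cancel₀ _ (N7_rat hn hP hy).1]
  · rw [← neg_eq_zero, ← MeasureTheory.integral_neg] at h5
    refine Eq.trans (MeasureTheory.setIntegral_congr_fun measurableSet_ball fun y hy => ?_) h5
    have := h hy
    rw [Pi.neg_apply] at this
    beta_reduce at this ⊢
    rw [this, (N7_rat hn hP hy).2, h4.2 y hy, mul_neg, div_mul_cancel₀ _ (N7_rat hn hP hy).1]

theorem Vol.stokes [T2Space M] [CompactSpace M] {J : (M → ℝ) → ℝ} (hJ : Vol η J) (hη : SmO η univ)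
    (hn : Form.Nondeg (E := E6) (M := M) η) (hw : ExO w univ) (hb : ClO b univ) (hc : ClO c univ) :
    J (rat η w b c) = 0 := by
  obtain ⟨β, hβ⟩ := hw
  choose r r0 hr using fun q : M => Metric.mem_nhds_iff.1 (chart_target_mem_nhds E6 q)
  obtain ⟨f, hf⟩ := SmoothPartitionOfUnity.exists_isSubordinate 𝓘(ℝ, E6) isClosed_univ
    (fun q : M => (chartAt E6 q).symm '' Metric.ball (chartAt E6 q q) (r q))
    (fun q => (par_chart q).isOpen_image Metric.isOpen_ball (hr q))
    fun q _ => mem_iUnion.2 ⟨q, _, Metric.mem_ball_self (r0 q),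
      (chartAt E6 q).left_inv (mem_chart_source E6 q)⟩
  have hfin := f.locallyFinite.finite_nonempty_of_compact
  have e : ∑ q ∈ hfin.toFinset, (fun m => f q m • β m) = β := by
    funext m
    rw [Finset.sum_apply, ← Finset.sum_smul, ← finsum_eq_sum_of_support_subset _
      fun p hp => Finset.mem_coe.2 (hfin.mem_toFinset.2 ⟨m, hp⟩), f.sum_eq_one (mem_univ m),
      one_smul]
  obtain ⟨w', h1, h2⟩ := Finset.sum_induction (s := hfin.toFinset) (fun q m => f q m • β m)
    (fun γ : Fo M 1 => ∃ w, IsDO γ w univ ∧ J (rat η w b c) = 0)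
    (fun _ _ ⟨w₁, a1, a2⟩ ⟨w₂, a3, a4⟩ => ⟨_, G2a_add a1 a3, by
      rw [N7_add, hJ.add _ _ (cont_rat hη hn a1.cl.sm hb.sm hc.sm)
        (cont_rat hη hn a3.cl.sm hb.sm hc.sm), a2, a4, add_zero]⟩)
    ⟨0, G2a_cl.1 ClO.zero, by
      have : rat η 0 b c = (0 : ℝ) • 0 := funext fun m => by
        rw [rat, pf_eq_zero (s := 0) rfl, zero_div, zero_smul, Pi.zero_apply]
      rw [this, hJ.smul, zero_mul]⟩
    fun q _ => by
      obtain ⟨w, h⟩ := exists_d isOpen_univ (G3_cut isOpen_univ isOpen_univ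
        (fun x _ => (f q).contMDiff x) (fun x _ h => (h trivial).elim) (hβ.sm.mono inter_subset_left))
      exact ⟨w, h, N7_loc hJ hη hn h hb hc (hr q) (isClosed_tsupport (f q))
        (fun m hm => by rw [image_eq_zero_of_notMem_tsupport hm, zero_smul]) (hf q)⟩
  rw [e] at h1
  rwa [show w = w' from funext fun m => G3_uniq isOpen_univ hβ h1 (mem_univ m)]

end Pool.Agent.Work.MP_bf98aa_gt.Cy
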