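import Pool.Agent.Work.MP_bf98aa_gt.Cy.Q10
import Pool.Agent.Work.MP_bf98aa_gt.Cy.G10b
import Pool.Agent.Work.MP_bf98aa_gt.Cy.G6

-- merged part: Pool.Agent.Work.MP_bf98aa_gt.Cy.Q11a
section
/-!
A smooth path of forms taming a continuous path of endomorphisms.

PLAN. `isOpen_tms`: compactness of the unit sphere (as `isOpen_tame` in `G10b`). `exists_bump_form`: `β' x = χ x • w x` where `pl ψ w = ` the constant form `pl ψ (fun _ => β) (chart m)` on the chart `ψ = (chartAt m).symm`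
(`desc` with one chart) and `χ` is a `SmoothBumpFunction` at `m` with small support (`G3_cut`, `SmO.of_loc`). `tame_box`: `(t, x) ↦ (psh (F i x) (w x), cj (F i x) (A t x))` is continuous at `(t₀, m)` within `Icc ×ˢ univ` (`Adm.form` needs a globally
continuous form: apply `exists_bump_form` first with `N = univ` and then shrink with a second bump, or argue in the chart), `Tms.push` with `(F i x).symm`. `homotopic_of_tame`: cover `Icc 0 1 ×ˢ univ` by finitely many sets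
`ball t₀ r ×ˢ {x | Tms (β x) (A t₀ x)}`-like boxes; `H' t = ∑ a, expNegInvGlue (r a ^ 2 - (t - t a) ^ 2) • β a` tames `A t`; `H t = a t • τ + c t • τ' + (t (1 - t)) • H' (s t)` with `s t = smoothTransition (3 t - 1)`,
`a t = smoothTransition (1 - 3 t)`, `c t = smoothTransition (3 t - 2)` tames `A (s t)` for `t ∈ Icc 0 1`; `(H t).loc p = pl (chartAt p).symm (H t)` by `rfl`, `pl_add`, `pl_smul`.
-/

set_option autoImplicit false

open scoped Manifold ContDiff Topology ComplexConjugate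
open Set Complex

namespace Pool.Agent.Work.MP_bf98aa_gt.Cy

open Pool.Agent.Work.MP_bf98aa_gt.Th

theorem Q11a_sph {β : Alt V3 2} {A : En} :
    Tms β A ↔ ∀ v ∈ Metric.sphere (0 : V3) 1, 0 < β ![v, A v] := by
  refine ⟨fun h v hv => h v fun e => by simp [e] at hv, fun h v hv => ?_⟩
  have hn : 0 < ‖v‖ := norm_pos_iff.2 hv
  have h1 := h (‖v‖⁻¹ • v) (by simp [norm_smul, hn.ne'])
  have h2 : (![‖v‖⁻¹ • v, A (‖v‖⁻¹ • v)] : Fin 2 → V3) = fun i => ‖v‖⁻¹ • ![v, A v] i := by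
    funext i
    fin_cases i <;> simp
  have h3 := β.toContinuousMultilinearMap.map_smul_univ (fun _ => ‖v‖⁻¹) ![v, A v]
  rw [h2] at h1
  have h4 : 0 < (∏ _i : Fin 2, ‖v‖⁻¹) * β ![v, A v] := h1.trans_eq h3
  exact (mul_pos_iff_of_pos_left (Finset.prod_pos fun _ _ => inv_pos.2 hn)).1 h4

theorem Q11a_pull {V W : Type} [NormedAddCommGroup V] [NormedSpace ℝ V] [NormedAddCommGroup W]
    [NormedSpace ℝ W] {β : Alt V 2} {A : V →L[ℝ] V} (g : V ≃L[ℝ] W)
    (h : Tms (psh g β) (cj g A)) : Tms β A := fun v hv => by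
  have h1 := h (g v) fun e => hv (g.injective (e.trans (map_zero g).symm))
  rw [cj_apply] at h1
  refine h1.trans_eq (Eq.trans (congrArg _ ?_) (psh_apply g β ![v, A v]))
  funext i
  fin_cases i <;> rfl

theorem isOpen_tms : IsOpen {p : Alt V3 2 × En | Tms p.1 p.2} := by
  refine isOpen_iff_mem_nhds.2 fun p hp => ?_
  have c3 : Continuous fun q : (Alt V3 2 × En) × V3 => q.1.1 ![q.2, q.1.2 q.2] := by
    refine continuous_iff_continuousAt.2 fun q => (ContDiffAt.alt_apply (n := 0)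
      (α := fun q : (Alt V3 2 × En) × V3 => q.1.1) (v := fun q => ![q.2, q.1.2 q.2])
      contDiffAt_fst.fst fun i => ?_).continuousAt
    fin_cases i
    · exact contDiffAt_snd
    · exact contDiffAt_fst.snd.clm_apply contDiffAt_snd
  have k := (isCompact_sphere (0 : V3) 1).eventually_forall_of_forall_eventually
    (x₀ := p) (P := fun (x : Alt V3 2 × En) (v : V3) => 0 < x.1 ![v, x.2 v])
    fun v hv => (isOpen_lt continuous_const c3).mem_nhds (Q11a_sph.1 hp v hv)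
  filter_upwards [k] with x hx
  exact Q11a_sph.2 hx

variable {M : Type} [TopologicalSpace M] [ChartedSpace E6 M] [IsManifold 𝓘(ℝ, E6) ∞ M] [T2Space M]
  [CompactSpace M]

omit [CompactSpace M] in
theorem Q11a_bump {m : M} {N : Set M} (hN : N ∈ 𝓝 m) : ∃ χ : M → ℝ,
    ContMDiff 𝓘(ℝ, E6) 𝓘(ℝ, ℝ) ∞ χ ∧ (∀ x, 0 ≤ χ x) ∧ χ m = 1 ∧ tsupport χ ⊆ N := by
  obtain ⟨f, -, hf⟩ := (SmoothBumpFunction.nhds_basis_tsupport (I := 𝓘(ℝ, E6)) m).mem_iff.1 hN
  exact ⟨f, f.contMDiff, fun _ => f.nonneg, f.eq_one, hf⟩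

theorem exists_bump_form (m : M) (β : Alt E6 2) : ∃ w : Fo M 2, SmO w univ ∧ w m = β := by
  have hP := par_chart m
  obtain ⟨w, hw⟩ := desc (ι := Unit) (q := fun _ => (chartAt E6 m).symm)
    (W := fun _ => (chartAt E6 m).target) (fun _ => hP)
    (fun _ _ => pl (chartAt E6 m).symm (fun _ => β) (chartAt E6 m m)) fun _ _ x hx y hy e => by
      refine ⟨id, ⟨contDiffAt_id, .of_forall fun _ => rfl⟩, (chartAt E6 m).symm.injOn hx hy e, ?_⟩
      ext v
      simp [pb]
  have h1 : w m = β := by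
    have := fo_ext (w := w) (w' := fun _ => β) hP (mem_chart_target E6 m)
      (hw () _ (mem_chart_target E6 m))
    rwa [(chartAt E6 m).left_inv (mem_chart_source E6 m)] at this
  have h2 : SmO w (univ ∩ (chartAt E6 m).source) := SmO.of_loc fun x hx =>
    ⟨_, _, chartAt E6 m x, hP, (chartAt E6 m).map_source hx.2, (chartAt E6 m).left_inv hx.2,
      contDiffAt_const.congr_of_eventuallyEq (Filter.mem_of_superset
        (hP.opn.mem_nhds ((chartAt E6 m).map_source hx.2)) (hw ()))⟩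
  obtain ⟨χ, k1, -, k3, k4⟩ := Q11a_bump (chart_source_mem_nhds E6 m)
  refine ⟨fun x => χ x • w x, G3_cut isOpen_univ (chartAt E6 m).open_source (fun x _ => k1 x)
    (fun x _ hx => notMem_tsupport_iff_eventuallyEq.1 fun h => hx (k4 h)) h2, ?_⟩
  simp only [k3, h1, one_smul]

theorem exists_cut {w : Fo M 2} (hw : SmO w univ) {m : M} {N : Set M} (hN : N ∈ 𝓝 m) :
    ∃ χ : M → ℝ, Continuous χ ∧ (∀ x, 0 ≤ χ x) ∧ 0 < χ m ∧ (∀ x, x ∉ N → χ x = 0) ∧
      SmO (fun x => χ x • w x) univ := by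
  obtain ⟨χ, k1, k2, k3, k4⟩ := Q11a_bump hN
  refine ⟨χ, k1.continuous, k2, by rw [k3]; exact one_pos,
    fun x hx => image_eq_zero_of_notMem_tsupport fun h => hx (k4 h), ?_⟩
  exact G3_cut isOpen_univ isOpen_univ (fun x _ => k1 x) (fun x _ hx => absurd (mem_univ x) hx)
    (hw.mono inter_subset_left)

variable {ι : Type} {O : ι → Set M} {F : ι → M → E6 ≃L[ℝ] V3} {A : ℝ → M → E6 →L[ℝ] E6}

theorem tame_box (hO : ∀ i, IsOpen (O i)) (hc : ∀ x, ∃ i, x ∈ O i) (hF : ∀ i, Adm (F i) (O i))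
    (hA : ∀ i, ContinuousOn (fun z : ℝ × M => cj (F i z.2) (A z.1 z.2)) (univ ×ˢ O i)) {t₀ : ℝ}
    {m : M} (ht : ∃ β, Tms β (A t₀ m)) : ∃ (w : Fo M 2) (χ : M → ℝ) (r : ℝ), 0 < r ∧ Continuous χ ∧
      (∀ x, 0 ≤ χ x) ∧ 0 < χ m ∧ SmO (fun x => χ x • w x) univ ∧
      ∀ t x, |t - t₀| < r → χ x ≠ 0 → Tms (w x) (A t x) := by
  obtain ⟨β, hβ⟩ := ht
  obtain ⟨w, hw, rfl⟩ := exists_bump_form m β
  obtain ⟨i, hi⟩ := hc m
  have c0 : Cont (E := E6) (M := M) w := fun p =>
    (hw _ _ (par_chart p) (mapsTo_univ _ _)).continuousOn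
  have c1 : ContinuousAt (fun z : ℝ × M => psh (F i z.2) (w z.2)) (t₀, m) :=
    ContinuousAt.comp (g := fun x => psh (F i x) (w x))
      (((hF i).form (hO i) c0).continuousAt ((hO i).mem_nhds hi)) continuous_snd.continuousAt
  have c2 : ContinuousAt (fun z : ℝ × M => cj (F i z.2) (A z.1 z.2)) (t₀, m) :=
    (hA i).continuousAt ((isOpen_univ.prod (hO i)).mem_nhds ⟨mem_univ _, hi⟩)
  have c3 := (c1.prodMk c2).eventually (isOpen_tms.mem_nhds (hβ.push (F i m)))
  obtain ⟨T, hT, N, hN, hTN⟩ := mem_nhds_prod_iff.1 c3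
  obtain ⟨r, hr, hb⟩ := Metric.mem_nhds_iff.1 hT
  obtain ⟨χ, k1, k2, k3, k4, k5⟩ := exists_cut hw hN
  refine ⟨w, χ, r, hr, k1, k2, k3, k5, fun t x h1 h2 => Q11a_pull (F i x) ?_⟩
  exact hTN (a := (t, x)) ⟨hb (by rwa [Metric.mem_ball, Real.dist_eq]),
    by_contra fun h => h2 (k4 x h)⟩

end Pool.Agent.Work.MP_bf98aa_gt.Cy
end

-- merged part: Pool.Agent.Work.MP_bf98aa_gt.Cy.Q11
section
/-!
A smooth path of forms taming a continuous path of endomorphisms.

PLAN. `isOpen_tms`: compactness of the unit sphere (as `isOpen_tame` in `G10b`). `exists_bump_form`: `β' x = χ x • w x` where `pl ψ w = ` the constant form `pl ψ (fun _ => β) (chart m)` on the chart `ψ = (chartAt m).symm`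
(`desc` with one chart) and `χ` is a `SmoothBumpFunction` at `m` with small support (`G3_cut`, `SmO.of_loc`). `tame_box`: `(t, x) ↦ (psh (F i x) (w x), cj (F i x) (A t x))` is continuous at `(t₀, m)` within `Icc ×ˢ univ` (`Adm.form` needs a globally
continuous form: apply `exists_bump_form` first with `N = univ` and then shrink with a second bump, or argue in the chart), `Tms.push` with `(F i x).symm`. `homotopic_of_tame`: cover `Icc 0 1 ×ˢ univ` by finitely many sets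
`ball t₀ r ×ˢ {x | Tms (β x) (A t₀ x)}`-like boxes; `H' t = ∑ a, expNegInvGlue (r a ^ 2 - (t - t a) ^ 2) • β a` tames `A t`; `H t = a t • τ + c t • τ' + (t (1 - t)) • H' (s t)` with `s t = smoothTransition (3 t - 1)`,
`a t = smoothTransition (1 - 3 t)`, `c t = smoothTransition (3 t - 2)` tames `A (s t)` for `t ∈ Icc 0 1`; `(H t).loc p = pl (chartAt p).symm (H t)` by `rfl`, `pl_add`, `pl_smul`.
-/

set_option autoImplicit false

open scoped Manifold ContDiff Topology ComplexConjugate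
open Set Complex

namespace Pool.Agent.Work.MP_bf98aa_gt.Cy

open Pool.Agent.Work.MP_bf98aa_gt.Th

variable {M : Type} [TopologicalSpace M] [ChartedSpace E6 M] [IsManifold 𝓘(ℝ, E6) ∞ M] [T2Space M]
  [CompactSpace M] {ι : Type} {O : ι → Set M} {F : ι → M → E6 ≃L[ℝ] V3} {A : ℝ → M → E6 →L[ℝ] E6}

/-- Jointly smooth in the charts. -/
def Q11_J (H : ℝ → Fo M 2) : Prop := ∀ p : M, ContDiffOn ℝ ∞
  (fun z : ℝ × E6 => pl (chartAt E6 p).symm (H z.1) z.2) (univ ×ˢ (chartAt E6 p).target)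

omit [T2Space M] [CompactSpace M] in
theorem Q11_smul {g : ℝ → ℝ} (hg : ContDiff ℝ ∞ g) {β : Fo M 2} (hβ : SmO β univ) :
    Q11_J fun t => g t • β := fun p => by
  simp only [pl_smul]
  exact (hg.comp contDiff_fst).contDiffOn.smul
    ((hβ _ _ (par_chart p) (mapsTo_univ _ _)).comp contDiffOn_snd fun z hz => hz.2)

omit [T2Space M] [CompactSpace M] in
theorem Q11_add {H H' : ℝ → Fo M 2} (h : Q11_J H) (h' : Q11_J H') :
    Q11_J fun t => H t + H' t := fun p => by
  exact ((h p).add (h' p)).congr fun z _ => congrFun (pl_add _ _ _) _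

omit [T2Space M] [CompactSpace M] in
theorem Q11_sum {κ : Type} (s : Finset κ) {H : κ → ℝ → Fo M 2} (h : ∀ a ∈ s, Q11_J (H a)) :
    Q11_J fun t => ∑ a ∈ s, H a t := by
  classical
  induction s using Finset.induction_on with
  | empty =>
    exact fun p => (contDiffOn_const (c := 0)).congr fun z _ => congrFun (pl_zero _) _
  | insert a s ha ih =>
    simp only [Finset.sum_insert ha]
    exact Q11_add (h a (Finset.mem_insert_self _ _))
      (ih fun b hb => h b (Finset.mem_insert_of_mem hb))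

theorem Q11_path (hO : ∀ i, IsOpen (O i)) (hc : ∀ x, ∃ i, x ∈ O i) (hF : ∀ i, Adm (F i) (O i))
    (hA : ∀ i, ContinuousOn (fun z : ℝ × M => cj (F i z.2) (A z.1 z.2)) (univ ×ˢ O i))
    (ht : ∀ t ∈ Icc (0 : ℝ) 1, ∀ x, ∃ β, Tms β (A t x)) :
    ∃ (s : Finset (ℝ × M)) (b : ℝ × M → ℝ → ℝ) (β : ℝ × M → Fo M 2), (∀ a, ContDiff ℝ ∞ (b a)) ∧
      (∀ a ∈ s, SmO (β a) univ) ∧
      ∀ t ∈ Icc (0 : ℝ) 1, ∀ x, Tms ((∑ a ∈ s, b a t • β a) x) (A t x) := by
  have K : IsCompact (Icc (0 : ℝ) 1 ×ˢ (univ : Set M)) := isCompact_Icc.prod isCompact_univ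
  choose! w χ r hr h1 h2 h3 h4 h5 using fun (z : ℝ × M) (hz : z ∈ Icc (0 : ℝ) 1 ×ˢ (univ : Set M)) =>
    tame_box hO hc hF hA (ht z.1 hz.1 z.2)
  obtain ⟨s, hs, hcov⟩ := K.elim_nhds_subcover (fun a => {z | |z.1 - a.1| < r a ∧ 0 < χ a z.2})
    fun a ha => ((isOpen_lt (f := fun z : ℝ × M => |z.1 - a.1|) (by fun_prop) continuous_const).inter
      (isOpen_lt continuous_const ((h1 a ha).comp continuous_snd))).mem_nhds
        ⟨by simpa using hr a ha, h3 a ha⟩
  refine ⟨s, fun a t => expNegInvGlue (r a ^ 2 - (t - a.1) ^ 2), fun a x => χ a x • w a x,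
    fun a => expNegInvGlue.contDiff.comp (by fun_prop), fun a ha => h4 a (hs a ha),
    fun t ht x v hv => ?_⟩
  obtain ⟨a, ha, k1, k2⟩ := mem_iUnion₂.1 (hcov (⟨ht, trivial⟩ : (t, x) ∈ _ ×ˢ univ))
  simp only [Finset.sum_apply, ContinuousAlternatingMap.sum_apply, Pi.smul_apply,
    ContinuousAlternatingMap.smul_apply, smul_eq_mul]
  refine Finset.sum_pos' (fun c hc => ?_) ⟨a, ha, mul_pos (expNegInvGlue.pos_of_pos (sub_pos.2
    (sq_lt_sq.2 (k1.trans_le (le_abs_self _))))) (mul_pos k2 (h5 a (hs a ha) t x k1 k2.ne' v hv))⟩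
  by_cases e : |t - c.1| < r c
  · by_cases e' : χ c x = 0
    · simp [e']
    · exact mul_nonneg (expNegInvGlue.nonneg _)
        (mul_nonneg (h2 c (hs c hc) x) (h5 c (hs c hc) t x e e' v hv).le)
  · rw [expNegInvGlue.zero_of_nonpos (sub_nonpos.2 (sq_le_sq.2
      ((abs_of_pos (hr c (hs c hc))).trans_le (not_lt.1 e)))), zero_mul]

theorem homotopic_of_tame (hO : ∀ i, IsOpen (O i)) (hc : ∀ x, ∃ i, x ∈ O i)
    (hF : ∀ i, Adm (F i) (O i))
    (hA : ∀ i, ContinuousOn (fun z : ℝ × M => cj (F i z.2) (A z.1 z.2)) (univ ×ˢ O i))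
    (ht : ∀ t ∈ Icc (0 : ℝ) 1, ∀ x, ∃ β, Tms β (A t x)) {τ τ' : Fo M 2} (hτ : SmO τ univ)
    (hτ' : SmO τ' univ) (h0 : ∀ x, Tms (τ x) (A 0 x)) (h1 : ∀ x, Tms (τ' x) (A 1 x)) :
    Homotopic (E := E6) (M := M) τ τ' := by
  obtain ⟨s, b, β, hb, hβ, hT⟩ := Q11_path hO hc hF hA ht
  have st : ∀ {f : ℝ → ℝ}, ContDiff ℝ ∞ f → ContDiff ℝ ∞ fun t => Real.smoothTransition (f t) :=
    fun hf => Real.smoothTransition.contDiff.comp hf
  let H : ℝ → Fo M 2 := fun t => Real.smoothTransition (1 - 3 * t) • τ +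
    Real.smoothTransition (3 * t - 2) • τ' +
    ∑ a ∈ s, (t * (1 - t) * b a (Real.smoothTransition (3 * t - 1))) • β a
  have e0 : H 0 = τ := by
    simp [H, Real.smoothTransition.zero_of_nonpos]
  have e1 : H 1 = τ' := by
    norm_num [H, Real.smoothTransition.zero_of_nonpos]
  have hJ : Q11_J H := Q11_add (Q11_add (Q11_smul (st (by fun_prop)) hτ)
    (Q11_smul (st (by fun_prop)) hτ')) (Q11_sum s fun a ha => Q11_smul
      ((contDiff_id.mul (contDiff_const.sub contDiff_id)).mul ((hb a).comp (st (by fun_prop))))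
      (hβ a ha))
  have key : ∀ t ∈ Icc (0 : ℝ) 1, ∀ x, ∃ B, Tms (H t x) B := fun t ht x => by
    rcases ht.1.eq_or_lt with rfl | k0
    · exact ⟨_, e0 ▸ h0 x⟩
    rcases ht.2.eq_or_lt with rfl | k1
    · exact ⟨_, e1 ▸ h1 x⟩
    refine ⟨A (Real.smoothTransition (3 * t - 1)) x, fun v hv => ?_⟩
    have k := mul_pos (mul_pos k0 (sub_pos.2 k1)) (hT _ ⟨Real.smoothTransition.nonneg (3 * t - 1),
      Real.smoothTransition.le_one _⟩ x v hv)
    simp only [H, Finset.sum_apply, ContinuousAlternatingMap.sum_apply, Pi.smul_apply,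
      Pi.add_apply, ContinuousAlternatingMap.add_apply, ContinuousAlternatingMap.smul_apply,
      smul_eq_mul, Finset.mul_sum, mul_assoc] at k ⊢
    refine add_pos_of_nonneg_of_pos (add_nonneg ?_ ?_) k
    · rcases le_total (1 - 3 * t) 0 with e | e
      · rw [Real.smoothTransition.zero_of_nonpos e, zero_mul]
      · rw [Real.smoothTransition.zero_of_nonpos (x := 3 * t - 1) (by linarith)]
        exact mul_nonneg (Real.smoothTransition.nonneg _) (h0 x v hv).le
    · rcases le_total (3 * t - 2) 0 with e | e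
      · rw [Real.smoothTransition.zero_of_nonpos e, zero_mul]
      · rw [Real.smoothTransition.one_of_one_le (x := 3 * t - 1) (by linarith)]
        exact mul_nonneg (Real.smoothTransition.nonneg _) (h1 x v hv).le
  refine ⟨H, e0, e1, fun t ht x u hu => by_contra fun k => ?_, hJ⟩
  obtain ⟨B, hB⟩ := key t ht x
  exact (hB u k).ne' (hu (B u))

end Pool.Agent.Work.MP_bf98aa_gt.Cy
end
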