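import Pool.Agent.Work.MP_bf98aa_gt.Cy.G10b

/-!
General position: a section of a bundle of rank 7 over a 6-manifold can be moved off the zero section.

PLAN. `gp_chart`: Tietze (`ContinuousMap.exists_restrict_eq` on the closed set `K`), `Continuous.exists_contDiff_approx`, `ContDiff.dense_compl_range_of_finrank_lt_finrank`, `p = p₀ - c`.
`gp_loc`: take `i` with `x₀ ∈ O i`, compact neighbourhoods `K ⊆ interior K'`, `K' ⊆ O i ∩ source`, `χ` continuous, `0 ≤ χ ≤ 1`, `1` on `K`, `tsupport χ ⊆ interior K'` (`exists_continuousMap_one_of_isCompact_subset_isOpen` or `exists_tsupport_one_of_isOpen_isClosed`). With `f = ((s x).1.im, g i x (s x).2)`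
and `d x = p (chart x) - f x` put `s' x = s x + χ x • (i (d x).1, (g i x).symm (d x).2)`; `cs_of_loc` (off `tsupport χ` one has `s' = s` locally); `SUn.nS`, `nS_bound`. `gp`: `nI (s x)` and `nS (s x)` are continuous on `X`; induction
`IsCompact.induction_on` for the property of `gp_loc` (use `√ nS`, or `nS (a + b) ≤ 2 nS a + 2 nS b`, `nI b ≤ 2 nI a + 2 nS (a - b)`); finally `δ = min nS Ψ / 2` (the space may be empty). `spath`: `ψ t x = max (1 - 2 t) 0 • Ψ x + (1 - |2 t - 1|) • s x + max (2 t - 1) 0 • (1, 0)` (`act_add`, `act_smul`, `act_one`); for `t ≤ 1/2` it is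
`Ψ x + 2 t • (s x - Ψ x)` (`nS_smul`), for `1/2 ≤ t < 1` its `nI` is `(2 - 2 t) ^ 2 * nI (s x)`.
-/

set_option autoImplicit false

open scoped Manifold ContDiff Topology ComplexConjugate
open Set Complex

namespace Pool.Agent.Work.MP_bf98aa_gt.Cy

open Pool.Agent.Work.MP_bf98aa_gt.Th

theorem Q7_ip (u v : V3) : ip (u + v) (u + v) ≤ 2 * ip u u + 2 * ip v v := by
  have h : ip (u + v) (u + v) = 2 * ip u u + 2 * ip v v - ip (u - v) (u - v) := by
    simp only [ip, herm, Pi.add_apply, Pi.sub_apply, add_re, mul_re, conj_re, conj_im, add_im,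
      sub_re, sub_im]
    ring
  linarith [ip_nonneg (u - v)]

theorem Q7_add (a b : Spn) : nS (a + b) ≤ 2 * nS a + 2 * nS b := by
  have h := Q7_ip a.2 b.2
  simp only [nS_eq, normSq_apply, Prod.fst_add, Prod.snd_add, add_re, add_im]
  nlinarith [sq_nonneg (a.1.re - b.1.re), sq_nonneg (a.1.im - b.1.im)]

theorem Q7_nI (a b : Spn) : nI (a + b) ≤ 2 * nI a + 2 * nS b := by
  have h := Q7_ip a.2 b.2
  simp only [nI, nS_eq, normSq_apply, Prod.fst_add, Prod.snd_add, add_im]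
  nlinarith [sq_nonneg b.1.re, sq_nonneg (a.1.im - b.1.im)]

theorem Q7_neg (a b : Spn) : nS (a - b) = nS (b - a) := by
  rw [← neg_sub b a, ← neg_one_smul ℝ (b - a), nS_smul]
  ring

variable {X ι : Type} [TopologicalSpace X] [CompactSpace X] [T2Space X] [ChartedSpace E6 X]
  {B : Bdl X ι}

theorem Bdl.Ok.gp (h : B.Ok) {Ψ : X → Spn} (hΨ : B.CS Ψ) (h0 : ∀ x, Ψ x ≠ 0) :
    ∃ s, B.CS s ∧ (∀ x, nS (s x - Ψ x) < nS (Ψ x)) ∧ ∀ x, 0 < nI (s x) := by
  have key : ∀ s, B.CS s → ∀ δ : ℝ, 0 < δ → ∃ s', B.CS s' ∧ (∀ x, nS (s' x - s x) ≤ δ) ∧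
      ∃ η : ℝ, 0 < η ∧ ∀ x ∈ (univ : Set X), η ≤ nI (s' x) := by
    refine isCompact_univ.induction_on (p := fun K => ∀ s, B.CS s → ∀ δ : ℝ, 0 < δ →
      ∃ s', B.CS s' ∧ (∀ x, nS (s' x - s x) ≤ δ) ∧ ∃ η : ℝ, 0 < η ∧ ∀ x ∈ K, η ≤ nI (s' x))
      ?_ ?_ ?_ ?_
    · refine fun s hs δ hδ => ⟨s, hs, fun x => ?_, 1, one_pos, fun x hx => hx.elim⟩
      rw [sub_self, ← zero_smul ℝ (0 : Spn), nS_smul]
      simpa using hδ.le
    · intro K K' hK h' s hs δ hδ
      obtain ⟨s', h1, h2, η, h3, h4⟩ := h' s hs δ hδ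
      exact ⟨s', h1, h2, η, h3, fun x hx => h4 x (hK hx)⟩
    · intro K K' hK hK' s hs δ hδ
      obtain ⟨s₁, a1, a2, η₁, a3, a4⟩ := hK s hs (δ / 4) (by positivity)
      obtain ⟨s₂, b1, b2, η₂, b3, b4⟩ := hK' s₁ a1 (min (δ / 4) (η₁ / 4)) (by positivity)
      refine ⟨s₂, b1, fun x => ?_, min (η₁ / 4) η₂, by positivity, ?_⟩
      · have h1 := Q7_add (s₂ x - s₁ x) (s₁ x - s x)
        rw [sub_add_sub_cancel] at h1
        linarith [a2 x, (b2 x).trans (min_le_left _ _)]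
      · rintro x (hx | hx)
        · have h1 := Q7_nI (s₂ x) (s₁ x - s₂ x)
          rw [add_sub_cancel, Q7_neg] at h1
          linarith [a4 x hx, (b2 x).trans (min_le_right _ _), min_le_left (η₁ / 4) η₂]
        · exact (min_le_right _ _).trans (b4 x hx)
    · intro x _
      rw [nhdsWithin_univ]
      exact h.gp_loc x
  have hc : Continuous fun x => nS (Ψ x) := continuous_iff_continuousAt.2 fun x => by
    obtain ⟨i, hi⟩ := h.cov x
    have hn := (h.opn i).mem_nhds hi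
    exact (cont_nS.continuousAt.comp ((hΨ i).continuousAt hn)).congr
      (Filter.mem_of_superset hn fun y hy => (h.su i y hy).nS _)
  obtain ⟨δ, h1, h2⟩ := isCompact_univ.exists_forall_le' hc.continuousOn fun x _ => nS_pos (h0 x)
  obtain ⟨s, h3, h4, η, h5, h6⟩ := key Ψ hΨ (δ / 2) (by positivity)
  exact ⟨s, h3, fun x => by linarith [h4 x, h2 x trivial], fun x => h5.trans_le (h6 x trivial)⟩

theorem Bdl.Ok.spath (h : B.Ok) {Ψ : X → Spn} (hΨ : B.CS Ψ) (h0 : ∀ x, Ψ x ≠ 0) :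
    ∃ ψ : ℝ → X → Spn, ψ 0 = Ψ ∧ (∀ x, ψ 1 x = (1, 0)) ∧ (∀ t ∈ Icc (0 : ℝ) 1, ∀ x, ψ t x ≠ 0) ∧
      ∀ i, ContinuousOn (fun z : ℝ × X => act (B.g i z.2) (ψ z.1 z.2)) (univ ×ˢ B.O i) := by
  obtain ⟨s, h1, h2, h3⟩ := h.gp hΨ h0
  refine ⟨fun t x => max (1 - 2 * t) 0 • Ψ x + (1 - |2 * t - 1|) • s x +
    max (2 * t - 1) 0 • ((1, 0) : Spn), funext fun x => ?_, fun x => ?_, fun t ht x he => ?_,
    fun i => ?_⟩
  · norm_num
  · norm_num
  · beta_reduce at he
    rcases le_total t (1 / 2) with h4 | h4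
    · rw [max_eq_left (a := 1 - 2 * t) (by linarith), max_eq_right (a := 2 * t - 1) (by linarith),
        abs_of_nonpos (a := 2 * t - 1) (by linarith), zero_smul, add_zero] at he
      have h5 : Ψ x = (-(2 * t)) • (s x - Ψ x) := by
        rw [← sub_eq_zero, ← he]
        module
      have h6 := nS_smul (-(2 * t)) (s x - Ψ x)
      rw [← h5] at h6
      have h7 : 0 ≤ nS (s x - Ψ x) := (sq_nonneg _).trans (nS_bound _).1
      have h8 : (-(2 * t)) ^ 2 ≤ 1 := by nlinarith [ht.1]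
      nlinarith [h2 x]
    · rw [max_eq_right (a := 1 - 2 * t) (by linarith), max_eq_left (a := 2 * t - 1) (by linarith),
        abs_of_nonneg (a := 2 * t - 1) (by linarith), zero_smul, zero_add] at he
      have h5 := congrArg (fun a : Spn => a.1.im) he
      have h6 := congrArg (fun a : Spn => a.1.re) he
      have h7 := congrArg Prod.snd he
      simp only [Prod.fst_add, Prod.snd_add, Prod.smul_fst, Prod.smul_snd, add_im, add_re, smul_im,
        smul_re, one_im, one_re, smul_eq_mul, mul_zero, add_zero, smul_zero, Prod.fst_zero,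
        Prod.snd_zero, zero_im, zero_re, mul_one] at h5 h6 h7
      by_cases h8 : 1 - (2 * t - 1) = 0
      · rw [h8] at h6
        linarith
      · have h9 := h3 x
        rw [nI, (mul_eq_zero.1 h5).resolve_left h8, (smul_eq_zero.1 h7).resolve_left h8] at h9
        simp [ip, herm] at h9
  · simp only [act_add, act_smul, act_one]
    have a1 : ContinuousOn (fun z : ℝ × X => act (B.g i z.2) (Ψ z.2)) (univ ×ˢ B.O i) :=
      (hΨ i).comp continuous_snd.continuousOn fun z hz => hz.2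
    have a2 : ContinuousOn (fun z : ℝ × X => act (B.g i z.2) (s z.2)) (univ ×ˢ B.O i) :=
      (h1 i).comp continuous_snd.continuousOn fun z hz => hz.2
    fun_prop

end Pool.Agent.Work.MP_bf98aa_gt.Cy
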