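import Pool.Agent.Work.MP_bf98aa_gt.B3.DAl
import Pool.Agent.Work.MP_bf98aa_gt.B3.G1
import Pool.Agent.Work.MP_bf98aa_gt.B3.D2
import Pool.Agent.Work.MP_bf98aa_gt.Cy.G10b
import Pool.Agent.Work.MP_bf98aa_gt.Cy.Q7

-- merged part: Pool.Agent.Work.MP_bf98aa_gt.B3.D1
section
/-!
The cut-off function and the gauge function.
PLAN. `exists_eta`: `st = Real.smoothTransition`, `|deriv st| ≤ K` on `[0, 1]` (compactness) and `deriv st = 0` outside; `η r = 1 - st ((r - M₁) / L)`, `L = 2 K + 1`, `M₂ = M₁ + L`.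
`exists_gauge`: `nu p = st (4 p) - st (-4 p)` (odd, `± 1` for `± p ≥ 1 / 4`, sign of `p`), `chi p = 1 - st (8 p - 1) - st (-8 p - 1)` (even, in `[0, 1]`, `1` for `|p| ≤ 1 / 8`, `0` for `|p| ≥ 1 / 4`),
`Gc c = st (2 c) - st (-2 c)` (odd, `1` for `c ≥ 1 / 2`), `Fs s = (1 - chi s) * s + chi s * arcsin s / π` (odd, smooth since `chi` vanishes near `|s| ≥ 1 / 2` and `Real.contDiffAt_arcsin`; `0 < s * Fs s` for `s ≠ 0`),
`g0 (p, q) = ⟨(1 - chi p) * nu p * cos (π q) + chi p * σ * p * Gc (cos (π q)), (1 - chi p) * sin (π q) + chi p * Fs (sin (π q)) / σ⟩`, `g (p, q) = ee (m / 2 + m q) * g0 (p - m, q)`, `m = round p`.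
Key step: `g (p, q) = ee (m / 2 + m q) * g0 (p - m, q)` for every integer `m` with `|p - m| ≤ 3 / 4` (for `1 / 4 ≤ p`, `g0 = ee (q / 2)`; for `p ≤ -1 / 4`, `g0 = -ee (-q / 2)`); it gives smoothness, `odd` (use `-m`), `per`
(`Real.cos_add_int_mul_pi`, `Real.sin_add_int_mul_pi`, parity of `n`), `far`, `near`. Zeros: the imaginary part of `g0` has the sign of `sin (π q)`; for `q = n` the real part is `± ((1 - chi p) nu p + chi p σ p)`.
As built: `nu = Gc = Cy.nu`, `chi p = st (2 - 32 p ^ 2)`, `Fs s = arcsin (4 / 5 * nu (5 / 4 * s)) / π`, real part `nu p * ((1 - chi p) cos + chi p σ nu cos)`.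
-/

set_option autoImplicit false

open scoped ContDiff Matrix
open Set Complex

namespace Pool.Agent.Work.MP_bf98aa_gt.B3

theorem D1_deriv : ∃ K, 0 ≤ K ∧ ∀ x, deriv Real.smoothTransition x ≤ K := by
  have hs : ContDiff ℝ 1 Real.smoothTransition := Real.smoothTransition.contDiff
  obtain ⟨K, hK⟩ := (isCompact_Icc (a := (0 : ℝ)) (b := 1)).bddAbove_image
    (hs.continuous_deriv le_rfl).continuousOn
  refine ⟨max K 0, le_max_right _ _, fun x => ?_⟩
  rcases le_total x 0 with h | h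
  · refine (IsLocalMin.deriv_eq_zero (Filter.Eventually.of_forall fun y => ?_)).trans_le
      (le_max_right _ _)
    rw [Real.smoothTransition.zero_of_nonpos h]
    exact Real.smoothTransition.nonneg y
  rcases le_total 1 x with h' | h'
  · refine (IsLocalMax.deriv_eq_zero (Filter.Eventually.of_forall fun y => ?_)).trans_le
      (le_max_right _ _)
    rw [Real.smoothTransition.one_of_one_le h']
    exact Real.smoothTransition.le_one y
  · exact (hK (mem_image_of_mem _ ⟨h, h'⟩)).trans (le_max_left _ _)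

theorem exists_eta (M₁ : ℝ) (h : 1 ≤ M₁) : ∃ (η : ℝ → ℝ) (M₂ : ℝ), EtaOk η M₁ M₂ := by
  have hs : ContDiff ℝ ∞ Real.smoothTransition := Real.smoothTransition.contDiff
  obtain ⟨K, hK0, hK⟩ := D1_deriv
  have hL : 0 < 2 * K + 1 := by positivity
  refine ⟨fun r => 1 - Real.smoothTransition ((r - M₁) / (2 * K + 1)), M₁ + (2 * K + 1),
    contDiff_const.sub (hs.comp (by fun_prop)), fun r hr => ?_, fun r hr => ?_, fun r =>
    ⟨sub_nonneg.2 (Real.smoothTransition.le_one _), sub_le_self _ (Real.smoothTransition.nonneg _)⟩,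
    fun r => ?_, h⟩
  · rw [Real.smoothTransition.zero_of_nonpos (div_nonpos_of_nonpos_of_nonneg (by linarith only [hr]) hL.le),
      sub_zero]
  · rw [Real.smoothTransition.one_of_one_le ((one_le_div hL).2 (by linarith)), sub_self]
  · have h1 : HasDerivAt (fun r : ℝ => (r - M₁) / (2 * K + 1)) (1 / (2 * K + 1)) r :=
      ((hasDerivAt_id r).sub_const M₁).div_const _
    have h2 := ((hs.differentiable (by simp) _).hasDerivAt.comp r h1).const_sub 1
    have h3 : deriv (fun r => 1 - Real.smoothTransition ((r - M₁) / (2 * K + 1))) r = _ := h2.deriv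
    rw [h3, mul_one_div, neg_div, neg_le_neg_iff, div_le_iff₀ hL]
    linarith only [hK, hK ((r - M₁) / (2 * K + 1))]

theorem D1_nu_neg (p : ℝ) : Cy.nu (-p) = -Cy.nu p := by
  rw [Cy.nu, Cy.nu, show 8 * -p - 1 = -8 * p - 1 by ring, show -8 * -p - 1 = 8 * p - 1 by ring]
  ring

theorem D1_nu_pos {p : ℝ} (h : 0 < p) : 0 < Cy.nu p ∧ Cy.nu p ≤ 1 := by
  rcases le_total p 1 with h1 | h1
  · rw [Cy.nu, Real.smoothTransition.zero_of_nonpos (x := -8 * p - 1) (by linarith only [h])]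
    have h2 := mul_nonneg (sub_nonneg.2 h1) (Real.smoothTransition.nonneg (8 * p - 1))
    have h3 := mul_le_of_le_one_right (sub_nonneg.2 h1) (Real.smoothTransition.le_one (8 * p - 1))
    constructor <;> linarith only [h, h2, h3]
  · rw [Cy.nu_one (by linarith only [h, h1])]
    exact ⟨one_pos, le_rfl⟩

theorem D1_nu_abs (p : ℝ) : |Cy.nu p| ≤ 1 := by
  rcases lt_trichotomy p 0 with h | rfl | h
  · have := D1_nu_pos (neg_pos.2 h)
    rw [D1_nu_neg] at this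
    exact abs_le.2 ⟨by linarith, by linarith⟩
  · rw [Cy.nu_eq (by norm_num)]
    norm_num
  · have := D1_nu_pos h
    exact abs_le.2 ⟨by linarith, by linarith⟩

/-- A cut-off function. -/
noncomputable def D1_chi (p : ℝ) : ℝ := Real.smoothTransition (2 - 32 * p ^ 2)

/-- A smooth odd function, equal to `arcsin` near `0`. -/
noncomputable def D1_as (s : ℝ) : ℝ := Real.arcsin (4 / 5 * Cy.nu (5 / 4 * s))

/-- Real part of the gauge function, up to the factor `nu p`. -/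
noncomputable def D1_re (σ p c : ℝ) : ℝ := (1 - D1_chi p) * c + D1_chi p * (σ * Cy.nu c)

/-- Imaginary part of the gauge function. -/
noncomputable def D1_im (σ p s : ℝ) : ℝ :=
  (1 - D1_chi p) * s + D1_chi p * (D1_as s / Real.pi / σ)

/-- The gauge function on a strip. -/
noncomputable def D1_g0 (σ p q : ℝ) : ℂ :=
  ⟨Cy.nu p * D1_re σ p (Real.cos (Real.pi * q)), D1_im σ p (Real.sin (Real.pi * q))⟩

/-- The gauge function. -/
noncomputable def D1_g (σ : ℝ) (z : ℝ × ℝ) : ℂ :=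
  Cy.ee (round z.1 / 2 + round z.1 * z.2) * D1_g0 σ (z.1 - round z.1) z.2

theorem D1_chi_neg (p : ℝ) : D1_chi (-p) = D1_chi p := by
  rw [D1_chi, D1_chi, neg_sq]

theorem D1_as_neg (s : ℝ) : D1_as (-s) = -D1_as s := by
  rw [D1_as, D1_as, mul_neg, D1_nu_neg, mul_neg, Real.arcsin_neg]

theorem D1_re_neg (σ p c : ℝ) : D1_re σ p (-c) = -D1_re σ p c := by
  rw [D1_re, D1_re, D1_nu_neg]
  ring

theorem D1_im_neg (σ p s : ℝ) : D1_im σ p (-s) = -D1_im σ p s := by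
  rw [D1_im, D1_im, D1_as_neg]
  ring

theorem D1_mix {p a b : ℝ} (ha : 0 < a) (hb : 0 < b) : 0 < (1 - D1_chi p) * a + D1_chi p * b := by
  have h0 : 0 ≤ D1_chi p := Real.smoothTransition.nonneg _
  have h1 : D1_chi p ≤ 1 := Real.smoothTransition.le_one _
  rcases h0.eq_or_lt with h | h
  · rw [← h]
    linarith only [ha]
  · exact add_pos_of_nonneg_of_pos (mul_nonneg (sub_nonneg.2 h1) ha.le) (mul_pos h hb)

theorem D1_odd_zero {f : ℝ → ℝ} (h1 : ∀ x, f (-x) = -f x) (h2 : ∀ x, 0 < x → 0 < f x) {x : ℝ}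
    (h : f x = 0) : x = 0 := by
  rcases lt_trichotomy x 0 with h3 | h3 | h3
  · have := h2 _ (neg_pos.2 h3)
    rw [h1, h, neg_zero] at this
    exact absurd this (lt_irrefl _)
  · exact h3
  · exact absurd h (h2 x h3).ne'

theorem D1_g0_zero {σ p q : ℝ} (h : 0 < σ) (h0 : D1_g0 σ p q = 0) :
    p = 0 ∧ Real.sin (Real.pi * q) = 0 := by
  have h1 : Real.sin (Real.pi * q) = 0 :=
    D1_odd_zero (D1_im_neg σ p) (fun s hs => D1_mix hs (div_pos (div_pos (Real.arcsin_pos.2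
      (mul_pos (by norm_num) (D1_nu_pos (by positivity)).1)) Real.pi_pos) h)) (congrArg im h0)
  refine ⟨D1_odd_zero D1_nu_neg (fun x hx => (D1_nu_pos hx).1)
    ((mul_eq_zero.1 (congrArg re h0)).resolve_right fun h2 => ?_), h1⟩
  have h3 : Real.cos (Real.pi * q) = 0 :=
    D1_odd_zero (D1_re_neg σ p) (fun c hc => D1_mix hc (mul_pos h (D1_nu_pos hc).1)) h2
  have h4 := Real.sin_sq_add_cos_sq (Real.pi * q)
  rw [h1, h3] at h4
  norm_num at h4

theorem D1_g0_odd (σ p q : ℝ) : D1_g0 σ (-p) (-q) = -D1_g0 σ p q := by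
  refine Complex.ext ?_ ?_
  · simp only [D1_g0, neg_re, mul_neg, Real.cos_neg, D1_nu_neg, D1_re, D1_chi_neg, neg_mul]
  · simp only [D1_g0, neg_im, mul_neg, Real.sin_neg, D1_im_neg]
    rw [D1_im, D1_im, D1_chi_neg]

theorem D1_g0_per (σ p q : ℝ) (n : ℤ) : D1_g0 σ p (q + n) = Cy.ee (n / 2) * D1_g0 σ p q := by
  have h1 : Function.Periodic (fun q => Cy.ee (-q / 2) * D1_g0 σ p q) 1 := fun q => by
    have h2 : D1_g0 σ p (q + 1) = -D1_g0 σ p q := by
      refine Complex.ext ?_ ?_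
      · simp only [D1_g0, neg_re, mul_add, mul_one, Real.cos_add_pi, D1_re_neg, mul_neg]
      · simp only [D1_g0, neg_im, mul_add, mul_one, Real.sin_add_pi, D1_im_neg]
    simp only
    rw [h2, ← neg_one_mul (D1_g0 σ p q), ← Cy.ee_half, ← mul_assoc, ← Cy.ee_add]
    congr 2
    ring
  have h3 := h1.int_mul n q
  simp only [mul_one] at h3
  refine mul_left_cancel₀ (Cy.ee_ne_zero (-(q + n) / 2)) ?_
  rw [h3, ← mul_assoc, ← Cy.ee_add]
  congr 2
  ring

theorem D1_chi_zero {p : ℝ} (h : 1 / 4 ≤ p) : D1_chi p = 0 :=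
  Real.smoothTransition.zero_of_nonpos (by linarith only [h, mul_nonneg_of_nonpos_of_nonpos (Mathlib.Tactic.Linarith.sub_nonpos_of_le h) (Mathlib.Tactic.Linarith.sub_nonpos_of_le h)])

theorem D1_g0_right {σ p : ℝ} (h : 1 / 4 ≤ p) (q : ℝ) : D1_g0 σ p q = Cy.ee (q / 2) := by
  have e : 2 * Real.pi * (q / 2) = Real.pi * q := by ring
  refine Complex.ext ?_ ?_
  · simp [D1_g0, D1_re, D1_chi_zero h, Cy.nu_one h, Cy.ee_re, e]
  · simp [D1_g0, D1_im, D1_chi_zero h, Cy.ee_im, e]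

theorem D1_g0_left {σ p : ℝ} (h : p ≤ -1 / 4) (q : ℝ) : D1_g0 σ p q = Cy.ee (1 / 2 + -q / 2) := by
  rw [Cy.ee_add, Cy.ee_half, ← D1_g0_right (σ := σ) (p := -p) (by linarith only [h]), D1_g0_odd]
  ring

theorem D1_g0_near {σ p q : ℝ} (hp : |p| ≤ 1 / 32) (hq : |q| ≤ 1 / 32) :
    D1_g0 σ p q = ⟨σ * p, q / σ⟩ := by
  have h1 := abs_le.1 hp
  have h2 : D1_chi p = 1 := Real.smoothTransition.one_of_one_le (by linarith only [h1, mul_nonneg_of_nonpos_of_nonpos (Mathlib.Tactic.Linarith.sub_nonpos_of_le h1.left) (Mathlib.Tactic.Linarith.sub_nonpos_of_le h1.right)])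
  have h3 : |Real.pi * q| ≤ 1 / 10 := by
    rw [abs_mul, abs_of_pos Real.pi_pos]
    linarith only [hq, Real.pi_lt_d2, Real.pi_pos, abs_nonneg q, mul_nonneg_of_nonpos_of_nonpos (Mathlib.Tactic.Linarith.sub_nonpos_of_le hq) (le_of_lt (Mathlib.Tactic.Linarith.sub_neg_of_lt Real.pi_pos))]
  have h4 := abs_le.1 h3
  have h5 : Cy.nu (Real.cos (Real.pi * q)) = 1 :=
    Cy.nu_one (by linarith only [h4, Real.one_sub_sq_div_two_le_cos (x := Real.pi * q), mul_nonneg_of_nonpos_of_nonpos (Mathlib.Tactic.Linarith.sub_nonpos_of_le h4.left) (Mathlib.Tactic.Linarith.sub_nonpos_of_le h4.right)])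
  have h6 : D1_as (Real.sin (Real.pi * q)) = Real.pi * q := by
    have h7 := abs_le.1 (Real.abs_sin_le_abs.trans h3)
    rw [D1_as, Cy.nu_eq (abs_le.2 ⟨by linarith only [h7], by linarith only [h7]⟩), ← mul_assoc]
    norm_num
    exact Real.arcsin_sin (by linarith only [h4, Real.pi_gt_three]) (by linarith only [h4, Real.pi_gt_three])
  refine Complex.ext ?_ ?_
  · simp [D1_g0, D1_re, h2, h5, Cy.nu_eq (hp.trans (by norm_num)), mul_comm p σ]
  · simp [D1_g0, D1_im, h2, h6]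

theorem D1_g0_sm (σ : ℝ) : ContDiff ℝ ∞ fun z : ℝ × ℝ => D1_g0 σ z.1 z.2 := by
  have h1 := Cy.contDiff_nu
  have h2 : ContDiff ℝ ∞ D1_chi := Real.smoothTransition.contDiff.comp (by fun_prop)
  have h3 : ContDiff ℝ ∞ D1_as := contDiff_iff_contDiffAt.2 fun s => by
    have h4 := abs_le.1 (D1_nu_abs (5 / 4 * s))
    exact (Real.contDiffAt_arcsin (by linarith only [h4]) (by linarith only [h4])).comp s
      (f := fun s => 4 / 5 * Cy.nu (5 / 4 * s)) (by fun_prop)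
  refine Complex.equivRealProdCLM.comp_contDiff_iff.1 ?_
  change ContDiff ℝ ∞ fun z : ℝ × ℝ => (Cy.nu z.1 * D1_re σ z.1 (Real.cos (Real.pi * z.2)),
    D1_im σ z.1 (Real.sin (Real.pi * z.2)))
  unfold D1_re D1_im
  fun_prop

theorem D1_key {σ p : ℝ} {n : ℤ} (h : |p - n| ≤ 3 / 4) (q : ℝ) :
    D1_g σ (p, q) = Cy.ee (n / 2 + n * q) * D1_g0 σ (p - n) q := by
  have h1 := abs_le.1 h
  have h2 := abs_le.1 (abs_sub_round p)
  have h3 : (round p : ℝ) < ((n + 2 : ℤ) : ℝ) := by push_cast; linarith only [h1, h2]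
  have h4 : ((n - 2 : ℤ) : ℝ) < (round p : ℝ) := by push_cast; linarith only [h1, h2]
  rw [Int.cast_lt] at h3 h4
  have h5 : round p = n ∨ round p = n + 1 ∨ round p = n - 1 := by omega
  unfold D1_g
  rcases h5 with h5 | h5 | h5 <;> rw [h5] at h2 ⊢ <;> push_cast at h2 ⊢
  · rw [D1_g0_left (by linarith only [h1]), D1_g0_right (by linarith only [h2]), ← Cy.ee_add, ← Cy.ee_add]
    exact Cy.ee_eq_iff.2 ⟨1, by push_cast; ring⟩
  · rw [D1_g0_right (by linarith only [h1]), D1_g0_left (by linarith only [h2]), ← Cy.ee_add, ← Cy.ee_add]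
    exact Cy.ee_eq_iff.2 ⟨-1, by push_cast; ring⟩

theorem D1_g_sm (σ : ℝ) : ContDiff ℝ ∞ (D1_g σ) := by
  refine contDiff_iff_contDiffAt.2 fun z₀ => ?_
  have h1 : ContDiff ℝ ∞ fun z : ℝ × ℝ =>
      Cy.ee (round z₀.1 / 2 + round z₀.1 * z.2) * D1_g0 σ (z.1 - round z₀.1) z.2 :=
    (Cy.contDiff_ee.comp (contDiff_const.add (contDiff_const.mul contDiff_snd))).mul
      ((D1_g0_sm σ).comp ((contDiff_fst.sub contDiff_const).prodMk contDiff_snd))
  refine h1.contDiffAt.congr_of_eventuallyEq ?_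
  have h2 : ∀ᶠ z : ℝ × ℝ in nhds z₀, |z.1 - round z₀.1| < 3 / 4 :=
    ContinuousAt.eventually_lt (by fun_prop) continuousAt_const
      ((abs_sub_round z₀.1).trans_lt (by norm_num))
  filter_upwards [h2] with z hz using D1_key hz.le _

theorem exists_gauge {σ : ℝ} (h : 0 < σ) : ∃ g : ℝ × ℝ → ℂ, GaugeOk g σ := by
  refine ⟨D1_g σ, D1_g_sm σ, fun p q => ?_, fun p q m n => ?_, fun p q h0 => ?_,
    fun p q hp hq => ?_, fun p q h1 h2 => ?_⟩
  · have e : -p - ((-round p : ℤ) : ℝ) = -(p - round p) := by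
      push_cast
      ring
    rw [D1_key (n := -round p) (by rw [e, abs_neg]; exact (abs_sub_round p).trans (by norm_num)),
      e, D1_g0_odd, mul_neg, D1_g]
    exact congrArg (fun t => -(t * _)) (Cy.ee_eq_iff.2 ⟨-round p, by push_cast; ring⟩)
  · have e : p + m - ((round p + m : ℤ) : ℝ) = p - round p := by
      push_cast
      ring
    rw [D1_g, D1_g, round_add_intCast, e, D1_g0_per, ← mul_assoc, ← mul_assoc, ← Cy.ee_add,
      ← Cy.ee_add]
    exact congrArg (· * _) (Cy.ee_eq_iff.2 ⟨(round p + m) * n, by push_cast; ring⟩)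
  · obtain ⟨h1, h2⟩ := D1_g0_zero h ((mul_eq_zero.1 h0).resolve_left (Cy.ee_ne_zero _))
    obtain ⟨n, hn⟩ := Real.sin_eq_zero_iff.1 h2
    exact ⟨⟨_, sub_eq_zero.1 h1⟩, n, mul_left_cancel₀ Real.pi_ne_zero (by rw [← hn, mul_comm])⟩
  · rw [D1_key (n := 0) (by simpa using hp.trans (by norm_num))]
    simp only [Int.cast_zero, zero_div, zero_mul, add_zero, Cy.ee_zero, one_mul, sub_zero]
    exact D1_g0_near hp hq
  · rw [D1_key (n := 0) (by rw [Int.cast_zero, sub_zero, abs_le]; constructor <;> linarith only [h1, h2])]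
    simp only [Int.cast_zero, zero_div, zero_mul, add_zero, Cy.ee_zero, one_mul, sub_zero]
    exact D1_g0_right h1 q

end Pool.Agent.Work.MP_bf98aa_gt.B3
end

-- merged part: Pool.Agent.Work.MP_bf98aa_gt.B3.D3
section
/-!
The family of data, `k = 2 n`. See the team-store file `h86_b3_data.md`.
-/

set_option autoImplicit false

open scoped ContDiff Matrix
open Set Complex

namespace Pool.Agent.Work.MP_bf98aa_gt.B3

open Fr (Good Bd SmM fr gm sk b0 nsq oA oB bA bB b1 b2 bP KP)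

noncomputable section

/-- The parameters of the family. -/
structure FP where
  n : ℤ
  c₀ : ℝ
  M₂ : ℝ
  η : ℝ → ℝ
  g : ℝ × ℝ → ℂ

/-- From the first fold frame to the second one. -/
def NN : Z4 := !![1, -1, 0, -1; 0, 0, 0, 1; 0, 0, 1, 0; 0, -1, 0, 0]

theorem exists_par {K M ν p q s t : ℝ} (hK : 8 ≤ K) (hM : |M - K ^ 2| ≤ 2 * K)
    (hν : |ν| ≤ M + 1 / 4) (hp : p ∈ Icc (0 : ℝ) 2) (hq : q ∈ Icc (0 : ℝ) 2)
    (hs : s ∈ Icc (0 : ℝ) 1) (ht : t ∈ Icc (0 : ℝ) 1) (h1 : ν < M - 1 → s = 0)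
    (h2 : -M + 1 < ν → t = 0) :
    ∃ x ∈ KP, K ^ 2 * x 0 + K * x 1 = ν ∧ x 2 = p ∧ x 3 = q ∧ x 4 = s ∧ x 5 = t := by
  have K0 : 0 < K := by linarith only [hK]
  obtain ⟨m1, m2⟩ := abs_le.1 hM
  obtain ⟨n1, n2⟩ := abs_le.1 hν
  have key : ∀ a b : ℝ, |a| ≤ 3 / 2 → |b| ≤ 3 → s * (a - 1) = 0 → t * (a + 1) = 0 →
      K ^ 2 * a + K * b = ν →
      ∃ x ∈ KP, K ^ 2 * x 0 + K * x 1 = ν ∧ x 2 = p ∧ x 3 = q ∧ x 4 = s ∧ x 5 = t :=
    fun a b ha hb e1 e2 e3 => by
      obtain ⟨a1, a2⟩ := abs_le.1 ha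
      obtain ⟨b1, b2⟩ := abs_le.1 hb
      refine ⟨![a, b, p, q, s, t], ⟨⟨fun i => ?_, fun i => ?_⟩, e1, e2⟩, e3, rfl, rfl, rfl, rfl⟩ <;>
        fin_cases i <;> simp <;> linarith only [a1, b1, hp, hq, hs, ht, a2, b2, hp.1, hp.2, hq.1, hq.2, hs.1, hs.2, ht.1, ht.2]
  by_cases c1 : ν < M - 1
  · by_cases c2 : -M + 1 < ν
    · refine key (ν / K ^ 2) 0 ?_ (by norm_num) (by simp [h1 c1]) (by simp [h2 c2])
        (by field_simp; ring)
      rw [abs_div, abs_of_pos (by positivity : 0 < K ^ 2), div_le_iff₀ (by positivity)]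
      linarith only [hK, hν, m2, mul_nonneg_of_nonpos_of_nonpos (Mathlib.Tactic.Linarith.sub_nonpos_of_le hK) (Mathlib.Tactic.Linarith.sub_nonpos_of_le hK)]
    · refine key (-1) ((ν + K ^ 2) / K) (by norm_num) ?_ (by simp [h1 c1]) (by simp)
        (by field_simp; ring)
      rw [abs_div, abs_of_pos K0, div_le_iff₀ K0, abs_le]
      constructor <;> linarith only [hK, m2, n1, m1, c2]
  · refine key 1 ((ν - K ^ 2) / K) (by norm_num) ?_ (by simp) (by simp [h2 (by linarith only [hK, m1, c1, mul_nonneg_of_nonpos_of_nonpos (Mathlib.Tactic.Linarith.sub_nonpos_of_le hK) (Mathlib.Tactic.Linarith.sub_nonpos_of_le hK)])])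
      (by field_simp; ring)
    rw [abs_div, abs_of_pos K0, div_le_iff₀ K0, abs_le]
    constructor <;> linarith only [hK, m1, c1, m2, n2]

namespace FP

variable (P : FP)

/-- The parameter `k`. -/
def K : ℝ := 2 * P.n

/-- The first half, without frames. -/
def hA : HD where
  A := !![1, -1, 0, 1; 1, 0, -1, 1; 1, -1, 1, 0; 2 * P.n - 1, 0, -2 * P.n, 2 * P.n + 1]
  A' := !![-1, 1, 1, 0; -3, 2 - 2 * P.n, 2, 1; -2, 1 - 2 * P.n, 2, 1; -1, 1 - 2 * P.n, 1, 1]
  a := 2 * P.K ^ 3 + 3 * P.K ^ 2 - 2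
  a' := 2 * P.K ^ 3 + 5 * P.K ^ 2 + 3 * P.K
  Xh := !![1, 2 * P.n + 1; 2 * P.n + 2, -P.n]
  μ₁ := P.K ^ 2 - P.K / 2 - 2
  σ := √P.K
  c₀ := P.c₀
  M₁ := 3200
  M₂ := P.M₂
  Y := !![(√P.K)⁻¹, 0; 0, √P.K]
  η := P.η
  g := P.g
  cf := fun _ => 0

/-- The second half, without frames. -/
def hB : HD where
  A := !![1, 0, 0, 0; -1, 0, 1, 1; 1, 1, 1, -2; -2 * P.n - 1, 0, 2 * P.n + 2, 2 * P.n + 1]
  A' := !![1, 0, 0, 0; 1, 6 * P.n + 5, 1, -3; 0, -2 * P.n - 1, 0, 1; 1, 2 * P.n + 2, 0, -1]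
  a := 2 * P.K ^ 3 + P.K ^ 2 - 3 * P.K - 2
  a' := 2 * P.K ^ 3 + 5 * P.K ^ 2 - P.K - 2
  Xh := !![1, -2 * P.n; -2 * P.n, -P.n]
  μ₁ := P.K ^ 2 + 3 * P.K / 2 - 1
  σ := √P.K
  c₀ := P.c₀
  M₁ := 3200
  M₂ := P.M₂
  Y := !![(√P.K)⁻¹, 0; 0, √P.K]
  η := P.η
  g := P.g
  cf := fun _ => 0

/-- The gluing matrices. -/
def G : Bool → Z4
  | true => !![3, 4 * P.n - 2, -2, -2; -2, 1 - 4 * P.n, 2, 2; -6, 4 - 4 * P.n, 5, 2;
      -4 * P.n - 4, -8 * P.n ^ 2 - 4 * P.n + 2, 4 * P.n + 4, 4 * P.n + 3]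
  | false => !![3, 12 * P.n + 10, 2, -6; 2, 12 * P.n + 9, 2, -6; 2, 4 * P.n + 4, 1, -2;
      4 * P.n, 24 * P.n ^ 2 + 20 * P.n + 2, 4 * P.n, -12 * P.n - 1]

/-- The switch. -/
def sw (t : ℝ) : ℝ := Real.smoothTransition (4 * t - 2)

/-- The path of bases of the second half. -/
def BB (ν : ℝ) : M4 :=
  rm P.hB.A * bP (P.K⁻¹, ![0, 0, 0, 0, sw (ν - P.hB.μ₁), sw (-ν - P.hB.μ₁)])

/-- The data. -/
def gd : GD where
  H := fun b => cond b (P.hA.wi fun _ => b0 P.K) (P.hB.wi P.BB)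
  G := P.G

theorem AA_A : P.hA.A * P.hA.A' = 1 := by
  ext i j; fin_cases i <;> fin_cases j <;> simp [hA, Matrix.mul_apply, Fin.sum_univ_four] <;> ring

theorem AA_B : P.hB.A * P.hB.A' = 1 := by
  ext i j; fin_cases i <;> fin_cases j <;> simp [hB, Matrix.mul_apply, Fin.sum_univ_four] <;> ring

theorem GG : P.G false * P.G true = 1 := by
  ext i j; fin_cases i <;> fin_cases j <;> simp [G, Matrix.mul_apply, Fin.sum_univ_four] <;> ring

theorem GA : P.G true * P.hA.A = P.hB.A * NN := by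
  ext i j
  fin_cases i <;> fin_cases j <;> simp [G, hA, hB, NN, Matrix.mul_apply, Fin.sum_univ_four] <;> ring

theorem v_A : P.hA.v 0 1 = 8 * P.n ^ 2 + 22 * P.n + 6 := by
  simp [hA, HD.v, HD.vA, Matrix.mul_apply, Fin.sum_univ_four]; ring

theorem v_B : P.hB.v 0 1 = 8 * P.n ^ 2 - 2 * P.n - 2 := by
  simp [hB, HD.v, HD.vA, Matrix.mul_apply, Fin.sum_univ_four]; ring

theorem n_eq : (P.n : ℝ) = P.K / 2 := by unfold K; ring

variable {P}

theorem bA_eq (h : P.K ≠ 0) : b0 P.K = rm P.hA.A * bA P.K⁻¹ := by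
  ext i j
  fin_cases i <;> fin_cases j <;>
    simp [b0, bA, rm, hA, Matrix.mul_apply, Fin.sum_univ_four, n_eq] <;> field_simp <;> ring

theorem bB_eq (h : P.K ≠ 0) : b0 P.K = rm P.hB.A * bB P.K⁻¹ := by
  ext i j
  fin_cases i <;> fin_cases j <;>
    simp [b0, bB, rm, hB, Matrix.mul_apply, Fin.sum_univ_four, n_eq] <;> field_simp <;> ring

theorem b1_eq (e : ℝ) : b1 e = rm NN * bA e := by
  ext i j
  fin_cases i <;> fin_cases j <;> simp [b1, bA, rm, NN, Matrix.mul_apply, Fin.sum_univ_four]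
  ring

theorem b2_eq (e : ℝ) : b2 e = rm (DD * NN * DD) * bA e := by
  have : DD * NN * DD = !![1, -1, 0, 1; 0, 0, 0, -1; 0, 0, 1, 0; 0, 1, 0, 0] := by decide
  rw [this]
  ext i j
  fin_cases i <;> fin_cases j <;> simp [b2, bA, rm, Matrix.mul_apply, Fin.sum_univ_four] <;> ring

theorem oA_eq (h : P.K ≠ 0) (x : Fin 6 → ℝ) :
    (rm P.hA.A)ᵀ * (P.hA.Om0 (P.K ^ 2 * x 0 + P.K * x 1) - x 2 • rm E23 -
      x 3 • rm (P.hA.Tᵀ * E23 * P.hA.T)) * rm P.hA.A = P.K ^ 3 • oA (P.K⁻¹, x) := by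
  rw [HD.fold_Om (mul_eq_one_comm.1 P.AA_A)]
  ext i j
  fin_cases i <;> fin_cases j <;> simp [sk, oA, HD.Cf, hA] <;> field_simp <;> simp only [K] <;> ring

theorem oB_eq (h : P.K ≠ 0) (x : Fin 6 → ℝ) :
    (rm P.hB.A)ᵀ * (P.hB.Om0 (P.K ^ 2 * x 0 + P.K * x 1) - x 2 • rm E23 -
      x 3 • rm (P.hB.Tᵀ * E23 * P.hB.T)) * rm P.hB.A = P.K ^ 3 • oB (P.K⁻¹, x) := by
  rw [HD.fold_Om (mul_eq_one_comm.1 P.AA_B)]
  ext i j
  fin_cases i <;> fin_cases j <;> simp [sk, oB, HD.Cf, hB] <;> field_simp <;> simp only [K] <;> ring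

theorem cancel {A A' W W' : M4} (h : A * A' = 1) (e : Aᵀ * W * A = Aᵀ * W' * A) : W = W' := by
  have k : ∀ W : M4, W = A'ᵀ * (Aᵀ * W * A) * A' := fun W => by
    calc W = (A * A')ᵀ * W * (A * A') := by rw [h]; simp
      _ = _ := by simp only [Matrix.transpose_mul, Matrix.mul_assoc]
  rw [k W, k W', e]

theorem pullG (W : M4) : (rm P.hA.A)ᵀ * ((rm (P.G true))ᵀ * W * rm (P.G true)) * rm P.hA.A =
    (rm NN)ᵀ * ((rm P.hB.A)ᵀ * W * rm P.hB.A) * rm NN := by
  calc _ = (rm (P.G true * P.hA.A))ᵀ * W * rm (P.G true * P.hA.A) := by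
        simp only [rm_mul, Matrix.transpose_mul, Matrix.mul_assoc]
    _ = _ := by
        rw [GA]
        simp only [rm_mul, Matrix.transpose_mul, Matrix.mul_assoc]

theorem mid (m : ℝ) : (rm (P.G true))ᵀ * (P.hB.Om0 (P.hB.M - m) - (1 - m) • rm E23 -
      (0 : ℝ) • rm (P.hB.Tᵀ * E23 * P.hB.T)) * rm (P.G true) =
    P.hA.Om0 (P.hA.M + m) - (1 + m) • rm E23 - (0 : ℝ) • rm (P.hA.Tᵀ * E23 * P.hA.T) := by
  refine cancel (A := rm P.hA.A) (by rw [← rm_mul, AA_A, rm_one]) ?_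
  rw [pullG, HD.fold_Om (mul_eq_one_comm.1 P.AA_A), HD.fold_Om (mul_eq_one_comm.1 P.AA_B)]
  ext i j
  fin_cases i <;> fin_cases j <;>
    simp [sk, HD.Cf, HD.M, hA, hB, K, rm, NN, Matrix.mul_apply, Fin.sum_univ_four] <;> ring

theorem ind (s : Fin 6 → ℝ) (h : s 0 • rm P.hA.α + s 1 • rm P.hA.β + s 2 • rm P.hA.v +
    (rm (P.G true))ᵀ * (s 3 • rm P.hB.α + s 4 • rm P.hB.β + s 5 • rm P.hB.v) * rm (P.G true) = 0) :
    s = 0 := by
  have e := congrArg (fun W => (rm P.hA.A)ᵀ * W * rm P.hA.A) h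
  simp only [Matrix.mul_add _ (_ + _ + _), Matrix.add_mul (_ * (_ + _ + _)), pullG,
    HD.fold_comb (mul_eq_one_comm.1 P.AA_A), HD.fold_comb (mul_eq_one_comm.1 P.AA_B)] at e
  have e1 := congrFun (congrFun e 0) 1
  have e2 := congrFun (congrFun e 0) 2
  have e3 := congrFun (congrFun e 0) 3
  have e4 := congrFun (congrFun e 1) 2
  have e5 := congrFun (congrFun e 1) 3
  have e6 := congrFun (congrFun e 2) 3
  simp [sk, hA, hB, rm, NN, Matrix.mul_apply, Fin.sum_univ_four] at e1 e2 e3 e4 e5 e6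
  have s2 : s 2 = 0 := by linear_combination (e3 + e5) / 2 - P.n * e2 / 2
  have s5 : s 5 = 0 := by linear_combination e2 / 2 - s2
  simp only [s2, s5] at e1 e3 e4 e6
  ext i
  fin_cases i <;> simp <;> linarith only [e1, e6, s2, e3, e4, e2]

theorem slope : (P.G true)ᵀ * (P.hB.v - E23) * P.G true = -(P.hA.v - E23) := by
  have e0 := mid (P := P) 0
  have e1 := mid (P := P) 1
  rw [sub_eq_add_neg P.hB.M, HD.Om0_add, HD.Om0_add] at e1
  simp only [sub_zero, add_zero, zero_smul, sub_self, one_smul, Matrix.mul_sub, Matrix.sub_mul,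
    Matrix.mul_add, Matrix.add_mul, neg_smul, Matrix.mul_neg, Matrix.neg_mul, add_smul] at e0 e1
  have e : rm ((P.G true)ᵀ * (P.hB.v - E23) * P.G true) = rm (-(P.hA.v - E23)) := by
    simp only [rm_mul, rm_sub, rm_neg, rm_tr, Matrix.mul_sub, Matrix.sub_mul]
    linear_combination (norm := abel) e0 - e1
  ext i j
  exact Int.cast_injective (congrFun (congrFun e i) j)

theorem sw_low {t : ℝ} (h : t ≤ 1 / 2) : sw t = 0 :=
  Real.smoothTransition.zero_of_nonpos (by linarith only [h])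

theorem sw_high {t : ℝ} (h : 3 / 4 ≤ t) : sw t = 1 :=
  Real.smoothTransition.one_of_one_le (by linarith only [h])

theorem sw_mem (t : ℝ) : sw t ∈ Icc (0 : ℝ) 1 :=
  ⟨Real.smoothTransition.nonneg _, Real.smoothTransition.le_one _⟩

theorem sm_BB (ν : ℝ) : SmM P.BB ν := by
  have h : ContDiff ℝ ∞ sw := Real.smoothTransition.contDiff.comp (by fun_prop)
  exact (SmM.const _).mul (((SmM.const (bB P.K⁻¹)).add (SmM.smul
    (t := fun ν => sw (ν - P.hB.μ₁)) (h.comp (by fun_prop)).contDiffAt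
    (SmM.const (b1 P.K⁻¹ - bB P.K⁻¹)))).add (SmM.smul (t := fun ν => sw (-ν - P.hB.μ₁))
      (h.comp (by fun_prop)).contDiffAt (SmM.const (b2 P.K⁻¹ - bB P.K⁻¹))))

theorem BB_eq (ν : ℝ) : P.BB ν = rm P.hB.A * (bB P.K⁻¹ + sw (ν - P.hB.μ₁) • (b1 P.K⁻¹ - bB P.K⁻¹) +
    sw (-ν - P.hB.μ₁) • (b2 P.K⁻¹ - bB P.K⁻¹)) := rfl

end FP

end

end Pool.Agent.Work.MP_bf98aa_gt.B3
end

-- merged part: Pool.Agent.Work.MP_bf98aa_gt.B3.D4
section
/-!
Existence of admissible data.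
-/

set_option autoImplicit false

open scoped ContDiff Matrix
open Set Complex

namespace Pool.Agent.Work.MP_bf98aa_gt.B3

open Fr (Good Bd SmM fr gm sk b0 nsq oA oB bA bB b1 b2 bP KP)

namespace FP

variable {P : FP} {c C : ℝ}

/-- The parameter is large. -/
structure Big (P : FP) (c C : ℝ) : Prop where
  n4 : 4 ≤ P.n
  hη : EtaOk P.η 3200 P.M₂
  hg : GaugeOk P.g √P.K
  hc : 0 < c
  hC : 1 ≤ C
  c0 : P.c₀ = c / C * P.K ^ 2
  k1 : 204800 ≤ c * P.K
  k2 : 2048 * P.M₂ ≤ c / C * P.K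
  k3 : 8 ≤ c / C * P.K
  bd : ∀ x ∈ KP, Bd c C (oA (P.K⁻¹, x)) (bA P.K⁻¹) ∧ Bd c C (oB (P.K⁻¹, x)) (bP (P.K⁻¹, x))

theorem Big.K8 (h : P.Big c C) : 8 ≤ P.K := by
  have : (4 : ℝ) ≤ P.n := by exact_mod_cast h.n4
  unfold K; linarith only [this]

theorem Big.sq (h : P.Big c C) : √P.K ^ 2 = P.K := Real.sq_sqrt (by linarith only [h, h.K8])

theorem Big.preA (h : P.Big c C) : P.hA.Pre c C := by
  have k := h.K8
  have n4 := h.n4
  have s : P.hA.σ ^ 2 = P.K := h.sq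
  refine ⟨P.AA_A, mul_eq_one_comm.1 P.AA_A, by simp [hA], by simp [hA], by simp [hA], by simp [hA],
    by simp [hA], by rw [v_A]; positivity, by simp only [hA]; linarith only [k, pow_pos (a := P.K) (by linarith) 3, mul_nonneg_of_nonpos_of_nonpos (Mathlib.Tactic.Linarith.sub_nonpos_of_le k) (Mathlib.Tactic.Linarith.sub_nonpos_of_le k)],
    by simp only [hA]; linarith only [k, pow_pos (a := P.K) (by linarith) 3, sq_nonneg P.K], by simp [hA]; linarith only [n4, mul_nonneg_of_nonpos_of_nonpos (Mathlib.Tactic.Linarith.sub_nonpos_of_le n4) (Mathlib.Tactic.Linarith.sub_nonpos_of_le n4)],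
    by simp only [hA]; linarith only [k, mul_nonneg_of_nonpos_of_nonpos (Mathlib.Tactic.Linarith.sub_nonpos_of_le k) (Mathlib.Tactic.Linarith.sub_nonpos_of_le k)], Real.one_le_sqrt.2 (by linarith), rfl, h.hη, h.hg, fun i => ?_,
    by simp [hA, rm, Fin.sum_univ_four]; norm_num, h.hc, h.hC, ?_, rfl, s ▸ h.k1, s ▸ h.k2, s ▸ h.k3⟩
  · rw [s]
    fin_cases i <;> simp [hA, rm, Fin.sum_univ_four, n_eq, abs_mul]
    any_goals linarith
    rw [abs_of_pos (by linarith only [k]), abs_of_pos (by linarith only [k]), abs_of_pos (by linarith only [k])]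
    linarith only [k]
  · rw [show P.hA.σ ^ 4 = (P.hA.σ ^ 2) ^ 2 by ring, s]; exact h.c0

theorem Big.preB (h : P.Big c C) : P.hB.Pre c C := by
  have k := h.K8
  have n4 := h.n4
  have s : P.hB.σ ^ 2 = P.K := h.sq
  refine ⟨P.AA_B, mul_eq_one_comm.1 P.AA_B, by simp [hB], by simp [hB], by simp [hB],
    ⟨-P.n, by simp [hB]; ring⟩,
    by simp [hB], by rw [v_B]; nlinarith, by simp only [hB]; linarith only [k, pow_pos (a := P.K) (by linarith) 3, mul_nonneg_of_nonpos_of_nonpos (Mathlib.Tactic.Linarith.sub_nonpos_of_le (sq_nonneg P.K)) (Mathlib.Tactic.Linarith.sub_nonpos_of_le k), mul_nonneg_of_nonpos_of_nonpos (Mathlib.Tactic.Linarith.sub_nonpos_of_le k) (Mathlib.Tactic.Linarith.sub_nonpos_of_le k)],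
    by simp only [hB]; linarith only [k, pow_pos (a := P.K) (by linarith) 3, mul_nonneg_of_nonpos_of_nonpos (Mathlib.Tactic.Linarith.sub_nonpos_of_le (sq_nonneg P.K)) (Mathlib.Tactic.Linarith.sub_nonpos_of_le k), mul_nonneg_of_nonpos_of_nonpos (Mathlib.Tactic.Linarith.sub_nonpos_of_le k) (Mathlib.Tactic.Linarith.sub_nonpos_of_le k)], by simp [hB]; linarith only [n4, mul_self_nonneg ((2 : ℤ) * P.n)],
    by simp only [hB]; linarith only [k, sq_nonneg ((1 : ℝ) * P.K)], Real.one_le_sqrt.2 (by linarith), rfl, h.hη, h.hg, fun i => ?_,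
    by simp [hB, rm, Fin.sum_univ_four]; norm_num, h.hc, h.hC, ?_, rfl, s ▸ h.k1, s ▸ h.k2, s ▸ h.k3⟩
  · rw [s]
    fin_cases i <;> simp [hB, rm, Fin.sum_univ_four, n_eq]
    any_goals linarith
    rw [abs_of_neg (by linarith only [k]), abs_of_pos (by linarith only [k]), abs_of_pos (by linarith only [k])]
    linarith only [k]
  · rw [show P.hB.σ ^ 4 = (P.hB.σ ^ 2) ^ 2 by ring, s]; exact h.c0

theorem shf_two {t : ℝ} (h : t ≤ 2) : shf t ∈ Icc (0 : ℝ) 2 :=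
  ⟨(shf_mem t).1, (shf_mem t).2.trans (max_le (by norm_num) h)⟩

theorem Big.nrmA (h : P.Big c C) {ν p q : ℝ} (hν : |ν| ≤ P.hA.M + 1 / 4) (hp : p ∈ Icc (0 : ℝ) 2)
    (hq : q ∈ Icc (0 : ℝ) 2) : P.hA.Nrm c C
      (P.hA.Om0 ν - p • rm E23 - q • rm (P.hA.Tᵀ * E23 * P.hA.T)) (b0 P.K) := by
  have k := h.K8
  obtain ⟨x, hx, rfl, rfl, rfl, -, -⟩ := exists_par (s := 0) (t := 0) k
    (abs_le.2 ⟨by simp only [HD.M, hA]; linarith only [k], by simp only [HD.M, hA]; linarith only [k]⟩) hν hp hq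
    (by simp) (by simp) (fun _ => rfl) fun _ => rfl
  refine ⟨_, _, (h.bd x hx).1, ?_, bA_eq (by linarith only [k])⟩
  rw [oA_eq (by linarith only [k]), show (P.hA.σ ^ 3) ^ 2 = (√P.K ^ 2) ^ 3 by simp only [hA]; ring, h.sq]

theorem Big.nrmB (h : P.Big c C) {ν p q s t : ℝ} (hν : |ν| ≤ P.hB.M + 1 / 4)
    (hp : p ∈ Icc (0 : ℝ) 2) (hq : q ∈ Icc (0 : ℝ) 2) (hs : s ∈ Icc (0 : ℝ) 1)
    (ht : t ∈ Icc (0 : ℝ) 1) (h1 : ν < P.hB.M - 1 → s = 0) (h2 : -P.hB.M + 1 < ν → t = 0) :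
    P.hB.Nrm c C (P.hB.Om0 ν - p • rm E23 - q • rm (P.hB.Tᵀ * E23 * P.hB.T))
      (rm P.hB.A * bP (P.K⁻¹, ![0, 0, 0, 0, s, t])) := by
  have k := h.K8
  obtain ⟨x, hx, rfl, rfl, rfl, rfl, rfl⟩ := exists_par k
    (abs_le.2 ⟨by simp only [HD.M, hB]; linarith only [k], by simp only [HD.M, hB]; linarith only [k]⟩) hν hp hq
    hs ht h1 h2
  refine ⟨_, _, (h.bd x hx).2, ?_, rfl⟩
  rw [oB_eq (by linarith only [k]), show (P.hB.σ ^ 3) ^ 2 = (√P.K ^ 2) ^ 3 by simp only [hB]; ring, h.sq]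

theorem Big.okA (h : P.Big c C) : (P.hA.wi fun _ => b0 P.K).Ok := by
  have s : P.hA.σ ^ 2 = P.K := h.sq
  have m := h.preA.hμ
  refine h.preA.ok (fun _ => SmM.const _) (fun ν hν => ?_) (fun _ _ => by rw [s]) fun ν hν => ?_
  · have a := abs_le.1 hν
    unfold HD.M at a
    exact h.nrmA hν (shf_two (by linarith only [a, a.2])) (shf_two (by linarith only [a, a.1]))
  · simpa [s] using h.nrmA (p := 0) (q := 0) hν (by simp) (by simp)

theorem Big.okB (h : P.Big c C) : (P.hB.wi P.BB).Ok := by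
  have s : P.hB.σ ^ 2 = P.K := h.sq
  have m := h.preB.hμ
  have k := h.K8
  have e : rm P.hB.A * bP (P.K⁻¹, ![0, 0, 0, 0, 0, 0]) = b0 P.K := by
    rw [bB_eq (by linarith only [k])]; simp [bP]
  refine h.preB.ok sm_BB (fun ν hν => ?_) (fun ν hν => ?_) fun ν hν => ?_
  · have a := abs_le.1 hν
    unfold HD.M at a
    exact h.nrmB hν (shf_two (by linarith only [a, a.2])) (shf_two (by linarith only [a, a.1])) (sw_mem _)
      (sw_mem _) (fun a => sw_low (by unfold HD.M at a; linarith only [a]))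
      fun a => sw_low (by unfold HD.M at a; linarith only [a])
  · have a := abs_le.1 hν
    rw [BB, sw_low (by linarith only [a, a.2]), sw_low (by linarith only [m, a, a.1]), e, s]
  · simpa [s, e] using h.nrmB (p := 0) (q := 0) (s := 0) (t := 0) hν (by simp) (by simp) (by simp)
      (by simp) (fun _ => rfl) fun _ => rfl

theorem Big.mid (h : P.Big c C) {m : ℝ} (hm : |m| ≤ 1 / 8) :
    (rm (P.G true))ᵀ * P.hB.Om (P.hB.M - m) * rm (P.G true) = P.hA.Om (P.hA.M + m) := by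
  have a := abs_le.1 hm
  have a1 := h.preA.hμ
  have a2 := h.preB.hμ
  rw [HD.Om, HD.Om, shf_high (by unfold HD.M; linarith only [a, a.2]),
    shf_low (by unfold HD.M; linarith only [a, a2, a.2]), shf_high (by unfold HD.M; linarith only [a, a.1]),
    shf_low (by unfold HD.M; linarith only [a, a1, a.1]), show P.hB.M - m - P.hB.μ₁ = 1 - m by unfold HD.M; ring,
    show P.hA.M + m - P.hA.μ₁ = 1 + m by unfold HD.M; ring, FP.mid]

theorem Big.cl (h : P.Big c C) {d : HD} (hd : 2 ≤ d.μ₁) {m : ℝ} (hm : |m| ≤ 1 / 8) :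
    clp d.M (d.M + m) = d.M + m ∧ clp d.M (d.M - m) = d.M - m ∧ clp d.M (-d.M - m) = -(d.M + m) ∧
      clp d.M (-d.M + m) = -(d.M - m) := by
  have a := abs_le.1 hm
  have : 3 ≤ d.M := by unfold HD.M; linarith only [hd]
  refine ⟨clp_eq ?_, clp_eq ?_, (clp_eq ?_).trans (by ring), (clp_eq ?_).trans (by ring)⟩ <;>
    rw [abs_le] <;> constructor <;> linarith only [a, this, a.1, a.2]

theorem Big.up (h : P.Big c C) {m : ℝ} (hm : |m| ≤ 1 / 8) :
    (P.gd.H true).cf (P.hA.M + m) = (P.gd.H false).cf (P.hB.M - m) * rm (P.G true) := by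
  have a := abs_le.1 hm
  have a2 := h.preB.hμ
  have k := h.K8
  change fr (P.hA.Om (clp P.hA.M _)) (b0 P.K) =
    fr (P.hB.Om (clp P.hB.M _)) (P.BB (clp P.hB.M _)) * _
  rw [(h.cl h.preA.hμ hm).1, (h.cl a2 hm).2.1, ← h.mid hm, Fr.fr_pull, BB_eq,
    sw_high (by unfold HD.M; linarith only [a, a.2]), sw_low (by unfold HD.M; linarith only [a, a2, a.2]),
    bA_eq (by linarith only [k]), ← Matrix.mul_assoc, ← rm_mul, GA, rm_mul, b1_eq, Matrix.mul_assoc]
  simp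

theorem Big.lo (h : P.Big c C) {m : ℝ} (hm : |m| ≤ 1 / 8) :
    (P.gd.H true).cf (-P.hA.M - m) * rm P.hA.T =
      (P.gd.H false).cf (-P.hB.M + m) * rm P.hB.T * rm (P.G true) := by
  have a := abs_le.1 hm
  have a2 := h.preB.hμ
  have k := h.K8
  have tA : rm P.hA.T * rm P.hA.T = 1 := h.okA.rTT
  have tB : rm P.hB.T * rm P.hB.T = 1 := h.okB.rTT
  have nA : ∀ ν, P.hA.Om (-ν) = (rm P.hA.T)ᵀ * P.hA.Om ν * rm P.hA.T := h.okA.Om_neg
  have nB : ∀ ν, P.hB.Om (-ν) = (rm P.hB.T)ᵀ * P.hB.Om ν * rm P.hB.T := h.okB.Om_neg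
  have e : P.hB.T * (P.hB.A * (DD * NN * DD)) = P.G true * (P.hA.T * P.hA.A) := by
    have : DD * (DD * NN * DD) = NN * DD := by decide
    rw [← Matrix.mul_assoc, HD.fold_T h.preB.AA', HD.fold_T h.preA.AA', Matrix.mul_assoc, this,
      ← Matrix.mul_assoc, ← Matrix.mul_assoc, GA]
  change fr (P.hA.Om (clp P.hA.M _)) (b0 P.K) * _ =
    fr (P.hB.Om (clp P.hB.M _)) (P.BB (clp P.hB.M _)) * _ * _
  rw [(h.cl h.preA.hμ hm).2.2.1, (h.cl a2 hm).2.2.2, nA, nB, Fr.fr_pull, Fr.fr_pull,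
    Matrix.mul_assoc _ (rm P.hA.T), tA, Matrix.mul_assoc _ (rm P.hB.T) (rm P.hB.T), tB, Matrix.mul_one,
    Matrix.mul_one, ← h.mid hm, Fr.fr_pull, BB_eq, sw_low (by unfold HD.M; linarith only [a, a2, a.2]),
    sw_high (by unfold HD.M; linarith only [a, a.2]), bA_eq (by linarith only [k]), b2_eq]
  simp only [zero_smul, add_zero, one_smul, add_sub_cancel, ← Matrix.mul_assoc, ← rm_mul]
  simp only [Matrix.mul_assoc] at e ⊢
  rw [e]

theorem Big.ok (h : P.Big c C) : P.gd.Ok := by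
  have g : P.G true * P.G false = 1 := mul_eq_one_comm.1 P.GG
  have g' : rm (P.G true) * rm (P.G false) = 1 := by rw [← rm_mul, g, rm_one]
  refine ⟨fun b => ?_, fun b => ?_, fun b i j => ?_, fun i => ?_, fun b => ?_, fun b m hm => ?_,
    fun b m hm => ?_, fun s hs => ind s hs⟩
  · cases b
    exacts [h.okB, h.okA]
  · cases b
    exacts [g, P.GG]
  · rw [Int.even_iff]
    generalize hx : P.n ^ 2 = x
    cases b <;> fin_cases i <;> fin_cases j <;> simp [gd, G, hx] <;> omega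
  · fin_cases i <;> simp [gd, HD.wi, HD.c, hA, hB, parity_simps]
  · cases b
    · change (P.G false)ᵀ * (P.hA.v - E23) * P.G false = -(P.hB.v - E23)
      rw [← neg_neg (P.hA.v - E23), ← slope]
      calc _ = -((P.G true * P.G false)ᵀ * (P.hB.v - E23) * (P.G true * P.G false)) := by
            simp only [Matrix.transpose_mul, Matrix.mul_assoc, Matrix.mul_neg, Matrix.neg_mul]
        _ = _ := by rw [g]; simp
    · exact slope
  · cases b
    · have := h.up (m := -m) (by rwa [abs_neg])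
      rw [sub_neg_eq_add, ← sub_eq_add_neg] at this
      change (P.gd.H false).cf (P.hB.M + m) = (P.gd.H true).cf (P.hA.M - m) * rm (P.G false)
      rw [this, Matrix.mul_assoc, g', Matrix.mul_one]
    · exact h.up hm
  · cases b
    · have := h.lo (m := -m) (by rwa [abs_neg])
      rw [sub_neg_eq_add, ← sub_eq_add_neg] at this
      change (P.gd.H false).cf (-P.hB.M - m) * rm P.hB.T =
        (P.gd.H true).cf (-P.hA.M + m) * rm P.hA.T * rm (P.G false)
      rw [this, Matrix.mul_assoc _ _ (rm (P.G false)), g', Matrix.mul_one]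
    · exact h.lo hm

end FP

theorem exists_GD (N : ℝ) : ∃ D : GD, D.Ok ∧ N ≤ (D.H true).μ₁ := by
  obtain ⟨c, C, δ, hc, hδ, h⟩ := Fr.bd_AB
  obtain ⟨η, M₂, hη⟩ := exists_eta 3200 (by norm_num)
  have hC : 1 ≤ max C 1 := le_max_right _ _
  have r : 0 < c / max C 1 := by positivity
  obtain ⟨n, hn⟩ := exists_nat_ge (max (max 4 (max |N| δ⁻¹))
    (max (204800 / c) (max (2048 * M₂ / (c / max C 1)) (8 / (c / max C 1)))))
  simp only [max_le_iff] at hn
  obtain ⟨⟨n1, n2, n3⟩, n4, n5, n6⟩ := hn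
  rw [div_le_iff₀ hc] at n4
  rw [div_le_iff₀ r] at n5 n6
  obtain ⟨g, hg⟩ := exists_gauge (σ := √(2 * (n : ℝ))) (Real.sqrt_pos.2 (by linarith only [n1]))
  let P : FP := ⟨n, c / max C 1 * (2 * (n : ℝ)) ^ 2, M₂, η, g⟩
  have k : P.K = 2 * (n : ℝ) := by simp [P, FP.K]
  have n0 : (0 : ℝ) < n := by linarith only [n1]
  refine ⟨P.gd, FP.Big.ok (c := c) (C := max C 1) ⟨by change (4 : ℤ) ≤ n; exact_mod_cast n1, hη, k ▸ hg, hc, hC,
    by rw [k], by rw [k]; linarith only [n4], by rw [k]; change 2048 * M₂ ≤ _; linarith only [n5, n6],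
    by rw [k]; linarith only [n6], fun x hx => ?_⟩, ?_⟩
  · have := h P.K⁻¹ (by
      rw [k, abs_of_pos (by positivity)]
      exact inv_le_of_inv_le₀ hδ (by linarith only [n1, n3])) x hx
    exact ⟨this.1.mono le_rfl (le_max_left _ _), this.2.mono le_rfl (le_max_left _ _)⟩
  · change N ≤ P.K ^ 2 - P.K / 2 - 2
    rw [k]
    linarith only [n1, n2, le_abs_self N, mul_nonneg_of_nonpos_of_nonpos (Mathlib.Tactic.Linarith.sub_nonpos_of_le (Mathlib.Tactic.Linarith.natCast_nonneg ℝ n)) (Mathlib.Tactic.Linarith.sub_nonpos_of_le n1)]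

end Pool.Agent.Work.MP_bf98aa_gt.B3
end

-- merged part: Pool.Agent.Work.MP_bf98aa_gt.Cy.Q8
section
/-!
The path of tamed endomorphisms on a bundle.
-/

set_option autoImplicit false

open scoped Manifold ContDiff Topology ComplexConjugate
open Set Complex

namespace Pool.Agent.Work.MP_bf98aa_gt.Cy

open Pool.Agent.Work.MP_bf98aa_gt.Th

/-- The form `ρ + i σ` after making `J` orthogonal. -/
noncomputable def Of (J : En) (ρ σ : Alt V3 3) (u v z : V3) : ℂ :=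
  om3 (psh (Rf J) ρ) (psh (Rf J) σ) ![u, v, z]

theorem om3_psh {V W : Type} [NormedAddCommGroup V] [NormedSpace ℝ V] [NormedAddCommGroup W]
    [NormedSpace ℝ W] (g : V ≃L[ℝ] W) (ρ σ : Alt V 3) (u v z : W) :
    om3 (psh g ρ) (psh g σ) ![u, v, z] = om3 ρ σ ![g.symm u, g.symm v, g.symm z] := by
  have e : (![u, v, z] : Fin 3 → W) = fun j => g (![g.symm u, g.symm v, g.symm z] j) := by
    funext j; fin_cases j <;> simp
  rw [e, om3, psh_apply, psh_apply, om3]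

theorem Rf_symm_conj (A : En) {g : Au} (hg : Iso g) (v : V3) :
    (Rf (cj g A)).symm (g v) = g ((Rf A).symm v) := by
  rw [ContinuousLinearEquiv.symm_apply_eq, Rf_conj A hg, ContinuousLinearEquiv.apply_symm_apply]

theorem Of_push (J : En) (ρ σ : Alt V3 3) {g : Au} (hg : Iso g) (u v z : V3) :
    Of (cj g J) (psh g ρ) (psh g σ) (g u) (g v) (g z) = Of J ρ σ u v z := by
  simp only [Of, om3_psh, Rf_symm_conj J hg, ContinuousLinearEquiv.symm_apply_apply]

theorem Of_act {J : En} {ρ σ : Alt V3 3} {g : Au} (hg : SUn g) {s : Spn} {f : ℂ → ℂ}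
    (h : ∀ u v z, Of J ρ σ u v z = f (Om s u v z)) (u v z : V3) :
    Of (cj g J) (psh g ρ) (psh g σ) u v z = f (Om (act g s) u v z) := by
  obtain ⟨u, rfl⟩ := g.surjective u
  obtain ⟨v, rfl⟩ := g.surjective v
  obtain ⟨z, rfl⟩ := g.surjective z
  rw [Of_push J ρ σ hg.iso, hg.Om, h]

theorem Of_cont {X : Type} [TopologicalSpace X] {S : Set X} {J : X → En} {ρ σ : X → Alt V3 3}
    (hρ : ContinuousOn ρ S) (hσ : ContinuousOn σ S) (hJ : ContinuousOn J S) :
    ContinuousOn (fun x => Of (J x) (ρ x) (σ x)) S := by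
  refine continuousOn_pi.2 fun u => continuousOn_pi.2 fun v => continuousOn_pi.2 fun z => ?_
  have hR := Rf_symm_cont.comp_continuousOn hJ
  have hv : ContinuousOn (fun x => (![(Rf (J x)).symm u, (Rf (J x)).symm v, (Rf (J x)).symm z] :
      Fin 3 → V3)) S := by
    refine continuousOn_pi.2 fun j => ?_
    fin_cases j
    · exact hR.clm_apply (continuousOn_const (c := u))
    · exact hR.clm_apply (continuousOn_const (c := v))
    · exact hR.clm_apply (continuousOn_const (c := z))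
  simp only [Of, om3_psh]
  simp only [om3]
  exact (continuous_ofReal.comp_continuousOn (hρ.eval hv)).add
    (continuousOn_const.mul (continuous_ofReal.comp_continuousOn (hσ.eval hv)))

theorem Ty.iso {J : En} {ρ σ : Alt V3 3} (h : Ty J ρ σ) : Iso (cj (Rf J) J) := by
  intro u v
  obtain ⟨u, rfl⟩ := (Rf J).surjective u
  obtain ⟨v, rfl⟩ := (Rf J).surjective v
  have e : ip (-u) (-v) = ip u v := by
    rw [(ip_lin (-v)).map_neg, (ip_lin' u).map_neg, neg_neg]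
  rw [cj_apply, cj_apply, Rf_spec, Rf_spec, h.1, h.1, e, add_comm]

theorem Rf_neg (J : En) : Rf (-J) = Rf J := by
  refine congrArg sqt ?_
  funext u v
  rw [neg_apply, neg_apply, (ip_lin (-J v)).map_neg,
    (ip_lin' (J u)).map_neg, neg_neg]

theorem Of_neg (J : En) (ρ σ : Alt V3 3) (u v z : V3) :
    Of (-J) ρ (-σ) u v z = conj (Of J ρ σ u v z) := by
  simp only [Of, om3_psh, Rf_neg]
  simp only [om3, ContinuousAlternatingMap.neg_apply, map_add, map_mul, conj_ofReal, conj_I,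
    ofReal_neg]
  ring

theorem cj_ext {V W : Type} [NormedAddCommGroup V] [NormedSpace ℝ V] [NormedAddCommGroup W]
    [NormedSpace ℝ W] (g : V ≃L[ℝ] W) {A : V →L[ℝ] V} {B : W →L[ℝ] W}
    (h : ∀ v, g (A v) = B (g v)) : cj g A = B := by
  ext1 v
  obtain ⟨v, rfl⟩ := g.surjective v
  rw [cj_apply, h]

theorem Tms.smul {V : Type} [NormedAddCommGroup V] [NormedSpace ℝ V] {β : Alt V 2}
    {A : V →L[ℝ] V} (h : Tms β A) {a b : ℝ} (hab : 0 < a * b) : Tms (a • β) (b • A) := by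
  intro v hv
  have e : (![v, (b • A) v] : Fin 2 → V) = fun j => ![1, b] j • ![v, A v] j := by
    funext j; fin_cases j <;> simp
  rw [ContinuousAlternatingMap.smul_apply, e, β.map_smul_univ, Fin.prod_univ_two]
  simpa [← mul_assoc] using mul_pos hab (h v hv)

theorem cj_path {g : Au} (hg : SUn g) (c : ℝ) (J : En) (s : Spn) :
    cj g (cj (Rf (c • J)).symm (Jt s)) = ((Rf (c • cj g J)).symm : En).comp
      ((Jt (act g s)).comp (Rf (c • cj g J) : En)) := by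
  have e : c • cj g J = cj g (c • J) := (cj_ext g fun v => by
    rw [smul_apply, smul_apply, cj_apply, map_smul]).symm
  refine cj_ext g fun v => ?_
  rw [e, ← hg.Jt]
  simp only [ContinuousLinearMap.comp_apply, ContinuousLinearEquiv.coe_coe]
  rw [Rf_conj _ hg.iso, cj_apply, Rf_symm_conj _ hg.iso]
  rfl

variable {X ι : Type} [TopologicalSpace X] [CompactSpace X] [T2Space X] [ChartedSpace E6 X]
  [SimplyConnectedSpace X] {B : Bdl X ι}

theorem Bdl.Ok.path_pos (h : B.Ok) {ρ σ : X → Alt V3 3} (hρ : B.CF ρ) (hσ : B.CF σ) {J : X → En}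
    (hJ : ∀ x, Ty (J x) (ρ x) (σ x)) {s : X → Spn}
    (hs : ∀ x u v z, Of (J x) (ρ x) (σ x) u v z = Om (s x) u v z) : ∃ A : ℝ → X → En,
      (∀ i, ContinuousOn (fun z : ℝ × X => cj (B.g i z.2) (A z.1 z.2)) (univ ×ˢ B.O i)) ∧
      (∀ t ∈ Icc (0 : ℝ) 1, ∀ x, ∃ β, Tms β (A t x)) ∧ (∀ x, ∃ r : ℝ, 0 < r ∧ A 0 x = r • J x) ∧
      ∀ x v, A 1 x v = I • v := by
  have : LocallyPathConnectedSpace X := ChartedSpace.locallyPathConnectedSpace E6 X
  have cJ : ∀ i, ContinuousOn (fun x => cj (B.g i x) (J x)) (B.O i) := fun i =>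
    Ty.cont finrank_V3 (hρ i) (hσ i) fun x _ => (hJ x).push _
  have h0 : ∀ x, s x ≠ 0 := fun x => (((hJ x).push (Rf (J x))).Jt_eq (hs x)).1
  obtain ⟨e, he, hΨ⟩ := h.lift h0 fun i => (Of_cont (hρ i) (hσ i) (cJ i)).congr fun x hx => by
    funext u v z
    exact (Of_act (f := id) (h.su i x hx) (hs x) u v z).symm
  have hE := fun x => ((hJ x).push (Rf (J x))).Jt_eq (s := e x • s x) fun u v z => by
    rw [Om_rsmul (he x)]; exact hs x u v z
  obtain ⟨ψ, p0, p1, pn, pc⟩ := h.spath hΨ fun x => (hE x).1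
  refine ⟨fun t x => cj (Rf ((1 - t) • J x)).symm (Jt (ψ t x)), fun i => ?_, fun t ht x => ?_,
    fun x => ⟨nS (e x • s x), nS_pos (hE x).1, ?_⟩, fun x v => ?_⟩
  · have c1 : ContinuousOn (fun z : ℝ × X => (1 - z.1) • cj (B.g i z.2) (J z.2))
        (univ ×ˢ B.O i) := (continuousOn_const.sub continuousOn_fst).smul
      ((cJ i).comp continuousOn_snd fun z hz => hz.2)
    exact ((Rf_symm_cont.comp_continuousOn c1).clm_comp ((Jt_cont.comp_continuousOn (pc i)).clm_comp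
      (Rf_cont.comp_continuousOn c1))).congr fun z hz => cj_path (h.su i z.2 hz.2) _ _ _
  · obtain ⟨β, hβ⟩ := tame_of_skew (Jt_skew (ψ t x)) fun v hv h' => by
      have := Jt_ip (ψ t x) v v
      rw [h', (ip_lin (0 : V3)).map_zero] at this
      exact (mul_pos (pow_pos (nS_pos (pn t ht x)) 2) (ip_pos hv)).ne this
    exact ⟨_, hβ.push _⟩
  · refine cj_ext _ fun v => ?_
    rw [p0, (hE x).2, sub_zero, one_smul]
    obtain ⟨v, rfl⟩ := (Rf (J x)).surjective v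
    rw [smul_apply, cj_apply, map_smul, ContinuousLinearEquiv.symm_apply_apply,
      ContinuousLinearEquiv.symm_apply_apply, smul_apply]
  · have e0 : ∀ v, (Rf 0).symm v = v := fun v => by
      rw [ContinuousLinearEquiv.symm_apply_eq, Rf_zero]
    have := cj_apply (Rf 0).symm (Jt (1, 0)) v
    rw [e0, e0, Jt_one] at this
    simp only [p1, sub_self]
    rw [zero_smul ℝ (J x), this]

theorem Bdl.Ok.path (h : B.Ok) {ρ σ : X → Alt V3 3} (hρ : B.CF ρ) (hσ : B.CF σ) {J : X → En}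
    (hJ : ∀ x, Ty (J x) (ρ x) (σ x)) :
    ∃ (ε : ℝ) (A : ℝ → X → En), (ε = 1 ∨ ε = -1) ∧
      (∀ i, ContinuousOn (fun z : ℝ × X => cj (B.g i z.2) (A z.1 z.2)) (univ ×ˢ B.O i)) ∧
      (∀ t ∈ Icc (0 : ℝ) 1, ∀ x, ∃ β, Tms β (A t x)) ∧ (∀ x, ∃ r : ℝ, 0 < r ∧ A 0 x = r • J x) ∧
      ∀ x v, A 1 x v = ε • I • v := by
  have cJ : ∀ i, ContinuousOn (fun x => cj (B.g i x) (J x)) (B.O i) := fun i =>
    Ty.cont finrank_V3 (hρ i) (hσ i) fun x _ => (hJ x).push _
  choose s hs using fun x => exists_spinor ((hJ x).push (Rf (J x))) (hJ x).iso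
  have hp : ∀ x, (∀ u v z, Of (J x) (ρ x) (σ x) u v z = Om (s x) u v z) →
      Bq (Of (J x) (ρ x) (σ x)) = 4 * nS (s x) ^ 2 ∧ 0 < nS (s x) := fun x hx =>
    ⟨by rw [← Bq_Om]; congr 1; funext u v z; exact hx u v z,
      nS_pos (((hJ x).push (Rf (J x))).Jt_eq hx).1⟩
  have hm : ∀ x, (∀ u v z, Of (J x) (ρ x) (σ x) u v z = conj (Om (s x) u v z)) →
      ∀ u v z, Of (-J x) (ρ x) (-σ x) u v z = Om (s x) u v z := fun x hx u v z => by
    rw [Of_neg, hx, conj_conj]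
  have hn : ∀ x, (∀ u v z, Of (J x) (ρ x) (σ x) u v z = conj (Om (s x) u v z)) →
      Bq (Of (J x) (ρ x) (σ x)) = -(4 * nS (s x) ^ 2) ∧ 0 < nS (s x) := fun x hx =>
    ⟨by rw [← Bq_Om, ← Bq_conj]; congr 1; funext u v z; exact hx u v z,
      nS_pos (((hJ x).neg.push (Rf (-J x))).Jt_eq (hm x hx)).1⟩
  have cb : Continuous fun x => Bq (Of (J x) (ρ x) (σ x)) := by
    refine continuous_iff_continuousAt.2 fun x₀ => ?_
    obtain ⟨i, hi⟩ := h.cov x₀
    refine ((Bq_cont.comp_continuousOn (Of_cont (hρ i) (hσ i) (cJ i))).congr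
      fun x hx => ?_).continuousAt ((h.opn i).mem_nhds hi)
    rcases hs x with hx' | hx'
    · have := Of_act (f := id) (h.su i x hx) hx'
      rw [(hp x hx').1, ← (h.su i x hx).nS, ← Bq_Om]
      exact congrArg Bq (funext fun u => funext fun v => funext fun z => (this u v z).symm)
    · have := Of_act (f := conj) (h.su i x hx) hx'
      rw [(hn x hx').1, ← (h.su i x hx).nS, ← Bq_Om, ← Bq_conj]
      exact congrArg Bq (funext fun u => funext fun v => funext fun z => (this u v z).symm)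
  have nz : ∀ x, Bq (Of (J x) (ρ x) (σ x)) ≠ 0 := fun x => by
    rcases hs x with hx | hx
    · rw [(hp x hx).1]; have := (hp x hx).2; positivity
    · rw [(hn x hx).1, neg_ne_zero]; have := (hn x hx).2; positivity
  by_cases hc : ∀ x u v z, Of (J x) (ρ x) (σ x) u v z = Om (s x) u v z
  · obtain ⟨A, a1, a2, a3, a4⟩ := h.path_pos hρ hσ hJ hc
    exact ⟨1, A, .inl rfl, a1, a2, a3, fun x v => by rw [a4, one_smul]⟩
  obtain ⟨x₀, hx₀⟩ := not_forall.1 hc
  have hc' : ∀ x u v z, Of (J x) (ρ x) (σ x) u v z = conj (Om (s x) u v z) := fun x => by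
    refine (hs x).resolve_left fun hx => ?_
    have h1 := hn x₀ ((hs x₀).resolve_left hx₀)
    have h2 := hp x hx
    obtain ⟨y, hy⟩ := intermediate_value_univ x₀ x cb (show (0 : ℝ) ∈ Icc _ _ from
      ⟨by rw [h1.1]; exact neg_nonpos.2 (by positivity), by rw [h2.1]; positivity⟩)
    exact nz y hy
  have hσ' : B.CF fun x => -σ x := fun i => (hσ i).neg.congr fun x _ => by
    ext v; rfl
  obtain ⟨A, a1, a2, a3, a4⟩ := h.path_pos hρ hσ' (fun x => (hJ x).neg) fun x => hm x (hc' x)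
  refine ⟨-1, fun t x => -A t x, .inr rfl, fun i => (a1 i).neg.congr fun z _ => ?_,
    fun t ht x => ?_, fun x => ?_, fun x v => ?_⟩
  · exact cj_ext _ fun v => by
      rw [Pi.neg_apply, neg_apply, neg_apply, cj_apply,
        map_neg]
  · obtain ⟨β, hβ⟩ := a2 t ht x
    exact ⟨_, neg_one_smul ℝ (A t x) ▸ hβ.smul (a := -1) (b := -1) (by norm_num)⟩
  · obtain ⟨r, hr, e⟩ := a3 x
    exact ⟨r, hr, by simp only [e, smul_neg, neg_neg]⟩
  · simp only [neg_apply, a4, neg_smul, one_smul]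

end Pool.Agent.Work.MP_bf98aa_gt.Cy
end
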