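import Pool.Agent.Work.MP_bf98aa_gt.Cy.Stmt

/-!
Closed simply connected manifolds and forms that span the second cohomology.
-/

set_option autoImplicit false

open scoped Manifold ContDiff

namespace Pool.Agent.Work.MP_bf98aa_gt.Cy

open Pool.Agent.Work.MP_bf98aa_gt.Th

/-- Every closed 2-form is cohomologous to a multiple of `η`. -/
def Spans {E : Type} [NormedAddCommGroup E] [NormedSpace ℝ E] {M : Type} [TopologicalSpace M]
    [ChartedSpace E M] (η : Form E M 2) : Prop :=
  ∀ w : Form E M 2, w.Closed → ∃ t : ℝ, (w.sub fun x => t • η x).Exact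

/-- Closed simply connected smooth manifolds modelled on `E`. -/
structure Mfd (E : Type) [NormedAddCommGroup E] [NormedSpace ℝ E] where
  M : Type
  [top : TopologicalSpace M]
  [t2 : T2Space M]
  [cpt : CompactSpace M]
  [sc : SimplyConnectedSpace M]
  [ch : ChartedSpace E M]
  [mf : IsManifold 𝓘(ℝ, E) ∞ M]

attribute [instance] Mfd.top Mfd.ch

/-- There is a diffeomorphism. -/
def Mfd.Diffeo {E : Type} [NormedAddCommGroup E] [NormedSpace ℝ E] (X Y : Mfd E) : Prop :=
  Nonempty (Diffeomorph 𝓘(ℝ, E) 𝓘(ℝ, E) X.M Y.M ∞)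

end Pool.Agent.Work.MP_bf98aa_gt.Cy
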