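import Pool.Agent.Work.MP_bf98aa_gt.Cy.Stmt2

/-!
The existence question for nondegenerate forms with trivial canonical bundle.
-/

set_option autoImplicit false

namespace Pool.Agent.Work.MP_bf98aa_gt.Cy

open Pool.Agent.Work.MP_bf98aa_gt.Th

/-- Every class of positive volume has a symplectic form homotopic to a given nondegenerate form
with trivial canonical bundle. -/
def Q1CY (n : ℕ) (M : Type) [TopologicalSpace M] [ChartedSpace (Sp (Fin n)) M] : Prop :=
  ∀ τ w : Form (Sp (Fin n)) M 2, τ.Smooth → CalabiYau τ → w.Closed → ∀ c : ℝ, 0 < c →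
    HasIntegral τ w c →
      ∃ o : Form (Sp (Fin n)) M 2, o.Closed ∧ o.Nondeg ∧ (o.sub w).Exact ∧ Homotopic τ o

end Pool.Agent.Work.MP_bf98aa_gt.Cy
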