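import Pool.Agent.Work.MP_bf98aa_gt.Cy.G11b

/-!
Circle bundles over the four-torus.

PLAN. Let `X i`, `Y j`, `Z` be the generators of `HT 1 K`; `X i (Y j z) = Z ^ (-K i j) (Y j (X i z))`. `heis_h1`: `pot`, `jump` for the five generators; iterate (`Int.induction_on`) to get
`f (hact m n l z) - f z = e · (m, n) + l * c`; the commutator gives `K i j * c = 0`; then `ex_of_pot` for `f - e · z`. `heis_cst`: `β = pl ψ b` is invariant (`Deck.inv`), `λ = ∑ γ i j x i dy j` has `d λ = cst γ`,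
`β - λ = d f` on the convex slab (`RA_convex`); for a deck map `T` with base shift `m` the function `f ∘ T - f + ∑ γ i j m i y j` is a constant `c T`; comparing `X i (Y j z)` with `Y j (X i z)`
gives `γ i j = K i j * c Z` (no Stokes needed). `heis_ex`: `Deck.desc` for `cst γ` and `Deck.ex_of_inv` with `heis_isD` (`conn` is invariant under the deck maps: `conn_apply`).
-/

set_option autoImplicit false

open scoped Manifold ContDiff Topology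
open Set

namespace Pool.Agent.Work.MP_bf98aa_gt.Cy

open Pool.Agent.Work.MP_bf98aa_gt.Th

variable {M : Type} [TopologicalSpace M] [ChartedSpace E6 M] [IsManifold 𝓘(ℝ, E6) ∞ M]
  {F F' : Type} [NormedAddCommGroup F] [NormedSpace ℝ F] [FiniteDimensional ℝ F]
  [NormedAddCommGroup F'] [NormedSpace ℝ F'] [FiniteDimensional ℝ F'] {k : ℕ}
  {ψ ψ' ψ'' : E6 → M} {U U' U'' V : Set E6} {O O' A B : Set M}

variable {K : Matrix (Fin 2) (Fin 2) ℤ} {κ : ℤ} {a b : ℝ}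

/-- The linear part of a deck map. -/
noncomputable def G11_L (K : Matrix (Fin 2) (Fin 2) ℤ) (m₀ m₁ : ℤ) : E6 →L[ℝ] E6 :=
  ContinuousLinearMap.id ℝ E6 -
    ((m₀ : ℝ) • ((K 0 0 : ℝ) • dc (0, 1) + (K 0 1 : ℝ) • dc (1, 1)) +
      (m₁ : ℝ) • ((K 1 0 : ℝ) • dc (0, 1) + (K 1 1 : ℝ) • dc (1, 1))).smulRight (bv (2, 1))

theorem G11_L_apply (m₀ m₁ : ℤ) (v : E6) : G11_L K m₀ m₁ v =
    mk (v (0, 0)) (v (0, 1)) (v (1, 0)) (v (1, 1)) (v (2, 0))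
      (v (2, 1) - (m₀ * (K 0 0 * v (0, 1) + K 0 1 * v (1, 1)) +
        m₁ * (K 1 0 * v (0, 1) + K 1 1 * v (1, 1)))) := by
  apply ext6 <;> simp [G11_L, dc, bv, mul_add]

theorem G11_has (m₀ m₁ n₀ n₁ l : ℤ) (z : E6) :
    HasFDerivAt (hact K m₀ m₁ n₀ n₁ l) (G11_L K m₀ m₁) z := by
  have h : hact K m₀ m₁ n₀ n₁ l = fun z => G11_L K m₀ m₁ z + mk m₀ n₀ m₁ n₁ 0 l := by
    funext z
    rw [G11_L_apply]
    apply ext6 <;> simp [hact]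
  rw [h]
  exact (G11_L K m₀ m₁).hasFDerivAt.add_const _

theorem G11_pb1 (m₀ m₁ n₀ n₁ l : ℤ) (β : Fm E6 1) (z v : E6) :
    pb (hact K m₀ m₁ n₀ n₁ l) β z ![v] = β (hact K m₀ m₁ n₀ n₁ l z) ![G11_L K m₀ m₁ v] := by
  rw [pb, (G11_has m₀ m₁ n₀ n₁ l z).fderiv, ContinuousAlternatingMap.compContinuousLinearMap_apply]
  exact congrArg _ (funext fun i => by fin_cases i; rfl)

theorem G11_pb2 (m₀ m₁ n₀ n₁ l : ℤ) (β : Fm E6 2) (z u v : E6) :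
    pb (hact K m₀ m₁ n₀ n₁ l) β z ![u, v] =
      β (hact K m₀ m₁ n₀ n₁ l z) ![G11_L K m₀ m₁ u, G11_L K m₀ m₁ v] := by
  rw [pb, (G11_has m₀ m₁ n₀ n₁ l z).fderiv, ContinuousAlternatingMap.compContinuousLinearMap_apply]
  exact congrArg _ (funext fun i => by fin_cases i <;> rfl)

theorem G11_comp (m₀ m₁ n₀ n₁ l m₀' m₁' n₀' n₁' l' : ℤ) (z : E6) :
    hact K m₀ m₁ n₀ n₁ l (hact K m₀' m₁' n₀' n₁' l' z) =
      hact K (m₀ + m₀') (m₁ + m₁') (n₀ + n₀') (n₁ + n₁')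
        (l + l' - (m₀ * (K 0 0 * n₀' + K 0 1 * n₁') + m₁ * (K 1 0 * n₀' + K 1 1 * n₁'))) z := by
  apply ext6 <;> simp only [hact, mk00, mk01, mk10, mk11, mk20, mk21] <;> push_cast <;> ring

theorem G11_mem (m₀ m₁ n₀ n₁ l : ℤ) : hact K m₀ m₁ n₀ n₁ l ∈ HT 1 K :=
  ⟨m₀, m₁, n₀, n₁, l, by rw [one_mul]⟩

theorem G11_maps (m₀ m₁ n₀ n₁ l : ℤ) {z : E6} (hz : z ∈ Slab a b) :
    hact K m₀ m₁ n₀ n₁ l z ∈ Slab a b := hz

theorem G11_open : IsOpen (Slab a b) :=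
  (isOpen_lt continuous_const (continuous_apply _)).inter
    (isOpen_lt (continuous_apply _) continuous_const)

theorem G11_convex : Convex ℝ (Slab a b) :=
  (convex_Ioo a b).linear_preimage (dc (2, 0)).toLinearMap

theorem G11_lin {A : ℤ → ℝ} (h : ∀ x y, A (x + y) = A x + A y) (x : ℤ) : A x = x * A 1 := by
  have h1 := map_zsmul (AddMonoidHom.mk' A h) x 1
  simpa using h1

theorem G11_coc {γ : Matrix (Fin 2) (Fin 2) ℝ} {J : ℤ → ℤ → ℤ → ℤ → ℤ → ℝ}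
    (h : ∀ m₀ m₁ n₀ n₁ l m₀' m₁' n₀' n₁' l' : ℤ, J (m₀ + m₀') (m₁ + m₁') (n₀ + n₀') (n₁ + n₁')
        (l + l' - (m₀ * (K 0 0 * n₀' + K 0 1 * n₁') + m₁ * (K 1 0 * n₀' + K 1 1 * n₁'))) =
      J m₀ m₁ n₀ n₁ l + J m₀' m₁' n₀' n₁' l' -
        (m₀ * (γ 0 0 * n₀' + γ 0 1 * n₁') + m₁ * (γ 1 0 * n₀' + γ 1 1 * n₁'))) :
    (∀ i j, γ i j = J 0 0 0 0 1 * K i j) ∧ ∀ m₀ m₁ n₀ n₁ l : ℤ, J m₀ m₁ n₀ n₁ l =
      m₀ * J 1 0 0 0 0 + m₁ * J 0 1 0 0 0 + n₀ * J 0 0 1 0 0 + n₁ * J 0 0 0 1 0 +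
        l * J 0 0 0 0 1 := by
  have e : ∀ m₀ m₁ n₀ n₁ l : ℤ, J m₀ m₁ n₀ n₁ l =
      m₀ * J 1 0 0 0 0 + m₁ * J 0 1 0 0 0 + n₀ * J 0 0 1 0 0 + n₁ * J 0 0 0 1 0 +
        l * J 0 0 0 0 1 := by
    intro m₀ m₁ n₀ n₁ l
    have a1 := G11_lin (A := fun x => J x 0 0 0 0)
      (fun x y => by simpa using h x 0 0 0 0 y 0 0 0 0) m₀
    have a2 := G11_lin (A := fun x => J 0 x 0 0 0)
      (fun x y => by simpa using h 0 x 0 0 0 0 y 0 0 0) m₁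
    have a3 := G11_lin (A := fun x => J 0 0 x 0 0)
      (fun x y => by simpa using h 0 0 x 0 0 0 0 y 0 0) n₀
    have a4 := G11_lin (A := fun x => J 0 0 0 x 0)
      (fun x y => by simpa using h 0 0 0 x 0 0 0 0 y 0) n₁
    have a5 := G11_lin (A := fun x => J 0 0 0 0 x)
      (fun x y => by simpa using h 0 0 0 0 x 0 0 0 0 y) l
    have b1 := h m₀ 0 0 0 0 0 m₁ 0 0 0
    have b2 := h 0 0 n₀ 0 0 m₀ m₁ 0 0 0
    have b3 := h 0 0 0 n₁ 0 m₀ m₁ n₀ 0 0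
    have b4 := h 0 0 0 0 l m₀ m₁ n₀ n₁ 0
    simp only [add_zero, zero_add, mul_zero, zero_mul, sub_zero, Int.cast_zero] at b1 b2 b3 b4
    linarith
  refine ⟨fun i j => ?_, e⟩
  have c1 := h 1 0 0 0 0 0 0 1 0 0
  have c2 := h 1 0 0 0 0 0 0 0 1 0
  have c3 := h 0 1 0 0 0 0 0 1 0 0
  have c4 := h 0 1 0 0 0 0 0 0 1 0
  rw [e] at c1 c2 c3 c4
  push_cast at c1 c2 c3 c4
  fin_cases i <;> fin_cases j <;> simp only [Fin.zero_eta, Fin.mk_one, Fin.isValue] <;> linarith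

theorem G11_main (hab : a < b) {γ : Matrix (Fin 2) (Fin 2) ℝ} {f : E6 → ℝ} {β : Fm E6 1}
    (hf : ContDiffOn ℝ ∞ f (Slab a b)) (hi : ∀ T ∈ HT 1 K, ∀ z ∈ Slab a b, pb T β z = β z)
    (hd : ∀ z ∈ Slab a b, ∀ v, fderiv ℝ f z v = β z ![v] - (conn γ z v - v (2, 1))) :
    ∃ e₀ e₁ e₂ e₃ c : ℝ, (∀ i j, γ i j = c * K i j) ∧ ∀ m₀ m₁ n₀ n₁ l : ℤ, ∀ z ∈ Slab a b,
      f (hact K m₀ m₁ n₀ n₁ l z) - f z + (m₀ * (γ 0 0 * z (0, 1) + γ 0 1 * z (1, 1)) +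
        m₁ * (γ 1 0 * z (0, 1) + γ 1 1 * z (1, 1))) =
      m₀ * e₀ + m₁ * e₁ + n₀ * e₂ + n₁ * e₃ + l * c := by
  have hz₀ : mk 0 0 0 0 ((a + b) / 2) 0 ∈ Slab a b := by
    constructor <;> simp only [mk20] <;> linarith
  have df : ∀ z ∈ Slab a b, HasFDerivAt f (fderiv ℝ f z) z := fun z hz =>
    ((hf.contDiffAt (G11_open.mem_nhds hz)).differentiableAt (by simp)).hasFDerivAt
  have hJ : ∀ m₀ m₁ n₀ n₁ l : ℤ, ∃ c : ℝ, ∀ z ∈ Slab a b,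
      f (hact K m₀ m₁ n₀ n₁ l z) - f z + (m₀ * (γ 0 0 * z (0, 1) + γ 0 1 * z (1, 1)) +
        m₁ * (γ 1 0 * z (0, 1) + γ 1 1 * z (1, 1))) = c := by
    intro m₀ m₁ n₀ n₁ l
    let Λ : E6 →L[ℝ] ℝ := (m₀ : ℝ) • (γ 0 0 • dc (0, 1) + γ 0 1 • dc (1, 1)) +
      (m₁ : ℝ) • (γ 1 0 • dc (0, 1) + γ 1 1 • dc (1, 1))
    have hΛ : ∀ v, Λ v = m₀ * (γ 0 0 * v (0, 1) + γ 0 1 * v (1, 1)) +
        m₁ * (γ 1 0 * v (0, 1) + γ 1 1 * v (1, 1)) := fun v => rfl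
    have h0 : ∀ z ∈ Slab a b,
        HasFDerivAt (fun z => f (hact K m₀ m₁ n₀ n₁ l z) - f z + Λ z) (0 : E6 →L[ℝ] ℝ) z := by
      intro z hz
      have h1 := (((df _ (G11_maps (K := K) m₀ m₁ n₀ n₁ l hz)).comp z
        (G11_has m₀ m₁ n₀ n₁ l z)).sub (df z hz)).add Λ.hasFDerivAt
      refine h1.congr_fderiv (ContinuousLinearMap.ext fun v => ?_)
      have h2 := G11_pb1 (K := K) m₀ m₁ n₀ n₁ l β z v
      rw [hi _ (G11_mem m₀ m₁ n₀ n₁ l) z hz] at h2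
      rw [add_apply, sub_apply, ContinuousLinearMap.comp_apply, hd _ (G11_maps m₀ m₁ n₀ n₁ l hz),
        hd z hz, ← h2, hΛ, conn_apply, conn_apply, G11_L_apply]
      simp only [hact, mk00, mk01, mk10, mk11, mk21, zero_apply]
      ring
    exact ⟨_, fun z hz => G11_open.is_const_of_fderiv_eq_zero G11_convex.isPreconnected
      (fun z hz => (h0 z hz).differentiableAt.differentiableWithinAt)
      (fun z hz => (h0 z hz).fderiv) hz hz₀⟩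
  choose J hJ using hJ
  obtain ⟨h1, h2⟩ := G11_coc (K := K) (γ := γ) (J := J) fun m₀ m₁ n₀ n₁ l m₀' m₁' n₀' n₁' l' => by
    rw [← hJ _ _ _ _ _ _ hz₀, ← hJ m₀' m₁' n₀' n₁' l' _ hz₀,
      ← hJ m₀ m₁ n₀ n₁ l _ (G11_maps (K := K) m₀' m₁' n₀' n₁' l' hz₀), G11_comp]
    simp only [hact, mk01, mk11]
    push_cast
    ring
  exact ⟨_, _, _, _, _, h1, fun m₀ m₁ n₀ n₁ l z hz => (hJ m₀ m₁ n₀ n₁ l z hz).trans (h2 ..)⟩

theorem G11_pot {U : Set E6} (hU : IsOpen U) {β : Fm E6 0} {α : Fm E6 1} (h : IsD β α U) :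
    ∃ f : E6 → ℝ, ContDiffOn ℝ ∞ f U ∧ ∀ x ∈ U, ∀ v, fderiv ℝ f x v = α x ![v] := by
  refine ⟨fun x => β x ![], fun x hx =>
    (contDiffAt_alt_iff.1 (h.1.at hU hx) _).contDiffWithinAt, fun x hx v => ?_⟩
  rw [← h.2 x hx, extDeriv_apply (h.1.diffAt hU hx), Fin.sum_univ_one]
  rw [Subsingleton.elim (Fin.removeNth 0 ![v]) ![]]
  simp

theorem G11_lam (γ : Matrix (Fin 2) (Fin 2) ℝ) (U : Set E6) :
    IsD (fun z : E6 => alt1 (conn γ z - dc (2, 1))) (fun _ => cst γ) U := by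
  let B : E6 →L[ℝ] E6 →L[ℝ] ℝ := γ 0 0 • (dc (0, 0)).smulRight (dc (0, 1)) +
    γ 0 1 • (dc (0, 0)).smulRight (dc (1, 1)) + γ 1 0 • (dc (1, 0)).smulRight (dc (0, 1)) +
    γ 1 1 • (dc (1, 0)).smulRight (dc (1, 1))
  have hB : ∀ u v, B u v = γ 0 0 * (u (0, 0) * v (0, 1)) + γ 0 1 * (u (0, 0) * v (1, 1)) +
      γ 1 0 * (u (1, 0) * v (0, 1)) + γ 1 1 * (u (1, 0) * v (1, 1)) := fun u v => rfl
  let A : E6 →L[ℝ] Alt E6 1 := (ContinuousAlternatingMap.ofSubsingletonLIE (𝕜 := ℝ) (E := E6)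
    (F := ℝ) (0 : Fin 1)).toContinuousLinearEquiv.toContinuousLinearMap.comp B
  have h : (fun z : E6 => alt1 (conn γ z - dc (2, 1))) = A := by
    funext z
    refine congrArg alt1 (ContinuousLinearMap.ext fun v => Eq.trans ?_ (hB z v).symm)
    rw [sub_apply, conn_apply]
    simp only [dc, ContinuousLinearMap.proj_apply]
    ring
  rw [h]
  refine ⟨A.contDiff.contDiffOn, fun x _ => ?_⟩
  rw [extDeriv, A.fderiv]
  refine alt_ext_two fun u v => (alt2_apply B _).trans ?_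
  rw [cst_apply, hB, hB]
  simp only [Matrix.cons_val_zero, Matrix.cons_val_one]
  ring

theorem heis_h1 (hD : Deck ψ (Slab a b) (HT 1 K)) (hK : K ≠ 0) {c : Fo M 1}
    (hc : ClO c (ψ '' Slab a b)) :
    ∃ e : Cx → ℝ, ∀ c' : Fo M 1, (∀ z ∈ Slab a b, pl ψ c' z = alt1 (e (0, 0) • dc (0, 0) +
      e (0, 1) • dc (0, 1) + e (1, 0) • dc (1, 0) + e (1, 1) • dc (1, 1))) →
      ExO (c - c') (ψ '' Slab a b) := by
  by_cases hab : a < b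
  swap
  · have h0 : ∀ z, z ∉ Slab a b := fun z hz => hab (hz.1.trans hz.2)
    exact ⟨0, fun c' _ => ex_of_pot hD.par (f := fun _ => 0) contDiffOn_const
      (fun x hx => (h0 x hx).elim) fun x hx => (h0 x hx).elim⟩
  obtain ⟨f, hf, hd⟩ := pot hD.par (RA_convex G11_open G11_convex 1) hc (mapsTo_image _ _)
  obtain ⟨e₀, e₁, e₂, e₃, l, h1, h2⟩ := G11_main (K := K) hab (γ := 0) (β := pl ψ c) hf
    (fun T hT z hz => hD.inv c hT hz) fun z hz v => by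
      rw [hd z hz, alt1_apply, conn_apply]
      simp
  have hl : l = 0 := by
    by_contra hl
    refine hK (Matrix.ext fun i j => ?_)
    have h3 : (K i j : ℝ) = 0 := (mul_eq_zero.1 (h1 i j).symm).resolve_left hl
    exact_mod_cast h3
  let Λ : E6 →L[ℝ] ℝ := e₀ • dc (0, 0) + e₂ • dc (0, 1) + e₁ • dc (1, 0) + e₃ • dc (1, 1)
  have hΛ : ∀ v, Λ v = e₀ * v (0, 0) + e₂ * v (0, 1) + e₁ * v (1, 0) + e₃ * v (1, 1) :=
    fun v => rfl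
  refine ⟨mk e₀ e₂ e₁ e₃ 0 0, fun c' hc' => ex_of_pot hD.par (f := fun z => f z - Λ z)
    (hf.sub Λ.contDiff.contDiffOn) (fun x hx => ?_) fun x hx y hy he => ?_⟩
  · have h3 := (((hf.contDiffAt (G11_open.mem_nhds hx)).differentiableAt
      (by simp)).hasFDerivAt.sub Λ.hasFDerivAt).fderiv
    rw [pl_sub, Pi.sub_apply, hd x hx, hc' x hx]
    refine Eq.trans ?_ (congrArg alt1 h3.symm)
    rfl
  · obtain ⟨T, ⟨m₀, m₁, n₀, n₁, l', rfl⟩, rfl⟩ := hD.trans x hx y hy he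
    have h3 := h2 (1 * m₀) m₁ n₀ n₁ l' x hx
    rw [hΛ, hΛ]
    simp only [hl, Matrix.zero_apply, zero_mul, mul_zero, add_zero] at h3
    rw [sub_eq_iff_eq_add.1 h3]
    simp only [hact, mk00, mk01, mk10, mk11]
    ring

theorem heis_cst (hD : Deck ψ (Slab a b) (HT 1 K)) (hab : a < b) {γ : Matrix (Fin 2) (Fin 2) ℝ}
    {w : Fo M 2} (hw : ∀ z ∈ Slab a b, pl ψ w z = cst γ) (he : ExO w (ψ '' Slab a b)) :
    ∃ l : ℝ, ∀ i j, γ i j = l * K i j := by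
  obtain ⟨β, hβ⟩ := he
  have h1 := FMV_sub G11_open (hβ ψ _ hD.par (mapsTo_image _ _)) (G11_lam γ _) (α'' := fun _ => 0)
    fun x hx => by rw [hw x hx, sub_self]
  obtain ⟨g, hg⟩ := RA_convex G11_open G11_convex 1 _ h1
  obtain ⟨f, hf, hd⟩ := G11_pot G11_open hg
  obtain ⟨-, -, -, -, l, h2, -⟩ := G11_main (K := K) hab (γ := γ) (β := pl ψ β) hf
    (fun T hT z hz => hD.inv β hT hz) fun z hz v => hd z hz v
  exact ⟨l, h2⟩

theorem heis_ex (hD : Deck ψ (Slab a b) (HT 1 K)) {γ : Matrix (Fin 2) (Fin 2) ℝ} {w : Fo M 2}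
    (hw : ∀ z ∈ Slab a b, pl ψ w z = heis γ (toR K) z) :
    ∃ w' : Fo M 2, (∀ z ∈ Slab a b, pl ψ w' z = cst γ) ∧ ExO (w - w') (ψ '' Slab a b) := by
  obtain ⟨w', hw'⟩ := hD.desc (β := fun _ => cst γ) (by
    rintro T ⟨m₀, m₁, n₀, n₁, l, rfl⟩ x -
    refine alt_ext_two fun u v => ?_
    rw [G11_pb2, cst_apply, cst_apply, G11_L_apply, G11_L_apply]
    rfl)
  have h := heis_isD γ (toR K)
  refine ⟨w', hw', hD.ex_of_inv (β := fun z : E6 => alt1 (z (2, 0) • conn (toR K) z))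
    ⟨h.1.mono (subset_univ _), fun x hx => ?_⟩ ?_⟩
  · rw [h.2 x (mem_univ _), pl_sub, Pi.sub_apply, hw x hx, hw' x hx]
  · rintro T ⟨m₀, m₁, n₀, n₁, l, rfl⟩ x -
    refine alt_ext_one fun u => ?_
    rw [G11_pb1, alt1_apply, alt1_apply, smul_apply, smul_apply, conn_apply, conn_apply,
      Matrix.cons_val_zero, Matrix.cons_val_zero, G11_L_apply]
    simp only [hact, toR, mk00, mk01, mk10, mk11, mk20, mk21, smul_eq_mul]
    ring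

end Pool.Agent.Work.MP_bf98aa_gt.Cy
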