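import Pool.Agent.Work.MP_bf98aa_gt.Cy.K4
import Pool.Agent.Work.MP_bf98aa_gt.Cy.G2

/-!
The ambient form is invariant; compatibility on a kink.

PLAN. `lamL_inv`: with `U' = U ee (θ)`, `imd U' dU' = imd U dU + |U|² dθ`; collect terms and use `mul_kk`, `r0_am`, `κ² = κ`. `omA_inv`: `extDeriv_pb`; `cstA` only sees translations.
`TM.cmp`: `Par.tr` gives `f`; near the point `io s' ∘ f = nact ∘ io s` (`RN_local`). `TM.vcmp`: the first five coordinates of `f z - z` are locally constant (`amu` for `μ`), and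
`∂ f / ∂ φ = bv (2,1)` because `ee (± f z (2,1))` is `ee (± φ)` times a function independent of `φ` (differentiate); the matrix is unipotent.
-/

set_option autoImplicit false

open scoped Manifold ContDiff Topology
open Set Complex

namespace Pool.Agent.Work.MP_bf98aa_gt.Cy

open Pool.Agent.Work.MP_bf98aa_gt.Th

variable {M : Type} [TopologicalSpace M] [ChartedSpace E6 M] [IsManifold 𝓘(ℝ, E6) ∞ M]

variable {D : TD} {γ : Matrix (Fin 2) (Fin 2) ℝ} {q : K3 → E6 → M} {s s' : K3} {x y : E6}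

/-- The twist as a linear form. -/
noncomputable def K6_ta (D : TD) (m₀ m₁ : ℤ) : Am →L[ℝ] ℝ :=
  ((D.κ : ℝ) * m₀) • ((D.A 0 0 : ℝ) • cx 1 + (D.A 0 1 : ℝ) • cx 3) +
    (m₁ : ℝ) • ((D.A 1 0 : ℝ) • cx 1 + (D.A 1 1 : ℝ) • cx 3)

/-- The rotation angle of `U` as a linear form. -/
noncomputable def K6_th (D : TD) (m₀ m₁ : ℤ) : Am →L[ℝ] ℝ :=
  ((D.κ : ℝ) * (D.κ * m₀)) • cx 1 - K6_ta D m₀ m₁

theorem K6_rot (θ : Am →L[ℝ] ℝ) (c : Am →L[ℝ] ℂ) (a : Am) :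
    ∃ L : Am →L[ℝ] ℂ, HasFDerivAt (fun b => c b * ee (θ b)) L a ∧
      ∀ v, L v = (c v + 2 * Real.pi * I * c a * θ v) * ee (θ a) := by
  refine ⟨_, c.hasFDerivAt.mul ((hasDerivAt_ee (θ a)).hasFDerivAt.comp a θ.hasFDerivAt),
    fun v => ?_⟩
  simp
  ring

theorem K6_nact (D : TD) (m₀ m₁ n₀ n₁ : ℤ) : D.nact m₀ m₁ n₀ n₁ = fun a =>
    (a.1 + ![(D.κ : ℝ) * m₀, n₀, m₁, n₁], cU a * ee (K6_th D m₀ m₁ a),
      cW a * ee (K6_ta D m₀ m₁ a)) := by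
  funext a
  refine Prod.ext ?_ rfl
  funext i
  fin_cases i <;> rfl

theorem K6_d (D : TD) (m₀ m₁ n₀ n₁ : ℤ) (a v : Am) : fderiv ℝ (D.nact m₀ m₁ n₀ n₁) a v =
    (v.1, (v.2.1 + 2 * Real.pi * I * a.2.1 * K6_th D m₀ m₁ v) * ee (K6_th D m₀ m₁ a),
      (v.2.2 + 2 * Real.pi * I * a.2.2 * K6_ta D m₀ m₁ v) * ee (K6_ta D m₀ m₁ a)) := by
  obtain ⟨L, h1, h2⟩ := K6_rot (K6_th D m₀ m₁) cU a
  obtain ⟨L', h3, h4⟩ := K6_rot (K6_ta D m₀ m₁) cW a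
  rw [K6_nact, ((hasFDerivAt_fst.add_const _).prodMk (h1.prodMk h3)).fderiv]
  exact Prod.ext rfl (Prod.ext (h2 v) (h4 v))

theorem K6_imd {u e d u' : ℂ} {t : ℝ} {L L' : Am →L[ℝ] ℂ} {v v' : Am} (he : normSq e = 1)
    (h1 : u' = u * e) (h2 : L v = d) (h3 : L' v' = (d + 2 * Real.pi * I * u * t) * e) :
    imd u' L' v' = imd u L v + normSq u * t := by
  have hp := Real.pi_pos
  rw [normSq_apply] at he
  rw [imd_apply, imd_apply, h1, h2, h3, normSq_apply]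
  simp only [mul_re, mul_im, add_re, add_im, ofReal_re, ofReal_im, I_re, I_im, re_ofNat, im_ofNat]
  field_simp
  linear_combination (u.re * d.im - u.im * d.re + 2 * Real.pi * t * (u.re ^ 2 + u.im ^ 2)) * he

theorem K6_sm (D : TD) : Sm (fun a => alt1 (D.lamL a)) univ :=
  (contDiff_alt1.comp D.contDiff_lamL).contDiffOn

theorem K6_pb {E : Type} [NormedAddCommGroup E] [NormedSpace ℝ E] [FiniteDimensional ℝ E]
    {f : E → Am} {x : E} (hf : ContDiffAt ℝ ∞ f x) :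
    pb f (D.omA γ) x = (cstA γ).compContinuousLinearMap (fderiv ℝ f x) +
      extDeriv (fun z => alt1 ((D.lamL (f z)).comp (fderiv ℝ f z))) x :=
  congrArg (fun w => (cstA γ).compContinuousLinearMap (fderiv ℝ f x) + w)
    (extDeriv_pb ((K6_sm D).diffAt isOpen_univ (mem_univ _)) hf).symm

theorem lamL_inv (hD : D.Ok) (m₀ m₁ n₀ n₁ : ℤ) (a : Am) :
    (D.lamL (D.nact m₀ m₁ n₀ n₁ a)).comp (fderiv ℝ (D.nact m₀ m₁ n₀ n₁) a) = D.lamL a := by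
  refine ContinuousLinearMap.ext fun v => ?_
  have hN : D.RN a (D.nact m₀ m₁ n₀ n₁ a) := RN_iff_nact.2 ⟨_, _, _, _, rfl⟩
  have hd := K6_d D m₀ m₁ n₀ n₁ a v
  have h1 : imd (D.nact m₀ m₁ n₀ n₁ a).2.1 cU (fderiv ℝ (D.nact m₀ m₁ n₀ n₁) a v) = _ :=
    K6_imd (L := cU) (v := v) (normSq_ee _) rfl rfl (congrArg (fun b : Am => b.2.1) hd)
  have h2 : imd (D.nact m₀ m₁ n₀ n₁ a).2.2 cW (fderiv ℝ (D.nact m₀ m₁ n₀ n₁) a v) = _ :=
    K6_imd (L := cW) (v := v) (normSq_ee _) rfl rfl (congrArg (fun b : Am => b.2.2) hd)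
  have h3 : imd ((D.nact m₀ m₁ n₀ n₁ a).2.1 * (D.nact m₀ m₁ n₀ n₁ a).2.2)
      ((D.nact m₀ m₁ n₀ n₁ a).2.1 • cW + (D.nact m₀ m₁ n₀ n₁ a).2.2 • cU)
      (fderiv ℝ (D.nact m₀ m₁ n₀ n₁) a v) = imd (a.2.1 * a.2.2) (a.2.1 • cW + a.2.2 • cU) v +
        atq a * (K6_th D m₀ m₁ v + K6_ta D m₀ m₁ v) := by
    refine K6_imd (e := ee (K6_th D m₀ m₁ a) * ee (K6_ta D m₀ m₁ a))
      (by rw [map_mul, normSq_ee, normSq_ee, mul_one]) (mul_mul_mul_comm _ _ _ _) rfl ?_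
    rw [hd]
    show a.2.1 * ee (K6_th D m₀ m₁ a) * (_ * _) + a.2.2 * ee (K6_ta D m₀ m₁ a) * (_ * _) =
      (a.2.1 * v.2.2 + a.2.2 * v.2.1 + _) * _
    push_cast
    ring
  have h4 := mul_kk (t := atq a) (μ := amu a) (normSq_nonneg _)
  have h5 := r0_am a
  have h6 : amu a = normSq a.2.1 - normSq a.2.2 := rfl
  have h7 : K6_ta D m₀ m₁ v = D.κ * m₀ * (D.A 0 0 * v.1 1 + D.A 0 1 * v.1 3) +
    m₁ * (D.A 1 0 * v.1 1 + D.A 1 1 * v.1 3) := rfl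
  have h8 : K6_th D m₀ m₁ v = D.κ * (D.κ * m₀) * v.1 1 - K6_ta D m₀ m₁ v := rfl
  have key : ∀ b w : Am, D.lamL b w = imd b.2.1 cU w + imd b.2.2 cW w + amu b *
      ((D.A 0 0 * b.1 0 + D.A 1 0 * b.1 2) * w.1 1 + (D.A 0 1 * b.1 0 + D.A 1 1 * b.1 2) * w.1 3) -
      D.κ * ((rt (atq b) (amu b) + amu b) / 2) * b.1 0 * w.1 1 +
      kk (atq b) (amu b) * imd (b.2.1 * b.2.2) (b.2.1 • cW + b.2.2 • cU) w := fun _ _ => rfl
  rw [ContinuousLinearMap.comp_apply, key, key, h1, h2, h3, hN.amu, hN.atq, hd]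
  show _ + amu a * ((_ * (a.1 0 + D.κ * m₀) + _ * (a.1 2 + m₁)) * v.1 1 +
    (_ * (a.1 0 + D.κ * m₀) + _ * (a.1 2 + m₁)) * v.1 3) - _ * (a.1 0 + D.κ * m₀) * v.1 1 + _ = _
  rw [h8, h7]
  linear_combination (D.κ * (D.κ * m₀) * v.1 1 : ℝ) * (h4 - h5 / 2 - h6 / 2) + ((D.κ * m₀ *
    (D.A 0 0 * v.1 1 + D.A 0 1 * v.1 3) + m₁ * (D.A 1 0 * v.1 1 + D.A 1 1 * v.1 3) : ℝ)) * h6

theorem omA_cl (D : TD) (γ : Matrix (Fin 2) (Fin 2) ℝ) : Cl (D.omA γ) univ := by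
  have h1 : IsD (fun a => alt1 (D.lamL a)) (extDeriv fun a => alt1 (D.lamL a)) univ :=
    ⟨K6_sm D, fun _ _ => rfl⟩
  have h2 : Cl (fun _ : Am => -cstA γ) univ := ⟨contDiffOn_const, fun _ _ => extDeriv_const _ _⟩
  have h3 : D.omA γ = (extDeriv fun a => alt1 (D.lamL a)) - fun _ => -cstA γ :=
    funext fun _ => (add_comm _ _).trans (sub_neg_eq_add _ _).symm
  rw [h3]
  exact (h1.cl isOpen_univ).sub isOpen_univ h2

theorem omA_inv (hD : D.Ok) (m₀ m₁ n₀ n₁ : ℤ) (a : Am) :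
    pb (D.nact m₀ m₁ n₀ n₁) (D.omA γ) a = D.omA γ a := by
  rw [K6_pb (D.contDiff_nact m₀ m₁ n₀ n₁).contDiffAt]
  simp only [lamL_inv hD]
  refine congrArg (· + _) (alt_ext_two fun u v => ?_)
  simp [cstA, wedge_apply, cx, K6_d]

theorem om_cl (D : TD) (γ : Matrix (Fin 2) (Fin 2) ℝ) (s : K3) : Cl (D.om γ s) (D.W s) :=
  (omA_cl D γ).pb (D.isOpen_W s) isOpen_univ (fun _ hz => (io_contDiffAt hz).contDiffWithinAt)
    (mapsTo_univ _ _)

theorem om_eq (hx : x ∈ D.W s) : D.om γ s x = (cstA γ).compContinuousLinearMap (fderiv ℝ (D.io s) x) +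
    extDeriv (fun z => alt1 ((D.lamL (D.io s z)).comp (fderiv ℝ (D.io s) z))) x :=
  K6_pb (io_contDiffAt hx)

theorem TM.local (h : TM D q) (hx : x ∈ D.W s) {f : E6 → E6} (hf : Tr (q s) (q s') f x)
    (hy : f x ∈ D.W s') :
    ∃ m₀ m₁ n₀ n₁ : ℤ, ∀ᶠ z in 𝓝 x, D.io s' (f z) = D.nact m₀ m₁ n₀ n₁ (D.io s z) := by
  refine RN_local (g := fun z => D.io s' (f z)) (io_contDiffAt hx).continuousAt
    ((io_contDiffAt hy).continuousAt.comp hf.1.continuousAt) ?_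
  filter_upwards [(D.isOpen_W s).mem_nhds hx,
    hf.1.continuousAt.eventually ((D.isOpen_W s').mem_nhds hy), hf.2] with z h1 h2 h3
  exact (h.eq s s' z h1 _ h2).1 h3.symm

theorem TM.cmp (h : TM D q) (γ : Matrix (Fin 2) (Fin 2) ℝ) (hx : x ∈ D.W s) (hy : y ∈ D.W s')
    (he : q s x = q s' y) : Cmp (q s) (D.om γ s) x (q s') (D.om γ s') y := by
  obtain ⟨f, h1, rfl⟩ := (h.par s').tr hy ((h.par s).sm x hx) he
  obtain ⟨m₀, m₁, n₀, n₁, h2⟩ := h.local hx h1 hy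
  refine ⟨f, h1, rfl, ?_⟩
  rw [TD.om, TD.om, ← pb_comp _ (h1.1.differentiableAt (by simp))
    ((io_contDiffAt hy).differentiableAt (by simp)), pb_congr _ h2,
    pb_comp _ ((io_contDiffAt hx).differentiableAt (by simp))
      ((D.contDiff_nact m₀ m₁ n₀ n₁).differentiable (by simp) _), pb_congr' (omA_inv h.ok _ _ _ _ _)]

/-- The circle action on the ambient space. -/
noncomputable def K6_ro (t : ℝ) (a : Am) : Am := (a.1, a.2.1 * ee t, a.2.2 * ee (-t))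

theorem K6_RN {a a' : Am} (h : D.RN a a') (t : ℝ) : D.RN (K6_ro t a) (K6_ro t a') :=
  ⟨h.1, h.2.1, h.2.2.1, h.2.2.2.1,
    (congrArg (· * ee t) h.2.2.2.2.1).trans (mul_right_comm _ _ _),
    (congrArg (· * ee (-t)) h.2.2.2.2.2).trans (mul_right_comm _ _ _)⟩

theorem K6_io (hs : s ≠ .f) (x : E6) (t : ℝ) :
    D.io s (x + t • bv (2, 1)) = K6_ro t (D.io s x) := by
  have h1 : ∀ i, i ≠ ((2, 1) : Cx) → (x + t • bv (2, 1)) i = x i := fun i hi => by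
    simp [bv, hi]
  have h2 : (x + t • bv (2, 1)) (2, 1) = x (2, 1) + t := by simp [bv]
  have h3 : gz (x + t • bv (2, 1)) = gz x := by
    rw [gz, h1 _ (by decide), h1 _ (by decide), gz]
  have h4 : ∀ e, rad e (x + t • bv (2, 1)) = rad e x := fun e => by
    rw [rad, h3, h1 _ (by decide), rad]
  cases s with
  | f => exact absurd rfl hs
  | m =>
    rw [TD.io, TD.io, K6_ro, h2, h3, h4, h1 _ (by decide), h1 _ (by decide), h1 _ (by decide),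
      h1 _ (by decide), neg_add, ee_add, ee_add]
    exact Prod.ext rfl (Prod.ext (by ring) (by ring))
  | p =>
    rw [TD.io, TD.io, K6_ro, h2, h3, h4, h1 _ (by decide), h1 _ (by decide), h1 _ (by decide),
      h1 _ (by decide), neg_add, ee_add, ee_add]
    exact Prod.ext rfl (Prod.ext (by ring) (by ring))

theorem K6_io1 (hs : s ≠ .f) (x : E6) :
    (D.io s x).1 = ![x (0, 0), x (0, 1), x (1, 0), x (1, 1)] := by
  cases s with
  | f => exact absurd rfl hs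
  | m => rfl
  | p => rfl

theorem K6_co {f : E6 → E6} (hf : DifferentiableAt ℝ f x) (i : Cx) (c : ℝ)
    (h : ∀ᶠ z in 𝓝 x, f z i = z i + c) (v : E6) : fderiv ℝ f x v i = v i := by
  have h1 : HasFDerivAt (fun z => f z i) (dc i) x :=
    ((dc i).hasFDerivAt.add_const c).congr_of_eventuallyEq h
  exact congrArg (fun L => L v) (((dc i).hasFDerivAt.comp x hf.hasFDerivAt).unique h1)

theorem TM.vcmp (h : TM D q) (hs : s ≠ .f) (hs' : s' ≠ .f) (hx : x ∈ D.W s) (hy : y ∈ D.W s')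
    (he : q s x = q s' y) : VCmp (q s) x (q s') y := by
  obtain ⟨f, h1, rfl⟩ := (h.par s').tr hy ((h.par s).sm x hx) he
  obtain ⟨m₀, m₁, n₀, n₁, h2⟩ := h.local hx h1 hy
  have hd := h1.1.differentiableAt (by simp)
  have hc : ∀ j : Fin 4, ∀ᶠ z in 𝓝 x, ![f z (0, 0), f z (0, 1), f z (1, 0), f z (1, 1)] j =
      ![z (0, 0) + D.κ * m₀, z (0, 1) + n₀, z (1, 0) + m₁, z (1, 1) + n₁] j := fun j => by
    filter_upwards [h2] with z hz
    rw [← K6_io1 (D := D) hs', hz, TD.nact, K6_io1 hs]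
    rfl
  have c0 := K6_co hd (0, 0) _ (hc 0)
  have c1 := K6_co hd (0, 1) _ (hc 1)
  have c2 := K6_co hd (1, 0) _ (hc 2)
  have c3 := K6_co hd (1, 1) _ (hc 3)
  have c4 := K6_co hd (2, 0) 0 (by
    filter_upwards [h2, (D.isOpen_W s).mem_nhds hx,
      h1.1.continuousAt.eventually ((D.isOpen_W s').mem_nhds hy)] with z h3 h4 h5
    rw [← io_amu hs' h5, (RN_iff_nact.2 ⟨_, _, _, _, h3⟩ : D.RN _ _).amu, io_amu hs h4, add_zero])
  have hl : ∀ (z : E6), ContDiff ℝ ∞ fun t : ℝ => z + t • bv (2, 1) := fun z => by fun_prop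
  have h0 : ∀ z : E6, z + (0 : ℝ) • bv (2, 1) = z := fun z => by simp
  have ht := fun z : E6 => (hl z).continuous.tendsto' 0 z (h0 z)
  have hw := fun {r : K3} {z : E6} (hz : z ∈ D.W r) => (ht z).eventually ((D.isOpen_W r).mem_nhds hz)
  have t1 : Tr (fun t : ℝ => q s (x + t • bv (2, 1))) (q s') (fun t => f (x + t • bv (2, 1))) 0 :=
    ⟨ContDiffAt.comp 0 (by rw [h0]; exact h1.1) (hl x).contDiffAt, (ht x).eventually h1.2⟩
  have t2 : Tr (fun t : ℝ => q s (x + t • bv (2, 1))) (q s') (fun t => f x + t • bv (2, 1)) 0 := by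
    refine ⟨(hl _).contDiffAt, ?_⟩
    filter_upwards [hw hx, hw hy] with t h3 h4
    refine ((h.eq s s' _ h3 _ h4).2 ?_).symm
    rw [K6_io hs, K6_io hs']
    exact K6_RN ((h.eq s s' _ hx _ hy).1 he) t
  have t3 := (h.par s').tr_unique t2 t1 (hw hy).self_of_nhds (by rw [h0, h0])
  have hv : ∀ z : E6, HasDerivAt (fun t : ℝ => z + t • bv (2, 1)) (bv (2, 1)) 0 := fun z => by
    simpa using ((hasDerivAt_id (0 : ℝ)).smul_const (bv (2, 1))).const_add z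
  have c5 : fderiv ℝ f x (bv (2, 1)) = bv (2, 1) :=
    ((HasFDerivAt.comp_hasDerivAt_of_eq 0 hd.hasFDerivAt (hv x)
      (h0 x).symm).congr_of_eventuallyEq t3).unique (hv _)
  refine ⟨f, h1, rfl, fun v hv j => ?_, ?_⟩
  · fin_cases j
    exacts [(c0 v).trans (hv 0), (c2 v).trans (hv 1), (c4 v).trans (hv 2)]
  · simp only [Matrix.det_fin_three, Matrix.of_apply, c1, c3, c5]
    simp [bv]

theorem TM.deck (h : TM D q) (hs : s ≠ .f) : Deck (q s) (D.W s) (HT D.κ (D.As s)) :=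
  ⟨h.par s, fun _ ⟨_, _, _, _, _, hf⟩ => hf ▸ hact_contDiff _ _ _ _ _, fun _ => hact_maps h.ok hs,
    fun f hf x hx => ((h.eq s s x hx _ (hact_maps h.ok hs hf hx)).2
      ((RN_iff_RS h.ok hs hx (hact_maps h.ok hs hf hx)).2 ⟨f, hf, rfl⟩)).symm,
    fun x hx y hy he => (RN_iff_RS h.ok hs hx hy).1 ((h.eq s s x hx y hy).1 he)⟩

theorem TM.deck_f (h : TM D q) : Deck (q .f) (D.W .f) (FT (D.A 1 1)) :=
  ⟨h.par _, fun _ ⟨_, _, hf⟩ => hf ▸ contDiff_fact _ _ _, fun _ => fact_maps,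
    fun f hf x hx => ((h.eq _ _ x hx _ (fact_maps hf hx)).2
      ((RN_iff_fact h.ok hx (fact_maps hf hx)).2 ⟨f, hf, rfl⟩)).symm,
    fun x hx y hy he => (RN_iff_fact h.ok hx hy).1 ((h.eq _ _ x hx y hy).1 he)⟩

theorem TM.im_p (h : TM D q) : q .p '' D.W .p ⊆ q .m '' D.W .m ∪ q .f '' D.W .f := by
  rintro _ ⟨z, hz, rfl⟩
  by_cases h0 : gz z = 0
  · obtain ⟨y, hy, h1⟩ := exists_f h.ok (by decide) hz (by simp [h0])
    exact Or.inr ⟨y, hy, ((h.eq _ _ z hz y hy).2 h1).symm⟩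
  · obtain ⟨t, hy, h1⟩ := exists_m hz h0
    exact Or.inl ⟨_, hy, ((h.eq _ _ z hz _ hy).2 (h1 ▸ TD.RN.refl _)).symm⟩

theorem TM.im_U0 (h : TM D q) : q .m '' D.U0 = q .m '' D.W .m ∩ q .f '' D.W .f := by
  refine Subset.antisymm ?_ ?_
  · rintro _ ⟨z, hz, rfl⟩
    obtain ⟨y, hy, -, h1⟩ := U0_exists_f hz
    exact ⟨⟨z, hz.1, rfl⟩, y, hy, ((h.eq _ _ z hz.1 y hy).2 (h1 ▸ TD.RN.refl _)).symm⟩
  · rintro _ ⟨⟨z, hz, h1⟩, y, hy, rfl⟩
    obtain ⟨y', hy', h2⟩ := f_exists_m hy (ww_ne hz ((h.eq _ _ z hz y hy).1 h1))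
    exact ⟨y', hy', (h.eq _ _ y' hy'.1 y hy).2 (h2 ▸ TD.RN.refl _)⟩

theorem TM.dco (h : TM D q) (i : Fin 4) : ∃ c : Fo M 1, ClO c (⋃ s, q s '' D.W s) ∧
    ∀ s, ∀ z ∈ D.W s, pl (q s) c z = alt1 (fderiv ℝ (fun z => (D.io s z).1 i) z) := by
  refine dlog h.par (l := fun s z => (D.io s z).1 i) (fun s z hz =>
    ((cx i).contDiff.contDiffAt.comp z (io_contDiffAt hz)).contDiffWithinAt) ?_
  intro s s' x hx y hy he
  obtain ⟨⟨m, h0⟩, h1, h2, h3, -⟩ := (h.eq s s' x hx y hy).1 he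
  fin_cases i
  exacts [⟨D.κ * m, h0.trans (Int.cast_mul _ _).symm⟩, h1, h2, h3]


end Pool.Agent.Work.MP_bf98aa_gt.Cy
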