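import Pool.Agent.Work.MP_bf98aa_gt.Cy.K5
import Pool.Agent.Work.MP_bf98aa_gt.Cy.K6
import Pool.Agent.Work.MP_bf98aa_gt.Cy.G3
import Pool.Agent.Work.MP_bf98aa_gt.Cy.G6
import Pool.Agent.Work.MP_bf98aa_gt.Cy.G7

/-!
Cohomology of a kink.

PLAN. `h1`: `pot` on `U0` (`RA_U0`), `jump` for the maps `hact A 0 m 0 n l`, which preserve `U0` and are transitive on the fibres in `U0`; the jumps are additive and the commutator gives
`A 1 1 * k = 0`; `ex_of_pot` for `f - a x - b y - k φ`, `TM.im_U0`. `fex`, `fper`: `torus_ex`, `torus`, `per2_eq` with `S = {(1,0), (1,1)}`, `z₀ = 0`. `mex`: `torus_ex` with `S4` and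
`z₀ = mk 0 0 0 0 t 0`. `mv_node`: `mv` with `c₁` the descent (`Deck.desc`) of the constant form. `mv_kink`: `mv` with `c₂ = a dx + b dy` from `TM.dco`.
-/

set_option autoImplicit false

open scoped Manifold ContDiff Topology
open Set Complex

namespace Pool.Agent.Work.MP_bf98aa_gt.Cy

open Pool.Agent.Work.MP_bf98aa_gt.Th

variable {M : Type} [TopologicalSpace M] [ChartedSpace E6 M] [IsManifold 𝓘(ℝ, E6) ∞ M]

variable {D : TD} {q : K3 → E6 → M}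

theorem K9_add {φ : ℤ → ℝ} (h : ∀ m n, φ (m + n) = φ m + φ n) (m : ℤ) : φ m = m * φ 1 := by
  have := (AddMonoidHom.mk' φ h).map_zsmul m 1
  simpa using this

theorem K9_comp (A : Matrix (Fin 2) (Fin 2) ℤ) (m n l m' n' l' : ℤ) (z : E6) :
    hact A 0 m 0 n l (hact A 0 m' 0 n' l' z) =
      hact A 0 (m + m') 0 (n + n') (l + l' - A 1 1 * m * n') z := by
  apply ext6 <;> simp [hact] <;> ring

theorem K9_maps (A : Matrix (Fin 2) (Fin 2) ℤ) (m n l : ℤ) :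
    MapsTo (hact A 0 m 0 n l) D.U0 D.U0 := by
  intro z hz
  simpa [TD.U0, TD.W, gz, hact] using hz

theorem K9_mem (κ : ℤ) (A : Matrix (Fin 2) (Fin 2) ℤ) (m n₀ n l : ℤ) :
    hact A 0 m n₀ n l ∈ HT κ A := ⟨0, m, n₀, n, l, by rw [mul_zero]⟩

theorem K9_ne (hD : D.Ok) : Cy.mk 0 (1 / 2) 0 0 (-1 / 16) 0 ∈ D.U0 := by
  have h0 : gz (Cy.mk 0 (1 / 2) 0 0 (-1 / 16) 0) = 0 :=
    gg_eq_zero_iff.2 ⟨⟨0, by simp⟩, 0, by simp⟩
  refine ⟨⟨⟨fun _ => ?_, hD.lo, ?_⟩, Or.inr ?_⟩, ?_, ?_, ?_⟩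
  · norm_num
  · have := hD.hi
    simp only [mk20]
    linarith
  · norm_num
  · norm_num
  · norm_num
  · rw [h0]
    norm_num

theorem K9_alt1_sub (a b : E6 →L[ℝ] ℝ) : alt1 (a - b) = alt1 a - alt1 b :=
  alt_ext_one fun u => by simp [alt1_apply]

theorem K9_opn (h : TM D q) (s : K3) : IsOpen (q s '' D.W s) :=
  (h.par s).isOpen_image (h.par s).opn subset_rfl

theorem TM.h1 (h : TM D q) (hA : D.A 1 1 ≠ 0 ∨ D.A = 0) {c : Fo M 1}
    (hc : ClO c (q .m '' D.W .m ∩ q .f '' D.W .f)) :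
    ∃ a b k : ℝ, (D.A 1 1 ≠ 0 → k = 0) ∧ ∀ c' : Fo M 1, (∀ z ∈ D.U0, pl (q .m) c' z =
      alt1 (a • dc (1, 0) + b • dc (1, 1) + k • dc (2, 1))) →
      ExO (c - c') (q .m '' D.W .m ∩ q .f '' D.W .f) := by
  have hsub : D.U0 ⊆ D.W .m := fun z hz => hz.1
  have hP : Par (q .m) D.U0 := (h.par .m).mono (isOpen_U0 D) hsub
  have hk := h.deck (s := .m) (by decide)
  obtain ⟨f, hf, hd⟩ := pot hP (RA_U0 h.ok) hc (h.im_U0 ▸ mapsTo_image _ _)
  choose J hJ using fun m n l : ℤ => jump hP (preconn_U0 h.ok) hf hd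
    (hk.sm _ (K9_mem D.κ D.A m 0 n l)) (K9_maps D.A m n l)
    fun x hx => hk.eq _ (K9_mem D.κ D.A m 0 n l) x (hsub hx)
  have hadd : ∀ m n l m' n' l', J (m + m') (n + n') (l + l' - D.A 1 1 * m * n') =
      J m n l + J m' n' l' := by
    intro m n l m' n' l'
    have z0 := K9_ne h.ok
    rw [← hJ _ _ _ _ z0, ← K9_comp, ← hJ m n l _ (K9_maps D.A m' n' l' z0), ← hJ m' n' l' _ z0]
    ring
  have e1 := K9_add (φ := fun m => J m 0 0) fun m n => by simpa using hadd m 0 0 n 0 0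
  have e2 := K9_add (φ := fun m => J 0 m 0) fun m n => by simpa using hadd 0 m 0 0 n 0
  have e3 := K9_add (φ := fun m => J 0 0 m) fun m n => by simpa using hadd 0 0 m 0 0 n
  have e4 : ∀ m n l, J m n l = m * J 1 0 0 + n * J 0 1 0 + l * J 0 0 1 := by
    intro m n l
    have a1 := hadd 0 0 l m n 0
    have a2 := hadd 0 n 0 m 0 0
    simp only [zero_add, add_zero, mul_zero, zero_mul, sub_zero] at a1 a2
    rw [a1, a2, e1 m, e2 n, e3 l]
    ring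
  have e5 : D.A 1 1 ≠ 0 → J 0 0 1 = 0 := by
    intro hne
    have a1 := hadd 1 0 0 0 1 0
    rw [e4] at a1
    have a2 : (D.A 1 1 : ℝ) * J 0 0 1 = 0 := by
      push_cast at a1
      linarith
    exact (mul_eq_zero.1 a2).resolve_left (by exact_mod_cast hne)
  refine ⟨J 1 0 0, J 0 1 0, J 0 0 1, e5, fun c' hc' => ?_⟩
  rw [← h.im_U0]
  refine ex_of_pot hP (f := fun z => f z -
    (J 1 0 0 • dc (1, 0) + J 0 1 0 • dc (1, 1) + J 0 0 1 • dc (2, 1) : E6 →L[ℝ] ℝ) z)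
    (hf.sub (ContinuousLinearMap.contDiff _).contDiffOn) (fun x hx => ?_) fun x hx y hy he => ?_
  · have hdf : DifferentiableAt ℝ f x :=
      (hf.contDiffAt ((isOpen_U0 D).mem_nhds hx)).differentiableAt (by simp)
    rw [pl_sub, Pi.sub_apply, hd x hx, hc' x hx, ← K9_alt1_sub,
      (hdf.hasFDerivAt.fun_sub (ContinuousLinearMap.hasFDerivAt _)).fderiv]
  · obtain ⟨g, ⟨m₀, m, n₀, n, l, rfl⟩, rfl⟩ := hk.trans x (hsub hx) y (hsub hy) he
    have b1 : D.κ * m₀ = 0 := by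
      have c1 := abs_lt.1 hx.2.1
      have c2 := abs_lt.1 hy.2.1
      simp only [hact, mk00] at c2
      have c3 : ((D.κ * m₀ : ℤ) : ℝ) < 1 := by linarith
      have c4 : (-1 : ℝ) < ((D.κ * m₀ : ℤ) : ℝ) := by linarith
      have c5 : D.κ * m₀ < 1 := by exact_mod_cast c3
      have c6 : -1 < D.κ * m₀ := by exact_mod_cast c4
      omega
    have b2 : n₀ = 0 := by
      have c1 := abs_lt.1 hx.2.2.1
      have c2 := abs_lt.1 hy.2.2.1
      simp only [hact, mk01] at c2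
      have c3 : (n₀ : ℝ) < 1 := by linarith
      have c4 : (-1 : ℝ) < n₀ := by linarith
      have c5 : n₀ < 1 := by exact_mod_cast c3
      have c6 : -1 < n₀ := by exact_mod_cast c4
      omega
    rw [b1, b2]
    have b3 := hJ m n l x hx
    rw [e4] at b3
    change _ = f (hact D.A 0 m 0 n l x) - (_ : E6 →L[ℝ] ℝ) (hact D.A 0 m 0 n l x)
    rw [sub_eq_iff_eq_add.1 b3]
    rcases hA with hA | hA
    · simp [hact, dc, e5 hA]
      ring
    · simp [hact, dc, hA]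
      ring

theorem K9_Wf {z z' : E6} (hz : z ∈ D.W .f) (h00 : z' (0, 0) = z (0, 0))
    (h01 : z' (0, 1) = z (0, 1)) (h20 : z' (2, 0) = z (2, 0)) (h21 : z' (2, 1) = z (2, 1)) :
    z' ∈ D.W .f := by
  simpa only [TD.W, mem_ofPred_eq, mF, uu, ww, h00, h01, h20, h21] using hz

theorem K9_fs (hD : D.Ok) (z : E6) : slice {(1, 0), (1, 1)} 0 z ∈ D.W .f :=
  K9_Wf (starConvex_f hD).1 (by simp [slice]) (by simp [slice]) (by simp [slice]) (by simp [slice])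

theorem K9_fseg (hD : D.Ok) : Seg (D.W .f) (slice {(1, 0), (1, 1)} 0) := by
  intro x hx t ht
  refine K9_Wf ((starConvex_f hD).2 hx ht.1 (sub_nonneg.2 ht.2) (add_sub_cancel _ _)) ?_ ?_ ?_ ?_ <;>
    simp [slice] <;> ring

theorem K9_fcomm (a : ℤ) : Comm (FT a) (slice {(1, 0), (1, 1)} 0) := by
  rintro f ⟨m, n, rfl⟩ x t
  apply ext6 <;> simp [slice, fact, cplx, uu, ww] <;> ring

theorem K9_fT (a : ℤ) : ∀ f ∈ FT a, ∃ n : Cx → ℤ, ∀ z, ∀ i ∈ ({(1, 0), (1, 1)} : Finset Cx),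
    f z i = z i + n i := by
  rintro f ⟨m, n, rfl⟩
  refine ⟨fun i => if i = (1, 0) then m else n, fun z i hi => ?_⟩
  simp only [Finset.mem_insert, Finset.mem_singleton] at hi
  rcases hi with rfl | rfl <;> simp [fact, cplx]

theorem K9_fE (a : ℤ) : ∀ i ∈ ({(1, 0), (1, 1)} : Finset Cx), ∃ f ∈ FT a, ∀ z,
    (a = 0 ∨ ∃ y, z = slice {(1, 0), (1, 1)} 0 y) → f z = z + bv i := by
  intro i hi
  simp only [Finset.mem_insert, Finset.mem_singleton] at hi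
  rcases hi with rfl | rfl
  · refine ⟨_, ⟨1, 0, rfl⟩, ?_⟩
    rintro z (rfl | ⟨y, rfl⟩) <;> apply ext6 <;> simp [slice, fact, cplx, uu, ww, bv, ee_zero]
  · refine ⟨_, ⟨0, 1, rfl⟩, ?_⟩
    rintro z (rfl | ⟨y, rfl⟩) <;> apply ext6 <;> simp [slice, fact, cplx, uu, ww, bv, ee_zero]

theorem K9_fper (h : TM D q) {w : Fo M 2} (hw : ClO w (q .f '' D.W .f)) :
    ∃ κ : Alt E6 2, ∀ z ∈ D.W .f, (D.A 1 1 = 0 ∨ z = 0) →
      ∀ i ∈ ({(1, 0), (1, 1)} : Finset Cx), ∀ j ∈ ({(1, 0), (1, 1)} : Finset Cx),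
        per2 (pl (q .f) w) z (bv i) (bv j) = κ ![bv i, bv j] := by
  have hk := h.deck_f
  obtain ⟨κ, β, -, hβ, hi⟩ := torus hk {(1, 0), (1, 1)} 0 (K9_fs h.ok) (K9_fseg h.ok) (K9_fcomm _)
    (K9_fT _) (fun i hi z => by
      obtain ⟨f, hf, e⟩ := K9_fE (D.A 1 1) i hi
      rw [← e _ (Or.inr ⟨z, rfl⟩)]
      exact hk.eq f hf _ (K9_fs h.ok z)) hw
  refine ⟨κ, fun z hz h0 i hi' j hj => ?_⟩
  obtain ⟨f, hf, e⟩ := K9_fE (D.A 1 1) i hi'
  obtain ⟨f', hf', e'⟩ := K9_fE (D.A 1 1) j hj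
  have e0 : ∀ s t : ℝ, D.A 1 1 = 0 ∨
      ∃ y, z + s • bv i + t • bv j = slice {(1, 0), (1, 1)} 0 y := fun s t =>
    h0.imp_right fun h0 => ⟨z + s • bv i + t • bv j, by
      rw [G6_add _ _ _ hj, G6_add _ _ _ hi', h0, G6_self]⟩
  refine per2_eq hk.par.opn hβ (fun s t => ?_) (hk.sm f hf) (hk.sm f' hf')
    (fun s t => e _ (e0 s t)) (fun s t => e' _ (e0 s t)) (hi f hf) (hi f' hf')
  simp only [Finset.mem_insert, Finset.mem_singleton] at hi' hj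
  rcases hi' with rfl | rfl <;> rcases hj with rfl | rfl <;>
    exact K9_Wf hz (by simp [bv]) (by simp [bv]) (by simp [bv]) (by simp [bv])

theorem TM.fex (h : TM D q) {w : Fo M 2} (hw : ClO w (q .f '' D.W .f))
    (h0 : per2 (pl (q .f) w) 0 (bv (1, 0)) (bv (1, 1)) = 0) : ExO w (q .f '' D.W .f) := by
  obtain ⟨κ, hκ⟩ := K9_fper h hw
  have h1 := hκ 0 (starConvex_f h.ok).1 (Or.inr rfl)
  refine torus_ex h.deck_f {(1, 0), (1, 1)} 0 (K9_fs h.ok) (K9_fseg h.ok) (K9_fcomm _) (K9_fT _)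
    (fun i hi => ?_) hw fun i hi j hj => ?_
  · obtain ⟨f, hf, e⟩ := K9_fE (D.A 1 1) i hi
    exact ⟨f, hf, fun z => e _ (Or.inr ⟨z, rfl⟩)⟩
  · rw [h1 _ (by simp) _ (by simp)] at h0
    have h2 : ∀ u : E6, κ ![u, u] = 0 := fun u => by linarith [alt2_swap κ u u]
    rw [h1 i hi j hj]
    simp only [Finset.mem_insert, Finset.mem_singleton] at hi hj
    rcases hi with rfl | rfl <;> rcases hj with rfl | rfl
    · exact h2 _
    · exact h0
    · rw [alt2_swap, h0, neg_zero]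
    · exact h2 _

theorem TM.fper (h : TM D q) (hA : D.A 1 1 = 0) {w : Fo M 2} (hw : ClO w (q .f '' D.W .f)) {z : E6}
    (hz : z ∈ D.W .f) : per2 (pl (q .f) w) z (bv (1, 0)) (bv (1, 1)) =
      per2 (pl (q .f) w) 0 (bv (1, 0)) (bv (1, 1)) := by
  obtain ⟨κ, hκ⟩ := K9_fper h hw
  rw [hκ z hz (Or.inl hA) _ (by simp) _ (by simp),
    hκ 0 (starConvex_f h.ok).1 (Or.inl hA) _ (by simp) _ (by simp)]

theorem TM.mex (h : TM D q) (hκ : D.κ = 0) (hA : D.A = 0) {w : Fo M 2}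
    (hw : ClO w (q .m '' D.W .m)) {t : ℝ} (ht : D.lo < t) (ht0 : t < 0)
    (h0 : ∀ i ∈ ({(0, 1), (1, 0), (1, 1), (2, 1)} : Finset Cx),
      ∀ j ∈ ({(0, 1), (1, 0), (1, 1), (2, 1)} : Finset Cx),
      per2 (pl (q .m) w) (Cy.mk 0 0 0 0 t 0) (bv i) (bv j) = 0) : ExO w (q .m '' D.W .m) := by
  have hk : Deck (q .m) (D.W .m) (HT D.κ D.A) := h.deck (s := .m) (by decide)
  rw [hκ, hA] at hk
  have hhi := h.ok.hi
  refine torus_ex hk _ (Cy.mk 0 0 0 0 t 0) (fun z => ?_) ?_ ?_ ?_ ?_ hw h0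
  · refine ⟨⟨fun _ => ?_, ?_, ?_⟩, Or.inr ?_⟩ <;> simp [slice] <;> linarith
  · rintro x ⟨⟨hp, hl, hu⟩, hg⟩ s ⟨s0, s1⟩
    obtain ⟨p0, p1⟩ := hp hκ
    set y := x + s • (slice {(0, 1), (1, 0), (1, 1), (2, 1)} (Cy.mk 0 0 0 0 t 0) x - x) with hy
    have e00 : y (0, 0) = (1 - s) * x (0, 0) := by
      simp [hy, slice]
      ring
    have e01 : y (0, 1) = x (0, 1) := by simp [hy, slice]
    have e20 : y (2, 0) = (1 - s) * x (2, 0) + s * t := by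
      simp [hy, slice]
      ring
    have p0' : -1 / 2 < y (0, 0) := by
      rw [e00]
      nlinarith
    have p1' : y (0, 0) < 3 / 4 := by
      rw [e00]
      nlinarith
    rcases s1.eq_or_lt with s1 | s1
    · have e : y (2, 0) = t := by rw [e20, s1]; ring
      exact ⟨⟨fun _ => ⟨p0', p1'⟩, e ▸ ht, by rw [e]; linarith⟩, Or.inr (e ▸ ht0)⟩
    refine ⟨⟨fun _ => ⟨p0', p1'⟩, by rw [e20]; nlinarith, by rw [e20]; nlinarith⟩, ?_⟩
    rcases hg with hg | hg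
    · refine Or.inl fun h1 => hg ?_
      obtain ⟨⟨m, hm⟩, hn⟩ := gg_eq_zero_iff.1 h1
      rw [e01] at hn
      refine gg_eq_zero_iff.2 ⟨⟨0, ?_⟩, hn⟩
      rw [hm] at p0' p1'
      have c5 : m < 1 := by exact_mod_cast (by linarith : (m : ℝ) < 1)
      have c6 : -1 < m := by exact_mod_cast (by linarith : (-1 : ℝ) < m)
      obtain rfl : m = 0 := by omega
      rw [e00, Int.cast_zero] at hm
      rw [Int.cast_zero]
      exact (mul_eq_zero.1 hm).resolve_left (by linarith)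
    · exact Or.inr (by rw [e20]; nlinarith)
  · rintro f ⟨m₀, m₁, n₀, n₁, l, rfl⟩ x s
    apply ext6 <;> simp [slice, hact]
  · rintro f ⟨m₀, m₁, n₀, n₁, l, rfl⟩
    refine ⟨fun i => ![![0, n₀], ![m₁, n₁], ![0, l]] i.1 i.2, fun z i hi => ?_⟩
    simp only [Finset.mem_insert, Finset.mem_singleton] at hi
    rcases hi with rfl | rfl | rfl | rfl <;> simp [hact]
  · intro i hi
    simp only [Finset.mem_insert, Finset.mem_singleton] at hi
    rcases hi with rfl | rfl | rfl | rfl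
    · exact ⟨_, K9_mem _ _ 0 1 0 0, fun z => by apply ext6 <;> simp [hact, bv]⟩
    · exact ⟨_, K9_mem _ _ 1 0 0 0, fun z => by apply ext6 <;> simp [hact, bv]⟩
    · exact ⟨_, K9_mem _ _ 0 0 1 0, fun z => by apply ext6 <;> simp [hact, bv]⟩
    · exact ⟨_, K9_mem _ _ 0 0 0 1, fun z => by apply ext6 <;> simp [hact, bv]⟩

theorem TM.mv_node [T2Space M] [CompactSpace M] (h : TM D q) (hκ : D.κ = 0) (hA : D.A = 0)
    {w : Fo M 2} (h1 : ExO w (q .m '' D.W .m)) (h2 : ExO w (q .f '' D.W .f)) :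
    ExO w (q .m '' D.W .m ∪ q .f '' D.W .f) := by
  obtain ⟨b₁, hb₁⟩ := h1
  obtain ⟨b₂, hb₂⟩ := h2
  obtain ⟨a, b, k, -, hc⟩ := h.h1 (Or.inr hA)
    ((hb₁.mono inter_subset_left).sub_cl (hb₂.mono inter_subset_right))
  have hk : Deck (q .m) (D.W .m) (HT D.κ D.A) := h.deck (s := .m) (by decide)
  rw [hκ, hA] at hk
  obtain ⟨c, hc'⟩ := hk.desc
    (β := fun _ => alt1 (a • dc (1, 0) + b • dc (1, 1) + k • dc (2, 1))) (by
      rintro f ⟨m₀, m₁, n₀, n₁, l, rfl⟩ x -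
      have e : hact 0 (0 * m₀) m₁ n₀ n₁ l = fun z => z + Cy.mk 0 n₀ m₁ n₁ 0 l := by
        funext z
        apply ext6 <;> simp [hact]
      rw [e, G6_trans])
  refine mv (k := 0) (K9_opn h _) (K9_opn h _) hb₁ hb₂ (c₁ := c) (ClO.of_par hk.par ⟨?_, ?_⟩)
    ClO.zero ?_
  · exact contDiffOn_const.congr hc'
  · intro x hx
    have e : pl (q .m) c =ᶠ[𝓝 x] fun _ => alt1 (a • dc (1, 0) + b • dc (1, 1) + k • dc (2, 1)) :=
      Filter.eventually_of_mem (hk.par.opn.mem_nhds hx) hc'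
    rw [e.extDeriv_eq, extDeriv_const]
  · rw [add_zero]
    exact hc c fun z hz => hc' z hz.1

theorem TM.mv_kink [T2Space M] [CompactSpace M] (h : TM D q) (hA : D.A 1 1 ≠ 0) {O : Set M}
    (hO : IsOpen O) (hi : O ∩ q .f '' D.W .f = q .m '' D.W .m ∩ q .f '' D.W .f) {w : Fo M 2}
    (h1 : ExO w O) (h2 : ExO w (q .f '' D.W .f)) : ExO w (O ∪ q .f '' D.W .f) := by
  obtain ⟨b₁, hb₁⟩ := h1
  obtain ⟨b₂, hb₂⟩ := h2
  obtain ⟨a, b, k, hk, hc⟩ := h.h1 (Or.inl hA)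
    (hi ▸ (hb₁.mono inter_subset_left).sub_cl (hb₂.mono inter_subset_right))
  obtain ⟨cx, hx, hx'⟩ := h.dco 2
  obtain ⟨cy, hy, hy'⟩ := h.dco 3
  have hs : q .f '' D.W .f ⊆ ⋃ s, q s '' D.W s := subset_iUnion (fun s => q s '' D.W s) .f
  refine mv (k := 0) hO (K9_opn h _) hb₁ hb₂ ClO.zero
    ((ClO.zero.sub ((hx.smul a).add (hy.smul b))).mono hs) ?_
  rw [sub_zero, zero_sub, ← sub_eq_add_neg, hi]
  refine hc _ fun z hz => ?_
  have e2 : fderiv ℝ (fun z => (D.io .m z).1 2) z = dc (1, 0) := (dc (1, 0)).fderiv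
  have e3 : fderiv ℝ (fun z => (D.io .m z).1 3) z = dc (1, 1) := (dc (1, 1)).fderiv
  rw [pl_add, pl_smul, pl_smul, Pi.add_apply, Pi.smul_apply, Pi.smul_apply, hx' _ z hz.1,
    hy' _ z hz.1, e2, e3, hk hA]
  exact alt_ext_one fun u => by simp [alt1_apply]


end Pool.Agent.Work.MP_bf98aa_gt.Cy
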