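import Pool.Agent.Work.MP_bf98aa_gt.Cy.H7
import Pool.Agent.Work.MP_bf98aa_gt.Cy.K9
import Pool.Agent.Work.MP_bf98aa_gt.Cy.G11

/-!
Cohomology: definitions, Mayer-Vietoris with a disjoint family, periods on a kink.
PLAN. `mv_disj`: glue `b'`, `c'` and the primitives on the disjoint open sets `A ∩ N j` by `glue_disj` (`IsDO.congr`, `IsDO.iUnion`, `ClO.iUnion`), then `mv`.
`per_fib`: let `e` be the closed form `d x ∧ d y` of the ambient coordinates 2 and 3 (`dlog2` with `l s z = (D.io s z).1 2`, `l' s z = (D.io s z).1 3`, `TM.eq`), `P` the period of `w` on the chart `f`.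
Then `w - P • e` is exact on the image of `f` (`TM.fex`, `per2_lin`, `per2_const`), the torus lies there (`io_f_w`, `TM.eq`), `per2_ex` (it closes up by `TM.deck` and `hact D.A 0 1 0 0 0`, `hact D.A 0 0 0 1 0`, with the shift `t₀ = D.A 1 0 / 2` resp. `0`),
and `e` vanishes on the torus. `per_fm`: `TM.fper` at the point `cplx 0 ρ 0 0`, `per2_congr`, `io_f_w` with `t = 0`.
-/

set_option autoImplicit false

open scoped Manifold ContDiff Topology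
open Set

namespace Pool.Agent.Work.MP_bf98aa_gt.Cy

open Pool.Agent.Work.MP_bf98aa_gt.Th

variable {M : Type} [TopologicalSpace M] [ChartedSpace E6 M] [IsManifold 𝓘(ℝ, E6) ∞ M]

/-- The part of the toric chart over the rectangle of the node `j`. -/
def Rect (j : Fin 3) : Set E6 := {z | z ∈ WI ∧ TN.dom (LL j z (0, 0)) (LL j z (2, 0))}

/-- The vanishing cycle of the node `j`. -/
def van (j : Fin 3) : E6 := rot^[3 - j] (bv (2, 1))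

/-- All periods on the toric chart vanish. -/
def Per0 (q : Ix → E6 → M) (w : Fo M 2) : Prop :=
  ∀ z ∈ WI, ∀ a b, Lat4 a → Lat4 b → per2 (pl (q .I) w) z a b = 0

/-- The linear form `ℓ` represents the class of `c` near the node `j`. -/
def Jmp (d : HD) (q : Ix → E6 → M) (j : Fin 3) (c : Fo M 1) (ℓ : E6 →L[ℝ] ℝ) : Prop :=
  ℓ (bv (0, 0)) = 0 ∧ ℓ (bv (2, 0)) = 0 ∧
    (∀ c' : Fo M 1, (∀ z ∈ Rect j, pl (q .I) c' z = alt1 ℓ) →
      ExO (c - c') (Im d q .I ∩ HN d q j)) ∧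
    ∀ (cc : ℝ × ℝ → M) (s : ℝ), ∀ z ∈ Rect j, ∀ a, Lat4 a → (∀ t, SmAt cc (s, t)) →
      (∀ t : ℝ, cc (s, t) = q .I (z + t • a)) → circ cc c s = ℓ a

theorem mv_disj [T2Space M] [CompactSpace M] {J : Type} {A : Set M} (hA : IsOpen A) {N : J → Set M}
    (hN : ∀ j, IsOpen (N j)) (hd : Pairwise fun i j => Disjoint (N i) (N j)) {w : Fo M 2}
    {b c : Fo M 1} {b' c' : J → Fo M 1} (h : IsDO b w A) (h' : ∀ j, IsDO (b' j) w (N j))
    (hc : ClO c A) (hc' : ∀ j, ClO (c' j) (N j))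
    (he : ∀ j, ExO (b - b' j - c + c' j) (A ∩ N j)) : ExO w (A ∪ ⋃ j, N j) := by
  obtain ⟨b₂, hb₂⟩ := glue_disj hd b'
  obtain ⟨c₂, hc₂⟩ := glue_disj hd c'
  choose p hp using he
  obtain ⟨p₂, hp₂⟩ := glue_disj (N := fun j => A ∩ N j)
    (fun i j hij => (hd hij).mono inter_subset_right inter_subset_right) p
  refine mv (b₂ := b₂) (c₂ := c₂) hA (isOpen_iUnion hN) h
    (IsDO.iUnion hN fun j => (h' j).congr (hb₂ j) fun _ _ => rfl) hc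
    (ClO.iUnion hN fun j => (hc' j).congr (hc₂ j)) ⟨p₂, ?_⟩
  rw [inter_iUnion]
  refine IsDO.iUnion (fun j => hA.inter (hN j)) fun j => (hp j).congr (hp₂ j) fun m hm => ?_
  simp only [Pi.add_apply, Pi.sub_apply, hb₂ j m hm.2, hc₂ j m hm.2]

variable {D : TD} {q : K3 → E6 → M}

theorem C1_Wm (hD : D.Ok) {ρ : ℝ} (hρ : 0 < ρ) (hl : D.lo < -ρ ^ 2) (x y t : ℝ) :
    Cy.mk 0 (1 / 2) x y (-ρ ^ 2) t ∈ D.W .m := by
  have h1 : -ρ ^ 2 < 0 := neg_lt_zero.2 (by positivity)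
  exact ⟨⟨fun _ => ⟨show (-1 / 2 : ℝ) < 0 by norm_num, show (0 : ℝ) < 3 / 4 by norm_num⟩, hl,
    h1.trans (lt_trans (by norm_num) hD.hi)⟩, Or.inr h1⟩

theorem C1_Wf (hD : D.Ok) {ρ : ℝ} (hl : D.lo < -ρ ^ 2) (θ x y : ℝ) :
    cplx 0 (ρ * ee θ) x y ∈ D.W .f := by
  have h1 : mF (cplx 0 (ρ * ee θ) x y) = -ρ ^ 2 := by
    change Complex.normSq 0 - Complex.normSq (ρ * ee θ) = _
    rw [map_zero, map_mul, normSq_ee, Complex.normSq_ofReal]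
    ring
  refine ⟨?_, h1 ▸ hl, h1 ▸ ?_⟩
  · change Complex.normSq (0 * (ρ * ee θ)) < _
    rw [zero_mul, map_zero]
    norm_num
  · linarith [hD.hi, sq_nonneg ρ]

theorem C1_add (a b c d e f s t : ℝ) :
    Cy.mk a b c d e f + s • bv (1, 0) + t • bv (1, 1) = Cy.mk a b (c + s) (d + t) e f ∧
    Cy.mk a b c d e f + s • bv (1, 0) + t • bv (2, 1) = Cy.mk a b (c + s) d e (f + t) ∧
    Cy.mk a b c d e f + s • bv (1, 1) + t • bv (2, 1) = Cy.mk a b c (d + s) e (f + t) ∧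
    Cy.mk a b c d e f + t • bv (2, 1) = Cy.mk a b c d e (f + t) := by
  refine ⟨?_, ?_, ?_, ?_⟩ <;> refine ext6 ?_ ?_ ?_ ?_ ?_ ?_ <;> simp [bv]

theorem C1_W0 (hD : D.Ok) (s t : ℝ) : (0 : E6) + s • bv (1, 0) + t • bv (1, 1) ∈ D.W .f := by
  have h1 := C1_Wf hD (ρ := 0) (by linarith [hD.lo]) 0 s t
  rwa [show cplx 0 ((0 : ℝ) * ee 0) s t = (0 : E6) + s • bv (1, 0) + t • bv (1, 1) by
    refine ext6 ?_ ?_ ?_ ?_ ?_ ?_ <;> simp [bv, cplx]] at h1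

omit [IsManifold 𝓘(ℝ, E6) ∞ M] in
theorem C1_eq (h : TM D q) {ρ : ℝ} (hρ : 0 < ρ) (hl : D.lo < -ρ ^ 2) (x y t : ℝ) :
    q .f (cplx 0 (ρ * ee (-t - D.A 1 0 * x / 2)) x y) = q .m (Cy.mk 0 (1 / 2) x y (-ρ ^ 2) t) :=
  (h.eq _ _ _ (C1_Wf h.ok hl _ x y) _ (C1_Wm h.ok hρ hl x y t)).2
    (io_f_w (D := D) hρ t x y ▸ TD.RN.refl _)

theorem C1_shift (h : TM D q) {ρ : ℝ} (hρ : 0 < ρ) (hl : D.lo < -ρ ^ 2) (x y t : ℝ) (m n l : ℤ)
    {x' y' t' : ℝ} (hx : x' = x + m) (hy : y' = y + n)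
    (ht : t' = t - m * (D.A 1 0 / 2 + D.A 1 1 * y) + l) :
    q .m (Cy.mk 0 (1 / 2) x' y' (-ρ ^ 2) t') = q .m (Cy.mk 0 (1 / 2) x y (-ρ ^ 2) t) := by
  rw [← (h.deck (s := .m) (by decide)).eq _ ⟨0, m, 0, n, l, rfl⟩ _ (C1_Wm h.ok hρ hl x y t), hx, hy,
    ht]
  refine congrArg _ (ext6 ?_ ?_ ?_ ?_ ?_ ?_) <;> simp [hact, TD.As, div_eq_mul_inv]

theorem TM.per_fib (h : TM D q) {w : Fo M 2} (hw : ClO w (⋃ s, q s '' D.W s)) {ρ : ℝ} (hρ : 0 < ρ)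
    (hl : D.lo < -ρ ^ 2) {i : Cx} (hi : i = (1, 0) ∨ i = (1, 1)) :
    per2 (pl (q .m) w) (Cy.mk 0 (1 / 2) 0 0 (-ρ ^ 2) 0) (bv i) (bv (2, 1)) = 0 := by
  obtain ⟨e, he, he'⟩ := dlog2 h.par (l := fun _ => dc (1, 0)) (l' := fun _ => dc (1, 1))
    (fun _ => (dc _).contDiff.contDiffOn) (fun _ => (dc _).contDiff.contDiffOn)
    (fun s s' x hx y hy e => by
      have h1 := ((h.eq s s' x hx y hy).1 e).2.2.1
      cases s <;> cases s' <;> exact h1)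
    (fun s s' x hx y hy e => by
      have h1 := ((h.eq s s' x hx y hy).1 e).2.2.2.1
      cases s <;> cases s' <;> exact h1)
  simp only [ContinuousLinearMap.fderiv] at he'
  have hs : ∀ s, q s '' D.W s ⊆ ⋃ s, q s '' D.W s := subset_iUnion fun s => q s '' D.W s
  have hsm : ∀ {v : Fo M 2}, ClO v (⋃ s, q s '' D.W s) → ∀ s, Sm (pl (q s) v) (D.W s) :=
    fun hv s => (hv _ _ (h.par s) fun z hz => hs s (mem_image_of_mem _ hz)).1
  obtain ⟨P, hP⟩ : ∃ P, per2 (pl (q .f) w) 0 (bv (1, 0)) (bv (1, 1)) = P := ⟨_, rfl⟩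
  have hex : ExO ((1 : ℝ) • w + (-P) • e) (q .f '' D.W .f) := by
    refine h.fex (((hw.smul 1).add (he.smul _)).mono (hs _)) ?_
    rw [pl_add, pl_smul, pl_smul, per2_lin (D.isOpen_W _) (hsm hw _) (hsm he _) (C1_W0 h.ok), hP,
      per2_const (x := 1) fun s t => by
        rw [he' _ _ (C1_W0 h.ok s t), wedge_apply]
        simp [dc, bv]]
    ring
  have hO : IsOpen (q .f '' D.W .f) := (h.par .f).isOpen_image (D.isOpen_W _) Subset.rfl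
  have hm : ∀ x y t, q .m (Cy.mk 0 (1 / 2) x y (-ρ ^ 2) t) ∈ q .f '' D.W .f := fun x y t =>
    ⟨_, C1_Wf h.ok hl _ x y, C1_eq h hρ hl x y t⟩
  have hz : ∀ s t : ℝ, Cy.mk 0 (1 / 2) 0 0 (-ρ ^ 2) 0 + s • bv i + t • bv (2, 1) ∈ D.W .m := by
    intro s t
    rcases hi with rfl | rfl
    · exact (C1_add _ _ _ _ _ _ s t).2.1 ▸ C1_Wm h.ok hρ hl _ _ _
    · exact (C1_add _ _ _ _ _ _ s t).2.2.1 ▸ C1_Wm h.ok hρ hl _ _ _
  have h0 : per2 (pl (q .m) ((1 : ℝ) • w + (-P) • e)) (Cy.mk 0 (1 / 2) 0 0 (-ρ ^ 2) 0) (bv i)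
      (bv (2, 1)) = 0 := by
    rcases hi with rfl | rfl
    · refine per2_ex (t₀ := D.A 1 0 / 2) (h.par .m) hz hex hO (fun s t => ?_) (fun s t => ?_)
        fun t => ?_
      · exact (C1_add _ _ _ _ _ _ s t).2.1 ▸ hm _ _ _
      · rw [(C1_add _ _ _ _ _ _ _ _).2.1, (C1_add _ _ _ _ _ _ _ _).2.1]
        exact C1_shift h hρ hl _ _ _ 0 0 1 (by simp) (by simp) (by simp)
      · rw [← one_smul ℝ (bv (1, 0)), (C1_add _ _ _ _ _ _ _ _).2.1, (C1_add _ _ _ _ _ _ 0 _).2.2.2]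
        exact C1_shift h hρ hl _ _ _ 1 0 0 (by simp) (by simp) (by simp)
    · refine per2_ex (t₀ := 0) (h.par .m) hz hex hO (fun s t => ?_) (fun s t => ?_) fun t => ?_
      · exact (C1_add _ _ _ _ _ _ s t).2.2.1 ▸ hm _ _ _
      · rw [(C1_add _ _ _ _ _ _ _ _).2.2.1, (C1_add _ _ _ _ _ _ _ _).2.2.1]
        exact C1_shift h hρ hl _ _ _ 0 0 1 (by simp) (by simp) (by simp)
      · rw [← one_smul ℝ (bv (1, 1)), (C1_add _ _ _ _ _ _ _ _).2.2.1,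
          (C1_add _ _ _ _ _ _ 0 _).2.2.2]
        exact C1_shift h hρ hl _ _ _ 0 1 0 (by simp) (by simp) (by simp)
  rw [pl_add, pl_smul, pl_smul, per2_lin (D.isOpen_W _) (hsm hw _) (hsm he _) hz,
    per2_const (α := pl (q .m) e) (x := 0) fun s t => by
      rw [he' _ _ (hz s t), wedge_apply]
      simp [dc, bv]] at h0
  linarith

theorem TM.per_fm (h : TM D q) (hA : D.A = 0) {w : Fo M 2} (hw : ClO w (q .f '' D.W .f)) {ρ : ℝ}
    (hρ : 0 < ρ) (hl : D.lo < -ρ ^ 2) : per2 (pl (q .f) w) 0 (bv (1, 0)) (bv (1, 1)) =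
      per2 (pl (q .m) w) (Cy.mk 0 (1 / 2) 0 0 (-ρ ^ 2) 0) (bv (1, 0)) (bv (1, 1)) := by
  rw [← h.fper (by rw [hA]; rfl) hw (C1_Wf h.ok hl 0 0 0)]
  have h1 : ∀ s t : ℝ, cplx 0 (ρ * ee 0) 0 0 + s • bv (1, 0) + t • bv (1, 1) =
      cplx 0 (ρ * ee 0) (0 + s) (0 + t) := fun s t => (C1_add _ _ _ _ _ _ s t).1
  refine per2_congr (h.par .f) (h.par .m) (fun s t => h1 s t ▸ C1_Wf h.ok hl _ _ _)
    (fun s t => (C1_add _ _ _ _ _ _ s t).1 ▸ C1_Wm h.ok hρ hl _ _ _) (fun s t => ?_) w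
  rw [h1, (C1_add _ _ _ _ _ _ s t).1, ← C1_eq h hρ hl, hA]
  simp

end Pool.Agent.Work.MP_bf98aa_gt.Cy
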