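import Pool.Agent.Work.MP_bf98aa_gt.Cy.C1

/-!
Cohomology: the toric chart and the rectangles.
PLAN. `kappa`: `torus` with `HM.deck_I`, `S4`, `z₀ = 0` (`starConvex_WI`, `mem_WI_congr` give `Seg`; the deck maps are the translations by `Lat4` vectors, `RS00_iff`), then `per2_eq` with the translations by `a` and `b`.
`exI`: `torus_ex`. `extI`: `Deck.desc`, `ClO.of_par`. `extN`: `ℓ = x • dc (0,1) ∘ rot^[j] + y • dc (1,0) + z • dc (1,1)` (test on the basis `rot^[3 - j] (bv i)`, `exists_rotL`); take the combination of `TM.dco 1, 2, 3` of the node;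
near a point of `DI j s` (`DI_of_rect`, `isOpen_DI`) one has `q I = q (N j s) ∘ LL j` (`gIN`, `pl_congr`, `pl_comp`). `exists_alpha`: `van 0 = (0, 1)`, `van 1 = (-3, -2)`, `van 2 = (3, 1)` in the coordinates `(0,1), (2,1)`.
`h1N`: `pot` on `Rect j` (`RA_rect`), `jump` for the four basis translations (`preconn_rect`), additivity gives `f (z + a) - f z = ℓ a` for all `Lat4 a`; `ex_of_pot` for `f - ℓ`, `HM.I_inter_HN`, `circ_pot`.
-/

set_option autoImplicit false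

open scoped Manifold ContDiff Topology
open Set

namespace Pool.Agent.Work.MP_bf98aa_gt.Cy

open Pool.Agent.Work.MP_bf98aa_gt.Th

variable {M : Type} [TopologicalSpace M] [ChartedSpace E6 M] [IsManifold 𝓘(ℝ, E6) ∞ M]

variable {d : HD} {q : Ix → E6 → M}

theorem lat4_bv {i : Cx} (hi : i ∈ S4) : Lat4 (bv i) := by
  refine ⟨Pi.single_eq_of_ne (fun e => ?_) _, Pi.single_eq_of_ne (fun e => ?_) _, fun j => ?_⟩
  · exact absurd (e ▸ hi) (by decide)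
  · exact absurd (e ▸ hi) (by decide)
  · rcases eq_or_ne j i with rfl | e
    exacts [⟨1, by simp [bv]⟩, ⟨0, by simp [bv, e]⟩]

theorem Lat4.rot {a : E6} (h : Lat4 a) (n : ℕ) : Lat4 (rot^[n] a) := by
  obtain ⟨L, hL⟩ := exists_rotL n
  have := (RS_rot (z := 0) (z' := a) n).2 (RS00_iff.2 (by rwa [sub_zero]))
  rwa [RS00_iff, hL 0, map_zero, sub_zero] at this

theorem LL'_add (j : Fin 3) (z a : E6) (s : ℝ) :
    LL' j (z + s • a) = LL' j z + s • rot^[3 - j] a := by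
  obtain ⟨L, hL⟩ := exists_rotL (3 - j)
  rw [LL', LL', hL, hL, hL, ← map_smul, ← map_add]
  exact congrArg L (by apply ext6 <;> simp [sh, add_right_comm])

theorem van_eq : van 0 = Cy.mk 0 0 0 0 0 1 ∧ van 1 = Cy.mk 0 (-3) 0 0 0 (-2) ∧
    van 2 = Cy.mk 0 3 0 0 0 1 := by
  refine ⟨(rot_three _).trans ?_, (rot_two _).trans ?_, (?_ : rot _ = _)⟩ <;> apply ext6 <;>
    simp [bv, rot]

theorem exists_alpha {k : Fin 3 → ℝ} (hk : k 0 + k 1 + k 2 = 0) : ∃ α : E6 →L[ℝ] ℝ,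
    α (bv (0, 0)) = 0 ∧ α (bv (2, 0)) = 0 ∧ ∀ j, α (van j) = k j := by
  refine ⟨((k 2 - k 0) / 3) • dc (0, 1) + k 0 • dc (2, 1), by simp [dc, bv], by simp [dc, bv], ?_⟩
  simp only [Fin.forall_fin_succ, IsEmpty.forall_iff, and_true, Fin.succ_zero_eq_one,
    Fin.succ_one_eq_two, van_eq.1, van_eq.2.1, van_eq.2.2]
  refine ⟨by simp [dc], ?_, ?_⟩ <;> simp [dc] <;> linarith

theorem C2_of {f : E6 → E6} (h : f ∈ HT 0 0) : ∃ a, Lat4 a ∧ f = fun z => z + a := by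
  obtain ⟨m₀, m₁, n₀, n₁, l, rfl⟩ := h
  refine ⟨hact 0 (0 * m₀) m₁ n₀ n₁ l 0, ?_, funext fun z => by apply ext6 <;> simp [hact]⟩
  simpa using (RS00_iff (z := 0)).1 ⟨_, ⟨m₀, m₁, n₀, n₁, l, rfl⟩, rfl⟩

theorem C2_to {a : E6} (h : Lat4 a) : (fun z => z + a) ∈ HT 0 0 := by
  obtain ⟨f, hf, e⟩ := (RS00_iff (z := 0) (z' := a)).2 (by rwa [sub_zero])
  obtain ⟨b, -, rfl⟩ := C2_of hf
  rwa [← e.symm.trans (zero_add b)] at hf

theorem C2_sl (z : E6) : slice S4 0 z = Cy.mk 0 (z (0, 1)) (z (1, 0)) (z (1, 1)) 0 (z (2, 1)) := by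
  apply ext6 <;> simp [slice, S4]

theorem C2_hs (z : E6) : slice S4 0 z ∈ WI :=
  mem_WI_congr (by simp [C2_sl]) (by simp [C2_sl]) starConvex_WI.1

theorem C2_seg : Seg WI (slice S4 0) := fun x hx t ht =>
  mem_WI_congr (by simp [C2_sl]; ring) (by simp [C2_sl]; ring)
    (starConvex_WI.2 hx ht.1 (sub_nonneg.2 ht.2) (add_sub_cancel t 1))

theorem C2_comm : Comm (HT 0 0) (slice S4 0) := fun f hf x t => by
  obtain ⟨a, ha, rfl⟩ := C2_of hf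
  apply ext6 <;> simp [C2_sl, ha.1, ha.2.1]

theorem C2_hT : ∀ f ∈ HT 0 0, ∃ n : Cx → ℤ, ∀ z, ∀ i ∈ S4, f z i = z i + n i := fun f hf => by
  obtain ⟨a, ha, rfl⟩ := C2_of hf
  choose n hn using ha.2.2
  exact ⟨n, fun z i _ => by rw [← hn i]; rfl⟩

theorem HM.kappa (h : HM d q) {w : Fo M 2} (hw : ClO w (Im d q .I)) : ∃ κ : Alt E6 2,
    ∀ z ∈ WI, ∀ a b, Lat4 a → Lat4 b → per2 (pl (q .I) w) z a b = κ ![a, b] := by
  obtain ⟨κ, β, -, h1, h2⟩ := torus h.deck_I S4 0 C2_hs C2_seg C2_comm C2_hT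
    (fun i hi z => h.deck_I.eq _ (C2_to (lat4_bv hi)) _ (C2_hs z)) hw
  exact ⟨κ, fun z hz a b ha hb => per2_eq isOpen_WI h1 (fun s t => mem_WI_congr
    (by simp [ha.1, hb.1]) (by simp [ha.2.1, hb.2.1]) hz) (h.deck_I.sm _ (C2_to ha))
    (h.deck_I.sm _ (C2_to hb)) (fun _ _ => rfl) (fun _ _ => rfl) (h2 _ (C2_to ha))
    (h2 _ (C2_to hb))⟩

theorem HM.exI (h : HM d q) {w : Fo M 2} (hw : ClO w (Im d q .I)) (h0 : Per0 q w) :
    ExO w (Im d q .I) :=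
  torus_ex h.deck_I S4 0 C2_hs C2_seg C2_comm C2_hT
    (fun _ hi => ⟨_, C2_to (lat4_bv hi), fun _ => rfl⟩) hw
    fun _ hi _ hj => h0 0 starConvex_WI.1 _ _ (lat4_bv hi) (lat4_bv hj)

theorem HM.extI (h : HM d q) (ℓ : E6 →L[ℝ] ℝ) :
    ∃ c : Fo M 1, ClO c (Im d q .I) ∧ ∀ z ∈ WI, pl (q .I) c z = alt1 ℓ := by
  obtain ⟨c, hc⟩ := h.deck_I.desc (β := fun _ => alt1 ℓ) fun f hf x _ => by
    obtain ⟨a, -, rfl⟩ := C2_of hf
    rw [pb, fderiv_add_const, fderiv_id']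
    rfl
  refine ⟨c, ClO.of_par h.deck_I.par ⟨contDiffOn_const.congr hc, fun x hx => ?_⟩, hc⟩
  rw [Filter.EventuallyEq.extDeriv_eq (Filter.eventually_of_mem (isOpen_WI.mem_nhds hx) hc),
    extDeriv_const]

theorem C2_expand (ℓ : E6 →L[ℝ] ℝ) (v : E6) : ℓ v = v (0, 0) * ℓ (bv (0, 0)) +
    v (0, 1) * ℓ (bv (0, 1)) + v (1, 0) * ℓ (bv (1, 0)) + v (1, 1) * ℓ (bv (1, 1)) +
    v (2, 0) * ℓ (bv (2, 0)) + v (2, 1) * ℓ (bv (2, 1)) := by
  have e : v = v (0, 0) • bv (0, 0) + v (0, 1) • bv (0, 1) + v (1, 0) • bv (1, 0) +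
      v (1, 1) • bv (1, 1) + v (2, 0) • bv (2, 0) + v (2, 1) • bv (2, 1) := by
    refine ext6 ?_ ?_ ?_ ?_ ?_ ?_ <;> simp [bv]
  conv_lhs => rw [e]
  simp only [map_add, map_smul, smul_eq_mul]

theorem C2_base (n : ℕ) {v : E6} (h : v (0, 1) = 0 ∧ v (1, 0) = 0 ∧ v (1, 1) = 0 ∧ v (2, 1) = 0) :
    rot^[n] v (0, 1) = 0 ∧ rot^[n] v (1, 0) = 0 ∧ rot^[n] v (1, 1) = 0 ∧ rot^[n] v (2, 1) = 0 := by
  induction n with
  | zero => exact h
  | succ n ih =>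
    obtain ⟨h1, h2, h3, h4⟩ := ih
    rw [Function.iterate_succ_apply']
    generalize rot^[n] v = u at h1 h2 h3 h4
    simp [rot, h1, h2, h3, h4]

theorem HM.extN (h : HM d q) (j : Fin 3) {ℓ : E6 →L[ℝ] ℝ} (h0 : ℓ (bv (0, 0)) = 0)
    (h2 : ℓ (bv (2, 0)) = 0) (hv : ℓ (van j) = 0) :
    ∃ c : Fo M 1, ClO c (HN d q j) ∧ ∀ z ∈ Rect j, pl (q .I) c z = alt1 ℓ := by
  obtain ⟨L, hL⟩ := exists_rotL j
  obtain ⟨L', hL'⟩ := exists_rotL (3 - j)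
  have e1 : ∀ v, L' (L v) = v := fun v => by
    rw [← hL', ← hL, ← Function.iterate_add_apply, Nat.sub_add_cancel j.2.le, rot_three]
  have e2 : ∀ v : E6, v (0, 1) = 0 ∧ v (1, 0) = 0 ∧ v (1, 1) = 0 ∧ v (2, 1) = 0 →
      ℓ.comp L' v = 0 := fun v hv => by
    obtain ⟨h3, h4, h5, h6⟩ := C2_base (3 - j) hv
    rw [ContinuousLinearMap.comp_apply, ← hL', C2_expand, h0, h2, h3, h4, h5, h6]
    ring
  have e3 : ℓ.comp L' (bv (2, 1)) = 0 := by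
    rw [ContinuousLinearMap.comp_apply, ← hL']
    exact hv
  have e4 : ∀ v, ℓ v = ℓ.comp L' (bv (0, 1)) * L v (0, 1) + ℓ.comp L' (bv (1, 0)) * L v (1, 0) +
      ℓ.comp L' (bv (1, 1)) * L v (1, 1) := fun v => by
    have := C2_expand (ℓ.comp L') (L v)
    rw [e2 (bv (0, 0)) (by simp [bv]), e2 (bv (2, 0)) (by simp [bv]), e3,
      ContinuousLinearMap.comp_apply ℓ L' (L v), e1] at this
    rw [this]
    ring
  obtain ⟨c1, k1, k1'⟩ := (h.tN j).dco 1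
  obtain ⟨c2, k2, k2'⟩ := (h.tN j).dco 2
  obtain ⟨c3, k3, k3'⟩ := (h.tN j).dco 3
  refine ⟨ℓ.comp L' (bv (0, 1)) • c1 + ℓ.comp L' (bv (1, 0)) • c2 + ℓ.comp L' (bv (1, 1)) • c3,
    (((k1.smul _).add (k2.smul _)).add (k3.smul _)).mono (union_subset
      (subset_iUnion (fun s => q (.N j s) '' TN.W s) .m)
      (subset_iUnion (fun s => q (.N j s) '' TN.W s) .f)), fun z hz => ?_⟩
  obtain ⟨s, hs⟩ := DI_of_rect hz.1 hz.2
  have hW : LL j z ∈ TN.W s := hs.2.2.1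
  have e5 : fderiv ℝ (LL j) z = L := by
    have : LL j = fun y => L y + (-2 : ℝ) • bv (0, 0) := funext fun y => by
      rw [LL, hL]
      refine ext6 ?_ ?_ ?_ ?_ ?_ ?_ <;> simp [bv, sh]
    rw [this, fderiv_add_const, L.fderiv]
  have e6 : fderiv ℝ (fun z => (TN.io s z).1 1) (LL j z) = dc (0, 1) ∧
      fderiv ℝ (fun z => (TN.io s z).1 2) (LL j z) = dc (1, 0) ∧
      fderiv ℝ (fun z => (TN.io s z).1 3) (LL j z) = dc (1, 1) := by
    rcases s with _ | _ | _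
    · exact ⟨(dc (0, 1)).fderiv, (dc (1, 0)).fderiv, (dc (1, 1)).fderiv⟩
    · exact ⟨(dc (0, 1)).fderiv, (dc (1, 0)).fderiv, (dc (1, 1)).fderiv⟩
    · exact absurd rfl hs.2.1
  rw [pl_congr (c' := fun y => q (.N j s) (LL j y))
      (Filter.mem_of_superset ((isOpen_DI j s).mem_nhds hs) (h.gIN j s)),
    pl_comp (((h.tN j).par s).sm _ hW) (contDiff_LL j).contDiffAt, pb, pl_add, pl_add, pl_smul,
    pl_smul, pl_smul, Pi.add_apply, Pi.add_apply, Pi.smul_apply, Pi.smul_apply, Pi.smul_apply,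
    k1' s _ hW, k2' s _ hW, k3' s _ hW, e5, e6.1, e6.2.1, e6.2.2]
  refine alt_ext_one fun u => ?_
  rw [alt1_apply, e4]
  rfl

theorem C2_rot (n : ℕ) {z z' : E6} (h0 : z' (0, 0) = z (0, 0)) (h2 : z' (2, 0) = z (2, 0)) :
    rot^[n] z' (0, 0) = rot^[n] z (0, 0) ∧ rot^[n] z' (2, 0) = rot^[n] z (2, 0) := by
  induction n with
  | zero => exact ⟨h0, h2⟩
  | succ n ih =>
    rw [Function.iterate_succ_apply', Function.iterate_succ_apply']
    obtain ⟨h3, h4⟩ := ih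
    generalize rot^[n] z = u at h3 h4
    generalize rot^[n] z' = u' at h3 h4
    simp [rot, h3, h4]

theorem C2_rect {j : Fin 3} {z a : E6} (hz : z ∈ Rect j) (ha : Lat4 a) (t : ℝ) :
    z + t • a ∈ Rect j := by
  have h0 : (z + t • a) (0, 0) = z (0, 0) := by simp [ha.1]
  have h2 : (z + t • a) (2, 0) = z (2, 0) := by simp [ha.2.1]
  obtain ⟨h3, h4⟩ := C2_rot j h0 h2
  refine ⟨mem_WI_congr h0 h2 hz.1, ?_⟩
  have h5 := hz.2
  simp only [LL, sh, mk00, mk20] at h5 ⊢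
  rwa [h3, h4]

theorem C2_open (j : Fin 3) : IsOpen (Rect j) := by
  have e : Rect j = ⋃ s, DI j s := by
    refine Subset.antisymm (fun z hz => mem_iUnion.2 (DI_of_rect hz.1 hz.2)) fun z hz => ?_
    obtain ⟨s, h1, h2, h3, -⟩ := mem_iUnion.1 hz
    rcases s with _ | _ | _
    exacts [⟨h1, h3.1⟩, ⟨h1, h3.1⟩, absurd rfl h2]
  rw [e]
  exact isOpen_iUnion (isOpen_DI j)

theorem C2_int {j : Fin 3} {f : E6 → ℝ} {a : E6} (ha : Lat4 a) {J : ℝ}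
    (h : ∀ z ∈ Rect j, f (z + a) - f z = J) (n : ℤ) :
    ∀ z ∈ Rect j, f (z + (n : ℝ) • a) - f z = n * J := by
  intro z hz
  induction n using Int.induction_on with
  | zero => simp
  | succ n ih =>
    have := h _ (C2_rect hz ha ((n : ℤ) : ℝ))
    rw [Int.cast_add, Int.cast_one, add_smul, one_smul, ← add_assoc]
    linarith
  | pred n ih =>
    have := h _ (C2_rect hz ha ((-(n : ℤ) - 1 : ℤ) : ℝ))
    rw [show z + ((-(n : ℤ) - 1 : ℤ) : ℝ) • a + a = z + ((-(n : ℤ) : ℤ) : ℝ) • a by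
      rw [Int.cast_sub, Int.cast_one, sub_smul, one_smul]
      abel] at this
    rw [Int.cast_sub (-(n : ℤ)) 1, Int.cast_one] at this ⊢
    linarith

theorem HM.h1N (h : HM d q) (j : Fin 3) {c : Fo M 1} (hc : ClO c (Im d q .I ∩ HN d q j)) :
    ∃ ℓ, Jmp d q j c ℓ := by
  have hP : Par (q .I) (Rect j) := (h.par .I).mono (C2_open j) fun z hz => hz.1
  have hI : Im d q .I ∩ HN d q j = q .I '' Rect j := h.I_inter_HN j
  obtain ⟨f, hf, hd⟩ := pot hP (RA_rect j) hc (hI ▸ mapsTo_image _ _)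
  have r1 : ∀ {a : E6}, Lat4 a → ∀ z ∈ Rect j, z + a ∈ Rect j := fun ha z hz => by
    simpa using C2_rect hz ha 1
  have jp : ∀ i ∈ S4, ∃ J : ℝ, ∀ n : ℤ, ∀ z ∈ Rect j, f (z + (n : ℝ) • bv i) - f z = n * J := by
    intro i hi
    obtain ⟨J, hJ⟩ := jump hP (preconn_rect j) hf hd (T := fun z => z + bv i)
      (contDiff_id.add contDiff_const) (r1 (lat4_bv hi)) fun z hz =>
        ((h.eI z hz.1 _ (r1 (lat4_bv hi) z hz).1).2
          (RS00_iff.2 (by simpa using lat4_bv hi))).symm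
    exact ⟨J, C2_int (lat4_bv hi) hJ⟩
  have m1 : ((0, 1) : Cx) ∈ S4 := by decide
  have m2 : ((1, 0) : Cx) ∈ S4 := by decide
  have m3 : ((1, 1) : Cx) ∈ S4 := by decide
  have m4 : ((2, 1) : Cx) ∈ S4 := by decide
  obtain ⟨J1, j1⟩ := jp _ m1
  obtain ⟨J2, j2⟩ := jp _ m2
  obtain ⟨J3, j3⟩ := jp _ m3
  obtain ⟨J4, j4⟩ := jp _ m4
  obtain ⟨ℓ, hℓ⟩ : ∃ ℓ : E6 →L[ℝ] ℝ, ∀ v, ℓ v =
      v (0, 1) * J1 + v (1, 0) * J2 + v (1, 1) * J3 + v (2, 1) * J4 :=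
    ⟨J1 • dc (0, 1) + J2 • dc (1, 0) + J3 • dc (1, 1) + J4 • dc (2, 1), fun v => by
      simp [dc, mul_comm]⟩
  have key : ∀ z ∈ Rect j, ∀ a, Lat4 a → f (z + a) - f z = ℓ a := by
    intro z hz a ha
    obtain ⟨n1, a1⟩ := ha.2.2 (0, 1)
    obtain ⟨n2, a2⟩ := ha.2.2 (1, 0)
    obtain ⟨n3, a3⟩ := ha.2.2 (1, 1)
    obtain ⟨n4, a4⟩ := ha.2.2 (2, 1)
    have z1 := C2_rect hz (lat4_bv m1) n1
    have z2 := C2_rect z1 (lat4_bv m2) n2
    have z3 := C2_rect z2 (lat4_bv m3) n3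
    have e : z + a = z + (n1 : ℝ) • bv (0, 1) + (n2 : ℝ) • bv (1, 0) + (n3 : ℝ) • bv (1, 1) +
        (n4 : ℝ) • bv (2, 1) := by
      refine ext6 ?_ ?_ ?_ ?_ ?_ ?_ <;> simp [bv, ha.1, ha.2.1, a1, a2, a3, a4]
    rw [e, hℓ, a1, a2, a3, a4]
    linarith [j1 n1 _ hz, j2 n2 _ z1, j3 n3 _ z2, j4 n4 _ z3]
  refine ⟨ℓ, by simp [hℓ, bv], by simp [hℓ, bv], fun c' hc' => ?_,
    fun cc s z hz a ha hs he => ?_⟩
  · rw [hI]
    refine ex_of_pot hP (f := fun z => f z - ℓ z) (hf.sub ℓ.contDiff.contDiffOn)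
      (fun x hx => ?_) fun x hx y hy he => ?_
    · have hdf : DifferentiableAt ℝ f x :=
        (hf.contDiffAt ((C2_open j).mem_nhds hx)).differentiableAt (by simp)
      rw [pl_sub, Pi.sub_apply, hd x hx, hc' x hx, ← K9_alt1_sub,
        (hdf.hasFDerivAt.fun_sub ℓ.hasFDerivAt).fderiv]
    · have := key x hx _ (RS00_iff.1 ((h.eI x hx.1 y hy.1).1 he))
      rw [add_sub_cancel, map_sub] at this
      linarith
  · rw [circ_pot hP hf hd (γ := fun t => z + t • a)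
      (contDiff_const.add (contDiff_id.smul contDiff_const)) (C2_rect hz ha) hs he, one_smul,
      zero_smul, add_zero, key z hz a ha]

end Pool.Agent.Work.MP_bf98aa_gt.Cy
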