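import Pool.Agent.Work.MP_bf98aa_gt.Cy.C2

/-!
Cohomology: the periods vanish.
PLAN. `perN`: `per2_congr` with `gIN`, `LL'_mem_DI` (`s = m`), `DI_congr`, `LL'_add`, `LL_LL'`. `perO`: for `z ∈ DS 0` and vertical `a` one has `oS 0 (z + a) = oS 0 z + mk 0 (-a (2,1)) (a (1,0)) (a (1,1)) 0 (a (0,1))`; `gIK`, `per2_congr`.
`per0`: `κ` from `kappa`. By `TM.per_fib` on the nodes 0 and 1 (`ρ² = 1/10`) and `perN`: `κ ![bv i, van j] = 0` for `i = (1,0), (1,1)`, so (`van_eq`, bilinearity) `κ ![bv i, bv (0,1)] = κ ![bv i, bv (2,1)] = 0`.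
`heis_fib` for `q (K m)` on `Slab TK.lo 0` in the coordinates of the kink (`TM.deck`, `Par.mono`) gives `c`; `c (1,0) = c (1,1) = 0` by `TM.per_fib` with `ρ = 1/2`; `per2 (pl (qO d q) w) z a b = per2 (pl (q (K m)) w) (La z) (La a) (La b)`
(`per2_congr`, `exists_LaL`); `perO` at the point `mk (21/8) 0 0 0 (-1) 0 ∈ DS 0` gives `c (0,0) u 1 = 0`, `c (0,1) w 1 = 0`, so `c = 0`, and then `κ ![bv (2,1), bv (0,1)] = 0`. Expand `κ ![a, b]` in the basis.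
-/

set_option autoImplicit false

open scoped Manifold ContDiff Topology
open Set

namespace Pool.Agent.Work.MP_bf98aa_gt.Cy

open Pool.Agent.Work.MP_bf98aa_gt.Th

variable {M : Type} [TopologicalSpace M] [ChartedSpace E6 M] [IsManifold 𝓘(ℝ, E6) ∞ M]

variable {d : HD} {q : Ix → E6 → M}

theorem C3_bv : bv (0, 0) = Cy.mk 1 0 0 0 0 0 ∧ bv (0, 1) = Cy.mk 0 1 0 0 0 0 ∧
    bv (1, 0) = Cy.mk 0 0 1 0 0 0 ∧ bv (1, 1) = Cy.mk 0 0 0 1 0 0 ∧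
    bv (2, 1) = Cy.mk 0 0 0 0 0 1 := by
  refine ⟨?_, ?_, ?_, ?_, ?_⟩ <;> refine ext6 ?_ ?_ ?_ ?_ ?_ ?_ <;> simp [bv]

theorem C3_keep {a b : E6} {i : Cx} (ha : a i = 0) (hb : b i = 0) (z : E6) (s t : ℝ) :
    (z + s • a + t • b) i = z i := by
  simp only [Pi.add_apply, Pi.smul_apply, ha, hb, smul_zero, add_zero]

theorem HM.perN (h : HM d q) (j : Fin 3) (w : Fo M 2) {y a b : E6} (h0 : y (0, 0) = 0)
    (h2 : y (2, 0) = -1 / 10) (ha : Lat4 a) (hb : Lat4 b) : LL' j y ∈ WI ∧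
      per2 (pl (q (.N j .m)) w) y a b =
        per2 (pl (q .I) w) (LL' j y) (rot^[3 - j] a) (rot^[3 - j] b) := by
  have key : ∀ s t : ℝ, LL' j (y + s • a + t • b) ∈ DI j .m := fun s t => by
    refine LL'_mem_DI (by decide) ?_ (Or.inr ?_) <;>
      rw [C3_keep ha.1 hb.1, C3_keep ha.2.1 hb.2.1, h0, h2]
    · exact ⟨fun _ => by norm_num, by norm_num [TN], by norm_num [TN]⟩
    · norm_num [sg]
  refine ⟨by simpa using (key 0 0).1, per2_congr (h.par (.N j .m)) (h.par .I) (fun s t => ?_)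
    (fun s t => ?_) (fun s t => ?_) w⟩
  · have := (key s t).2.2.1
    rwa [LL_LL'] at this
  · rw [← LL'_add, ← LL'_add]
    exact (key s t).1
  · rw [← LL'_add, ← LL'_add, h.gIN j .m _ (key s t), LL_LL']


theorem HM.perO (h : HM d q) (w : Fo M 2) {z a b : E6} (hz : z ∈ DS 0) (ha : Lat4 a) (hb : Lat4 b) :
    per2 (pl (q .I) w) z a b = per2 (pl (qO d q) w) (d.oS 0 z)
      (Cy.mk 0 (-a (2, 1)) (a (1, 0)) (a (1, 1)) 0 (a (0, 1)))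
      (Cy.mk 0 (-b (2, 1)) (b (1, 0)) (b (1, 1)) 0 (b (0, 1))) := by
  have key : ∀ s t : ℝ, z + s • a + t • b ∈ DS 0 := fun s t => by
    have e0 := C3_keep ha.1 hb.1 z s t
    have e2 := C3_keep ha.2.1 hb.2.1 z s t
    obtain ⟨h1, h2⟩ := hz
    refine ⟨mem_WI_congr e0 e2 h1, ?_⟩
    simp only [Fin.val_zero, Function.iterate_zero, id_eq] at h2 ⊢
    rwa [e0, e2]
  have e : ∀ s t : ℝ, d.oS 0 z + s • Cy.mk 0 (-a (2, 1)) (a (1, 0)) (a (1, 1)) 0 (a (0, 1)) +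
      t • Cy.mk 0 (-b (2, 1)) (b (1, 0)) (b (1, 1)) 0 (b (0, 1)) = d.oS 0 (z + s • a + t • b) := by
    intro s t
    refine ext6 ?_ ?_ ?_ ?_ ?_ ?_ <;>
      simp only [HD.oS, HD.toO, Fin.val_zero, Function.iterate_zero, id_eq, Pi.add_apply,
        Pi.smul_apply, smul_eq_mul, mk00, mk01, mk10, mk11, mk20, mk21, ha.1, hb.1, ha.2.1, hb.2.1,
        Nat.cast_zero] <;> ring
  refine per2_congr (h.par .I) (h.deck_low le_rfl).par (fun s t => (key s t).1) (fun s t => ?_)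
    (fun s t => ?_) w
  · rw [e]
    obtain ⟨h1, h2⟩ := oS_mem h.ok (key s t)
    exact ⟨h1, by linarith [h.ok.ha]⟩
  · rw [e]
    exact h.gIK 0 _ (key s t)


theorem C3_alg {κ : Alt E6 2} (h1 : κ ![bv (1, 0), bv (1, 1)] = 0)
    (h2 : κ ![bv (1, 0), bv (0, 1)] = 0) (h3 : κ ![bv (1, 1), bv (0, 1)] = 0)
    (h4 : κ ![bv (1, 0), bv (2, 1)] = 0) (h5 : κ ![bv (1, 1), bv (2, 1)] = 0)
    (h6 : κ ![bv (2, 1), bv (0, 1)] = 0) {a b : E6} (ha : Lat4 a) (hb : Lat4 b) :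
    κ ![a, b] = 0 := by
  obtain ⟨B, hB⟩ := exists_bilin κ
  have sw : ∀ u v, B u v = -B v u := fun u v => by rw [← hB, ← hB, alt2_swap]
  have dg : ∀ u, B u u = 0 := fun u => by linarith [sw u u]
  have e : ∀ a : E6, Lat4 a → a = a (0, 1) • bv (0, 1) + a (1, 0) • bv (1, 0) +
      a (1, 1) • bv (1, 1) + a (2, 1) • bv (2, 1) := fun a ha => by
    refine ext6 ?_ ?_ ?_ ?_ ?_ ?_ <;> simp [bv, ha.1, ha.2.1]
  rw [hB] at h1 h2 h3 h4 h5 h6 ⊢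
  rw [e a ha, e b hb]
  simp only [map_add, map_smul, add_apply, smul_apply, smul_eq_mul, dg, h1, h2, h3, h4, h5, h6,
    sw (bv (1, 1)) (bv (1, 0)), sw (bv (0, 1)) (bv (1, 0)), sw (bv (0, 1)) (bv (1, 1)),
    sw (bv (2, 1)) (bv (1, 0)), sw (bv (2, 1)) (bv (1, 1)), sw (bv (0, 1)) (bv (2, 1)), neg_zero,
    mul_zero, add_zero]

theorem C3_node (h : HM d q) {w : Fo M 2} (hw : ClO w (HH d q)) {κ : Alt E6 2}
    (hκ : ∀ z ∈ WI, ∀ a b, Lat4 a → Lat4 b → per2 (pl (q .I) w) z a b = κ ![a, b]) {i : Cx}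
    (hi : i = (1, 0) ∨ i = (1, 1)) :
    κ ![bv i, bv (0, 1)] = 0 ∧ κ ![bv i, bv (2, 1)] = 0 := by
  have hρ : √(1 / 10 : ℝ) ^ 2 = 1 / 10 := Real.sq_sqrt (by norm_num)
  have l1 : Lat4 (bv i) := lat4_bv (by rcases hi with rfl | rfl <;> decide)
  have l2 : Lat4 (bv (2, 1)) := lat4_bv (by decide)
  have fx : rot (bv i) = bv i := by
    rcases hi with rfl | rfl <;> refine ext6 ?_ ?_ ?_ ?_ ?_ ?_ <;> simp [rot, bv]
  have key : ∀ j, κ ![bv i, van j] = 0 := fun j => by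
    have p := (h.tN j).per_fib (hw.mono (iUnion_subset fun s =>
      subset_iUnion (fun c => q c '' d.W c) (.N j s))) (Real.sqrt_pos.2 (by norm_num : (0 : ℝ) < 1 / 10))
      (by rw [hρ]; norm_num [TN]) hi
    obtain ⟨m, e⟩ := h.perN j w (y := Cy.mk 0 (1 / 2) 0 0 (-√(1 / 10 : ℝ) ^ 2) 0) rfl
      (by rw [mk20, hρ, neg_div]) l1 l2
    rw [hκ _ m _ _ (l1.rot _) (l2.rot _), Function.iterate_fixed fx] at e
    exact e.symm.trans p
  obtain ⟨B, hB⟩ := exists_bilin κ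
  have k0 := key 0
  have k1 := key 1
  rw [van_eq.1, ← C3_bv.2.2.2.2, hB] at k0
  rw [van_eq.2.1, show Cy.mk 0 (-3) 0 0 0 (-2) = (-3 : ℝ) • bv (0, 1) + (-2 : ℝ) • bv (2, 1) by
    refine ext6 ?_ ?_ ?_ ?_ ?_ ?_ <;> simp [bv], hB, map_add, map_smul, map_smul, k0, smul_eq_mul,
    smul_eq_mul] at k1
  rw [hB, hB]
  exact ⟨by linarith, k0⟩

theorem C3_kink (h : HM d q) {w : Fo M 2} (hw : ClO w (HH d q)) : ∃ c c' : ℝ,
    ∀ z ∈ Slab (5 / 2 - d.a / 9) 0, ∀ m₀ n₀ m₁ n₁ : ℤ,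
      per2 (pl (qO d q) w) z (Cy.mk m₀ n₀ m₁ n₁ 0 0) (bv (2, 1)) =
        c * (d.u 0 * m₀ + d.u 1 * m₁) + c' * (d.w 0 * n₀ + d.w 1 * n₁) := by
  have sub : Slab (5 / 2 - d.a / 9) 0 ⊆ d.TK.W .m := fun z hz =>
    ⟨⟨fun e => absurd e one_ne_zero, hz.1, hz.2.trans (by norm_num [HD.TK])⟩, Or.inr hz.2⟩
  have hP := (h.par (.K .m)).mono (G11b_open _ _) sub
  obtain ⟨c, hc⟩ := heis_fib (K := d.TK.As .m) hP
    (fun f hf z hz => (h.tK.deck (s := .m) (by decide)).eq f hf z (sub hz))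
    (hw.mono ((image_mono sub).trans (subset_iUnion (fun c => q c '' d.W c) (.K .m))))
  have lo : d.TK.lo < -(1 / 2 : ℝ) ^ 2 := by
    have := h.ok.ha
    simp only [HD.TK]
    linarith
  have fib := fun i (hi : i = (1, 0) ∨ i = (1, 1)) => h.tK.per_fib (hw.mono (iUnion_subset fun s =>
    subset_iUnion (fun c => q c '' d.W c) (.K s))) one_half_pos lo hi
  have mem : Cy.mk 0 (1 / 2) 0 0 (-(1 / 2 : ℝ) ^ 2) 0 ∈ Slab (5 / 2 - d.a / 9) 0 :=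
    ⟨lo, by norm_num⟩
  have c1 := hc _ mem 0 0 1 0
  have c2 := hc _ mem 0 0 0 1
  simp only [Int.cast_zero, Int.cast_one, mul_zero, mul_one, zero_add, add_zero] at c1 c2
  rw [← C3_bv.2.2.1, fib _ (Or.inl rfl)] at c1
  rw [← C3_bv.2.2.2.1, fib _ (Or.inr rfl)] at c2
  refine ⟨c (0, 0), c (0, 1), fun z hz m₀ n₀ m₁ n₁ => ?_⟩
  have e := hc (d.La z) hz (d.u 0 * m₀ + d.u 1 * m₁) (d.w 0 * n₀ + d.w 1 * n₁)
    (d.u' 0 * m₀ + d.u' 1 * m₁) (d.w' 0 * n₀ + d.w' 1 * n₁)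
  rw [← c1, ← c2, zero_mul, zero_mul, add_zero, add_zero] at e
  push_cast at e
  refine Eq.trans ?_ e
  refine per2_congr (h.deck_low le_rfl).par hP
    (fun s t => G11b_mem (G11b_mem hz rfl s) G11b_e t)
    (fun s t => G11b_mem (G11b_mem (z := d.La z) hz rfl s) G11b_e t) (fun s t => ?_) w
  refine congrArg (q (.K .m)) ?_
  rw [C3_bv.2.2.2.2]
  refine ext6 ?_ ?_ ?_ ?_ ?_ ?_ <;>
    simp only [HD.La, Pi.add_apply, Pi.smul_apply, smul_eq_mul, mk00, mk01, mk10, mk11, mk20,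
      mk21] <;> ring

theorem C3_pt : Cy.mk (21 / 8) 0 0 0 (-1) 0 ∈ DS 0 := by
  refine ⟨fun j => ?_, by norm_num, by norm_num, by norm_num⟩
  fin_cases j
  · norm_num
  · norm_num [rot]
  · simp only [rot_two]
    norm_num

theorem HM.per0 (h : HM d q) {w : Fo M 2} (hw : ClO w (HH d q))
    (h1 : per2 (pl (q .I) w) 0 (bv (1, 0)) (bv (1, 1)) = 0) : Per0 q w ∧
      ∀ z ∈ Slab (5 / 2 - d.a / 9) 0, per2 (pl (qO d q) w) z (bv (0, 0)) (bv (2, 1)) = 0 := by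
  obtain ⟨κ, hκ⟩ := h.kappa (hw.mono (subset_iUnion (fun c => q c '' d.W c) .I))
  obtain ⟨c, c', hc⟩ := C3_kink h hw
  have l : ∀ i ∈ S4, Lat4 (bv i) := fun i hi => lat4_bv hi
  have a1 := C3_node h hw hκ (Or.inl rfl)
  have a2 := C3_node h hw hκ (Or.inr rfl)
  rw [hκ 0 starConvex_WI.1 _ _ (l _ (by decide)) (l _ (by decide))] at h1
  have mem : d.oS 0 (Cy.mk (21 / 8) 0 0 0 (-1) 0) ∈ Slab (5 / 2 - d.a / 9) 0 :=
    ⟨(oS_mem h.ok C3_pt).1, (oS_mem h.ok C3_pt).2.trans (by linarith [h.ok.ha])⟩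
  have key : ∀ i ∈ S4, ∀ n₀ m₁ n₁ : ℤ, -bv i (2, 1) = n₀ → bv i (1, 0) = m₁ → bv i (1, 1) = n₁ →
      bv i (0, 1) = 0 →
      κ ![bv i, bv (0, 1)] = c * (d.u 1 * m₁) + c' * (d.w 0 * n₀ + d.w 1 * n₁) := by
    intro i hi n₀ m₁ n₁ e1 e2 e3 e4
    have e := hc _ mem 0 n₀ m₁ n₁
    rw [Int.cast_zero, mul_zero, zero_add] at e
    rw [← hκ _ C3_pt.1 _ _ (l i hi) (l _ (by decide)), h.perO w C3_pt (l i hi) (l _ (by decide)),
      e1, e2, e3, e4, ← e, C3_bv.2.1, C3_bv.2.2.2.2, mk21, mk10, mk11, mk01, neg_zero]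
  have k1 := key (1, 0) (by decide) 0 1 0 (by simp [bv]) (by simp [bv]) (by simp [bv])
    (by simp [bv])
  have k2 := key (1, 1) (by decide) 0 0 1 (by simp [bv]) (by simp [bv]) (by simp [bv])
    (by simp [bv])
  have k3 := key (2, 1) (by decide) (-1) 0 0 (by simp [bv]) (by simp [bv]) (by simp [bv])
    (by simp [bv])
  rw [a1.1] at k1
  rw [a2.1] at k2
  have c0 : c = 0 := by simpa [h.ok.u1] using k1
  have c1 : c' = 0 := by simpa [h.ok.w1] using k2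
  rw [c0, c1, zero_mul, zero_mul, add_zero] at k3
  refine ⟨fun z hz a b ha hb => (hκ z hz a b ha hb).trans
    (C3_alg h1 a1.1 a2.1 a1.2 a2.2 k3 ha hb), fun z hz => ?_⟩
  have e := hc z hz 1 0 0 0
  rw [c0, c1, zero_mul, zero_mul, add_zero, Int.cast_one, Int.cast_zero, ← C3_bv.1] at e
  exact e


end Pool.Agent.Work.MP_bf98aa_gt.Cy
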