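import Pool.Agent.Work.MP_bf98aa_gt.Cy.C3

/-!
Cohomology: exactness near the nodes and on the outer chart.
PLAN. `exN`: `TM.mex` with `t = -1/10` and `perN`, `Lat4.rot`, `lat4_bv`; `TM.fex` with `TM.per_fm` (`ρ = √(1/10)`) and `perN`; `TM.mv_node`.
`exO`: first `ExO w (Im (K m))` by `Deck.ex_of_sub` with `TM.deck`, `setM (5/2 - a/9 + 1/8)`, `seg_m`, `comm_setM` and the open set `Y` of `HM.collar` (write `x = La (La' x)`).
Then `mv` for `Y` and `Im (K m)` with `c₁ = 0`: `heis_h1` for `HM.deck_low`, and the constant form extends over `Im (K m) = qO '' (La ⁻¹' W m)` by `Deck.desc` for `HM.deck_O` (it does not involve `dc (2,1)`), `ClO.of_par`.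
-/

set_option autoImplicit false

open scoped Manifold ContDiff Topology
open Set

namespace Pool.Agent.Work.MP_bf98aa_gt.Cy

open Pool.Agent.Work.MP_bf98aa_gt.Th

variable {M : Type} [TopologicalSpace M] [ChartedSpace E6 M] [IsManifold 𝓘(ℝ, E6) ∞ M]

variable [T2Space M] [CompactSpace M] {d : HD} {q : Ix → E6 → M}

theorem HM.exN (h : HM d q) {w : Fo M 2} (hw : ClO w (HH d q)) (h0 : Per0 q w) (j : Fin 3) :
    ExO w (HN d q j) := by
  have sub : ∀ c, q c '' d.W c ⊆ HH d q := fun c => subset_iUnion (fun c => q c '' d.W c) c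
  have key : ∀ y : E6, y (0, 0) = 0 → y (2, 0) = -1 / 10 → ∀ i ∈ S4, ∀ k ∈ S4,
      per2 (pl (q (.N j .m)) w) y (bv i) (bv k) = 0 := fun y a1 a2 i hi k hk => by
    obtain ⟨a, e⟩ := h.perN j w a1 a2 (lat4_bv hi) (lat4_bv hk)
    exact e.trans (h0 _ a _ _ ((lat4_bv hi).rot _) ((lat4_bv hk).rot _))
  have e : -√(1 / 10) ^ 2 = (-1 / 10 : ℝ) := by
    rw [Real.sq_sqrt (by norm_num)]
    norm_num
  refine (h.tN j).mv_node rfl rfl ((h.tN j).mex rfl rfl (hw.mono (sub (.N j .m))) (t := -1 / 10)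
    (by norm_num [TN]) (by norm_num) (key _ rfl rfl)) ((h.tN j).fex (hw.mono (sub (.N j .f))) ?_)
  exact ((h.tN j).per_fm rfl (hw.mono (sub (.N j .f))) (ρ := √(1 / 10)) (by positivity)
    (by rw [e]; norm_num [TN])).trans (key _ rfl e _ (by decide) _ (by decide))

theorem HM.exO (h : HM d q) {w : Fo M 2} (hw : ClO w (HH d q))
    (he : ExO w (Im d q .I ∪ ⋃ j, HN d q j)) :
    ExO w ((Im d q .I ∪ ⋃ j, HN d q j) ∪ Im d q (.K .m)) := by
  obtain ⟨Y, hY, hs, hu, hi⟩ := h.collar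
  have ha := h.ok.ha
  obtain ⟨b₁, hb₁⟩ := he.mono hs
  obtain ⟨b₂, hb₂⟩ : ExO w (Im d q (.K .m)) := by
    refine (h.tK.deck (s := .m) (by decide)).ex_of_sub (contDiff_setM (5 / 2 - d.a / 9 + 1 / 8))
      (seg_m (TK_ok h.ok) (lt_add_of_pos_right _ (by norm_num)) (by linarith)) (comm_setM _ _ _)
      (hw.mono (subset_iUnion (fun c => q c '' d.W c) (.K .m))) hY (fun x _ => ?_) ⟨b₁, hb₁⟩
    refine (hi.ge ⟨d.La' (setM (5 / 2 - d.a / 9 + 1 / 8) x), ?_,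
      congrArg (q (.K .m)) (La_La' h.ok _)⟩).1
    have e : d.La' (setM (5 / 2 - d.a / 9 + 1 / 8) x) (2, 0) = 5 / 2 - d.a / 9 + 1 / 8 :=
      K5_M20 _ x
    constructor <;> rw [e] <;> linarith
  have hb : 11 / 4 - d.a / 9 ≤ 0 := by linarith
  obtain ⟨e, hc⟩ := heis_h1 (h.deck_low hb) (by decide)
    (hi ▸ (hb₁.mono inter_subset_left).sub_cl (hb₂.mono inter_subset_right))
  obtain ⟨c', hc'⟩ := h.deck_O.desc (β := fun _ => alt1 (e (0, 0) • dc (0, 0) + e (0, 1) • dc (0, 1) +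
      e (1, 0) • dc (1, 0) + e (1, 1) • dc (1, 1))) (by
    rintro T ⟨m₀, m₁, n₀, n₁, l, rfl⟩ x -
    refine alt_ext_one fun u => ?_
    rw [G11_pb1, G11_L_apply]
    rfl)
  have h1 : ClO c' (qO d q '' (d.La ⁻¹' d.TK.W .m)) :=
    ClO.of_par h.deck_O.par ⟨contDiffOn_const.congr hc', fun x hx =>
      (Filter.EventuallyEq.extDeriv_eq (Filter.mem_of_superset (h.deck_O.par.opn.mem_nhds hx)
        hc')).trans (extDeriv_const _ _)⟩
  have h2 : Im d q (.K .m) ⊆ qO d q '' (d.La ⁻¹' d.TK.W .m) := by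
    rintro _ ⟨x, hx, rfl⟩
    exact ⟨d.La' x, mem_preimage.2 (mem_of_eq_of_mem (La_La' h.ok x) hx),
      congrArg (q (.K .m)) (La_La' h.ok x)⟩
  rw [← hu]
  refine mv hY (h.isOpen_Im _) hb₁ hb₂ ClO.zero (ClO.zero.sub (h1.mono h2)) ?_
  rw [hi, sub_zero, zero_sub, ← sub_eq_add_neg]
  exact hc c' fun z hz => hc' z (La_mem_m ⟨hz.1, hz.2.trans_le hb⟩)

end Pool.Agent.Work.MP_bf98aa_gt.Cy
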