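import Pool.Agent.Work.MP_bf98aa_gt.Cy.C2

/-!
Cohomology: the relation between the jumps along the vanishing cycles.
PLAN. Let `μ₀ = 21/8 - a/9`, `ε = 1/200`, `z₀ = mk (-2/3 + ε) 0 0 0 μ₀ 0`, `cc = lin (qO d q) z₀ (bv (0,0)) (bv (2,1))`, so `cc (s, t) = tor (s - 2/3 + ε) t` with `tor x t = qO d q (mk x 0 0 0 μ₀ t)`.
`tor_S`: `tor x t = q I (rot^[3 - j] (mk (21/8) t 0 0 (-X) 0))`, `X = 9 (21/8) (x + j/3)`, by `gIK` (`rot_three`, `rot_two`; linear inequalities for `DS j`). `tor_U`: `tor x t = q (N j m) (mk (5/8 - hinf (-X)) t 0 0 (-X) 0)` by `gNK`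
(`hm_bounds`, `gg_right`). `tor_out`, `tor_in`: at `X = ± 189/1600` use `hm_eq`, `LL'_mem_DI`, `gIN`, `LL'_add`; for `X < 0` the point of the chart `m` is the point `setF t` of the chart `p` (`io_mp'`, `gg_right`, `TM.eq`).
`sumk`: `per2_pl`, cut `[0, 1]` at `x = -1/3 ∓ ε, ∓ ε, 1/3 - ε` (`intervalIntegral.integral_add_adjacent_intervals`, `cyl_continuous`), `stokes_cyl` with `b` on the three sectors and `b' j` on the three strips
(the last strip is the strip 2 by `tor_per`), `circ_sub`, and `circ cc · 1 = circ cc · 0` (`circ_shift`). At the entry of the strip `j` the jump is `ℓ j (rot^[3-j] (bv (0,1))) + ℓ j (van j)`, at the exit `ℓ j (rot^[3-j] (bv (0,1)))`.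
-/

set_option autoImplicit false

open scoped Manifold ContDiff Topology
open Set

namespace Pool.Agent.Work.MP_bf98aa_gt.Cy

open Pool.Agent.Work.MP_bf98aa_gt.Th

variable {M : Type} [TopologicalSpace M] [ChartedSpace E6 M] [IsManifold 𝓘(ℝ, E6) ∞ M]

variable {d : HD} {q : Ix → E6 → M}

/-- The torus around the three nodes. -/
noncomputable def tor (d : HD) (q : Ix → E6 → M) (x t : ℝ) : M :=
  qO d q (Cy.mk x 0 0 0 (21 / 8 - d.a / 9) t)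

theorem HM.tor_per (h : HM d q) (x t : ℝ) :
    tor d q (x + 1) t = tor d q x t ∧ tor d q x (t + 1) = tor d q x t := by
  have hz : Cy.mk x 0 0 0 (21 / 8 - d.a / 9) t ∈ Slab (5 / 2 - d.a / 9) 0 :=
    ⟨by rw [mk20]; linarith, by rw [mk20]; linarith [h.ok.ha]⟩
  have k := fun m l : ℤ => (h.deck_low le_rfl).eq _ ⟨m, 0, 0, 0, l, rfl⟩ _ hz
  refine ⟨Eq.trans (congrArg (qO d q) ?_) (k 1 0), Eq.trans (congrArg (qO d q) ?_) (k 0 1)⟩ <;>
    refine ext6 ?_ ?_ ?_ ?_ ?_ ?_ <;> simp [hact]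

theorem C5_rot (j : Fin 3) (z : E6) : rot^[j] (rot^[3 - j] z) = z := by
  rw [← Function.iterate_add_apply, Nat.add_sub_cancel' j.2.le, rot_three]

theorem HM.tor_S (h : HM d q) (j : Fin 3) {x : ℝ} (h1 : 1 / 200 ≤ x + (j : ℕ) / 3)
    (h2 : x + (j : ℕ) / 3 ≤ 1 / 3 - 1 / 200) (t : ℝ) : tor d q x t ∈ Im d q .I := by
  obtain ⟨X, hX⟩ : ∃ X, X = 189 / 8 * (x + (j : ℕ) / 3) := ⟨_, rfl⟩
  have w : Cy.mk (21 / 8) t 0 0 (-X) 0 ∈ WI := by
    intro i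
    fin_cases i
    · refine ⟨by norm_num, Or.inr ?_⟩
      show (21 / 8 : ℝ) < 24 * |-X|
      linarith [neg_le_abs (-X)]
    · show 21 / 8 + -X < 11 / 4 ∧ (21 / 8 + -X < 7 / 4 ∨ 21 / 8 + -X < 24 * |-3 * (21 / 8) - 2 * -X|)
      refine ⟨by linarith, (lt_or_ge (7 / 8) X).imp (fun _ => by linarith) fun _ => ?_⟩
      linarith [neg_le_abs (-3 * (21 / 8) - 2 * -X)]
    · show rot^[2] _ _ < _ ∧ (rot^[2] _ _ < _ ∨ rot^[2] _ _ < 24 * |rot^[2] _ _|)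
      simp only [rot_two, mk00, mk20]
      exact ⟨by linarith, Or.inr (by linarith [le_abs_self (3 * (21 / 8) + -X)])⟩
  have w' := (rot_mem_WI (3 - j)).2 w
  refine ⟨_, w', (h.gIK j _ ⟨w', ?_⟩).trans (congrArg (qO d q) ?_)⟩
  · simp only [C5_rot, mk00, mk20]
    exact ⟨by norm_num, by linarith, by linarith⟩
  · rw [HD.oS, C5_rot, (rot_10 _ _).1, (rot_10 _ _).2]
    refine ext6 ?_ ?_ ?_ ?_ ?_ ?_ <;> simp [HD.toO]
    rw [hX]
    ring

omit [IsManifold 𝓘(ℝ, E6) ∞ M] in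
theorem C5_U (h : HM d q) (j : Fin 3) {y μ p : ℝ} (h1 : |y| ≤ 1 / 200) (hμ : μ = -(189 / 8 * y))
    (hp : p = 5 / 8 - hinf μ) (t : ℝ) : Cy.mk p t 0 0 μ 0 ∈ TN.W .m ∧ gz (Cy.mk p t 0 0 μ 0) = ee t ∧
      tor d q (y - (j : ℕ) / 3) t = q (.N j .m) (Cy.mk p t 0 0 μ 0) := by
  obtain ⟨a1, a2⟩ := abs_le.1 h1
  obtain ⟨b1, b2⟩ : max μ 0 ≤ hinf μ ∧ hinf μ ≤ max μ 0 + 1 / 8 := hm_bounds zero_le_one μ
  have b3 := le_max_right μ 0
  have b4 : max μ 0 ≤ 1 / 8 := max_le (by linarith) (by norm_num)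
  have g : gz (Cy.mk p t 0 0 μ 0) = ee t := gg_right (p := p) (by linarith) (by linarith) t
  have w : Cy.mk p t 0 0 μ 0 ∈ TN.W .m :=
    ⟨⟨fun _ => ⟨show -1 / 2 < p by linarith, show p < 3 / 4 by linarith⟩,
      show -1 / 8 < μ by linarith, show μ < 1 / 8 by linarith⟩, Or.inl (g ▸ ee_ne_zero t)⟩
  refine ⟨w, g, Eq.trans (congrArg (qO d q) ?_)
    (h.gNK j _ ⟨w, show 1 / 2 < p + hinf μ by linarith⟩).symm⟩
  have e : 2 + p + hinf μ = 21 / 8 := by linarith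
  simp only [HD.oU, HD.toO, mk00, mk01, mk10, mk11, mk20, mk21, e]
  refine ext6 ?_ ?_ ?_ ?_ ?_ ?_ <;> simp
  rw [hμ]
  ring

theorem HM.tor_U (h : HM d q) (j : Fin 3) {x : ℝ} (h1 : |x + (j : ℕ) / 3| ≤ 1 / 200) (t : ℝ) :
    tor d q x t ∈ HN d q j := by
  obtain ⟨k1, -, k2⟩ := C5_U h j (y := x + (j : ℕ) / 3) h1 rfl rfl t
  rw [add_sub_cancel_right] at k2
  exact Or.inl ⟨_, k1, k2.symm⟩

theorem HM.tor_out (h : HM d q) (j : Fin 3) : ∃ z ∈ Rect j, ∀ t : ℝ,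
    tor d q (1 / 200 - (j : ℕ) / 3) t = q .I (z + t • rot^[3 - j] (bv (0, 1))) := by
  have hp : (5 / 8 : ℝ) = 5 / 8 - hinf (-(189 / 8 * (1 / 200))) := by
    rw [hinf, hm_eq _ (by norm_num [le_abs])]
    norm_num
  have k := C5_U h j (y := 1 / 200) (by norm_num [abs_le]) rfl hp
  have D := fun t => LL'_mem_DI (j := j) (s := .m) (by decide) (k t).1.1
    (Or.inr (by norm_num [sg]))
  refine ⟨_, ⟨(D 0).1, by rw [LL_LL']; exact (k 0).1.1⟩, fun t => ?_⟩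
  rw [(k t).2.2, ← LL'_add, ← LL_LL' j (Cy.mk _ t _ _ _ _), ← h.gIN j _ _ (D t)]
  refine congrArg (fun z => q .I (LL' j z)) (ext6 ?_ ?_ ?_ ?_ ?_ ?_) <;> simp [bv]

theorem HM.tor_in (h : HM d q) (j : Fin 3) : ∃ z ∈ Rect j, ∀ t : ℝ,
    tor d q (-1 / 200 - (j : ℕ) / 3) t = q .I (z + t • (rot^[3 - j] (bv (0, 1)) + van j)) := by
  have hp : (811 / 1600 : ℝ) = 5 / 8 - hinf (189 / 1600) := by
    rw [hinf, hm_eq _ (by norm_num [le_abs])]
    norm_num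
  have k := C5_U h j (y := -1 / 200) (by norm_num [abs_le]) (by norm_num) hp
  have D := fun t => LL'_mem_DI (j := j) (s := .p) (z := Cy.mk (811 / 1600) t 0 0 (189 / 1600) t)
    (by decide) (k t).1.1 (Or.inr (by norm_num [sg]))
  refine ⟨_, ⟨(D 0).1, by rw [LL_LL']; exact (k 0).1.1⟩, fun t => ?_⟩
  obtain ⟨k1, k2, k3⟩ := k t
  have g := k2 ▸ ee_ne_zero t
  have e : setF t (Cy.mk (811 / 1600) t 0 0 (189 / 1600) 0) =
      Cy.mk (811 / 1600) t 0 0 (189 / 1600) t := by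
    refine ext6 ?_ ?_ ?_ ?_ ?_ ?_ <;> simp [setF]
  have i := io_mp' (D := TN) g (t := t) (by rw [k2, norm_ee, mk21, sub_zero]; simp)
  have w := (D t).2.2.1
  rw [LL_LL'] at w
  obtain ⟨L, hL⟩ := exists_rotL (3 - j)
  rw [e] at i
  rw [k3, ((h.tN j).eq _ _ _ k1 _ w).2 (i ▸ TD.RN.refl _), van, hL, hL, ← map_add, ← hL, ← LL'_add,
    ← LL_LL' j (Cy.mk _ t _ _ _ _), ← h.gIN j _ _ (D t)]
  refine congrArg (fun z => q .I (LL' j z)) (ext6 ?_ ?_ ?_ ?_ ?_ ?_) <;> simp [bv]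

theorem C5_add {a a' : E6} (h : Lat4 a) (h' : Lat4 a') : Lat4 (a + a') := by
  refine ⟨by rw [Pi.add_apply, h.1, h'.1, add_zero], by rw [Pi.add_apply, h.2.1, h'.2.1, add_zero],
    fun i => ?_⟩
  obtain ⟨n, hn⟩ := h.2.2 i
  obtain ⟨n', hn'⟩ := h'.2.2 i
  exact ⟨n + n', by rw [Pi.add_apply, hn, hn', Int.cast_add]⟩

theorem C5_strip (h : HM d q) {w : Fo M 2} {b b' : Fo M 1} (j : Fin 3)
    (hb : IsDO b w (Im d q .I)) (hb' : IsDO b' w (HN d q j)) {ℓ : E6 →L[ℝ] ℝ}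
    (hl : Jmp d q j (b - b') ℓ) {c : ℝ × ℝ → M} (hc : ∀ p, SmAt c p)
    (hp : ∀ s t, c (s, t + 1) = c (s, t)) {s₀ s₁ : ℝ} (hs : s₀ ≤ s₁)
    (hU : ∀ s, s₀ ≤ s → s ≤ s₁ → ∀ t, c (s, t) ∈ HN d q j) (h0 : ∀ t, c (s₀, t) ∈ Im d q .I)
    (h1 : ∀ t, c (s₁, t) ∈ Im d q .I) (e0 : ∀ t, c (s₀, t) = tor d q (-1 / 200 - (j : ℕ) / 3) t)
    (e1 : ∀ t, c (s₁, t) = tor d q (1 / 200 - (j : ℕ) / 3) t) :
    ∫ s in s₀..s₁, cyl c w s = circ c b s₁ - circ c b s₀ + ℓ (van j) := by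
  have oN : IsOpen (HN d q j) := (h.isOpen_Im _).union (h.isOpen_Im _)
  have oI := (h.isOpen_Im .I).inter oN
  have l1 : Lat4 (rot^[3 - j] (bv (0, 1))) := (lat4_bv (by simp [S4])).rot _
  have l2 : Lat4 (van j) := (lat4_bv (by simp [S4])).rot _
  obtain ⟨z, hz, ez⟩ := h.tor_in j
  obtain ⟨z', hz', ez'⟩ := h.tor_out j
  have k0 := hl.2.2.2 c s₀ z hz _ (C5_add l1 l2) (fun t => hc _) fun t => (e0 t).trans (ez t)
  have k1 := hl.2.2.2 c s₁ z' hz' _ l1 (fun t => hc _) fun t => (e1 t).trans (ez' t)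
  rw [circ_sub (hb.sm.mono inter_subset_left) (hb'.sm.mono inter_subset_right) oI hc
    fun t => ⟨h0 t, hU s₀ le_rfl hs t⟩, map_add] at k0
  rw [circ_sub (hb.sm.mono inter_subset_left) (hb'.sm.mono inter_subset_right) oI hc
    fun t => ⟨h1 t, hU s₁ hs le_rfl t⟩] at k1
  rw [stokes_cyl hb' oN hc hp fun s hs' t => by
    rw [uIcc_of_le hs] at hs'
    exact hU s hs'.1 hs'.2 t]
  linarith

theorem HM.sumk (h : HM d q) {w : Fo M 2} (hw : ClO w (HH d q))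
    (h0 : ∀ z ∈ Slab (5 / 2 - d.a / 9) 0, per2 (pl (qO d q) w) z (bv (0, 0)) (bv (2, 1)) = 0)
    {b : Fo M 1} {b' : Fin 3 → Fo M 1} (hb : IsDO b w (Im d q .I))
    (hb' : ∀ j, IsDO (b' j) w (HN d q j)) {ℓ : Fin 3 → E6 →L[ℝ] ℝ}
    (hl : ∀ j, Jmp d q j (b - b' j) (ℓ j)) : ℓ 0 (van 0) + ℓ 1 (van 1) + ℓ 2 (van 2) = 0 := by
  obtain ⟨z₀, hz₀⟩ : ∃ z₀, z₀ = Cy.mk (-2 / 3 + 1 / 200) 0 0 0 (21 / 8 - d.a / 9) 0 := ⟨_, rfl⟩
  have ez : ∀ s t : ℝ, z₀ + s • bv (0, 0) + t • bv (2, 1) =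
      Cy.mk (s - 2 / 3 + 1 / 200) 0 0 0 (21 / 8 - d.a / 9) t := fun s t => by
    rw [hz₀]
    refine ext6 ?_ ?_ ?_ ?_ ?_ ?_ <;> simp [bv]
    ring
  have mz : ∀ s t : ℝ, z₀ + s • bv (0, 0) + t • bv (2, 1) ∈ Slab (5 / 2 - d.a / 9) 0 :=
    fun s t => by
      rw [ez]
      have := h.ok.ha
      exact ⟨by rw [mk20]; linarith, by rw [mk20]; linarith⟩
  have hP := (h.deck_low le_rfl).par
  have hz := h0 z₀ (by simpa using mz 0 0)
  rw [per2_pl hP mz] at hz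
  obtain ⟨c, hc⟩ : ∃ c, c = lin (qO d q) z₀ (bv (0, 0)) (bv (2, 1)) := ⟨_, rfl⟩
  have ec : ∀ s t, c (s, t) = tor d q (s - 2 / 3 + 1 / 200) t := fun s t => by
    rw [hc, lin, tor, ez]
  have sc : ∀ p, SmAt c p := fun p => by
    rw [hc]
    exact SmAt.comp (c := qO d q) (f := fun p : ℝ × ℝ => z₀ + p.1 • bv (0, 0) + p.2 • bv (2, 1))
      (hP.sm _ (mz _ _)) (by fun_prop)
  have pc : ∀ s t, c (s, t + 1) = c (s, t) := fun s t => by rw [ec, ec, (h.tor_per _ _).2]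
  rw [← hc] at hz
  have mH : ∀ p, c p ∈ HH d q := fun p => by
    rw [hc]
    exact mem_iUnion.2 ⟨.K .m, _, La_mem_m (mz p.1 p.2), rfl⟩
  have ii := fun s₀ s₁ => (cyl_continuous hw.sm h.isOpen_HH sc mH).intervalIntegrable
    (μ := MeasureTheory.volume) s₀ s₁
  have sS : ∀ (j : Fin 3) (s : ℝ), 2 / 3 - (j : ℕ) / 3 ≤ s → s ≤ 1 - 1 / 100 - (j : ℕ) / 3 →
      ∀ t, c (s, t) ∈ Im d q .I := fun j s e1 e2 t => by
    rw [ec]
    exact h.tor_S j (by linarith) (by linarith) t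
  have s0 := sS 0
  have s1 := sS 1
  have s2 := sS 2
  simp only [Fin.val_zero, Fin.val_one, Fin.val_two, Nat.cast_zero, Nat.cast_one,
    Nat.cast_ofNat] at s0 s1 s2
  have per : ∀ s t, c (s + 1, t) = c (s, t) := fun s t => by
    rw [ec, ec, ← (h.tor_per (s - 2 / 3 + 1 / 200) t).1]
    exact congrArg (tor d q · t) (by ring)
  have st : ∀ s₀ s₁ : ℝ, s₀ ≤ s₁ → (∀ s, s₀ ≤ s → s ≤ s₁ → ∀ t, c (s, t) ∈ Im d q .I) →
      ∫ s in s₀..s₁, cyl c w s = circ c b s₁ - circ c b s₀ := fun s₀ s₁ e1 e2 =>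
    stokes_cyl hb (h.isOpen_Im _) sc pc fun s hs t => by
      rw [uIcc_of_le e1] at hs
      exact e2 s hs.1 hs.2 t
  have a2 := st 0 (97 / 300) (by norm_num) fun s e1 e2 => s2 s (by linarith) (by linarith)
  have a1 := st (1 / 3) (197 / 300) (by norm_num) fun s e1 e2 => s1 s (by linarith) (by linarith)
  have a0 := st (2 / 3) (99 / 100) (by norm_num) fun s e1 e2 => s0 s (by linarith) (by linarith)
  have b1 := C5_strip h 1 hb (hb' 1) (hl 1) sc pc (s₀ := 97 / 300) (s₁ := 1 / 3) (by norm_num)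
    (fun s e1 e2 t => by
      rw [ec]
      exact h.tor_U 1 (abs_le.2 ⟨by norm_num; linarith, by norm_num; linarith⟩) t)
    (s2 _ (by norm_num) (by norm_num)) (s1 _ (by norm_num) (by norm_num))
    (fun t => (ec _ t).trans (congrArg (tor d q · t) (by norm_num)))
    (fun t => (ec _ t).trans (congrArg (tor d q · t) (by norm_num)))
  have b0 := C5_strip h 0 hb (hb' 0) (hl 0) sc pc (s₀ := 197 / 300) (s₁ := 2 / 3) (by norm_num)
    (fun s e1 e2 t => by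
      rw [ec]
      exact h.tor_U 0 (abs_le.2 ⟨by norm_num; linarith, by norm_num; linarith⟩) t)
    (s1 _ (by norm_num) (by norm_num)) (s0 _ (by norm_num) (by norm_num))
    (fun t => (ec _ t).trans (congrArg (tor d q · t) (by norm_num)))
    (fun t => (ec _ t).trans (congrArg (tor d q · t) (by norm_num)))
  have pm : ∀ s t, c (s, t) = tor d q (s - 5 / 3 + 1 / 200) t := fun s t => by
    rw [← sub_add_cancel s 1, per, ec]
    exact congrArg (tor d q · t) (by ring)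
  have c1 : ∀ t, c (1, t) = c (0, t + 0) := fun t => by rw [add_zero, ← per 0 t, zero_add]
  have b2 := C5_strip h 2 hb (hb' 2) (hl 2) sc pc (s₀ := 99 / 100) (s₁ := 1) (by norm_num)
    (fun s e1 e2 t => by
      rw [pm]
      exact h.tor_U 2 (abs_le.2 ⟨by norm_num; linarith, by norm_num; linarith⟩) t)
    (s0 _ (by norm_num) (by norm_num))
    (fun t => by rw [c1]; exact s2 _ (by norm_num) (by norm_num) _)
    (fun t => (pm _ t).trans (congrArg (tor d q · t) (by norm_num)))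
    (fun t => (pm _ t).trans (congrArg (tor d q · t) (by norm_num)))
  have c2 := circ_shift b sc pc c1
  have i1 := intervalIntegral.integral_add_adjacent_intervals (ii 0 (97 / 300)) (ii (97 / 300) (1 / 3))
  have i2 := intervalIntegral.integral_add_adjacent_intervals (ii 0 (1 / 3)) (ii (1 / 3) (197 / 300))
  have i3 := intervalIntegral.integral_add_adjacent_intervals (ii 0 (197 / 300))
    (ii (197 / 300) (2 / 3))
  have i4 := intervalIntegral.integral_add_adjacent_intervals (ii 0 (2 / 3)) (ii (2 / 3) (99 / 100))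
  have i5 := intervalIntegral.integral_add_adjacent_intervals (ii 0 (99 / 100)) (ii (99 / 100) 1)
  linarith

end Pool.Agent.Work.MP_bf98aa_gt.Cy
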