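import Pool.Agent.Work.MP_bf98aa_gt.Cy.C1

/-!
Cohomology: the two halves.
PLAN. `per_om`: `per2_const` with `cst_apply`, `conn_apply`, `wedge_apply` on `I` and `om_f_crit` on `K f` (the planes stay in the domains: `mem_WI_congr`, `starConvex_WI`, `starConvex_f`). `pl_omD`: `pl_comp`, `om_high`, `pb_La_p`, `La_mem_p`.
`coef`: on the slab `(t - t') η + b eA - b' eB` is exact (`WM.inter`); `heis_ex` replaces `η` by a form with `pl = cst dg`; `pl (qD A) eB z = pb Φ (cst E11) = cst (P 1 i * Q 1 j)` (`gAB`, `pl_congr`, `pl_comp`); `cst` is linear (`cst_apply`);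
`heis_cst`, `GD.Ok.ind`. `mvW`: `mv` with `heis_h1` on `WD` (`HM.deck_D`; `v ≠ 0` because `ind` fails otherwise, or `v 1 1 = - u 1 w 1`); the constant form `e₀₀ dx₀ + e₀₁ dy₀ + e₁₀ dx₁ + e₁₁ dy₁` is `c₁ - c₂` with `c₂` a combination of the forms `a, b`
of `HM.dXY` for `B` (pulled back by `Φ` they are `P 1 0 dx₀ + P 1 1 dx₁`, `Q 1 0 dy₀ + Q 1 1 dy₁`, `p10`, `q10`) and `c₁` a combination of those for `A`; `WM.cov`.
-/

set_option autoImplicit false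

open scoped Manifold ContDiff Topology
open Set

namespace Pool.Agent.Work.MP_bf98aa_gt.Cy

open Pool.Agent.Work.MP_bf98aa_gt.Th

variable {M : Type} [TopologicalSpace M] [ChartedSpace E6 M] [IsManifold 𝓘(ℝ, E6) ∞ M]

variable {d : HD} {q : Ix → E6 → M} {G : GD} {qA qB : Ix → E6 → M}

theorem C6_pt (s t : ℝ) : (0 : E6) + s • bv (1, 0) + t • bv (1, 1) = Cy.mk 0 0 s t 0 0 := by
  apply ext6 <;> simp [bv]

theorem C6_memI (s t : ℝ) : (0 : E6) + s • bv (1, 0) + t • bv (1, 1) ∈ WI :=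
  mem_WI_congr (by rw [C6_pt]; rfl) (by rw [C6_pt]; rfl) starConvex_WI.1

theorem C6_uw (s t : ℝ) : uu ((0 : E6) + s • bv (1, 0) + t • bv (1, 1)) = 0 ∧
    ww ((0 : E6) + s • bv (1, 0) + t • bv (1, 1)) = 0 := by
  rw [C6_pt]
  exact ⟨Complex.ext rfl rfl, Complex.ext rfl rfl⟩

theorem C6_memF (h : d.Ok) (s t : ℝ) :
    (0 : E6) + s • bv (1, 0) + t • bv (1, 1) ∈ d.TK.W .f := by
  have hD := TK_ok h
  refine ⟨?_, ?_, ?_⟩
  · rw [(C6_uw s t).1, zero_mul, map_zero]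
    norm_num
  · rw [mF, (C6_uw s t).1, (C6_uw s t).2, sub_self]
    linarith [hD.lo]
  · rw [mF, (C6_uw s t).1, (C6_uw s t).2, sub_self]
    linarith [hD.hi]

theorem HM.per_om (h : HM d q) {η : Fo M 2} (hA : ∀ c, ∀ z ∈ d.W c, pl (q c) η z = d.om c z) :
    per2 (pl (q .I) η) 0 (bv (1, 0)) (bv (1, 1)) = d.β ∧
      per2 (pl (q (.K .f)) η) 0 (bv (1, 0)) (bv (1, 1)) =
        d.a * (d.u 1 * d.w 1) + d.β * (d.u 0 * d.w 0) := by
  refine ⟨per2_const fun s t => ?_, per2_const fun s t => ?_⟩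
  · rw [hA .I _ (C6_memI s t)]
    simp only [HD.om, heis, ContinuousAlternatingMap.add_apply, cst_apply, wedge_apply, G11a_dc,
      conn_apply, Matrix.cons_val_zero, Matrix.cons_val_one]
    simp [bv, HD.γN]
  · rw [hA (.K .f) _ (C6_memF h.ok s t), HD.om,
      om_f_crit (C6_memF h.ok s t) (C6_uw s t).1 (C6_uw s t).2, (γK_11 h.ok).1]
    simp [bv]

theorem HM.pl_omD (h : HM d q) {η : Fo M 2} (hA : ∀ c, ∀ z ∈ d.W c, pl (q c) η z = d.om c z) :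
    ∀ z ∈ WD, pl (qD d q) η z = heis d.dg (toR d.v) z := by
  intro z hz
  have hm : d.La z ∈ d.TK.W .p := La_mem_p h.ok hz
  have e : pl (qD d q) η z = pb d.La (pl (q (.K .p)) η) z :=
    pl_comp ((h.par (.K .p)).sm _ hm) d.contDiff_La.contDiffAt η
  have e' : pl (q (.K .p)) η (d.La z) = heis d.γK (toR (d.TK.As .p)) (d.La z) :=
    (hA (.K .p) _ hm).trans (om_high hm hz.1)
  rw [e, pb_congr' e', pb_La_p h.ok]

theorem C6_per {α β γ : Fm E6 2} {U : Set E6} (hU : IsOpen U) (ha : Sm α U) (hb : Sm β U)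
    (hc : Sm γ U) {z a b : E6} (hz : ∀ s t : ℝ, z + s • a + t • b ∈ U) (x y : ℝ) :
    per2 (α - x • β - y • γ) z a b = per2 α z a b - x * per2 β z a b - y * per2 γ z a b := by
  have e : α - x • β - y • γ = (1 : ℝ) • ((1 : ℝ) • α + (-x) • β) + (-y) • γ := by
    module
  have hs : Sm ((1 : ℝ) • α + (-x) • β) U :=
    (ContDiffOn.const_smul (1 : ℝ) ha).add (ContDiffOn.const_smul (-x) hb)
  rw [e, per2_lin hU hs hc hz, per2_lin hU ha hb hz]
  ring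

/-- Both periods can be killed. -/
theorem HM.kill (h : HM d q) {η w : Fo M 2} (hη : ClO η (HH d q))
    (hA : ∀ c, ∀ z ∈ d.W c, pl (q c) η z = d.om c z) (hw : ClO w (HH d q)) :
    ∃ (e : Fo M 2) (t b : ℝ), ClO e (HH d q) ∧ (∀ z ∈ WD, pl (qD d q) e z = cst !![0, 0; 0, 1]) ∧
      per2 (pl (q .I) (w - t • η - b • e)) 0 (bv (1, 0)) (bv (1, 1)) = 0 ∧
      per2 (pl (q (.K .f)) (w - t • η - b • e)) 0 (bv (1, 0)) (bv (1, 1)) = 0 := by
  obtain ⟨a₁, a₂, e, -, -, he, hD, hI, hF⟩ := h.dXY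
  obtain ⟨p1, p2⟩ := h.per_om hA
  have hm : ∀ c, MapsTo (q c) (d.W c) (HH d q) := fun c z hz => mem_iUnion.2 ⟨c, z, hz, rfl⟩
  have key : ∀ c, (∀ s t : ℝ, (0 : E6) + s • bv (1, 0) + t • bv (1, 1) ∈ d.W c) → ∀ t b : ℝ,
      per2 (pl (q c) (w - t • η - b • e)) 0 (bv (1, 0)) (bv (1, 1)) =
        per2 (pl (q c) w) 0 (bv (1, 0)) (bv (1, 1)) -
          t * per2 (pl (q c) η) 0 (bv (1, 0)) (bv (1, 1)) -
          b * per2 (pl (q c) e) 0 (bv (1, 0)) (bv (1, 1)) := fun c hz t b => by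
    rw [pl_sub, pl_sub, pl_smul, pl_smul]
    exact C6_per (h.par c).opn (hw _ _ (h.par c) (hm c)).1 (hη _ _ (h.par c) (hm c)).1
      (he _ _ (h.par c) (hm c)).1 hz t b
  have e1 : per2 (pl (q .I) e) 0 (bv (1, 0)) (bv (1, 1)) = 1 :=
    per2_const fun s t => (hI _ (C6_memI s t)).2.2
  have e2 : per2 (pl (q (.K .f)) e) 0 (bv (1, 0)) (bv (1, 1)) = d.u 0 * d.w 0 :=
    per2_const fun s t => hF _ (C6_memF h.ok s t)
  have ha : d.a ≠ 0 := ne_of_gt (by linarith [h.ok.ha])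
  have hu : (d.u 1 : ℝ) ≠ 0 := Int.cast_ne_zero.2 h.ok.u1
  have hw1 : (d.w 1 : ℝ) ≠ 0 := Int.cast_ne_zero.2 h.ok.w1
  obtain ⟨t, ht⟩ : ∃ t : ℝ, t * (d.a * (d.u 1 * d.w 1)) =
      per2 (pl (q (.K .f)) w) 0 (bv (1, 0)) (bv (1, 1)) -
        d.u 0 * d.w 0 * per2 (pl (q .I) w) 0 (bv (1, 0)) (bv (1, 1)) :=
    ⟨_, div_mul_cancel₀ _ (mul_ne_zero ha (mul_ne_zero hu hw1))⟩
  refine ⟨e, t, per2 (pl (q .I) w) 0 (bv (1, 0)) (bv (1, 1)) - t * d.β, he,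
    fun z hz => (hD z hz).2.2, ?_, ?_⟩
  · rw [key .I C6_memI, p1, e1]
    ring
  · rw [key (.K .f) (C6_memF h.ok), p2, e2]
    linear_combination -ht

theorem C6_cd (G : GD) : ContDiff ℝ ∞ G.Φ := by
  refine contDiff_iff_contDiffAt.2 fun z => ?_
  unfold GD.Φ
  refine K4_mk ?_ ?_ ?_ ?_ ?_ ?_ <;> fun_prop

theorem C6_fd (G : GD) (z v : E6) :
    fderiv ℝ G.Φ z v (1, 0) = G.P 1 0 * v (0, 0) + G.P 1 1 * v (1, 0) ∧
      fderiv ℝ G.Φ z v (1, 1) = G.Q 1 0 * v (0, 1) + G.Q 1 1 * v (1, 1) := by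
  have h := ((C6_cd G).differentiable (by simp) z).hasFDerivAt
  have key : ∀ (i : Cx) (L : E6 →L[ℝ] ℝ), (∀ y, G.Φ y i = L y) → fderiv ℝ G.Φ z v i = L v :=
    fun i L e => by
      have h1 : HasFDerivAt (fun y => L y) ((dc i).comp (fderiv ℝ G.Φ z)) z := by
        rw [← funext e]
        exact (dc i).hasFDerivAt.comp z h
      rw [← h1.unique L.hasFDerivAt]
      rfl
  exact ⟨key _ ((G.P 1 0 : ℝ) • dc (0, 0) + (G.P 1 1 : ℝ) • dc (1, 0)) fun _ => rfl,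
    key _ ((G.Q 1 0 : ℝ) • dc (0, 1) + (G.Q 1 1 : ℝ) • dc (1, 1)) fun _ => rfl⟩

theorem C6_mem (G : GD) {z : E6} (hz : z ∈ WD) : G.Φ z ∈ WD := by
  obtain ⟨h1, h2⟩ := hz
  constructor
  · show 1 / 16 < 1 - z (2, 0)
    linarith
  · show 1 - z (2, 0) < 15 / 16
    linarith

theorem C6_pl (h : WM G qA qB) {k : ℕ} (w : Fo M k) {z : E6} (hz : z ∈ WD) :
    pl (qD G.A qA) w z =
      (pl (qD G.B qB) w (G.Φ z)).compContinuousLinearMap (fderiv ℝ G.Φ z) := by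
  have e : qD G.A qA =ᶠ[𝓝 z] fun y => qD G.B qB (G.Φ y) :=
    Filter.eventually_of_mem (h.hA.deck_D.par.opn.mem_nhds hz) h.gAB
  rw [pl_congr e, pl_comp (h.hB.deck_D.par.sm _ (C6_mem G hz)) (C6_cd G).contDiffAt]
  rfl

theorem C6_pl1 (h : WM G qA qB) (w : Fo M 1) {z : E6} (hz : z ∈ WD) (v : E6) :
    pl (qD G.A qA) w z ![v] = pl (qD G.B qB) w (G.Φ z) ![fderiv ℝ G.Φ z v] := by
  rw [C6_pl h w hz, ContinuousAlternatingMap.compContinuousLinearMap_apply]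
  congr 1
  funext i
  fin_cases i
  rfl

theorem C6_pl2 (h : WM G qA qB) (w : Fo M 2) {z : E6} (hz : z ∈ WD) (u v : E6) :
    pl (qD G.A qA) w z ![u, v] =
      pl (qD G.B qB) w (G.Φ z) ![fderiv ℝ G.Φ z u, fderiv ℝ G.Φ z v] := by
  rw [C6_pl h w hz, ContinuousAlternatingMap.compContinuousLinearMap_apply]
  congr 1
  funext i
  fin_cases i <;> rfl

theorem WM.coef (h : WM G qA qB) {η w e e' : Fo M 2}
    (hA : ∀ c, ∀ z ∈ G.A.W c, pl (qA c) η z = G.A.om c z)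
    (he : ∀ z ∈ WD, pl (qD G.A qA) e z = cst !![0, 0; 0, 1])
    (he' : ∀ z ∈ WD, pl (qD G.B qB) e' z = cst !![0, 0; 0, 1]) {t b t' b' : ℝ}
    (h1 : ExO (w - t • η - b • e) (HH G.A qA)) (h2 : ExO (w - t' • η - b' • e') (HH G.B qB)) :
    t = t' ∧ b = 0 ∧ b' = 0 := by
  have hD := h.hA.deck_D
  obtain ⟨η', k1, k2⟩ := heis_ex hD (h.hA.pl_omD hA)
  have x1 := h1.mono (h.inter.1.ge.trans inter_subset_left)
  have x2 := h2.mono (h.inter.1.ge.trans inter_subset_right)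
  have x3 : ExO ((t - t') • η' + b • e - b' • e') (qD G.A qA '' WD) :=
    ((x2.sub x1).sub (k2.smul (t - t'))).congr fun m _ => by
      simp only [Pi.sub_apply, Pi.add_apply, Pi.smul_apply]
      module
  obtain ⟨l, hl⟩ := heis_cst (γ := Matrix.of fun i j => (t - t') * G.A.dg i j +
      b * !![0, 0; 0, 1] i j - b' * (G.P 1 i * G.Q 1 j)) hD (by norm_num) (fun z hz => alt_ext_two fun u v => by
    have e1 := C6_pl2 h e' hz u v
    rw [he' _ (C6_mem G hz), cst_apply, (C6_fd G z u).1, (C6_fd G z u).2, (C6_fd G z v).1,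
      (C6_fd G z v).2] at e1
    rw [pl_sub, pl_add, pl_smul, pl_smul, pl_smul]
    simp only [Pi.sub_apply, Pi.add_apply, Pi.smul_apply, ContinuousAlternatingMap.sub_apply,
      ContinuousAlternatingMap.add_apply, ContinuousAlternatingMap.smul_apply, smul_eq_mul]
    rw [e1, k1 z hz, he z hz, cst_apply, cst_apply, cst_apply]
    simp only [Matrix.of_apply, Matrix.cons_val', Matrix.cons_val_zero, Matrix.cons_val_one,
      Matrix.cons_val_fin_one]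
    ring) x3
  obtain ⟨e1, e2⟩ := h.ok.ind (t - t') b b' l hl
  exact ⟨sub_eq_zero.1 e1, e2⟩

theorem WM.mvW [T2Space M] [CompactSpace M] (h : WM G qA qB) {w : Fo M 2}
    (h1 : ExO w (HH G.A qA)) (h2 : ExO w (HH G.B qB)) : ExO w univ := by
  obtain ⟨b₁, hb₁⟩ := h1
  obtain ⟨b₂, hb₂⟩ := h2
  have hK : G.A.v ≠ 0 := fun h0 => by
    have e := congrFun (congrFun h0 1) 1
    simp [HD.v, h.ok.okA.u1, h.ok.okA.w1] at e
  have hc := (hb₁.mono inter_subset_left).sub_cl (hb₂.mono inter_subset_right)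
  rw [h.inter.1] at hc
  obtain ⟨e, he⟩ := heis_h1 h.hA.deck_D hK hc
  obtain ⟨a, b, _, ca, cb, -, ha, -⟩ := h.hA.dXY
  obtain ⟨a', b', _, ca', cb', -, ha', -⟩ := h.hB.dXY
  have p2 : (G.P 1 0 : ℝ) * G.P 1 0 = 1 := by
    rcases h.ok.p10 with e | e <;> simp [e]
  have q2 : (G.Q 1 0 : ℝ) * G.Q 1 0 = 1 := by
    rcases h.ok.q10 with e | e <;> simp [e]
  rw [← h.cov]
  refine mv h.hA.isOpen_HH h.hB.isOpen_HH hb₁ hb₂
    ((ca.smul (e (1, 0) - e (0, 0) * G.P 1 0 * G.P 1 1)).add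
      (cb.smul (e (1, 1) - e (0, 1) * G.Q 1 0 * G.Q 1 1)))
    ((ca'.smul (-(e (0, 0) * G.P 1 0))).add (cb'.smul (-(e (0, 1) * G.Q 1 0)))) ?_
  rw [h.inter.1]
  refine (he (((e (1, 0) - e (0, 0) * G.P 1 0 * G.P 1 1) • a +
      (e (1, 1) - e (0, 1) * G.Q 1 0 * G.Q 1 1) • b) -
    (-(e (0, 0) * G.P 1 0) • a' + -(e (0, 1) * G.Q 1 0) • b'))
    fun z hz => alt_ext_one fun v => ?_).congr fun m _ => ?_
  · have e1 := C6_pl1 h a' hz v
    have e2 := C6_pl1 h b' hz v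
    rw [(ha' _ (C6_mem G hz)).1, alt1_apply, G11a_dc, Matrix.cons_val_zero, (C6_fd G z v).1] at e1
    rw [(ha' _ (C6_mem G hz)).2.1, alt1_apply, G11a_dc, Matrix.cons_val_zero, (C6_fd G z v).2] at e2
    rw [pl_sub, pl_add, pl_add, pl_smul, pl_smul, pl_smul, pl_smul]
    simp only [Pi.sub_apply, Pi.add_apply, Pi.smul_apply, ContinuousAlternatingMap.sub_apply,
      ContinuousAlternatingMap.add_apply, ContinuousAlternatingMap.smul_apply, smul_eq_mul]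
    rw [e1, e2, (ha z hz).1, (ha z hz).2.1]
    simp only [alt1_apply, add_apply, smul_apply, G11a_dc,
      Matrix.cons_val_zero, smul_eq_mul]
    linear_combination e (0, 0) * v (0, 0) * p2 + e (0, 1) * v (0, 1) * q2
  · simp only [Pi.sub_apply, Pi.add_apply]
    abel

end Pool.Agent.Work.MP_bf98aa_gt.Cy
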