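import Pool.Agent.Work.MP_bf98aa_gt.Cy.C4
import Pool.Agent.Work.MP_bf98aa_gt.Cy.C5
import Pool.Agent.Work.MP_bf98aa_gt.Cy.C6

/-!
The second cohomology.

PLAN of `HM.h2`. (1) `torus` on the chart `I` with `S4`, `z₀ = 0` gives a constant form `κ` with `per2 = κ ![a, b]` for `Lat4` vectors at every base point of `WI`.
(2) `κ ![dx, dy] = 0` (`h1`) gives exactness on every node chart `f` (`TM.fper`, `TM.fex`; the torus through `cplx 0 (ρ ee (-t)) x y` is a torus of `I` by `io_f_w`, `gIN`, `per2_congr`).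
(3) The vanishing cycles are `a j = ` linear part of `LL' j` on `bv (2,1)`: `a 0 = bv (2,1)`, `a 1 + a 2 = - a 0`, `a 0`, `a 1` span a finite index sublattice of the `θ`-lattice. The tori spanned by `a j` and
`bv (1,0)` or `bv (1,1)` lie in the node chart `f` (`per2_ex`), so the mixed coefficients of `κ` vanish. (4) `heis_fib` on the low slab `HM.deck_low`: the fibre periods `c` against the four lattice directions
`x₀, θ, x, y`; `c x = c y = 0` by (3) through a sector (`gIK`); the circle bundle over the curve `(p, q) = (0, 1/2)` lies in the kink chart `f` where `w` is exact (`h2`, `TM.fex`, `per2_ex`), this gives `c · La' (bv (1,0)) = 0`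
and `c · La' (bv (1,1)) = 0`, so `c = 0` because `u 1 ≠ 0`, `w 1 ≠ 0`. Hence `κ ![θ₁, θ₂] = ± c θ = 0` and `κ = 0` on the lattice: `w` is exact on `I` (`torus_ex`), on the charts `m` of the nodes (`TM.mex`), on `HN j` (`TM.mv_node`).
(5) Primitives `b` on `I`, `b j` on `HN j`; `b - b j` has a potential on the rectangle (`RA_rect`, `pot`) with jumps (`jump`) along the four lattice directions. The jumps `c j` along `a j` satisfy `∑ c j = 0`: Stokes (`stokes_cyl`,
`circ_pot`, `circ_shift`) on the torus `qO (x₀ = s, r = 21/8, φ = t)`, cut at `s = i/3 ± 8/1575` (`|μ| = 3/25`), whose period `c x₀` vanishes by (4). Since `a 0 + a 1 + a 2 = 0` is the only relation, a constant form on `I` and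
multiples of `dq j` (`TM.dco 1`), `dx`, `dy` (`HM.dXY`) on `HN j` (`glue_disj`) cancel all jumps: `mv`, `ex_of_pot`. (6) Exact on `Im (K m)` by `Deck.ex_of_sub` with `setM` into the collar; `mv` on `HM.collar` with `heis_h1`
(constant forms in `x₀, θ, x, y` extend over `Im (K m)`: `Deck.desc`); `TM.mv_kink` with `HM.inter_f`, `HM.HH_eq`.
PLAN of `WM.h2`. On each half choose `t, b` such that `w - t η - b e` has both periods zero (`η`: `β` and `γK 1 1`; `e`: `1` and `u 0 * w 0`; determinant `-a u 1 w 1 ≠ 0`). On the middle slab `(tA - tB) η + bA eA - bB eB` is exact, so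
`heis_ex`, `heis_cst`, `GD.Ok.ind` give `tA = tB`, `bA = bB = 0`. Then `mv` with `heis_h1` on `WD`: the forms `dx`, `dy` of `A` and of `B` (`HM.dXY`, `Φ`, `p10`, `q10`) span the constant forms.
-/

set_option autoImplicit false

open scoped Manifold ContDiff Topology
open Set Complex

namespace Pool.Agent.Work.MP_bf98aa_gt.Cy

open Pool.Agent.Work.MP_bf98aa_gt.Th

variable {M : Type} [TopologicalSpace M] [ChartedSpace E6 M] [IsManifold 𝓘(ℝ, E6) ∞ M]

variable [T2Space M] [CompactSpace M] {d : HD} {q : Ix → E6 → M} {G : GD} {qA qB : Ix → E6 → M}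

theorem HM.h2 (h : HM d q) {w : Fo M 2} (hw : ClO w (HH d q))
    (h1 : per2 (pl (q .I) w) 0 (bv (1, 0)) (bv (1, 1)) = 0)
    (h2 : per2 (pl (q (.K .f)) w) 0 (bv (1, 0)) (bv (1, 1)) = 0) : ExO w (HH d q) := by
  obtain ⟨p0, p1⟩ := h.per0 hw h1
  have sub : ∀ c, Im d q c ⊆ HH d q := fun c => subset_iUnion (fun c => q c '' d.W c) c
  have oN : ∀ j, IsOpen (HN d q j) := fun j => (h.isOpen_Im _).union (h.isOpen_Im _)
  obtain ⟨b, hb⟩ := h.exI (hw.mono (sub _)) p0
  choose b' hb' using h.exN hw p0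
  choose l hl using fun j => h.h1N j
    ((hb.mono inter_subset_left).sub_cl ((hb' j).mono inter_subset_right))
  obtain ⟨α, a0, a2, ha⟩ := exists_alpha (k := fun j => l j (van j)) (h.sumk hw p1 hb hb' hl)
  obtain ⟨c, hc, hc'⟩ := h.extI α
  choose c' k1 k2 using fun j => h.extN j (ℓ := α - l j) (by simp [a0, (hl j).1])
    (by simp [a2, (hl j).2.1]) (by simp [ha j])
  have e1 := mv_disj (h.isOpen_Im .I) oN h.HN_disjoint hb hb' hc k1 fun j =>
    ((hl j).2.2.1 (c - c' j) fun z hz => by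
      rw [pl_sub, Pi.sub_apply, hc' z hz.1, k2 j z hz]
      exact alt_ext_one fun v => by simp [alt1_apply]).congr fun m _ => by
        simp only [Pi.sub_apply, Pi.add_apply]; abel
  rw [h.HH_eq]
  exact h.tK.mv_kink (TK_A11 h.ok)
    (((h.isOpen_Im _).union (isOpen_iUnion oN)).union (h.isOpen_Im _)) h.inter_f (h.exO hw e1)
    (h.tK.fex (hw.mono (sub (.K .f))) h2)

theorem WM.h2 (h : WM G qA qB) {η : Fo M 2} (hη : ClO η univ)
    (hA : ∀ c, ∀ z ∈ G.A.W c, pl (qA c) η z = G.A.om c z)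
    (hB : ∀ c, ∀ z ∈ G.B.W c, pl (qB c) η z = G.B.om c z) {w : Fo M 2} (hw : ClO w univ) :
    ∃ t : ℝ, ExO (w - t • η) univ := by
  have u : ∀ {v : Fo M 2} {O : Set M}, ClO v univ → ClO v O := fun hv => hv.mono (subset_univ _)
  obtain ⟨e, t, b, c1, e1, p1, p2⟩ := h.hA.kill (u hη) hA (u hw)
  obtain ⟨e', t', b', c2, e2, p3, p4⟩ := h.hB.kill (u hη) hB (u hw)
  have x1 := h.hA.h2 (((u hw).sub ((u hη).smul t)).sub (c1.smul b)) p1 p2
  have x2 := h.hB.h2 (((u hw).sub ((u hη).smul t')).sub (c2.smul b')) p3 p4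
  obtain ⟨rfl, rfl, rfl⟩ := h.coef hA e1 e2 x1 x2
  exact ⟨t, h.mvW (x1.congr fun m _ => by simp) (x2.congr fun m _ => by simp)⟩


end Pool.Agent.Work.MP_bf98aa_gt.Cy
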