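import Pool.Agent.Work.MP_bf98aa_gt.Cy.HDefs

/-!
The family of data, `k = 27 n + 82`.
-/

set_option autoImplicit false

open scoped Manifold ContDiff Topology
open Set Complex

namespace Pool.Agent.Work.MP_bf98aa_gt.Cy

open Pool.Agent.Work.MP_bf98aa_gt.Th

/-- The data for the parameter `n`. -/
noncomputable def fam (n : ℕ) : GD where
  A := ⟨(27 * n + 82) / 2, (27 * n + 109) / 2, ![1, 1], ![0, 1], ![27 * n + 91, -(27 * n + 82)],
    ![3 * n + 10, -(3 * n + 9)]⟩
  B := ⟨(27 * n + 91) / 2, (27 * n + 82) / 2, ![27 * n + 109, 27 * n + 82], ![-(n + 4), -(n + 3)],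
    ![1, -1], ![0, 1]⟩
  P := !![0, 1; 1, 0]
  Q := !![-2, 3; -1, 2]

theorem famA_ok (n : ℕ) : (fam n).A.Ok := by
  have hn : (0 : ℝ) ≤ n := n.cast_nonneg
  refine ⟨by simp [fam], by simp [fam]; ring, by simp [fam], by simp [fam]; omega,
    by simp only [fam]; linarith, by simp only [fam]; linarith, fun μ h => ?_, fun μ h0 h1 => ?_⟩
  · obtain ⟨h0, h1⟩ := abs_le.1 h
    simp [fam]
    constructor <;> nlinarith [mul_nonneg hn (sub_nonneg.2 h1), mul_nonneg hn (sub_nonneg.2 h0)]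
  · simp [fam]
    nlinarith [mul_nonneg hn h0, mul_nonneg hn (sq_nonneg (μ - 3 / 4)), sq_nonneg (μ - 3 / 4)]

theorem famB_ok (n : ℕ) : (fam n).B.Ok := by
  have hn : (0 : ℝ) ≤ n := n.cast_nonneg
  refine ⟨by simp [fam]; ring, by simp [fam], by simp [fam]; omega, by simp [fam],
    by simp only [fam]; linarith, by simp only [fam]; linarith, fun μ h => ?_, fun μ h0 h1 => ?_⟩
  · obtain ⟨h0, h1⟩ := abs_le.1 h
    simp [fam]
    constructor <;> nlinarith [mul_nonneg hn (sub_nonneg.2 h1), mul_nonneg hn (sub_nonneg.2 h0)]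
  · simp [fam]
    nlinarith [mul_nonneg hn h0, mul_nonneg hn (sq_nonneg (μ - 1 / 2)), sq_nonneg (μ - 1 / 2)]

theorem fam_ok (n : ℕ) : (fam n).Ok := by
  have hn : (0 : ℝ) ≤ n := n.cast_nonneg
  refine ⟨famA_ok n, famB_ok n, by simp [fam], by simp [fam], by simp [fam], by simp [fam], ?_, ?_,
    fun t b b' l h => ?_, (27 * n + 83) / 18, (27 * n + 92) / 18, ?_, ?_⟩
  · ext i j
    fin_cases i <;> fin_cases j <;>
      simp [fam, HD.v, Matrix.mul_apply, Matrix.vecHead, Matrix.vecTail] <;> ring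
  · ext i j
    fin_cases i <;> fin_cases j <;>
      simp [fam, HD.v, HD.dg, toR, Matrix.mul_apply, Matrix.vecHead, Matrix.vecTail] <;> ring
  · have h00 := h 0 0
    have h01 := h 0 1
    have h10 := h 1 0
    have h11 := h 1 1
    simp [fam, HD.v, HD.dg] at h00 h01 h10 h11
    have hl : l = 0 := h10.resolve_right (by linarith)
    subst hl
    have hb : b' = 0 := by linarith
    have ht : t = 0 := by nlinarith
    subst ht
    exact ⟨rfl, by linarith, hb⟩
  · simp [fam]; ring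
  · simp [fam]; ring

theorem fam_β (N : ℝ) : ∃ n, N ≤ (fam n).A.β / 4 := by
  obtain ⟨n, hn⟩ := exists_nat_ge N
  exact ⟨n, by simp only [fam]; have : (0 : ℝ) ≤ n := n.cast_nonneg; linarith⟩


end Pool.Agent.Work.MP_bf98aa_gt.Cy
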