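import Pool.Agent.Work.MP_bf98aa_gt.Cy.H2
import Pool.Agent.Work.MP_bf98aa_gt.Cy.G8

/-!
The glued atlases.

PLAN. `glI_ok`: `iff` by `rect_unique`, `RN_iff_RS`, `RS_LL`, and `io_mp` when the signs differ (then `p < -1/4`, `gg_left`); `clo`: along the relation the base point of `LL j x` is
the pair of `io s y .1 0` and `amu (io s y)`; pass to the limit, `io_dom`, `DI_of_rect`. `glH_ok`: `iff` is `SS`, `SU`, `UU` with `RN_iff_RS`, `RS_La_m`; `clo`: use the level function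
`max (5/2) r`, where `r = max_j (rot^[j] x (0,0))` on `I`, `2 + p + hinf μ` on the charts `m`, `p` of a node and `0` on `f`; it is continuous, invariant under the relation of `atlZ`, and equals
`a / 9 + amu` of a related point of the kink; in the limit it is `> 5/2` (`io_dom`), then `DS_of_level`, `exists_m`. `glW_ok`: `RS_Φ`; `clo`: `amu` on both sides adds up to 1 (define the level
on a half as `max 0 amu` on the kink and 0 on the inner charts); a point of the kink with `amu > 1/16` is related to a point of the chart `p` (`exists_p`, `f_exists_p`).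
-/

set_option autoImplicit false

open scoped Manifold ContDiff Topology
open Set Complex

namespace Pool.Agent.Work.MP_bf98aa_gt.Cy

open Pool.Agent.Work.MP_bf98aa_gt.Th

variable {G : GD} {z z' : E6}

theorem H3_le {S : Set (E6 × E6)} {p : E6 × E6} {f g : E6 × E6 → ℝ} (hp : p ∈ closure S)
    (hf : ContinuousAt f p) (hg : ContinuousAt g p) (h : ∀ q ∈ S, f q ≤ g q) : f p ≤ g p := by
  by_contra k
  obtain ⟨q, h1, h2⟩ := ((mem_closure_iff_frequently.1 hp).and_eventually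
    (hg.eventually_lt hf (not_le.1 k))).exists
  exact absurd (h q h1) (not_le.2 h2)

theorem H3_eq {S : Set (E6 × E6)} {p : E6 × E6} {f g : E6 × E6 → ℝ} (hp : p ∈ closure S)
    (hf : ContinuousAt f p) (hg : ContinuousAt g p) (h : ∀ q ∈ S, f q = g q) : f p = g p :=
  le_antisymm (H3_le hp hf hg fun q hq => (h q hq).le) (H3_le hp hg hf fun q hq => (h q hq).ge)

theorem H3_base {K : Matrix (Fin 2) (Fin 2) ℤ} (h : RS 0 K z z') :
    z' (0, 0) = z (0, 0) ∧ z' (2, 0) = z (2, 0) := by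
  obtain ⟨m₀, m₁, n₀, n₁, l, h1, -, -, -, h2, -⟩ := RS_iff.1 h
  exact ⟨by simpa using h1, h2⟩

theorem H3_mu {κ : ℤ} {K : Matrix (Fin 2) (Fin 2) ℤ} (h : RS κ K z z') : z' (2, 0) = z (2, 0) := by
  obtain ⟨m₀, m₁, n₀, n₁, l, -, -, -, -, h2, -⟩ := RS_iff.1 h
  exact h2

theorem H3_lat : IsClosed {p : E6 × E6 | Lat4 (p.2 - p.1)} := by
  have c : ∀ i, Continuous fun p : E6 × E6 => (p.2 - p.1) i := fun i => by fun_prop
  refine (isClosed_eq (c _) continuous_const).inter ((isClosed_eq (c _) continuous_const).inter ?_)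
  show IsClosed {p : E6 × E6 | ∀ i, ∃ n : ℤ, (p.2 - p.1) i = n}
  rw [ofPred_forall]
  exact isClosed_iInter fun i => K3_closed1.preimage (c i)

theorem atlI_pre : atlI.Pre where
  opn _ := isOpen_WI
  mem h := ⟨h.1, h.2.1⟩
  refl h := ⟨h, h, RS.refl _⟩
  symm h := ⟨h.2.1, h.1, h.2.2.symm⟩
  trans h h' := ⟨h.1, h'.2.1, h.2.2.trans h'.2.2⟩
  loc := fun {i x j y} h => by
    obtain ⟨hx, hy, f, hf, rfl⟩ := h
    have c : ContDiff ℝ ∞ f := by
      obtain ⟨m₀, m₁, n₀, n₁, l, rfl⟩ := hf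
      exact hact_contDiff _ _ _ _ _
    refine ⟨f, c.contDiffAt, rfl, ?_⟩
    filter_upwards [isOpen_WI.mem_nhds hx,
      c.continuous.continuousAt.eventually (isOpen_WI.mem_nhds hy)] with w a b
    exact ⟨a, b, f, hf, rfl⟩
  inj := fun {i x} _ => by
    have : ∀ᶠ p : E6 × E6 in 𝓝 (x, x), dist p.2 p.1 < 1 :=
      (continuous_snd.dist continuous_fst).continuousAt.eventually_lt continuousAt_const (by simp)
    filter_upwards [this] with p hp h
    funext i
    obtain ⟨n, hn⟩ := (RS00_iff.1 h.2.2).2.2 i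
    have e : p.2 i = p.1 i + n := eq_add_of_sub_eq' hn
    have k := K4_int (((dist_comm _ _).trans_le (dist_le_pi_dist p.2 p.1 i)).trans_lt hp) e
    rw [e, k, Int.cast_zero, add_zero]
  clo hx hy hc := ⟨hx, hy, RS00_iff.2 (H3_lat.closure_subset_iff.2
    (fun p hp => RS00_iff.1 hp.2.2) hc)⟩

theorem H3_io0 {D : TD} {s : K3} (hs : s ≠ .f) (z : E6) : (D.io s z).1 0 = z (0, 0) := by
  cases s
  · rfl
  · rfl
  · exact absurd rfl hs

theorem H3_RN {a a' : Am} (h : TN.RN a a') : a'.1 0 = a.1 0 := by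
  obtain ⟨⟨m, hm⟩, -⟩ := h
  simpa [TN, sub_eq_zero] using hm

theorem H3_RS {s : K3} (hs : s ≠ .f) (hz : z ∈ TN.W s) (hz' : z' ∈ TN.W s) :
    TN.RN (TN.io s z) (TN.io s z') ↔ RS 0 0 z z' := by
  rw [RN_iff_RS TN_ok hs hz hz', TN_As]
  rfl

theorem H3_dom {s : K3} (hs : s ≠ .f) (hz : z ∈ TN.W s) : TN.dom (z (0, 0)) (z (2, 0)) := by
  have := io_dom hz
  rwa [H3_io0 hs, io_amu hs hz] at this

theorem H3_rn {s s' : K3} (hs : s ≠ .f) (hs' : s' ≠ .f) (hz : z ∈ TN.W s) (hz' : z' ∈ TN.W s')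
    (h : z (0, 0) < -1 / 4 ∨ 0 < sg s * z (2, 0)) (h' : z' (0, 0) < -1 / 4 ∨ 0 < sg s' * z' (2, 0)) :
    TN.RN (TN.io s z) (TN.io s' z') ↔ RS 0 0 z z' := by
  by_cases e : s = s'
  · subst e
    exact H3_RS hs hz hz'
  have key : z' (0, 0) = z (0, 0) → z' (2, 0) = z (2, 0) →
      (TN.RN (TN.io s z) (TN.io s' z') ↔ RS 0 0 z z') := fun e0 e2 => by
    have d := H3_dom hs hz
    have d0 := (d.1 rfl).1
    have l : z (0, 0) < -1 / 4 := by
      rw [e0, e2] at h'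
      rcases h with h | h
      · exact h
      rcases h' with h' | h'
      · exact h'
      cases s <;> cases s' <;> simp [sg] at h h' e hs hs' <;> linarith
    have g : gz z = 1 := gg_left (by linarith) l.le _
    have g' : gz z ≠ 0 := g ▸ one_ne_zero
    cases s <;> cases s' <;> try contradiction
    · rw [io_mp g]
      exact H3_RS hs' ⟨d, Or.inl g'⟩ hz'
    · rw [← io_mp g]
      exact H3_RS hs' ⟨d, Or.inl g'⟩ hz'
  refine ⟨fun k => (key ?_ ?_).1 k, fun k => (key (H3_base k).1 (H3_base k).2).2 k⟩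
  · have := H3_RN k
    rwa [H3_io0 hs, H3_io0 hs'] at this
  · have := k.amu
    rwa [io_amu hs hz, io_amu hs' hz'] at this

theorem H3_cio {D : TD} {s : K3} (hz : z ∈ D.W s) :
    ContinuousAt (fun y => (D.io s y).1 0) z ∧ ContinuousAt (fun y => amu (D.io s y)) z :=
  ⟨((continuous_apply 0).comp continuous_fst).continuousAt.comp (io_contDiffAt hz).continuousAt,
    K2_amu.continuous.continuousAt.comp (io_contDiffAt hz).continuousAt⟩

theorem H3_fst {f : E6 → ℝ} {x y : E6} (h : ContinuousAt f x) :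
    ContinuousAt (fun p : E6 × E6 => f p.1) (x, y) :=
  ContinuousAt.comp (f := Prod.fst) (x := (x, y)) h continuousAt_fst

theorem H3_snd {f : E6 → ℝ} {x y : E6} (h : ContinuousAt f y) :
    ContinuousAt (fun p : E6 × E6 => f p.2) (x, y) :=
  ContinuousAt.comp (f := Prod.snd) (x := (x, y)) h continuousAt_snd

theorem H3_S {j : Fin 3} {s' : K3} :
    glI.S atlI (TN.atl.copies (Fin 3)) () z (j, s') z' ↔
      z' ∈ TN.W s' ∧ ∃ s, z ∈ DI j s ∧ TN.RN (TN.io s (LL j z)) (TN.io s' z') := by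
  constructor
  · rintro ⟨⟨j', s⟩, x, hx, ⟨-, -, h1⟩, h2, -, h3, h4⟩
    obtain rfl : j' = j := h2
    have hz : z ∈ DI j' s := DI_congr (H3_base h1).1.symm (H3_base h1).2.symm hx
    exact ⟨h3, s, hz, ((H3_RS hz.2.1 hz.2.2.1 hx.2.2.1).2 ((RS_LL j').2 h1)).trans h4⟩
  · rintro ⟨h3, s, hz, h4⟩
    exact ⟨(j, s), z, hz, ⟨hz.1, hz.1, RS.refl _⟩, rfl, hz.2.2.1, h3, h4⟩

theorem glI_ok : glI.Ok atlI (TN.atl.copies (Fin 3)) where
  opn l := isOpen_DI _ _
  sub l z hz := hz.1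
  maps l z hz := hz.2.2.1
  sm l z _ := ⟨(contDiff_LL _).contDiffAt, LL' l.1, (contDiff_LL' _).contDiffAt, LL'_LL _ _,
    Filter.Eventually.of_forall (LL_LL' _)⟩
  iff := fun ⟨j, s⟩ ⟨j', s'⟩ z hz z' hz' => by
    constructor
    · rintro ⟨-, -, h⟩
      have b := H3_base ((RS_LL j').2 h)
      have d := H3_dom hz'.2.1 hz'.2.2.1
      obtain rfl : j = j' := rect_unique (H3_dom hz.2.1 hz.2.2.1) (b.1 ▸ b.2 ▸ d)
      exact ⟨rfl, hz.2.2.1, hz'.2.2.1, (H3_rn hz.2.1 hz'.2.1 hz.2.2.1 hz'.2.2.1 hz.2.2.2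
        hz'.2.2.2).2 ((RS_LL j).2 h)⟩
    · rintro ⟨e, -, -, h⟩
      obtain rfl : j = j' := e
      exact ⟨hz.1, hz'.1, (RS_LL j).1 ((H3_rn hz.2.1 hz'.2.1 hz.2.2.1 hz'.2.2.1 hz.2.2.2
        hz'.2.2.2).1 h)⟩
  clo := fun i ⟨j, s⟩ x hx y hy hc => by
    have c : ∀ i, ContinuousAt (fun w => LL j w i) x := fun i =>
      ((continuous_apply i).comp (contDiff_LL j).continuous).continuousAt
    have e0 := H3_eq hc (H3_snd (H3_cio hy).1) (H3_fst (c (0, 0))) fun q hq => by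
      obtain ⟨-, s', h1, h2⟩ := H3_S.1 hq
      exact (H3_RN h2).trans (H3_io0 h1.2.1 _)
    have e2 := H3_eq hc (H3_snd (H3_cio hy).2) (H3_fst (c (2, 0))) fun q hq => by
      obtain ⟨-, s', h1, h2⟩ := H3_S.1 hq
      exact h2.amu.trans (io_amu h1.2.1 h1.2.2.1)
    have d := io_dom (D := TN) hy
    obtain ⟨s', h⟩ := DI_of_rect (j := j) hx (e0 ▸ e2 ▸ d)
    exact ⟨(j, s'), x, h, hx, hx, RS.refl _⟩

theorem atlZ_pre : atlZ.Pre := glI_ok.pre atlI_pre (TN_ok.pre.copies _)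

theorem H3_maps {d : HD} (h : d.Ok) (l : Fin 3 ⊕ Fin 3) (hz : z ∈ (glH d).D l) :
    (glH d).o l z ∈ d.TK.W .m ∧ (glH d).o l z (2, 0) < 0 := by
  have := h.ha
  rcases l with j | j
  · have k := oS_mem h (j := j) hz
    have k' : d.oS j z (2, 0) < 0 := by linarith [k.2]
    exact ⟨La_mem_m ⟨k.1, k'⟩, k'⟩
  · have k := oU_mem h (j := j) hz
    have k' : d.oU j z (2, 0) < 0 := by linarith [k.2]
    exact ⟨La_mem_m ⟨k.1, k'⟩, k'⟩

theorem H3_Km {d : HD} (h : d.Ok) (hz : d.La z ∈ d.TK.W .m) (hz' : d.La z' ∈ d.TK.W .m) :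
    d.TK.atl.R .m (d.La z) .m (d.La z') ↔ RS 1 A9 z z' :=
  ((and_iff_right hz).trans ((and_iff_right hz').trans
    (RN_iff_RS (TK_ok h) (by decide) hz hz'))).trans (RS_La_m h)

theorem H3_Kp {d : HD} (h : d.Ok) (hz : d.La z ∈ d.TK.W .p) (hz' : d.La z' ∈ d.TK.W .p) :
    d.TK.atl.R .p (d.La z) .p (d.La z') ↔ RS 1 d.v z z' :=
  ((and_iff_right hz).trans ((and_iff_right hz').trans
    (RN_iff_RS (TK_ok h) (by decide) hz hz'))).trans (RS_La_p h)

theorem H3_sm {d : HD} (h : d.Ok) {o : E6 → E6} (ho : ContDiffAt ℝ ∞ o z ∧ ∃ o' : E6 → E6,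
    ContDiffAt ℝ ∞ o' (o z) ∧ o' (o z) = z ∧ ∀ᶠ y in 𝓝 (o z), o (o' y) = y) :
    ContDiffAt ℝ ∞ (fun y => d.La (o y)) z ∧ ∃ o' : E6 → E6,
      ContDiffAt ℝ ∞ o' (d.La (o z)) ∧ o' (d.La (o z)) = z ∧
        ∀ᶠ y in 𝓝 (d.La (o z)), d.La (o (o' y)) = y := by
  obtain ⟨h1, o', h2, h3, h4⟩ := ho
  refine ⟨d.contDiff_La.contDiffAt.comp z h1, fun y => o' (d.La' y), ?_,
    (congrArg o' (La'_La h _)).trans h3, ?_⟩
  · exact ContDiffAt.comp (g := o') _ (by rwa [La'_La h]) d.contDiff_La'.contDiffAt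
  · rw [← La'_La h (o z)] at h4
    filter_upwards [d.contDiff_La'.continuous.continuousAt.eventually h4] with y hy
    rw [hy, La_La' h]

theorem H3_iff {d : HD} (h : d.Ok) (l l' : Fin 3 ⊕ Fin 3) (hz : z ∈ (glH d).D l)
    (hz' : z' ∈ (glH d).D l') : atlZ.R ((glH d).s l) z ((glH d).s l') z' ↔
      d.TK.atl.R .m ((glH d).o l z) .m ((glH d).o l' z') := by
  have k := (H3_maps h l hz).1
  have k' := (H3_maps h l' hz').1
  rcases l with j | j <;> rcases l' with j' | j' <;> refine Iff.trans ?_ (H3_Km h k k').symm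
  · exact ((and_iff_right hz.1).trans (and_iff_right hz'.1)).trans (SS hz hz')
  · exact (H3_S.trans (and_iff_right hz'.1)).trans (SU hz hz')
  · exact ((H3_S.trans (and_iff_right hz.1)).trans (SU hz' hz)).trans ⟨RS.symm, RS.symm⟩
  · exact (and_congr_right fun _ => ((and_iff_right hz.1).trans (and_iff_right hz'.1)).trans
      (H3_RS (by decide) hz.1 hz'.1)).trans (UU hz hz')

theorem H3_amu {d : HD} {s : K3} (h : d.TK.atl.R .m z s z') : amu (d.TK.io s z') = z (2, 0) :=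
  h.2.2.amu.trans (io_amu (by decide) h.1)

theorem H3_lev {j j' : Fin 3} (h : TN.dom (LL j z (0, 0)) (LL j z (2, 0))) :
    rot^[j'] z (0, 0) ≤ 2 + LL j z (0, 0) + hinf (LL j z (2, 0)) := by
  have b := (hm_bounds zero_le_one (LL j z (2, 0))).1
  have b1 := (le_max_left _ _).trans b
  have b2 := (le_max_right _ _).trans b
  obtain ⟨h1, h2, h3⟩ := h
  have h0 := (h1 rfl).1
  unfold hinf
  generalize hm 1 (LL j z (2, 0)) = t at *
  fin_cases j <;> fin_cases j' <;> simp [LL, sh, rot_two, rot, TN] at * <;> linarith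

theorem glH_ok {d : HD} (h : d.Ok) : (glH d).Ok atlZ d.TK.atl where
  opn := fun
    | .inl j => isOpen_DS j
    | .inr _ => isOpen_DU
  sub := fun
    | .inl _ => fun _ hz => hz.1
    | .inr _ => fun _ hz => hz.1
  maps l z hz := (H3_maps h l hz).1
  sm := fun
    | .inl _, _, hz => H3_sm h (oS_inv hz)
    | .inr _, _, hz => H3_sm h (oU_inv hz)
  iff l l' z hz z' hz' := H3_iff h l l' hz hz'
  clo i s x hx y hy hc := by
    have d0 : 5 / 2 - d.a / 9 < amu (d.TK.io s y) := (io_dom hy).2.1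
    rcases i with i | ⟨j, s₀⟩
    · have c : ∀ j : Fin 3, ContinuousAt (fun w => rot^[j] w (0, 0) - d.a / 9) x := fun j =>
        (((continuous_apply _).comp (contDiff_rot j).continuous).sub continuous_const).continuousAt
      have : ∃ j : Fin 3, 5 / 2 < rot^[j] x (0, 0) := by
        by_contra k
        push Not at k
        have ev : ∀ᶠ p : E6 × E6 in 𝓝 (x, y), ∀ j : Fin 3,
            rot^[j] p.1 (0, 0) - d.a / 9 < amu (d.TK.io s p.2) := Filter.eventually_all.2 fun j =>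
          (H3_fst (c j)).eventually_lt (H3_snd (H3_cio hy).2) (by have := k j; simp only; linarith)
        obtain ⟨p, ⟨l, w, hw, h1, h2⟩, h3⟩ :=
          ((mem_closure_iff_frequently.1 hc).and_eventually ev).exists
        obtain ⟨j, hj⟩ : ∃ j, p.1 ∈ DS j := by
          rcases l with j | j
          · have b := H3_base ((RS_rot j).2 h1.2.2)
            exact ⟨j, h1.1, b.1 ▸ hw.2.1, b.2 ▸ hw.2.2.1, b.1 ▸ b.2 ▸ hw.2.2.2⟩
          · obtain ⟨-, s', h4, h5⟩ := H3_S.1 h1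
            exact DS_of_DU h4 hw h5
        have e := H3_amu ((TK_ok h).pre.trans ((H3_iff h (.inl j) l hj hw).1 h1) h2)
        exact (h3 j).ne' e
      obtain ⟨j, hj⟩ := DS_of_level hx this
      exact ⟨.inl j, x, hj, hx, hx, RS.refl _⟩
    · have c : ContinuousAt (fun w => 2 + (TN.io s₀ w).1 0 + hinf (amu (TN.io s₀ w)) - d.a / 9) x :=
        ((continuousAt_const.add (H3_cio hx).1).add
          (contDiff_hinf.continuous.continuousAt.comp (H3_cio hx).2)).sub continuousAt_const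
      have e := H3_le hc (H3_snd (H3_cio hy).2) (H3_fst c) fun p hp => by
        obtain ⟨l, w, hw, h1, h2⟩ := hp
        rw [H3_amu h2]
        rcases l with j' | j'
        · obtain ⟨-, s', h4, h5⟩ := H3_S.1 h1
          rw [H3_RN h5, h5.amu, H3_io0 h4.2.1, io_amu h4.2.1 h4.2.2.1]
          exact sub_le_sub_right (H3_lev (H3_dom h4.2.1 h4.2.2.1)) _
        · have h5 := h1.2.2.2
          rw [← H3_RN h5, ← h5.amu, io_amu (by decide) hw.1]
          exact le_rfl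
      have dx := io_dom (D := TN) hx
      have b := (hm_bounds zero_le_one (amu (TN.io s₀ x))).2
      have b1 : max (amu (TN.io s₀ x)) 0 < 1 / 8 := max_lt dx.2.2 (by norm_num)
      have l : 1 / 2 < (TN.io s₀ x).1 0 + hinf (amu (TN.io s₀ x)) := by
        simp only at e
        linarith
      have g := gg_right (p := (TN.io s₀ x).1 0) (by unfold hinf at l; linarith) (dx.1 rfl).2.le
        ((TN.io s₀ x).1 1)
      have g' := io_mul (D := TN) hx
      obtain ⟨t, h1, h2⟩ := K4_exm (D := TN) g' dx fun k =>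
        ee_ne_zero _ (by rw [← g, ← g', k, mul_zero])
      exact ⟨.inr j, _, ⟨h1, l⟩, rfl, hx, h1, h2.symm ▸ TD.RN.refl _⟩

theorem atlH_pre {d : HD} (h : d.Ok) : (atlH d).Pre := (glH_ok h).pre atlZ_pre (TK_ok h).pre

theorem GD.contDiff_Φ (G : GD) : ContDiff ℝ ∞ G.Φ := contDiff_iff_contDiffAt.2 fun z =>
  K4_mk (by fun_prop) (by fun_prop) (by fun_prop) (by fun_prop) (by fun_prop) (by fun_prop)

theorem GD.contDiff_Φ' (G : GD) : ContDiff ℝ ∞ G.Φ' := contDiff_iff_contDiffAt.2 fun z =>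
  K4_mk (by fun_prop) (by fun_prop) (by fun_prop) (by fun_prop) (by fun_prop) (by fun_prop)

theorem H3_det {P : Matrix (Fin 2) (Fin 2) ℤ} (h : P.det = -1) :
    (P 0 0 : ℝ) * P 1 1 - P 0 1 * P 1 0 = -1 := by
  rw [Matrix.det_fin_two] at h
  exact_mod_cast h

theorem Φ_Φ' (h : G.Ok) (z : E6) : G.Φ (G.Φ' z) = z := by
  have p := H3_det h.dP
  have q := H3_det h.dQ
  apply ext6 <;> simp only [GD.Φ, GD.Φ', mk00, mk01, mk10, mk11, mk20, mk21]
  · linear_combination (-z (0, 0)) * p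
  · linear_combination (-z (0, 1)) * q
  · linear_combination (-z (1, 0)) * p
  · linear_combination (-z (1, 1)) * q
  · ring
  · ring

theorem Φ'_Φ (h : G.Ok) (z : E6) : G.Φ' (G.Φ z) = z := by
  have p := H3_det h.dP
  have q := H3_det h.dQ
  apply ext6 <;> simp only [GD.Φ, GD.Φ', mk00, mk01, mk10, mk11, mk20, mk21]
  · linear_combination (-z (0, 0)) * p
  · linear_combination (-z (0, 1)) * q
  · linear_combination (-z (1, 0)) * p
  · linear_combination (-z (1, 1)) * q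
  · ring
  · ring

theorem Φ_mem : G.Φ z ∈ WD ↔ z ∈ WD := by
  simp only [WD, Slab, mem_ofPred_eq, GD.Φ, mk20]
  constructor <;> exact fun h => ⟨by linarith [h.2], by linarith [h.1]⟩

theorem H3_hv (h : G.Ok) (i j : Fin 2) : (G.A.v i j : ℝ) =
    -((G.P 0 i * G.B.v 0 0 + G.P 1 i * G.B.v 1 0) * G.Q 0 j +
      (G.P 0 i * G.B.v 0 1 + G.P 1 i * G.B.v 1 1) * G.Q 1 j) := by
  rw [h.hv]
  simp [Matrix.mul_apply, Fin.sum_univ_two]

theorem Φ_hact (h : G.Ok) (m₀ m₁ n₀ n₁ l : ℤ) (z : E6) :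
    G.Φ (hact G.A.v m₀ m₁ n₀ n₁ l z) = hact G.B.v (G.P 0 0 * m₀ + G.P 0 1 * m₁)
      (G.P 1 0 * m₀ + G.P 1 1 * m₁) (G.Q 0 0 * n₀ + G.Q 0 1 * n₁) (G.Q 1 0 * n₀ + G.Q 1 1 * n₁) (-l)
      (G.Φ z) := by
  apply ext6 <;> simp only [GD.Φ, hact, mk00, mk01, mk10, mk11, mk20, mk21, H3_hv h] <;>
    push_cast <;> ring

theorem RS_Φ (h : G.Ok) : RS 1 G.B.v (G.Φ z) (G.Φ z') ↔ RS 1 G.A.v z z' := by
  constructor
  · rintro ⟨f, ⟨m₀, m₁, n₀, n₁, l, rfl⟩, e⟩
    have p := h.dP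
    have q := h.dQ
    rw [Matrix.det_fin_two] at p q
    refine ⟨_, G11_mem (-G.P 1 1 * m₀ + G.P 0 1 * m₁) (G.P 1 0 * m₀ - G.P 0 0 * m₁)
      (-G.Q 1 1 * n₀ + G.Q 0 1 * n₁) (G.Q 1 0 * n₀ - G.Q 0 0 * n₁) (-l), ?_⟩
    rw [← Φ'_Φ h z', ← e, ← Φ'_Φ h (hact _ _ _ _ _ _ z), Φ_hact h]
    congr 2
    · linear_combination (-m₀) * p
    · linear_combination (-m₁) * p
    · linear_combination (-n₀) * q
    · linear_combination (-n₁) * q
    · exact neg_neg l
  · rintro ⟨f, ⟨m₀, m₁, n₀, n₁, l, rfl⟩, rfl⟩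
    exact ⟨_, G11_mem _ _ _ _ _, (Φ_hact h _ _ _ _ _ z).symm⟩

theorem H3_p {d : HD} (h : d.Ok) (hz : z ∈ d.La' ⁻¹' WD) : z ∈ d.TK.W .p :=
  La_La' h z ▸ La_mem_p h hz

theorem H3_kink {d : HD} (h : d.Ok) {i : Unit ⊕ Fin 3 × K3} (hz : z ∈ d.TK.W .p)
    (h0 : 0 < z (2, 0)) : ¬(glH d).S atlZ d.TK.atl i z' .p z := by
  rintro ⟨l, w, hw, -, h2⟩
  have e := H3_amu h2
  rw [io_amu (by decide) hz] at e
  linarith [(H3_maps h l hw).2]

theorem glW_ok (h : G.Ok) : (glW G).Ok (atlH G.A) (atlH G.B) where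
  opn _ := G11_open.preimage G.A.contDiff_La'.continuous
  sub _ _ hz := H3_p h.okA hz
  maps _ _ hz := La_mem_p h.okB (Φ_mem.2 hz)
  sm _ z _ := ⟨(G.B.contDiff_La.comp (G.contDiff_Φ.comp G.A.contDiff_La')).contDiffAt,
    fun y => G.A.La (G.Φ' (G.B.La' y)),
    (G.A.contDiff_La.comp (G.contDiff_Φ'.comp G.B.contDiff_La')).contDiffAt, by
      simp only [glW, La'_La h.okB, Φ'_Φ h, La_La' h.okA], Filter.Eventually.of_forall fun y => by
      simp only [glW, La'_La h.okA, Φ_Φ' h, La_La' h.okB]⟩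
  iff _ _ z hz z' hz' := by
    have a : G.A.La' z ∈ WD := hz
    have a' : G.A.La' z' ∈ WD := hz'
    refine Iff.trans ?_ (H3_Kp h.okB (La_mem_p h.okB ((Φ_mem (G := G)).2 a))
      (La_mem_p h.okB ((Φ_mem (G := G)).2 a'))).symm
    rw [RS_Φ h, ← H3_Kp h.okA (La_mem_p h.okA a) (La_mem_p h.okA a'), La_La' h.okA,
      La_La' h.okA]
    rfl
  clo i j x hx y hy hc := by
    obtain ⟨q, ⟨⟩, w, hw, k1, k2⟩ := (mem_closure_iff_frequently.1 hc).exists
    have w1 : 1 / 16 < w (2, 0) := hw.1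
    have w2 : w (2, 0) < 15 / 16 := hw.2
    rcases i with i | s
    · exact absurd k1 (H3_kink h.okA (H3_p h.okA hw) (by linarith))
    rcases j with j | s'
    · exact absurd k2 (H3_kink h.okB (La_mem_p h.okB (Φ_mem.2 hw))
        (show 0 < 1 - w (2, 0) by linarith))
    have e := H3_eq hc (H3_snd (H3_cio hy).2) (continuousAt_const.sub (H3_fst (H3_cio hx).2))
      (g := fun p => 1 - amu (G.A.TK.io s p.1)) fun p hp => by
        obtain ⟨⟨⟩, v, hv, a1, a2⟩ := hp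
        have b1 := a1.2.2.amu
        have b2 := a2.2.2.amu
        rw [io_amu (by decide) a1.2.1] at b1
        rw [io_amu (by decide) a2.1] at b2
        rw [b2, ← b1]
        rfl
    have dx := io_dom (D := G.A.TK) hx
    have dy : amu (G.B.TK.io s' y) < 15 / 16 := (io_dom (D := G.B.TK) hy).2.2
    have l : 1 / 16 < amu (G.A.TK.io s x) := by
      simp only at e
      linarith
    obtain ⟨t, h1, h2⟩ := K4_exp (D := G.A.TK) (io_mul hx) dx fun k => by
      rw [amu, k, map_zero] at l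
      linarith [normSq_nonneg (G.A.TK.io s x).2.2]
    exact ⟨(), K4_pt (G.A.TK.io s x) t, ⟨l, dx.2.2⟩, hx, h1, h2.symm ▸ TD.RN.refl _⟩

theorem atlW_pre (h : G.Ok) : (atlW G).Pre := (glW_ok h).pre (atlH_pre h.okA) (atlH_pre h.okB)


end Pool.Agent.Work.MP_bf98aa_gt.Cy
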