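import Pool.Agent.Work.MP_bf98aa_gt.Cy.P2
import Pool.Agent.Work.MP_bf98aa_gt.Cy.H3

/-!
The fundamental group.
-/

set_option autoImplicit false

open scoped Manifold ContDiff Topology
open Set Complex

namespace Pool.Agent.Work.MP_bf98aa_gt.Cy

open Pool.Agent.Work.MP_bf98aa_gt.Th

variable {M : Type} [TopologicalSpace M] [ChartedSpace E6 M] [IsManifold 𝓘(ℝ, E6) ∞ M]

variable {G : GD} {qA qB : Ix → E6 → M} {H : Type} [Group H]
  {T : Ix ⊕ Ix → E6 → Ix ⊕ Ix → E6 → H}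

omit [TopologicalSpace M] [ChartedSpace E6 M] [IsManifold 𝓘(ℝ, E6) ∞ M] in
theorem PM_A (hT : Coc (Sum.elim qA qB) G.W T) :
    Coc qA G.A.W fun c x c' y => T (.inl c) x (.inl c') y :=
  ⟨fun _ _ _ _ _ _ => hT.mul _ _ _ _ _ _, fun c c' => hT.lc (.inl c) (.inl c')⟩

omit [TopologicalSpace M] [ChartedSpace E6 M] [IsManifold 𝓘(ℝ, E6) ∞ M] in
theorem PM_B (hT : Coc (Sum.elim qA qB) G.W T) :
    Coc qB G.B.W fun c x c' y => T (.inr c) x (.inr c') y :=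
  ⟨fun _ _ _ _ _ _ => hT.mul _ _ _ _ _ _, fun c c' => hT.lc (.inr c) (.inr c')⟩

theorem PM_D (h : WM G qA qB) (hT : Coc (Sum.elim qA qB) G.W T) {z z' : E6} (hz : z ∈ WD)
    (hz' : z' ∈ WD) : T (.inl (.K .p)) (G.A.La z) (.inr (.K .p)) (G.B.La (G.Φ z)) =
      T (.inl (.K .p)) (G.A.La z') (.inr (.K .p)) (G.B.La (G.Φ z')) := by
  have hc : Convex ℝ WD :=
    (convex_halfSpace_gt (dc (2, 0)).isLinear _).inter (convex_halfSpace_lt (dc (2, 0)).isLinear _)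
  exact hT.joint hc.isPreconnected (i := .inl (.K .p)) (j := .inr (.K .p)) (a := G.A.La)
    (b := fun z => G.B.La (G.Φ z)) G.A.contDiff_La.continuous.continuousOn
    (G.B.contDiff_La.continuous.comp G.contDiff_Φ.continuous).continuousOn
    (fun _ hx => La_mem_p h.ok.okA hx) (fun _ hx => La_mem_p h.ok.okB (Φ_mem.2 hx)) h.gAB hz hz'

theorem PM_mem (K : Matrix (Fin 2) (Fin 2) ℤ) (m₀ m₁ n₀ n₁ l : ℤ) :
    np 0 (1 / 2) ∈ WD ∧ hact K m₀ m₁ n₀ n₁ l (np 0 (1 / 2)) ∈ WD := by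
  norm_num [WD, Slab, hact, np]

/-- Trivial holonomy in the chart `p` of the kink, for a lattice vector of the half. -/
def HolP (d : HD) (T : Ix → E6 → Ix → E6 → H) (m₀ m₁ n₀ n₁ : ℤ) : Prop :=
  Hol (fun x y => T (.K .p) x (.K .p) y) (d.TK.W .p) 1 (d.TK.As .p) (d.u 0 * m₀ + d.u 1 * m₁)
    (d.u' 0 * m₀ + d.u' 1 * m₁) (d.w 0 * n₀ + d.w 1 * n₁) (d.w' 0 * n₀ + d.w' 1 * n₁)

theorem PM_own {d : HD} {q : Ix → E6 → M} {T : Ix → E6 → Ix → E6 → H} (h : HM d q)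
    (hT : Coc q d.W T) : HolP d T 1 0 0 0 ∧ HolP d T 0 0 1 0 := by
  simp only [HolP, mul_one, mul_zero, add_zero]
  exact ⟨(h.tK.hol_mp (P2_K hT) _ _ _ _).1 (P2_round h hT).2,
    (h.tK.hol_mp (P2_K hT) _ _ _ _).1 (P2_holY h hT)⟩

theorem PM_of {d : HD} {q : Ix → E6 → M} {T : Ix → E6 → Ix → E6 → H} (h : HM d q)
    (hT : Coc q d.W T) {z : E6} (hz : z ∈ WD) {m₀ m₁ n₀ n₁ l : ℤ}
    (h1 : T (.K .p) (d.La z) (.K .p) (d.La (hact d.v m₀ m₁ n₀ n₁ l z)) = 1) :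
    HolP d T m₀ m₁ n₀ n₁ := by
  rw [La_hact_p h.ok] at h1
  refine hol_of_pt (P2_K hT) (h.tK.deck (by decide)) (preconn_W h.tK.ok _)
    (h.tK.loop (P2_K hT) (by decide)) (La_mem_p h.ok hz) (l := l) ?_
  simpa only [one_mul] using h1

theorem PM_to {d : HD} {T : Ix → E6 → Ix → E6 → H} (h : d.Ok) {z : E6} (hz : z ∈ WD)
    {m₀ m₁ n₀ n₁ : ℤ} (h1 : HolP d T m₀ m₁ n₀ n₁) (l : ℤ) :
    T (.K .p) (d.La z) (.K .p) (d.La (hact d.v m₀ m₁ n₀ n₁ l z)) = 1 := by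
  rw [La_hact_p h]
  simpa only [one_mul] using h1 _ (La_mem_p h hz) l

theorem PM_iff (h : WM G qA qB) (hT : Coc (Sum.elim qA qB) G.W T) (m₀ m₁ n₀ n₁ : ℤ) :
    HolP G.A (fun c x c' y => T (.inl c) x (.inl c') y) m₀ m₁ n₀ n₁ ↔
      HolP G.B (fun c x c' y => T (.inr c) x (.inr c') y) (G.P 0 0 * m₀ + G.P 0 1 * m₁)
        (G.P 1 0 * m₀ + G.P 1 1 * m₁) (G.Q 0 0 * n₀ + G.Q 0 1 * n₁)
        (G.Q 1 0 * n₀ + G.Q 1 1 * n₁) := by
  obtain ⟨z1, z2⟩ := PM_mem G.A.v m₀ m₁ n₀ n₁ 0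
  have k := PM_D h hT z1 z2
  rw [Φ_hact h.ok] at k
  refine ⟨fun h1 => PM_of h.hB (PM_B hT) ((Φ_mem (G := G)).2 z1) (l := -0) ?_,
    fun h1 => PM_of h.hA (PM_A hT) z1 (l := 0) ?_⟩
  · exact P2_conj hT (by rw [hT.inv (.inl _), k, ← hT.inv]) (PM_to h.ok.okA z1 h1 0)
  · exact P2_conj hT k (PM_to h.ok.okB (Φ_mem.2 z1) h1 (-0))

theorem PM_all {d : HD} {q : Ix → E6 → M} {T : Ix → E6 → Ix → E6 → H} (h : HM d q)
    (hT : Coc q d.W T) {a b a' b' : ℤ} (hb : b = 1 ∨ b = -1) (hb' : b' = 1 ∨ b' = -1)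
    (h1 : HolP d T a b 0 0) (h2 : HolP d T 0 0 a' b') :
    ∃ g : Ix → H, ∀ c c', ∀ x ∈ d.W c, ∀ y ∈ d.W c', q c x = q c' y →
      T c x c' y = (g c)⁻¹ * g c' := by
  obtain ⟨h3, h4⟩ := PM_own h hT
  simp only [HolP, mul_one, mul_zero, add_zero] at h1 h2 h3 h4
  refine P2_half h hT (hol_all (ψ := fun s => q (.K s)) (W := d.TK.W) (i := K3.m)
    (T := fun s x s' y => T (.K s) x (.K s') y)
    (h.tK.deck (s := .m) (by decide)) fun m₀ m₁ n₀ n₁ => (h.tK.hol_mp (P2_K hT) _ _ _ _).2 ?_)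
  refine P2_gen (P2_K hT) (h.tK.deck (s := .p) (by decide)) ?_ ?_ h3 h1 h4 h2 _ _ _ _
  · have := h.ok.du
    rcases hb with rfl | rfl <;>
      linear_combination (d.u 0 * d.u' 1 - d.u 1 * d.u' 0 + 1) * this
  · have := h.ok.dw
    rcases hb' with rfl | rfl <;>
      linear_combination (d.w 0 * d.w' 1 - d.w 1 * d.w' 0 + 1) * this

theorem WM.sc (h : WM G qA qB) : SimplyConnectedSpace M := by
  have z0 := (PM_mem 0 0 0 0 0 0).1
  refine sc_of_coc (q := Sum.elim qA qB) (W := G.W) ?_ ?_ (fun m => ?_) (.inl (.K .p)) ?_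
    fun H _ T hT => ?_
  · rintro (c | c)
    exacts [h.hA.par c, h.hB.par c]
  · rintro (c | c)
    exacts [h.ok.okA.contractible c, h.ok.okB.contractible c]
  · rcases h.cov.ge (mem_univ m) with k | k <;> obtain ⟨c, x, hx, e⟩ := mem_iUnion.1 k
    exacts [⟨.inl c, x, hx, e⟩, ⟨.inr c, x, hx, e⟩]
  · rintro (c | c)
    · exact (h.hA.conn c).lift Sum.inl fun _ _ k => k
    · exact ((h.hB.conn c).lift Sum.inr fun _ _ k => k).tail
        ⟨_, La_mem_p h.ok.okB (Φ_mem.2 z0), _, La_mem_p h.ok.okA z0, (h.gAB _ z0).symm⟩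
  have dP := h.ok.dP
  have dQ := h.ok.dQ
  rw [Matrix.det_fin_two] at dP dQ
  obtain ⟨a1, a2⟩ := PM_own h.hA (PM_A hT)
  obtain ⟨b1, b2⟩ := PM_own h.hB (PM_B hT)
  obtain ⟨gA, hA⟩ := PM_all h.hA (PM_A hT) (a := -G.P 1 1) (a' := -G.Q 1 1) h.ok.p10 h.ok.q10
    ((PM_iff h hT _ _ _ _).2 (by
      convert b1 using 1 <;> first | ring1 | linear_combination -dP))
    ((PM_iff h hT _ _ _ _).2 (by
      convert b2 using 1 <;> first | ring1 | linear_combination -dQ))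
  obtain ⟨gB, hB⟩ := PM_all h.hB (PM_B hT) (a := G.P 0 0) (a' := G.Q 0 0) h.ok.p10 h.ok.q10
    (by simpa only [mul_one, mul_zero, add_zero] using (PM_iff h hT _ _ _ _).1 a1)
    (by simpa only [mul_one, mul_zero, add_zero] using (PM_iff h hT _ _ _ _).1 a2)
  refine ⟨Sum.elim gA fun c => gA (.K .p) * T (.inl (.K .p)) (G.A.La (np 0 (1 / 2))) (.inr (.K .p))
    (G.B.La (G.Φ (np 0 (1 / 2)))) * (gB (.K .p))⁻¹ * gB c, h.ind (fun c c' x _ y _ e => ?_)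
    (fun c c' c'' _ x _ y _ z _ e e' => ?_) hA (fun c c' x hx y hy e => ?_) fun z hz => ?_⟩
  · rw [hT.inv, e, mul_inv_rev, inv_inv]
  · rw [← hT.mul c x c' y, e, e', mul_assoc, mul_inv_cancel_left]
  · rw [hB c c' x hx y hy e]
    simp only [Sum.elim_inr, mul_inv_rev, inv_inv, mul_assoc, mul_inv_cancel_left,
      inv_mul_cancel_left]
  · rw [PM_D h hT hz z0]
    simp only [Sum.elim_inr, Sum.elim_inl, mul_assoc, inv_mul_cancel, mul_one, inv_mul_cancel_left]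

end Pool.Agent.Work.MP_bf98aa_gt.Cy
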