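import Pool.Agent.Work.MP_bf98aa_gt.Cy.H7
import Pool.Agent.Work.MP_bf98aa_gt.Cy.G10

/-!
The canonical bundle is trivial.

PLAN. `su3` with the regular charts indexed by `{c : Ix ⊕ Ix // Reg}` and the singular charts by `Option (Fin 3) ⊕ Option (Fin 3)` (`some j`: the node `j`, `none`: the kink), `S = TD.SF`.
`hinv`: `TM.deck_f`, `SF_inv`; `htame`: `HM.reg_or`, `SF_tame`, `γK_11`; `hpos`: a critical point `u = w = 0` is not the image of a regular point (if it were, `cIN`, `cNN`, `cIK`, `cNK`, `cAB` would give a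
related point of a chart `m` or `p` of the same kink, against `ww_ne`, `uu_ne`), then `TM.pos`; `huniq`: by `cNN`, `cNK`, `cAB` the common point is the image of a point of a chart `m` or `p`.
-/

set_option autoImplicit false

open scoped Manifold ContDiff Topology
open Set Complex

namespace Pool.Agent.Work.MP_bf98aa_gt.Cy

open Pool.Agent.Work.MP_bf98aa_gt.Th

variable {M : Type} [TopologicalSpace M] [ChartedSpace E6 M] [IsManifold 𝓘(ℝ, E6) ∞ M]

/-- The kink data of a singular chart of a half. -/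
noncomputable def W1_D (d : HD) : Option (Fin 3) → TD
  | some _ => TN
  | none => d.TK

/-- The charts of a kink of a half. -/
def W1_c : Option (Fin 3) → K3 → Ix
  | some j, s => .N j s
  | none, s => .K s

/-- The charts of a kink of the manifold. -/
def W1_C (i : Option (Fin 3) ⊕ Option (Fin 3)) (s : K3) : Ix ⊕ Ix :=
  Sum.map (fun o => W1_c o s) (fun o => W1_c o s) i

/-- The kink data of a singular chart of the manifold. -/
noncomputable def W1_T (G : GD) : Option (Fin 3) ⊕ Option (Fin 3) → TD :=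
  Sum.elim (W1_D G.A) (W1_D G.B)

theorem W1_W (G : GD) (i : Option (Fin 3) ⊕ Option (Fin 3)) (s : K3) :
    G.W (W1_C i s) = (W1_T G i).W s := by
  rcases i with (_ | j) | (_ | j) <;> rfl

theorem W1_reg (i : Option (Fin 3) ⊕ Option (Fin 3)) (s : K3) :
    Sum.elim Ix.Reg Ix.Reg (W1_C i s) ↔ s ≠ .f := by
  rcases i with (_ | j) | (_ | j) <;> rfl

theorem W1_inj {i j : Option (Fin 3) ⊕ Option (Fin 3)} (h : W1_C i .f = W1_C j .f) : i = j := by
  rcases i with (_ | i) | (_ | i) <;> rcases j with (_ | j) | (_ | j) <;>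
    simp_all [W1_C, W1_c]

theorem W1_ne (o : Option (Fin 3)) : Ix.K .p ≠ W1_c o .f := by
  rcases o with _ | j <;> simp [W1_c]

omit [IsManifold 𝓘(ℝ, E6) ∞ M] in
theorem W1_half {d : HD} {q : Ix → E6 → M} (h : HM d q) (o : Option (Fin 3)) {x : E6}
    (hx : x ∈ (W1_D d o).W .f) {c : Ix} (hc : c ≠ W1_c o .f) {z : E6} (hz : z ∈ d.W c)
    (e : q c z = q (W1_c o .f) x) :
    ∃ s, s ≠ .f ∧ ∃ y ∈ (W1_D d o).W s, q (W1_c o s) y = q (W1_c o .f) x := by
  have ha := h.ok.ha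
  rcases o with _ | j <;> rcases c with _ | ⟨j', s⟩ | s
  · obtain ⟨j, hj⟩ := h.cIK .f z hz x hx e
    have hm := oS_mem h.ok hj
    exact ⟨.m, nofun, _, La_mem_m ⟨hm.1, by linarith [hm.2]⟩, (h.gIK j z hj).symm.trans e⟩
  · obtain ⟨y, hy, e'⟩ := h.cNK j' s .f z hz x hx e
    have hm := oU_mem (j := j') h.ok hy
    exact ⟨.m, nofun, _, La_mem_m ⟨hm.1, by linarith [hm.2]⟩,
      (h.gNK j' y hy).symm.trans (e'.symm.trans e)⟩
  · exact ⟨s, fun hs => hc (congrArg Ix.K hs), z, hz, e⟩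
  · obtain ⟨s, hs⟩ := h.cIN j .f z hz x hx e
    exact ⟨s, hs.2.1, _, hs.2.2.1, (h.gIN j s z hs).symm.trans e⟩
  · obtain rfl := h.cNN j' s j .f z hz x hx e
    exact ⟨s, fun hs => hc (congrArg (Ix.N j') hs), z, hz, e⟩
  · obtain ⟨y, hy, e'⟩ := h.cNK j .f s x hx z hz e.symm
    exact ⟨.m, nofun, y, hy.1, e'.symm⟩

variable [T2Space M] [CompactSpace M] {G : GD} {qA qB : Ix → E6 → M}

omit [IsManifold 𝓘(ℝ, E6) ∞ M] [T2Space M] [CompactSpace M] in
theorem W1_tm (h : WM G qA qB) (i : Option (Fin 3) ⊕ Option (Fin 3)) :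
    TM (W1_T G i) fun s => Sum.elim qA qB (W1_C i s) := by
  rcases i with (_ | j) | (_ | j)
  exacts [h.hA.tK, h.hA.tN j, h.hB.tK, h.hB.tN j]

omit [IsManifold 𝓘(ℝ, E6) ∞ M] [T2Space M] [CompactSpace M] in
theorem W1_key (h : WM G qA qB) (i : Option (Fin 3) ⊕ Option (Fin 3)) {x : E6}
    (hx : x ∈ (W1_T G i).W .f) {c : Ix ⊕ Ix} (hc : c ≠ W1_C i .f) {z : E6} (hz : z ∈ G.W c)
    (e : Sum.elim qA qB c z = Sum.elim qA qB (W1_C i .f) x) :
    ∃ s, s ≠ .f ∧ ∃ y ∈ (W1_T G i).W s,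
      Sum.elim qA qB (W1_C i s) y = Sum.elim qA qB (W1_C i .f) x := by
  have hx' : x ∈ G.W (W1_C i .f) := by rwa [W1_W]
  rcases i with o | o <;> rcases c with c | c
  · exact W1_half h.hA o hx (fun e => hc (congrArg Sum.inl e)) hz e
  · obtain ⟨y, hy, e'⟩ := h.cAB _ c x hx' z hz e.symm
    exact W1_half h.hA o hx (W1_ne o) (La_mem_p h.ok.okA hy) e'.symm
  · obtain ⟨y, hy, e'⟩ := h.cAB c _ z hz x hx' e
    have hy' : G.Φ y ∈ WD := by
      obtain ⟨h1, h2⟩ := hy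
      constructor
      · show 1 / 16 < 1 - y (2, 0)
        linarith
      · show 1 - y (2, 0) < 15 / 16
        linarith
    exact W1_half h.hB o hx (W1_ne o) (La_mem_p h.ok.okB hy')
      ((h.gAB y hy).symm.trans (e'.symm.trans e))
  · exact W1_half h.hB o hx (fun e => hc (congrArg Sum.inr e)) hz e

theorem WM.cy (h : WM G qA qB) {η : Fo M 2} (hη : ClO η univ)
    (hA : ∀ c, ∀ z ∈ G.A.W c, pl (qA c) η z = G.A.om c z)
    (hB : ∀ c, ∀ z ∈ G.B.W c, pl (qB c) η z = G.B.om c z) : CalabiYau (E := E6) (M := M) η := by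
  have hN : ∀ d : HD, d.Ok → 0 < d.γN 1 1 := fun d hd => hd.hβ
  refine su3 (ι := {c : Ix ⊕ Ix // Sum.elim Ix.Reg Ix.Reg c})
    (ι' := Option (Fin 3) ⊕ Option (Fin 3)) (fun ψ U hP hm => (hη ψ U hP hm).1)
    (q := fun c => Sum.elim qA qB c.1) (W := fun c => G.W c.1)
    (χ := fun i => Sum.elim qA qB (W1_C i .f)) (N := fun i => (W1_T G i).W .f)
    (S := fun i => (W1_T G i).SF) ?_ (fun i => (W1_tm h i).par .f) ?_ ?_
    (fun i j x hx y hy e => h.vcmp i.1 j.1 x hx y hy e i.2 j.2) (fun i => SF_cont _) ?_ ?_ ?_ ?_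
  · rintro ⟨c | c, hc⟩
    exacts [h.hA.par c, h.hB.par c]
  · rintro ⟨c | c, hc⟩ x hx u hu
    · exact om_nondeg h.ok.okA hc hx u fun v => by rw [← hA c x hx]; exact hu v
    · exact om_nondeg h.ok.okB hc hx u fun v => by rw [← hB c x hx]; exact hu v
  · rintro ⟨c | c, hc⟩ x hx u v hu hv
    · exact (congrArg (fun a => a ![u, v]) (hA c x hx)).trans (om_vertical h.ok.okA hc hx hu hv)
    · exact (congrArg (fun a => a ![u, v]) (hB c x hx)).trans (om_vertical h.ok.okB hc hx hu hv)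
  · intro i x hx y hy e
    have hD := (W1_tm h i).deck_f
    obtain ⟨f, hf, rfl⟩ := hD.trans x hx y hy e
    refine ⟨f, ⟨(hD.sm f hf).contDiffAt,
      Filter.mem_of_superset (hD.par.opn.mem_nhds hx) fun z hz => hD.eq f hf z hz⟩, rfl, ?_⟩
    obtain ⟨m, n, rfl⟩ := hf
    exact SF_inv hx m n
  · intro i j hij x hx y hy e
    obtain ⟨s, hs, z, hz, e'⟩ := W1_key h i hx (fun e => hij (W1_inj e).symm)
      (by rwa [W1_W]) e.symm
    exact ⟨⟨_, (W1_reg i s).2 hs⟩, z, by rwa [W1_W], e'⟩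
  · intro m
    rcases (h.cov.symm ▸ mem_univ m : m ∈ HH G.A qA ∪ HH G.B qB) with hm | hm
    · rcases h.hA.reg_or hm with ⟨c, hc, z, hz, e⟩ | ⟨j, z, hz, hu, hw, e⟩ | ⟨z, hz, hu, hw, e⟩
      · exact .inl ⟨⟨.inl c, hc⟩, z, hz, e⟩
      · refine .inr ⟨.inl (some j), z, hz, e, ?_⟩
        exact hA (.N j .f) z hz ▸ SF_tame hz hu hw (hN _ h.ok.okA)
      · refine .inr ⟨.inl none, z, hz, e, ?_⟩
        exact hA (.K .f) z hz ▸ SF_tame hz hu hw (γK_11 h.ok.okA).2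
    · rcases h.hB.reg_or hm with ⟨c, hc, z, hz, e⟩ | ⟨j, z, hz, hu, hw, e⟩ | ⟨z, hz, hu, hw, e⟩
      · exact .inl ⟨⟨.inr c, hc⟩, z, hz, e⟩
      · refine .inr ⟨.inr (some j), z, hz, e, ?_⟩
        exact hB (.N j .f) z hz ▸ SF_tame hz hu hw (hN _ h.ok.okB)
      · refine .inr ⟨.inr none, z, hz, e, ?_⟩
        exact hB (.K .f) z hz ▸ SF_tame hz hu hw (γK_11 h.ok.okB).2
  · rintro i x hx ⟨l, z, hz, e⟩
    obtain ⟨s, hs, y, hy, e'⟩ := W1_key h i hx
      (fun e => (W1_reg i .f).1 (e ▸ l.2) rfl) hz e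
    have hR := ((W1_tm h i).eq s .f y hy x hx).1 e'
    have h0 : uu x ≠ 0 ∨ ww x ≠ 0 := by
      rcases s with _ | _ | _
      exacts [.inr (ww_ne hy hR), .inl (uu_ne hy hR), absurd rfl hs]
    obtain ⟨s', hs', y', hy', H⟩ := (W1_tm h i).pos hx h0
    exact ⟨⟨_, (W1_reg i s').2 hs'⟩, y', by rwa [W1_W], H⟩


end Pool.Agent.Work.MP_bf98aa_gt.Cy
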