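import Pool.Agent.Work.MP_bf98aa_gt.Cy.H7

/-!
The sphere of area one and the large domain.

PLAN. `sphere`: let `(y₀, y₁)` be the point of `pt`, `yA = w'·y`, `yB = w'·(Q y)`. Put `f ζ = qA (K f) (cplx ζ 0 0 yA)` for `|ζ|² < 1/2` and `f ζ = qB (K f) (cplx (c |ζ|² * conj ζ) 0 0 yB)` otherwise, with
`c t = χ t * √((1 - t) / t)`, `χ = 1` on `t ≤ 3/4`, `χ = 0` on `t ≥ 7/8`. The two formulas agree for `1/4 < |ζ|² < 3/4` (`io_f_u`, `gAB` at `mk 0 y₀ 0 y₁ ρ² t`). The integrand is the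
Jacobian of the plane map times `1 / π` (`om_f_axis`): `1 / π` inside, `-n' |ζ|² / π` outside, `n t = c t ^ 2 * t`; `Complex.integral_comp_polarCoord_symm`.
`big`: the box `|ξ| < 1/4`, angles in `(0,1)`, `0 < β x < β` in the chart `I` composed with `x ↦ x / β` (`eI`, `RS00_iff`, `Real.volume_pi_Ioo`).
-/

set_option autoImplicit false

open scoped Manifold ContDiff Topology
open Set Complex

namespace Pool.Agent.Work.MP_bf98aa_gt.Cy

open Pool.Agent.Work.MP_bf98aa_gt.Th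

variable {M : Type} [TopologicalSpace M] [ChartedSpace E6 M] [IsManifold 𝓘(ℝ, E6) ∞ M]

variable {d : HD} {q : Ix → E6 → M} {G : GD} {qA qB : Ix → E6 → M}

/-- The cut-off function. -/
noncomputable def W2_χ (t : ℝ) : ℝ := Real.smoothTransition (7 - 8 * t)

/-- The radial factor. -/
noncomputable def W2_c (t : ℝ) : ℝ := W2_χ t * √((1 - t) / t)

/-- The radial profile. -/
noncomputable def W2_N (t : ℝ) : ℝ := W2_χ t ^ 2 * (1 - t)

/-- The plane map of the second half. -/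
noncomputable def W2_g (ζ : ℂ) : ℂ := W2_c (normSq ζ) * (starRingEnd ℂ) ζ

theorem W2_χ_one {t : ℝ} (h : t ≤ 3 / 4) : W2_χ t = 1 :=
  Real.smoothTransition.one_of_one_le (by linarith)

theorem W2_χ_zero {t : ℝ} (h : 7 / 8 ≤ t) : W2_χ t = 0 :=
  Real.smoothTransition.zero_of_nonpos (by linarith)

theorem W2_χ_sm : ContDiff ℝ ∞ W2_χ :=
  Real.smoothTransition.contDiff.comp (contDiff_const.sub (contDiff_const.mul contDiff_id))

theorem W2_N_sm : ContDiff ℝ ∞ W2_N := (W2_χ_sm.pow 2).mul (contDiff_const.sub contDiff_id)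

theorem W2_c_sm {t : ℝ} (h : 0 < t) : ContDiffAt ℝ ∞ W2_c t := by
  rcases lt_or_ge t 1 with h1 | h1
  · exact W2_χ_sm.contDiffAt.mul (((contDiffAt_const.sub contDiffAt_id).div contDiffAt_id
      h.ne').sqrt (div_pos (sub_pos.2 h1) h).ne')
  · refine (contDiffAt_const (c := 0)).congr_of_eventuallyEq ?_
    filter_upwards [Ioi_mem_nhds (show 7 / 8 < t by linarith)] with x hx
    rw [W2_c, W2_χ_zero (le_of_lt hx), zero_mul]

theorem W2_cN {t : ℝ} (h : 0 < t) : W2_c t ^ 2 * t = W2_N t := by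
  rcases le_total t 1 with h1 | h1
  · rw [W2_c, W2_N, mul_pow, Real.sq_sqrt (div_nonneg (sub_nonneg.2 h1) h.le), mul_assoc,
      div_mul_cancel₀ _ h.ne']
  · rw [W2_c, W2_N, W2_χ_zero (by linarith)]
    ring

theorem W2_g_norm {ζ : ℂ} (h : 0 < normSq ζ) : normSq (W2_g ζ) = W2_N (normSq ζ) := by
  rw [W2_g, map_mul, normSq_ofReal, normSq_conj, ← sq, W2_cN h]

theorem W2_N_lt {t : ℝ} (h : 1 / 16 < t) : W2_N t < 15 / 16 := by
  have h1 : W2_χ t ^ 2 ≤ 1 := pow_le_one₀ (Real.smoothTransition.nonneg _)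
    (Real.smoothTransition.le_one _)
  rcases le_total t 1 with h2 | h2
  · exact (mul_le_of_le_one_left (sub_nonneg.2 h2) h1).trans_lt (by linarith)
  · exact (mul_nonpos_of_nonneg_of_nonpos (sq_nonneg _) (sub_nonpos.2 h2)).trans_lt (by norm_num)

theorem W2_nsq : ContDiff ℝ ∞ (normSq : ℂ → ℝ) :=
  (reCLM.contDiff.mul reCLM.contDiff).add (imCLM.contDiff.mul imCLM.contDiff)

theorem W2_g_sm {ζ : ℂ} (h : 0 < normSq ζ) : ContDiffAt ℝ ∞ W2_g ζ :=
  (ofRealCLM.contDiff.contDiffAt.comp ζ ((W2_c_sm h).comp ζ W2_nsq.contDiffAt)).mul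
    conjCLE.contDiff.contDiffAt

theorem W2_jac {ζ : ℂ} (h : 0 < normSq ζ) : (fderiv ℝ W2_g ζ 1).re * (fderiv ℝ W2_g ζ I).im -
    (fderiv ℝ W2_g ζ 1).im * (fderiv ℝ W2_g ζ I).re = -deriv W2_N (normSq ζ) := by
  have h1 := ((W2_c_sm h).differentiableAt (by simp)).hasDerivAt
  have h2 : HasFDerivAt (normSq : ℂ → ℝ) _ ζ :=
    (reCLM.hasFDerivAt.mul reCLM.hasFDerivAt).add (imCLM.hasFDerivAt.mul imCLM.hasFDerivAt)
  have h3 : HasFDerivAt W2_g _ ζ :=
    (ofRealCLM.hasFDerivAt.comp ζ (h1.comp_hasFDerivAt ζ h2)).mul conjCLE.hasFDerivAt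
  have h4 : HasDerivAt W2_N _ (normSq ζ) :=
    ((h1.pow 2).mul (hasDerivAt_id _)).congr_of_eventuallyEq
      (Filter.mem_of_superset (Ioi_mem_nhds h) fun t ht => (W2_cN ht).symm)
  rw [h3.fderiv, h4.deriv]
  generalize deriv W2_c (normSq ζ) = c'
  simp [normSq_apply]
  ring

theorem W2_int : ∫ ζ : ℂ, -deriv W2_N (normSq ζ) / Real.pi = 1 := by
  have h1 := MeasureTheory.integral_fun_norm_addHaar (MeasureTheory.volume : MeasureTheory.Measure ℂ)
    fun y => -deriv W2_N (y ^ 2) / Real.pi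
  have h2 : HasCompactSupport fun y : ℝ => W2_N (y ^ 2) :=
    HasCompactSupport.intro (isCompact_Icc (a := -1) (b := 1)) fun y hy => by
      have h3 : 1 < |y| := not_le.1 fun h => hy (abs_le.1 h)
      rw [W2_N, W2_χ_zero (by nlinarith [sq_abs y]), zero_pow two_ne_zero, zero_mul]
  have h6 : ContDiff ℝ 1 fun y : ℝ => W2_N (y ^ 2) :=
    (W2_N_sm.of_le (by simp)).comp (contDiff_id.pow 2)
  have h3 := h2.integral_Ioi_deriv_eq h6 0
  have h4 : ∀ y : ℝ, y ^ (2 - 1) • (-deriv W2_N (y ^ 2) / Real.pi) =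
      -(2 * Real.pi)⁻¹ * deriv (fun y : ℝ => W2_N (y ^ 2)) y := fun y => by
    have h5 : HasDerivAt (fun y : ℝ => W2_N (y ^ 2)) _ y := HasDerivAt.comp (h := fun y => y ^ 2) y
      (W2_N_sm.differentiable (by simp) _).hasDerivAt (hasDerivAt_pow 2 y)
    rw [h5.deriv, smul_eq_mul]
    push_cast
    ring
  simp only [normSq_eq_norm_sq]
  rw [h1, finrank_real_complex]
  simp only [h4]
  rw [MeasureTheory.integral_const_mul, h3, MeasureTheory.measureReal_def, Complex.volume_ball, W2_N,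
    W2_χ_one (by norm_num)]
  simp

theorem W2_mem (h : d.Ok) {u : ℂ} (hu : normSq u < 15 / 16) (y : ℝ) : cplx u 0 0 y ∈ d.TK.W .f := by
  have h1 := h.ha
  have h2 := normSq_nonneg u
  refine ⟨?_, ?_, ?_⟩
  · change normSq (u * 0) < _
    simp
  · change 5 / 2 - d.a / 9 < normSq u - normSq 0
    rw [map_zero]
    linarith
  · change normSq u - normSq 0 < 15 / 16
    rwa [map_zero, sub_zero]

theorem W2_pl (h : HM d q) {η : Fo M 2} (hη : ∀ c, ∀ z ∈ d.W c, pl (q c) η z = d.om c z)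
    {g : ℂ → ℂ} {ζ : ℂ} (hg : ContDiffAt ℝ ∞ g ζ) (hm : normSq (g ζ) < 15 / 16) (y : ℝ) :
    SmAt (fun x => q (.K .f) (cplx (g x) 0 0 y)) ζ ∧
      pl (fun x => q (.K .f) (cplx (g x) 0 0 y)) η ζ ![1, I] = ((fderiv ℝ g ζ 1).re *
        (fderiv ℝ g ζ I).im - (fderiv ℝ g ζ 1).im * (fderiv ℝ g ζ I).re) / Real.pi := by
  let L : ℂ →L[ℝ] E6 := reCLM.smulRight (bv (0, 0)) + imCLM.smulRight (bv (0, 1))
  have e : (fun x => cplx (g x) 0 0 y) = fun x => L (g x) + mk 0 0 0 y 0 0 := by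
    funext x
    apply ext6 <;> simp [L, cplx, bv]
  have h1 : ContDiffAt ℝ ∞ (fun x => cplx (g x) 0 0 y) ζ := by
    rw [e]
    exact (L.contDiff.contDiffAt.comp ζ hg).add contDiffAt_const
  have h2 : HasFDerivAt (fun x => cplx (g x) 0 0 y) (L.comp (fderiv ℝ g ζ)) ζ := by
    rw [e]
    exact (L.hasFDerivAt.comp ζ (hg.differentiableAt (by simp)).hasFDerivAt).add_const _
  have h3 := W2_mem h.ok hm y
  have h4 := (h.par (.K .f)).sm _ h3
  refine ⟨SmAt.comp (f := fun x => cplx (g x) 0 0 y) h4 h1, ?_⟩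
  obtain ⟨B, hB⟩ := exists_bilin (d.TK.om d.γK .f (cplx (g ζ) 0 0 y))
  have a1 : B (bv (0, 0)) (bv (0, 1)) = 1 / Real.pi := (hB _ _).symm.trans (om_f_axis h3 rfl)
  have a2 : B (bv (0, 1)) (bv (0, 0)) = -(1 / Real.pi) := by rw [← hB, alt2_swap, hB, a1]
  have a3 : ∀ v, B v v = 0 := fun v => by
    have := alt2_swap (d.TK.om d.γK .f (cplx (g ζ) 0 0 y)) v v
    rw [hB] at this
    linarith
  rw [pl_comp (f := fun x => cplx (g x) 0 0 y) h4 h1, pb, h2.fderiv, hη (.K .f) _ h3,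
    ContinuousAlternatingMap.compContinuousLinearMap_apply,
    show (L.comp (fderiv ℝ g ζ)) ∘ ![1, I] = ![L (fderiv ℝ g ζ 1), L (fderiv ℝ g ζ I)] from
      funext fun i => by fin_cases i <;> rfl]
  refine (hB _ _).trans ?_
  simp only [L, add_apply, ContinuousLinearMap.smulRight_apply, map_add, map_smul, smul_apply,
    smul_eq_mul, a1, a2, a3, reCLM_apply, imCLM_apply]
  ring

omit [IsManifold 𝓘(ℝ, E6) ∞ M] in
theorem W2_one (h : HM d q) {ρ t y : ℝ} (hρ : 0 < ρ) {z : E6} (hz : z ∈ WD)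
    (e : d.La z = mk 0 (1 / 2) 0 y (ρ ^ 2) t) : q (.K .f) (cplx (ρ * ee t) 0 0 y) = qD d q z := by
  have h1 := io_f_u (D := d.TK) hρ t 0 y
  have h2 : ρ ^ 2 < 15 / 16 := (congrFun e (2, 0)).symm.trans_lt hz.2
  rw [mul_zero, zero_div, add_zero, ← e] at h1
  refine (h.tK.eq .f .p _ (W2_mem h.ok ?_ y) _ (La_mem_p h.ok hz)).2 (h1 ▸ TD.RN.refl _)
  rwa [map_mul, normSq_ee, normSq_ofReal, mul_one, ← sq]

omit [IsManifold 𝓘(ℝ, E6) ∞ M] in
theorem W2_agree (h : WM G qA qB) : ∃ yA yB : ℝ, ∀ ζ : ℂ, 1 / 16 < normSq ζ → normSq ζ < 3 / 4 →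
    qA (.K .f) (cplx ζ 0 0 yA) = qB (.K .f) (cplx (W2_g ζ) 0 0 yB) := by
  obtain ⟨y₀, y₁, h1, h2⟩ := h.ok.pt
  refine ⟨G.A.w' 0 * y₀ + G.A.w' 1 * y₁, G.B.w' 0 * (G.Q 0 0 * y₀ + G.Q 0 1 * y₁) +
    G.B.w' 1 * (G.Q 1 0 * y₀ + G.Q 1 1 * y₁), fun ζ a1 a2 => ?_⟩
  obtain ⟨t, ht⟩ := exists_ee ζ
  have a3 : 0 < ‖ζ‖ := norm_pos_iff.2 (normSq_pos.1 (by linarith))
  have a4 : (W2_c (normSq ζ) * ‖ζ‖) ^ 2 = 1 - ‖ζ‖ ^ 2 := by
    rw [mul_pow, ← normSq_eq_norm_sq, W2_cN (by linarith), W2_N, W2_χ_one a2.le, one_pow, one_mul]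
  have a5 : 0 < W2_c (normSq ζ) * ‖ζ‖ := by
    refine mul_pos ?_ a3
    rw [W2_c, W2_χ_one a2.le, one_mul]
    exact Real.sqrt_pos.2 (div_pos (by linarith) (by linarith))
  have a6 : (starRingEnd ℂ) (ee t) = ee (-t) := by
    apply Complex.ext <;> simp [ee_re, ee_im]
  have a7 : W2_g ζ = (W2_c (normSq ζ) * ‖ζ‖ : ℝ) * ee (-t) := by
    rw [W2_g, congrArg (starRingEnd ℂ) ht, map_mul, a6, conj_ofReal, ofReal_mul, mul_assoc]
  rw [normSq_eq_norm_sq] at a1 a2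
  have hz : mk 0 y₀ 0 y₁ (‖ζ‖ ^ 2) t ∈ WD := ⟨a1, a2.trans (by norm_num)⟩
  have hz' : G.Φ (mk 0 y₀ 0 y₁ (‖ζ‖ ^ 2) t) ∈ WD := by
    constructor <;> simp only [GD.Φ, mk20] <;> linarith
  rw [a7, W2_one h.hB a5 hz' ?_, ← h.gAB _ hz, ← W2_one h.hA a3 hz ?_, ← ht]
  · exact ext6 (by simp [HD.La]) h1 (by simp [HD.La]) rfl rfl rfl
  · exact ext6 (by simp [HD.La, GD.Φ]) h2 (by simp [HD.La, GD.Φ]) rfl a4.symm rfl

theorem W2_int0 {x y : ℝ} {n : ℤ} (hx : x ∈ Ioo (0 : ℝ) 1) (hy : y ∈ Ioo (0 : ℝ) 1)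
    (h : y = x + n) : x = y := by
  have a1 : (-1 : ℝ) < n := by linarith [hx.2, hy.1]
  have a2 : (n : ℝ) < 1 := by linarith [hx.1, hy.2]
  have a3 : -1 < n := by exact_mod_cast a1
  have a4 : n < 1 := by exact_mod_cast a2
  rw [h, show n = 0 by omega, Int.cast_zero, add_zero]

theorem WM.sphere (h : WM G qA qB) {η : Fo M 2}
    (hA : ∀ c, ∀ z ∈ G.A.W c, pl (qA c) η z = G.A.om c z)
    (hB : ∀ c, ∀ z ∈ G.B.W c, pl (qB c) η z = G.B.om c z) : UnitSphere (E := E6) (M := M) η := by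
  obtain ⟨yA, yB, he⟩ := W2_agree h
  let f : ℂ → M := fun ζ => if normSq ζ < 1 / 2 then qA (.K .f) (cplx ζ 0 0 yA)
    else qB (.K .f) (cplx (W2_g ζ) 0 0 yB)
  have key : ∀ ζ, SmAt f ζ ∧ pl f η ζ ![1, I] = -deriv W2_N (normSq ζ) / Real.pi := fun ζ => by
    rcases lt_or_ge (normSq ζ) (3 / 4) with h1 | h1
    · have h2 : f =ᶠ[𝓝 ζ] fun x => qA (.K .f) (cplx x 0 0 yA) := by
        filter_upwards [(isOpen_lt continuous_normSq continuous_const).mem_nhds h1] with x hx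
        by_cases h3 : normSq x < 1 / 2
        · exact if_pos h3
        · exact (if_neg h3).trans (he x (by linarith) hx).symm
      obtain ⟨h3, h4⟩ := W2_pl h.hA hA (g := fun x => x) contDiffAt_id (h1.trans (by norm_num)) yA
      have h5 : HasDerivAt W2_N (-1) (normSq ζ) :=
        ((hasDerivAt_id _).const_sub 1).congr_of_eventuallyEq
          (Filter.mem_of_superset (Iio_mem_nhds h1) fun t ht => by
            change W2_N t = 1 - t
            rw [W2_N, W2_χ_one (le_of_lt ht), one_pow, one_mul])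
      refine ⟨h3.congr h2, ?_⟩
      rw [pl_congr h2, h4, h5.deriv]
      simp
    · have h0 : 0 < normSq ζ := by linarith
      have h2 : f =ᶠ[𝓝 ζ] fun x => qB (.K .f) (cplx (W2_g x) 0 0 yB) := by
        filter_upwards [(isOpen_lt continuous_const continuous_normSq).mem_nhds
          (show 1 / 2 < normSq ζ by linarith)] with x hx
        exact if_neg (not_lt.2 (le_of_lt hx))
      obtain ⟨h3, h4⟩ := W2_pl h.hB hB (W2_g_sm h0)
        ((W2_g_norm h0).trans_lt (W2_N_lt (by linarith))) yB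
      exact ⟨h3.congr h2, by rw [pl_congr h2, h4, W2_jac h0]⟩
  refine ⟨f, fun ζ => (key ζ).1, ⟨qB (.K .f) (cplx 0 0 0 yB), 1, fun ζ h1 => ?_⟩,
    (congrArg _ (funext fun ζ => (key ζ).2)).trans W2_int⟩
  have h2 : 1 ≤ normSq ζ := by
    rw [normSq_eq_norm_sq]
    exact one_le_pow₀ h1
  refine (if_neg (by linarith)).trans ?_
  rw [W2_g, W2_c, W2_χ_zero (by linarith), zero_mul, ofReal_zero, zero_mul]

theorem HM.big (h : HM d q) {η : Fo M 2} (hA : ∀ z ∈ WI, pl (q .I) η z = d.om .I z) {N : ℝ}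
    (hN : N ≤ d.β / 4) : BigDomain (n := 3) (M := M) η N := by
  have hβ := h.ok.hβ
  let S : E6 →L[ℝ] E6 := ContinuousLinearMap.pi fun i => Cy.mk 1 1 d.β⁻¹ 1 1 1 i • dc i
  have hS : ∀ y, S y = Cy.mk (y (0, 0)) (y (0, 1)) (d.β⁻¹ * y (1, 0)) (y (1, 1)) (y (2, 0))
      (y (2, 1)) := fun y =>
    ext6 (one_mul _) (one_mul _) rfl (one_mul _) (one_mul _) (one_mul _)
  let W : Set E6 := Set.pi univ fun i =>
    Ioo (Cy.mk (-1 / 4) 0 0 0 (-1 / 4) 0 i) (Cy.mk (1 / 4) 1 d.β 1 (1 / 4) 1 i)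
  have hW : ∀ y ∈ W, S y ∈ WI := fun y hy j => by
    obtain ⟨a1, a2⟩ := hy (0, 0) trivial
    obtain ⟨a3, a4⟩ := hy (2, 0) trivial
    have a5 : rot^[j] (S y) (0, 0) < 7 / 4 := by
      simp only [mk00, mk20] at a1 a2 a3 a4
      rw [hS]
      fin_cases j
      · exact a2.trans (by norm_num)
      · change y (0, 0) + y (2, 0) < _
        linarith
      · refine (congrFun (rot_two _) _).trans_lt ?_
        simp only [mk00, mk20]
        linarith
    exact ⟨a5.trans (by norm_num), .inl a5⟩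
  have hx : ∀ y ∈ W, d.β⁻¹ * y (1, 0) ∈ Ioo (0 : ℝ) 1 := fun y hy =>
    ⟨mul_pos (inv_pos.2 hβ) (hy (1, 0) trivial).1, (inv_mul_lt_one₀ hβ).2 (hy (1, 0) trivial).2⟩
  have hs : ∀ y ∈ W, SmAt (q .I) (S y) := fun y hy => (h.par .I).sm _ (hW y hy)
  refine ⟨W, fun y => q .I (S y), isOpen_set_pi finite_univ fun i _ => isOpen_Ioo,
    fun y hy => ((hs y hy).comp S.contDiff.contDiffAt).contMDiffWithinAt, fun y hy y' hy' e => ?_,
    fun y hy u v => ?_, ?_⟩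
  · obtain ⟨m₀, m₁, n₀, n₁, l, a1, a2, a3, a4, a5, a6⟩ :=
      RS_iff.1 ((h.eI _ (hW y hy) _ (hW y' hy')).1 e)
    simp only [hS, mk00, mk01, mk10, mk11, mk20, mk21, Matrix.zero_apply, Int.cast_zero, zero_mul,
      mul_zero, add_zero, sub_zero] at a1 a2 a3 a4 a5 a6
    exact ext6 a1.symm (W2_int0 (hy (0, 1) trivial) (hy' (0, 1) trivial) a2)
      (mul_left_cancel₀ (inv_pos.2 hβ).ne' (W2_int0 (hx y hy) (hx y' hy') a3))
      (W2_int0 (hy (1, 1) trivial) (hy' (1, 1) trivial) a4) a5.symm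
      (W2_int0 (hy (2, 1) trivial) (hy' (2, 1) trivial) a6)
  · rw [pull_eq, pl_comp (hs y hy) S.contDiff.contDiffAt, pb, S.fderiv, hA _ (hW y hy),
      ContinuousAlternatingMap.compContinuousLinearMap_apply,
      show S ∘ ![u, v] = ![S u, S v] from funext fun i => by fin_cases i <;> rfl,
      Fin.sum_univ_three]
    have h1 : d.β * d.β⁻¹ = 1 := mul_inv_cancel₀ hβ.ne'
    simp only [HD.om, heis, ContinuousAlternatingMap.add_apply, cst_apply, wedge_apply, conn_apply,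
      G11a_dc, hS, mk00, mk01, mk10, mk11, mk20, mk21, smul_zero, add_zero, HD.γN, Matrix.of_apply,
      Matrix.cons_val', Matrix.cons_val_zero, Matrix.cons_val_one, Matrix.cons_val_fin_one,
      Matrix.zero_apply]
    linear_combination (u (1, 0) * v (1, 1) - v (1, 0) * u (1, 1)) * h1
  · rw [Real.volume_pi_Ioo, ← ENNReal.ofReal_prod_of_nonneg fun i _ => ?_]
    · refine ENNReal.ofReal_le_ofReal (hN.trans_eq ?_)
      rw [Fintype.prod_prod_type]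
      simp only [Fin.prod_univ_three, Fin.prod_univ_two, mk00, mk01, mk10, mk11, mk20, mk21]
      ring
    · obtain ⟨i, j⟩ := i
      fin_cases i <;> fin_cases j <;> simp [hβ.le] <;> norm_num


end Pool.Agent.Work.MP_bf98aa_gt.Cy
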