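import Pool.Agent.Work.MP_bf98aa_gt.Cy.H5
import Pool.Agent.Work.MP_bf98aa_gt.Cy.CMain
import Pool.Agent.Work.MP_bf98aa_gt.Cy.PMain
import Pool.Agent.Work.MP_bf98aa_gt.Cy.W1
import Pool.Agent.Work.MP_bf98aa_gt.Cy.W2
import Pool.Agent.Work.MP_bf98aa_gt.Cy.Data

/-!
The theorem.
-/

set_option autoImplicit false

open scoped Manifold ContDiff Topology
open Set Complex

namespace Pool.Agent.Work.MP_bf98aa_gt.Cy

open Pool.Agent.Work.MP_bf98aa_gt.Th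

theorem cy_main (N : ℝ) : ∃ (M : Type) (_ : TopologicalSpace M) (_ : T2Space M) (_ : CompactSpace M)
    (_ : SimplyConnectedSpace M) (_ : ChartedSpace (Sp (Fin 3)) M)
    (_ : IsManifold 𝓘(ℝ, Sp (Fin 3)) ∞ M) (η : Form (Sp (Fin 3)) M 2), η.Closed ∧ η.Nondeg ∧
    (∀ w : Form (Sp (Fin 3)) M 2, w.Closed → ∃ t : ℝ, (w.sub fun x => t • η x).Exact) ∧
    CalabiYau η ∧ UnitSphere η ∧ BigDomain η N := by
  obtain ⟨n, hn⟩ := fam_β N
  obtain ⟨M, _, _, _, _, _, qA, qB, h⟩ := exists_WM (fam_ok n)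
  obtain ⟨η, hc, hnd, hA, hB⟩ := h.exists_om
  refine ⟨M, _, inferInstance, inferInstance, h.sc, _, inferInstance, η, (closed_iff η).2 hc, hnd,
    fun w hw => ?_, h.cy hc hA hB, h.sphere hA hB, h.hA.big (hA .I) hn⟩
  obtain ⟨t, ht⟩ := h.h2 hc hA hB ((closed_iff w).1 hw)
  exact ⟨t, exact_of ht⟩


end Pool.Agent.Work.MP_bf98aa_gt.Cy
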