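import Pool.Agent.Work.MP_bf98aa_gt.Cy.Final
import Pool.Agent.Work.MP_bf98aa_gt.Cy.N8

/-!
The family of pairwise non-diffeomorphic manifolds.
-/

set_option autoImplicit false

open scoped Manifold ContDiff Topology
open Set Complex

namespace Pool.Agent.Work.MP_bf98aa_gt.Cy

open Pool.Agent.Work.MP_bf98aa_gt.Th

theorem BigDomain.mono {M : Type} [TopologicalSpace M] [ChartedSpace (Sp (Fin 3)) M]
    {η : Form (Sp (Fin 3)) M 2} {N N' : ℝ} (h : BigDomain η N) (hN : N' ≤ N) : BigDomain η N' := by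
  obtain ⟨W, f, h1, h2, h3, h4, h5⟩ := h
  exact ⟨W, f, h1, h2, h3, h4, (ENNReal.ofReal_le_ofReal hN).trans h5⟩

theorem exO_of {M : Type} [TopologicalSpace M] [ChartedSpace E6 M] [IsManifold 𝓘(ℝ, E6) ∞ M]
    {k : ℕ} {w : Fo M (k + 1)} (h : Form.Exact (E := E6) (M := M) w) : ExO w univ := by
  obtain ⟨b, h1, h2⟩ := h
  refine ⟨b, IsDO.of_loc fun m _ => ?_⟩
  have hm := mem_chart_target E6 m
  exact ⟨_, _, _, par_chart m, hm, (chartAt E6 m).left_inv (mem_chart_source E6 m),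
    (h1 m).contDiffAt ((chartAt E6 m).open_target.mem_nhds hm), h2 m _ hm⟩

theorem cy_family : ∃ (M : ℕ → Type) (_ : ∀ k, TopologicalSpace (M k)) (_ : ∀ k, T2Space (M k))
    (_ : ∀ k, CompactSpace (M k)) (_ : ∀ k, SimplyConnectedSpace (M k))
    (_ : ∀ k, ChartedSpace (Sp (Fin 3)) (M k)) (_ : ∀ k, IsManifold 𝓘(ℝ, Sp (Fin 3)) ∞ (M k))
    (η : ∀ k, Form (Sp (Fin 3)) (M k) 2),
    (∀ k, (η k).Closed ∧ (η k).Nondeg ∧ (∀ w : Form (Sp (Fin 3)) (M k) 2, w.Closed →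
      ∃ t : ℝ, (w.sub fun x => t • η k x).Exact) ∧ CalabiYau (η k) ∧ UnitSphere (η k) ∧
      BigDomain (η k) k) ∧
    ∀ k l, k ≠ l → IsEmpty (Diffeomorph 𝓘(ℝ, Sp (Fin 3)) 𝓘(ℝ, Sp (Fin 3)) (M k) (M l) ∞) := by
  choose M i1 i2 i3 i4 i5 i6 η hc hn h2 hy hs hb using cy_main
  have hC := fun N => bound (M := M N) (η := η N) ((closed_iff _).1 (hc N)) (hn N)
    (fun w hw => (h2 N w ((closed_iff w).2 hw)).imp fun t ht => exO_of ht) (hs N)
  choose C hC using hC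
  let a : ℕ → ℝ := fun k => Nat.rec 0 (fun _ x => max x (C x) + 1) k
  have a1 : ∀ k, a (k + 1) = max (a k) (C (a k)) + 1 := fun _ => rfl
  have a2 : Monotone a := monotone_nat_of_le_succ fun k => by
    rw [a1]; linarith [le_max_left (a k) (C (a k))]
  have a3 : ∀ k : ℕ, (k : ℝ) ≤ a k := fun k => by
    induction k with
    | zero => simp [a]
    | succ k ih => rw [a1]; push_cast; linarith [le_max_left (a k) (C (a k))]
  have key : ∀ k l, k < l →
      IsEmpty (Diffeomorph 𝓘(ℝ, Sp (Fin 3)) 𝓘(ℝ, Sp (Fin 3)) (M (a k)) (M (a l)) ∞) :=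
    fun k l hkl => ⟨fun φ => by
      obtain ⟨η', q1, q2, q3, q4⟩ := transfer φ ((closed_iff _).1 (hc _)) (hn _) (hs _) (hb _)
      have e := hC _ η' _ q1 q2 q3 q4
      have e' := a2 (Nat.succ_le_of_lt hkl)
      rw [a1] at e'
      linarith [le_max_right (a k) (C (a k))]⟩
  refine ⟨fun k => M (a k), _, fun k => i2 _, fun k => i3 _, fun k => i4 _, _, fun k => i6 _,
    fun k => η (a k), fun k => ⟨hc _, hn _, h2 _, hy _, hs _, (hb _).mono (a3 k)⟩,
    fun k l h => ?_⟩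
  rcases lt_or_gt_of_ne h with h | h
  · exact key k l h
  · exact ⟨fun φ => (key l k h).false φ.symm⟩


end Pool.Agent.Work.MP_bf98aa_gt.Cy
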