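import Pool.Agent.Work.MP_bf98aa_gt.Cy.Final2
import Pool.Agent.Work.MP_bf98aa_gt.Cy.StmtM
import Pool.Agent.Work.MP_bf98aa_gt.Cy.StmtQ
import Pool.Agent.Work.MP_bf98aa_gt.Cy.QMain

/-!
The existence question on the manifolds of the family.
-/

set_option autoImplicit false

namespace Pool.Agent.Work.MP_bf98aa_gt.Cy

open Pool.Agent.Work.MP_bf98aa_gt.Th

theorem Mfd.q1 (X : Mfd (Sp (Fin 3))) {η : Form (Sp (Fin 3)) X.M 2} (hc : η.Closed)
    (hn : η.Nondeg) (hs : Spans η) (hy : CalabiYau η) : Q1CY 3 X.M := by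
  have := X.t2
  have := X.cpt
  have := X.sc
  have := X.mf
  exact fun τ w hτ hc' hw c c0 hi => q1_cy ((closed_iff η).1 hc) hn hy
    (fun w hw => (hs w ((closed_iff w).2 hw)).imp fun t ht => exO_of ht) hτ hc' hw hi c0

end Pool.Agent.Work.MP_bf98aa_gt.Cy
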