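import Pool.Agent.Work.MP_bf98aa_gt.Cy.GDefs

/-!
Circle bundles over the four-torus: algebra.

PLAN. `RS_iff`: `ext6`, `push_cast`. `symm`, `trans`: explicit integers (`l + l' - m' K n`). `cst_apply`, `conn_apply`: `Fin.sum_univ_two`, `wedge_apply`. `nondeg_cst`: test with the six basis vectors,
`Matrix.det_fin_two`. `heis_isD`: `alt_ext_two`, `extDeriv_one_apply`; compute the derivative of `z ↦ z (2,0) * conn L z v` (a polynomial, `conn_apply`).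
-/

set_option autoImplicit false

open scoped Manifold ContDiff Topology
open Set

namespace Pool.Agent.Work.MP_bf98aa_gt.Cy

open Pool.Agent.Work.MP_bf98aa_gt.Th

variable {K : Matrix (Fin 2) (Fin 2) ℤ} {κ : ℤ} {a b : ℝ}

theorem hact_contDiff (m₀ m₁ n₀ n₁ l : ℤ) : ContDiff ℝ ∞ (hact K m₀ m₁ n₀ n₁ l) := by
  refine contDiff_pi.2 fun ⟨i, j⟩ => ?_
  fin_cases i <;> fin_cases j
  · change ContDiff ℝ ∞ fun z : E6 => z (0, 0) + m₀
    fun_prop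
  · change ContDiff ℝ ∞ fun z : E6 => z (0, 1) + n₀
    fun_prop
  · change ContDiff ℝ ∞ fun z : E6 => z (1, 0) + m₁
    fun_prop
  · change ContDiff ℝ ∞ fun z : E6 => z (1, 1) + n₁
    fun_prop
  · change ContDiff ℝ ∞ fun z : E6 => z (2, 0)
    fun_prop
  · change ContDiff ℝ ∞ fun z : E6 => z (2, 1) - (m₀ * (K 0 0 * z (0, 1) + K 0 1 * z (1, 1)) +
      m₁ * (K 1 0 * z (0, 1) + K 1 1 * z (1, 1))) + l
    fun_prop

theorem RS_iff {z z' : E6} : RS κ K z z' ↔ ∃ m₀ m₁ n₀ n₁ l : ℤ, z' (0, 0) = z (0, 0) + κ * m₀ ∧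
    z' (0, 1) = z (0, 1) + n₀ ∧ z' (1, 0) = z (1, 0) + m₁ ∧ z' (1, 1) = z (1, 1) + n₁ ∧
    z' (2, 0) = z (2, 0) ∧ z' (2, 1) = z (2, 1) - (κ * m₀ * (K 0 0 * z (0, 1) + K 0 1 * z (1, 1)) +
      m₁ * (K 1 0 * z (0, 1) + K 1 1 * z (1, 1))) + l := by
  constructor
  · rintro ⟨_, ⟨m₀, m₁, n₀, n₁, l, rfl⟩, rfl⟩
    exact ⟨m₀, m₁, n₀, n₁, l, by simp [hact], rfl, rfl, rfl, rfl, by simp [hact]⟩
  · rintro ⟨m₀, m₁, n₀, n₁, l, h1, h2, h3, h4, h5, h6⟩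
    refine ⟨_, ⟨m₀, m₁, n₀, n₁, l, rfl⟩, ext6 ?_ h2.symm h3.symm h4.symm h5.symm ?_⟩
    · rw [h1]
      simp [hact]
    · rw [h6]
      simp [hact]

theorem RS.refl (z : E6) : RS κ K z z :=
  RS_iff.2 ⟨0, 0, 0, 0, 0, by simp, by simp, by simp, by simp, rfl, by simp⟩

theorem RS.symm {z z' : E6} (h : RS κ K z z') : RS κ K z' z := by
  obtain ⟨m₀, m₁, n₀, n₁, l, h1, h2, h3, h4, h5, h6⟩ := RS_iff.1 h
  refine RS_iff.2 ⟨-m₀, -m₁, -n₀, -n₁,
    -l - (κ * m₀ * (K 0 0 * n₀ + K 0 1 * n₁) + m₁ * (K 1 0 * n₀ + K 1 1 * n₁)), ?_⟩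
  rw [h1, h2, h3, h4, h5, h6]
  push_cast
  refine ⟨?_, ?_, ?_, ?_, rfl, ?_⟩ <;> ring

theorem RS.trans {z z' z'' : E6} (h : RS κ K z z') (h' : RS κ K z' z'') : RS κ K z z'' := by
  obtain ⟨m₀, m₁, n₀, n₁, l, h1, h2, h3, h4, h5, h6⟩ := RS_iff.1 h
  obtain ⟨m₀', m₁', n₀', n₁', l', g1, g2, g3, g4, g5, g6⟩ := RS_iff.1 h'
  refine RS_iff.2 ⟨m₀ + m₀', m₁ + m₁', n₀ + n₀', n₁ + n₁',
    l + l' - (κ * m₀' * (K 0 0 * n₀ + K 0 1 * n₁) + m₁' * (K 1 0 * n₀ + K 1 1 * n₁)), ?_⟩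
  rw [g1, g2, g3, g4, g5, g6, h1, h2, h3, h4, h5, h6]
  push_cast
  refine ⟨?_, ?_, ?_, ?_, rfl, ?_⟩ <;> ring

theorem G11a_dc (i : Cx) (v : E6) : dc i v = v i := rfl

theorem cst_apply (γ : Matrix (Fin 2) (Fin 2) ℝ) (u v : E6) : cst γ ![u, v] =
    γ 0 0 * (u (0, 0) * v (0, 1) - v (0, 0) * u (0, 1)) +
    γ 0 1 * (u (0, 0) * v (1, 1) - v (0, 0) * u (1, 1)) +
    γ 1 0 * (u (1, 0) * v (0, 1) - v (1, 0) * u (0, 1)) +
    γ 1 1 * (u (1, 0) * v (1, 1) - v (1, 0) * u (1, 1)) := by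
  simp only [cst, Fin.sum_univ_two, ContinuousAlternatingMap.add_apply,
    ContinuousAlternatingMap.smul_apply, wedge_apply, G11a_dc, smul_eq_mul, Matrix.cons_val_zero,
    Matrix.cons_val_one, Fin.castSucc_zero, Fin.castSucc_one]
  ring

theorem conn_apply (L : Matrix (Fin 2) (Fin 2) ℝ) (z v : E6) : conn L z v = v (2, 1) +
    (L 0 0 * z (0, 0) * v (0, 1) + L 0 1 * z (0, 0) * v (1, 1) + L 1 0 * z (1, 0) * v (0, 1) +
      L 1 1 * z (1, 0) * v (1, 1)) := by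
  simp only [conn, Fin.sum_univ_two, add_apply,
    smul_apply, G11a_dc, smul_eq_mul, Fin.castSucc_zero, Fin.castSucc_one]
  ring

theorem nondeg_cst {γ : Matrix (Fin 2) (Fin 2) ℝ} (h : γ.det ≠ 0) {α : E6 →L[ℝ] ℝ}
    (hα : α (bv (2, 1)) = 1) (u : E6)
    (hu : ∀ v, (cst γ + wedge (dc (2, 0)) α) ![u, v] = 0) : u = 0 := by
  have H : ∀ v : E6, γ 0 0 * (u (0, 0) * v (0, 1) - v (0, 0) * u (0, 1)) +
      γ 0 1 * (u (0, 0) * v (1, 1) - v (0, 0) * u (1, 1)) +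
      γ 1 0 * (u (1, 0) * v (0, 1) - v (1, 0) * u (0, 1)) +
      γ 1 1 * (u (1, 0) * v (1, 1) - v (1, 0) * u (1, 1)) +
      (u (2, 0) * α v - v (2, 0) * α u) = 0 := fun v => by
    have := hu v
    rwa [ContinuousAlternatingMap.add_apply, cst_apply, wedge_apply] at this
  rw [Matrix.det_fin_two] at h
  have h20 : u (2, 0) = 0 := by
    have := H (bv (2, 1))
    rw [hα] at this
    simpa [bv] using this
  have a1 := H (bv (0, 0))
  have a2 := H (bv (1, 0))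
  have a3 := H (bv (0, 1))
  have a4 := H (bv (1, 1))
  have a5 := H (bv (2, 0))
  simp [h20, bv] at a1 a2 a3 a4 a5
  have h00 : u (0, 0) = 0 :=
    (mul_eq_zero.1 (by linear_combination γ 1 1 * a3 - γ 1 0 * a4)).resolve_left h
  have h10 : u (1, 0) = 0 :=
    (mul_eq_zero.1 (by linear_combination γ 0 0 * a4 - γ 0 1 * a3)).resolve_left h
  have h01 : u (0, 1) = 0 :=
    (mul_eq_zero.1 (by linear_combination γ 0 1 * a2 - γ 1 1 * a1)).resolve_left h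
  have h11 : u (1, 1) = 0 :=
    (mul_eq_zero.1 (by linear_combination γ 1 0 * a1 - γ 0 0 * a2)).resolve_left h
  have e : u = u (2, 1) • bv (2, 1) := ext6 (by simp [bv, h00]) (by simp [bv, h01])
    (by simp [bv, h10]) (by simp [bv, h11]) (by simp [bv, h20]) (by simp [bv])
  rw [e, map_smul, hα, smul_eq_mul, mul_one] at a5
  rw [e, a5, zero_smul]

theorem heis_isD (γ L : Matrix (Fin 2) (Fin 2) ℝ) :
    IsD (fun z : E6 => alt1 (z (2, 0) • conn L z)) (fun z => heis γ L z - cst γ) univ := by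
  have hs : ContDiff ℝ ∞ fun z : E6 => alt1 (z (2, 0) • conn L z) := by
    refine contDiff_alt1.comp ?_
    unfold conn
    fun_prop
  refine ⟨hs.contDiffOn, fun x _ => alt_ext_two fun u v => ?_⟩
  have hd := hs.differentiable (by simp) x
  have key : ∀ u v : E6, fderiv ℝ (fun z : E6 => alt1 (z (2, 0) • conn L z)) x u ![v] =
      u (2, 0) * conn L x v + x (2, 0) * (L 0 0 * u (0, 0) * v (0, 1) + L 0 1 * u (0, 0) * v (1, 1) +
        L 1 0 * u (1, 0) * v (0, 1) + L 1 1 * u (1, 0) * v (1, 1)) := fun u v => by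
    have h1 := (ContinuousAlternatingMap.apply ℝ E6 ℝ ![v]).hasFDerivAt.comp x hd.hasFDerivAt
    let B : E6 →L[ℝ] ℝ := (L 0 0 * v (0, 1) + L 0 1 * v (1, 1)) • dc (0, 0) +
      (L 1 0 * v (0, 1) + L 1 1 * v (1, 1)) • dc (1, 0)
    have hB : ∀ z, B z = (L 0 0 * v (0, 1) + L 0 1 * v (1, 1)) * z (0, 0) +
      (L 1 0 * v (0, 1) + L 1 1 * v (1, 1)) * z (1, 0) := fun z => rfl
    have h2 := ((dc (2, 0)).hasFDerivAt (x := x)).mul (B.hasFDerivAt.const_add (v (2, 1)))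
    have h3 := h1.unique (h2.congr_of_eventuallyEq (Filter.Eventually.of_forall fun z => by
      change z (2, 0) * conn L z v = z (2, 0) * (v (2, 1) + B z)
      rw [conn_apply, hB]
      ring))
    refine (congrArg (fun f : E6 →L[ℝ] ℝ => f u) h3).trans ?_
    change x (2, 0) * B u + (v (2, 1) + B x) * u (2, 0) = _
    rw [conn_apply, hB, hB]
    ring
  rw [extDeriv_one_apply hd, key, key]
  simp only [heis, ContinuousAlternatingMap.sub_apply, ContinuousAlternatingMap.add_apply,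
    cst_apply, wedge_apply, G11a_dc, Matrix.cons_val_zero, Matrix.cons_val_one, Matrix.add_apply,
    Matrix.smul_apply, smul_eq_mul]
  ring

end Pool.Agent.Work.MP_bf98aa_gt.Cy
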