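import Pool.Agent.Work.MP_bf98aa_gt.Cy.G4
import Pool.Agent.Work.MP_bf98aa_gt.Cy.G5
import Pool.Agent.Work.MP_bf98aa_gt.Cy.G7
import Pool.Agent.Work.MP_bf98aa_gt.Cy.G11a

/-!
Fibre periods on a circle bundle over the four-torus.

PLAN. `B = hK (fun _ => 1) H (pl ψ w)` with `H (t, x) = x + t • bv (2,1)` is closed on the slab (`homotopy` with `p = 1`, `q = 0`, `hA 1 = hA 0` because the translation is `hact K 0 0 0 0 1`),
`B x ![v] = ∫ t, pl ψ w (x + t • bv (2,1)) ![bv (2,1), v]`; `B = d f` (`RA_convex`), `B ![bv (2,1)] = 0` so `f` is invariant under all translations in `φ`; `f ∘ γ - f` is a constant `c γ`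
for `γ ∈ HT 1 K` (`hK_nat`, `IsOpen.is_const_of_fderiv_eq_zero`), `f (γ z) = f (z + λ)`, so `λ ↦ f (z + λ) - f z` is additive on the lattice and independent of `z`; the period is `f z - f (z + λ)`.
-/

set_option autoImplicit false

open scoped Manifold ContDiff Topology
open Set

namespace Pool.Agent.Work.MP_bf98aa_gt.Cy

open Pool.Agent.Work.MP_bf98aa_gt.Th

variable {M : Type} [TopologicalSpace M] [ChartedSpace E6 M] [IsManifold 𝓘(ℝ, E6) ∞ M]
  {F F' : Type} [NormedAddCommGroup F] [NormedSpace ℝ F] [FiniteDimensional ℝ F]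
  [NormedAddCommGroup F'] [NormedSpace ℝ F'] [FiniteDimensional ℝ F'] {k : ℕ}
  {ψ ψ' ψ'' : E6 → M} {U U' U'' V : Set E6} {O O' A B : Set M}

variable {K : Matrix (Fin 2) (Fin 2) ℤ} {κ : ℤ} {a b : ℝ}

theorem G11b_open (a b : ℝ) : IsOpen (Slab a b) :=
  (isOpen_lt continuous_const (continuous_apply _)).inter
    (isOpen_lt (continuous_apply _) continuous_const)

theorem G11b_convex (a b : ℝ) : Convex ℝ (Slab a b) :=
  (convex_Ioo a b).linear_preimage (LinearMap.proj (R := ℝ) (φ := fun _ : Cx => ℝ) (2, 0))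

theorem G11b_mem {z v : E6} (hz : z ∈ Slab a b) (hv : v (2, 0) = 0) (s : ℝ) :
    z + s • v ∈ Slab a b := by
  simpa only [Slab, mem_ofPred_eq, Pi.add_apply, Pi.smul_apply, hv, smul_zero, add_zero] using hz

theorem G11b_e : bv (2, 1) (2, 0) = 0 := by simp [bv]

theorem G11b_hK {α : Fm E6 2} (hα : Sm α (Slab a b)) {x : E6} (hx : x ∈ Slab a b) (v : E6) :
    hK (fun t => 1 + 0 * t) (fun p : ℝ × E6 => p.2 + p.1 • bv (2, 1)) α x ![v] =
      ∫ t in (0 : ℝ)..1, α (x + t • bv (2, 1)) ![bv (2, 1), v] := by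
  have h1 : ∀ t : ℝ, fderiv ℝ (fun p : ℝ × E6 => p.2 + p.1 • bv (2, 1)) (t, x) (1, 0) =
      bv (2, 1) := fun t => by
    rw [(hasFDerivAt_snd.fun_add (hasFDerivAt_fst.smul_const (bv (2, 1)))).fderiv]
    simp
  have h2 : hK (fun t => 1 + 0 * t) (fun p : ℝ × E6 => p.2 + p.1 • bv (2, 1)) α x =
      ∫ t in (0 : ℝ)..1, (α (x + t • bv (2, 1))).curryLeft (bv (2, 1)) := by
    refine intervalIntegral.integral_congr fun t _ => ?_
    simp only [h1, fderiv_add_const, fderiv_fun_id, zero_mul, add_zero, one_smul]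
    rfl
  have h3 : Continuous fun t : ℝ => (α (x + t • bv (2, 1))).curryLeft (bv (2, 1)) :=
    (ContinuousAlternatingMap.curryLeftLI.continuous.comp (hα.continuousOn.comp_continuous
      (by fun_prop) (G11b_mem hx G11b_e))).clm_apply continuous_const
  rw [h2]
  exact ((ContinuousAlternatingMap.apply ℝ E6 ℝ ![v]).intervalIntegral_comp_comm
    (h3.intervalIntegrable 0 1)).symm

theorem G11b_der {β : Fm E6 0} {B : Fm E6 1} (h : IsD β B (Slab a b)) {z v : E6}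
    (hz : z ∈ Slab a b) (hv : v (2, 0) = 0) (s : ℝ) :
    HasDerivAt (fun s : ℝ => β (z + s • v) ![]) (B (z + s • v) ![v]) s := by
  have h1 : HasDerivAt (fun t : ℝ => z + t • v) v s := by
    simpa using ((hasDerivAt_id s).smul_const v).const_add z
  have h2 := (ContinuousAlternatingMap.apply ℝ E6 ℝ ![]).hasFDerivAt.comp_hasDerivAt s
    ((h.1.diffAt (G11b_open a b) (G11b_mem hz hv s)).hasFDerivAt.comp_hasDerivAt s h1)
  refine h2.congr_deriv ?_
  rw [← h.2 _ (G11b_mem hz hv s), extDeriv, ContinuousAlternatingMap.alternatizeUncurryFin_apply,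
    Fin.sum_univ_one, Subsingleton.elim (Fin.removeNth 0 ![v]) ![]]
  simp

theorem G11b_main {α : Fm E6 2} (hα : Cl α (Slab a b))
    (hi : ∀ m₀ m₁ n₀ n₁ l : ℤ, ∀ x ∈ Slab a b, pb (hact K m₀ m₁ n₀ n₁ l) α x = α x) :
    ∃ f : E6 → ℝ, (∀ z ∈ Slab a b, ∀ v : E6, v (2, 0) = 0 →
      per2 α z v (bv (2, 1)) = f z - f (z + v)) ∧
      ∀ m₀ n₀ m₁ n₁ : ℤ, ∀ x ∈ Slab a b, ∀ y ∈ Slab a b,
        f (x + mk m₀ n₀ m₁ n₁ 0 0) - f x = f (y + mk m₀ n₀ m₁ n₁ 0 0) - f y := by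
  have hU := G11b_open a b
  have hO : IsOpen {p : ℝ × E6 | p.2 ∈ Slab a b} := hU.preimage continuous_snd
  have hH : ContDiffOn ℝ ∞ (fun p : ℝ × E6 => p.2 + p.1 • bv (2, 1)) {p | p.2 ∈ Slab a b} :=
    (contDiff_snd.add (contDiff_fst.smul contDiff_const)).contDiffOn
  have hm : MapsTo (fun p : ℝ × E6 => p.2 + p.1 • bv (2, 1)) {p | p.2 ∈ Slab a b} (Slab a b) :=
    fun p hp => G11b_mem hp G11b_e p.1
  have hB := homotopy hO hH hU hm hα hU (fun _ _ _ hx => hx) 1 0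
  have e1 : (fun y : E6 => y + (1 : ℝ) • bv (2, 1)) = hact K 0 0 0 0 1 :=
    funext fun y => by apply ext6 <;> simp [hact, bv]
  obtain ⟨β, hβ⟩ := RA_convex hU (G11b_convex a b) 1 _ ⟨hB.1, fun x hx => by
    rw [hB.2 x hx]
    simp only [hA, e1, hi _ _ _ _ _ x hx, zero_smul, add_zero, pb_id, sub_self]⟩
  have tr : ∀ z ∈ Slab a b, ∀ s : ℝ, β (z + s • bv (2, 1)) ![] = β z ![] := fun z hz s => by
    have h0 : ∀ s : ℝ, HasDerivAt (fun s : ℝ => β (z + s • bv (2, 1)) ![]) 0 s := fun s => by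
      refine (G11b_der hβ hz G11b_e s).congr_deriv ?_
      rw [G11b_hK hα.1 (G11b_mem hz G11b_e s)]
      refine (intervalIntegral.integral_congr fun t _ => ?_).trans intervalIntegral.integral_zero
      have := alt2_swap (α (z + s • bv (2, 1) + t • bv (2, 1))) (bv (2, 1)) (bv (2, 1))
      show α _ _ = 0
      linarith
    simpa using is_const_of_deriv_eq_zero (fun s => (h0 s).differentiableAt)
      (fun s => (h0 s).deriv) s 0
  refine ⟨fun z => β z ![], fun z hz v hv => ?_, fun m₀ n₀ m₁ n₁ x hx y hy => ?_⟩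
  · have h1 := intervalIntegral.integral_eq_sub_of_hasDerivAt (a := 0) (b := 1)
      (fun s _ => G11b_der hβ hz hv s) (((ContinuousAlternatingMap.apply ℝ E6 ℝ ![v]).continuous.comp
        (hB.1.continuousOn.comp_continuous (by fun_prop) (G11b_mem hz hv))).intervalIntegrable 0 1)
    rw [one_smul, zero_smul, add_zero] at h1
    show _ = β z ![] - β (z + v) ![]
    rw [← neg_sub, ← h1, ← intervalIntegral.integral_neg]
    refine intervalIntegral.integral_congr fun s _ => ?_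
    simp only [G11b_hK hα.1 (G11b_mem hz hv s), ← intervalIntegral.integral_neg]
    exact intervalIntegral.integral_congr fun t _ => alt2_swap _ _ _
  · have hγ := hact_contDiff (K := K) m₀ m₁ n₀ n₁ 0
    have mγ : MapsTo (hact K m₀ m₁ n₀ n₁ 0) (Slab a b) (Slab a b) := fun _ h => h
    have h1 : Cl (pb (hact K m₀ m₁ n₀ n₁ 0) β - β) (Slab a b) :=
      FMV_sub (α'' := 0) hU (hβ.pb hU hU hγ.contDiffOn mγ) hβ fun x hx => sub_eq_zero.2
        (hK_nat hO hH hU hm hα.1 hγ hγ (fun p hp => hp)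
          (fun p _ => by apply ext6 <;> simp [hact, bv]; ring) (hi _ _ _ _ _) (by fun_prop)
          fun _ _ => hx)
    have h2 := congrArg (fun A : Alt E6 0 => A ![])
      (h1.const hU (G11b_convex a b).isPreconnected hx hy)
    have h3 : ∀ z ∈ Slab a b, β (hact K m₀ m₁ n₀ n₁ 0 z) ![] = β (z + mk m₀ n₀ m₁ n₁ 0 0) ![] :=
      fun z hz => by
        rw [← tr (z + mk m₀ n₀ m₁ n₁ 0 0) (by simpa using G11b_mem hz (mk20 _ _ _ _ 0 0) 1)
          (hact K m₀ m₁ n₀ n₁ 0 z (2, 1) - z (2, 1))]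
        congr 2
        apply ext6 <;> simp [hact, bv]
        ring
    simpa only [Pi.sub_apply, pb_deg_zero, ContinuousAlternatingMap.sub_apply, h3 x hx, h3 y hy]
      using h2

theorem heis_fib (hP : Par ψ (Slab a b)) (hi : ∀ f ∈ HT 1 K, ∀ z ∈ Slab a b, ψ (f z) = ψ z)
    {w : Fo M 2} (hw : ClO w (ψ '' Slab a b)) :
    ∃ c : Cx → ℝ, ∀ z ∈ Slab a b, ∀ m₀ n₀ m₁ n₁ : ℤ,
      per2 (pl ψ w) z (mk m₀ n₀ m₁ n₁ 0 0) (bv (2, 1)) =
        c (0, 0) * m₀ + c (0, 1) * n₀ + c (1, 0) * m₁ + c (1, 1) * n₁ := by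
  rcases (Slab a b).eq_empty_or_nonempty with h | ⟨z₀, h₀⟩
  · exact ⟨0, fun z hz => absurd (h ▸ hz) (notMem_empty z)⟩
  obtain ⟨f, h1, h2⟩ := G11b_main (K := K) (hw ψ _ hP (mapsTo_image _ _))
    fun m₀ m₁ n₀ n₁ l x hx => (Tr.pl ⟨(hact_contDiff m₀ m₁ n₀ n₁ l).contDiffAt,
      Filter.mem_of_superset (hP.opn.mem_nhds hx)
        (hi _ ⟨m₀, m₁, n₀, n₁, l, by rw [one_mul]⟩)⟩ (hP.sm _ hx) w).symm
  let j : ℤ × ℤ × ℤ × ℤ →+ ℝ := AddMonoidHom.mk'
    (fun p => f (z₀ + mk p.1 p.2.1 p.2.2.1 p.2.2.2 0 0) - f z₀) fun p q => by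
      have h3 := h2 q.1 q.2.1 q.2.2.1 q.2.2.2 (z₀ + mk p.1 p.2.1 p.2.2.1 p.2.2.2 0 0)
        (by simpa using G11b_mem h₀ (mk20 _ _ _ _ 0 0) 1) z₀ h₀
      have h4 : z₀ + mk (p + q).1 (p + q).2.1 (p + q).2.2.1 (p + q).2.2.2 0 0 =
          z₀ + mk p.1 p.2.1 p.2.2.1 p.2.2.2 0 0 + mk q.1 q.2.1 q.2.2.1 q.2.2.2 0 0 := by
        apply ext6 <;> simp [add_assoc]
      simp only [h4]
      linarith
  refine ⟨mk (-j (1, 0, 0, 0)) (-j (0, 1, 0, 0)) (-j (0, 0, 1, 0)) (-j (0, 0, 0, 1)) 0 0,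
    fun z hz m₀ n₀ m₁ n₁ => ?_⟩
  have h5 : j (m₀, n₀, m₁, n₁) = f (z + mk m₀ n₀ m₁ n₁ 0 0) - f z := h2 _ _ _ _ _ h₀ _ hz
  rw [show ((m₀, n₀, m₁, n₁) : ℤ × ℤ × ℤ × ℤ) = m₀ • (1, 0, 0, 0) + n₀ • (0, 1, 0, 0) +
    m₁ • (0, 0, 1, 0) + n₁ • (0, 0, 0, 1) by simp] at h5
  simp only [map_add, map_zsmul] at h5
  simp only [zsmul_eq_mul] at h5
  rw [h1 z hz _ rfl, mk00, mk01, mk10, mk11]
  linarith

end Pool.Agent.Work.MP_bf98aa_gt.Cy
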