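import Pool.Agent.Work.MP_bf98aa_gt.Cy.K4
import Pool.Agent.Work.MP_bf98aa_gt.Cy.G4

/-!
Topology of the domains of a kink.

PLAN. `setM t` with `lo < t < 0` retracts `W m` along segments to the convex set `μ < 0`; symmetric for `W p`; `W f` is star-convex about 0. The set `gz ≠ 0` is the union of the convex
sets `n < p < n + 1` and `n - 1/2 < q < n + 1/2` inside the convex domain (`gg_eq_zero_iff`, `isPreconnected_of_forall` or `IsPreconnected.iUnion_of_reflTransGen`).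
`{ww ≠ 0}` is the image of `U0`-like sets, or directly: move `u` and `w` by scaling to a small `w`, `u = 0`, then use `isPreconnected_compl_singleton`-type facts for `ℂ`.
`U0`: after `setM` use that `|g0 p (1/2 + q')|² = sin² (π q') + p² cos² (π q')` increases along rays, so the slice is star-convex (`RA_seg`, `RA_star`).
-/

set_option autoImplicit false

open scoped Manifold ContDiff Topology
open Set Complex

namespace Pool.Agent.Work.MP_bf98aa_gt.Cy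

open Pool.Agent.Work.MP_bf98aa_gt.Th

variable {D : TD} {t : ℝ}

theorem K5_upd (x : E6) (i : Cx) (c s : ℝ) :
    x + s • (Function.update x i c - x) = Function.update x i (x i + s * (c - x i)) := by
  funext j
  by_cases h : j = i
  · subst h
    simp
  · simp [Function.update_of_ne h]

theorem K5_M00 (t : ℝ) (z : E6) : setM t z (0, 0) = z (0, 0) :=
  Function.update_of_ne (by decide) _ _

theorem K5_M01 (t : ℝ) (z : E6) : setM t z (0, 1) = z (0, 1) :=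
  Function.update_of_ne (by decide) _ _

theorem K5_M20 (t : ℝ) (z : E6) : setM t z (2, 0) = t := Function.update_self _ _ _

theorem K5_Mgz (t : ℝ) (z : E6) : gz (setM t z) = gz z := by
  rw [gz, K5_M00, K5_M01, gz]

theorem K5_segM (x : E6) (t s : ℝ) :
    x + s • (setM t x - x) = setM (x (2, 0) + s * (t - x (2, 0))) x := K5_upd x _ t s

theorem K5_lt {a b c s : ℝ} (hs : s ∈ Icc (0 : ℝ) 1) (ha : a < c) (hb : b < c) :
    a + s * (b - a) < c := by
  have h := (convex_Iio c) ha hb (sub_nonneg.2 hs.2) hs.1 (by ring)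
  simp only [smul_eq_mul, mem_Iio] at h
  linarith

theorem K5_gt {a b c s : ℝ} (hs : s ∈ Icc (0 : ℝ) 1) (ha : c < a) (hb : c < b) :
    c < a + s * (b - a) := by
  have h := (convex_Ioi c) ha hb (sub_nonneg.2 hs.2) hs.1 (by ring)
  simp only [smul_eq_mul, mem_Ioi] at h
  linarith

theorem contDiff_setM (t : ℝ) : ContDiff ℝ ∞ (setM t) := by
  refine contDiff_pi.2 fun i => ?_
  by_cases h : i = (2, 0)
  · subst h
    simpa only [K5_M20] using contDiff_const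
  · simpa only [setM, Function.update_of_ne h] using contDiff_apply ℝ ℝ i

theorem seg_m (hD : D.Ok) (h : D.lo < t) (h0 : t < 0) : Seg (D.W .m) (setM t) := by
  intro x hx s hs
  have h1 : t < D.hi := by linarith [hD.hi]
  rw [K5_segM]
  refine ⟨⟨?_, ?_, ?_⟩, ?_⟩
  · rw [K5_M00]
    exact hx.1.1
  · rw [K5_M20]
    exact K5_gt hs hx.1.2.1 h
  · rw [K5_M20]
    exact K5_lt hs hx.1.2.2 h1
  · rw [K5_M20, K5_Mgz]
    exact hx.2.imp_right fun h2 => K5_lt hs h2 h0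

theorem seg_p (hD : D.Ok) (h0 : 0 < t) (h : t < D.hi) : Seg (D.W .p) (setM t) := by
  intro x hx s hs
  have h1 : D.lo < t := by linarith [hD.lo]
  rw [K5_segM]
  refine ⟨⟨?_, ?_, ?_⟩, ?_⟩
  · rw [K5_M00]
    exact hx.1.1
  · rw [K5_M20]
    exact K5_gt hs hx.1.2.1 h1
  · rw [K5_M20]
    exact K5_lt hs hx.1.2.2 h
  · rw [K5_M20, K5_Mgz]
    exact hx.2.imp_right fun h2 => K5_gt hs h2 h0

theorem comm_setM (κ : ℤ) (K : Matrix (Fin 2) (Fin 2) ℤ) (t : ℝ) : Comm (HT κ K) (setM t) := by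
  rintro f ⟨m₀, m₁, n₀, n₁, l, rfl⟩ x s
  rw [K5_segM, K5_segM]
  refine ext6 ?_ ?_ ?_ ?_ ?_ ?_ <;> simp [hact, setM]

theorem K5_uu (a : ℝ) (z : E6) : uu (a • z) = a * uu z := by
  apply Complex.ext <;> simp [uu]

theorem K5_ww (a : ℝ) (z : E6) : ww (a • z) = a * ww z := by
  apply Complex.ext <;> simp [ww]

theorem K5_smul_f (hD : D.Ok) {a : ℝ} (ha : a ∈ Icc (0 : ℝ) 1) {z : E6} (hz : z ∈ D.W .f) :
    a • z ∈ D.W .f := by
  obtain ⟨h1, h2, h3⟩ := hz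
  have hb : a * a ∈ Icc (0 : ℝ) 1 := ⟨mul_self_nonneg a, mul_le_one₀ ha.2 ha.1 ha.2⟩
  have e1 : normSq (uu (a • z) * ww (a • z)) = 0 + a * a * (a * a) * (normSq (uu z * ww z) - 0) := by
    simp only [K5_uu, K5_ww, map_mul, normSq_ofReal]
    ring
  have e2 : mF (a • z) = 0 + a * a * (mF z - 0) := by
    simp only [mF, K5_uu, K5_ww, map_mul, normSq_ofReal]
    ring
  refine ⟨?_, ?_, ?_⟩
  · rw [e1]
    exact K5_lt ⟨mul_self_nonneg _, mul_le_one₀ hb.2 hb.1 hb.2⟩ (by norm_num) h1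
  · rw [e2]
    exact K5_gt hb (by linarith [hD.lo]) h2
  · rw [e2]
    exact K5_lt hb (by linarith [hD.hi]) h3

theorem starConvex_f (hD : D.Ok) : (0 : E6) ∈ D.W .f ∧ StarConvex ℝ 0 (D.W .f) := by
  refine ⟨⟨?_, ?_, ?_⟩, starConvex_zero_iff.2 fun z hz a h0 h1 => K5_smul_f hD ⟨h0, h1⟩ hz⟩
  · simp [uu, ww, normSq_apply]
  · simp only [mF, uu, ww, normSq_apply, Pi.zero_apply]
    linarith [hD.lo]
  · simp only [mF, uu, ww, normSq_apply, Pi.zero_apply]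
    linarith [hD.hi]

theorem K5_cvx {I : Set ℝ} (h : Convex ℝ I) (i : Cx) : Convex ℝ {z : E6 | z i ∈ I} :=
  h.linear_preimage (LinearMap.proj i : E6 →ₗ[ℝ] ℝ)

theorem K5_dom (D : TD) : Convex ℝ {z : E6 | D.dom (z (0, 0)) (z (2, 0))} := by
  have h1 := K5_cvx (convex_Ioo (-1 / 2 : ℝ) (3 / 4)) (0, 0)
  have h2 := K5_cvx (convex_Ioo D.lo D.hi) (2, 0)
  intro x hx y hy a b ha hb hab
  exact ⟨fun h => h1 (hx.1 h) (hy.1 h) ha hb hab, h2 hx.2 hy.2 ha hb hab⟩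

theorem contractible_W (hD : D.Ok) (s : K3) : ContractibleSpace (D.W s) := by
  have h1 := hD.lo
  have h2 := hD.hi
  cases s
  · refine contractible_seg (V := {z : E6 | D.dom (z (0, 0)) (z (2, 0))} ∩ {z | z (2, 0) ∈ Iio 0})
      (contDiff_setM (-1 / 16)).continuous (fun z hz => ⟨⟨?_, ?_⟩, ?_⟩)
      (fun z hz => ⟨hz.1, Or.inr hz.2⟩) (seg_m hD h1 (by norm_num))
      ((K5_dom D).inter (K5_cvx (convex_Iio 0) _)) ⟨mk 0 0 0 0 (-1 / 16) 0, ⟨?_, ?_⟩, ?_⟩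
    · rw [K5_M00]
      exact hz.1.1
    · rw [K5_M20]
      constructor <;> linarith
    · rw [mem_ofPred_eq, K5_M20]
      norm_num
    · intro _
      norm_num
    · rw [mk20]
      constructor <;> linarith
    · rw [mem_ofPred_eq, mk20]
      norm_num
  · refine contractible_seg (V := {z : E6 | D.dom (z (0, 0)) (z (2, 0))} ∩ {z | z (2, 0) ∈ Ioi 0})
      (contDiff_setM (1 / 16)).continuous (fun z hz => ⟨⟨?_, ?_⟩, ?_⟩)
      (fun z hz => ⟨hz.1, Or.inr hz.2⟩) (seg_p hD (by norm_num) h2)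
      ((K5_dom D).inter (K5_cvx (convex_Ioi 0) _)) ⟨mk 0 0 0 0 (1 / 16) 0, ⟨?_, ?_⟩, ?_⟩
    · rw [K5_M00]
      exact hz.1.1
    · rw [K5_M20]
      constructor <;> linarith
    · rw [mem_ofPred_eq, K5_M20]
      norm_num
    · intro _
      norm_num
    · rw [mk20]
      constructor <;> linarith
    · rw [mem_ofPred_eq, mk20]
      norm_num
  · exact (starConvex_f hD).2.contractibleSpace ⟨0, (starConvex_f hD).1⟩

theorem preconn_W (hD : D.Ok) (s : K3) : IsPreconnected (D.W s) := by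
  have := contractible_W hD s
  exact isPreconnected_iff_preconnectedSpace.2 inferInstance

theorem K5_half : ¬ ∃ n : ℤ, (0 : ℝ) = n + 1 / 2 := by
  rintro ⟨n, h⟩
  have h1 : (2 * n + 1 : ℤ) = 0 := by
    have h2 : (2 * n + 1 : ℝ) = 0 := by linarith
    exact_mod_cast h2
  omega

theorem K5_quarter : ¬ ∃ n : ℤ, (1 / 4 : ℝ) = n := by
  rintro ⟨n, h⟩
  have h1 : (4 * n : ℤ) = 1 := by
    have h2 : (4 * n : ℝ) = 1 := by linarith
    exact_mod_cast h2
  omega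

theorem preconn_gz (hD : D.Ok) : IsPreconnected {z | z ∈ D.W .m ∧ gz z ≠ 0} := by
  classical
  have _ := hD
  have n1 : ((0, 0) : Cx) ≠ (0, 1) := by decide
  have n2 : ((2, 0) : Cx) ≠ (0, 1) := by decide
  have n3 : ((2, 0) : Cx) ≠ (0, 0) := by decide
  have hB : IsPreconnected
      ({z : E6 | D.dom (z (0, 0)) (z (2, 0))} ∩ {z | z (0, 0) ∈ ({1 / 4} : Set ℝ)}) :=
    ((K5_dom D).inter (K5_cvx (convex_singleton _) _)).isPreconnected
  have hA : IsPreconnected {z : E6 | D.dom (z (0, 0)) (z (2, 0)) ∧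
      ((¬ ∃ n : ℤ, z (0, 1) = n + 1 / 2) ∨ z (0, 0) = 1 / 4)} := by
    refine preconn_seg (π := fun z => Function.update z (0, 0) (1 / 4)) ?_ ?_ ?_ hB
    · intro z hz
      refine ⟨?_, Function.update_self _ _ _⟩
      simp only [mem_ofPred_eq, Function.update_self, Function.update_of_ne n3]
      exact ⟨fun _ => by norm_num, hz.1.2⟩
    · exact fun z hz => ⟨hz.1, Or.inr hz.2⟩
    · intro z hz s hs
      rw [K5_upd, mem_ofPred_eq, Function.update_self, Function.update_of_ne n3,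
        Function.update_of_ne n1.symm]
      refine ⟨⟨fun h => ⟨K5_gt hs (hz.1.1 h).1 (by norm_num), K5_lt hs (hz.1.1 h).2 (by norm_num)⟩,
        hz.1.2⟩, hz.2.imp_right fun h => ?_⟩
      rw [h]
      ring
  refine preconn_seg (π := fun z => if ∃ m : ℤ, z (0, 0) = m then z else Function.update z (0, 1) 0)
    (fun z hz => ?_) (fun z hz => ?_) (fun z hz s _ => ?_) hA
  · by_cases h : ∃ m : ℤ, z (0, 0) = m
    · simp only [if_pos h]
      exact ⟨hz.1.1, Or.inl fun h' => hz.2 (gg_eq_zero_iff.2 ⟨h, h'⟩)⟩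
    · simp only [if_neg h]
      rw [mem_ofPred_eq, Function.update_self, Function.update_of_ne n1,
        Function.update_of_ne n2]
      exact ⟨hz.1.1, Or.inl K5_half⟩
  · have h : gz z ≠ 0 := fun h => by
      obtain ⟨h1, h2⟩ := gg_eq_zero_iff.1 h
      rcases hz.2 with h3 | h3
      · exact h3 h2
      · exact K5_quarter (h3 ▸ h1)
    exact ⟨⟨hz.1, Or.inl h⟩, h⟩
  · by_cases h : ∃ m : ℤ, z (0, 0) = m
    · simpa only [if_pos h, sub_self, smul_zero, add_zero] using hz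
    · simp only [if_neg h]
      rw [K5_upd]
      have h1 : gz (Function.update z (0, 1) (z (0, 1) + s * (0 - z (0, 1)))) ≠ 0 := fun h1 => by
        have h2 := (gg_eq_zero_iff.1 h1).1
        rw [Function.update_of_ne n1] at h2
        exact h h2
      refine ⟨⟨?_, Or.inl h1⟩, h1⟩
      rw [Function.update_of_ne n1, Function.update_of_ne n2]
      exact hz.1.1

theorem K5_eq {A B : Set E6} (h : IsPreconnected A) (e : ∀ z, z ∈ A ↔ z ∈ B) : IsPreconnected B :=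
  Set.ext e ▸ h

theorem K5_polar {I J : Set ℝ} (hI : Convex ℝ I) (hJ : Convex ℝ J) (hI0 : I ⊆ Ici 0)
    (hJ0 : J ⊆ Ici 0) : IsPreconnected {z : E6 | ‖uu z‖ ∈ I ∧ ‖ww z‖ ∈ J} := by
  have hc := contDiff_ee.continuous
  have h1 : Continuous fun z : E6 =>
      cplx (z (0, 0) * ee (z (0, 1))) (z (2, 0) * ee (z (2, 1))) (z (1, 0)) (z (1, 1)) := by
    refine continuous_pi fun ⟨i, j⟩ => ?_
    fin_cases i <;> fin_cases j <;> simp only [cplx, mk] <;> simp <;> fun_prop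
  have h2 := ((K5_cvx hI (0, 0)).inter (K5_cvx hJ (2, 0))).isPreconnected.image _ h1.continuousOn
  have e : ∀ r s : ℝ, 0 ≤ r → ‖(r : ℂ) * ee s‖ = r := fun r s h => by
    rw [norm_mul, norm_ee, mul_one, norm_real, Real.norm_of_nonneg h]
  refine K5_eq h2 fun z => ⟨?_, fun hz => ?_⟩
  · rintro ⟨y, hy, rfl⟩
    exact ⟨(e _ _ (hI0 hy.1)).symm ▸ hy.1, (e _ _ (hJ0 hy.2)).symm ▸ hy.2⟩
  · obtain ⟨a, ha⟩ := exists_ee (uu z)
    obtain ⟨b, hb⟩ := exists_ee (ww z)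
    refine ⟨mk ‖uu z‖ a (z (1, 0)) (z (1, 1)) ‖ww z‖ b, hz, ?_⟩
    simp only [mk00, mk01, mk10, mk11, mk20, mk21, ← ha, ← hb]
    exact ext6 rfl rfl rfl rfl rfl rfl

theorem K5_small (hD : D.Ok) {z : E6} (h1 : ‖uu z‖ < 1 / 4) (h2 : ‖ww z‖ < 1 / 4) : z ∈ D.W .f := by
  have a1 : normSq (uu z) < 1 / 16 := by
    rw [normSq_eq_norm_sq]
    nlinarith [norm_nonneg (uu z)]
  have a2 : normSq (ww z) < 1 / 16 := by
    rw [normSq_eq_norm_sq]
    nlinarith [norm_nonneg (ww z)]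
  have b1 := normSq_nonneg (uu z)
  have b2 := normSq_nonneg (ww z)
  refine ⟨?_, ?_, ?_⟩
  · rw [map_mul]
    nlinarith
  · rw [mF]
    linarith [hD.lo]
  · rw [mF]
    linarith [hD.hi]

theorem K5_shrink (z : E6) :
    ∃ c : ℝ, 0 < c ∧ c ≤ 1 ∧ ‖uu (c • z)‖ < 1 / 4 ∧ ‖ww (c • z)‖ < 1 / 4 := by
  have a1 := norm_nonneg (uu z)
  have a2 := norm_nonneg (ww z)
  have h : 0 < 1 + 4 * (‖uu z‖ + ‖ww z‖) := by positivity
  refine ⟨(1 + 4 * (‖uu z‖ + ‖ww z‖))⁻¹, inv_pos.2 h, inv_le_one_of_one_le₀ (by linarith), ?_, ?_⟩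
  · rw [K5_uu, norm_mul, norm_real, Real.norm_of_nonneg (inv_pos.2 h).le, inv_mul_lt_iff₀ h]
    linarith
  · rw [K5_ww, norm_mul, norm_real, Real.norm_of_nonneg (inv_pos.2 h).le, inv_mul_lt_iff₀ h]
    linarith

theorem K5_cone (hD : D.Ok) {P : E6 → Prop} (hP : ∀ z, ∀ a : ℝ, 0 < a → P z → P (a • z))
    (h : IsPreconnected {z : E6 | (‖uu z‖ < 1 / 4 ∧ ‖ww z‖ < 1 / 4) ∧ P z}) :
    IsPreconnected {z | z ∈ D.W .f ∧ P z} := by
  choose c c0 c1 hc using K5_shrink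
  refine preconn_seg (π := fun z => c z • z) ?_ ?_ (fun z hz s hs => ?_) h
  · exact fun z hz => ⟨hc z, hP _ _ (c0 z) hz.2⟩
  · exact fun z hz => ⟨K5_small hD hz.1.1 hz.1.2, hz.2⟩
  have e : z + s • (c z • z - z) = (1 + s * (c z - 1)) • z := by module
  have h0 : 0 < 1 + s * (c z - 1) := K5_gt hs one_pos (c0 z)
  rw [e]
  exact ⟨K5_smul_f hD ⟨h0.le, by nlinarith [hs.1, c1 z]⟩ hz.1, hP _ _ h0 hz.2⟩

theorem preconn_ww (hD : D.Ok) : IsPreconnected {z | z ∈ D.W .f ∧ ww z ≠ 0} := by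
  refine K5_cone hD (fun z a ha h => ?_) ?_
  · rw [K5_ww]
    exact mul_ne_zero (ofReal_ne_zero.2 ha.ne') h
  · refine K5_eq (K5_polar (convex_Ico (0 : ℝ) (1 / 4)) (convex_Ioo (0 : ℝ) (1 / 4))
      Ico_subset_Ici_self (Ioo_subset_Ioi_self.trans Ioi_subset_Ici_self)) fun z => ?_
    exact ⟨fun h => ⟨⟨h.1.2, h.2.2⟩, norm_pos_iff.1 h.2.1⟩,
      fun h => ⟨⟨norm_nonneg _, h.1.1⟩, norm_pos_iff.2 h.2, h.1.2⟩⟩

theorem preconn_uu (hD : D.Ok) : IsPreconnected {z | z ∈ D.W .f ∧ uu z ≠ 0} := by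
  refine K5_cone hD (fun z a ha h => ?_) ?_
  · rw [K5_uu]
    exact mul_ne_zero (ofReal_ne_zero.2 ha.ne') h
  · refine K5_eq (K5_polar (convex_Ioo (0 : ℝ) (1 / 4)) (convex_Ico (0 : ℝ) (1 / 4))
      (Ioo_subset_Ioi_self.trans Ioi_subset_Ici_self) Ico_subset_Ici_self) fun z => ?_
    exact ⟨fun h => ⟨⟨h.1.2, h.2.2⟩, norm_pos_iff.1 h.1.1⟩,
      fun h => ⟨⟨norm_pos_iff.2 h.2, h.1.1⟩, norm_nonneg _, h.1.2⟩⟩

theorem isOpen_U0 (D : TD) : IsOpen D.U0 := by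
  have hc := contDiff_gz.continuous
  have h1 : Continuous fun z : E6 => |z (0, 0)| := by fun_prop
  have h2 : Continuous fun z : E6 => |z (0, 1) - 1 / 2| := by fun_prop
  exact (D.isOpen_W .m).inter ((isOpen_lt h1 continuous_const).inter
    ((isOpen_lt h2 continuous_const).inter (isOpen_lt (continuous_normSq.comp hc) continuous_const)))

theorem K5_gg {p : ℝ} (hp : |p| < 1 / 8) (r : ℝ) :
    normSq (gg p (1 / 2 + r)) = 1 - (1 - p ^ 2) * Real.cos (Real.pi * |r|) ^ 2 := by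
  have e : Real.pi * (1 / 2 + r) = Real.pi * r + Real.pi / 2 := by ring
  have e2 : Real.cos (Real.pi * |r|) = Real.cos (Real.pi * r) := by
    rw [← Real.cos_abs (Real.pi * r), abs_mul, abs_of_pos Real.pi_pos]
  rw [gg_eq_g0 (by linarith), normSq_g0, nu_eq hp.le, e, Real.cos_add_pi_div_two,
    Real.sin_add_pi_div_two, e2, neg_sq, Real.sin_sq]
  ring

theorem K5_ray {p r b : ℝ} (hp : |p| < 1 / 8) (hr : |r| < 1 / 4) (h0 : 0 ≤ b) (h1 : b ≤ 1) :
    normSq (gg (b * p) (1 / 2 + b * r)) ≤ normSq (gg p (1 / 2 + r)) := by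
  have a : ∀ x : ℝ, |b * x| ≤ |x| := fun x => by
    rw [abs_mul, abs_of_nonneg h0]
    exact mul_le_of_le_one_left (abs_nonneg x) h1
  have hpi := Real.pi_pos
  have r0 := abs_nonneg r
  have c0 : 0 ≤ Real.cos (Real.pi * |r|) :=
    Real.cos_nonneg_of_neg_pi_div_two_le_of_le (by nlinarith) (by nlinarith)
  have c1 : Real.cos (Real.pi * |r|) ≤ Real.cos (Real.pi * |b * r|) :=
    Real.cos_le_cos_of_nonneg_of_le_pi (by positivity) (by nlinarith)
      (mul_le_mul_of_nonneg_left (a r) hpi.le)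
  have p1 : (b * p) ^ 2 ≤ p ^ 2 := sq_le_sq.2 (a p)
  have p2 : p ^ 2 ≤ 1 := (sq_le_one_iff_abs_le_one p).2 (by linarith)
  rw [K5_gg hp, K5_gg ((a p).trans_lt hp)]
  exact sub_le_sub_left (mul_le_mul (by linarith) (pow_le_pow_left₀ c0 c1 2) (sq_nonneg _)
    (by linarith)) 1

theorem K5_star (hD : D.Ok) : mk 0 (1 / 2) 0 0 (-1 / 16) 0 ∈ D.U0 ∩ {z | z (2, 0) < 0} ∧
    StarConvex ℝ (mk 0 (1 / 2) 0 0 (-1 / 16) 0) (D.U0 ∩ {z | z (2, 0) < 0}) := by
  have h1 := hD.lo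
  have h2 := hD.hi
  have hd : D.dom (mk 0 (1 / 2) 0 0 (-1 / 16) 0 (0, 0)) (mk 0 (1 / 2) 0 0 (-1 / 16) 0 (2, 0)) := by
    rw [mk00, mk20]
    exact ⟨fun _ => by norm_num, h1, by linarith⟩
  have hn : mk 0 (1 / 2) 0 0 (-1 / 16) 0 (2, 0) < 0 := by
    rw [mk20]
    norm_num
  refine ⟨⟨⟨⟨hd, Or.inr hn⟩, by simp, by simp, ?_⟩, hn⟩, ?_⟩
  · rw [gz, mk00, mk01, gg_eq_zero_iff.2 ⟨⟨0, by simp⟩, 0, by simp⟩]
    simp
  · rintro z ⟨⟨hz, a1, a2, a3⟩, a4⟩ a b ha hb hab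
    have hb1 : b ≤ 1 := by linarith
    have e1 : (a • mk 0 (1 / 2) 0 0 (-1 / 16) 0 + b • z) (0, 0) = b * z (0, 0) := by simp
    have e2 : (a • mk 0 (1 / 2) 0 0 (-1 / 16) 0 + b • z) (0, 1) = 1 / 2 + b * (z (0, 1) - 1 / 2) := by
      simp only [Pi.add_apply, Pi.smul_apply, smul_eq_mul, mk01]
      linear_combination 1 / 2 * hab
    have e3 := K5_cvx (convex_Iio 0) (2, 0) hn a4 ha hb hab
    refine ⟨⟨⟨K5_dom D hd hz.1 ha hb hab, Or.inr e3⟩, ?_, ?_, ?_⟩, e3⟩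
    · rw [e1, abs_mul, abs_of_nonneg hb]
      exact (mul_le_of_le_one_left (abs_nonneg _) hb1).trans_lt a1
    · rw [e2, add_sub_cancel_left, abs_mul, abs_of_nonneg hb]
      exact (mul_le_of_le_one_left (abs_nonneg _) hb1).trans_lt a2
    · rw [gz, e1, e2]
      refine (K5_ray a1 a2 hb hb1).trans_lt ?_
      rw [add_sub_cancel]
      exact a3

theorem K5_segU (hD : D.Ok) : Seg D.U0 (setM (-1 / 16)) := by
  intro x hx s hs
  refine ⟨seg_m hD hD.lo (by norm_num) x hx.1 s hs, ?_⟩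
  rw [K5_segM, K5_M00, K5_M01, K5_Mgz]
  exact hx.2

theorem K5_mapsU (hD : D.Ok) : MapsTo (setM (-1 / 16)) D.U0 (D.U0 ∩ {z | z (2, 0) < 0}) := by
  intro x hx
  refine ⟨?_, ?_⟩
  · simpa only [one_smul, add_sub_cancel] using K5_segU hD x hx 1 ⟨zero_le_one, le_rfl⟩
  · rw [mem_ofPred_eq, K5_M20]
    norm_num

theorem preconn_U0 (hD : D.Ok) : IsPreconnected D.U0 :=
  preconn_seg (K5_mapsU hD) inter_subset_left (K5_segU hD)
    ((K5_star hD).2.isPathConnected (K5_star hD).1).isConnected.isPreconnected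

theorem RA_U0 (hD : D.Ok) : RA 1 D.U0 := by
  have ho : IsOpen (D.U0 ∩ {z | z (2, 0) < 0}) :=
    (isOpen_U0 D).inter (isOpen_lt (continuous_apply _) continuous_const)
  exact RA_seg (isOpen_U0 D) ho inter_subset_left (contDiff_setM _) (K5_mapsU hD) (K5_segU hD)
    (RA_star ho (K5_star hD).1 (K5_star hD).2 1)

end Pool.Agent.Work.MP_bf98aa_gt.Cy
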