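import Pool.Agent.Work.MP_bf98aa_gt.Cy.HDefs
import Pool.Agent.Work.MP_bf98aa_gt.Cy.K5

/-!
Geometry of the toric chart.

PLAN. Unfold `rot^[j]` for `j = 0, 1, 2` (`fin_cases j`, `rot_two`). On `DS j` the membership in `WI` amounts to linear inequalities (if `Y' < 7/4` on the neighbouring ray the
wedge inequality holds anyway), so `DS j` is convex. `WI ∩ rect j` is the union of the convex sets `p < -1/4`, `24 μ > Y`, `-24 μ > Y` (`RA_union_succ`, `RA_convex`; the last two are disjoint).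
`DU`: move `p` up to `0.7` (`preconn_seg`); `gz ≠ 0` there since `1/4 < p < 3/4` (`hm_bounds`).
-/

set_option autoImplicit false

open scoped Manifold ContDiff Topology
open Set Complex

namespace Pool.Agent.Work.MP_bf98aa_gt.Cy

open Pool.Agent.Work.MP_bf98aa_gt.Th

variable {z z' : E6} {j j' : Fin 3} {s : K3}

theorem rot_two (z : E6) : rot^[2] z = mk (-2 * z (0, 0) - z (2, 0)) (z (0, 1) - 3 * z (2, 1))
    (z (1, 0)) (z (1, 1)) (3 * z (0, 0) + z (2, 0)) (z (0, 1) - 2 * z (2, 1)) := by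
  refine ext6 ?_ ?_ ?_ ?_ ?_ ?_ <;> simp [rot] <;> ring

theorem rot_three (z : E6) : rot^[3] z = z := by
  rw [Function.iterate_succ_apply', rot_two]
  refine ext6 ?_ ?_ ?_ ?_ ?_ ?_ <;> simp [rot] <;> ring

theorem H1_mul (n : ℕ) (z : E6) : rot^[3 * n] z = z := by
  rw [Function.iterate_mul]
  exact Function.iterate_fixed (rot_three z) n

theorem H1_inv (n : ℕ) (z : E6) : rot^[2 * n] (rot^[n] z) = z ∧ rot^[n] (rot^[2 * n] z) = z := by
  rw [← Function.iterate_add_apply, ← Function.iterate_add_apply, add_comm n,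
    show 2 * n + n = 3 * n by ring]
  exact ⟨H1_mul n z, H1_mul n z⟩

theorem H1_add (i j : Fin 3) (z : E6) : rot^[(i + j : Fin 3)] z = rot^[i] (rot^[j] z) := by
  rw [← Function.iterate_add_apply, Fin.val_add]
  conv_rhs => rw [← Nat.mod_add_div (i + j) 3, Function.iterate_add_apply, H1_mul]

theorem exists_rotL (n : ℕ) : ∃ L : E6 →L[ℝ] E6, ∀ z, rot^[n] z = L z := by
  induction n with
  | zero => exact ⟨.id ℝ _, fun _ => rfl⟩
  | succ n ih =>
    obtain ⟨L, hL⟩ := ih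
    let R : E6 →ₗ[ℝ] E6 :=
      { toFun := rot
        map_add' := fun x y => by refine ext6 ?_ ?_ ?_ ?_ ?_ ?_ <;> simp [rot] <;> ring
        map_smul' := fun c x => by refine ext6 ?_ ?_ ?_ ?_ ?_ ?_ <;> simp [rot] <;> ring }
    exact ⟨L.comp (LinearMap.toContinuousLinearMap R), fun z => hL (rot z)⟩

theorem contDiff_rot (n : ℕ) : ContDiff ℝ ∞ rot^[n] := by
  obtain ⟨L, hL⟩ := exists_rotL n
  rw [show rot^[n] = L from funext hL]
  exact L.contDiff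

theorem rot_10 (n : ℕ) (z : E6) : rot^[n] z (1, 0) = z (1, 0) ∧ rot^[n] z (1, 1) = z (1, 1) := by
  induction n with
  | zero => exact ⟨rfl, rfl⟩
  | succ n ih =>
    rw [Function.iterate_succ_apply']
    exact ih

theorem H1_sh_eq (t : ℝ) (z : E6) : sh t z = z + mk t 0 0 0 0 0 := by
  refine ext6 ?_ ?_ ?_ ?_ ?_ ?_ <;> simp [sh]

theorem H1_sh (t : ℝ) : ContDiff ℝ ∞ (sh t) := by
  rw [show sh t = fun z => z + mk t 0 0 0 0 0 from funext (H1_sh_eq t)]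
  exact contDiff_id.add contDiff_const

theorem H1_shsh (t : ℝ) (z : E6) : sh (-t) (sh t z) = z := by
  refine ext6 ?_ ?_ ?_ ?_ ?_ ?_ <;> simp [sh]

theorem H1_rLL' (j : Fin 3) (z : E6) : rot^[j] (LL' j z) = sh 2 z := by
  rw [LL', ← Function.iterate_add_apply, show (j : ℕ) + (3 - j) = 3 by omega, rot_three]

theorem H1_L0 (j : Fin 3) (z : E6) : LL j z (0, 0) = rot^[j] z (0, 0) - 2 := by
  simp [LL, sh, sub_eq_add_neg]

theorem H1_L2 (j : Fin 3) (z : E6) : LL j z (2, 0) = rot^[j] z (2, 0) := rfl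

theorem contDiff_LL (j : Fin 3) : ContDiff ℝ ∞ (LL j) := (H1_sh (-2)).comp (contDiff_rot j)

theorem contDiff_LL' (j : Fin 3) : ContDiff ℝ ∞ (LL' j) := (contDiff_rot _).comp (H1_sh 2)

theorem LL_LL' (j : Fin 3) (z : E6) : LL j (LL' j z) = z := by rw [LL, H1_rLL', H1_shsh]

theorem LL'_LL (j : Fin 3) (z : E6) : LL' j (LL j z) = z := by
  have h := H1_shsh (-2) (rot^[j] z)
  rw [neg_neg] at h
  rw [LL', LL, h, ← Function.iterate_add_apply, show (3 - j) + (j : ℕ) = 3 by omega, rot_three]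

theorem RS00_iff : RS 0 0 z z' ↔ Lat4 (z' - z) := by
  constructor
  · rintro ⟨_, ⟨m₀, m₁, n₀, n₁, l, rfl⟩, rfl⟩
    refine ⟨by simp [hact], by simp [hact], fun ⟨i, k⟩ => ?_⟩
    fin_cases i <;> fin_cases k
    exacts [⟨0, by simp [hact]⟩, ⟨n₀, by simp [hact]⟩, ⟨m₁, by simp [hact]⟩, ⟨n₁, by simp [hact]⟩,
      ⟨0, by simp [hact]⟩, ⟨l, by simp [hact]⟩]
  · rintro ⟨h0, h2, h⟩
    choose n hn using h
    simp only [Pi.sub_apply] at h0 h2 hn
    refine ⟨_, ⟨0, n (1, 0), n (0, 1), n (1, 1), n (2, 1), rfl⟩, ?_⟩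
    refine ext6 ?_ ?_ ?_ ?_ ?_ ?_ <;> simp [hact, ← hn] <;> linarith

theorem H1_lat (n : ℕ) {a : E6} (h : Lat4 a) : Lat4 (rot^[n] a) := by
  induction n with
  | zero => exact h
  | succ n ih =>
    rw [Function.iterate_succ_apply']
    obtain ⟨h0, h2, h⟩ := ih
    choose m hm using h
    refine ⟨by simp [rot, h0, h2], by simp [rot, h0, h2], fun ⟨i, k⟩ => ?_⟩
    fin_cases i <;> fin_cases k
    exacts [⟨0, by simp [rot, h0, h2]⟩, ⟨-2 * m (0, 1) + 3 * m (2, 1), by simp [rot, hm]⟩,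
      ⟨m (1, 0), by simp [rot, hm]⟩, ⟨m (1, 1), by simp [rot, hm]⟩, ⟨0, by simp [rot, h0, h2]⟩,
      ⟨-m (0, 1) + m (2, 1), by simp [rot, hm]⟩]

theorem RS_rot (n : ℕ) : RS 0 0 (rot^[n] z) (rot^[n] z') ↔ RS 0 0 z z' := by
  obtain ⟨L, hL⟩ := exists_rotL n
  rw [RS00_iff, RS00_iff, hL, hL, ← map_sub, ← hL]
  exact ⟨fun h => (H1_inv n (z' - z)).1 ▸ H1_lat _ h, H1_lat n⟩

theorem RS_LL (j : Fin 3) : RS 0 0 (LL j z) (LL j z') ↔ RS 0 0 z z' := by
  rw [← RS_rot (z := z) j, RS00_iff, RS00_iff, LL, LL, H1_sh_eq, H1_sh_eq,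
    add_sub_add_right_eq_sub]

theorem rot_mem_WI (n : ℕ) : rot^[n] z ∈ WI ↔ z ∈ WI := by
  induction n with
  | zero => rfl
  | succ n ih =>
    rw [Function.iterate_succ_apply', ← ih]
    simp only [WI, mem_ofPred_eq, Fin.forall_fin_succ, IsEmpty.forall_iff, and_true]
    have h : rot^[2] (rot (rot^[n] z)) = rot^[n] z := rot_three _
    exact ⟨fun ⟨h0, h1, h2⟩ => ⟨h ▸ h2, h0, h1⟩, fun ⟨h0, h1, h2⟩ => ⟨h1, h2, h.symm ▸ h0⟩⟩

theorem H1_rc (h0 : z' (0, 0) = z (0, 0)) (h2 : z' (2, 0) = z (2, 0)) (n : ℕ) :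
    rot^[n] z' (0, 0) = rot^[n] z (0, 0) ∧ rot^[n] z' (2, 0) = rot^[n] z (2, 0) := by
  induction n with
  | zero => exact ⟨h0, h2⟩
  | succ n ih => simp [Function.iterate_succ_apply', rot, ih.1, ih.2]

theorem H1_WI : z ∈ WI ↔
    (z (0, 0) < 11 / 4 ∧ (z (0, 0) < 7 / 4 ∨ z (0, 0) < 24 * |z (2, 0)|)) ∧
    (z (0, 0) + z (2, 0) < 11 / 4 ∧ (z (0, 0) + z (2, 0) < 7 / 4 ∨
      z (0, 0) + z (2, 0) < 24 * |-3 * z (0, 0) - 2 * z (2, 0)|)) ∧
    (-2 * z (0, 0) - z (2, 0) < 11 / 4 ∧ (-2 * z (0, 0) - z (2, 0) < 7 / 4 ∨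
      -2 * z (0, 0) - z (2, 0) < 24 * |3 * z (0, 0) + z (2, 0)|)) := by
  simp only [WI, mem_ofPred_eq, Fin.forall_fin_succ, IsEmpty.forall_iff, and_true]
  have h := rot_two z
  exact and_congr Iff.rfl (and_congr Iff.rfl (by
    rw [show rot^[((Fin.succ (Fin.succ 0) : Fin 3) : ℕ)] z = _ from h, mk00, mk20]))

theorem mem_WI_congr (h0 : z' (0, 0) = z (0, 0)) (h2 : z' (2, 0) = z (2, 0)) (h : z ∈ WI) : z' ∈ WI :=   fun j => by
  rw [(H1_rc h0 h2 j).1, (H1_rc h0 h2 j).2]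
  exact h j

theorem TN_ok : TN.Ok := ⟨Or.inl rfl, by norm_num [TN], by norm_num [TN]⟩

theorem TN_As (s : K3) : TN.As s = 0 := by
  cases s
  · rfl
  · ext i k
    fin_cases i <;> fin_cases k <;> simp [TD.As, TN]
  · rfl

theorem H1_c (n : ℕ) (i : Cx) : Continuous fun z => rot^[n] z i :=
  (continuous_apply i).comp (contDiff_rot n).continuous

theorem H1_dom {p μ : ℝ} : TN.dom p μ ↔ (-1 / 2 < p ∧ p < 3 / 4) ∧ -1 / 8 < μ ∧ μ < 1 / 8 := by
  simp [TD.dom, TN]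

/-- Finitely many linear inequalities in rotated coordinates. -/
def H1_cv (n : ℕ) (l : List (ℝ × ℝ × ℝ)) : Set E6 :=
  {z | ∀ t ∈ l, t.1 * rot^[n] z (0, 0) + t.2.1 * rot^[n] z (2, 0) < t.2.2}

theorem H1_cv_convex (n : ℕ) (l : List (ℝ × ℝ × ℝ)) : Convex ℝ (H1_cv n l) := by
  obtain ⟨L, hL⟩ := exists_rotL n
  simp only [H1_cv, ofPred_forall, hL]
  refine convex_iInter fun t => convex_iInter fun _ => convex_halfSpace_lt ⟨?_, ?_⟩ _
  · intro x y
    simp only [map_add, Pi.add_apply]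
    ring
  · intro c x
    simp only [map_smul, Pi.smul_apply, smul_eq_mul]
    ring

theorem H1_cv_open (n : ℕ) (l : List (ℝ × ℝ × ℝ)) : IsOpen (H1_cv n l) := by
  simp only [H1_cv, ofPred_forall]
  exact l.finite_toSet.isOpen_biInter fun t _ => isOpen_lt
    ((continuous_const.mul (H1_c n _)).add (continuous_const.mul (H1_c n _))) continuous_const

/-- A convex piece of the rectangle. -/
def H1_C (n : ℕ) (a b c : ℝ) : Set E6 :=
  H1_cv n [(-1, 0, -3 / 2), (1, 0, 11 / 4), (0, -1, 1 / 8), (0, 1, 1 / 8), (1, 1, 11 / 4), (a, b, c)]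

theorem H1_memC {n : ℕ} {a b c : ℝ} : z ∈ H1_C n a b c ↔ 3 / 2 < rot^[n] z (0, 0) ∧
    rot^[n] z (0, 0) < 11 / 4 ∧ -1 / 8 < rot^[n] z (2, 0) ∧ rot^[n] z (2, 0) < 1 / 8 ∧
    rot^[n] z (0, 0) + rot^[n] z (2, 0) < 11 / 4 ∧
    a * rot^[n] z (0, 0) + b * rot^[n] z (2, 0) < c := by
  simp only [H1_C, H1_cv, mem_ofPred_eq, List.forall_mem_cons, List.not_mem_nil, IsEmpty.forall_iff,
    implies_true, and_true]
  refine and_congr ?_ (and_congr ?_ (and_congr ?_ (and_congr ?_ (and_congr ?_ Iff.rfl)))) <;>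
    constructor <;> intro h <;> linarith

theorem H1_rect (j : Fin 3) : {z | z ∈ WI ∧ TN.dom (LL j z (0, 0)) (LL j z (2, 0))} =
    (H1_C j 1 0 (7 / 4) ∪ H1_C j 1 (-24) 0) ∪ H1_C j 1 24 0 := by
  ext z
  rw [mem_ofPred_eq, ← rot_mem_WI j, H1_WI, H1_dom, H1_L0, H1_L2]
  simp only [mem_union, H1_memC]
  generalize rot^[j] z (0, 0) = a
  generalize rot^[j] z (2, 0) = b
  constructor
  · rintro ⟨⟨⟨h1, h2⟩, ⟨h3, -⟩, -⟩, ⟨h4, -⟩, h5, h6⟩
    have h7 : 3 / 2 < a := by linarith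
    rcases h2 with h2 | h2
    · exact Or.inl (Or.inl ⟨h7, h1, h5, h6, h3, by linarith⟩)
    · rcases abs_cases b with h8 | h8
      · exact Or.inl (Or.inr ⟨h7, h1, h5, h6, h3, by linarith [h8.1]⟩)
      · exact Or.inr ⟨h7, h1, h5, h6, h3, by linarith [h8.1]⟩
  · intro h
    have h0 : (3 / 2 < a ∧ a < 11 / 4 ∧ -1 / 8 < b ∧ b < 1 / 8 ∧ a + b < 11 / 4) ∧
        (a < 7 / 4 ∨ a < 24 * |b|) := by
      rcases h with (⟨h1, h2, h3, h4, h5, h6⟩ | ⟨h1, h2, h3, h4, h5, h6⟩) | ⟨h1, h2, h3, h4, h5, h6⟩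
      · exact ⟨⟨h1, h2, h3, h4, h5⟩, Or.inl (by linarith)⟩
      · exact ⟨⟨h1, h2, h3, h4, h5⟩, Or.inr (by linarith [le_abs_self b])⟩
      · exact ⟨⟨h1, h2, h3, h4, h5⟩, Or.inr (by linarith [neg_abs_le b])⟩
    obtain ⟨⟨h1, h2, h3, h4, h5⟩, h6⟩ := h0
    exact ⟨⟨⟨h2, h6⟩, ⟨h5, Or.inr (by linarith [neg_abs_le (-3 * a - 2 * b)])⟩,
      by linarith, Or.inl (by linarith)⟩, ⟨by linarith, by linarith⟩, h3, h4⟩

theorem H1_DI : z ∈ DI j s ↔ s ≠ .f ∧ z ∈ H1_C j 1 0 (7 / 4) ∪ H1_C j 1 (-24 * sg s) 0 := by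
  have hr := Set.ext_iff.1 (H1_rect j) z
  have hg : TN.dom (LL j z (0, 0)) (LL j z (2, 0)) → LL j z (0, 0) < -1 / 4 → gz (LL j z) ≠ 0 :=
    fun h h' => by
      rw [gz, gg_left (by linarith [(H1_dom.1 h).1.1]) h'.le]
      exact one_ne_zero
  simp only [mem_ofPred_eq, mem_union, H1_memC] at hr ⊢
  cases s
  · simp only [DI, TD.W, sg, mem_ofPred_eq, ne_eq, reduceCtorEq, not_false_eq_true, true_and]
    constructor
    · rintro ⟨h1, ⟨h2, -⟩, h3⟩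
      rw [H1_L0, H1_L2] at h3
      rcases hr.1 ⟨h1, h2⟩ with (h | ⟨k1, k2, k3, k4, k5, k6⟩) | ⟨k1, k2, k3, k4, k5, k6⟩
      · exact Or.inl h
      · exact Or.inl ⟨k1, k2, k3, k4, k5, by rcases h3 with h3 | h3 <;> linarith⟩
      · exact Or.inr ⟨k1, k2, k3, k4, k5, by linarith⟩
    · rintro (h | ⟨k1, k2, k3, k4, k5, k6⟩)
      · obtain ⟨h1, h2⟩ := hr.2 (Or.inl (Or.inl h))
        have h3 : LL j z (0, 0) < -1 / 4 := by rw [H1_L0]; linarith [h.2.2.2.2.2]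
        exact ⟨h1, ⟨h2, Or.inl (hg h2 h3)⟩, Or.inl h3⟩
      · obtain ⟨h1, h2⟩ := hr.2 (Or.inr ⟨k1, k2, k3, k4, k5, by linarith⟩)
        exact ⟨h1, ⟨h2, Or.inr (by rw [H1_L2]; linarith)⟩, Or.inr (by rw [H1_L2]; linarith)⟩
  · simp only [DI, TD.W, sg, mem_ofPred_eq, ne_eq, reduceCtorEq, not_false_eq_true, true_and]
    constructor
    · rintro ⟨h1, ⟨h2, -⟩, h3⟩
      rw [H1_L0, H1_L2] at h3
      rcases hr.1 ⟨h1, h2⟩ with (h | ⟨k1, k2, k3, k4, k5, k6⟩) | ⟨k1, k2, k3, k4, k5, k6⟩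
      · exact Or.inl h
      · exact Or.inr ⟨k1, k2, k3, k4, k5, by linarith⟩
      · exact Or.inl ⟨k1, k2, k3, k4, k5, by rcases h3 with h3 | h3 <;> linarith⟩
    · rintro (h | ⟨k1, k2, k3, k4, k5, k6⟩)
      · obtain ⟨h1, h2⟩ := hr.2 (Or.inl (Or.inl h))
        have h3 : LL j z (0, 0) < -1 / 4 := by rw [H1_L0]; linarith [h.2.2.2.2.2]
        exact ⟨h1, ⟨h2, Or.inl (hg h2 h3)⟩, Or.inl h3⟩
      · obtain ⟨h1, h2⟩ := hr.2 (Or.inl (Or.inr ⟨k1, k2, k3, k4, k5, by linarith⟩))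
        exact ⟨h1, ⟨h2, Or.inr (by rw [H1_L2]; linarith)⟩, Or.inr (by rw [H1_L2]; linarith)⟩
  · simp [DI]

theorem H1_DS (j : Fin 3) : DS j =
    H1_cv j [(-1, 0, -5 / 2), (1, 0, 11 / 4), (1, 24, 0), (-2, -1, 11 / 4), (-74, -25, 0)] := by
  ext z
  simp only [DS, H1_cv, mem_ofPred_eq, List.forall_mem_cons, List.not_mem_nil, IsEmpty.forall_iff,
    implies_true, and_true]
  rw [← rot_mem_WI j, H1_WI]
  generalize rot^[j] z (0, 0) = a
  generalize rot^[j] z (2, 0) = b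
  constructor
  · rintro ⟨⟨⟨h1, h2⟩, -, h3, h4⟩, h5, h6, h7⟩
    rw [abs_of_neg h6] at h2
    rw [abs_of_pos (by linarith : 0 < 3 * a + b)] at h4
    exact ⟨by linarith, by linarith, by rcases h2 with h | h <;> linarith, by linarith,
      by rcases h4 with h | h <;> linarith⟩
  · rintro ⟨h1, h2, h3, h4, h5⟩
    refine ⟨⟨⟨by linarith, Or.inr (by linarith [neg_abs_le b])⟩, ⟨by linarith, ?_⟩, by linarith,
      Or.inr (by linarith [le_abs_self (3 * a + b)])⟩, by linarith, by linarith, by linarith⟩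
    by_cases h : a + b < 7 / 4
    · exact Or.inl h
    · exact Or.inr (by linarith [neg_abs_le (-3 * a - 2 * b)])

theorem H1_pt (n : ℕ) {e : ℝ} (he : e = 1 ∨ e = -1) :
    ∃ z, z ∈ H1_C n 1 0 (7 / 4) ∧ z ∈ H1_C n 1 (-24 * e) 0 := by
  refine ⟨rot^[2 * n] (mk (8 / 5) 0 0 0 (e / 10) 0), ?_⟩
  simp only [H1_memC, (H1_inv n _).2, mk00, mk20]
  rcases he with rfl | rfl <;> norm_num

theorem isOpen_WI : IsOpen WI := by
  rw [WI, ofPred_forall]
  refine isOpen_iInter_of_finite fun j => ?_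
  exact (isOpen_lt (H1_c j _) continuous_const).inter ((isOpen_lt (H1_c j _) continuous_const).union
    (isOpen_lt (H1_c j _) (continuous_const.mul (H1_c j _).abs)))

theorem isOpen_DI (j : Fin 3) (s : K3) : IsOpen (DI j s) :=   isOpen_WI.inter (isOpen_const.inter (((TN.isOpen_W s).preimage (contDiff_LL j).continuous).inter
    ((isOpen_lt ((continuous_apply _).comp (contDiff_LL j).continuous) continuous_const).union
      (isOpen_lt continuous_const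
        (continuous_const.mul ((continuous_apply _).comp (contDiff_LL j).continuous))))))

theorem isOpen_DS (j : Fin 3) : IsOpen (DS j) := H1_DS j ▸ H1_cv_open _ _

theorem isOpen_DU : IsOpen DU :=   (TN.isOpen_W .m).inter (isOpen_lt continuous_const
    ((continuous_apply _).add (contDiff_hinf.continuous.comp (continuous_apply _))))

theorem starConvex_WI : (0 : E6) ∈ WI ∧ StarConvex ℝ 0 WI := by
  refine ⟨by norm_num [H1_WI], fun z hz a t _ ht h1 j => ?_⟩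
  obtain ⟨L, hL⟩ := exists_rotL j
  obtain ⟨h2, h3⟩ := hz j
  have h4 : t ≤ 1 := by linarith
  rw [smul_zero, zero_add, hL, map_smul, ← hL, Pi.smul_apply, Pi.smul_apply, smul_eq_mul,
    smul_eq_mul, abs_mul, abs_of_nonneg ht]
  have h5 : ∀ x c : ℝ, 0 < c → x < c → t * x < c := fun x c hc hx => by
    have := K5_lt (s := t) ⟨ht, h4⟩ hc hx
    linarith
  refine ⟨h5 _ _ (by norm_num) h2, ?_⟩
  rcases h3 with h3 | h3
  · exact Or.inl (h5 _ _ (by norm_num) h3)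
  · rcases ht.eq_or_lt with rfl | ht
    · exact Or.inl (by norm_num)
    · exact Or.inr (by nlinarith)

theorem convex_DS (j : Fin 3) : Convex ℝ (DS j) := H1_DS j ▸ H1_cv_convex _ _

theorem H1_hinf {μ : ℝ} (h : μ < 1 / 8) : hinf μ < 1 / 4 := by
  have h1 := (hm_bounds zero_le_one μ).2
  have h2 : max μ 0 < 1 / 8 := max_lt h (by norm_num)
  rw [hinf]
  linarith

theorem H1_DU (h : TN.dom (z (0, 0)) (z (2, 0))) (h' : 1 / 2 < z (0, 0) + hinf (z (2, 0))) :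
    z ∈ DU := by
  have h1 := H1_dom.1 h
  refine ⟨⟨h, Or.inl ?_⟩, h'⟩
  rw [gz, gg_right (by linarith [H1_hinf h1.2.2]) h1.1.2.le]
  exact ee_ne_zero _

theorem preconn_DU : IsPreconnected DU := by
  have n3 : ((2, 0) : Cx) ≠ (0, 0) := by decide
  have h0 : ∀ μ, 0 ≤ hinf μ := fun μ => (le_max_right _ _).trans (hm_bounds zero_le_one μ).1
  refine preconn_seg (π := fun z => Function.update z (0, 0) (7 / 10)) ?_ ?_ ?_
    ((K5_dom TN).inter (K5_cvx (convex_singleton (7 / 10)) (0, 0))).isPreconnected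
  · intro z hz
    refine ⟨?_, Function.update_self _ _ _⟩
    simp only [mem_ofPred_eq, Function.update_self, Function.update_of_ne n3]
    exact ⟨fun _ => by norm_num, hz.1.1.2⟩
  · intro z hz
    have h : z (0, 0) = 7 / 10 := hz.2
    exact H1_DU hz.1 (by linarith [h0 (z (2, 0))])
  · intro z hz s hs
    have h1 := H1_dom.1 hz.1.1
    refine H1_DU ?_ ?_ <;> rw [K5_upd, Function.update_self, Function.update_of_ne n3]
    · exact H1_dom.2 ⟨⟨K5_gt hs h1.1.1 (by norm_num), K5_lt hs h1.1.2 (by norm_num)⟩, h1.2⟩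
    · have := K5_gt hs hz.2 (show 1 / 2 < 7 / 10 + hinf (z (2, 0)) by linarith [h0 (z (2, 0))])
      linarith

theorem preconn_DI (j : Fin 3) (s : K3) : IsPreconnected (DI j s) := by
  by_cases hs : s = .f
  · rw [show DI j s = ∅ from eq_empty_of_forall_notMem fun z hz => hz.2.1 hs]
    exact isPreconnected_empty
  obtain ⟨z, h1, h2⟩ := H1_pt j (e := sg s) (by cases s <;> simp_all [sg])
  exact K5_eq ((H1_cv_convex _ _).isPreconnected.union z h1 h2 (H1_cv_convex _ _).isPreconnected)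
    fun z => by rw [H1_DI, and_iff_right hs]

theorem DU_bounds (h : z ∈ DU) : 1 / 4 < z (0, 0) ∧ z (0, 0) < 3 / 4 ∧ |z (2, 0)| < 1 / 8 ∧
    z (0, 0) + hinf (z (2, 0)) < 1 := by
  have h1 := H1_dom.1 h.1.1
  have h2 := H1_hinf h1.2.2
  exact ⟨by linarith [h.2], h1.1.2, abs_lt.2 ⟨by linarith [h1.2.1], h1.2.2⟩, by linarith [h1.1.2]⟩

theorem rect_unique (h : TN.dom (LL j z (0, 0)) (LL j z (2, 0)))
    (h' : TN.dom (LL j' z (0, 0)) (LL j' z (2, 0))) : j = j' := by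
  rw [H1_dom, H1_L0, H1_L2] at h h'
  obtain ⟨⟨h1, h2⟩, h3, h4⟩ := h
  obtain ⟨⟨k1, k2⟩, k3, k4⟩ := h'
  fin_cases j <;> fin_cases j' <;> first | rfl | (simp [rot] at *; linarith)

theorem DI_of_rect (hz : z ∈ WI) (h : TN.dom (LL j z (0, 0)) (LL j z (2, 0))) : ∃ s, z ∈ DI j s := by
  rcases (Set.ext_iff.1 (H1_rect j) z).1 ⟨hz, h⟩ with (h | h) | h
  · exact ⟨.p, H1_DI.2 ⟨by simp, Or.inl h⟩⟩
  · exact ⟨.p, H1_DI.2 ⟨by simp, Or.inr (by simpa [sg] using h)⟩⟩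
  · exact ⟨.m, H1_DI.2 ⟨by simp, Or.inr (by simpa [sg] using h)⟩⟩

theorem DI_cases (h : z ∈ DI j s) :
    LL j z (0, 0) < -1 / 4 ∨ 1 / 16 < sg s * LL j z (2, 0) := by
  rw [H1_L0, H1_L2]
  rcases (H1_DI.1 h).2 with h | h <;> obtain ⟨h1, -, -, -, -, h2⟩ := H1_memC.1 h
  · exact Or.inl (by linarith)
  · exact Or.inr (by linarith)

theorem DI_congr (h0 : z' (0, 0) = z (0, 0)) (h2 : z' (2, 0) = z (2, 0)) (h : z ∈ DI j s) :
    z' ∈ DI j s := by
  simpa only [H1_DI, mem_union, H1_memC, (H1_rc h0 h2 j).1, (H1_rc h0 h2 j).2] using h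

theorem LL'_mem_DI (hs : s ≠ .f) (h : TN.dom (z (0, 0)) (z (2, 0)))
    (h' : z (0, 0) < -1 / 4 ∨ (2 + z (0, 0) < 24 * (sg s * z (2, 0)) ∧
      2 + z (0, 0) + max (z (2, 0)) 0 < 11 / 4)) : LL' j z ∈ DI j s := by
  obtain ⟨⟨h1, h2⟩, h3, h4⟩ := H1_dom.1 h
  simp only [H1_DI, mem_union, H1_memC, H1_rLL', sh, mk00, mk20]
  refine ⟨hs, h'.imp (fun k => ?_) fun k => ?_⟩
  · exact ⟨by linarith, by linarith, h3, h4, by linarith, by linarith⟩
  · exact ⟨by linarith, by linarith, h3, h4, by linarith [k.2, le_max_left (z (2, 0)) 0],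
      by linarith [k.1]⟩

theorem DS_unique (h : z ∈ DS j) (h' : z ∈ DS j') : j = j' := by
  obtain ⟨-, h1, h2, h3⟩ := h
  obtain ⟨-, k1, k2, k3⟩ := h'
  fin_cases j <;> fin_cases j' <;> first | rfl | (simp [rot] at *; linarith)

theorem H1_lev (hz : z ∈ WI) (h : 5 / 2 < z (0, 0)) : ∃ j, z ∈ DS j := by
  obtain ⟨⟨-, h1⟩, -, -, h2⟩ := H1_WI.1 hz
  rcases lt_trichotomy (z (2, 0)) 0 with h3 | h3 | h3
  · rcases lt_trichotomy (3 * z (0, 0) + z (2, 0)) 0 with h4 | h4 | h4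
    · refine ⟨2, hz, ?_⟩
      rw [show rot^[((2 : Fin 3) : ℕ)] z = _ from rot_two z, mk00, mk20]
      exact ⟨by linarith, h4, by linarith⟩
    · rw [h4, abs_zero] at h2
      rcases h2 with h2 | h2 <;> linarith
    · exact ⟨0, hz, h, h3, show -3 * z (0, 0) < z (2, 0) by linarith⟩
  · rw [h3, abs_zero] at h1
    rcases h1 with h1 | h1 <;> linarith
  · refine ⟨1, hz, ?_⟩
    rw [show rot^[((1 : Fin 3) : ℕ)] z = rot z from rfl, rot, mk00, mk20]
    exact ⟨by linarith, by linarith, by linarith⟩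

theorem DS_of_level (hz : z ∈ WI) (h : ∃ j : Fin 3, 5 / 2 < rot^[j] z (0, 0)) : ∃ j, z ∈ DS j := by
  obtain ⟨j, hj⟩ := h
  obtain ⟨i, -, h⟩ := H1_lev ((rot_mem_WI j).2 hz) hj
  exact ⟨i + j, hz, by simpa only [H1_add] using h⟩

theorem RA_rect (j : Fin 3) :
    RA 1 {z | z ∈ WI ∧ TN.dom (LL j z (0, 0)) (LL j z (2, 0))} := by
  have o : ∀ a b c, IsOpen (H1_C j a b c) := fun _ _ _ => H1_cv_open _ _
  have v : ∀ a b c, Convex ℝ (H1_C j a b c) := fun _ _ _ => H1_cv_convex _ _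
  rw [H1_rect]
  refine RA_union_succ ((o ..).union (o ..)) (o ..) (RA_union_succ (o ..) (o ..)
    (RA_convex (o ..) (v ..) 1) (RA_convex (o ..) (v ..) 1)
    (RA_convex ((o ..).inter (o ..)) ((v ..).inter (v ..)) 0)) (RA_convex (o ..) (v ..) 1) ?_
  rw [union_inter_distrib_right, show H1_C j 1 (-24) 0 ∩ H1_C j 1 24 0 = ∅ from
    eq_empty_of_forall_notMem fun z hz => by
      linarith [(H1_memC.1 hz.1).1, (H1_memC.1 hz.1).2.2.2.2.2, (H1_memC.1 hz.2).2.2.2.2.2],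
    union_empty]
  exact RA_convex ((o ..).inter (o ..)) ((v ..).inter (v ..)) 0

theorem preconn_rect (j : Fin 3) :
    IsPreconnected {z | z ∈ WI ∧ TN.dom (LL j z (0, 0)) (LL j z (2, 0))} := by
  obtain ⟨x, x1, x2⟩ := H1_pt j (Or.inl rfl)
  obtain ⟨y, y1, y2⟩ := H1_pt j (Or.inr rfl)
  rw [mul_one] at x2
  rw [show (-24 : ℝ) * -1 = 24 by norm_num] at y2
  rw [H1_rect]
  exact ((H1_cv_convex _ _).isPreconnected.union x x1 x2 (H1_cv_convex _ _).isPreconnected).union y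
    (Or.inl y1) y2 (H1_cv_convex _ _).isPreconnected


end Pool.Agent.Work.MP_bf98aa_gt.Cy
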