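import Pool.Agent.Work.MP_bf98aa_gt.Cy.H1

/-!
The coordinates of a half; the maps to the outer chart.

PLAN. `La` is linear with inverse `La'` (`du`, `dw`); the twist `mᵀ A y` is invariant. `SS`, `UU`, `SU`: compare `r` (last base coordinate), then `x₁ = X / (9 r) - j / 3` modulo integers
(`0 < X / (9 r) < 1/3` on a sector, `|X / (9 r)| < 1 / 180` on a strip), then the angles. In `SU` the case `μ < 0` has `j' = j` and `s = m` (`RN_iff_RS`), the case `μ > 0` has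
`j' = j + 1`, `s = p`, `gz = ee q` (`gg_right`, `io_mp'`), `hinf μ = max μ 0` (`hm_eq`); for `j = 2` the deck transformation with `m₀ = ± 1` is used.
-/

set_option autoImplicit false

open scoped Manifold ContDiff Topology
open Set Complex

namespace Pool.Agent.Work.MP_bf98aa_gt.Cy

open Pool.Agent.Work.MP_bf98aa_gt.Th

variable {d : HD} {z z' : E6} {j j' : Fin 3}

theorem HD.contDiff_La (d : HD) : ContDiff ℝ ∞ d.La :=
  contDiff_iff_contDiffAt.2 fun _ => K4_mk (by fun_prop) (by fun_prop) (by fun_prop) (by fun_prop)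
    (by fun_prop) (by fun_prop)

theorem HD.contDiff_La' (d : HD) : ContDiff ℝ ∞ d.La' :=
  contDiff_iff_contDiffAt.2 fun _ => K4_mk (by fun_prop) (by fun_prop) (by fun_prop) (by fun_prop)
    (by fun_prop) (by fun_prop)

theorem HD.exists_LaL (d : HD) : ∃ L : E6 →L[ℝ] E6, ∀ z, d.La z = L z := by
  refine ⟨LinearMap.toContinuousLinearMap
    { toFun := d.La, map_add' := fun x y => ?_, map_smul' := fun c x => ?_ }, fun z => rfl⟩
  · refine ext6 ?_ ?_ ?_ ?_ ?_ ?_ <;> simp [HD.La] <;> ring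
  · refine ext6 ?_ ?_ ?_ ?_ ?_ ?_ <;> simp [HD.La] <;> ring

theorem H2_du (h : d.Ok) : (d.u 0 : ℝ) * d.u' 1 - d.u 1 * d.u' 0 = 1 := by exact_mod_cast h.du

theorem H2_dw (h : d.Ok) : (d.w 0 : ℝ) * d.w' 1 - d.w 1 * d.w' 0 = 1 := by exact_mod_cast h.dw

theorem La_La' (h : d.Ok) (z : E6) : d.La (d.La' z) = z := by
  have hu := H2_du h
  have hw := H2_dw h
  refine ext6 ?_ ?_ ?_ ?_ rfl rfl <;> simp only [HD.La, HD.La', mk00, mk01, mk10, mk11]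
  · linear_combination z (0, 0) * hu
  · linear_combination z (0, 1) * hw
  · linear_combination z (1, 0) * hu
  · linear_combination z (1, 1) * hw

theorem La'_La (h : d.Ok) (z : E6) : d.La' (d.La z) = z := by
  have hu := H2_du h
  have hw := H2_dw h
  refine ext6 ?_ ?_ ?_ ?_ rfl rfl <;> simp only [HD.La, HD.La', mk00, mk01, mk10, mk11]
  · linear_combination z (0, 0) * hu
  · linear_combination z (0, 1) * hw
  · linear_combination z (1, 0) * hu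
  · linear_combination z (1, 1) * hw

theorem TK_ok (h : d.Ok) : d.TK.Ok := by
  have := h.ha
  refine ⟨Or.inr rfl, ?_, ?_⟩
  · change 5 / 2 - d.a / 9 < -1 / 16
    linarith
  · change (1 : ℝ) / 16 < 15 / 16
    norm_num

theorem TK_A11 (h : d.Ok) : d.TK.A 1 1 ≠ 0 := by
  change 9 * -d.u 1 * -d.w 1 ≠ 0
  simp [h.u1, h.w1]

theorem γK_11 (h : d.Ok) : d.γK 1 1 = d.a * (d.u 1 * d.w 1) + d.β * (d.u 0 * d.w 0) ∧
    0 < d.γK 1 1 := by
  have e : d.γK 1 1 = d.a * (d.u 1 * d.w 1) + d.β * (d.u 0 * d.w 0) := by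
    simp [HD.γK]
  refine ⟨e, ?_⟩
  rw [e]
  simpa using (h.h1 0 (by norm_num)).1

theorem La_hact_m (h : d.Ok) (m₀ m₁ n₀ n₁ l : ℤ) (z : E6) :
    d.La (hact A9 m₀ m₁ n₀ n₁ l z) = hact (d.TK.As .m) (d.u 0 * m₀ + d.u 1 * m₁)
      (d.u' 0 * m₀ + d.u' 1 * m₁) (d.w 0 * n₀ + d.w 1 * n₁) (d.w' 0 * n₀ + d.w' 1 * n₁) l
      (d.La z) := by
  have hu := H2_du h
  have hw := H2_dw h
  refine ext6 ?_ ?_ ?_ ?_ rfl ?_ <;> simp [HD.La, hact, HD.TK, TD.As, A9]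
  · ring
  · ring
  · ring
  · ring
  · linear_combination (-9 * m₀ * z (0, 1) * ((d.w 0 : ℝ) * d.w' 1 - d.w 1 * d.w' 0)) * hu -
      9 * m₀ * z (0, 1) * hw

theorem La_hact_p (h : d.Ok) (m₀ m₁ n₀ n₁ l : ℤ) (z : E6) :
    d.La (hact d.v m₀ m₁ n₀ n₁ l z) = hact (d.TK.As .p) (d.u 0 * m₀ + d.u 1 * m₁)
      (d.u' 0 * m₀ + d.u' 1 * m₁) (d.w 0 * n₀ + d.w 1 * n₁) (d.w' 0 * n₀ + d.w' 1 * n₁) l
      (d.La z) := by
  have hu := H2_du h
  have hw := H2_dw h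
  refine ext6 ?_ ?_ ?_ ?_ rfl ?_ <;> simp [HD.La, hact, HD.TK, TD.As, HD.v]
  · ring
  · ring
  · ring
  · ring
  · linear_combination (-9 * m₀ * z (0, 1) * ((d.w 0 : ℝ) * d.w' 1 - d.w 1 * d.w' 0)) * hu -
      9 * m₀ * z (0, 1) * hw

theorem H2_RS (h : d.Ok) {A B : Matrix (Fin 2) (Fin 2) ℤ}
    (hA : ∀ (m₀ m₁ n₀ n₁ l : ℤ) (z : E6), d.La (hact A m₀ m₁ n₀ n₁ l z) =
      hact B (d.u 0 * m₀ + d.u 1 * m₁) (d.u' 0 * m₀ + d.u' 1 * m₁) (d.w 0 * n₀ + d.w 1 * n₁)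
        (d.w' 0 * n₀ + d.w' 1 * n₁) l (d.La z)) :
    RS 1 B (d.La z) (d.La z') ↔ RS 1 A z z' := by
  constructor
  · rintro ⟨_, ⟨m₀, m₁, n₀, n₁, l, rfl⟩, e⟩
    refine ⟨_, ⟨d.u' 1 * m₀ - d.u 1 * m₁, -d.u' 0 * m₀ + d.u 0 * m₁, d.w' 1 * n₀ - d.w 1 * n₁,
      -d.w' 0 * n₀ + d.w 0 * n₁, l, rfl⟩, ?_⟩
    rw [← La'_La h z', ← e, ← La'_La h (hact _ _ _ _ _ _ _), hA]
    congr 2
    · linear_combination m₀ * h.du
    · linear_combination m₁ * h.du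
    · linear_combination n₀ * h.dw
    · linear_combination n₁ * h.dw
  · rintro ⟨_, ⟨m₀, m₁, n₀, n₁, l, rfl⟩, rfl⟩
    rw [hA]
    exact ⟨_, ⟨_, _, _, _, l, by rw [one_mul (d.u 0 * (1 * m₀) + d.u 1 * m₁)]⟩, rfl⟩

theorem RS_La_m (h : d.Ok) : RS 1 (d.TK.As .m) (d.La z) (d.La z') ↔ RS 1 A9 z z' :=
  H2_RS h (La_hact_m h)

theorem RS_La_p (h : d.Ok) : RS 1 (d.TK.As .p) (d.La z) (d.La z') ↔ RS 1 d.v z z' :=
  H2_RS h (La_hact_p h)

theorem La_mem_m (hz : z ∈ Slab (5 / 2 - d.a / 9) 0) : d.La z ∈ d.TK.W .m := by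
  refine ⟨⟨fun h => absurd h one_ne_zero, hz.1, ?_⟩, Or.inr hz.2⟩
  have := hz.2
  change z (2, 0) < 15 / 16
  linarith

theorem La_mem_p (h : d.Ok) (hz : z ∈ WD) : d.La z ∈ d.TK.W .p := by
  have h1 : 1 / 16 < z (2, 0) := hz.1
  have := h.ha
  refine ⟨⟨fun h => absurd h one_ne_zero, ?_, hz.2⟩, Or.inr ?_⟩
  · change 5 / 2 - d.a / 9 < z (2, 0)
    linarith
  · change 0 < z (2, 0)
    linarith

theorem oS_mem (h : d.Ok) (hz : z ∈ DS j) :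
    d.oS j z ∈ Slab (5 / 2 - d.a / 9) (11 / 4 - d.a / 9) := by
  have h1 := hz.2.1
  have h2 := (hz.1 j).1
  constructor
  · change 5 / 2 - d.a / 9 < rot^[j] z (0, 0) - d.a / 9
    linarith
  · change rot^[j] z (0, 0) - d.a / 9 < 11 / 4 - d.a / 9
    linarith

theorem oU_mem (h : d.Ok) (hz : z ∈ DU) : d.oU j z ∈ Slab (5 / 2 - d.a / 9) (-1 / 16) := by
  have h1 := hz.2
  have h2 := (DU_bounds hz).2.2.2
  have := h.ha
  constructor
  · change 5 / 2 - d.a / 9 < 2 + z (0, 0) + hinf (z (2, 0)) - d.a / 9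
    linarith
  · change 2 + z (0, 0) + hinf (z (2, 0)) - d.a / 9 < -1 / 16
    linarith

/-- The inverse of `toO`. -/
noncomputable def H2_fr (d : HD) (k : ℝ) (y : E6) : E6 :=
  Cy.mk (y (2, 0) + d.a / 9) (y (2, 1) - 3 * k * y (0, 1)) (y (1, 0)) (y (1, 1))
    (-(9 * (y (2, 0) + d.a / 9) * (y (0, 0) + k / 3))) (-y (0, 1))

theorem H2_fr_sm (d : HD) (k : ℝ) : ContDiff ℝ ∞ (H2_fr d k) :=
  contDiff_iff_contDiffAt.2 fun _ => K4_mk (by fun_prop) (by fun_prop) (by fun_prop) (by fun_prop)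
    (by fun_prop) (by fun_prop)

theorem H2_fr_to (d : HD) (k : ℝ) {r : ℝ} (hr : r ≠ 0) (X θX θr x y : ℝ) :
    H2_fr d k (d.toO k r X θX θr x y) = Cy.mk r θr x y (-X) (-θX) := by
  refine ext6 ?_ ?_ rfl rfl ?_ rfl <;> simp only [H2_fr, HD.toO, mk00, mk01, mk20, mk21]
  · ring
  · ring
  · field_simp
    ring

theorem H2_to_fr (d : HD) (k : ℝ) {y : E6} (hy : y (2, 0) + d.a / 9 ≠ 0) :
    d.toO k (H2_fr d k y (0, 0)) (-H2_fr d k y (2, 0)) (-H2_fr d k y (2, 1)) (H2_fr d k y (0, 1))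
      (H2_fr d k y (1, 0)) (H2_fr d k y (1, 1)) = y := by
  refine ext6 ?_ ?_ rfl rfl ?_ ?_ <;> simp only [H2_fr, HD.toO, mk00, mk01, mk20, mk21]
  · rw [neg_neg, mul_div_cancel_left₀ _ (mul_ne_zero (by norm_num) hy)]
    ring
  · ring
  · ring
  · ring

theorem H2_to_sm (d : HD) (k : ℝ) {r X θX θr x y : E6 → ℝ} (hr : ContDiffAt ℝ ∞ r z) (h0 : r z ≠ 0)
    (hX : ContDiffAt ℝ ∞ X z) (h1 : ContDiffAt ℝ ∞ θX z) (h2 : ContDiffAt ℝ ∞ θr z)
    (h3 : ContDiffAt ℝ ∞ x z) (h4 : ContDiffAt ℝ ∞ y z) :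
    ContDiffAt ℝ ∞ (fun w => d.toO k (r w) (X w) (θX w) (θr w) (x w) (y w)) z :=
  K4_mk ((hX.div (contDiffAt_const.mul hr) (mul_ne_zero (by norm_num) h0)).sub contDiffAt_const) h1
    h3 h4 (hr.sub contDiffAt_const) (h2.add (contDiffAt_const.mul h1))

theorem H2_rr (j : Fin 3) (w : E6) : rot^[j] (rot^[3 - j] w) = w := by
  rw [← Function.iterate_add_apply, Nat.add_sub_cancel' j.2.le, rot_three]

theorem H2_rr' (j : Fin 3) (w : E6) : rot^[3 - j] (rot^[j] w) = w := by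
  rw [← Function.iterate_add_apply, Nat.sub_add_cancel j.2.le, rot_three]

theorem H2_oS (d : HD) (j : Fin 3) (z : E6) : d.oS j z =
    d.toO (j : ℕ) (rot^[j] z (0, 0)) (-rot^[j] z (2, 0)) (-rot^[j] z (2, 1)) (rot^[j] z (0, 1))
      (rot^[j] z (1, 0)) (rot^[j] z (1, 1)) := by
  rw [(rot_10 j z).1, (rot_10 j z).2, HD.oS]

theorem H2_ev (d : HD) {y : E6} (h : y (2, 0) + d.a / 9 ≠ 0) :
    ∀ᶠ w : E6 in 𝓝 y, w (2, 0) + d.a / 9 ≠ 0 :=
  (by fun_prop : Continuous fun w : E6 => w (2, 0) + d.a / 9).continuousAt.eventually_ne h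

theorem oS_inv (hz : z ∈ DS j) : ContDiffAt ℝ ∞ (d.oS j) z ∧ ∃ o' : E6 → E6,
    ContDiffAt ℝ ∞ o' (d.oS j z) ∧ o' (d.oS j z) = z ∧ ∀ᶠ y in 𝓝 (d.oS j z), d.oS j (o' y) = y := by
  have h0 : rot^[j] z (0, 0) ≠ 0 := by linarith [hz.2.1]
  have hc : ∀ i, ContDiffAt ℝ ∞ (fun w => rot^[j] w i) z := fun i =>
    contDiffAt_pi.1 (contDiff_rot j).contDiffAt i
  refine ⟨H2_to_sm d _ (hc _) h0 (hc _).neg (hc _).neg (hc _) (by fun_prop) (by fun_prop),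
    fun y => rot^[3 - j] (H2_fr d (j : ℕ) y), ((contDiff_rot _).comp (H2_fr_sm d _)).contDiffAt,
    ?_, ?_⟩
  · simp only [H2_oS, H2_fr_to d _ h0, neg_neg]
    refine Eq.trans (congrArg rot^[3 - j] ?_) (H2_rr' j z)
    exact ext6 rfl rfl rfl rfl rfl rfl
  · have h1 : d.oS j z (2, 0) + d.a / 9 ≠ 0 := by
      change rot^[j] z (0, 0) - d.a / 9 + d.a / 9 ≠ 0
      rwa [sub_add_cancel]
    filter_upwards [H2_ev d h1] with y hy
    rw [H2_oS, H2_rr, H2_to_fr d _ hy]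

theorem oU_inv (hz : z ∈ DU) : ContDiffAt ℝ ∞ (d.oU j) z ∧ ∃ o' : E6 → E6,
    ContDiffAt ℝ ∞ o' (d.oU j z) ∧ o' (d.oU j z) = z ∧ ∀ᶠ y in 𝓝 (d.oU j z), d.oU j (o' y) = y := by
  have h0 : 2 + z (0, 0) + hinf (z (2, 0)) ≠ 0 := by linarith [hz.2]
  have hh := contDiff_hinf
  have hc : ∀ i, ContDiffAt ℝ ∞ (fun w => H2_fr d (j : ℕ) w i) (d.oU j z) := fun i =>
    contDiffAt_pi.1 (H2_fr_sm d _).contDiffAt i
  refine ⟨H2_to_sm d _ (by fun_prop) h0 (by fun_prop) (by fun_prop) (by fun_prop) (by fun_prop)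
    (by fun_prop), fun y => Cy.mk (H2_fr d (j : ℕ) y (0, 0) - 2 - hinf (H2_fr d (j : ℕ) y (2, 0)))
      (H2_fr d (j : ℕ) y (0, 1)) (H2_fr d (j : ℕ) y (1, 0)) (H2_fr d (j : ℕ) y (1, 1))
      (H2_fr d (j : ℕ) y (2, 0)) (H2_fr d (j : ℕ) y (2, 1)),
    K4_mk (((hc _).sub contDiffAt_const).sub (hh.contDiffAt.comp _ (hc _))) (hc _) (hc _) (hc _)
      (hc _) (hc _), ?_, ?_⟩
  · simp only [HD.oU, H2_fr_to d _ h0, neg_neg, mk00, mk01, mk10, mk11, mk20, mk21]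
    refine ext6 ?_ rfl rfl rfl rfl rfl
    simp only [mk00]
    ring
  · have h1 : d.oU j z (2, 0) + d.a / 9 ≠ 0 := by
      change 2 + z (0, 0) + hinf (z (2, 0)) - d.a / 9 + d.a / 9 ≠ 0
      rwa [sub_add_cancel]
    filter_upwards [H2_ev d h1] with y hy
    refine Eq.trans ?_ (H2_to_fr d (j : ℕ) hy)
    simp only [HD.oU, mk00, mk01, mk10, mk11, mk20, mk21]
    congr 1
    ring

theorem H2_toO {k r X θX θr x y k' r' X' θX' θr' x' y' : ℝ} :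
    RS 1 A9 (d.toO k r X θX θr x y) (d.toO k' r' X' θX' θr' x' y') ↔ r' = r ∧ ∃ m₀ m₁ n₀ n₁ l : ℤ,
      X' / (9 * r') - k' / 3 = X / (9 * r) - k / 3 + m₀ ∧ θX' = θX + n₀ ∧ x' = x + m₁ ∧
      y' = y + n₁ ∧ θr' + 3 * k' * θX' = θr + 3 * k * θX - 9 * m₀ * θX + l := by
  rw [RS_iff]
  simp only [HD.toO, mk00, mk01, mk10, mk11, mk20, mk21, A9, Matrix.of_apply, Matrix.cons_val', Matrix.cons_val_zero,
    Matrix.cons_val_one, Matrix.cons_val_fin_one, Int.cast_one, Int.cast_zero, Int.cast_ofNat]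
  constructor
  · rintro ⟨m₀, m₁, n₀, n₁, l, h1, h2, h3, h4, h5, h6⟩
    exact ⟨by linarith, m₀, m₁, n₀, n₁, l, by linarith, h2, h3, h4, by linarith⟩
  · rintro ⟨h5, m₀, m₁, n₀, n₁, l, h1, h2, h3, h4, h6⟩
    exact ⟨m₀, m₁, n₀, n₁, l, by linarith, h2, h3, h4, by linarith, by linarith⟩

theorem H2_00 : RS 0 0 z z' ↔ z' (0, 0) = z (0, 0) ∧ z' (2, 0) = z (2, 0) ∧ ∃ m₁ n₀ n₁ l : ℤ,
    z' (0, 1) = z (0, 1) + n₀ ∧ z' (1, 0) = z (1, 0) + m₁ ∧ z' (1, 1) = z (1, 1) + n₁ ∧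
      z' (2, 1) = z (2, 1) + l := by
  rw [RS_iff]
  simp only [Matrix.zero_apply, Int.cast_zero, zero_mul, add_zero, mul_zero, sub_zero]
  constructor
  · rintro ⟨_, m₁, n₀, n₁, l, h1, h2, h3, h4, h5, h6⟩
    exact ⟨h1, h5, m₁, n₀, n₁, l, h2, h3, h4, h6⟩
  · rintro ⟨h1, h5, m₁, n₀, n₁, l, h2, h3, h4, h6⟩
    exact ⟨0, m₁, n₀, n₁, l, h1, h2, h3, h4, h5, h6⟩

theorem H2_sec (hz : z ∈ DS j) : 0 < -rot^[j] z (2, 0) / (9 * rot^[j] z (0, 0)) ∧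
    -rot^[j] z (2, 0) / (9 * rot^[j] z (0, 0)) < 1 / 3 := by
  obtain ⟨-, h1, h2, h3⟩ := hz
  have h4 : 0 < 9 * rot^[j] z (0, 0) := by linarith
  exact ⟨div_pos (by linarith) h4, by rw [div_lt_iff₀ h4]; linarith⟩

theorem H2_str (hz : z ∈ DU) : -1 / 180 < -z (2, 0) / (9 * (2 + z (0, 0) + hinf (z (2, 0)))) ∧
    -z (2, 0) / (9 * (2 + z (0, 0) + hinf (z (2, 0)))) < 1 / 180 := by
  have h1 := hz.2
  have h2 := abs_lt.1 (DU_bounds hz).2.2.1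
  have h4 : 0 < 9 * (2 + z (0, 0) + hinf (z (2, 0))) := by linarith
  exact ⟨by rw [lt_div_iff₀ h4]; linarith [h2.2], by rw [div_lt_iff₀ h4]; linarith [h2.1]⟩

theorem H2_int {m : ℤ} (h1 : -1 < ((j' : ℕ) : ℝ) - (j : ℕ) + 3 * m)
    (h2 : ((j' : ℕ) : ℝ) - (j : ℕ) + 3 * m < 1) : j = j' ∧ m = 0 := by
  have a1 : -1 < ((j' : ℕ) : ℤ) - (j : ℕ) + 3 * m := by exact_mod_cast h1
  have a2 : ((j' : ℕ) : ℤ) - (j : ℕ) + 3 * m < 1 := by exact_mod_cast h2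
  have := j.2
  have := j'.2
  exact ⟨Fin.ext (by omega), by omega⟩

theorem H2_div {a b r : ℝ} (hr : 0 < r) (h : -a / (9 * r) = -b / (9 * r)) : a = b := by
  have := (div_left_inj' (by positivity : 9 * r ≠ 0)).1 h
  linarith

theorem SS (hz : z ∈ DS j) (hz' : z' ∈ DS j') :
    RS 0 0 z z' ↔ RS 1 A9 (d.oS j z) (d.oS j' z') := by
  rw [H2_oS, H2_oS, H2_toO, ← RS_rot j, H2_00]
  constructor
  · rintro ⟨h1, h2, m₁, n₀, n₁, l, h3, h4, h5, h6⟩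
    obtain rfl : j = j' := DS_unique ⟨hz'.1, by rw [h1, h2]; exact hz.2⟩ hz'
    refine ⟨h1, 0, m₁, -l, n₁, n₀ - 3 * (j : ℕ) * l, by simp [h1, h2], ?_, h4, h5, ?_⟩ <;>
      push_cast
    · linarith
    · rw [h3, h6]
      ring
  · rintro ⟨h1, m₀, m₁, n₀, n₁, l, h2, h3, h4, h5, h6⟩
    have s1 := H2_sec hz
    have s2 := H2_sec hz'
    obtain ⟨rfl, rfl⟩ : j = j' ∧ m₀ = 0 := H2_int (by linarith) (by linarith)
    rw [h1] at h2
    refine ⟨h1, H2_div (r := rot^[j] z (0, 0)) (by linarith [hz.2.1]) (by simpa using h2), m₁,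
      l - 3 * (j : ℕ) * n₀, n₁, -n₀, ?_, h4, h5, ?_⟩ <;> push_cast at h6 ⊢
    · linear_combination h6 - 3 * (j : ℕ) * h3
    · linarith

theorem UU (hz : z ∈ DU) (hz' : z' ∈ DU) :
    (j = j' ∧ RS 0 0 z z') ↔ RS 1 A9 (d.oU j z) (d.oU j' z') := by
  rw [HD.oU, HD.oU, H2_toO, H2_00]
  constructor
  · rintro ⟨rfl, h1, h2, m₁, n₀, n₁, l, h3, h4, h5, h6⟩
    refine ⟨by rw [h1, h2], 0, m₁, -l, n₁, n₀ - 3 * (j : ℕ) * l, by simp [h1, h2], ?_, h4, h5, ?_⟩ <;>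
      push_cast
    · linarith
    · rw [h3, h6]
      ring
  · rintro ⟨h1, m₀, m₁, n₀, n₁, l, h2, h3, h4, h5, h6⟩
    have s1 := H2_str hz
    have s2 := H2_str hz'
    obtain ⟨rfl, rfl⟩ : j = j' ∧ m₀ = 0 := H2_int (by linarith) (by linarith)
    rw [h1] at h2
    have e : z' (2, 0) = z (2, 0) :=
      H2_div (r := 2 + z (0, 0) + hinf (z (2, 0))) (by linarith [hz.2]) (by simpa using h2)
    rw [e] at h1
    refine ⟨rfl, by linarith, e, m₁, l - 3 * (j : ℕ) * n₀, n₁, -n₀, ?_, h4, h5, ?_⟩ <;>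
      push_cast at h6 ⊢
    · linear_combination h6 - 3 * (j : ℕ) * h3
    · linarith

theorem H2_nx (j : Fin 3) : (∃ m : ℤ, (((j + 1 : Fin 3) : ℕ) : ℝ) = (j : ℕ) + 1 + 3 * m) ∧
    ∀ z, rot^[(j + 1 : Fin 3)] z = rot (rot^[j] z) := by
  fin_cases j
  · exact ⟨⟨0, by norm_num⟩, fun _ => rfl⟩
  · exact ⟨⟨0, by norm_num [show (((1 : Fin 3) + 1 : Fin 3) : ℕ) = 2 from rfl]⟩, fun _ => rfl⟩
  · exact ⟨⟨-1, by norm_num [show (((2 : Fin 3) + 1 : Fin 3) : ℕ) = 0 from rfl]⟩,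
      fun z => (rot_three z).symm⟩

theorem H2_gz (hz : z ∈ DU) : gz z = ee (z (0, 1)) :=
  gg_right (DU_bounds hz).1.le (DU_bounds hz).2.1.le _

theorem H2_p (hz : z ∈ DU) : setF (z (2, 1) + z (0, 1)) z ∈ TN.W .p ∧
    TN.io .m z = TN.io .p (setF (z (2, 1) + z (0, 1)) z) := by
  have h : gz z ≠ 0 := by
    rw [H2_gz hz]
    exact ee_ne_zero _
  refine ⟨⟨hz.1.1, Or.inl h⟩, io_mp' h ?_⟩
  rw [H2_gz hz, norm_ee, add_sub_cancel_left]
  simp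

theorem H2_RN {s : K3} (hs : s ≠ .f) (hz : z ∈ TN.W s) (hz' : z' ∈ TN.W s) :
    TN.RN (TN.io s z) (TN.io s z') ↔ RS 0 0 z z' := by
  rw [RN_iff_RS TN_ok hs hz hz', TN_As]
  rfl

theorem H2_hinf {μ : ℝ} (h : 1 / 16 ≤ |μ|) : hinf μ = max μ 0 := hm_eq 1 h

theorem H2_key {s : K3} (hz : z ∈ DI j s) (hz' : z' ∈ DU)
    (h : TN.RN (TN.io s (LL j z)) (TN.io .m z')) :
    (z ∈ DS j ∧ RS 0 0 (LL j z) z' ∧ hinf (z' (2, 0)) = 0) ∨
      (z ∈ DS (j + 1) ∧ RS 0 0 (LL j z) (setF (z' (2, 1) + z' (0, 1)) z') ∧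
        hinf (z' (2, 0)) = z' (2, 0)) := by
  have hb := DU_bounds hz'
  have hb2 := abs_lt.1 hb.2.2.1
  have hc := DI_cases hz
  have hu := hz'.2
  cases s
  · have h1 := (H2_RN hz.2.1 hz.2.2.1 hz'.1).1 h
    obtain ⟨a1, a2, -⟩ := H2_00.1 h1
    rw [← a1, ← a2] at hc
    have a3 : z' (2, 0) < -1 / 16 := by
      rcases hc with hc | hc
      · linarith [hb.1]
      · simp only [sg] at hc
        linarith
    have a4 : hinf (z' (2, 0)) = 0 := by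
      rw [H2_hinf (le_abs.2 (Or.inr (by linarith))), max_eq_right (by linarith)]
    change _ = rot^[j] z (0, 0) + -2 at a1
    change _ = rot^[j] z (2, 0) at a2
    exact Or.inl ⟨⟨hz.1, by linarith, by linarith, by linarith⟩, h1, a4⟩
  · rw [(H2_p hz').2] at h
    have h1 := (H2_RN hz.2.1 hz.2.2.1 (H2_p hz').1).1 h
    obtain ⟨a1, a2, -⟩ := H2_00.1 h1
    change z' (0, 0) = _ at a1
    change z' (2, 0) = _ at a2
    rw [← a1, ← a2] at hc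
    have a3 : 1 / 16 < z' (2, 0) := by
      rcases hc with hc | hc
      · linarith [hb.1]
      · simp only [sg] at hc
        linarith
    have a4 : hinf (z' (2, 0)) = z' (2, 0) := by
      rw [H2_hinf (le_abs.2 (Or.inl a3.le)), max_eq_left (by linarith)]
    change _ = rot^[j] z (0, 0) + -2 at a1
    change _ = rot^[j] z (2, 0) at a2
    refine Or.inr ⟨⟨hz.1, ?_⟩, h1, a4⟩
    rw [(H2_nx j).2]
    simp only [rot, mk00, mk20]
    exact ⟨by linarith, by linarith, by linarith⟩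
  · exact absurd rfl hz.2.1

theorem SU (hz : z ∈ DS j') (hz' : z' ∈ DU) :
    (∃ s, z ∈ DI j s ∧ TN.RN (TN.io s (LL j z)) (TN.io .m z')) ↔
      RS 1 A9 (d.oS j' z) (d.oU j z') := by
  have hb := DU_bounds hz'
  have hb2 := abs_lt.1 hb.2.2.1
  have hu := hz'.2
  rw [H2_oS, HD.oU, H2_toO]
  constructor
  · rintro ⟨s, h1, h2⟩
    rcases H2_key h1 hz' h2 with ⟨b1, b2, b3⟩ | ⟨b1, b2, b3⟩
    · obtain rfl : j = j' := DS_unique b1 hz
      obtain ⟨a1, a2, m₁, n₀, n₁, l, a3, a4, a5, a6⟩ := H2_00.1 b2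
      simp only [LL, sh, mk00, mk01, mk10, mk11, mk20, mk21] at a1 a2 a3 a4 a5 a6
      have e : 2 + z' (0, 0) + hinf (z' (2, 0)) = rot^[j] z (0, 0) := by linarith
      refine ⟨e, 0, m₁, -l, n₁, n₀ - 3 * (j : ℕ) * l, by rw [e, a2]; simp, ?_, a4, a5, ?_⟩ <;>
        push_cast
      · linarith
      · rw [a3, a6]
        ring
    · obtain rfl : j + 1 = j' := DS_unique b1 hz
      obtain ⟨a1, a2, m₁, n₀, n₁, l, a3, a4, a5, a6⟩ := H2_00.1 b2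
      change z' (0, 0) = _ at a1
      change z' (2, 0) = _ at a2
      change z' (0, 1) = _ at a3
      change z' (1, 0) = _ at a4
      change z' (1, 1) = _ at a5
      change z' (2, 1) + z' (0, 1) = _ at a6
      simp only [LL, sh, mk00, mk01, mk10, mk11, mk20, mk21] at a1 a2 a3 a4 a5 a6
      obtain ⟨⟨m, hm⟩, hr⟩ := H2_nx j
      rw [hr, hm]
      simp only [rot, mk00, mk01, mk10, mk11, mk20, mk21]
      have e : 2 + z' (0, 0) + hinf (z' (2, 0)) = rot^[j] z (0, 0) + rot^[j] z (2, 0) := by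
        linarith
      have e0 : rot^[j] z (0, 0) + rot^[j] z (2, 0) ≠ 0 := by linarith
      refine ⟨e, m, m₁, n₀ - l, n₁, n₀ + 3 * (j : ℕ) * (n₀ - l), ?_, ?_, a4, a5, ?_⟩
      · rw [e, a2]
        field_simp
        ring
      · push_cast
        linarith
      · push_cast
        linear_combination (1 + 3 * (j : ℕ)) * a3 - 3 * (j : ℕ) * a6
  · rintro ⟨h1, m₀, m₁, n₀, n₁, l, h2, h3, h4, h5, h6⟩
    have s1 := H2_sec hz
    have s2 := H2_str hz'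
    have hw := (hz.1 j).2
    by_cases hk : -1 < ((j : ℕ) : ℝ) - (j' : ℕ) + 3 * m₀
    · obtain ⟨rfl, rfl⟩ : j' = j ∧ m₀ = 0 := H2_int hk (by linarith)
      rw [h1] at h2
      have e : z' (2, 0) = rot^[j'] z (2, 0) :=
        H2_div (r := rot^[j'] z (0, 0)) (by linarith [hz.2.1]) (by simpa using h2)
      have c1 := hz.2.1
      have c2 := hz.2.2.1
      rw [abs_of_neg c2] at hw
      have a4 : hinf (z' (2, 0)) = 0 := by
        rw [H2_hinf (le_abs.2 (Or.inr (by rcases hw with hw | hw <;> linarith))),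
          max_eq_right (by linarith)]
      have e0 : z' (0, 0) = LL j' z (0, 0) := by
        change _ = rot^[j'] z (0, 0) + -2
        linarith
      have e2 : z' (2, 0) = LL j' z (2, 0) := e
      have hW : LL j' z ∈ TN.W .m := ⟨by rw [← e0, ← e2]; exact hz'.1.1, Or.inr c2⟩
      refine ⟨.m, ⟨hz.1, by simp, hW, Or.inr ?_⟩, (H2_RN (by simp) hW hz'.1).2 (H2_00.2 ⟨e0, e2, m₁,
        l - 3 * (j' : ℕ) * n₀, n₁, -n₀, ?_, h4, h5, ?_⟩)⟩
      · rw [← e2, sg]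
        linarith
      · change _ = rot^[j'] z (0, 1) + _
        push_cast at h6 ⊢
        linear_combination h6 - 3 * (j' : ℕ) * h3
      · change _ = rot^[j'] z (2, 1) + _
        push_cast
        linarith
    · obtain ⟨⟨m, hm⟩, hr⟩ := H2_nx j
      have hk2 : ((j : ℕ) : ℝ) - (j' : ℕ) + 3 * m₀ ≤ -1 := not_lt.1 hk
      obtain ⟨rfl, hm0⟩ : j' = j + 1 ∧ m₀ - m = 0 :=
        H2_int (by rw [hm]; push_cast; linarith) (by rw [hm]; push_cast; linarith)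
      obtain rfl : m₀ = m := sub_eq_zero.1 hm0
      obtain ⟨-, c1, c2, c3⟩ := id hz
      rw [hm] at h2 h6
      rw [hr] at h1 h2 h3 h4 h5 h6 c1 c2 c3
      simp only [rot, mk00, mk01, mk10, mk11, mk20, mk21] at h1 h2 h3 h4 h5 h6 c1 c2 c3
      rw [h1] at h2
      have e : z' (2, 0) = rot^[j] z (2, 0) := by
        refine H2_div (r := rot^[j] z (0, 0) + rot^[j] z (2, 0)) (by linarith) ?_
        have e0 : rot^[j] z (0, 0) + rot^[j] z (2, 0) ≠ 0 := by linarith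
        have e1 : -(-3 * rot^[j] z (0, 0) - 2 * rot^[j] z (2, 0)) /
            (9 * (rot^[j] z (0, 0) + rot^[j] z (2, 0))) = 1 / 3 +
            -rot^[j] z (2, 0) / (9 * (rot^[j] z (0, 0) + rot^[j] z (2, 0))) := by
          field_simp
          ring
        linarith
      have c4 : 0 < rot^[j] z (2, 0) := by linarith
      rw [abs_of_pos c4] at hw
      have a4 : hinf (z' (2, 0)) = z' (2, 0) := by
        rw [H2_hinf (le_abs.2 (Or.inl (by rcases hw with hw | hw <;> linarith))),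
          max_eq_left (by linarith)]
      have e0 : z' (0, 0) = LL j z (0, 0) := by
        change _ = rot^[j] z (0, 0) + -2
        linarith
      have e2 : z' (2, 0) = LL j z (2, 0) := e
      have hW : LL j z ∈ TN.W .p := ⟨by rw [← e0, ← e2]; exact hz'.1.1, Or.inr c4⟩
      rw [(H2_p hz').2]
      refine ⟨.p, ⟨hz.1, by simp, hW, Or.inr ?_⟩, (H2_RN (by simp) hW (H2_p hz').1).2
        (H2_00.2 ⟨e0, e2, m₁, l - 3 * (j : ℕ) * n₀, n₁, l - n₀ - 3 * (j : ℕ) * n₀, ?_, h4, h5, ?_⟩)⟩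
      · rw [← e2, sg]
        linarith
      · change z' (0, 1) = rot^[j] z (0, 1) + _
        push_cast
        linear_combination h6 - 3 * (j : ℕ) * h3
      · change z' (2, 1) + z' (0, 1) = rot^[j] z (2, 1) + _
        push_cast
        linear_combination h6 - (1 + 3 * (j : ℕ)) * h3

theorem DS_of_DU {s : K3} (hz : z ∈ DI j s) (hz' : z' ∈ DU)
    (h : TN.RN (TN.io s (LL j z)) (TN.io .m z')) : ∃ j', z ∈ DS j' := by
  rcases H2_key hz hz' h with h | h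
  · exact ⟨_, h.1⟩
  · exact ⟨_, h.1⟩

theorem H2_par (d : HD) (k : ℤ) (z : E6) : ∃ j : Fin 3, ∃ θ : ℝ, ∀ r X : ℝ,
    z (0, 0) = X / (9 * r) + k / 3 → z (2, 0) = r - d.a / 9 →
      RS 1 A9 (d.toO (j : ℕ) r X (z (0, 1)) θ (z (1, 0)) (z (1, 1))) z := by
  obtain ⟨j, m, e⟩ : ∃ (j : Fin 3) (m : ℤ), k = 3 * m - (j : ℕ) :=
    ⟨⟨(-k % 3).toNat, by omega⟩, -(-k / 3), by simp only; omega⟩
  have e' : (k : ℝ) = 3 * m - (j : ℕ) := by exact_mod_cast e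
  refine ⟨j, z (2, 1) - 3 * (j : ℕ) * z (0, 1) + 9 * m * z (0, 1), fun r X h1 h2 =>
    RS_iff.2 ⟨m, 0, 0, 0, 0, ?_, ?_, ?_, ?_, h2, ?_⟩⟩ <;> simp [HD.toO, A9]
  · linarith
  · ring

theorem H2_strip (hz : z ∈ Slab (5 / 2 - d.a / 9) (11 / 4 - d.a / 9)) (k : ℤ) {X : ℝ}
    (hX : |X| ≤ 11 / 96) (e : z (0, 0) = X / (9 * (z (2, 0) + d.a / 9)) + k / 3) :
    ∃ j, ∃ y ∈ DU, |y (2, 0)| ≤ 11 / 96 ∧ RS 1 A9 (d.oU j y) z := by
  obtain ⟨j, θ, h⟩ := H2_par d k z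
  have h1 := hz.1
  have h2 := hz.2
  have h3 := abs_le.1 hX
  have h4 : max (-X) 0 ≤ hinf (-X) ∧ hinf (-X) ≤ max (-X) 0 + 1 / 8 := hm_bounds zero_le_one (-X)
  have h5 : max (-X) 0 ≤ 11 / 96 := max_le (by linarith) (by norm_num)
  have h6 := le_max_right (-X) 0
  refine ⟨j, Cy.mk (z (2, 0) + d.a / 9 - 2 - hinf (-X)) θ (z (1, 0)) (z (1, 1)) (-X) (-z (0, 1)),
    ⟨⟨⟨fun _ => ⟨?_, ?_⟩, ?_, ?_⟩, Or.inl ?_⟩, ?_⟩, by simpa using hX, ?_⟩
  · simp only [mk00]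
    linarith
  · simp only [mk00]
    linarith
  · simp only [mk20, TN]
    linarith
  · simp only [mk20, TN]
    linarith
  · simp only [gz, mk00, mk01]
    rw [gg_right (by linarith) (by linarith)]
    exact ee_ne_zero _
  · simp only [mk00, mk20]
    linarith
  · simp only [HD.oU, mk00, mk01, mk10, mk11, mk20, mk21, neg_neg]
    rw [show 2 + (z (2, 0) + d.a / 9 - 2 - hinf (-X)) + hinf (-X) = z (2, 0) + d.a / 9 by ring]
    exact h _ _ e (by ring)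

theorem collar_cover (hz : z ∈ Slab (5 / 2 - d.a / 9) (11 / 4 - d.a / 9)) :
    (∃ j, ∃ y ∈ DS j, RS 1 A9 (d.oS j y) z) ∨
      ∃ j, ∃ y ∈ DU, |y (2, 0)| ≤ 11 / 96 ∧ RS 1 A9 (d.oU j y) z := by
  have h1 := hz.1
  have h2 := hz.2
  obtain ⟨r, hr⟩ : ∃ r, r = z (2, 0) + d.a / 9 := ⟨_, rfl⟩
  have r1 : 5 / 2 < r := by linarith
  have r2 : r < 11 / 4 := by linarith
  have r0 : r ≠ 0 := by linarith
  obtain ⟨X, hX⟩ : ∃ X, X = 3 * r * (3 * z (0, 0) - ⌊3 * z (0, 0)⌋) := ⟨_, rfl⟩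
  have x1 : 0 ≤ X := by
    rw [hX]
    exact mul_nonneg (by linarith) (by linarith [Int.floor_le (3 * z (0, 0))])
  have x2 : X < 3 * r := by
    rw [hX]
    exact mul_lt_of_lt_one_right (by linarith) (by linarith [Int.lt_floor_add_one (3 * z (0, 0))])
  have e : z (0, 0) = X / (9 * r) + (⌊3 * z (0, 0)⌋ : ℤ) / 3 := by
    rw [hX]
    field_simp
    ring
  by_cases c1 : X ≤ 11 / 96
  · exact Or.inr (H2_strip hz _ (abs_le.2 ⟨by linarith, c1⟩) (hr ▸ e))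
  by_cases c2 : 3 * r - X ≤ 11 / 96
  · refine Or.inr (H2_strip hz (⌊3 * z (0, 0)⌋ + 1) (X := X - 3 * r)
      (abs_le.2 ⟨by linarith, by linarith⟩) ?_)
    have e1 : (X - 3 * r) / (9 * r) = X / (9 * r) - 1 / 3 := by
      field_simp
      ring
    rw [← hr, e1]
    push_cast
    linarith
  obtain ⟨j, θ, h⟩ := H2_par d ⌊3 * z (0, 0)⌋ z
  push Not at c1 c2
  refine Or.inl ⟨j, rot^[3 - j] (Cy.mk r θ (z (1, 0)) (z (1, 1)) (-X) (-z (0, 1))),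
    ⟨(rot_mem_WI _).2 fun i => ?_, ?_⟩, ?_⟩
  · fin_cases i
    · simp only [Function.iterate_zero, id, mk00, mk20, abs_neg, abs_of_nonneg x1]
      exact ⟨r2, Or.inr (by linarith)⟩
    · simp only [Function.iterate_one, rot, mk00, mk20]
      refine ⟨by linarith, ?_⟩
      by_cases c3 : r + -X < 7 / 4
      · exact Or.inl c3
      · exact Or.inr (by linarith [neg_le_abs (-3 * r - 2 * -X)])
    · simp only [rot_two, mk00, mk20]
      exact ⟨by linarith, Or.inr (by linarith [le_abs_self (3 * r + -X)])⟩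
  · rw [H2_rr]
    simp only [mk00, mk20]
    exact ⟨r1, by linarith, by linarith⟩
  · rw [H2_oS, H2_rr]
    simp only [mk00, mk01, mk10, mk11, mk20, mk21, neg_neg]
    exact h _ _ e (by linarith)


end Pool.Agent.Work.MP_bf98aa_gt.Cy
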