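import Pool.Agent.Work.MP_bf98aa_gt.Cy.H3

/-!
Compactness.

PLAN. For each half take compact sets: on `I` the points with `rot^[j] z (0,0) ≤ 21/8` and (`rot^[j] z (0,0) ≤ 13/8` or `rot^[j] z (0,0) ≤ 23 |rot^[j] z (2,0)|`) for all `j` and periodic
coordinates in `[0,1]`; on the nodes `TD.Ok.cpt` with `C = [-3/8, 5/8] × [-23/200, 23/200]`; on the kink `C = [0,1] × [41/16 - a/9, 1/2]`. `half_cover`: a point of the kink with smaller `μ` goes to a sector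
or strip (`collar_cover`); a point of `I` either satisfies the closed conditions, or has level `> 21/8` (`DS_of_level`), or lies over `C`; a point of a node not over `C` is in `I`
(`LL'_mem_DI`) or in `DU` with level `> 21/8`. Points with `μ ≥ 1/2` go to the other half, where `μ ≤ 1/2`.
-/

set_option autoImplicit false

open scoped Manifold ContDiff Topology
open Set Complex

namespace Pool.Agent.Work.MP_bf98aa_gt.Cy

open Pool.Agent.Work.MP_bf98aa_gt.Th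

theorem H4_gl {ι₁ ι₂ L : Type} {G : Gl ι₁ ι₂ L} {A : Atl ι₁} {B : Atl ι₂} (h : G.Ok A B)
    (hA : A.Pre) (hB : B.Pre) (l : L) {z : E6} (hz : z ∈ G.D l) :
    (G.atl A B).R (.inl (G.s l)) z (.inr (G.t l)) (G.o l z) :=
  ⟨l, z, hz, hA.refl (h.sub l hz), hB.refl (h.maps l hz)⟩

theorem H4_congr {z z' : E6} (h0 : z' (0, 0) = z (0, 0)) (h2 : z' (2, 0) = z (2, 0)) (n : ℕ) :
    rot^[n] z' (0, 0) = rot^[n] z (0, 0) ∧ rot^[n] z' (2, 0) = rot^[n] z (2, 0) := by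
  induction n with
  | zero => exact ⟨h0, h2⟩
  | succ n ih => simp only [Function.iterate_succ_apply', rot, mk00, mk20, ih.1, ih.2, and_self]

theorem H4_all {P : ℝ → ℝ → Prop} {z : E6} :
    (∀ j : Fin 3, P (rot^[j] z (0, 0)) (rot^[j] z (2, 0))) ↔ P (z (0, 0)) (z (2, 0)) ∧
      P (z (0, 0) + z (2, 0)) (-3 * z (0, 0) - 2 * z (2, 0)) ∧
        P (-2 * z (0, 0) - z (2, 0)) (3 * z (0, 0) + z (2, 0)) := by
  rw [Fin.forall_fin_succ, Fin.forall_fin_succ, Fin.forall_fin_one]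
  exact and_congr Iff.rfl (and_congr Iff.rfl (by
    change P (rot^[2] z (0, 0)) (rot^[2] z (2, 0)) ↔ _
    rw [rot_two, mk00, mk20]))

theorem H4_max {z : E6} {j : Fin 3} (h : z ∈ DS j) (i : Fin 3) :
    rot^[i] z (0, 0) ≤ rot^[j] z (0, 0) := by
  refine (H4_all (P := fun y m => m < 0 ∧ -3 * y < m → ∀ i : Fin 3, rot^[i] z (0, 0) ≤ y)).2 ?_ j
    h.2.2 i
  refine ⟨fun k => ?_, fun k => ?_, fun k => ?_⟩ <;>
    refine (H4_all (P := fun y _ => y ≤ _)).2 ⟨?_, ?_, ?_⟩ <;> linarith [k.1, k.2]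

/-- The compact part of the toric chart. -/
def H4_KI : Set E6 := {z | (∀ j : Fin 3, rot^[j] z (0, 0) ≤ 21 / 8 ∧
  (rot^[j] z (0, 0) ≤ 13 / 8 ∨ rot^[j] z (0, 0) ≤ 23 * |rot^[j] z (2, 0)|)) ∧
    ∀ i ∈ S4, z i ∈ Icc (0 : ℝ) 1}

theorem H4_KI_sub : H4_KI ⊆ WI := fun z hz j => by
  obtain ⟨a, b⟩ := hz.1 j
  refine ⟨by linarith, (lt_or_ge _ (7 / 4)).imp_right fun k => ?_⟩
  rcases b with b | b <;> linarith

theorem H4_KI_cpt : IsCompact H4_KI := by
  have c : ∀ (n : ℕ) i, Continuous fun z : E6 => rot^[n] z i := fun n i =>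
    (continuous_apply i).comp (contDiff_rot n).continuous
  refine (isCompact_univ_pi fun _ : Cx => isCompact_Icc (a := (-8 : ℝ)) (b := 8)).of_isClosed_subset
    (IsClosed.and ?_ ?_) fun z hz i _ => ?_
  · simp only [setOf_forall]
    exact isClosed_iInter fun j => (isClosed_le (c _ _) continuous_const).inter
      ((isClosed_le (c _ _) continuous_const).union
        (isClosed_le (c _ _) (continuous_const.mul (c _ _).abs)))
  · simp only [setOf_forall]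
    exact isClosed_iInter fun i => isClosed_iInter fun _ =>
      isClosed_Icc.preimage (continuous_apply i)
  by_cases hi : i ∈ S4
  · exact ⟨by linarith [(hz.2 i hi).1], by linarith [(hz.2 i hi).2]⟩
  obtain ⟨a, b, e⟩ := (H4_all (P := fun y _ => y ≤ 21 / 8)).1 fun j => (hz.1 j).1
  obtain rfl | rfl : i = (0, 0) ∨ i = (2, 0) := by
    revert hi i
    decide
  all_goals constructor <;> linarith

theorem H4_fract (z : E6) : ∃ y, RS 0 0 z y ∧ y (0, 0) = z (0, 0) ∧ y (2, 0) = z (2, 0) ∧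
    ∀ i ∈ S4, y i ∈ Icc (0 : ℝ) 1 := by
  refine ⟨fun i => if i ∈ S4 then Int.fract (z i) else z i, RS00_iff.2 ⟨sub_self _, sub_self _,
    fun i => ?_⟩, rfl, rfl, fun i hi => ?_⟩
  · by_cases hi : i ∈ S4
    · exact ⟨-⌊z i⌋, by simp [hi]⟩
    · exact ⟨0, by simp [hi]⟩
  · simpa [hi] using (Int.fract_lt_one _).le

theorem H4_m {D : TD} {s : K3} {x : E6} (hx : x ∈ D.W s)
    (h : gg ((D.io s x).1 0) ((D.io s x).1 1) ≠ 0 ∨ amu (D.io s x) < 0) :
    ∃ y, D.atl.R s x .m y ∧ y (0, 0) = (D.io s x).1 0 ∧ y (2, 0) = amu (D.io s x) := by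
  obtain ⟨t, a, b⟩ := K4_exm (io_mul hx) (io_dom hx) fun e => h.elim
    (fun k => k (by rw [← io_mul hx, e, mul_zero])) fun k => by
      rw [amu, e, map_zero, sub_zero] at k
      exact k.not_ge (normSq_nonneg _)
  exact ⟨_, ⟨hx, a, b.symm ▸ TD.RN.refl _⟩, rfl, rfl⟩

theorem H4_p {D : TD} {s : K3} {x : E6} (hx : x ∈ D.W s) (h : 0 < amu (D.io s x)) :
    ∃ y, D.atl.R s x .p y ∧ y (0, 0) = (D.io s x).1 0 ∧ y (2, 0) = amu (D.io s x) := by
  obtain ⟨t, a, b⟩ := K4_exp (io_mul hx) (io_dom hx) fun e => by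
    rw [amu, e, map_zero, zero_sub, neg_pos] at h
    exact h.not_ge (normSq_nonneg _)
  exact ⟨_, ⟨hx, a, b.symm ▸ TD.RN.refl _⟩, rfl, rfl⟩

theorem half_cover {d : HD} (h : d.Ok) : ∃ K : Jx → Set E6,
    (∀ i, IsCompact (K i) ∧ K i ⊆ (atlH d).W i) ∧ (∀ i, ∀ x ∈ (atlH d).W i,
      (∃ j, ∃ y ∈ K j, (atlH d).R i x j y) ∨
        ∃ z ∈ WD, 1 / 2 < z (2, 0) ∧ (atlH d).R i x (.inr .p) (d.La z)) ∧
      ∀ z ∈ WD, z (2, 0) ≤ 1 / 2 → ∃ j, ∃ y ∈ K j, (atlH d).R (.inr .p) (d.La z) j y := by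
  have ha := h.ha
  have P := atlH_pre h
  obtain ⟨KN, hN, cN⟩ := TN_ok.cpt (C := Icc (-3 / 8) (5 / 8) ×ˢ Icc (-23 / 200) (23 / 200))
    (isCompact_Icc.prod isCompact_Icc) fun c k => ⟨fun _ => ⟨by linarith [k.1.1], by linarith [k.1.2]⟩,
      lt_of_lt_of_le (by norm_num [TN]) k.2.1, lt_of_le_of_lt k.2.2 (by norm_num [TN])⟩
  obtain ⟨KK, hK, cK⟩ := (TK_ok h).cpt (C := Icc 0 1 ×ˢ Icc (41 / 16 - d.a / 9) (1 / 2))
    (isCompact_Icc.prod isCompact_Icc) fun c k => ⟨fun e => absurd e one_ne_zero,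
      lt_of_lt_of_le (by norm_num [HD.TK]) k.2.1, lt_of_le_of_lt k.2.2 (by norm_num [HD.TK])⟩
  obtain ⟨K, hK'⟩ : ∃ K : Jx → Set E6, K = Sum.elim (Sum.elim (fun _ => H4_KI) fun l => KN l.2) KK :=
    ⟨_, rfl⟩
  obtain ⟨C, hC⟩ : ∃ C : Jx → E6 → Prop, C = fun i x => ∃ j, ∃ y ∈ K j, (atlH d).R i x j y :=
    ⟨_, rfl⟩
  have tr : ∀ {i x j y}, (atlH d).R i x j y → C j y → C i x := fun r k => by
    rw [hC] at k ⊢
    obtain ⟨l, z, a, b⟩ := k
    exact ⟨l, z, a, P.trans r b⟩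
  have gIN : ∀ {j s z}, z ∈ DI j s → (atlH d).R (jx .I) z (jx (.N j s)) (LL j z) :=
    fun {j s z} k => H4_gl glI_ok atlI_pre (TN_ok.pre.copies _) (j, s) k
  have gIK : ∀ {j z}, z ∈ DS j → (atlH d).R (jx .I) z (jx (.K .m)) (d.La (d.oS j z)) :=
    fun {j z} k => H4_gl (glH_ok h) atlZ_pre (TK_ok h).pre (.inl j) k
  have gNK : ∀ j {z}, z ∈ DU → (atlH d).R (jx (.N j .m)) z (jx (.K .m)) (d.La (d.oU j z)) :=
    fun j {z} k => H4_gl (glH_ok h) atlZ_pre (TK_ok h).pre (.inr j) k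
  have c2 : ∀ j s, ∀ x ∈ TN.W s, (TN.io s x).1 0 ∈ Icc (-3 / 8 : ℝ) (5 / 8) →
      amu (TN.io s x) ∈ Icc (-23 / 200 : ℝ) (23 / 200) → C (jx (.N j s)) x :=
    fun j s x hx a b => by
      obtain ⟨s', y, k, r⟩ := cN s x hx 0 ⟨by simpa using a, b⟩
      exact hC ▸ ⟨jx (.N j s'), y, hK' ▸ k, rfl, hx, (hN s').2 k, r⟩
  have c3 : ∀ s, ∀ x ∈ d.TK.W s, amu (d.TK.io s x) ∈ Icc (41 / 16 - d.a / 9) (1 / 2) →
      C (jx (.K s)) x := fun s x hx b => by
    obtain ⟨s', y, k, r⟩ := cK s x hx (-⌊(d.TK.io s x).1 0⌋) ⟨by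
      have e : d.TK.κ = 1 := rfl
      simpa [e, ← sub_eq_add_neg] using (Int.fract_lt_one _).le, b⟩
    exact hC ▸ ⟨jx (.K s'), y, hK' ▸ k, hx, (hK s').2 k, r⟩
  have c3' : ∀ {i x z}, (atlH d).R i x (jx (.K .m)) (d.La z) →
      z (2, 0) ∈ Icc (41 / 16 - d.a / 9) (1 / 2) → C i x := fun r k =>
    tr r (c3 _ _ (P.mem r).2 (by rwa [io_amu (by decide) (P.mem r).2]))
  have c4 : ∀ x ∈ WI, C (jx .I) x := fun x hx => by
    by_cases k : ∃ j : Fin 3, 21 / 8 < rot^[j] x (0, 0)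
    · obtain ⟨i, k⟩ := k
      obtain ⟨j, e⟩ := DS_of_level hx ⟨i, by linarith⟩
      refine c3' (gIK e) ⟨?_, by linarith [(oS_mem h e).2]⟩
      change _ ≤ rot^[j] x (0, 0) - d.a / 9
      linarith [H4_max e i]
    by_cases k' : ∀ j : Fin 3, rot^[j] x (0, 0) ≤ 13 / 8 ∨ rot^[j] x (0, 0) ≤ 23 * |rot^[j] x (2, 0)|
    · obtain ⟨y, a, b, e, f⟩ := H4_fract x
      refine hC ▸ ⟨jx .I, y, hK' ▸ ⟨fun j => ?_, f⟩, hx, mem_WI_congr b e hx, a⟩
      rw [(H4_congr b e j).1, (H4_congr b e j).2]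
      exact ⟨not_lt.1 (not_exists.1 k j), k' j⟩
    push Not at k k'
    obtain ⟨j, a, b⟩ := k'
    have e0 : LL j x (0, 0) = rot^[j] x (0, 0) + -2 := rfl
    have e2 : LL j x (2, 0) = rot^[j] x (2, 0) := rfl
    have := k j
    have q := abs_le.1 (show |LL j x (2, 0)| ≤ 23 / 200 by rw [e2]; linarith)
    obtain ⟨s, e⟩ := DI_of_rect (j := j) hx ⟨fun _ => ⟨by linarith, by linarith⟩,
      lt_of_lt_of_le (by norm_num [TN]) q.1, lt_of_le_of_lt q.2 (by norm_num [TN])⟩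
    have e1 : (TN.io s (LL j x)).1 0 = LL j x (0, 0) := by
      cases s
      exacts [rfl, rfl, absurd rfl e.2.1]
    refine tr (gIN e) (c2 j s _ e.2.2.1 ⟨by linarith, by linarith⟩ ?_)
    rw [io_amu e.2.1 e.2.2.1]
    exact ⟨by linarith [q.1], q.2⟩
  have c5 : ∀ j s, ∀ x ∈ TN.W s, C (jx (.N j s)) x := fun j s x hx => by
    obtain ⟨d1, d2, d3⟩ := io_dom hx
    obtain ⟨d0, d1⟩ := d1 rfl
    change -1 / 8 < _ at d2
    change _ < 1 / 8 at d3
    have u : ∀ {s' y}, TN.atl.R s x s' y → s' ≠ .f → y (0, 0) = (TN.io s x).1 0 →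
        y (2, 0) = amu (TN.io s x) → (y (0, 0) < -1 / 4 ∨ (2 + y (0, 0) < 24 * (sg s' * y (2, 0)) ∧
          2 + y (0, 0) + max (y (2, 0)) 0 < 11 / 4)) → C (jx (.N j s)) x := fun {s' y} r n a b k => by
      have e := LL'_mem_DI (j := j) n (a ▸ b ▸ io_dom hx) k
      have g := gIN e
      rw [LL_LL'] at g
      exact tr (j := jx (.N j s')) (And.intro rfl r) (tr (P.symm g) (c4 _ e.1))
    rcases lt_or_ge (5 / 8) ((TN.io s x).1 0) with k | k
    · obtain ⟨y, r, a, b⟩ := H4_m hx (.inl (by rw [gg_right (by linarith) d1.le]; exact ee_ne_zero _))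
      have q : 0 ≤ hinf (y (2, 0)) := (le_max_right _ _).trans (hm_bounds zero_le_one _).1
      have e : y ∈ DU := ⟨r.2.1, by linarith⟩
      refine tr (j := jx (.N j .m)) (And.intro rfl r)
        (c3' (gNK j e) ⟨?_, by linarith [(oU_mem (j := j) h e).2]⟩)
      change _ ≤ 2 + y (0, 0) + hinf (y (2, 0)) - d.a / 9
      linarith
    rcases lt_or_ge ((TN.io s x).1 0) (-3 / 8) with k' | k'
    · obtain ⟨y, r, a, b⟩ := H4_m hx (.inl (by
        rw [gg_left (by linarith) (by linarith)]; exact one_ne_zero))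
      exact u r (by decide) a b (.inl (by linarith))
    rcases lt_or_ge (amu (TN.io s x)) (-23 / 200) with l | l
    · obtain ⟨y, r, a, b⟩ := H4_m hx (.inr (by linarith))
      refine u r (by decide) a b (.inr ?_)
      rw [sg, max_eq_right (by linarith)]
      constructor <;> linarith
    rcases lt_or_ge (23 / 200) (amu (TN.io s x)) with l' | l'
    · obtain ⟨y, r, a, b⟩ := H4_p hx (by linarith)
      refine u r (by decide) a b (.inr ?_)
      rw [sg, max_eq_left (by linarith)]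
      constructor <;> linarith
    exact c2 j s x hx ⟨k', k⟩ ⟨l, l'⟩
  refine ⟨K, ?_, fun i x hx => ?_, fun z hz k => ?_⟩
  · rintro ((_ | l) | s)
    exacts [hK' ▸ ⟨H4_KI_cpt, H4_KI_sub⟩, hK' ▸ hN l.2, hK' ▸ hK s]
  · suffices C i x ∨ _ by rwa [hC] at this
    obtain (_ | l) | s := i
    · exact .inl (c4 x hx)
    · exact .inl (c5 l.1 l.2 x hx)
    obtain ⟨-, d2, d3⟩ := io_dom hx
    change 5 / 2 - d.a / 9 < _ at d2
    change _ < 15 / 16 at d3
    rcases lt_or_ge (1 / 2) (amu (d.TK.io s x)) with k | k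
    · obtain ⟨y, r, -, b⟩ := H4_p hx (by linarith)
      have e : d.La' y (2, 0) = y (2, 0) := rfl
      exact .inr ⟨d.La' y, ⟨by linarith, by linarith⟩, by linarith, by rwa [La_La' h]⟩
    refine .inl ((le_or_gt _ _).elim (fun l => c3 s x hx ⟨l, k⟩) fun l => ?_)
    obtain ⟨y, r, -, b⟩ := H4_m hx (.inr (by linarith))
    have e : d.La' y (2, 0) = y (2, 0) := rfl
    have u : ∀ {i w z}, (atlH d).R i w (jx (.K .m)) (d.La z) → RS 1 A9 z (d.La' y) → C i w →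
        C (jx (.K s)) x := fun g q k => by
      have q' := (RS_La_m h).2 q
      rw [La_La' h] at q'
      have m := (P.mem g).2
      exact tr (show (atlH d).R _ _ (jx (.K .m)) _ from r) (tr (P.symm (P.trans g
        (show (atlH d).R _ _ (jx (.K .m)) y from
          ⟨m, r.2.1, (RN_iff_RS (TK_ok h) (by decide) m r.2.1).2 q'⟩))) k)
    obtain ⟨j, w, a, q⟩ | ⟨j, w, a, -, q⟩ :=
      collar_cover (d := d) (z := d.La' y) ⟨by linarith, by linarith⟩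
    exacts [u (gIK a) q (c4 w a.1), u (gNK j a) q (c5 j _ w a.1)]
  · have m := La_mem_p h hz
    have := c3 .p _ m (by
      rw [io_amu (by decide) m]
      exact ⟨le_trans (by linarith) hz.1.le, k⟩)
    rwa [hC] at this

theorem atlW_cpt {G : GD} (h : G.Ok) : (atlW G).Cpt := by
  obtain ⟨KA, a1, a2, a3⟩ := half_cover h.okA
  obtain ⟨KB, b1, b2, b3⟩ := half_cover h.okB
  refine ⟨Sum.elim KA KB, fun i => by cases i; exacts [a1 _, b1 _], ?_⟩
  rintro (i | i) x hx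
  · obtain ⟨j, y, k, r⟩ | ⟨z, k, l, r⟩ := a2 i x hx
    · exact ⟨.inl j, y, k, r⟩
    obtain ⟨j, y, k', r'⟩ := b3 _ (Φ_mem.2 k) (show 1 - z (2, 0) ≤ _ by linarith)
    refine ⟨.inr j, y, k', (), G.A.La z, ?_, r, ?_⟩
    · change G.A.La' _ ∈ WD
      rwa [La'_La h.okA]
    · change (atlH G.B).R _ (G.B.La (G.Φ (G.A.La' _))) _ _
      rwa [La'_La h.okA]
  · obtain ⟨j, y, k, r⟩ | ⟨z, k, l, r⟩ := b2 i x hx
    · exact ⟨.inr j, y, k, r⟩
    have k1 : G.Φ' z ∈ WD := Φ_mem.1 (by rwa [Φ_Φ' h])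
    obtain ⟨j, y, k', r'⟩ := a3 _ k1 (show 1 - z (2, 0) ≤ _ by linarith)
    refine ⟨.inl j, y, k', (), G.A.La (G.Φ' z), ?_, (atlH_pre h.okA).symm r', ?_⟩
    · change G.A.La' _ ∈ WD
      rwa [La'_La h.okA]
    · change (atlH G.B).R _ (G.B.La (G.Φ (G.A.La' _))) _ _
      rw [La'_La h.okA, Φ_Φ' h]
      exact (atlH_pre h.okB).symm r

end Pool.Agent.Work.MP_bf98aa_gt.Cy
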