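import Pool.Agent.Work.MP_bf98aa_gt.Cy.H4

/-!
The manifold and its charts.

PLAN. `hm_of`: every field is the relation of `atlH` written out (`Gl.atl`, `Gl.S`, `Atl.copies`); for `cIK` use `DS_of_DU`, `DI_congr`, `RS00_iff`.
-/

set_option autoImplicit false

open scoped Manifold ContDiff Topology
open Set Complex

namespace Pool.Agent.Work.MP_bf98aa_gt.Cy

open Pool.Agent.Work.MP_bf98aa_gt.Th

variable {M : Type} [TopologicalSpace M] [ChartedSpace E6 M] [IsManifold 𝓘(ℝ, E6) ∞ M]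

theorem H5_rot {z z' : E6} (h0 : z' (0, 0) = z (0, 0)) (h2 : z' (2, 0) = z (2, 0)) (n : ℕ) :
    rot^[n] z' (0, 0) = rot^[n] z (0, 0) ∧ rot^[n] z' (2, 0) = rot^[n] z (2, 0) := by
  induction n with
  | zero => exact ⟨h0, h2⟩
  | succ n ih =>
    rw [Function.iterate_succ_apply', Function.iterate_succ_apply']
    simp only [rot, mk00, mk20, ih.1, ih.2, and_self]

theorem H5_DS {z z' : E6} {j : Fin 3} (h0 : z' (0, 0) = z (0, 0)) (h2 : z' (2, 0) = z (2, 0))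
    (h : z ∈ DS j) : z' ∈ DS j := by
  obtain ⟨e0, e2⟩ := H5_rot h0 h2 j
  refine ⟨mem_WI_congr h0 h2 h.1, ?_⟩
  rw [e0, e2]
  exact h.2

theorem H5_RS {z z' : E6} (h : RS 0 0 z z') : z (0, 0) = z' (0, 0) ∧ z (2, 0) = z' (2, 0) := by
  obtain ⟨h0, h2, -⟩ := RS00_iff.1 h
  exact ⟨(sub_eq_zero.1 h0).symm, (sub_eq_zero.1 h2).symm⟩

theorem H5_S {ι₁ ι₂ L : Type} {G : Gl ι₁ ι₂ L} {A : Atl ι₁} {B : Atl ι₂} (h : G.Ok A B)
    (hA : A.Pre) (hB : B.Pre) (l : L) {z : E6} (hz : z ∈ G.D l) :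
    G.S A B (G.s l) z (G.t l) (G.o l z) :=
  ⟨l, z, hz, hA.refl (h.sub l hz), hB.refl (h.maps l hz)⟩

theorem H5_level {z : E6} {j j' : Fin 3} (h : z ∈ DS j')
    (h' : TN.dom (LL j z (0, 0)) (LL j z (2, 0))) :
    (LL j z (2, 0) < 0 ∧ 1 / 2 < LL j z (0, 0)) ∨
      (0 < LL j z (2, 0) ∧ 1 / 2 < LL j z (0, 0) + LL j z (2, 0)) := by
  obtain ⟨-, h1, h2, h3⟩ := h
  obtain ⟨h4, h5, h6⟩ := h'
  obtain ⟨h4, h7⟩ := h4 rfl
  have r0 : ∀ z : E6, rot^[((0 : Fin 3) : ℕ)] z = z := fun _ => rfl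
  have r1 : ∀ z : E6, rot^[((1 : Fin 3) : ℕ)] z = rot z := fun _ => rfl
  have r2 : ∀ z : E6, rot^[((2 : Fin 3) : ℕ)] z = rot^[2] z := fun _ => rfl
  have hj : ∀ i : Fin 3, i = 0 ∨ i = 1 ∨ i = 2 := by decide
  simp only [TN] at h5 h6
  rcases hj j with rfl | rfl | rfl <;> rcases hj j' with rfl | rfl | rfl <;>
    simp only [LL, sh, r0, r1, r2, rot_two, rot, mk00, mk20] at h1 h2 h3 h4 h5 h6 h7 ⊢ <;>
    first
      | exact Or.inl ⟨by linarith, by linarith⟩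
      | exact Or.inr ⟨by linarith, by linarith⟩

theorem H5_DU {z : E6} {j j' : Fin 3} {s : K3} (h : z ∈ DS j') (hz : z ∈ DI j s) :
    ∃ y ∈ DU, TN.io s (LL j z) = TN.io .m y := by
  have hW : LL j z ∈ TN.W s := hz.2.2.1
  have hd : TN.dom (LL j z (0, 0)) (LL j z (2, 0)) := by
    cases s with
    | m => exact hW.1
    | p => exact hW.1
    | f => exact absurd rfl hz.2.1
  have hb := hd.1 rfl
  have hhi : LL j z (2, 0) < 1 / 8 := hd.2.2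
  have hc := DI_cases hz
  have hh : max (LL j z (2, 0)) 0 ≤ hinf (LL j z (2, 0)) := (hm_bounds zero_le_one _).1
  have hl := H5_level h hd
  have key : 1 / 2 < LL j z (0, 0) + hinf (LL j z (2, 0)) := by
    rcases hl with hl | hl
    · linarith [le_max_right (LL j z (2, 0)) 0, hl.2]
    · linarith [le_max_left (LL j z (2, 0)) 0, hl.2]
  cases s with
  | m => exact ⟨_, ⟨hW, key⟩, rfl⟩
  | f => exact absurd rfl hz.2.1
  | p =>
    have hp : 1 / 4 ≤ LL j z (0, 0) := by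
      rcases hl with hl | hl <;> linarith [hl.2]
    have hg : gz (LL j z) ≠ 0 := by
      rw [gz, gg_right hp hb.2.le]
      exact ee_ne_zero _
    obtain ⟨t, ht, e⟩ := exists_m hW hg
    refine ⟨_, ⟨ht, ?_⟩, e⟩
    rw [setF, Function.update_of_ne (by decide), Function.update_of_ne (by decide)]
    exact key

theorem H5_W (d : HD) (c : Ix) : (atlH d).W (jx c) = d.W c := by
  cases c <;> rfl

theorem H5_jx (i : Jx) : ∃ c, jx c = i := by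
  rcases i with (⟨⟩ | ⟨j, s⟩) | s
  exacts [⟨.I, rfl⟩, ⟨.N j s, rfl⟩, ⟨.K s, rfl⟩]

theorem hm_of {d : HD} (h : d.Ok) {q : Jx → E6 → M} (hP : ∀ i, Par (q i) ((atlH d).W i))
    (he : ∀ i j, ∀ x ∈ (atlH d).W i, ∀ y ∈ (atlH d).W j, q i x = q j y ↔ (atlH d).R i x j y) :
    HM d fun c => q (jx c) := by
  have hN := TN_ok.pre.copies (Fin 3)
  have eI : ∀ z ∈ WI, ∀ z' ∈ WI, q (jx .I) z = q (jx .I) z' ↔ RS 0 0 z z' := fun z hz z' hz' =>
    (he (jx .I) (jx .I) z hz z' hz').trans ⟨fun k => k.2.2, fun k => ⟨hz, hz', k⟩⟩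
  have eN : ∀ j s s', ∀ x ∈ TN.W s, ∀ y ∈ TN.W s', q (jx (.N j s)) x = q (jx (.N j s')) y ↔
      TN.RN (TN.io s x) (TN.io s' y) := fun j s s' x hx y hy =>
    (he (jx (.N j s)) (jx (.N j s')) x hx y hy).trans ⟨fun k => k.2.2.2, fun k => ⟨rfl, hx, hy, k⟩⟩
  refine ⟨h, fun c => H5_W d c ▸ hP (jx c), eI, fun j => ⟨TN_ok, fun s => hP (jx (.N j s)), eN j⟩,
    ⟨TK_ok h, fun s => hP (jx (.K s)), fun s s' x hx y hy =>
      (he (jx (.K s)) (jx (.K s')) x hx y hy).trans ⟨fun k => k.2.2, fun k => ⟨hx, hy, k⟩⟩⟩,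
    fun j s z hz => ?_, fun j s z hz y hy e => ?_, fun j s j' s' x hx y hy e => ?_,
    fun j z hz => ?_, fun j z hz => ?_, fun s z hz y hy e => ?_, fun j s s' x hx y hy e => ?_⟩
  · exact (he (jx .I) (jx (.N j s)) z hz.1 _ hz.2.2.1).2 (H5_S glI_ok atlI_pre hN (j, s) hz)
  · obtain ⟨⟨j', s'⟩, z₀, hz₀, h1, h2, -⟩ := (he (jx .I) (jx (.N j s)) z hz y hy).1 e
    obtain rfl : j' = j := h2
    exact ⟨s', DI_congr (H5_RS h1.2.2).1 (H5_RS h1.2.2).2 hz₀⟩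
  · exact ((he (jx (.N j s)) (jx (.N j' s')) x hx y hy).1 e).1
  · exact (he (jx .I) (jx (.K .m)) z hz.1 _ ((glH_ok h).maps (.inl j) hz)).2
      (H5_S (glH_ok h) atlZ_pre (TK_ok h).pre (.inl j) hz)
  · exact (he (jx (.N j .m)) (jx (.K .m)) z hz.1 _ ((glH_ok h).maps (.inr j) hz)).2
      (H5_S (glH_ok h) atlZ_pre (TK_ok h).pre (.inr j) hz)
  · obtain ⟨j | j, z₀, hz₀, h1, -⟩ := (he (jx .I) (jx (.K s)) z hz y hy).1 e
    · exact ⟨j, H5_DS (H5_RS h1.2.2).1 (H5_RS h1.2.2).2 hz₀⟩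
    · obtain ⟨⟨j', s'⟩, z₁, hz₁, h2, -, -, -, h3⟩ := h1
      obtain ⟨j'', h4⟩ := DS_of_DU (j := j') hz₁ hz₀ h3
      exact ⟨j'', H5_DS (H5_RS h2.2.2).1 (H5_RS h2.2.2).2 h4⟩
  · obtain ⟨j' | j', z₀, hz₀, h1, -⟩ := (he (jx (.N j s)) (jx (.K s')) x hx y hy).1 e
    · obtain ⟨⟨j₁, s₁⟩, z₁, hz₁, h2, h3, -, -, h4⟩ := h1
      obtain rfl : j₁ = j := h3
      obtain ⟨w, hw, e'⟩ := H5_DU (j := j₁) (H5_DS (H5_RS h2.2.2).1.symm (H5_RS h2.2.2).2.symm hz₀) hz₁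
      exact ⟨w, hw, (eN j₁ s .m x hx w hw.1).2 (e' ▸ TD.RN.symm h4)⟩
    · exact ⟨z₀, hz₀, (eN j s .m x hx z₀ hz₀.1).2 h1.2.2.2⟩

theorem exists_WM {G : GD} (h : G.Ok) :
    ∃ (M : Type) (_ : TopologicalSpace M) (_ : T2Space M) (_ : CompactSpace M)
      (_ : ChartedSpace E6 M) (_ : IsManifold 𝓘(ℝ, E6) ∞ M) (qA qB : Ix → E6 → M),
      WM G qA qB := by
  obtain ⟨M, τ, h2, hc, cs, im, q, hP, he, hs⟩ := (atlW G).exists_mfd (atlW_pre h) (atlW_cpt h)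
    ⟨.inl (jx .I), 0, starConvex_WI.1⟩
  refine ⟨M, τ, h2, hc, cs, im, fun c => q (.inl (jx c)), fun c => q (.inr (jx c)), h,
    hm_of (q := fun i => q (.inl i)) h.okA (fun i => hP (.inl i)) fun i j => he (.inl i) (.inl j),
    hm_of (q := fun i => q (.inr i)) h.okB (fun i => hP (.inr i)) fun i j => he (.inr i) (.inr j),
    fun z hz => ?_, fun c c' x hx y hy e => ?_, eq_univ_of_forall fun m => ?_⟩
  · have h1 : G.A.La z ∈ (glW G).D () := by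
      change G.A.La' (G.A.La z) ∈ WD
      rwa [La'_La h.okA]
    have h3 := H5_S (glW_ok h) (atlH_pre h.okA) (atlH_pre h.okB) () h1
    have h4 : (glW G).o () (G.A.La z) = G.B.La (G.Φ z) := by
      change G.B.La (G.Φ (G.A.La' (G.A.La z))) = _
      rw [La'_La h.okA]
    rw [h4] at h3
    exact (he (.inl (jx (.K .p))) (.inr (jx (.K .p))) _ (La_mem_p h.okA hz) _
      (La_mem_p h.okB (Φ_mem.2 hz))).2 h3
  · have hx' : x ∈ (atlH G.A).W (jx c) := (H5_W G.A c).symm ▸ hx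
    have hy' : y ∈ (atlH G.B).W (jx c') := (H5_W G.B c').symm ▸ hy
    obtain ⟨l, z, hz, h1, -⟩ := (he (.inl (jx c)) (.inr (jx c')) x hx' y hy').1 e
    refine ⟨G.A.La' z, hz, ?_⟩
    change q (.inl (jx c)) x = q (.inl (jx (.K .p))) (G.A.La (G.A.La' z))
    rw [La_La' h.okA]
    exact (he (.inl (jx c)) (.inl (jx (.K .p))) x hx' z ((atlH_pre h.okA).mem h1).2).2 h1
  · obtain ⟨i | i, x, hx, rfl⟩ := hs m <;> obtain ⟨c, rfl⟩ := H5_jx i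
    · exact Or.inl (mem_iUnion.2 ⟨c, x, H5_W G.A c ▸ hx, rfl⟩)
    · exact Or.inr (mem_iUnion.2 ⟨c, x, H5_W G.B c ▸ hx, rfl⟩)


end Pool.Agent.Work.MP_bf98aa_gt.Cy
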