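import Pool.Agent.Work.MP_bf98aa_gt.Cy.H2
import Pool.Agent.Work.MP_bf98aa_gt.Cy.K6

/-!
Structure of a half: induction over related points, deck groups, images.

PLAN. `ind`: case analysis on the two charts; a pair `I`, `N j s` is joined through `(N j s', LL j z)` (`cIN`, `gIN`), a pair `I`, `K s` through `(K m, La (oS j z))`, a pair `N j s`, `K s'` through
`(N j m, z)` and `(K m, La (oU j z))`. `WM.ind`: a mixed pair is joined through `(K p, La z)` on both sides.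
-/

set_option autoImplicit false

open scoped Manifold ContDiff Topology
open Set Complex

namespace Pool.Agent.Work.MP_bf98aa_gt.Cy

open Pool.Agent.Work.MP_bf98aa_gt.Th

variable {M : Type} [TopologicalSpace M] [ChartedSpace E6 M] [IsManifold 𝓘(ℝ, E6) ∞ M]

variable {d : HD} {q : Ix → E6 → M}

theorem H6_m : K3.m ≠ .f := by decide

theorem H6_p : K3.p ≠ .f := by decide

theorem H6_low (h : d.Ok) {z : E6} (hz : z ∈ Slab (5 / 2 - d.a / 9) (11 / 4 - d.a / 9)) :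
    d.La z ∈ d.TK.W .m :=
  La_mem_m ⟨hz.1, hz.2.trans (by linarith [h.ha])⟩

theorem H6_oS (h : d.Ok) {j : Fin 3} {z : E6} (hz : z ∈ DS j) : d.La (d.oS j z) ∈ d.TK.W .m :=
  H6_low h (oS_mem h hz)

theorem H6_oU (h : d.Ok) (j : Fin 3) {z : E6} (hz : z ∈ DU) : d.La (d.oU j z) ∈ d.TK.W .m :=
  La_mem_m ⟨(oU_mem h hz).1, (oU_mem h hz).2.trans (by norm_num)⟩

theorem HM.ind (h : HM d q) {P : Ix → E6 → Ix → E6 → Prop}
    (symm : ∀ c c', ∀ x ∈ d.W c, ∀ y ∈ d.W c', P c x c' y → P c' y c x)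
    (trans : ∀ c c' c'', c'.Reg → ∀ x ∈ d.W c, ∀ y ∈ d.W c', ∀ z ∈ d.W c'',
      P c x c' y → P c' y c'' z → P c x c'' z)
    (hI : ∀ z ∈ WI, ∀ z' ∈ WI, RS 0 0 z z' → P .I z .I z')
    (hN : ∀ j s s', ∀ x ∈ TN.W s, ∀ y ∈ TN.W s', q (.N j s) x = q (.N j s') y →
      P (.N j s) x (.N j s') y)
    (hK : ∀ s s', ∀ x ∈ d.TK.W s, ∀ y ∈ d.TK.W s', q (.K s) x = q (.K s') y → P (.K s) x (.K s') y)
    (hIN : ∀ j s, ∀ z ∈ DI j s, P .I z (.N j s) (LL j z))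
    (hIK : ∀ j, ∀ z ∈ DS j, P .I z (.K .m) (d.La (d.oS j z)))
    (hNK : ∀ j, ∀ z ∈ DU, P (.N j .m) z (.K .m) (d.La (d.oU j z))) :
    ∀ c c', ∀ x ∈ d.W c, ∀ y ∈ d.W c', q c x = q c' y → P c x c' y := by
  have IN : ∀ j s, ∀ x ∈ WI, ∀ y ∈ TN.W s, q .I x = q (.N j s) y → P .I x (.N j s) y := by
    intro j s x hx y hy he
    obtain ⟨s', hs⟩ := h.cIN j s x hx y hy he
    exact trans .I (.N j s') (.N j s) hs.2.1 x hx _ hs.2.2.1 y hy (hIN j s' x hs)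
      (hN j s' s _ hs.2.2.1 y hy ((h.gIN j s' x hs).symm.trans he))
  have IK : ∀ s, ∀ x ∈ WI, ∀ y ∈ d.TK.W s, q .I x = q (.K s) y → P .I x (.K s) y := by
    intro s x hx y hy he
    obtain ⟨j, hj⟩ := h.cIK s x hx y hy he
    exact trans .I (.K .m) (.K s) H6_m x hx _ (H6_oS h.ok hj) y hy (hIK j x hj)
      (hK .m s _ (H6_oS h.ok hj) y hy ((h.gIK j x hj).symm.trans he))
  have NK : ∀ j s s', ∀ x ∈ TN.W s, ∀ y ∈ d.TK.W s', q (.N j s) x = q (.K s') y →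
      P (.N j s) x (.K s') y := by
    intro j s s' x hx y hy he
    obtain ⟨z, hz, e⟩ := h.cNK j s s' x hx y hy he
    exact trans (.N j s) (.K .m) (.K s') H6_m x hx _ (H6_oU h.ok j hz) y hy
      (trans (.N j s) (.N j .m) (.K .m) H6_m x hx z hz.1 _ (H6_oU h.ok j hz)
        (hN j s .m x hx z hz.1 e) (hNK j z hz))
      (hK .m s' _ (H6_oU h.ok j hz) y hy ((h.gNK j z hz).symm.trans (e.symm.trans he)))
  rintro (_ | ⟨j, s⟩ | s) (_ | ⟨j', s'⟩ | s') x hx y hy he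
  · exact hI x hx y hy ((h.eI x hx y hy).1 he)
  · exact IN _ _ x hx y hy he
  · exact IK _ x hx y hy he
  · exact symm _ _ y hy x hx (IN _ _ y hy x hx he.symm)
  · obtain rfl := h.cNN _ _ _ _ x hx y hy he
    exact hN _ _ _ x hx y hy he
  · exact NK _ _ _ x hx y hy he
  · exact symm _ _ y hy x hx (IK _ y hy x hx he.symm)
  · exact symm _ _ y hy x hx (NK _ _ _ y hy x hx he.symm)
  · exact hK _ _ x hx y hy he

theorem H6_WD (G : GD) {z : E6} (hz : z ∈ WD) : G.Φ z ∈ WD ∧ G.Φ' z ∈ WD := by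
  have h : (1 / 16 : ℝ) < 1 - z (2, 0) ∧ 1 - z (2, 0) < 15 / 16 :=
    ⟨by linarith [hz.2], by linarith [hz.1]⟩
  exact ⟨h, h⟩

theorem H6_inv {G : GD} (h : G.Ok) (z : E6) : G.Φ (G.Φ' z) = z := by
  have hP : (G.P 0 0 : ℝ) * G.P 1 1 - G.P 0 1 * G.P 1 0 = -1 := by
    exact_mod_cast (Matrix.det_fin_two G.P).symm.trans h.dP
  have hQ : (G.Q 0 0 : ℝ) * G.Q 1 1 - G.Q 0 1 * G.Q 1 0 = -1 := by
    exact_mod_cast (Matrix.det_fin_two G.Q).symm.trans h.dQ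
  apply ext6 <;> simp only [GD.Φ, GD.Φ', mk00, mk01, mk10, mk11, mk20, mk21]
  · linear_combination -z (0, 0) * hP
  · linear_combination -z (0, 1) * hQ
  · linear_combination -z (1, 0) * hP
  · linear_combination -z (1, 1) * hQ
  · ring
  · ring

theorem WM.ind {G : GD} {qA qB : Ix → E6 → M} (h : WM G qA qB)
    {P : Ix ⊕ Ix → E6 → Ix ⊕ Ix → E6 → Prop}
    (symm : ∀ c c', ∀ x ∈ G.W c, ∀ y ∈ G.W c', P c x c' y → P c' y c x)
    (trans : ∀ c c' c'', (c' = .inl (.K .p) ∨ c' = .inr (.K .p)) → ∀ x ∈ G.W c, ∀ y ∈ G.W c',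
      ∀ z ∈ G.W c'', P c x c' y → P c' y c'' z → P c x c'' z)
    (hA : ∀ c c', ∀ x ∈ G.A.W c, ∀ y ∈ G.A.W c', qA c x = qA c' y → P (.inl c) x (.inl c') y)
    (hB : ∀ c c', ∀ x ∈ G.B.W c, ∀ y ∈ G.B.W c', qB c x = qB c' y → P (.inr c) x (.inr c') y)
    (hAB : ∀ z ∈ WD, P (.inl (.K .p)) (G.A.La z) (.inr (.K .p)) (G.B.La (G.Φ z))) :
    ∀ c c', ∀ x ∈ G.W c, ∀ y ∈ G.W c', Sum.elim qA qB c x = Sum.elim qA qB c' y → P c x c' y := by
  have AB : ∀ c c', ∀ x ∈ G.A.W c, ∀ y ∈ G.B.W c', qA c x = qB c' y →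
      P (.inl c) x (.inr c') y := by
    intro c c' x hx y hy he
    obtain ⟨z, hz, e⟩ := h.cAB c c' x hx y hy he
    have h1 := La_mem_p h.ok.okA hz
    have h2 := La_mem_p h.ok.okB (H6_WD G hz).1
    exact trans (.inl c) (.inr (.K .p)) (.inr c') (.inr rfl) x hx _ h2 y hy
      (trans (.inl c) (.inl (.K .p)) (.inr (.K .p)) (.inl rfl) x hx _ h1 _ h2
        (hA c (.K .p) x hx _ h1 e) (hAB z hz))
      (hB (.K .p) c' _ h2 y hy ((h.gAB z hz).symm.trans (e.symm.trans he)))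
  rintro (c | c) (c' | c') x hx y hy he
  · exact hA _ _ x hx y hy he
  · exact AB _ _ x hx y hy he
  · exact symm _ _ y hy x hx (AB _ _ y hy x hx he.symm)
  · exact hB _ _ x hx y hy he

theorem HM.deck_I (h : HM d q) : Deck (q .I) WI (HT 0 0) := by
  have hm : ∀ f ∈ HT 0 0, MapsTo f WI WI := by
    rintro _ ⟨m₀, m₁, n₀, n₁, l, rfl⟩ x hx
    exact mem_WI_congr (z := x) (by simp [hact]) rfl hx
  exact ⟨h.par .I, fun _ ⟨_, _, _, _, _, hf⟩ => hf ▸ hact_contDiff _ _ _ _ _, hm,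
    fun f hf x hx => ((h.eI x hx _ (hm f hf hx)).2 ⟨f, hf, rfl⟩).symm,
    fun x hx y hy he => (h.eI x hx y hy).1 he⟩

theorem H6_deck (h : HM d q) {s : K3} (hs : s ≠ .f) {A : Matrix (Fin 2) (Fin 2) ℤ}
    (e : ∀ z z', RS 1 (d.TK.As s) (d.La z) (d.La z') ↔ RS 1 A z z') :
    Deck (fun z => q (.K s) (d.La z)) (d.La ⁻¹' d.TK.W s) (HT 1 A) := by
  have hD := h.tK.deck hs
  refine ⟨(h.par (.K s)).comp d.contDiff_La d.contDiff_La' (La'_La h.ok) (La_La' h.ok),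
    fun _ ⟨_, _, _, _, _, hf⟩ => hf ▸ hact_contDiff _ _ _ _ _, fun f hf x hx => ?_,
    fun f hf x hx => ?_, fun x hx y hy he => (e x y).1 (hD.trans _ hx _ hy he)⟩
  · obtain ⟨g, hg, e'⟩ := (e x (f x)).2 ⟨f, hf, rfl⟩
    exact mem_preimage.2 (e' ▸ hD.maps g hg hx)
  · obtain ⟨g, hg, e'⟩ := (e x (f x)).2 ⟨f, hf, rfl⟩
    exact (congrArg (q (.K s)) e'.symm).trans (hD.eq g hg _ hx)

theorem H6_res {ψ : E6 → M} {U : Set E6} {A : Matrix (Fin 2) (Fin 2) ℤ} {a b : ℝ}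
    (h : Deck ψ U (HT 1 A)) (hU : Slab a b ⊆ U) : Deck ψ (Slab a b) (HT 1 A) :=
  ⟨h.par.mono G11_open hU, h.sm, fun _ ⟨_, _, _, _, _, hf⟩ _ hx => hf ▸ G11_maps _ _ _ _ _ hx,
    fun f hf x hx => h.eq f hf x (hU hx), fun x hx y hy => h.trans x (hU hx) y (hU hy)⟩

theorem HM.deck_O (h : HM d q) : Deck (qO d q) (d.La ⁻¹' d.TK.W .m) (HT 1 A9) := H6_deck h H6_m fun _ _ => RS_La_m h.ok

theorem HM.deck_P (h : HM d q) : Deck (qD d q) (d.La ⁻¹' d.TK.W .p) (HT 1 d.v) := H6_deck h H6_p fun _ _ => RS_La_p h.ok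

theorem HM.deck_low (h : HM d q) {b : ℝ} (hb : b ≤ 0) :
    Deck (qO d q) (Slab (5 / 2 - d.a / 9) b) (HT 1 A9) := H6_res h.deck_O fun _ hz => La_mem_m ⟨hz.1, hz.2.trans_le hb⟩

theorem HM.deck_D (h : HM d q) : Deck (qD d q) WD (HT 1 d.v) := H6_res h.deck_P fun _ hz => La_mem_p h.ok hz

theorem HM.isOpen_Im (h : HM d q) (c : Ix) : IsOpen (Im d q c) := (h.par c).isOpen_image (h.par c).opn Subset.rfl

theorem HM.isOpen_HH (h : HM d q) : IsOpen (HH d q) := isOpen_iUnion h.isOpen_Im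

theorem H6_HN (h : HM d q) (j : Fin 3) (s : K3) : Im d q (.N j s) ⊆ HN d q j := by
  cases s
  · exact subset_union_left
  · exact (h.tN j).im_p
  · exact subset_union_right

theorem H6_HN' {j : Fin 3} {m : M} (hm : m ∈ HN d q j) : ∃ s, ∃ x ∈ TN.W s, q (.N j s) x = m :=
  hm.elim (fun h => ⟨.m, h⟩) fun h => ⟨.f, h⟩

theorem H6_HH (c : Ix) : Im d q c ⊆ HH d q := subset_iUnion (fun c => q c '' d.W c) c

theorem HM.HH_eq (h : HM d q) :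
    HH d q = ((Im d q .I ∪ ⋃ j, HN d q j) ∪ Im d q (.K .m)) ∪ Im d q (.K .f) := by
  refine (iUnion_subset ?_).antisymm (union_subset (union_subset (union_subset (H6_HH _)
    (iUnion_subset fun j => union_subset (H6_HH _) (H6_HH _))) (H6_HH _)) (H6_HH _))
  rintro (_ | ⟨j, s⟩ | (_ | _ | _)) m hm
  · exact .inl (.inl (.inl hm))
  · exact .inl (.inl (.inr (mem_iUnion.2 ⟨j, H6_HN h j s hm⟩)))
  · exact .inl (.inr hm)
  · exact (h.tK.im_p hm).elim (fun h => .inl (.inr h)) .inr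
  · exact .inr hm

theorem HM.HN_disjoint (h : HM d q) : Pairwise fun i j => Disjoint (HN d q i) (HN d q j) := by
  intro i j hij
  refine disjoint_left.2 fun m hi hj => ?_
  obtain ⟨s, x, hx, rfl⟩ := H6_HN' hi
  obtain ⟨s', y, hy, e⟩ := H6_HN' hj
  exact hij (h.cNN _ _ _ _ x hx y hy e.symm)

theorem HM.I_inter_HN (h : HM d q) (j : Fin 3) : Im d q .I ∩ HN d q j =
    q .I '' {z | z ∈ WI ∧ TN.dom (LL j z (0, 0)) (LL j z (2, 0))} := by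
  refine Subset.antisymm ?_ ?_
  · rintro _ ⟨⟨z, hz, rfl⟩, hm⟩
    obtain ⟨s, y, hy, e⟩ := H6_HN' hm
    obtain ⟨s', -, hs, hw, -⟩ := h.cIN j s z hz y hy e.symm
    refine ⟨z, ⟨hz, ?_⟩, rfl⟩
    cases s'
    · exact hw.1
    · exact hw.1
    · exact absurd rfl hs
  · rintro _ ⟨z, ⟨hz, hd⟩, rfl⟩
    obtain ⟨s, hs⟩ := DI_of_rect hz hd
    exact ⟨⟨z, hz, rfl⟩, H6_HN h j s ⟨_, hs.2.2.1, (h.gIN j s z hs).symm⟩⟩

theorem HM.inter_f (h : HM d q) :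
    ((Im d q .I ∪ ⋃ j, HN d q j) ∪ Im d q (.K .m)) ∩ Im d q (.K .f) =
      Im d q (.K .m) ∩ Im d q (.K .f) := by
  refine Subset.antisymm ?_ (inter_subset_inter_left _ subset_union_right)
  rintro m ⟨(⟨z, hz, rfl⟩ | hm) | hm, y, hy, e⟩
  · obtain ⟨j, hj⟩ := h.cIK .f z hz y hy e.symm
    exact ⟨⟨_, H6_oS h.ok hj, (h.gIK j z hj).symm⟩, y, hy, e⟩
  · obtain ⟨j, hj⟩ := mem_iUnion.1 hm
    obtain ⟨s, x, hx, rfl⟩ := H6_HN' hj
    obtain ⟨z, hz, e'⟩ := h.cNK j s .f x hx y hy e.symm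
    exact ⟨⟨_, H6_oU h.ok j hz, (e'.trans (h.gNK j z hz)).symm⟩, y, hy, e⟩
  · exact ⟨hm, y, hy, e⟩

/-- The inner part of a strip. -/
def H6_V : Set E6 := TN.W .m ∩ {z | z (0, 0) + hinf (z (2, 0)) < 3 / 4}

theorem H6_V_open : IsOpen H6_V :=
  (TN.isOpen_W _).inter (isOpen_lt ((continuous_apply _).add
    (contDiff_hinf.continuous.comp (continuous_apply _))) continuous_const)

theorem H6_RN {a a' : Am} (h : TN.RN a a') : a'.1 0 = a.1 0 := by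
  obtain ⟨m, hm⟩ := h.1
  simpa [TN, sub_eq_zero] using hm

theorem H6_qO (h : HM d q) {z z' : E6} (hz : d.La z ∈ d.TK.W .m) (e : RS 1 A9 z z') :
    qO d q z' = qO d q z ∧ z' (2, 0) = z (2, 0) := by
  obtain ⟨f, hf, rfl⟩ := e
  refine ⟨h.deck_O.eq f hf z hz, ?_⟩
  obtain ⟨_, _, _, _, _, rfl⟩ := hf
  rfl

theorem HM.collar (h : HM d q) : ∃ Y : Set M, IsOpen Y ∧ Y ⊆ Im d q .I ∪ ⋃ j, HN d q j ∧
    Y ∪ Im d q (.K .m) = (Im d q .I ∪ ⋃ j, HN d q j) ∪ Im d q (.K .m) ∧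
    Y ∩ Im d q (.K .m) = qO d q '' Slab (5 / 2 - d.a / 9) (11 / 4 - d.a / 9) := by
  refine ⟨Im d q .I ∪ ⋃ j, q (.N j .m) '' H6_V ∪ Im d q (.N j .f), (h.isOpen_Im _).union
    (isOpen_iUnion fun j => ((h.par (.N j .m)).isOpen_image H6_V_open inter_subset_left).union
      (h.isOpen_Im _)), ?_, ?_, ?_⟩
  · exact union_subset_union_right _ (iUnion_mono fun j =>
      union_subset_union_left _ (image_mono inter_subset_left))
  · refine (union_subset_union_left _ (union_subset_union_right _ (iUnion_mono fun j =>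
      union_subset_union_left _ (image_mono inter_subset_left)))).antisymm ?_
    rintro m ((hm | hm) | hm)
    · exact .inl (.inl hm)
    · obtain ⟨j, ⟨z, hz, rfl⟩ | hj⟩ := mem_iUnion.1 hm
      · by_cases hl : z (0, 0) + hinf (z (2, 0)) < 3 / 4
        · exact .inl (.inr (mem_iUnion.2 ⟨j, .inl ⟨z, ⟨hz, hl⟩, rfl⟩⟩))
        · have hU : z ∈ DU := ⟨hz, by linarith [not_lt.1 hl]⟩
          exact .inr ⟨_, H6_oU h.ok j hU, (h.gNK j z hU).symm⟩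
      · exact .inl (.inr (mem_iUnion.2 ⟨j, .inr hj⟩))
    · exact .inr hm
  · refine Subset.antisymm ?_ ?_
    · rintro m ⟨⟨z, hz, rfl⟩ | hm, y, hy, e⟩
      · obtain ⟨j, hj⟩ := h.cIK .m z hz y hy e.symm
        exact ⟨_, oS_mem h.ok hj, (h.gIK j z hj).symm⟩
      · obtain ⟨j, ⟨x, hx, rfl⟩ | ⟨x, hx, rfl⟩⟩ := mem_iUnion.1 hm
        · obtain ⟨z, hz, e'⟩ := h.cNK j .m .m x hx.1 y hy e.symm
          have hR := ((h.tN j).eq _ _ x hx.1 z hz.1).1 e'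
          have h0 : z (0, 0) = x (0, 0) := H6_RN hR
          have h2 : z (2, 0) = x (2, 0) :=
            (io_amu H6_m hz.1).symm.trans (hR.amu.trans (io_amu H6_m hx.1))
          refine ⟨_, ⟨(oU_mem h.ok hz).1, ?_⟩, (e'.trans (h.gNK j z hz)).symm⟩
          have h3 : x (0, 0) + hinf (x (2, 0)) < 3 / 4 := hx.2
          change 2 + z (0, 0) + hinf (z (2, 0)) - d.a / 9 < _
          rw [h0, h2]
          linarith
        · obtain ⟨z, hz, e'⟩ := h.cNK j .f .m x hx y hy e.symm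
          have h0 : z (0, 0) = PP (uu x * ww x) := H6_RN (((h.tN j).eq .f .m x hx z hz.1).1 e')
          have h1 := (abs_lt.1 (abs_PP (le_of_lt hx.1))).2
          linarith [(DU_bounds hz).1]
    · rintro _ ⟨z, hz, rfl⟩
      refine ⟨?_, _, H6_low h.ok hz, rfl⟩
      obtain ⟨j, y, hy, e⟩ | ⟨j, y, hy, -, e⟩ := collar_cover hz
      · exact .inl ⟨y, hy.1, (h.gIK j y hy).trans (H6_qO h (H6_oS h.ok hy) e).1.symm⟩
      · obtain ⟨e1, e2⟩ := H6_qO h (H6_oU h.ok j hy) e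
        refine .inr (mem_iUnion.2 ⟨j, .inl ⟨y, ⟨hy.1, ?_⟩, (h.gNK j y hy).trans e1.symm⟩⟩)
        have h3 : z (2, 0) = 2 + y (0, 0) + hinf (y (2, 0)) - d.a / 9 := e2
        change y (0, 0) + hinf (y (2, 0)) < 3 / 4
        linarith [hz.2]

theorem WM.inter {G : GD} {qA qB : Ix → E6 → M} (h : WM G qA qB) :
    HH G.A qA ∩ HH G.B qB = qD G.A qA '' WD ∧ qD G.A qA '' WD = qD G.B qB '' WD := by
  refine ⟨Subset.antisymm ?_ ?_, Subset.antisymm ?_ ?_⟩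
  · rintro m ⟨hA, hB⟩
    obtain ⟨c, x, hx, rfl⟩ := mem_iUnion.1 hA
    obtain ⟨c', y, hy, e⟩ := mem_iUnion.1 hB
    obtain ⟨z, hz, e'⟩ := h.cAB c c' x hx y hy e.symm
    exact ⟨z, hz, e'.symm⟩
  · rintro _ ⟨z, hz, rfl⟩
    exact ⟨H6_HH (.K .p) ⟨_, La_mem_p h.ok.okA hz, rfl⟩,
      H6_HH (.K .p) ⟨_, La_mem_p h.ok.okB (H6_WD G hz).1, (h.gAB z hz).symm⟩⟩
  · rintro _ ⟨z, hz, rfl⟩
    exact ⟨_, (H6_WD G hz).1, (h.gAB z hz).symm⟩
  · rintro _ ⟨z, hz, rfl⟩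
    exact ⟨_, (H6_WD G hz).2, (h.gAB _ (H6_WD G hz).2).trans (by rw [H6_inv h.ok])⟩

theorem H6_gz (p : ℝ) : gz (Cy.mk p 0 0 0 0 0) = 1 := by
  simpa [gz] using gg_int p 0

theorem H6_tm {D : TD} {q : K3 → E6 → M} (h : TM D q) (s : K3) :
    ∃ x ∈ D.W s, ∃ y ∈ D.W .m, q s x = q .m y := by
  have h1 := H6_gz 0
  have hd : D.dom 0 0 := ⟨fun _ => by norm_num, by linarith [h.ok.lo], by linarith [h.ok.hi]⟩
  have hm : Cy.mk 0 0 0 0 0 0 ∈ D.W .m := ⟨hd, .inl (h1.trans_ne one_ne_zero)⟩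
  have hp : Cy.mk 0 0 0 0 0 0 ∈ D.W .p := ⟨hd, .inl (h1.trans_ne one_ne_zero)⟩
  cases s
  · exact ⟨_, hm, _, hm, rfl⟩
  · exact ⟨_, hp, _, hm, (h.eq _ _ _ hp _ hm).2 (io_mp h1 ▸ TD.RN.refl _)⟩
  · have h0 := (K5_star h.ok).1.1
    obtain ⟨y, hy, -, e⟩ := U0_exists_f h0
    exact ⟨y, hy, _, h0.1, (h.eq _ _ _ hy _ h0.1).2 (e ▸ TD.RN.refl _)⟩

theorem HM.conn (h : HM d q) (c : Ix) :
    Relation.ReflTransGen (fun i j => ∃ x ∈ d.W i, ∃ y ∈ d.W j, q i x = q j y) c (.K .p) := by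
  have hK : ∀ s, Relation.ReflTransGen (fun i j => ∃ x ∈ d.W i, ∃ y ∈ d.W j, q i x = q j y)
      (.K s) (.K .p) := fun s => by
    obtain ⟨x, hx, y, hy, e⟩ := H6_tm h.tK .p
    exact .head (b := Ix.K .m) (H6_tm h.tK s) (.single ⟨y, hy, x, hx, e.symm⟩)
  have hN : ∀ j s, Relation.ReflTransGen (fun i j => ∃ x ∈ d.W i, ∃ y ∈ d.W j, q i x = q j y)
      (.N j s) (.K .p) := fun j s => by
    have hU : Cy.mk (5 / 8) 0 0 0 0 0 ∈ DU := by
      refine ⟨⟨?_, .inl ((H6_gz _).trans_ne one_ne_zero)⟩, ?_⟩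
      · norm_num [TD.dom, TN]
      · have := (hm_bounds zero_le_one 0).1
        simp only [mk00, mk20, hinf]
        linarith [le_max_right (0 : ℝ) 0]
    exact .head (b := Ix.N j .m) (H6_tm (h.tN j) s)
      (.head (b := Ix.K .m) ⟨_, hU.1, _, H6_oU h.ok j hU, h.gNK j _ hU⟩ (hK _))
  rcases c with _ | ⟨j, s⟩ | s
  · have hI : LL' 0 (Cy.mk (-3 / 8) 0 0 0 0 0) ∈ DI 0 .m :=
      LL'_mem_DI H6_m (by norm_num [TD.dom, TN]) (.inl (by norm_num))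
    exact .head (b := Ix.N 0 .m) ⟨_, hI.1, _, hI.2.2.1, h.gIN _ _ _ hI⟩ (hN _ _)
  · exact hN j s
  · exact hK s

theorem HD.Ok.contractible (h : d.Ok) (c : Ix) : ContractibleSpace (d.W c) := by
  rcases c with _ | ⟨j, s⟩ | s
  · exact starConvex_WI.2.contractibleSpace ⟨0, starConvex_WI.1⟩
  · exact contractible_W TN_ok s
  · exact contractible_W (TK_ok h) s

theorem H6_XY (h : d.Ok) {s : K3} (hs : s ≠ .f) (z : E6) :
    d.X2 (.K s) (d.La z) = z (1, 0) ∧ d.Y2 (.K s) (d.La z) = z (1, 1) := by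
  have hu : (d.u 0 : ℝ) * d.u' 1 - d.u 1 * d.u' 0 = 1 := by exact_mod_cast h.du
  have hw : (d.w 0 : ℝ) * d.w' 1 - d.w 1 * d.w' 0 = 1 := by exact_mod_cast h.dw
  simp only [HD.X2, HD.Y2, K6_io1 hs, HD.La, mk00, mk01, mk10, mk11, Matrix.cons_val]
  exact ⟨by linear_combination z (1, 0) * hu, by linear_combination z (1, 1) * hw⟩

theorem H6_io (D : TD) (s : K3) (z : E6) :
    (D.io s z).1 2 = z (1, 0) ∧ (D.io s z).1 3 = z (1, 1) := by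
  cases s <;> exact ⟨rfl, rfl⟩

theorem H6_int (h : HM d q) : ∀ c c', ∀ x ∈ d.W c, ∀ y ∈ d.W c', q c x = q c' y →
    (∃ n : ℤ, d.X2 c' y - d.X2 c x = n) ∧ ∃ n : ℤ, d.Y2 c' y - d.Y2 c x = n := by
  refine h.ind ?_ ?_ ?_ ?_ ?_ ?_ ?_ ?_
  · rintro c c' x - y - ⟨⟨m, hm⟩, n, hn⟩
    exact ⟨⟨-m, by push_cast; linarith⟩, -n, by push_cast; linarith⟩
  · rintro c c' c'' - x - y - z - ⟨⟨m, hm⟩, n, hn⟩ ⟨⟨m', hm'⟩, n', hn'⟩
    exact ⟨⟨m + m', by push_cast; linarith⟩, n + n', by push_cast; linarith⟩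
  · rintro z - _ - ⟨_, ⟨m₀, m₁, n₀, n₁, l, rfl⟩, rfl⟩
    exact ⟨⟨m₁, add_sub_cancel_left _ _⟩, n₁, add_sub_cancel_left _ _⟩
  · intro j s s' x hx y hy e
    obtain ⟨-, -, h2, h3, -⟩ := ((h.tN j).eq s s' x hx y hy).1 e
    simp only [H6_io] at h2 h3
    exact ⟨h2, h3⟩
  · intro s s' x hx y hy e
    obtain ⟨⟨a, h0⟩, ⟨b, h1⟩, ⟨c, h2⟩, ⟨e, h3⟩, -⟩ := (h.tK.eq s s' x hx y hy).1 e
    refine ⟨⟨-d.u' 0 * (d.TK.κ * a) + d.u 0 * c, ?_⟩, -d.w' 0 * b + d.w 0 * e, ?_⟩ <;>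
      simp only [HD.X2, HD.Y2] <;> push_cast
    · linear_combination -d.u' 0 * h0 + d.u 0 * h2
    · linear_combination -d.w' 0 * h1 + d.w 0 * h3
  · intro j s z _
    exact ⟨⟨0, (sub_eq_zero.2 (rot_10 j z).1).trans Int.cast_zero.symm⟩, 0,
      (sub_eq_zero.2 (rot_10 j z).2).trans Int.cast_zero.symm⟩
  · intro j z _
    exact ⟨⟨0, (sub_eq_zero.2 (H6_XY h.ok H6_m _).1).trans Int.cast_zero.symm⟩, 0,
      (sub_eq_zero.2 (H6_XY h.ok H6_m _).2).trans Int.cast_zero.symm⟩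
  · intro j z _
    exact ⟨⟨0, (sub_eq_zero.2 (H6_XY h.ok H6_m _).1).trans Int.cast_zero.symm⟩, 0,
      (sub_eq_zero.2 (H6_XY h.ok H6_m _).2).trans Int.cast_zero.symm⟩

theorem H6_sm (d : HD) (c : Ix) {z : E6} (hz : z ∈ d.W c) :
    ContDiffAt ℝ ∞ (d.X2 c) z ∧ ContDiffAt ℝ ∞ (d.Y2 c) z := by
  rcases c with _ | ⟨j, s⟩ | s
  · exact ⟨contDiffAt_apply ℝ ℝ _ _, contDiffAt_apply ℝ ℝ _ _⟩
  · exact ⟨contDiffAt_apply ℝ ℝ _ _, contDiffAt_apply ℝ ℝ _ _⟩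
  · have h := contDiffAt_pi.1 (io_contDiffAt (D := d.TK) hz).fst
    exact ⟨(contDiffAt_const.mul (h 0)).add (contDiffAt_const.mul (h 2)),
      (contDiffAt_const.mul (h 1)).add (contDiffAt_const.mul (h 3))⟩

theorem H6_comp {l : E6 → ℝ} {f : E6 → E6} {z : E6} {i : Cx} (hl : ContDiffAt ℝ ∞ l (f z))
    (hf : ContDiff ℝ ∞ f) (e : ∀ y, l (f y) = y i) :
    (fderiv ℝ l (f z)).comp (fderiv ℝ f z) = dc i := by
  rw [← fderiv_comp z (hl.differentiableAt (by simp)) (hf.differentiable (by simp) z),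
    show l ∘ f = dc i from funext e, ContinuousLinearMap.fderiv]

theorem H6_line {l : E6 → ℝ} {z v : E6} {c : ℝ} (hl : ContDiffAt ℝ ∞ l z)
    (e : ∀ t : ℝ, l (z + t • v) = l z + t * c) : fderiv ℝ l z v = c := by
  refine ((hl.differentiableAt (by simp)).hasFDerivAt.hasLineDerivAt v).unique ?_
  rw [HasLineDerivAt, funext e]
  simpa using ((hasDerivAt_id (0 : ℝ)).mul_const c).const_add (l z)

theorem HM.dXY (h : HM d q) : ∃ (a b : Fo M 1) (e : Fo M 2),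
    ClO a (HH d q) ∧ ClO b (HH d q) ∧ ClO e (HH d q) ∧
    (∀ z ∈ WD, pl (qD d q) a z = alt1 (dc (1, 0)) ∧ pl (qD d q) b z = alt1 (dc (1, 1)) ∧
      pl (qD d q) e z = cst !![0, 0; 0, 1]) ∧
    (∀ z ∈ WI, pl (q .I) a z = alt1 (dc (1, 0)) ∧ pl (q .I) b z = alt1 (dc (1, 1)) ∧
      pl (q .I) e z ![bv (1, 0), bv (1, 1)] = 1) ∧
    ∀ z ∈ d.TK.W .f, pl (q (.K .f)) e z ![bv (1, 0), bv (1, 1)] = d.u 0 * d.w 0 := by
  have hX : ∀ c, ContDiffOn ℝ ∞ (d.X2 c) (d.W c) := fun c _ hz => (H6_sm d c hz).1.contDiffWithinAt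
  have hY : ∀ c, ContDiffOn ℝ ∞ (d.Y2 c) (d.W c) := fun c _ hz => (H6_sm d c hz).2.contDiffWithinAt
  obtain ⟨a, ha, ha'⟩ := dlog h.par hX fun c c' x hx y hy e => (H6_int h c c' x hx y hy e).1
  obtain ⟨b, hb, hb'⟩ := dlog h.par hY fun c c' x hx y hy e => (H6_int h c c' x hx y hy e).2
  obtain ⟨e, he, he'⟩ := dlog2 h.par hX hY (fun c c' x hx y hy e => (H6_int h c c' x hx y hy e).1)
    fun c c' x hx y hy e => (H6_int h c c' x hx y hy e).2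
  refine ⟨a, b, e, ha, hb, he, fun z hz => ?_, fun z hz => ?_, fun z hz => ?_⟩
  · have hm := La_mem_p h.ok hz
    have h1 := H6_comp (H6_sm d (.K .p) hm).1 d.contDiff_La fun y => (H6_XY h.ok H6_p y).1
    have h2 := H6_comp (H6_sm d (.K .p) hm).2 d.contDiff_La fun y => (H6_XY h.ok H6_p y).2
    have hc := fun (k : ℕ) (w : Fo M k) =>
      pl_comp ((h.par (.K .p)).sm _ hm) d.contDiff_La.contDiffAt w
    refine ⟨(hc _ a).trans ?_, (hc _ b).trans ?_, (hc _ e).trans ?_⟩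
    · rw [pb, ha' (.K .p) _ hm, ← h1]
      rfl
    · rw [pb, hb' (.K .p) _ hm, ← h2]
      rfl
    · have h3 : cst !![0, 0; 0, 1] = wedge (dc (1, 0)) (dc (1, 1)) := by
        simp [cst, Fin.sum_univ_two]
      rw [pb, he' (.K .p) _ hm, h3, ← h1, ← h2]
      ext v
      rw [wedge_apply]
      exact wedge_apply _ _ _
  · have h1 : fderiv ℝ (d.X2 .I) z = dc (1, 0) := (dc (1, 0)).fderiv
    have h2 : fderiv ℝ (d.Y2 .I) z = dc (1, 1) := (dc (1, 1)).fderiv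
    rw [ha' .I z hz, hb' .I z hz, he' .I z hz, h1, h2, wedge_apply]
    simp [dc, bv]
  · have hu : ∀ (t : ℝ) (i : Fin 2), uu (z + t • bv (1, i)) * ww (z + t • bv (1, i)) =
        uu z * ww z := fun t i => by
      simp [uu, ww, bv]
    rw [he' (.K .f) z hz, wedge_apply]
    simp only [Matrix.cons_val]
    rw [H6_line (c := d.u 0) (H6_sm d (.K .f) hz).1, H6_line (c := d.w 0) (H6_sm d (.K .f) hz).2,
      H6_line (c := 0) (H6_sm d (.K .f) hz).1, zero_mul, sub_zero] <;>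
    · intro t
      simp only [HD.X2, HD.Y2, TD.io, hu, Matrix.cons_val]
      simp [bv]
      try ring


end Pool.Agent.Work.MP_bf98aa_gt.Cy
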