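import Pool.Agent.Work.MP_bf98aa_gt.Cy.K6

/-!
The symplectic form on the charts `m` and `p`.

PLAN. `lam_m`: `imd U dU = |U|² dφ + Im (conj g dg) / (2 π |W|²)` for `U = g ee φ / r`, `imd W dW = -|W|² dφ`. Put `K = 1 / rad² + kk`, so that `t K = h_s` with `t = |g|²`,
`h_m = hm`, `h_p = hm - μ`. Then `λ = μ dφ + β_p dp + β_q dq + β_y dy`, and `dλ = cst (..) + dμ ∧ α` where `α = dφ + ∂_μ β`. The coefficient of `dp ∧ dq` is
`μ A 0 0 - κ hm + b`, `b = ∂_t hm * (J / π - κ p ∂_p t)`, `J = Im (conj (∂_p g) ∂_q g)`. If `∂_t hm ≠ 0` then `t < 1/64`, `|p - n| < 1/8` (`gg_small`; `n = 0` if `κ = 0`), and by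
`hasFDerivAt_gz` the bracket is `cos² (π q') (1 + p' - 2 κ p'²) ≥ 0`, `p' = p - n`, `q' = q - 1/2`. `∂_t hm = deriv tau * psi / rt ≥ 0`. At zeros of `g` use `∂_t (t K) = K` and continuity
or the formula `K = 2 tau1 psi / (rt ∓ μ)`.
-/

set_option autoImplicit false

open scoped Manifold ContDiff Topology
open Set Complex

namespace Pool.Agent.Work.MP_bf98aa_gt.Cy

open Pool.Agent.Work.MP_bf98aa_gt.Th

variable {D : TD} {γ : Matrix (Fin 2) (Fin 2) ℝ} {s : K3} {z : E6}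

/-- `Im (conj g dg) / (2 π)`. -/
noncomputable def imG (z : E6) : E6 →L[ℝ] ℝ :=
  (2 * Real.pi)⁻¹ • ((gz z).re • imCLM.comp (fderiv ℝ gz z) - (gz z).im • reCLM.comp (fderiv ℝ gz z))

theorem K7_imG (z v : E6) : imG z v = (2 * Real.pi)⁻¹ *
    ((gz z).re * (fderiv ℝ gz z v).im - (gz z).im * (fderiv ℝ gz z v).re) := rfl

theorem K7_has (hz : z ∈ D.W s) : HasFDerivAt (D.io s) (fderiv ℝ (D.io s) z) z :=
  ((io_contDiffAt hz).differentiableAt (by simp)).hasFDerivAt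

theorem K7_cx (hs : s ≠ .f) (hz : z ∈ D.W s) (v : E6) :
    cx 0 (fderiv ℝ (D.io s) z v) = v (0, 0) ∧ cx 1 (fderiv ℝ (D.io s) z v) = v (0, 1) ∧
      cx 2 (fderiv ℝ (D.io s) z v) = v (1, 0) ∧ cx 3 (fderiv ℝ (D.io s) z v) = v (1, 1) := by
  have h : ∀ (i : Fin 4) (j : Cx), (∀ y, cx i (D.io s y) = dc j y) →
      cx i (fderiv ℝ (D.io s) z v) = v j := fun i j h =>
    congrArg (fun f : E6 →L[ℝ] ℝ => f v) (((cx i).hasFDerivAt.comp z (K7_has hz)).unique
      ((dc j).hasFDerivAt.congr_of_eventuallyEq (.of_forall h)))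
  cases s with
  | m => exact ⟨h _ _ fun _ => rfl, h _ _ fun _ => rfl, h _ _ fun _ => rfl, h _ _ fun _ => rfl⟩
  | p => exact ⟨h _ _ fun _ => rfl, h _ _ fun _ => rfl, h _ _ fun _ => rfl, h _ _ fun _ => rfl⟩
  | f => exact (hs rfl).elim

theorem K7_co (hs : s ≠ .f) (y : E6) : (D.io s y).1 0 = y (0, 0) ∧ (D.io s y).1 1 = y (0, 1) ∧
    (D.io s y).1 2 = y (1, 0) := by
  cases s with
  | m => exact ⟨rfl, rfl, rfl⟩
  | p => exact ⟨rfl, rfl, rfl⟩
  | f => exact (hs rfl).elim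

theorem K7_mul (hs : s ≠ .f) (hz : z ∈ D.W s) : (D.io s z).2.1 * (D.io s z).2.2 = gz z := by
  rw [io_mul hz, (K7_co hs z).1, (K7_co hs z).2.1, gz]

theorem K7_gz (z : E6) : HasFDerivAt gz (fderiv ℝ gz z) z :=
  (contDiff_gz.differentiable (by simp) z).hasFDerivAt

theorem K7_prod (hs : s ≠ .f) (hz : z ∈ D.W s) (v : E6) :
    (D.io s z).2.1 * cW (fderiv ℝ (D.io s) z v) + (D.io s z).2.2 * cU (fderiv ℝ (D.io s) z v) =
      fderiv ℝ gz z v := by
  have h := (cU.hasFDerivAt.comp z (K7_has hz)).mul (cW.hasFDerivAt.comp z (K7_has hz))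
  refine congrArg (fun f : E6 →L[ℝ] ℂ => f v) (h.unique ((K7_gz z).congr_of_eventuallyEq ?_))
  filter_upwards [(D.isOpen_W s).mem_nhds hz] with y hy using K7_mul hs hy

theorem K7_T (z : E6) : HasFDerivAt (fun y => (normSq (gz y), y (2, 0)))
    ((((gz z).re • reCLM.comp (fderiv ℝ gz z) + (gz z).re • reCLM.comp (fderiv ℝ gz z)) +
      ((gz z).im • imCLM.comp (fderiv ℝ gz z) + (gz z).im • imCLM.comp (fderiv ℝ gz z))).prod
      (dc (2, 0))) z := by
  have h1 := reCLM.hasFDerivAt.comp z (K7_gz z)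
  have h2 := imCLM.hasFDerivAt.comp z (K7_gz z)
  exact ((h1.mul h1).add (h2.mul h2)).prodMk (dc (2, 0)).hasFDerivAt

theorem K7_dom (hs : s ≠ .f) (hz : z ∈ D.W s) :
    D.dom (z (0, 0)) (z (2, 0)) ∧ (normSq (gz z) ≠ 0 ∨ z (2, 0) ≠ 0) ∧
      0 < rad (if s = .m then -1 else 1) z ∧
      ((if s = .m then -1 else 1 : ℝ) = 1 ∨ (if s = .m then -1 else 1 : ℝ) = -1) := by
  cases s with
  | m => exact ⟨hz.1, hz.2.imp (fun h => (normSq_pos.2 h).ne') ne_of_lt, rad_pos_m hz.2, .inr rfl⟩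
  | p => exact ⟨hz.1, hz.2.imp (fun h => (normSq_pos.2 h).ne') ne_of_gt, rad_pos_p hz.2, .inl rfl⟩
  | f => exact (hs rfl).elim

theorem K7_rad {e : ℝ} (h0 : normSq (gz z) ≠ 0 ∨ z (2, 0) ≠ 0) (hr : 0 < rad e z) :
    DifferentiableAt ℝ (rad e) z := by
  have h3 := ((contDiffAt_r0 (normSq_nonneg (gz z)) h0).2.differentiableAt (by simp)).comp z
    (K7_T z).differentiableAt
  have h1 : DifferentiableAt ℝ (fun y : E6 => r0 (normSq (gz y)) (y (2, 0))) z := h3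
  have h2 : DifferentiableAt ℝ
      (fun y : E6 => (r0 (normSq (gz y)) (y (2, 0)) + e * y (2, 0)) / 2) z := by fun_prop
  exact h2.sqrt (Real.sqrt_pos.1 hr).ne'

theorem K7_polar {r : E6 → ℝ} (hr : DifferentiableAt ℝ r z) (θ : E6 →L[ℝ] ℝ) {Y' : E6 →L[ℝ] ℂ}
    (h : HasFDerivAt (fun y => (r y : ℂ) * ee (θ y)) Y' z) (v : E6) :
    normSq ((r z : ℂ) * ee (θ z)) = r z ^ 2 ∧ ((r z : ℂ) * ee (θ z)).re * (Y' v).im -
      ((r z : ℂ) * ee (θ z)).im * (Y' v).re = r z ^ 2 * (2 * Real.pi * θ v) := by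
  have h1 := (ofRealCLM.hasFDerivAt.comp z hr.hasFDerivAt).mul
    ((hasDerivAt_ee (θ z)).hasFDerivAt.comp z θ.hasFDerivAt)
  have h2 : Y' v = r z * (θ v * (2 * Real.pi * I * ee (θ z))) + ee (θ z) * fderiv ℝ r z v :=
    congrArg (fun f : E6 →L[ℝ] ℂ => f v) (h.unique h1)
  have h3 := normSq_ee (θ z)
  refine ⟨by rw [map_mul, h3, normSq_ofReal, mul_one, sq], ?_⟩
  rw [normSq_apply] at h3
  rw [h2]
  simp only [mul_re, mul_im, add_re, add_im, ofReal_re, ofReal_im, I_re, I_im, re_ofNat, im_ofNat]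
  linear_combination r z ^ 2 * (2 * Real.pi * θ v) * h3

theorem K7_alg (X Y dX dY : ℂ) {r c : ℝ} (hr : 0 < r) (hY : normSq Y = r ^ 2)
    (hI : Y.re * dY.im - Y.im * dY.re = r ^ 2 * c) :
    (X.re * dX.im - X.im * dX.re) + (Y.re * dY.im - Y.im * dY.re) =
      ((X * Y).re * (X * dY + Y * dX).im - (X * Y).im * (X * dY + Y * dX).re) / r ^ 2 +
        (normSq Y - normSq X) * c := by
  rw [hY]
  field_simp
  simp only [mul_re, mul_im, add_re, add_im, normSq_apply] at hY ⊢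
  linear_combination (r ^ 2 - (X.re * X.re + X.im * X.im)) * hI -
    (X.re * dX.im - X.im * dX.re) * hY

theorem K7_key (hs : s ≠ .f) (hz : z ∈ D.W s) (v : E6) :
    ((D.io s z).2.1.re * (cU (fderiv ℝ (D.io s) z v)).im -
      (D.io s z).2.1.im * (cU (fderiv ℝ (D.io s) z v)).re) +
    ((D.io s z).2.2.re * (cW (fderiv ℝ (D.io s) z v)).im -
      (D.io s z).2.2.im * (cW (fderiv ℝ (D.io s) z v)).re) =
    ((gz z).re * (fderiv ℝ gz z v).im - (gz z).im * (fderiv ℝ gz z v).re) /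
      rad (if s = .m then -1 else 1) z ^ 2 + z (2, 0) * (2 * Real.pi * v (2, 1)) := by
  obtain ⟨-, h0, hr, -⟩ := K7_dom hs hz
  rw [← K7_prod hs hz, ← K7_mul hs hz, ← io_amu hs hz, amu]
  cases s with
  | m =>
    obtain ⟨h1, h2⟩ := K7_polar (K7_rad h0 hr) (-dc (2, 1))
      (cW.hasFDerivAt.comp z (K7_has hz)) v
    refine (K7_alg (D.io .m z).2.1 (D.io .m z).2.2 _ _ hr h1 h2).trans ?_
    congr 1
    change _ * (2 * Real.pi * -v (2, 1)) = _
    ring
  | p =>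
    obtain ⟨h1, h2⟩ := K7_polar (K7_rad h0 hr) (dc (2, 1))
      (cU.hasFDerivAt.comp z (K7_has hz)) v
    rw [add_comm, mul_comm (D.io .p z).2.1, add_comm (_ * cW _)]
    exact K7_alg (D.io .p z).2.2 (D.io .p z).2.1 _ _ hr h1 h2
  | f => exact (hs rfl).elim

theorem lam_io (hs : s ≠ .f) (hz : z ∈ D.W s) :
    (D.lamL (D.io s z)).comp (fderiv ℝ (D.io s) z) = z (2, 0) • conn (toR D.A) z -
      (D.κ * hm (normSq (gz z)) (z (2, 0)) * z (0, 0)) • dc (0, 1) +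
      (1 / rad (if s = .m then -1 else 1) z ^ 2 + kk (normSq (gz z)) (z (2, 0))) • imG z := by
  refine ContinuousLinearMap.ext fun v => ?_
  obtain ⟨-, c1, -, c3⟩ := K7_cx hs hz v
  have h1 := K7_key hs hz v
  have h2 : ((D.io s z).2.1 • cW + (D.io s z).2.2 • cU) (fderiv ℝ (D.io s) z v) =
    fderiv ℝ gz z v := K7_prod hs hz v
  simp only [ContinuousLinearMap.comp_apply, TD.lamL, TD.bA, add_apply, sub_apply, smul_apply,
    smul_eq_mul, c1, c3, conn_apply, K7_imG, G11a_dc, toR]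
  rw [imd_apply, imd_apply, imd_apply, h2, K7_mul hs hz, io_amu hs hz, io_atq hs hz,
    (K7_co hs z).1, (K7_co hs z).2.2]
  have h3 : (2 * Real.pi) * (2 * Real.pi)⁻¹ = 1 := mul_inv_cancel₀ (by positivity)
  linear_combination (2 * Real.pi)⁻¹ * h1 + z (2, 0) * v (2, 1) * h3

/-- The primitive in the charts `m` and `p`. -/
noncomputable def K7_Lam (D : TD) (e : ℝ) (z : E6) : E6 →L[ℝ] ℝ :=
  z (2, 0) • conn (toR D.A) z -
    (D.κ * hm (normSq (gz z)) (z (2, 0)) * z (0, 0)) • dc (0, 1) +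
    (1 / rad e z ^ 2 + kk (normSq (gz z)) (z (2, 0))) • imG z

theorem K7_om (hs : s ≠ .f) (hz : z ∈ D.W s) {Λ : E6 → E6 →L[ℝ] ℝ}
    (h : ∀ᶠ y in 𝓝 z, y ∈ D.W s → K7_Lam D (if s = .m then -1 else 1) y = Λ y) :
    D.om γ s z = cst γ + extDeriv (fun y => alt1 (Λ y)) z := by
  rw [om_eq hz]
  congr 1
  · refine alt_ext_two fun u v => ?_
    obtain ⟨a0, a1, a2, a3⟩ := K7_cx hs hz u
    obtain ⟨b0, b1, b2, b3⟩ := K7_cx hs hz v
    simp only [ContinuousAlternatingMap.compContinuousLinearMap_apply, cstA,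
      ContinuousAlternatingMap.add_apply, ContinuousAlternatingMap.smul_apply, wedge_apply,
      Function.comp_apply, Matrix.cons_val_zero, Matrix.cons_val_one, a0, a1, a2, a3, b0, b1, b2, b3,
      cst_apply, smul_eq_mul]
  · refine Filter.EventuallyEq.extDeriv_eq ?_
    filter_upwards [h, (D.isOpen_W s).mem_nhds hz] with y h1 hy
    exact congrArg alt1 ((lam_io hs hy).trans (h1 hy))

theorem K7_heis (hs : s ≠ .f) (hz : z ∈ D.W s) {L : Matrix (Fin 2) (Fin 2) ℝ}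
    (h : ∀ᶠ y in 𝓝 z, y ∈ D.W s → K7_Lam D (if s = .m then -1 else 1) y = y (2, 0) • conn L y) :
    D.om γ s z = heis γ L z := by
  rw [K7_om hs hz h, (heis_isD γ L).2 z (mem_univ _), add_sub_cancel]

theorem K7_add (hs : s ≠ .f) (hz : z ∈ D.W s) {β : E6 → E6 →L[ℝ] ℝ} {β' : E6 →L[ℝ] E6 →L[ℝ] ℝ}
    (hβ : HasFDerivAt β β' z) (h : ∀ᶠ y in 𝓝 z, y ∈ D.W s →
      K7_Lam D (if s = .m then -1 else 1) y = y (2, 0) • conn (toR D.A) y + β y) (u v : E6) :
    D.om γ s z ![u, v] = heis γ (toR D.A) z ![u, v] + (β' u v - β' v u) := by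
  have h1 := heis_isD γ (toR D.A)
  have h2 := (ContinuousAlternatingMap.ofSubsingletonLIE (𝕜 := ℝ) (E := E6) (F := ℝ)
    (0 : Fin 1)).toContinuousLinearEquiv.toContinuousLinearMap.hasFDerivAt.comp z hβ
  have h3 : extDeriv (fun y => alt1 (β y)) z = alt2 β' :=
    congrArg ContinuousAlternatingMap.alternatizeUncurryFin h2.fderiv
  have h4 := extDeriv_fun_add (h1.1.diffAt isOpen_univ (mem_univ z))
    (ω₂ := fun y => alt1 (β y)) h2.differentiableAt
  rw [h1.2 z (mem_univ _), h3] at h4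
  rw [K7_om hs hz h, show (fun y : E6 => alt1 (y (2, 0) • conn (toR D.A) y + β y)) =
    fun y => alt1 (y (2, 0) • conn (toR D.A) y) + alt1 (β y) from rfl, h4, ← add_assoc,
    add_sub_cancel, ContinuousAlternatingMap.add_apply, alt2_apply]
  rfl

theorem K7_dimG (z : E6) : ∃ B : E6 →L[ℝ] E6 →L[ℝ] ℝ, HasFDerivAt imG B z ∧ ∀ u v, B u v - B v u =
    Real.pi⁻¹ * ((fderiv ℝ gz z u).re * (fderiv ℝ gz z v).im -
      (fderiv ℝ gz z u).im * (fderiv ℝ gz z v).re) := by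
  have h0 : HasFDerivAt (fderiv ℝ gz) (D2 gz z) z :=
    ((contDiff_gz.fderiv_right (m := ∞) le_rfl).differentiable (by simp) z).hasFDerivAt
  have h1 := ((reCLM.hasFDerivAt.comp z (K7_gz z)).smul
    ((ContinuousLinearMap.compL ℝ E6 ℂ ℝ imCLM).hasFDerivAt.comp z h0)).sub
    ((imCLM.hasFDerivAt.comp z (K7_gz z)).smul
      ((ContinuousLinearMap.compL ℝ E6 ℂ ℝ reCLM).hasFDerivAt.comp z h0))
  refine ⟨_, h1.const_smul (2 * Real.pi)⁻¹, fun u v => ?_⟩
  change (2 * Real.pi)⁻¹ * ((gz z).re * (D2 gz z u v).im +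
      (fderiv ℝ gz z u).re * (fderiv ℝ gz z v).im - ((gz z).im * (D2 gz z u v).re +
      (fderiv ℝ gz z u).im * (fderiv ℝ gz z v).re)) -
    (2 * Real.pi)⁻¹ * ((gz z).re * (D2 gz z v u).im +
      (fderiv ℝ gz z v).re * (fderiv ℝ gz z u).im - ((gz z).im * (D2 gz z v u).re +
      (fderiv ℝ gz z v).im * (fderiv ℝ gz z u).re)) = _
  rw [D2_symm contDiff_gz.contDiffAt u v]
  ring

theorem K7_two {X : Type} [NormedAddCommGroup X] [NormedSpace ℝ X] (L : ℝ × ℝ →L[ℝ] X) (a b : ℝ) :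
    L (a, b) = a • L (1, 0) + b • L (0, 1) := by
  rw [← map_smul, ← map_smul, ← map_add]
  simp

theorem K7_dg (z : E6) : ∃ P Q : ℂ, ∀ u : E6, fderiv ℝ gz z u = u (0, 0) * P + u (0, 1) * Q := by
  have h0 := HasFDerivAt.comp (f := fun y : E6 => (y (0, 0), y (0, 1))) z
    (contDiff_gg.differentiable (by simp) _).hasFDerivAt ((dc (0, 0)).prod (dc (0, 1))).hasFDerivAt
  have h := h0.unique (K7_gz z)
  exact ⟨_, _, fun u => by rw [← h]; exact K7_two _ _ _⟩

theorem K7_tK {t μ e : ℝ} (ht : 0 ≤ t) (he : e = 1 ∨ e = -1) (h : r0 t μ + e * μ ≠ 0) :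
    t * (1 / ((r0 t μ + e * μ) / 2) + kk t μ) = hm t μ - (1 + e) / 2 * μ := by
  have h1 : r0 t μ ^ 2 = μ ^ 2 + 4 * t := Real.sq_sqrt (by positivity)
  have h2 : e ^ 2 = 1 := by rcases he with rfl | rfl <;> norm_num
  rw [mul_add, mul_kk ht, hm]
  field_simp
  linear_combination -h1 + μ ^ 2 * h2

theorem K7_K0 {t μ e : ℝ} (h : 1 / 16 ≤ |μ|) (he : |μ| = e * μ) :
    1 / ((r0 t μ + e * μ) / 2) + kk t μ = 0 := by
  rw [kk, rt, psi_zero h, mul_zero, mul_zero, add_zero, Real.sqrt_sq_eq_abs, he, one_div_div,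
    add_comm (e * μ)]
  ring

theorem K7_FG {t μ e : ℝ} (ht : 0 ≤ t) (h0 : t ≠ 0 ∨ μ ≠ 0) (he : e = 1 ∨ e = -1)
    (h : 0 < r0 t μ + e * μ) : ∃ F G : ℝ × ℝ →L[ℝ] ℝ,
    HasFDerivAt (fun x : ℝ × ℝ => hm x.1 x.2) F (t, μ) ∧
    HasFDerivAt (fun x : ℝ × ℝ => 1 / ((r0 x.1 x.2 + e * x.2) / 2) + kk x.1 x.2) G (t, μ) ∧
    F (1, 0) = deriv tau t * psi μ / rt t μ ∧
    1 / ((r0 t μ + e * μ) / 2) + kk t μ + t * G (1, 0) = F (1, 0) := by
  obtain ⟨p1, c1⟩ := contDiffAt_rt ht h0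
  obtain ⟨p2, c2⟩ := contDiffAt_r0 ht h0
  have d1 := c1.differentiableAt (by simp)
  have d2 := c2.differentiableAt (by simp)
  have d3 : DifferentiableAt ℝ (fun x : ℝ × ℝ => tau1 x.1) (t, μ) :=
    (contDiff_tau1.differentiable (by simp) _).comp _ differentiableAt_fst
  have d4 : DifferentiableAt ℝ (fun x : ℝ × ℝ => psi x.2) (t, μ) :=
    (contDiff_psi.differentiable (by simp) _).comp _ differentiableAt_snd
  have hF : DifferentiableAt ℝ (fun x : ℝ × ℝ => hm x.1 x.2) (t, μ) := by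
    unfold hm
    fun_prop
  have hG : DifferentiableAt ℝ
      (fun x : ℝ × ℝ => 1 / ((r0 x.1 x.2 + e * x.2) / 2) + kk x.1 x.2) (t, μ) := by
    unfold kk
    fun_prop (disch := positivity)
  have hl : HasDerivAt (fun x : ℝ => (x, μ)) (1, 0) t :=
    (hasDerivAt_id t).prodMk (hasDerivAt_const t μ)
  have f1 := hF.hasFDerivAt.comp_hasDerivAt t hl
  have g1 := hG.hasFDerivAt.comp_hasDerivAt t hl
  refine ⟨_, _, hF.hasFDerivAt, hG.hasFDerivAt, ?_, ?_⟩
  · have h1 := (((contDiff_tau.differentiable (by simp) t).hasDerivAt.const_mul 4).mul_const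
      (psi μ)).const_add (μ ^ 2)
    have h2 := ((h1.sqrt (Real.sqrt_pos.1 p1).ne').add_const μ).div_const 2
    rw [f1.unique h2, ← rt]
    field_simp
    ring
  · have h1 := (uniqueDiffWithinAt_Ici t).eq_deriv _ ((hasDerivAt_id t).mul g1).hasDerivWithinAt
      ((f1.sub_const ((1 + e) / 2 * μ)).hasDerivWithinAt.congr_of_mem (fun x hx =>
        K7_tK (ht.trans hx) he (h.trans_le (add_le_add_left
          (Real.sqrt_le_sqrt (show μ ^ 2 + 4 * t ≤ μ ^ 2 + 4 * x by linarith [mem_Ici.1 hx]))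
            _)).ne') self_mem_Ici)
    rw [one_mul] at h1
    exact h1

theorem K7_rot {E : ℂ} (hE : normSq E = 1) (a b : ℂ) :
    (E * a).re * (E * b).im - (E * a).im * (E * b).re = a.re * b.im - a.im * b.re ∧
      (E * a).re * (E * b).re + (E * a).im * (E * b).im = a.re * b.re + a.im * b.im := by
  rw [normSq_apply] at hE
  simp only [mul_re, mul_im]
  constructor
  · linear_combination (a.re * b.im - a.im * b.re) * hE
  · linear_combination (a.re * b.re + a.im * b.im) * hE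

theorem K7_pos (hD : D.Ok) (hd : D.dom (z (0, 0)) (z (2, 0))) (h : normSq (gz z) < 1 / 64)
    {P Q : ℂ} (hP : ∀ u : E6, fderiv ℝ gz z u = u (0, 0) * P + u (0, 1) * Q) :
    0 ≤ Real.pi⁻¹ * (P.re * Q.im - P.im * Q.re) -
      D.κ * z (0, 0) * (2 * ((gz z).re * P.re + (gz z).im * P.im)) := by
  have h1 := (gg_small h).1
  have h2 := (hasFDerivAt_gz h1).fderiv
  have h3 : gz z = ee (round (z (0, 0)) * z (0, 1)) * (((1 - (z (0, 0) - round (z (0, 0)))) / 2 : ℝ)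
      + ((1 + (z (0, 0) - round (z (0, 0)))) / 2 : ℝ) * ee (z (0, 1))) := by
    rw [gz, gg, g0, nu_eq h1.le]
  have hn : D.κ = 0 → round (z (0, 0)) = 0 := fun hκ => by
    obtain ⟨a1, a2⟩ := hd.1 hκ
    obtain ⟨a3, a4⟩ := abs_lt.1 h1
    have a5 : (-1 : ℝ) < round (z (0, 0)) := by linarith
    have a6 : (round (z (0, 0)) : ℝ) < 1 := by linarith
    have a7 : -1 < round (z (0, 0)) := by exact_mod_cast a5
    have a8 : round (z (0, 0)) < 1 := by exact_mod_cast a6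
    omega
  generalize round (z (0, 0)) = n at *
  have hE := normSq_ee (n * z (0, 1))
  have hw := normSq_ee (z (0, 1))
  have e1 := hP (bv (0, 0))
  have e2 := hP (bv (0, 1))
  rw [h2, h3] at e1 e2
  rw [h3]
  generalize ee (n * z (0, 1)) = E at *
  generalize ee (z (0, 1)) = w at *
  obtain ⟨r, hr⟩ : ∃ r, z (0, 0) = r + n := ⟨z (0, 0) - n, by ring⟩
  rw [hr] at e2 h1 ⊢
  rw [add_sub_cancel_right] at h1 ⊢
  have e3 : P = E * ((w - 1) / 2) := by simpa [bv, dc] using e1.symm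
  have e4 : Q = E * (2 * Real.pi * I * (n * (((1 - r) / 2 : ℝ) + ((1 + r) / 2 : ℝ) * w) +
      ((1 + r) / 2 : ℝ) * w)) := by
    have e5 := e2.symm
    simp only [bv, dc, add_apply, ContinuousLinearMap.smulRight_apply,
      ContinuousLinearMap.proj_apply] at e5
    simp only [Pi.single_apply, Prod.mk.injEq, zero_ne_one, and_false, if_false, if_true, zero_smul,
      one_smul, ofReal_zero, ofReal_one, zero_mul, one_mul, zero_add] at e5
    rw [e5]
    push_cast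
    ring
  rw [e3, e4, (K7_rot hE _ _).1, (K7_rot hE _ _).2]
  rw [normSq_apply] at hw
  have hc : 0 ≤ 1 - w.re := by nlinarith [mul_self_nonneg w.im, mul_self_nonneg (w.re - 1)]
  have hπ : Real.pi * Real.pi⁻¹ = 1 := mul_inv_cancel₀ Real.pi_pos.ne'
  obtain ⟨a3, a4⟩ := abs_lt.1 h1
  refine le_of_le_of_eq (b := (1 - w.re) * (n * r + (1 + r) / 2 - D.κ * (r + n) * r))
    (mul_nonneg hc ?_) ?_
  · rcases hD.κ01 with hκ | hκ
    · rw [hn hκ, hκ]
      push_cast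
      linarith
    · rw [hκ]
      push_cast
      nlinarith
  · simp only [mul_re, mul_im, add_re, add_im, sub_re, sub_im, ofReal_re, ofReal_im, I_re, I_im,
      re_ofNat, im_ofNat, div_ofNat_re, div_ofNat_im, one_re, one_im, intCast_re, intCast_im]
    linear_combination (D.κ * (r + n) * ((1 + r) / 2) - Real.pi * Real.pi⁻¹ * ((n + 1) *
      ((1 + r) / 2))) * hw - (1 - w.re) * (n * r + (1 + r) / 2) * hπ

theorem K7_ev {a : ℝ} (i : Cx) :
    (z i < a → ∀ᶠ y : E6 in 𝓝 z, y i < a) ∧ (a < z i → ∀ᶠ y : E6 in 𝓝 z, a < y i) :=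
  ⟨fun h => (isOpen_lt (continuous_apply i) continuous_const).mem_nhds h,
    fun h => (isOpen_lt continuous_const (continuous_apply i)).mem_nhds h⟩

theorem om_form (hD : D.Ok) (hs : s ≠ .f) (hz : z ∈ D.W s) :
    ∃ (α : E6 →L[ℝ] ℝ) (b : ℝ), α (bv (2, 1)) = 1 ∧ 0 ≤ b ∧ (1 / 16 ≤ |z (2, 0)| → b = 0) ∧
      D.om γ s z = cst (γ + z (2, 0) • toR D.A +
        (b - D.κ * hm (normSq (gz z)) (z (2, 0))) • E00) + wedge (dc (2, 0)) α := by
  obtain ⟨hd, h0, hr, he⟩ := K7_dom hs hz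
  have hp := pow_pos hr 2
  rw [rad_sq _ he] at hp
  obtain ⟨F, G, hF, hG, f1, g1⟩ := K7_FG (normSq_nonneg (gz z)) h0 he (by linarith)
  obtain ⟨B, hB, b1⟩ := K7_dimG z
  obtain ⟨P, Q, hP⟩ := K7_dg z
  have h1 := K7_add (γ := γ) hs hz (((hG.comp z (K7_T z)).smul hB).sub
    ((((hF.comp z (K7_T z)).const_mul (D.κ : ℝ)).mul (dc (0, 0)).hasFDerivAt).smul_const
      (dc (0, 1)))) (.of_forall fun y _ => by
        rw [K7_Lam, rad_sq _ he, sub_add_eq_add_sub, add_sub_assoc]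
        rfl)
  refine ⟨conn (toR D.A) z - (D.κ * z (0, 0) * F (0, 1)) • dc (0, 1) + G (0, 1) • imG z,
    F (1, 0) * (Real.pi⁻¹ * (P.re * Q.im - P.im * Q.re) -
      D.κ * z (0, 0) * (2 * ((gz z).re * P.re + (gz z).im * P.im))), ?_, ?_, fun h => ?_,
    alt_ext_two fun u v => ?_⟩
  · rw [add_apply, sub_apply, smul_apply, smul_apply, conn_apply, K7_imG, hP]
    simp [bv, dc]
  · by_cases ht : normSq (gz z) < 1 / 64
    · refine mul_nonneg ?_ (K7_pos hD hd ht hP)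
      rw [f1]
      exact div_nonneg (mul_nonneg (deriv_tau_nonneg _) (psi_mem _).1) (Real.sqrt_nonneg _)
    · rw [f1, deriv_tau_zero (not_lt.1 ht), zero_mul, zero_div, zero_mul]
  · rw [f1, psi_zero h, mul_zero, zero_div, zero_mul]
  · rw [h1]
    have b2 := b1 u v
    simp only [heis, ContinuousAlternatingMap.add_apply, cst_apply, wedge_apply, add_apply,
      sub_apply, smul_apply, ContinuousLinearMap.smulRight_apply, ContinuousLinearMap.comp_apply,
      ContinuousLinearMap.prod_apply, Function.comp_apply, smul_eq_mul, Matrix.add_apply,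
      Matrix.smul_apply, E00, Matrix.of_apply, Matrix.cons_val', Matrix.cons_val_zero,
      Matrix.cons_val_one, Matrix.cons_val_fin_one, G11a_dc, K7_imG, reCLM_apply, imCLM_apply]
    rw [K7_two F _ (u (2, 0)), K7_two F _ (v (2, 0)), K7_two G _ (u (2, 0)),
      K7_two G _ (v (2, 0))]
    generalize 1 / ((r0 (normSq (gz z)) (z (2, 0)) + (if s = .m then -1 else 1) * z (2, 0)) / 2) +
      kk (normSq (gz z)) (z (2, 0)) = G₀ at g1 ⊢
    generalize hm (normSq (gz z)) (z (2, 0)) = F₀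
    rw [normSq_apply] at g1
    simp only [hP, smul_eq_mul, mul_re, mul_im, add_re, add_im, ofReal_re, ofReal_im] at b2 ⊢
    linear_combination G₀ * b2 + Real.pi⁻¹ * (P.re * Q.im - P.im * Q.re) *
      (u (0, 0) * v (0, 1) - v (0, 0) * u (0, 1)) * g1

theorem om_vert (hD : D.Ok) (hs : s ≠ .f) (hz : z ∈ D.W s) {u v : E6} (hu : Vert u) (hv : Vert v) :
    D.om γ s z ![u, v] = 0 := by
  obtain ⟨α, b, -, -, -, h⟩ := om_form (γ := γ) hD hs hz
  rw [h, ContinuousAlternatingMap.add_apply, cst_apply, wedge_apply]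
  simp only [G11a_dc, Matrix.cons_val_zero, Matrix.cons_val_one, hu 0, hu 1, hu 2, hv 0, hv 1, hv 2]
  ring

theorem om_low (hz : z ∈ D.W .m) (h : z (2, 0) < -1 / 16) : D.om γ .m z = heis γ (toR D.A) z := by
  refine K7_heis (by decide) hz (((K7_ev (2, 0)).1 h).mono fun y hy _ => ?_)
  have h1 : |y (2, 0)| = -1 * y (2, 0) := by rw [abs_of_neg (by linarith), neg_one_mul]
  have h2 : 1 / 16 ≤ |y (2, 0)| := by linarith
  rw [if_pos rfl, K7_Lam, rad_sq _ (.inr rfl), K7_K0 h2 h1, hm_eq _ h2,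
    max_eq_right (by linarith), mul_zero, zero_mul, zero_smul, zero_smul, sub_zero, add_zero]

theorem om_high (hz : z ∈ D.W .p) (h : 1 / 16 < z (2, 0)) :
    D.om γ .p z = heis γ (toR (D.As .p)) z := by
  refine K7_heis (by decide) hz (((K7_ev (2, 0)).2 h).mono fun y hy _ => ?_)
  have h1 : |y (2, 0)| = 1 * y (2, 0) := by rw [abs_of_pos (by linarith), one_mul]
  have h2 : 1 / 16 ≤ |y (2, 0)| := by linarith
  rw [if_neg (by decide), K7_Lam, rad_sq _ (.inl rfl), K7_K0 h2 h1, hm_eq _ h2,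
    max_eq_left (by linarith), zero_smul, add_zero]
  refine ContinuousLinearMap.ext fun v => ?_
  simp only [sub_apply, smul_apply, conn_apply, G11a_dc, smul_eq_mul, toR, TD.As, Matrix.sub_apply,
    Matrix.of_apply, Matrix.cons_val', Matrix.cons_val_zero, Matrix.cons_val_one,
    Matrix.cons_val_fin_one]
  push_cast
  ring

theorem om_left (hκ : D.κ = 0) (hs : s ≠ .f) (hz : z ∈ D.W s) (h : z (0, 0) < -1 / 4) :
    D.om γ s z = heis γ (toR D.A) z := by
  refine K7_heis hs hz (((K7_ev (0, 0)).1 h).mono fun y hy hw => ?_)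
  have h1 : gz =ᶠ[𝓝 y] fun _ => 1 := by
    filter_upwards [(K7_ev (0, 0)).1 hy, (K7_ev (0, 0)).2 ((K7_dom hs hw).1.1 hκ).1] with x a1 a2
    exact gg_left (by linarith) a1.le _
  have h2 : imG y = 0 := ContinuousLinearMap.ext fun v => by
    rw [K7_imG, h1.fderiv_eq, fderiv_fun_const]
    simp
  rw [K7_Lam, h2, hκ, Int.cast_zero, zero_mul, zero_mul, zero_smul, smul_zero, sub_zero, add_zero]

theorem om_right (hκ : D.κ = 0) (hz : z ∈ D.W .m) (h : 1 / 4 < z (0, 0)) :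
    D.om γ .m z = heis γ (toR D.A) z + deriv hinf (z (2, 0)) • wedge (dc (2, 0)) (dc (0, 1)) := by
  refine alt_ext_two fun u v => (K7_add (by decide) hz
    (((contDiff_hinf.differentiable (by simp) (z (2, 0))).hasDerivAt.comp_hasFDerivAt z
      (dc (2, 0)).hasFDerivAt).smul_const (dc (0, 1)))
    (((K7_ev (0, 0)).2 h).mono fun y hy hw => ?_) u v).trans ?_
  · have h1 : gz =ᶠ[𝓝 y] fun x => ee (x (0, 1)) := by
      filter_upwards [(K7_ev (0, 0)).2 hy, (K7_ev (0, 0)).1 (hw.1.1 hκ).2] with x a1 a2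
      exact gg_right a1.le a2.le _
    have h2 := normSq_ee (y (0, 1))
    have h3 : imG y = dc (0, 1) := ContinuousLinearMap.ext fun v => by
      have h8 := HasFDerivAt.comp (f := fun x : E6 => x (0, 1)) y
        (hasDerivAt_ee (y (0, 1))).hasFDerivAt (dc (0, 1)).hasFDerivAt
      have h4 : fderiv ℝ gz y v = v (0, 1) * (2 * Real.pi * I * ee (y (0, 1))) :=
        congrArg (fun f : E6 →L[ℝ] ℂ => f v) (h1.fderiv_eq.trans h8.fderiv)
      have h5 : Real.pi * Real.pi⁻¹ = 1 := mul_inv_cancel₀ Real.pi_pos.ne'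
      rw [normSq_apply] at h2
      rw [K7_imG, h4, h1.self_of_nhds, G11a_dc]
      simp only [mul_re, mul_im, ofReal_re, ofReal_im, I_re, I_im, re_ofNat, im_ofNat]
      linear_combination Real.pi * Real.pi⁻¹ * v (0, 1) * h2 + v (0, 1) * h5
    have h6 := pow_pos (rad_pos_m hw.2) 2
    rw [rad_sq _ (.inr rfl), h1.self_of_nhds, h2] at h6
    have h7 := K7_tK (μ := y (2, 0)) zero_le_one (.inr rfl) (by linarith)
    rw [one_mul, add_neg_cancel, zero_div, zero_mul, sub_zero] at h7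
    rw [if_pos rfl, K7_Lam, rad_sq _ (.inr rfl), h3, hκ, Int.cast_zero, zero_mul, zero_mul,
      zero_smul, sub_zero, h1.self_of_nhds, h2, h7]
    rfl
  · simp only [ContinuousAlternatingMap.add_apply, ContinuousAlternatingMap.smul_apply, wedge_apply,
      ContinuousLinearMap.smulRight_apply, smul_apply, smul_eq_mul, Matrix.cons_val_zero,
      Matrix.cons_val_one]
    ring


end Pool.Agent.Work.MP_bf98aa_gt.Cy
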