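import Pool.Agent.Work.MP_bf98aa_gt.Cy.K6

/-!
The chart `f`: the symplectic form at the critical set and on the axis, the complex volume form.

PLAN. At `u = w = 0` the derivative of `s = u w` vanishes, `dU = ee (..) du`, `dW = ee (..) dw`; the coefficients `amu`, `hm`, `kk` vanish to second order.
`om_f_axis`: pull back by the plane `u ↦ cplx u 0 x y`, on which `p, q, x, y` are constant and `W = 0`. `SF_inv`: `io f ∘ fact = nact 0 m 0 n ∘ io f` on `W f`, and
`SA (nact a) ∘ d nact = diag (ee (-θ), ee θ, 1) ∘ SA a`. `TM.pos`: take `y` from `f_exists_m` or `f_exists_p`; near `y` one has `io f ∘ f = io s`; the determinant on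
`(∂q, ∂y, ∂φ)` is `-ee (-q) * 2 π i * ∂_q g = 2 π² (1 + p)`.
-/

set_option autoImplicit false

open scoped Manifold ContDiff Topology
open Set Complex

namespace Pool.Agent.Work.MP_bf98aa_gt.Cy

open Pool.Agent.Work.MP_bf98aa_gt.Th

variable {M : Type} [TopologicalSpace M] [ChartedSpace E6 M] [IsManifold 𝓘(ℝ, E6) ∞ M]

variable {D : TD} {γ : Matrix (Fin 2) (Fin 2) ℝ} {q : K3 → E6 → M} {z : E6}

theorem K8_line {X Y : Type} [NormedAddCommGroup X] [NormedSpace ℝ X] [NormedAddCommGroup Y]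
    [NormedSpace ℝ Y] {F : X → Y} {a v : X} {L : Y} (hF : DifferentiableAt ℝ F a)
    (h : HasDerivAt (fun t : ℝ => F (a + t • v)) L 0) : fderiv ℝ F a v = L :=
  (hF.hasFDerivAt.hasLineDerivAt v).unique h

theorem K8_aff {Y : Type} [NormedAddCommGroup Y] [NormedSpace ℝ Y] (a v : Y) :
    HasDerivAt (fun t : ℝ => a + t • v) v 0 := by
  simpa using ((hasDerivAt_id (0 : ℝ)).smul_const v).const_add a

theorem K8_rot {U : ℝ → ℂ} {θ : ℝ → ℝ} {U' : ℂ} {θ' : ℝ} (hU : HasDerivAt U U' 0)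
    (hθ : HasDerivAt θ θ' 0) : HasDerivAt (fun t => U t * ee (θ t))
      ((U' + 2 * Real.pi * I * U 0 * θ') * ee (θ 0)) 0 := by
  refine (hU.mul ((hasDerivAt_ee (θ 0)).scomp (0 : ℝ) hθ)).congr_deriv ?_
  simp only [Function.comp_apply, real_smul]
  ring

theorem K8_vec {a b c d : ℝ → ℝ} {a' b' c' d' : ℝ} (ha : HasDerivAt a a' 0) (hb : HasDerivAt b b' 0)
    (hc : HasDerivAt c c' 0) (hd : HasDerivAt d d' 0) :
    HasDerivAt (fun t => ![a t, b t, c t, d t]) ![a', b', c', d'] 0 :=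
  hasDerivAt_pi.2 fun i => by fin_cases i <;> assumption

theorem K8_bA (D : TD) (a v : Am) : D.bA a v = (D.A 0 0 * a.1 0 + D.A 1 0 * a.1 2) * v.1 1 +
    (D.A 0 1 * a.1 0 + D.A 1 1 * a.1 2) * v.1 3 := rfl

theorem K8_SA (D : TD) (a v : Am) : D.SA a v =
    ![-ee (-a.1 1) * (v.2.1 + 2 * Real.pi * I * a.2.1 * D.bA a v),
      v.2.2 - 2 * Real.pi * I * a.2.2 * D.bA a v, v.1 3 - I * v.1 2] := by
  funext i
  fin_cases i <;> rfl

theorem K8_lam (D : TD) (a v : Am) : D.lamL a v = imd a.2.1 cU v + imd a.2.2 cW v +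
    amu a * D.bA a v - D.κ * hm (atq a) (amu a) * a.1 0 * v.1 1 +
      kk (atq a) (amu a) * imd (a.2.1 * a.2.2) (a.2.1 • cW + a.2.2 • cU) v := rfl

theorem K8_cst (γ : Matrix (Fin 2) (Fin 2) ℝ) {v v' : Am} (h0 : v.1 0 = 0) (h1 : v.1 1 = 0)
    (h0' : v'.1 0 = 0) (h1' : v'.1 1 = 0) :
    cstA γ ![v, v'] = γ 1 1 * (v.1 2 * v'.1 3 - v'.1 2 * v.1 3) := by
  have e : ∀ i (w : Am), cx i w = w.1 i := fun _ _ => rfl
  simp [cstA, wedge_apply, e, h0, h1, h0', h1']

theorem K8_om (D : TD) (γ : Matrix (Fin 2) (Fin 2) ℝ) {a v v' : Am} {B B' : ℝ}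
    (h : HasDerivAt (fun t : ℝ => D.lamL (a + t • v) v') B 0)
    (h' : HasDerivAt (fun t : ℝ => D.lamL (a + t • v') v) B' 0) :
    D.omA γ a ![v, v'] = cstA γ ![v, v'] + (B - B') := by
  have h1 : DifferentiableAt ℝ D.lamL a := D.contDiff_lamL.differentiable (by simp) a
  have h2 : DifferentiableAt ℝ (fun a => alt1 (D.lamL a)) a :=
    ((contDiff_alt1 (n := 1)).differentiable one_ne_zero _).comp a h1
  rw [TD.omA, ContinuousAlternatingMap.add_apply, extDeriv_one_apply h2,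
    ← fderiv_continuousAlternatingMap_apply_const_apply h2,
    ← fderiv_continuousAlternatingMap_apply_const_apply h2, ← K8_line (h1.clm_apply
      (differentiableAt_const v')) h, ← K8_line (h1.clm_apply (differentiableAt_const v)) h']
  rfl

theorem K8_uu (z v : E6) (t : ℝ) :
    uu (z + t • v) = uu z + t • uu v ∧ ww (z + t • v) = ww z + t • ww v :=
  ⟨Complex.ext (by simp [uu]) (by simp [uu]), Complex.ext (by simp [ww]) (by simp [ww])⟩

theorem K8_dio (hz : z ∈ D.W .f) {v : E6} (h : uu v * ww z + uu z * ww v = 0) :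
    fderiv ℝ (D.io .f) z v = (![0, 0, v (1, 0), v (1, 1)],
      (uu v + 2 * Real.pi * I * uu z * (-(D.A 1 0 * v (1, 0) * QQ (uu z * ww z)) : ℝ)) *
        ee (-(D.A 1 0 * z (1, 0) * QQ (uu z * ww z))),
      (ww v + 2 * Real.pi * I * ww z * (D.A 1 0 * v (1, 0) * QQ (uu z * ww z) : ℝ)) *
        ee (D.A 1 0 * z (1, 0) * QQ (uu z * ww z))) := by
  have e : z + (0 : ℝ) • v = z := by simp
  have hu : HasDerivAt (fun t : ℝ => uu (z + t • v)) (uu v) 0 := by
    simpa only [(K8_uu z v _).1] using K8_aff (uu z) (uu v)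
  have hw : HasDerivAt (fun t : ℝ => ww (z + t • v)) (ww v) 0 := by
    simpa only [(K8_uu z v _).2] using K8_aff (ww z) (ww v)
  have hs : HasDerivAt (fun t : ℝ => uu (z + t • v) * ww (z + t • v)) 0 0 :=
    (hu.mul hw).congr_deriv (by rw [e, h])
  have hc : ∀ {P : ℂ → ℝ}, ContDiffAt ℝ ∞ P (uu z * ww z) →
      HasDerivAt (fun t : ℝ => P (uu (z + t • v) * ww (z + t • v))) 0 0 := fun hP =>
    (HasFDerivAt.comp_hasDerivAt_of_eq (0 : ℝ) (hP.differentiableAt (by simp)).hasFDerivAt hs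
      (by rw [e])).congr_deriv (map_zero _)
  have hP := hc (contDiffAt_PP hz.1.le)
  have hQ := hc (contDiffAt_QQ hz.1.le)
  have hx : ∀ i, HasDerivAt (fun t : ℝ => (z + t • v) i) (v i) 0 := fun i => K8_aff (z i) (v i)
  have hθ : HasDerivAt (fun t : ℝ => D.A 1 0 * (z + t • v) (1, 0) *
      QQ (uu (z + t • v) * ww (z + t • v))) (D.A 1 0 * v (1, 0) * QQ (uu z * ww z)) 0 :=
    (((hx (1, 0)).const_mul _).mul hQ).congr_deriv (by rw [e, mul_zero, add_zero])
  have := (K8_vec hP hQ (hx (1, 0)) (hx (1, 1))).prodMk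
    ((K8_rot hu hθ.neg).prodMk (K8_rot hw hθ))
  simp only [Pi.neg_apply, e] at this
  exact K8_line ((io_contDiffAt hz).differentiableAt (by simp)) this

theorem K8_unit (u u' : ℂ) (t : ℝ) : (u * ee t).re * (u' * ee t).im - (u * ee t).im * (u' * ee t).re =
    u.re * u'.im - u.im * u'.re := by
  have := normSq_ee t
  rw [normSq_apply] at this
  simp only [mul_re, mul_im]
  linear_combination (u.re * u'.im - u.im * u'.re) * this

theorem K8_crit (D : TD) {a v v' : Am} (hU : a.2.1 = 0) (hW : a.2.2 = 0) (h1 : v'.1 1 = 0) :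
    HasDerivAt (fun t : ℝ => D.lamL (a + t • v) v') (imd v.2.1 cU v' + imd v.2.2 cW v') 0 := by
  have hl : Differentiable ℝ fun t : ℝ => a + t • v := by fun_prop
  have hk := (contDiff_kk_am.differentiable (by simp)).comp hl
  have hb : Differentiable ℝ fun t : ℝ => D.bA (a + t • v) v' := by
    simp only [K8_bA]
    fun_prop
  have hh := (((hb.const_mul (amu v)).add (hk.mul (differentiable_id.mul_const
    (imd (v.2.1 * v.2.2) (v.2.1 • cW + v.2.2 • cU) v')))) 0).hasDerivAt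
  have := ((hasDerivAt_id (0 : ℝ)).mul_const (imd v.2.1 cU v' + imd v.2.2 cW v')).add
    ((hasDerivAt_id (0 : ℝ)).mul ((hasDerivAt_id (0 : ℝ)).mul hh))
  refine (this.congr_deriv (by simp)).congr_of_eventuallyEq (.of_forall fun t => ?_)
  simp only [K8_lam, h1, imd_apply, amu, Pi.add_apply, Pi.mul_apply, id, Function.comp_apply,
    Prod.snd_add, Prod.fst_add, Prod.smul_snd, Prod.smul_fst, hU, hW, zero_add, real_smul,
    add_apply, smul_apply, smul_eq_mul, map_mul,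
    normSq_ofReal, mul_re, mul_im, add_re, add_im, ofReal_re, ofReal_im]
  ring

theorem K8_axis (D : TD) {a v v' : Am} (hW : a.2.2 = 0) (h : v.2.2 = 0) (h1 : v'.1 1 = 0)
    (h3 : v'.1 3 = 0) :
    HasDerivAt (fun t : ℝ => D.lamL (a + t • v) v') (imd v.2.1 cU v') 0 := by
  have := ((hasDerivAt_id (0 : ℝ)).mul_const (imd v.2.1 cU v')).const_add (imd a.2.1 cU v')
  refine (this.congr_deriv (one_mul _)).congr_of_eventuallyEq (.of_forall fun t => ?_)
  simp only [K8_lam, K8_bA, h1, h3, imd_apply, id, Prod.snd_add, Prod.fst_add, Prod.smul_snd,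
    Prod.smul_fst, hW, h, real_smul, mul_zero, add_zero, zero_re, zero_im, mul_re, mul_im, add_re,
    add_im, ofReal_re, ofReal_im]
  ring

theorem K8_pb (D : TD) (γ : Matrix (Fin 2) (Fin 2) ℝ) (s : K3) (z a b : E6) : D.om γ s z ![a, b] =
    D.omA γ (D.io s z) ![fderiv ℝ (D.io s) z a, fderiv ℝ (D.io s) z b] :=
  congrArg (D.omA γ (D.io s z)) (funext fun i => by fin_cases i <;> rfl)

theorem om_f_crit (hz : z ∈ D.W .f) (hu : uu z = 0) (hw : ww z = 0) (a b : E6) :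
    D.om γ .f z ![a, b] = (a (0, 0) * b (0, 1) - a (0, 1) * b (0, 0) + (a (2, 0) * b (2, 1) -
      a (2, 1) * b (2, 0))) / Real.pi + γ 1 1 * (a (1, 0) * b (1, 1) - a (1, 1) * b (1, 0)) := by
  have hU : (D.io .f z).2.1 = 0 := by simp only [TD.io, hu, zero_mul]
  have hW : (D.io .f z).2.2 = 0 := by simp only [TD.io, hw, zero_mul]
  rw [K8_pb, K8_dio hz (by rw [hu, hw]; ring), K8_dio hz (by rw [hu, hw]; ring),
    K8_om D γ (K8_crit D hU hW rfl) (K8_crit D hU hW rfl), K8_cst γ rfl rfl rfl rfl]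
  have e : ∀ w : Am, cU w = w.2.1 ∧ cW w = w.2.2 := fun _ => ⟨rfl, rfl⟩
  simp only [imd_apply, e, hu, hw, mul_zero, zero_mul, add_zero, K8_unit]
  simp only [uu, ww, Matrix.cons_val]
  field_simp
  ring

theorem om_f_axis (hz : z ∈ D.W .f) (hw : ww z = 0) :
    D.om γ .f z ![bv (0, 0), bv (0, 1)] = 1 / Real.pi := by
  have hW : (D.io .f z).2.2 = 0 := by simp only [TD.io, hw, zero_mul]
  have e0 : ww (bv (0, 0)) = 0 ∧ ww (bv (0, 1)) = 0 ∧ uu (bv (0, 0)) = 1 ∧ uu (bv (0, 1)) = I ∧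
      bv (0, 0) (1, 0) = 0 ∧ bv (0, 0) (1, 1) = 0 ∧ bv (0, 1) (1, 0) = 0 ∧ bv (0, 1) (1, 1) = 0 := by
    simp [bv, uu, ww, Complex.ext_iff]
  rw [K8_pb, K8_dio hz (by rw [hw, e0.1]; ring), K8_dio hz (by rw [hw, e0.2.1]; ring)]
  simp only [e0, hw, mul_zero, zero_mul, add_zero, neg_zero, ofReal_zero]
  rw [K8_om D γ (K8_axis D hW rfl rfl rfl) (K8_axis D hW rfl rfl rfl), K8_cst γ rfl rfl rfl rfl]
  have e : ∀ w : Am, cU w = w.2.1 := fun _ => rfl
  simp only [imd_apply, e, K8_unit]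
  simp only [Matrix.cons_val, one_re, one_im, I_re, I_im]
  field_simp
  ring

theorem SF_cont (D : TD) : ContinuousOn D.SF (D.W .f) := by
  have h1 : Continuous D.SA := continuous_clm_apply.2 fun v => by
    have := contDiff_ee.continuous
    simp only [K8_SA, K8_bA]
    fun_prop
  intro z hz
  have h2 := io_contDiffAt hz
  exact ((h1.continuousAt.comp h2.continuousAt).clm_comp
    (h2.continuousAt_fderiv (by simp))).continuousWithinAt

theorem K8_nact (D : TD) (m n : ℤ) (a : Am) : D.nact 0 m 0 n a =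
    (![a.1 0, a.1 1, a.1 2 + m, a.1 3 + n],
      a.2.1 * ee (-(m * (D.A 1 0 * a.1 1 + D.A 1 1 * a.1 3))),
      a.2.2 * ee (m * (D.A 1 0 * a.1 1 + D.A 1 1 * a.1 3))) := by
  simp [TD.nact]

theorem K8_fact (D : TD) (m n : ℤ) (z : E6) :
    D.io .f (fact (D.A 1 1) m n z) = D.nact 0 m 0 n (D.io .f z) := by
  have e1 : uu (fact (D.A 1 1) m n z) = uu z * ee (-(m * D.A 1 1 * z (1, 1))) := rfl
  have e2 : ww (fact (D.A 1 1) m n z) = ww z * ee (m * D.A 1 1 * z (1, 1)) := rfl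
  have e3 : fact (D.A 1 1) m n z (1, 0) = z (1, 0) + m := rfl
  have e4 : fact (D.A 1 1) m n z (1, 1) = z (1, 1) + n := rfl
  have e5 : uu (fact (D.A 1 1) m n z) * ww (fact (D.A 1 1) m n z) = uu z * ww z := by
    rw [e1, e2]
    linear_combination uu z * ww z * ee_mul_neg (m * D.A 1 1 * z (1, 1))
  rw [K8_nact]
  simp only [TD.io, e5, Matrix.cons_val]
  rw [e1, e2, e3, e4, mul_assoc (uu z), mul_assoc (ww z), mul_assoc (uu z), mul_assoc (ww z),
    ← ee_add, ← ee_add, ← ee_add, ← ee_add]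
  exact Prod.ext rfl (Prod.ext (congrArg (fun t => uu z * ee t) (by ring))
    (congrArg (fun t => ww z * ee t) (by ring)))

theorem K8_dN (D : TD) (m n : ℤ) (a v : Am) :
    D.SA (D.nact 0 m 0 n a) (fderiv ℝ (D.nact 0 m 0 n) a v) =
      ![ee (-(m * (D.A 1 0 * a.1 1 + D.A 1 1 * a.1 3))) * D.SA a v 0,
        ee (m * (D.A 1 0 * a.1 1 + D.A 1 1 * a.1 3)) * D.SA a v 1, D.SA a v 2] := by
  have e : a + (0 : ℝ) • v = a := by simp
  have hx : ∀ i, HasDerivAt (fun t : ℝ => (a + t • v).1 i) (v.1 i) 0 :=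
    fun i => K8_aff (a.1 i) (v.1 i)
  have hU : HasDerivAt (fun t : ℝ => (a + t • v).2.1) v.2.1 0 := K8_aff a.2.1 v.2.1
  have hW : HasDerivAt (fun t : ℝ => (a + t • v).2.2) v.2.2 0 := K8_aff a.2.2 v.2.2
  have hθ := (((hx 1).const_mul (D.A 1 0 : ℝ)).add ((hx 3).const_mul (D.A 1 1 : ℝ))).const_mul
    (m : ℝ)
  have := (K8_vec (hx 0) (hx 1) ((hx 2).add_const (m : ℝ)) ((hx 3).add_const (n : ℝ))).prodMk
    ((K8_rot hU hθ.neg).prodMk (K8_rot hW hθ))
  simp only [Pi.neg_apply, Pi.add_apply, e, ← K8_nact] at this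
  rw [K8_line ((D.contDiff_nact 0 m 0 n).differentiable (by simp) a) this, K8_nact]
  simp only [K8_SA, K8_bA, Matrix.cons_val]
  push_cast
  funext i
  fin_cases i
  · simp only [Fin.zero_eta, Matrix.cons_val]
    ring
  · simp only [Fin.mk_one, Matrix.cons_val]
    ring
  · rfl

theorem SF_inv (hz : z ∈ D.W .f) (m n : ℤ) (v : Fin 3 → E6) :
    detC ((D.SF (fact (D.A 1 1) m n z)).comp (fderiv ℝ (fact (D.A 1 1) m n) z)) v =
      detC (D.SF z) v := by
  have h1 := (io_contDiffAt hz).differentiableAt (by simp)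
  have h2 := (io_contDiffAt (fact_maps (c := D.A 1 1) ⟨m, n, rfl⟩ hz)).differentiableAt (by simp)
  have h3 := (contDiff_fact (D.A 1 1) m n).differentiable (by simp) z
  have h4 := (D.contDiff_nact 0 m 0 n).differentiable (by simp) (D.io .f z)
  have e : ∀ w, ((D.SF (fact (D.A 1 1) m n z)).comp (fderiv ℝ (fact (D.A 1 1) m n) z)) w =
      D.SA (D.nact 0 m 0 n (D.io .f z))
        (fderiv ℝ (D.nact 0 m 0 n) (D.io .f z) (fderiv ℝ (D.io .f) z w)) := fun w => by
    rw [← K8_fact, ← ContinuousLinearMap.comp_apply (fderiv ℝ (D.nact 0 m 0 n) _),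
      ← fderiv_fun_comp z h4 h1, ← funext (K8_fact D m n), fderiv_fun_comp z h2 h3]
    rfl
  have e' : ∀ w, D.SF z w = D.SA (D.io .f z) (fderiv ℝ (D.io .f) z w) := fun _ => rfl
  have := ee_mul_neg (m * (D.A 1 0 * (D.io .f z).1 1 + D.A 1 1 * (D.io .f z).1 3))
  simp only [detC, Matrix.det_fin_three, Matrix.of_apply, e, e', K8_dN, Matrix.cons_val]
  generalize ee (-_) = c at this ⊢
  generalize ee _ = c' at this ⊢
  generalize D.SA (D.io .f z) (fderiv ℝ (D.io .f) z (v 0)) = x0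
  generalize D.SA (D.io .f z) (fderiv ℝ (D.io .f) z (v 1)) = x1
  generalize D.SA (D.io .f z) (fderiv ℝ (D.io .f) z (v 2)) = x2
  linear_combination (x0 0 * x1 1 * x2 2 - x0 0 * x2 1 * x1 2 - x1 0 * x0 1 * x2 2 +
    x1 0 * x2 1 * x0 2 + x2 0 * x0 1 * x1 2 - x2 0 * x1 1 * x0 2) * this

theorem SF_tame (hz : z ∈ D.W .f) (hu : uu z = 0) (hw : ww z = 0) (hγ : 0 < γ 1 1) :
    TameS (D.om γ .f z) (D.SF z) := by
  have hU : (D.io .f z).2.1 = 0 := by simp only [TD.io, hu, zero_mul]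
  have hW : (D.io .f z).2.2 = 0 := by simp only [TD.io, hw, zero_mul]
  obtain ⟨c, c', h0, h0', e⟩ : ∃ c c' : ℂ, c ≠ 0 ∧ c' ≠ 0 ∧
      ∀ v, D.SF z v = ![c * uu v, c' * ww v, v (1, 1) - I * v (1, 0)] := by
    refine ⟨-ee (-(D.io .f z).1 1) * ee (-(D.A 1 0 * z (1, 0) * QQ (uu z * ww z))),
      ee (D.A 1 0 * z (1, 0) * QQ (uu z * ww z)),
      mul_ne_zero (neg_ne_zero.2 (ee_ne_zero _)) (ee_ne_zero _), ee_ne_zero _, fun v => ?_⟩
    rw [TD.SF, ContinuousLinearMap.comp_apply, K8_dio hz (by rw [hu, hw]; ring), K8_SA, hU, hW]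
    simp only [hu, hw, mul_zero, zero_mul, add_zero, sub_zero, Matrix.cons_val]
    rw [mul_comm (uu v), mul_comm (ww v), ← mul_assoc]
  refine ⟨⟨(injective_iff_map_eq_zero _).2 fun v hv => ?_, fun t => ?_⟩, fun v v' hv h => ?_⟩
  · rw [e] at hv
    have k0 := (mul_eq_zero.1 (congrFun hv 0)).resolve_left h0
    have k1 := (mul_eq_zero.1 (congrFun hv 1)).resolve_left h0'
    have k2 : (v (1, 1) : ℂ) - I * v (1, 0) = 0 := congrFun hv 2
    refine ext6 (congrArg re k0) (congrArg im k0) ?_ ?_ (congrArg re k1) (congrArg im k1)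
    · simpa using congrArg im k2
    · simpa using congrArg re k2
  · refine ⟨cplx (t 0 / c) (t 1 / c') (-(t 2).im) (t 2).re, ?_⟩
    rw [e]
    funext i
    fin_cases i
    · exact mul_div_cancel₀ (t 0) h0
    · exact mul_div_cancel₀ (t 1) h0'
    · exact Complex.ext (by simp [cplx]) (by simp [cplx])
  · rw [e, e] at h
    have k0 : uu v' = I * uu v := mul_left_cancel₀ h0 ((congrFun h 0).trans (mul_left_comm I c _))
    have k1 : ww v' = I * ww v := mul_left_cancel₀ h0' ((congrFun h 1).trans (mul_left_comm I c' _))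
    have k2 : (v' (1, 1) : ℂ) - I * v' (1, 0) = I * (v (1, 1) - I * v (1, 0)) := congrFun h 2
    have a0 : v' (0, 0) = -v (0, 1) := by simpa [uu] using congrArg re k0
    have a1 : v' (0, 1) = v (0, 0) := by simpa [uu] using congrArg im k0
    have a2 : v' (2, 0) = -v (2, 1) := by simpa [ww] using congrArg re k1
    have a3 : v' (2, 1) = v (2, 0) := by simpa [ww] using congrArg im k1
    have a4 : v' (1, 1) = v (1, 0) := by simpa using congrArg re k2
    have a5 : v' (1, 0) = -v (1, 1) := by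
      have : -v' (1, 0) = v (1, 1) := by simpa using congrArg im k2
      linarith
    rw [om_f_crit hz hu hw, a0, a1, a2, a3, a4, a5]
    have b1 : 0 ≤ (v (0, 0) ^ 2 + v (0, 1) ^ 2 + (v (2, 0) ^ 2 + v (2, 1) ^ 2)) / Real.pi := by
      positivity
    have b2 : 0 ≤ γ 1 1 * (v (1, 0) ^ 2 + v (1, 1) ^ 2) := by positivity
    refine lt_of_lt_of_eq (lt_of_le_of_ne (add_nonneg b1 b2) fun k => hv ?_) (by ring)
    obtain ⟨k3, k4⟩ := (add_eq_zero_iff_of_nonneg b1 b2).1 k.symm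
    replace k3 := (div_eq_zero_iff.1 k3).resolve_right Real.pi_ne_zero
    replace k4 := (mul_eq_zero.1 k4).resolve_left hγ.ne'
    have s := fun i => sq_nonneg (v i)
    have t : ∀ i, v i ^ 2 ≤ 0 → v i = (0 : E6) i := fun i k =>
      pow_eq_zero_iff two_ne_zero |>.1 (k.antisymm (s i))
    exact ext6 (t _ (by linarith [s (0, 1), s (2, 0), s (2, 1)]))
      (t _ (by linarith [s (0, 0), s (2, 0), s (2, 1)])) (t _ (by linarith [s (1, 1)]))
      (t _ (by linarith [s (1, 0)])) (t _ (by linarith [s (0, 0), s (0, 1), s (2, 1)]))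
      (t _ (by linarith [s (0, 0), s (0, 1), s (2, 0)]))

theorem K8_prod {Y Y' : Type} [NormedAddCommGroup Y] [NormedSpace ℝ Y] [NormedAddCommGroup Y']
    [NormedSpace ℝ Y'] {c : ℝ → Y × Y'} {L : Y × Y'} (h : HasDerivAt c L 0) :
    HasDerivAt (fun t => (c t).1) L.1 0 ∧ HasDerivAt (fun t => (c t).2) L.2 0 :=
  ⟨(ContinuousLinearMap.fst ℝ Y Y').hasFDerivAt.comp_hasDerivAt 0 h,
    (ContinuousLinearMap.snd ℝ Y Y').hasFDerivAt.comp_hasDerivAt 0 h⟩

theorem K8_det {s : K3} (hs : s ≠ .f) {y : E6} (hy : y ∈ D.W s) (hp : |y (0, 0)| < 1 / 8) :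
    detC ((D.SA (D.io s y)).comp (fderiv ℝ (D.io s) y)) (fun j => bv (j, 1)) =
      (2 * Real.pi ^ 2 * (1 + y (0, 0)) : ℝ) := by
  have hd := (io_contDiffAt hy).differentiableAt (by simp)
  have e1 : ∀ w, (D.io s w).1 = ![w (0, 0), w (0, 1), w (1, 0), w (1, 1)] := fun w => by
    cases s
    exacts [rfl, rfl, absurd rfl hs]
  have e2 : ∀ t : ℝ, (D.io s (y + t • bv (1, 1))).2 = (D.io s y).2 := fun t => by
    cases s
    · simp [TD.io, gz, rad, bv]
    · simp [TD.io, gz, rad, bv]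
    · exact absurd rfl hs
  have e3 : ∀ t : ℝ, (D.io s (y + t • bv (2, 1))).2 =
      ((D.io s y).2.1 * ee t, (D.io s y).2.2 * ee (-t)) := fun t => by
    cases s
    · simp [TD.io, gz, rad, bv, ee_add]
      exact ⟨by ring, by ring⟩
    · simp [TD.io, gz, rad, bv, ee_add]
      exact ⟨by ring, by ring⟩
    · exact absurd rfl hs
  have hL : ∀ v, HasDerivAt (fun t : ℝ => D.io s (y + t • v)) (fderiv ℝ (D.io s) y v) 0 :=
    fun v => hd.hasFDerivAt.hasLineDerivAt v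
  have hx : ∀ (v : E6) i, HasDerivAt (fun t : ℝ => (y + t • v) i) (v i) 0 :=
    fun v i => K8_aff (y i) (v i)
  have d1 : ∀ v, (fderiv ℝ (D.io s) y v).1 = ![v (0, 0), v (0, 1), v (1, 0), v (1, 1)] := fun v =>
    (K8_prod (hL v)).1.unique (by simpa only [e1] using K8_vec (hx v _) (hx v _) (hx v _) (hx v _))
  have d2 : (fderiv ℝ (D.io s) y (bv (1, 1))).2 = 0 :=
    (K8_prod (hL _)).2.unique (by simpa only [e2] using hasDerivAt_const (0 : ℝ) (D.io s y).2)
  have d3 : (fderiv ℝ (D.io s) y (bv (2, 1))).2 = (2 * Real.pi * I * (D.io s y).2.1,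
      -(2 * Real.pi * I * (D.io s y).2.2)) :=
    (K8_prod (hL _)).2.unique (by
      simpa [e3, ee_zero] using (K8_rot (hasDerivAt_const _ (D.io s y).2.1) (hasDerivAt_id _)).prodMk
        (K8_rot (hasDerivAt_const _ (D.io s y).2.2) (hasDerivAt_id _).neg))
  have d4 : (fderiv ℝ (D.io s) y (bv (0, 1))).2.1 * (D.io s y).2.2 +
      (D.io s y).2.1 * (fderiv ℝ (D.io s) y (bv (0, 1))).2.2 =
        2 * Real.pi * I * ((1 + y (0, 0)) / 2 * ee (y (0, 1))) := by
    have k0 := K8_prod (K8_prod (hL (bv (0, 1)))).2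
    have k1 := k0.1.mul k0.2
    have k2 := (hasFDerivAt_gz (z := y) (n := 0) (by simpa using hp)).hasLineDerivAt (bv (0, 1))
    have k3 : ∀ᶠ t : ℝ in 𝓝 0, y + t • bv (0, 1) ∈ D.W s :=
      (K8_aff y (bv (0, 1))).continuousAt.eventually ((D.isOpen_W s).mem_nhds (by simpa using hy))
    have k4 := (k1.congr_of_eventuallyEq (k3.mono fun t ht => by
      have := io_mul ht
      rw [e1] at this
      exact this.symm)).unique k2
    simpa [dc, bv, ee_zero] using k4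
  have b : ∀ i j : Cx, bv i j = if j = i then 1 else 0 := fun i j => Pi.single_apply _ _ _
  have k := ee_mul_neg (y (0, 1))
  simp only [detC, Matrix.det_fin_three, Matrix.of_apply, ContinuousLinearMap.comp_apply, K8_SA,
    K8_bA, d1, d2, d3, e1, Matrix.cons_val, b, Prod.mk.injEq, Fin.reduceEq, and_true,
    and_false, if_true, if_false, Prod.fst_zero, Prod.snd_zero]
  push_cast
  linear_combination (-(2 * Real.pi * I * ee (-y (0, 1)))) * d4 -
    2 * Real.pi ^ 2 * (1 + y (0, 0)) * I ^ 2 * k - 2 * Real.pi ^ 2 * (1 + y (0, 0)) * I_sq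

theorem K8_pos (h : TM D q) (hz : z ∈ D.W .f) {s : K3} (hs : s ≠ .f) {y : E6} (hy : y ∈ D.W s)
    (hp : |y (0, 0)| < 1 / 8) (he : D.io s y = D.io .f z) :
    ∃ f, Tr (q s) (q .f) f y ∧ f y = z ∧ ∃ r : ℝ, 0 < r ∧
      detC ((D.SF z).comp (fderiv ℝ f y)) (fun j => bv (j, 1)) = r := by
  obtain ⟨f, hf, rfl⟩ := (h.par .f).tr hz ((h.par s).sm y hy)
    ((h.eq s .f y hy z hz).2 (he ▸ TD.RN.refl _))
  obtain ⟨m₀, m₁, n₀, n₁, hn⟩ := h.local hy hf hz
  have k := congrArg Prod.fst (he.trans hn.self_of_nhds)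
  have k0 : (D.κ : ℝ) * m₀ = 0 := left_eq_add.1 (congrFun k 0)
  have k1 : (n₀ : ℝ) = 0 := left_eq_add.1 (congrFun k 1)
  have k2 : (m₁ : ℝ) = 0 := left_eq_add.1 (congrFun k 2)
  have k3 : (n₁ : ℝ) = 0 := left_eq_add.1 (congrFun k 3)
  have e : (fun w => D.io .f (f w)) =ᶠ[𝓝 y] D.io s := hn.mono fun w hw => hw.trans (by
    simp only [TD.nact, k0, k1, k2, k3, mul_zero, zero_mul, add_zero, sub_zero, ee_zero, mul_one]
    exact Prod.ext (funext fun i => by fin_cases i <;> rfl) rfl)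
  refine ⟨f, hf, rfl, _, ?_, Eq.trans ?_ (K8_det hs hy hp)⟩
  · have := Real.pi_pos
    have : 0 < 1 + y (0, 0) := by linarith [(abs_lt.1 hp).1]
    positivity
  · rw [← e.fderiv_eq, fderiv_fun_comp y ((io_contDiffAt hz).differentiableAt (by simp))
      (hf.1.differentiableAt (by simp)), he]
    rfl

theorem TM.pos (h : TM D q) (hz : z ∈ D.W .f) (h0 : uu z ≠ 0 ∨ ww z ≠ 0) :
    ∃ s, s ≠ .f ∧ ∃ y ∈ D.W s, ∃ f, Tr (q s) (q .f) f y ∧ f y = z ∧ ∃ r : ℝ, 0 < r ∧
      detC ((D.SF z).comp (fderiv ℝ f y)) (fun j => bv (j, 1)) = r := by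
  rcases h0 with h0 | h0
  · obtain ⟨y, hy, hp, he⟩ := f_exists_p hz h0
    exact ⟨.p, by decide, y, hy, K8_pos h hz (by decide) hy hp he⟩
  · obtain ⟨y, hy, he⟩ := f_exists_m hz h0
    exact ⟨.m, by decide, y, hy.1, K8_pos h hz (by decide) hy.1 hy.2.1 he⟩

end Pool.Agent.Work.MP_bf98aa_gt.Cy
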