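import Pool.Agent.Work.MP_bf98aa_gt.Cy.H3
import Pool.Agent.Work.MP_bf98aa_gt.Cy.H6
import Pool.Agent.Work.MP_bf98aa_gt.Cy.K7
import Pool.Agent.Work.MP_bf98aa_gt.Cy.K8

/-!
The symplectic form on a half and on the whole manifold.

PLAN. Linear changes of coordinates: evaluate on two vectors (`cst_apply`, `conn_apply`, `wedge_apply`). `pb_oS`, `pb_oU`: with `r = a/9 + μ'`, `X = 9 r (x₁ + j/3)` the form `heis dg A9` is
`dX ∧ dθX + dr ∧ dθr + β dx ∧ dy`. `HM.cmp`, `HM.vcmp` by `HM.ind` (`Cmp.symm`, `Cmp.trans`, `TM.cmp`, `om_low`, `om_high`, `om_left`, `om_right`, `DI_cases`).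
`om_nondeg`: `om_form`, `nondeg_cst`; the determinant in kink coordinates is `(a + 9 μ) β + (b - h) ((a + 9 μ) u₁ w₁ + β u₀ w₀)` with `h = hm ..` (`hm_bounds`, `hm_eq`, `h1`, `h2`);
at critical points `om_f_crit`.
-/

set_option autoImplicit false

open scoped Manifold ContDiff Topology
open Set Complex

namespace Pool.Agent.Work.MP_bf98aa_gt.Cy

open Pool.Agent.Work.MP_bf98aa_gt.Th

variable {M : Type} [TopologicalSpace M] [ChartedSpace E6 M] [IsManifold 𝓘(ℝ, E6) ∞ M]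

variable {d : HD} {q : Ix → E6 → M} {G : GD} {qA qB : Ix → E6 → M} {z : E6}

theorem H7_pb (f : E6 → E6) (α : Fm E6 2) (z u v : E6) :
    pb f α z ![u, v] = α (f z) ![fderiv ℝ f z u, fderiv ℝ f z v] := by
  rw [pb, ContinuousAlternatingMap.compContinuousLinearMap_apply]
  exact congrArg _ (funext fun i => by fin_cases i <;> rfl)

theorem H7_heis (γ A : Matrix (Fin 2) (Fin 2) ℝ) (z u v : E6) : heis γ A z ![u, v] =
    (γ 0 0 + z (2, 0) * A 0 0) * (u (0, 0) * v (0, 1) - v (0, 0) * u (0, 1)) +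
    (γ 0 1 + z (2, 0) * A 0 1) * (u (0, 0) * v (1, 1) - v (0, 0) * u (1, 1)) +
    (γ 1 0 + z (2, 0) * A 1 0) * (u (1, 0) * v (0, 1) - v (1, 0) * u (0, 1)) +
    (γ 1 1 + z (2, 0) * A 1 1) * (u (1, 0) * v (1, 1) - v (1, 0) * u (1, 1)) +
    (u (2, 0) * (v (2, 1) + (A 0 0 * z (0, 0) * v (0, 1) + A 0 1 * z (0, 0) * v (1, 1) +
      A 1 0 * z (1, 0) * v (0, 1) + A 1 1 * z (1, 0) * v (1, 1))) -
    v (2, 0) * (u (2, 1) + (A 0 0 * z (0, 0) * u (0, 1) + A 0 1 * z (0, 0) * u (1, 1) +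
      A 1 0 * z (1, 0) * u (0, 1) + A 1 1 * z (1, 0) * u (1, 1)))) := by
  rw [heis, ContinuousAlternatingMap.add_apply, cst_apply, wedge_apply, ← conn_apply, ← conn_apply]
  rfl

theorem H7_N (d : HD) (z u v : E6) : heis d.γN 0 z ![u, v] =
    (u (0, 0) * v (0, 1) - v (0, 0) * u (0, 1)) + d.β * (u (1, 0) * v (1, 1) - v (1, 0) * u (1, 1)) +
      (u (2, 0) * v (2, 1) - v (2, 0) * u (2, 1)) := by
  rw [H7_heis]
  simp [HD.γN]

theorem H7_9 (d : HD) (z u v : E6) : heis d.dg (toR A9) z ![u, v] =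
    (d.a + z (2, 0) * 9) * (u (0, 0) * v (0, 1) - v (0, 0) * u (0, 1)) +
      d.β * (u (1, 0) * v (1, 1) - v (1, 0) * u (1, 1)) +
      (u (2, 0) * (v (2, 1) + 9 * z (0, 0) * v (0, 1)) -
        v (2, 0) * (u (2, 1) + 9 * z (0, 0) * u (0, 1))) := by
  rw [H7_heis]
  simp [HD.dg, toR, A9]

theorem H7_mk {a b c e f g : E6 → ℝ} {a' b' c' e' f' g' : E6 →L[ℝ] ℝ} (ha : HasFDerivAt a a' z)
    (hb : HasFDerivAt b b' z) (hc : HasFDerivAt c c' z) (he : HasFDerivAt e e' z)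
    (hf : HasFDerivAt f f' z) (hg : HasFDerivAt g g' z) (v : E6) :
    fderiv ℝ (fun y => mk (a y) (b y) (c y) (e y) (f y) (g y)) z v =
      mk (a' v) (b' v) (c' v) (e' v) (f' v) (g' v) := by
  have h : HasFDerivAt (fun y => mk (a y) (b y) (c y) (e y) (f y) (g y))
      (ContinuousLinearMap.pi fun i : Cx => ![![a', b'], ![c', e'], ![f', g']] i.1 i.2) z :=
    hasFDerivAt_pi.2 fun ⟨i, j⟩ => by fin_cases i <;> fin_cases j <;> assumption
  rw [h.fderiv]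
  exact ext6 rfl rfl rfl rfl rfl rfl

theorem H7_vok {L : E6 →L[ℝ] E6} (a b c e f g h i k : ℝ)
    (hL : ∀ v, Vert v → L v = mk 0 (a * v (0, 1) + b * v (1, 1) + c * v (2, 1)) 0
      (e * v (0, 1) + f * v (1, 1) + g * v (2, 1)) 0 (h * v (0, 1) + i * v (1, 1) + k * v (2, 1)))
    (hd : a * f * k - a * g * i - b * e * k + b * g * h + c * e * i - c * f * h = 1) : VOk L := by
  refine ⟨fun v hv j => ?_, ?_⟩
  · rw [hL v hv]
    fin_cases j <;> rfl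
  · simp only [Matrix.det_fin_three, Matrix.of_apply, hL _ (G1_bv _), mk01, mk11, mk21]
    simpa [bv] using hd

theorem H7_drot (n : ℕ) (z v : E6) : fderiv ℝ rot^[n] z v = rot^[n] v := by
  obtain ⟨L, hL⟩ := exists_rotL n
  rw [funext hL, L.fderiv]

theorem H7_dLL (j : Fin 3) (z : E6) : fderiv ℝ (LL j) z = fderiv ℝ rot^[j] z := by
  have h : LL j = fun y => rot^[j] y + mk (-2) 0 0 0 0 0 := funext fun y => by
    apply ext6 <;> simp [LL, sh]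
  rw [h, fderiv_add_const]

theorem H7_dLa (d : HD) (z v : E6) : fderiv ℝ d.La z v = d.La v := by
  obtain ⟨L, hL⟩ := d.exists_LaL
  rw [funext hL, L.fderiv]

theorem H7_rotN (d : HD) (n : ℕ) (y z u v : E6) :
    heis d.γN 0 y ![rot^[n] u, rot^[n] v] = heis d.γN 0 z ![u, v] := by
  induction n generalizing y with
  | zero => rw [H7_N, H7_N]; rfl
  | succ n ih =>
    rw [← ih y, Function.iterate_succ_apply', Function.iterate_succ_apply', H7_N, H7_N]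
    simp only [rot, mk00, mk01, mk10, mk11, mk20, mk21]
    ring

theorem H7_vrot (n : ℕ) (z : E6) : VOk (fderiv ℝ rot^[n] z) := by
  induction n with
  | zero =>
    refine H7_vok 1 0 0 0 1 0 0 0 1 (fun v hv => ?_) (by norm_num)
    rw [H7_drot]
    exact ext6 (hv 0) (by simp) (hv 1) (by simp) (hv 2) (by simp)
  | succ n ih =>
    have h1 : VOk (fderiv ℝ rot^[1] z) := by
      refine H7_vok (-2) 0 3 0 1 0 (-1) 0 1 (fun v hv => ?_) (by norm_num)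
      rw [H7_drot]
      apply ext6 <;> simp [rot, hv 0, hv 1, hv 2]
    have h2 : fderiv ℝ rot^[n + 1] z = (fderiv ℝ rot^[1] z).comp (fderiv ℝ rot^[n] z) :=
      ContinuousLinearMap.ext fun v => by
        rw [ContinuousLinearMap.comp_apply, H7_drot, H7_drot, H7_drot,
          Function.iterate_succ_apply', Function.iterate_one]
    rw [h2]
    exact G1_comp ih h1

theorem pb_LL (d : HD) (j : Fin 3) (z : E6) : pb (LL j) (heis d.γN 0) z = heis d.γN 0 z :=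
  alt_ext_two fun u v => by rw [H7_pb, H7_dLL, H7_drot, H7_drot, H7_rotN]

theorem H7_K (d : HD) (y p r : E6) : heis d.γK (toR d.TK.A) y ![p, r] =
    heis d.dg (toR A9) (d.La' y) ![d.La' p, d.La' r] := by
  rw [H7_heis, H7_9]
  simp only [HD.γK, HD.TK, HD.La', toR, Matrix.of_apply, Matrix.cons_val_zero, Matrix.cons_val_one,
    mk00, mk01, mk10, mk11, mk20, mk21]
  push_cast
  ring

theorem pb_La_m (h : d.Ok) (z : E6) :
    pb d.La (heis d.γK (toR (d.TK.As .m))) z = heis d.dg (toR A9) z :=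
  alt_ext_two fun u v => by
    rw [H7_pb, H7_dLa, H7_dLa]
    exact (H7_K d _ _ _).trans (by rw [La'_La h, La'_La h, La'_La h])

theorem pb_La_p (h : d.Ok) (z : E6) :
    pb d.La (heis d.γK (toR (d.TK.As .p))) z = heis d.dg (toR d.v) z :=
  alt_ext_two fun u v => by
    have h1 := H7_K d (d.La z) (d.La u) (d.La v)
    rw [La'_La h, La'_La h, La'_La h, H7_9, H7_heis] at h1
    rw [H7_pb, H7_dLa, H7_dLa, H7_heis, H7_heis]
    have h2 : d.TK.κ = 1 := rfl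
    simp only [TD.As, toR, HD.v, HD.dg, HD.La, h2, Matrix.sub_apply, Matrix.of_apply,
      Matrix.cons_val', Matrix.cons_val_zero, Matrix.cons_val_one, Matrix.cons_val_fin_one,
      mk00, mk01, mk10, mk11, mk20, mk21] at h1 ⊢
    push_cast
    linear_combination h1

theorem H7_dO (d : HD) (j : ℝ) {r : E6 → ℝ} {r' : E6 →L[ℝ] ℝ} (hr : HasFDerivAt r r' z)
    (h0 : r z ≠ 0) (v : E6) :
    fderiv ℝ (fun y => d.toO j (r y) (-y (2, 0)) (-y (2, 1)) (y (0, 1)) (y (1, 0)) (y (1, 1))) z v =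
      mk ((z (2, 0) * r' v - r z * v (2, 0)) / (9 * r z ^ 2)) (-v (2, 1)) (v (1, 0)) (v (1, 1))
        (r' v) (v (0, 1) - 3 * j * v (2, 1)) := by
  have h9 : 9 * r z ≠ 0 := mul_ne_zero (by norm_num) h0
  have h1 := (((dc (2, 0)).hasFDerivAt (x := z)).neg.mul
    ((hasDerivAt_inv h9).comp_hasFDerivAt z (hr.const_mul 9))).sub_const (j / 3)
  refine (H7_mk h1 (dc (2, 1)).hasFDerivAt.neg (dc (1, 0)).hasFDerivAt (dc (1, 1)).hasFDerivAt
    (hr.sub_const (d.a / 9))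
    ((dc (0, 1)).hasFDerivAt.add ((dc (2, 1)).hasFDerivAt.neg.const_mul (3 * j))) v).trans ?_
  apply ext6 <;> simp [dc]
  · field_simp
    ring
  · ring

theorem H7_pO (d : HD) (j : ℝ) {r : E6 → ℝ} {r' : E6 →L[ℝ] ℝ} (hr : HasFDerivAt r r' z)
    (h0 : r z ≠ 0) (u v : E6) :
    pb (fun y => d.toO j (r y) (-y (2, 0)) (-y (2, 1)) (y (0, 1)) (y (1, 0)) (y (1, 1)))
      (heis d.dg (toR A9)) z ![u, v] = (r' u * v (0, 1) - r' v * u (0, 1)) +
      d.β * (u (1, 0) * v (1, 1) - v (1, 0) * u (1, 1)) +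
      (u (2, 0) * v (2, 1) - v (2, 0) * u (2, 1)) := by
  rw [H7_pb, H7_dO d j hr h0, H7_dO d j hr h0, H7_9]
  simp only [HD.toO, mk00, mk01, mk10, mk11, mk20, mk21]
  field_simp
  ring

theorem H7_vO (d : HD) (j : ℝ) {r : E6 → ℝ} {r' : E6 →L[ℝ] ℝ} (hr : HasFDerivAt r r' z)
    (h0 : r z ≠ 0) (hv : ∀ v, Vert v → r' v = 0) : VOk (fderiv ℝ
      (fun y => d.toO j (r y) (-y (2, 0)) (-y (2, 1)) (y (0, 1)) (y (1, 0)) (y (1, 1))) z) := by
  refine H7_vok 0 0 (-1) 0 1 0 1 0 (-(3 * j)) (fun v h => ?_) (by ring)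
  rw [H7_dO d j hr h0, hv v h]
  apply ext6 <;> simp [h 1, h 2]
  ring

theorem H7_oS (d : HD) (j : Fin 3) : d.oS j = fun z => (fun y : E6 => d.toO (j : ℕ) (y (0, 0))
    (-y (2, 0)) (-y (2, 1)) (y (0, 1)) (y (1, 0)) (y (1, 1))) (rot^[j] z) := funext fun z => by
  rw [HD.oS, ← (rot_10 j z).1, ← (rot_10 j z).2]

theorem H7_cS (d : HD) (j : ℝ) (h : z (0, 0) ≠ 0) : DifferentiableAt ℝ (fun y : E6 => d.toO j
    (y (0, 0)) (-y (2, 0)) (-y (2, 1)) (y (0, 1)) (y (1, 0)) (y (1, 1))) z := by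
  have h9 : 9 * z (0, 0) ≠ 0 := mul_ne_zero (by norm_num) h
  refine differentiableAt_pi.2 fun ⟨i, k⟩ => ?_
  fin_cases i <;> fin_cases k
  · change DifferentiableAt ℝ (fun y : E6 => -y (2, 0) / (9 * y (0, 0)) - j / 3) z
    fun_prop (disch := exact h9)
  · change DifferentiableAt ℝ (fun y : E6 => -y (2, 1)) z
    fun_prop
  · change DifferentiableAt ℝ (fun y : E6 => y (1, 0)) z
    fun_prop
  · change DifferentiableAt ℝ (fun y : E6 => y (1, 1)) z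
    fun_prop
  · change DifferentiableAt ℝ (fun y : E6 => y (0, 0) - d.a / 9) z
    fun_prop
  · change DifferentiableAt ℝ (fun y : E6 => y (0, 1) + 3 * j * -y (2, 1)) z
    fun_prop

theorem H7_ne {j : Fin 3} (hz : z ∈ DS j) : rot^[j] z (0, 0) ≠ 0 := by
  have := hz.2.1
  linarith

theorem pb_oS (j : Fin 3) (hz : z ∈ DS j) :
    pb (d.oS j) (heis d.dg (toR A9)) z = heis d.γN 0 z := by
  rw [H7_oS, pb_comp _ ((contDiff_rot j).differentiable (by simp) z) (H7_cS d _ (H7_ne hz))]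
  refine alt_ext_two fun u v => ?_
  rw [H7_pb, H7_drot, H7_drot, ← H7_rotN d j z z u v, H7_N]
  exact H7_pO d _ (dc (0, 0)).hasFDerivAt (H7_ne hz) _ _

theorem H7_vS {j : Fin 3} (hz : z ∈ DS j) : VOk (fderiv ℝ (d.oS j) z) := by
  have h := fderiv_comp z (H7_cS d (j : ℕ) (H7_ne hz))
    ((contDiff_rot j).differentiable (by simp) z)
  rw [H7_oS]
  exact h ▸ G1_comp (H7_vrot j z)
    (H7_vO d _ (dc (0, 0)).hasFDerivAt (H7_ne hz) fun v hv => hv 0)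

theorem H7_r (z : E6) : HasFDerivAt (fun y : E6 => 2 + y (0, 0) + hinf (y (2, 0)))
    (dc (0, 0) + deriv hinf (z (2, 0)) • dc (2, 0)) z :=
  ((dc (0, 0)).hasFDerivAt.const_add 2).add
    ((contDiff_hinf.differentiable (by simp) _).hasDerivAt.comp_hasFDerivAt z
      (dc (2, 0)).hasFDerivAt)

theorem H7_nU (hz : z ∈ DU) : 2 + z (0, 0) + hinf (z (2, 0)) ≠ 0 := by
  have := hz.2
  linarith

theorem pb_oU (j : Fin 3) (hz : z ∈ DU) : pb (d.oU j) (heis d.dg (toR A9)) z =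
    heis d.γN 0 z + deriv hinf (z (2, 0)) • wedge (dc (2, 0)) (dc (0, 1)) := by
  refine alt_ext_two fun u v => (H7_pO d _ (H7_r z) (H7_nU hz) u v).trans ?_
  rw [ContinuousAlternatingMap.add_apply, ContinuousAlternatingMap.smul_apply, wedge_apply, H7_N]
  simp only [add_apply, smul_apply, G11a_dc, smul_eq_mul, Matrix.cons_val_zero, Matrix.cons_val_one]
  ring

theorem H7_vU (j : Fin 3) (hz : z ∈ DU) : VOk (fderiv ℝ (d.oU j) z) :=
  H7_vO d _ (H7_r z) (H7_nU hz) fun v hv => by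
    simp only [add_apply, smul_apply, G11a_dc, hv 0, hv 2, smul_zero, add_zero]

theorem H7_vLa (h : d.Ok) (z : E6) : VOk (fderiv ℝ d.La z) := by
  have h1 : (d.w 0 : ℝ) * d.w' 1 - d.w 1 * d.w' 0 = 1 := by exact_mod_cast h.dw
  refine H7_vok (d.w 0) (d.w 1) 0 (d.w' 0) (d.w' 1) 0 0 0 1 (fun v hv => ?_)
    (by linear_combination h1)
  rw [H7_dLa]
  apply ext6 <;> simp [HD.La, hv 0, hv 1, hv 2]

theorem H7_dΦ (G : GD) (z v : E6) : fderiv ℝ G.Φ z v =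
    mk (G.P 0 0 * v (0, 0) + G.P 0 1 * v (1, 0)) (G.Q 0 0 * v (0, 1) + G.Q 0 1 * v (1, 1))
      (G.P 1 0 * v (0, 0) + G.P 1 1 * v (1, 0)) (G.Q 1 0 * v (0, 1) + G.Q 1 1 * v (1, 1))
      (-v (2, 0)) (-v (2, 1)) :=
  H7_mk ((G.P 0 0 : ℝ) • dc (0, 0) + (G.P 0 1 : ℝ) • dc (1, 0)).hasFDerivAt
    ((G.Q 0 0 : ℝ) • dc (0, 1) + (G.Q 0 1 : ℝ) • dc (1, 1)).hasFDerivAt
    ((G.P 1 0 : ℝ) • dc (0, 0) + (G.P 1 1 : ℝ) • dc (1, 0)).hasFDerivAt
    ((G.Q 1 0 : ℝ) • dc (0, 1) + (G.Q 1 1 : ℝ) • dc (1, 1)).hasFDerivAt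
    ((dc (2, 0)).hasFDerivAt.const_sub 1) (dc (2, 1)).hasFDerivAt.neg v

theorem pb_Φ (h : G.Ok) (z : E6) :
    pb G.Φ (heis G.B.dg (toR G.B.v)) z = heis G.A.dg (toR G.A.v) z := by
  have h1 : toR G.A.v = -((toR G.P).transpose * toR G.B.v * toR G.Q) := by
    ext i j
    rw [h.hv]
    simp [toR, Matrix.mul_apply]
  rw [eq_sub_of_add_eq h.hγ, h1]
  refine alt_ext_two fun u v => ?_
  rw [H7_pb, H7_dΦ, H7_dΦ, H7_heis, H7_heis]
  simp only [GD.Φ, mk00, mk01, mk10, mk11, mk20, mk21, Matrix.sub_apply, Matrix.neg_apply,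
    Matrix.mul_apply, Matrix.transpose_apply, Fin.sum_univ_two, toR]
  ring

theorem H7_vΦ (h : G.Ok) (z : E6) : VOk (fderiv ℝ G.Φ z) := by
  have h1 : (G.Q 0 0 : ℝ) * G.Q 1 1 - G.Q 0 1 * G.Q 1 0 = -1 := by
    exact_mod_cast (Matrix.det_fin_two G.Q).symm.trans h.dQ
  refine H7_vok (G.Q 0 0) (G.Q 0 1) 0 (G.Q 1 0) (G.Q 1 1) 0 0 0 (-1) (fun v hv => ?_)
    (by linear_combination -h1)
  rw [H7_dΦ]
  apply ext6 <;> simp [hv 0, hv 1, hv 2]

theorem H7_toR : toR 0 = 0 := by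
  ext i j
  simp [toR]

theorem H7_tr {ψ ψ' : E6 → M} {f : E6 → E6} {U : Set E6} (hU : IsOpen U) (hz : z ∈ U)
    (hf : ContDiffAt ℝ ∞ f z) (he : ∀ y ∈ U, ψ y = ψ' (f y)) : Tr ψ ψ' f z :=
  ⟨hf, Filter.mem_of_superset (hU.mem_nhds hz) fun y hy => (he y hy).symm⟩

theorem H7_trI (h : HM d q) (hz : z ∈ WI) {f : E6 → E6} (hf : f ∈ HT 0 0) :
    Tr (q .I) (q .I) f z :=
  H7_tr isOpen_WI hz (h.deck_I.sm f hf).contDiffAt fun y hy => (h.deck_I.eq f hf y hy).symm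

theorem H7_trN (h : HM d q) {j : Fin 3} {s : K3} (hz : z ∈ DI j s) :
    Tr (q .I) (q (.N j s)) (LL j) z :=
  H7_tr (isOpen_DI j s) hz (contDiff_LL j).contDiffAt (h.gIN j s)

theorem H7_trS (h : HM d q) {j : Fin 3} (hz : z ∈ DS j) :
    Tr (q .I) (q (.K .m)) (fun y => d.La (d.oS j y)) z :=
  H7_tr (isOpen_DS j) hz (d.contDiff_La.contDiffAt.comp z (oS_inv hz).1) (h.gIK j)

theorem H7_trU (h : HM d q) (j : Fin 3) (hz : z ∈ DU) :
    Tr (q (.N j .m)) (q (.K .m)) (fun y => d.La (d.oU j y)) z :=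
  H7_tr isOpen_DU hz (d.contDiff_La.contDiffAt.comp z (oU_inv hz).1) (h.gNK j)

theorem H7_low (h : d.Ok) {o : E6 → E6} (ho : ContDiffAt ℝ ∞ o z)
    (hm : o z ∈ Slab (5 / 2 - d.a / 9) (-1 / 16)) :
    pb (fun y => d.La (o y)) (d.TK.om d.γK .m) z = pb o (heis d.dg (toR A9)) z := by
  rw [pb_comp _ (ho.differentiableAt (by simp)) (d.contDiff_La.differentiable (by simp) _)]
  refine pb_congr' (Eq.trans (pb_congr' ?_) (pb_La_m h _))
  exact om_low (La_mem_m ⟨hm.1, hm.2.trans (by norm_num)⟩) hm.2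

theorem H7_omN (d : HD) {j : Fin 3} {s : K3} (hz : z ∈ DI j s) :
    TN.om d.γN s (LL j z) = heis d.γN 0 (LL j z) := by
  rw [← H7_toR]
  rcases DI_cases hz with h1 | h1
  · exact om_left rfl hz.2.1 hz.2.2.1 h1
  · cases s with
    | f => exact absurd rfl hz.2.1
    | m =>
      refine om_low hz.2.2.1 ?_
      simp only [sg] at h1
      linarith
    | p =>
      rw [← TN_As .p]
      refine om_high hz.2.2.1 ?_
      simpa only [sg, one_mul] using h1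

theorem HM.cmp (h : HM d q) : ∀ c c', ∀ x ∈ d.W c, ∀ y ∈ d.W c', q c x = q c' y →
    Cmp (q c) (d.om c) x (q c') (d.om c') y := by
  refine h.ind (P := fun c x c' y => Cmp (q c) (d.om c) x (q c') (d.om c') y)
    (fun c c' x hx y hy => Cmp.symm (h.par c) (h.par c') hx hy)
    (fun _ _ _ _ _ _ _ _ _ _ => Cmp.trans) ?_ (fun j _ _ _ hx _ hy => (h.tN j).cmp d.γN hx hy)
    (fun _ _ _ hx _ hy => h.tK.cmp d.γK hx hy) ?_ ?_ ?_
  · rintro z hz _ - ⟨f, hf, rfl⟩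
    refine ⟨f, H7_trI h hz hf, rfl, ?_⟩
    obtain ⟨m₀, m₁, n₀, n₁, l, rfl⟩ := hf
    refine alt_ext_two fun u v => ?_
    rw [G11_pb2, G11_L_apply, G11_L_apply]
    simp only [HD.om, H7_N]
    simp
  · exact fun j s z hz => ⟨_, H7_trN h hz, rfl, (pb_congr' (H7_omN d hz)).trans (pb_LL d j z)⟩
  · refine fun j z hz => ⟨_, H7_trS h hz, rfl,
      (H7_low h.ok (oS_inv hz).1 ⟨(oS_mem h.ok hz).1, ?_⟩).trans (pb_oS j hz)⟩
    have h1 := (oS_mem h.ok hz).2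
    have h2 := h.ok.ha
    linarith
  · refine fun j z hz => ⟨_, H7_trU h j hz, rfl,
      (H7_low h.ok (oU_inv hz).1 (oU_mem h.ok hz)).trans ((pb_oU j hz).trans ?_)⟩
    rw [← H7_toR]
    exact (om_right rfl hz.1 (DU_bounds hz).1).symm

theorem H7_vc (h : d.Ok) {o : E6 → E6} (ho : ContDiffAt ℝ ∞ o z) (hv : VOk (fderiv ℝ o z)) :
    VOk (fderiv ℝ (fun y => d.La (o y)) z) :=
  (fderiv_comp z (d.contDiff_La.differentiable (by simp) _) (ho.differentiableAt (by simp))) ▸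
    G1_comp hv (H7_vLa h _)

theorem HM.vcmp (h : HM d q) : ∀ c c', ∀ x ∈ d.W c, ∀ y ∈ d.W c', q c x = q c' y →
    c.Reg → c'.Reg → VCmp (q c) x (q c') y := by
  refine h.ind (P := fun c x c' y => c.Reg → c'.Reg → VCmp (q c) x (q c') y)
    (fun c c' x hx y hy h1 r r' => (h1 r' r).symm (h.par c) (h.par c') hx hy)
    (fun _ _ _ r' _ _ _ _ _ _ h1 h2 r r'' => (h1 r r').trans (h2 r' r'')) ?_
    (fun j _ _ _ hx _ hy he r r' => (h.tN j).vcmp r r' hx hy he)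
    (fun _ _ _ hx _ hy he r r' => h.tK.vcmp r r' hx hy he) ?_ ?_ ?_
  · rintro z hz _ - ⟨f, hf, rfl⟩ - -
    refine ⟨f, H7_trI h hz hf, rfl, ?_⟩
    obtain ⟨m₀, m₁, n₀, n₁, l, rfl⟩ := hf
    refine H7_vok 1 0 0 0 1 0 0 0 1 (fun v hv => ?_) (by norm_num)
    rw [(G11_has _ _ _ _ _ z).fderiv, G11_L_apply]
    apply ext6 <;> simp [hv 0, hv 1, hv 2]
  · exact fun j s z hz _ _ => ⟨_, H7_trN h hz, rfl, (H7_dLL j z).symm ▸ H7_vrot j z⟩
  · exact fun j z hz _ _ => ⟨_, H7_trS h hz, rfl, H7_vc h.ok (oS_inv hz).1 (H7_vS hz)⟩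
  · exact fun j z hz _ _ => ⟨_, H7_trU h j hz, rfl, H7_vc h.ok (oU_inv hz).1 (H7_vU j hz)⟩

theorem HD.om_cl (d : HD) (c : Ix) : Cl (d.om c) (d.W c) := by
  cases c with
  | I =>
    have h : d.om .I = fun _ => heis d.γN 0 0 := funext fun z =>
      alt_ext_two fun u v => (H7_N d z u v).trans (H7_N d 0 u v).symm
    rw [h]
    exact ⟨contDiffOn_const, fun x _ => extDeriv_const _ x⟩
  | N j s => exact Cy.om_cl TN d.γN s
  | K s => exact Cy.om_cl d.TK d.γK s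

theorem H7_det (h : d.Ok) (μ e : ℝ) : (d.γK + μ • toR d.TK.A + e • E00).det =
    (d.a + 9 * μ) * d.β + e * ((d.a + 9 * μ) * (d.u 1 * d.w 1) + d.β * (d.u 0 * d.w 0)) := by
  have h1 : (d.u 0 : ℝ) * d.u' 1 - d.u 1 * d.u' 0 = 1 := by exact_mod_cast h.du
  have h2 : (d.w 0 : ℝ) * d.w' 1 - d.w 1 * d.w' 0 = 1 := by exact_mod_cast h.dw
  simp only [Matrix.det_fin_two, Matrix.add_apply, Matrix.smul_apply, HD.γK, HD.TK, toR, E00,
    Matrix.of_apply, Matrix.cons_val', Matrix.cons_val_zero, Matrix.cons_val_one,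
    Matrix.cons_val_fin_one, smul_eq_mul]
  push_cast
  linear_combination (d.a + 9 * μ) * d.β * (d.w 0 * d.w' 1 - d.w 1 * d.w' 0) * h1 +
    (d.a + 9 * μ) * d.β * h2

theorem om_nondeg (h : d.Ok) {c : Ix} (hc : c.Reg) (hz : z ∈ d.W c) (u : E6)
    (hu : ∀ v, d.om c z ![u, v] = 0) : u = 0 := by
  have hβ := h.hβ
  cases c with
  | I =>
    refine nondeg_cst (γ := d.γN + z (2, 0) • 0) (α := conn 0 z) ?_ ?_ u hu
    · simpa [HD.γN, Matrix.det_fin_two] using hβ.ne'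
    · simp [conn_apply, bv]
  | N j s =>
    obtain ⟨α, b, h1, h2, -, h4⟩ := om_form (γ := d.γN) TN_ok hc hz
    refine nondeg_cst ?_ h1 u fun v => by rw [← h4]; exact hu v
    have h5 : 0 < (1 + b) * d.β := by positivity
    simpa [HD.γN, TN, H7_toR, E00, Matrix.det_fin_two] using h5.ne'
  | K s =>
    obtain ⟨α, b, h1, h2, h3, h4⟩ := om_form (γ := d.γK) (TK_ok h) hc hz
    refine nondeg_cst (ne_of_gt ?_) h1 u fun v => by rw [← h4]; exact hu v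
    have hd := io_dom hz
    rw [io_amu hc hz] at hd
    have h5 : 5 / 2 - d.a / 9 < z (2, 0) := hd.2.1
    have h6 : z (2, 0) < 15 / 16 := hd.2.2
    have h7 : 0 < (d.a + 9 * z (2, 0)) * d.β := mul_pos (by linarith) hβ
    rw [H7_det h, show d.TK.κ = 1 from rfl, Int.cast_one, one_mul]
    rcases le_total |z (2, 0)| (1 / 16) with h8 | h8
    · obtain ⟨a1, a2⟩ := h.h1 _ h8
      have a3 := (hm_bounds (normSq_nonneg (gz z)) (z (2, 0))).2
      have a4 := max_le (abs_le.1 h8).2 (by norm_num : (0 : ℝ) ≤ 1 / 16)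
      nlinarith [mul_nonneg (show 0 ≤ b - hm (normSq (gz z)) (z (2, 0)) + 1 / 4 by linarith) a1.le]
    · rw [h3 h8, hm_eq _ h8]
      rcases le_total (z (2, 0)) 0 with h9 | h9
      · rw [max_eq_right h9]
        linarith
      · rw [max_eq_left h9]
        linarith [h.h2 _ h9 (by linarith)]

theorem om_vertical (h : d.Ok) {c : Ix} (hc : c.Reg) (hz : z ∈ d.W c) {u v : E6} (hu : Vert u)
    (hv : Vert v) : d.om c z ![u, v] = 0 := by
  cases c with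
  | I => simp [HD.om, H7_N, hu 0, hu 1, hu 2, hv 0, hv 1, hv 2]
  | N j s => exact om_vert TN_ok hc hz hu hv
  | K s => exact om_vert (TK_ok h) hc hz hu hv

theorem H7_reg {D : TD} {q : K3 → E6 → M} (h : TM D q) (hz : z ∈ D.W .f) :
    (uu z = 0 ∧ ww z = 0) ∨ ∃ s, s ≠ .f ∧ ∃ y ∈ D.W s, q s y = q .f z := by
  by_cases h0 : uu z = 0 ∧ ww z = 0
  · exact Or.inl h0
  · obtain ⟨s, hs, y, hy, f, h1, rfl, -⟩ := h.pos hz (not_and_or.1 h0)
    exact Or.inr ⟨s, hs, y, hy, h1.2.self_of_nhds.symm⟩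

theorem HM.reg_or (h : HM d q) {m : M} (hm : m ∈ HH d q) :
    (∃ c, c.Reg ∧ ∃ z ∈ d.W c, q c z = m) ∨
      (∃ j, ∃ z ∈ TN.W .f, uu z = 0 ∧ ww z = 0 ∧ q (.N j .f) z = m) ∨
        ∃ z ∈ d.TK.W .f, uu z = 0 ∧ ww z = 0 ∧ q (.K .f) z = m := by
  obtain ⟨c, z, hz, rfl⟩ := mem_iUnion.1 hm
  by_cases hc : c.Reg
  · exact Or.inl ⟨c, hc, z, hz, rfl⟩
  cases c with
  | I => exact absurd trivial hc
  | N j s =>
    obtain rfl : s = .f := not_not.1 hc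
    rcases H7_reg (h.tN j) hz with h1 | ⟨s, hs, y, hy, he⟩
    · exact Or.inr (Or.inl ⟨j, z, hz, h1.1, h1.2, rfl⟩)
    · exact Or.inl ⟨.N j s, hs, y, hy, he⟩
  | K s =>
    obtain rfl : s = .f := not_not.1 hc
    rcases H7_reg h.tK hz with h1 | ⟨s, hs, y, hy, he⟩
    · exact Or.inr (Or.inr ⟨z, hz, h1.1, h1.2, rfl⟩)
    · exact Or.inl ⟨.K s, hs, y, hy, he⟩

theorem H7_crit {D : TD} {γ : Matrix (Fin 2) (Fin 2) ℝ} (hz : z ∈ D.W .f) (hu : uu z = 0)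
    (hw : ww z = 0) (hγ : γ 1 1 ≠ 0) (u : E6) (h : ∀ v, D.om γ .f z ![u, v] = 0) : u = 0 := by
  have H := fun i => (om_f_crit hz hu hw u (bv i)).symm.trans (h _)
  apply ext6
  · simpa [bv, Real.pi_ne_zero] using H (0, 1)
  · simpa [bv, Real.pi_ne_zero] using H (0, 0)
  · simpa [bv, hγ] using H (1, 1)
  · simpa [bv, hγ] using H (1, 0)
  · simpa [bv, Real.pi_ne_zero] using H (2, 1)
  · simpa [bv, Real.pi_ne_zero] using H (2, 0)

theorem H7_nd (h : HM d q) {η : Fo M 2} (hη : ∀ c, ∀ z ∈ d.W c, pl (q c) η z = d.om c z) {m : M}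
    (hm : m ∈ HH d q) : ∃ ψ U x, Par ψ U ∧ x ∈ U ∧ ψ x = m ∧
      ∀ u, (∀ v, pl ψ η x ![u, v] = 0) → u = 0 := by
  rcases h.reg_or hm with ⟨c, hc, z, hz, he⟩ | ⟨j, z, hz, h1, h2, he⟩ | ⟨z, hz, h1, h2, he⟩
  · exact ⟨_, _, z, h.par c, hz, he, hη c z hz ▸ om_nondeg h.ok hc hz⟩
  · exact ⟨_, _, z, h.par (.N j .f), hz, he,
      hη (.N j .f) z hz ▸ H7_crit (γ := d.γN) hz h1 h2 h.ok.hβ.ne'⟩
  · exact ⟨_, _, z, h.par (.K .f), hz, he,
      hη (.K .f) z hz ▸ H7_crit (γ := d.γK) hz h1 h2 (γK_11 h.ok).2.ne'⟩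

theorem H7_cl (h : HM d q) {η : Fo M 2} (hη : ∀ c, ∀ z ∈ d.W c, pl (q c) η z = d.om c z) {m : M}
    (hm : m ∈ HH d q) : ∃ ψ U x, Par ψ U ∧ x ∈ U ∧ ψ x = m ∧
      ContDiffAt ℝ ∞ (pl ψ η) x ∧ extDeriv (pl ψ η) x = 0 := by
  obtain ⟨c, z, hz, he⟩ := mem_iUnion.1 hm
  have h1 : pl (q c) η =ᶠ[𝓝 z] d.om c :=
    Filter.mem_of_superset ((h.par c).opn.mem_nhds hz) (hη c)
  exact ⟨_, _, z, h.par c, hz, he,
    ((d.om_cl c).1.at (h.par c).opn hz).congr_of_eventuallyEq h1,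
    h1.extDeriv_eq.trans ((d.om_cl c).2 z hz)⟩

theorem H7_par (h : WM G qA qB) : ∀ c, Par (Sum.elim qA qB c) (G.W c)
  | .inl c => h.hA.par c
  | .inr c => h.hB.par c

theorem H7_trD (d : HD) (q : Ix → E6 → M) (z : E6) : Tr (qD d q) (q (.K .p)) d.La z :=
  ⟨d.contDiff_La.contDiffAt, Filter.Eventually.of_forall fun _ => rfl⟩

theorem H7_trΦ (h : WM G qA qB) (hz : z ∈ WD) : Tr (qD G.A qA) (qD G.B qB) G.Φ z :=
  H7_tr G11_open hz G.contDiff_Φ.contDiffAt h.gAB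

theorem H7_cD (h : d.Ok) (q : Ix → E6 → M) (hz : z ∈ WD) :
    Cmp (qD d q) (heis d.dg (toR d.v)) z (q (.K .p)) (d.om (.K .p)) (d.La z) :=
  ⟨_, H7_trD d q z, rfl, (pb_congr' (om_high (La_mem_p h hz) hz.1)).trans (pb_La_p h z)⟩

theorem WM.exists_om (h : WM G qA qB) : ∃ η : Fo M 2, ClO η univ ∧
    Form.Nondeg (E := E6) (M := M) η ∧ (∀ c, ∀ z ∈ G.A.W c, pl (qA c) η z = G.A.om c z) ∧
    ∀ c, ∀ z ∈ G.B.W c, pl (qB c) η z = G.B.om c z := by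
  obtain ⟨η, hη⟩ := desc (H7_par h) G.om (h.ind
    (P := fun c x c' y => Cmp (Sum.elim qA qB c) (G.om c) x (Sum.elim qA qB c') (G.om c') y)
    (fun c c' x hx y hy => Cmp.symm (H7_par h c) (H7_par h c') hx hy)
    (fun _ _ _ _ _ _ _ _ _ _ => Cmp.trans) h.hA.cmp h.hB.cmp fun z hz =>
      ((H7_cD h.ok.okA qA hz).symm h.hA.deck_D.par (h.hA.par _) hz (La_mem_p h.ok.okA hz)).trans
        (Cmp.trans ⟨_, H7_trΦ h hz, rfl, pb_Φ h.ok z⟩ (H7_cD h.ok.okB qB (Φ_mem.2 hz))))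
  have hA := fun c => hη (.inl c)
  have hB := fun c => hη (.inr c)
  have hc : ∀ m, m ∈ HH G.A qA ∨ m ∈ HH G.B qB := fun m =>
    (mem_union _ _ _).1 (h.cov ▸ mem_univ m)
  exact ⟨η, ClO.of_loc fun m _ => (hc m).elim (H7_cl h.hA hA) (H7_cl h.hB hB),
    nondeg_of fun m => (hc m).elim (H7_nd h.hA hA) (H7_nd h.hB hB), hA, hB⟩

theorem WM.vcmp (h : WM G qA qB) : ∀ c c', ∀ x ∈ G.W c, ∀ y ∈ G.W c',
    Sum.elim qA qB c x = Sum.elim qA qB c' y → Sum.elim Ix.Reg Ix.Reg c →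
      Sum.elim Ix.Reg Ix.Reg c' → VCmp (Sum.elim qA qB c) x (Sum.elim qA qB c') y := by
  refine h.ind (P := fun c x c' y => Sum.elim Ix.Reg Ix.Reg c → Sum.elim Ix.Reg Ix.Reg c' →
      VCmp (Sum.elim qA qB c) x (Sum.elim qA qB c') y)
    (fun c c' x hx y hy h1 r r' => (h1 r' r).symm (H7_par h c) (H7_par h c') hx hy)
    (fun _ c' _ hc _ _ _ _ _ _ h1 h2 r r'' => ?_) h.hA.vcmp h.hB.vcmp fun z hz _ _ => ?_
  · have r' : Sum.elim Ix.Reg Ix.Reg c' := by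
      rcases hc with rfl | rfl <;> exact (by decide : K3.p ≠ K3.f)
    exact (h1 r r').trans (h2 r' r'')
  · exact (VCmp.symm h.hA.deck_D.par (h.hA.par _) hz (La_mem_p h.ok.okA hz)
      ⟨_, H7_trD G.A qA z, rfl, H7_vLa h.ok.okA z⟩).trans
      (VCmp.trans ⟨_, H7_trΦ h hz, rfl, H7_vΦ h.ok z⟩
        ⟨_, H7_trD G.B qB _, rfl, H7_vLa h.ok.okB _⟩)

end Pool.Agent.Work.MP_bf98aa_gt.Cy
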