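import Pool.Agent.Work.MP_bf98aa_gt.Cy.KDefs

/-!
One half of the manifold: the toric chart `I`, three nodes `N j`, the kink `K`. The whole manifold.
-/

set_option autoImplicit false

open scoped Manifold ContDiff Topology
open Set Complex

namespace Pool.Agent.Work.MP_bf98aa_gt.Cy

open Pool.Agent.Work.MP_bf98aa_gt.Th

noncomputable section

/-- The rotation of order three of the toric chart. -/
def rot (z : E6) : E6 :=
  Cy.mk (z (0, 0) + z (2, 0)) (-2 * z (0, 1) + 3 * z (2, 1)) (z (1, 0)) (z (1, 1))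
    (-3 * z (0, 0) - 2 * z (2, 0)) (-z (0, 1) + z (2, 1))

/-- Translation of the first coordinate. -/
def sh (t : ℝ) (z : E6) : E6 :=
  Cy.mk (z (0, 0) + t) (z (0, 1)) (z (1, 0)) (z (1, 1)) (z (2, 0)) (z (2, 1))

/-- From the toric chart to the coordinates of the node `j`. -/
def LL (j : Fin 3) (z : E6) : E6 := sh (-2) (rot^[j] z)

/-- The inverse of `LL`. -/
def LL' (j : Fin 3) (z : E6) : E6 := rot^[3 - j] (sh 2 z)

/-- The domain of the toric chart. -/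
def WI : Set E6 := {z | ∀ j : Fin 3, rot^[j] z (0, 0) < 11 / 4 ∧
  (rot^[j] z (0, 0) < 7 / 4 ∨ rot^[j] z (0, 0) < 24 * |rot^[j] z (2, 0)|)}

/-- The data of a node. -/
def TN : TD := ⟨0, 0, -1 / 8, 1 / 8⟩

/-- The sign of a chart. -/
def sg : K3 → ℝ
  | .m => -1
  | .p => 1
  | .f => 0

/-- Where the toric chart is glued to the chart `s` of the node `j`. -/
def DI (j : Fin 3) (s : K3) : Set E6 :=
  {z | z ∈ WI ∧ s ≠ .f ∧ LL j z ∈ TN.W s ∧ (LL j z (0, 0) < -1 / 4 ∨ 0 < sg s * LL j z (2, 0))}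

/-- The outer part of a sector. -/
def DS (j : Fin 3) : Set E6 := {z | z ∈ WI ∧ 5 / 2 < rot^[j] z (0, 0) ∧ rot^[j] z (2, 0) < 0 ∧
  -3 * rot^[j] z (0, 0) < rot^[j] z (2, 0)}

/-- The outer part of a strip. -/
def DU : Set E6 := {z | z ∈ TN.W .m ∧ 1 / 2 < z (0, 0) + hinf (z (2, 0))}

/-- Integer vectors in the periodic directions of the toric chart. -/
def Lat4 (a : E6) : Prop := a (0, 0) = 0 ∧ a (2, 0) = 0 ∧ ∀ i, ∃ n : ℤ, a i = n

/-- The periodic coordinates of the toric chart. -/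
def S4 : Finset Cx := {(0, 1), (1, 0), (1, 1), (2, 1)}

/-- The charts of a half. -/
inductive Ix
  | I
  | N (j : Fin 3) (s : K3)
  | K (s : K3)
  deriving DecidableEq, Fintype

/-- The charts with a Lagrangian fibration. -/
def Ix.Reg : Ix → Prop
  | .I => True
  | .N _ s => s ≠ .f
  | .K s => s ≠ .f

/-- Data of a half. -/
structure HD where
  a : ℝ
  β : ℝ
  u : Fin 2 → ℤ
  u' : Fin 2 → ℤ
  w : Fin 2 → ℤ
  w' : Fin 2 → ℤ

namespace HD

variable (d : HD)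

/-- Admissible data. -/
structure Ok : Prop where
  du : d.u 0 * d.u' 1 - d.u 1 * d.u' 0 = 1
  dw : d.w 0 * d.w' 1 - d.w 1 * d.w' 0 = 1
  u1 : d.u 1 ≠ 0
  w1 : d.w 1 ≠ 0
  ha : 28 ≤ d.a
  hβ : 0 < d.β
  h1 : ∀ μ : ℝ, |μ| ≤ 1 / 16 → 0 < (d.a + 9 * μ) * (d.u 1 * d.w 1) + d.β * (d.u 0 * d.w 0) ∧
    ((d.a + 9 * μ) * (d.u 1 * d.w 1) + d.β * (d.u 0 * d.w 0)) / 4 < (d.a + 9 * μ) * d.β
  h2 : ∀ μ : ℝ, 0 ≤ μ → μ ≤ 1 →
    μ * ((d.a + 9 * μ) * (d.u 1 * d.w 1) + d.β * (d.u 0 * d.w 0)) < (d.a + 9 * μ) * d.β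

/-- The reduced form at the kink. -/
def dg : Matrix (Fin 2) (Fin 2) ℝ := !![d.a, 0; 0, d.β]

/-- The Euler class above the kink. -/
def v : Matrix (Fin 2) (Fin 2) ℤ := !![9, 0; 0, 0] - Matrix.of fun i j => d.u i * d.w j

/-- From the coordinates of the half to the coordinates of the kink. -/
def La (z : E6) : E6 :=
  Cy.mk (d.u 0 * z (0, 0) + d.u 1 * z (1, 0)) (d.w 0 * z (0, 1) + d.w 1 * z (1, 1))
    (d.u' 0 * z (0, 0) + d.u' 1 * z (1, 0)) (d.w' 0 * z (0, 1) + d.w' 1 * z (1, 1))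
    (z (2, 0)) (z (2, 1))

/-- The inverse of `La`. -/
def La' (z : E6) : E6 :=
  Cy.mk (d.u' 1 * z (0, 0) - d.u 1 * z (1, 0)) (d.w' 1 * z (0, 1) - d.w 1 * z (1, 1))
    (-d.u' 0 * z (0, 0) + d.u 0 * z (1, 0)) (-d.w' 0 * z (0, 1) + d.w 0 * z (1, 1))
    (z (2, 0)) (z (2, 1))

/-- The data of the kink. -/
def TK : TD :=
  ⟨1, Matrix.of fun i j => 9 * ![d.u' 1, -d.u 1] i * ![d.w' 1, -d.w 1] j, 5 / 2 - d.a / 9, 15 / 16⟩

/-- The reduced form in the coordinates of the kink. -/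
def γK : Matrix (Fin 2) (Fin 2) ℝ := Matrix.of fun i j =>
  d.a * ((![d.u' 1, -d.u 1] i * ![d.w' 1, -d.w 1] j : ℤ) : ℝ) +
    d.β * ((![-d.u' 0, d.u 0] i * ![-d.w' 0, d.w 0] j : ℤ) : ℝ)

/-- The reduced form at a node. -/
def γN : Matrix (Fin 2) (Fin 2) ℝ := !![1, 0; 0, d.β]

/-- The point with affine coordinates `X`, `r` and angles `θX`, `θr`, moved by `j` thirds. -/
def toO (j r X θX θr x y : ℝ) : E6 :=
  Cy.mk (X / (9 * r) - j / 3) θX x y (r - d.a / 9) (θr + 3 * j * θX)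

/-- From a sector to the outer chart. -/
def oS (j : Fin 3) (z : E6) : E6 :=
  d.toO (j : ℕ) (rot^[j] z (0, 0)) (-rot^[j] z (2, 0)) (-rot^[j] z (2, 1)) (rot^[j] z (0, 1))
    (z (1, 0)) (z (1, 1))

/-- From a strip to the outer chart. -/
def oU (j : Fin 3) (z : E6) : E6 :=
  d.toO (j : ℕ) (2 + z (0, 0) + hinf (z (2, 0))) (-z (2, 0)) (-z (2, 1)) (z (0, 1)) (z (1, 0))
    (z (1, 1))

/-- The domains. -/
def W : Ix → Set E6
  | .I => WI
  | .N _ s => TN.W s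
  | .K s => d.TK.W s

/-- The symplectic form. -/
def om : Ix → Fm E6 2
  | .I => heis d.γN 0
  | .N _ s => TN.om d.γN s
  | .K s => d.TK.om d.γK s

/-- The second base coordinate. -/
def X2 : Ix → E6 → ℝ
  | .K s, z => -d.u' 0 * (d.TK.io s z).1 0 + d.u 0 * (d.TK.io s z).1 2
  | _, z => z (1, 0)

/-- The second fibre coordinate. -/
def Y2 : Ix → E6 → ℝ
  | .K s, z => -d.w' 0 * (d.TK.io s z).1 1 + d.w 0 * (d.TK.io s z).1 3
  | _, z => z (1, 1)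

end HD

/-- The Euler class below the kink. -/
def A9 : Matrix (Fin 2) (Fin 2) ℤ := !![9, 0; 0, 0]

/-- The middle slab. -/
def WD : Set E6 := Slab (1 / 16) (15 / 16)

section
variable {M : Type} [TopologicalSpace M] [ChartedSpace E6 M]

/-- A half inside a manifold. -/
structure HM (d : HD) (q : Ix → E6 → M) : Prop where
  ok : d.Ok
  par : ∀ c, Par (q c) (d.W c)
  eI : ∀ z ∈ WI, ∀ z' ∈ WI, q .I z = q .I z' ↔ RS 0 0 z z'
  tN : ∀ j, TM TN fun s => q (.N j s)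
  tK : TM d.TK fun s => q (.K s)
  gIN : ∀ j s, ∀ z ∈ DI j s, q .I z = q (.N j s) (LL j z)
  cIN : ∀ j s, ∀ z ∈ WI, ∀ y ∈ TN.W s, q .I z = q (.N j s) y → ∃ s', z ∈ DI j s'
  cNN : ∀ j s j' s', ∀ x ∈ TN.W s, ∀ y ∈ TN.W s', q (.N j s) x = q (.N j' s') y → j = j'
  gIK : ∀ j, ∀ z ∈ DS j, q .I z = q (.K .m) (d.La (d.oS j z))
  gNK : ∀ j, ∀ z ∈ DU, q (.N j .m) z = q (.K .m) (d.La (d.oU j z))
  cIK : ∀ s, ∀ z ∈ WI, ∀ y ∈ d.TK.W s, q .I z = q (.K s) y → ∃ j, z ∈ DS j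
  cNK : ∀ j s s', ∀ x ∈ TN.W s, ∀ y ∈ d.TK.W s', q (.N j s) x = q (.K s') y →
    ∃ z ∈ DU, q (.N j s) x = q (.N j .m) z

/-- The outer chart in the coordinates of the half. -/
def qO (d : HD) (q : Ix → E6 → M) : E6 → M := fun z => q (.K .m) (d.La z)

/-- The middle chart in the coordinates of the half. -/
def qD (d : HD) (q : Ix → E6 → M) : E6 → M := fun z => q (.K .p) (d.La z)

/-- The image of a chart. -/
def Im (d : HD) (q : Ix → E6 → M) (c : Ix) : Set M := q c '' d.W c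

/-- The neighbourhood of a node. -/
def HN (d : HD) (q : Ix → E6 → M) (j : Fin 3) : Set M := Im d q (.N j .m) ∪ Im d q (.N j .f)

/-- The half. -/
def HH (d : HD) (q : Ix → E6 → M) : Set M := ⋃ c, q c '' d.W c

end

/-- Data of the whole manifold. -/
structure GD where
  A : HD
  B : HD
  P : Matrix (Fin 2) (Fin 2) ℤ
  Q : Matrix (Fin 2) (Fin 2) ℤ

namespace GD

variable (G : GD)

/-- Admissible data. -/
structure Ok : Prop where
  okA : G.A.Ok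
  okB : G.B.Ok
  dP : G.P.det = -1
  dQ : G.Q.det = -1
  p10 : G.P 1 0 = 1 ∨ G.P 1 0 = -1
  q10 : G.Q 1 0 = 1 ∨ G.Q 1 0 = -1
  hv : G.A.v = -(G.P.transpose * G.B.v * G.Q)
  hγ : G.A.dg + toR G.A.v = (toR G.P).transpose * G.B.dg * toR G.Q
  ind : ∀ t b b' l : ℝ, (∀ i j, t * G.A.dg i j + b * !![0, 0; 0, 1] i j -
    b' * (G.P 1 i * G.Q 1 j) = l * G.A.v i j) → t = 0 ∧ b = 0 ∧ b' = 0
  pt : ∃ y₀ y₁ : ℝ, G.A.w 0 * y₀ + G.A.w 1 * y₁ = 1 / 2 ∧
    G.B.w 0 * (G.Q 0 0 * y₀ + G.Q 0 1 * y₁) + G.B.w 1 * (G.Q 1 0 * y₀ + G.Q 1 1 * y₁) = 1 / 2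

/-- The gluing map. -/
def Φ (z : E6) : E6 :=
  Cy.mk (G.P 0 0 * z (0, 0) + G.P 0 1 * z (1, 0)) (G.Q 0 0 * z (0, 1) + G.Q 0 1 * z (1, 1))
    (G.P 1 0 * z (0, 0) + G.P 1 1 * z (1, 0)) (G.Q 1 0 * z (0, 1) + G.Q 1 1 * z (1, 1))
    (1 - z (2, 0)) (-z (2, 1))

/-- The inverse of the gluing map. -/
def Φ' (z : E6) : E6 :=
  Cy.mk (-G.P 1 1 * z (0, 0) + G.P 0 1 * z (1, 0)) (-G.Q 1 1 * z (0, 1) + G.Q 0 1 * z (1, 1))
    (G.P 1 0 * z (0, 0) - G.P 0 0 * z (1, 0)) (G.Q 1 0 * z (0, 1) - G.Q 0 0 * z (1, 1))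
    (1 - z (2, 0)) (-z (2, 1))

/-- The domains of all charts. -/
def W : Ix ⊕ Ix → Set E6 := Sum.elim G.A.W G.B.W

/-- The symplectic form on all charts. -/
def om : Ix ⊕ Ix → Fm E6 2 := Sum.elim G.A.om G.B.om

end GD

/-- The whole manifold. -/
structure WM {M : Type} [TopologicalSpace M] [ChartedSpace E6 M] (G : GD) (qA qB : Ix → E6 → M) :
    Prop where
  ok : G.Ok
  hA : HM G.A qA
  hB : HM G.B qB
  gAB : ∀ z ∈ WD, qD G.A qA z = qD G.B qB (G.Φ z)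
  cAB : ∀ c c', ∀ x ∈ G.A.W c, ∀ y ∈ G.B.W c', qA c x = qB c' y → ∃ z ∈ WD, qA c x = qD G.A qA z
  cov : HH G.A qA ∪ HH G.B qB = univ

/-- The toric chart as an atlas. -/
def atlI : Atl Unit where
  W _ := WI
  R _ z _ z' := z ∈ WI ∧ z' ∈ WI ∧ RS 0 0 z z'

/-- Gluing of the toric chart and the nodes. -/
def glI : Gl Unit (Fin 3 × K3) (Fin 3 × K3) where
  D l := DI l.1 l.2
  s _ := ()
  t l := l
  o l := LL l.1

/-- The inner atlas. -/
def atlZ : Atl (Unit ⊕ Fin 3 × K3) := glI.atl atlI (TN.atl.copies (Fin 3))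

/-- Gluing of the inner part and the kink. -/
def glH (d : HD) : Gl (Unit ⊕ Fin 3 × K3) K3 (Fin 3 ⊕ Fin 3) where
  D := Sum.elim DS fun _ => DU
  s := Sum.elim (fun _ => .inl ()) fun j => .inr (j, .m)
  t _ := .m
  o := Sum.elim (fun j z => d.La (d.oS j z)) fun j z => d.La (d.oU j z)

/-- Index of the charts of the glued half. -/
abbrev Jx : Type := (Unit ⊕ Fin 3 × K3) ⊕ K3

/-- The atlas of a half. -/
def atlH (d : HD) : Atl Jx := (glH d).atl atlZ d.TK.atl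

/-- The chart of the glued half with a given name. -/
def jx : Ix → Jx
  | .I => .inl (.inl ())
  | .N j s => .inl (.inr (j, s))
  | .K s => .inr s

/-- Gluing of the two halves. -/
def glW (G : GD) : Gl Jx Jx Unit where
  D _ := G.A.La' ⁻¹' WD
  s _ := .inr .p
  t _ := .inr .p
  o _ z := G.B.La (G.Φ (G.A.La' z))

/-- The atlas of the manifold. -/
def atlW (G : GD) : Atl (Jx ⊕ Jx) := (glW G).atl (atlH G.A) (atlH G.B)

end

end Pool.Agent.Work.MP_bf98aa_gt.Cy
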