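import Pool.Agent.Work.MP_bf98aa_gt.Cy.K5
import Pool.Agent.Work.MP_bf98aa_gt.Cy.K6
import Pool.Agent.Work.MP_bf98aa_gt.Cy.G9

/-!
Holonomy on a kink.

PLAN. `hol_of_pt`: `Coc.joint` with `a = id`, `b = hact ..`; the central part by induction on `l`. `loop_m`: the joint path `t ↦ (mk 0 (1/2) 0 0 (-ρ²) t, cplx 0 (ρ ee (-t)) 0 0)` (`io_f_w`)
closes up in the chart `f`. `mp`: the function `z ↦ T m z p (setF t z)` does not depend on the choice of `t` (central holonomy) and is locally constant (`Coc.lc`, `ee_lift`) on the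
preconnected set `gz ≠ 0`. `hol_mp`: choose `z` with `gz z ≠ 0` and use `mp` at `z` and at its image (`gg_add_int`). `pi`: `Coc.over`; pairs in the chart `f` are moved by
`Coc.joint` to a point with `w ≠ 0`.
-/

set_option autoImplicit false

open scoped Manifold ContDiff Topology
open Set Complex

namespace Pool.Agent.Work.MP_bf98aa_gt.Cy

open Pool.Agent.Work.MP_bf98aa_gt.Th

variable {M : Type} [TopologicalSpace M] [ChartedSpace E6 M] [IsManifold 𝓘(ℝ, E6) ∞ M]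

variable {H : Type} [Group H]

section
variable {ι : Type} {ψ : ι → E6 → M} {W : ι → Set E6} {T : ι → E6 → ι → E6 → H} {i : ι} {κ : ℤ}
  {K : Matrix (Fin 2) (Fin 2) ℤ} {m₀ m₁ n₀ n₁ m₀' m₁' n₀' n₁' : ℤ}

theorem Coc.comap (h : Coc ψ W T) {ι' : Type} (σ : ι' → ι) {L : ι' → E6 → E6}
    (hL : ∀ i, Continuous (L i)) {W' : ι' → Set E6} (hW : ∀ i, MapsTo (L i) (W' i) (W (σ i))) :
    Coc (fun i z => ψ (σ i) (L i z)) W' fun i x j y => T (σ i) (L i x) (σ j) (L j y) := by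
  refine ⟨fun i x j y l z => h.mul _ _ _ _ _ _, fun i j x hx y hy e => ?_⟩
  exact (((hL i).prodMap (hL j)).tendsto (x, y)).eventually (h.lc _ _ _ (hW i hx) _ (hW j hy) e)

theorem K10_comp (K : Matrix (Fin 2) (Fin 2) ℤ) (a b c d l a' b' c' d' l' : ℤ) (z : E6) :
    hact K a' b' c' d' l' (hact K a b c d l z) = hact K (a + a') (b + b') (c + c') (d + d')
      (l + l' - (a' * (K 0 0 * c + K 0 1 * d) + b' * (K 1 0 * c + K 1 1 * d))) z := by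
  refine ext6 ?_ ?_ ?_ ?_ ?_ ?_ <;> simp only [hact, mk00, mk01, mk10, mk11, mk20, mk21] <;>
    push_cast <;> ring

theorem K10_zero (K : Matrix (Fin 2) (Fin 2) ℤ) (κ : ℤ) (z : E6) :
    hact K (κ * 0) 0 0 0 0 z = z := by
  refine ext6 ?_ ?_ ?_ ?_ ?_ ?_ <;> simp [hact]

theorem K10_mem (κ : ℤ) (K : Matrix (Fin 2) (Fin 2) ℤ) (a b c d l : ℤ) :
    hact K (κ * a) b c d l ∈ HT κ K := ⟨a, b, c, d, l, rfl⟩

omit [TopologicalSpace M] [ChartedSpace E6 M] [IsManifold 𝓘(ℝ, E6) ∞ M] in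
theorem K10_mul (h : Coc ψ W T) {x y z : E6} (h1 : T i x i y = 1) (h2 : T i y i z = 1) :
    T i x i z = 1 := by
  rw [← h.mul i x i y i z, h1, h2, mul_one]

theorem K10_all (h : Coc ψ W T) {𝒯 : Set (E6 → E6)} (hD : Deck (ψ i) (W i) 𝒯)
    (hc : IsPreconnected (W i)) {f : E6 → E6} (hf : f ∈ 𝒯) {z z' : E6} (hz : z ∈ W i)
    (hz' : z' ∈ W i) : T i z i (f z) = T i z' i (f z') :=
  h.joint hc continuousOn_id (hD.sm f hf).continuous.continuousOn (mapsTo_id _) (hD.maps f hf)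
    (fun s hs => (hD.eq f hf s hs).symm) hz hz'

theorem hol_center (h : Coc ψ W T) (hD : Deck (ψ i) (W i) (HT κ K)) (hc : IsPreconnected (W i))
    {z : E6} (hz : z ∈ W i) (h1 : T i z i (z + bv (2, 1)) = 1) :
    Hol (fun x y => T i x i y) (W i) κ K 0 0 0 0 := by
  have e : hact K (κ * 0) 0 0 0 1 z = z + bv (2, 1) := by
    refine ext6 ?_ ?_ ?_ ?_ ?_ ?_ <;> simp [hact, bv]
  have one : ∀ x ∈ W i, T i x i (hact K (κ * 0) 0 0 0 1 x) = 1 := fun x hx =>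
    (K10_all h hD hc (K10_mem κ K 0 0 0 0 1) hx hz).trans (e ▸ h1)
  have st : ∀ x ∈ W i, ∀ l : ℤ,
      T i x i (hact K (κ * 0) 0 0 0 (l + 1) x) = T i x i (hact K (κ * 0) 0 0 0 l x) :=
    fun x hx l => by
      have k := one _ (hD.maps _ (K10_mem κ K 0 0 0 0 l) hx)
      have e' : hact K (κ * 0) 0 0 0 1 (hact K (κ * 0) 0 0 0 l x) =
          hact K (κ * 0) 0 0 0 (l + 1) x := by
        rw [K10_comp]
        simp only [mul_zero, add_zero, sub_zero]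
      rw [← e', ← h.mul i x i (hact K (κ * 0) 0 0 0 l x), k, mul_one]
  intro x hx l
  show T i x i _ = 1
  induction l using Int.induction_on with
  | zero => rw [K10_zero, h.self]
  | succ n ih => rw [st x hx, ih]
  | pred n ih => rw [← st x hx, sub_add_cancel, ih]

theorem hol_of_pt (h : Coc ψ W T) (hD : Deck (ψ i) (W i) (HT κ K)) (hc : IsPreconnected (W i))
    (h0 : Hol (fun x y => T i x i y) (W i) κ K 0 0 0 0) {z : E6} (hz : z ∈ W i) {l : ℤ}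
    (h1 : T i z i (hact K (κ * m₀) m₁ n₀ n₁ l z) = 1) :
    Hol (fun x y => T i x i y) (W i) κ K m₀ m₁ n₀ n₁ := by
  intro x hx l'
  have hf := K10_mem κ K m₀ m₁ n₀ n₁ l
  have k := h0 _ (hD.maps _ hf hx) (l' - l)
  have e : hact K (κ * 0) 0 0 0 (l' - l) (hact K (κ * m₀) m₁ n₀ n₁ l x) =
      hact K (κ * m₀) m₁ n₀ n₁ l' x := by
    rw [K10_comp]
    simp only [mul_zero, zero_mul, add_zero, sub_zero, add_sub_cancel]
  rw [e] at k
  exact K10_mul h ((K10_all h hD hc hf hx hz).trans h1) k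

theorem hol_add (h : Coc ψ W T) (hD : Deck (ψ i) (W i) (HT κ K))
    (h1 : Hol (fun x y => T i x i y) (W i) κ K m₀ m₁ n₀ n₁)
    (h2 : Hol (fun x y => T i x i y) (W i) κ K m₀' m₁' n₀' n₁') :
    Hol (fun x y => T i x i y) (W i) κ K (m₀ + m₀') (m₁ + m₁') (n₀ + n₀') (n₁ + n₁') := by
  intro x hx l
  have k := h2 _ (hD.maps _ (K10_mem κ K m₀ m₁ n₀ n₁ 0) hx)
    (l + (κ * m₀' * (K 0 0 * n₀ + K 0 1 * n₁) + m₁' * (K 1 0 * n₀ + K 1 1 * n₁)))
  rw [K10_comp, zero_add, add_sub_cancel_right, ← mul_add] at k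
  exact K10_mul h (h1 x hx 0) k

theorem K10_sub (h : Coc ψ W T) (hD : Deck (ψ i) (W i) (HT κ K))
    (h1 : Hol (fun x y => T i x i y) (W i) κ K m₀ m₁ n₀ n₁)
    (h2 : Hol (fun x y => T i x i y) (W i) κ K m₀' m₁' n₀' n₁') :
    Hol (fun x y => T i x i y) (W i) κ K (m₀ - m₀') (m₁ - m₁') (n₀ - n₀') (n₁ - n₁') := by
  intro x hx l
  have hy := hD.maps _ (K10_mem κ K (m₀ - m₀') (m₁ - m₁') (n₀ - n₀') (n₁ - n₁') l) hx
  have k := h2 _ hy 0
  have e := K10_comp K (κ * (m₀ - m₀')) (m₁ - m₁') (n₀ - n₀') (n₁ - n₁') l (κ * m₀') m₁' n₀' n₁' 0 x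
  rw [← mul_add, sub_add_cancel, sub_add_cancel, sub_add_cancel, sub_add_cancel] at e
  have k' := h1 x hx (l + 0 - (κ * m₀' * (K 0 0 * (n₀ - n₀') + K 0 1 * (n₁ - n₁')) +
    m₁' * (K 1 0 * (n₀ - n₀') + K 1 1 * (n₁ - n₁'))))
  rw [← e] at k'
  exact K10_mul h k' ((h.inv _ _ _ _).trans (inv_eq_one.2 k))

theorem hol_zsmul (h : Coc ψ W T) (hD : Deck (ψ i) (W i) (HT κ K))
    (h1 : Hol (fun x y => T i x i y) (W i) κ K m₀ m₁ n₀ n₁) (c : ℤ) :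
    Hol (fun x y => T i x i y) (W i) κ K (c * m₀) (c * m₁) (c * n₀) (c * n₁) := by
  induction c using Int.induction_on with
  | zero => simpa only [sub_self, zero_mul] using K10_sub h hD h1 h1
  | succ n ih => simpa only [add_mul, one_mul] using hol_add h hD ih h1
  | pred n ih => simpa only [sub_mul, one_mul] using K10_sub h hD ih h1

theorem hol_all (hD : Deck (ψ i) (W i) (HT κ K))
    (h1 : ∀ m₀ m₁ n₀ n₁, Hol (fun x y => T i x i y) (W i) κ K m₀ m₁ n₀ n₁) :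
    ∀ x ∈ W i, ∀ y ∈ W i, ψ i x = ψ i y → T i x i y = 1 := by
  intro x hx y hy e
  obtain ⟨_, ⟨a, b, c, d, l, rfl⟩, rfl⟩ := hD.trans x hx y hy e
  exact h1 a b c d x hx l

end

variable {D : TD} {q : K3 → E6 → M} {T : K3 → E6 → K3 → E6 → H}

theorem K10_uu (u w : ℂ) (x y : ℝ) : uu (cplx u w x y) = u := rfl

theorem K10_ww (u w : ℂ) (x y : ℝ) : ww (cplx u w x y) = w := rfl

theorem K10_cplx {u w : ℝ → ℂ} (hu : Continuous u) (hw : Continuous w) :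
    Continuous fun t => cplx (u t) (w t) 0 0 := by
  refine continuous_pi fun ⟨i, j⟩ => ?_
  fin_cases i <;> fin_cases j
  exacts [continuous_re.comp hu, continuous_im.comp hu, continuous_const, continuous_const,
    continuous_re.comp hw, continuous_im.comp hw]

theorem K10_path (hT : Coc q D.W T) {s : K3} {μ : ℝ} {b : ℝ → E6} (hb : Continuous b)
    (h1 : ∀ t, Cy.mk 0 (1 / 2) 0 0 μ t ∈ D.W s) (h2 : ∀ t, b t ∈ D.W .f)
    (h3 : ∀ t, q s (Cy.mk 0 (1 / 2) 0 0 μ t) = q .f (b t)) (h4 : b 1 = b 0) :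
    T s (Cy.mk 0 (1 / 2) 0 0 μ 0) s (Cy.mk 0 (1 / 2) 0 0 μ 0 + bv (2, 1)) = 1 := by
  have ha : Continuous fun t => Cy.mk 0 (1 / 2) 0 0 μ t := by
    refine continuous_pi fun ⟨i, j⟩ => ?_
    fin_cases i <;> fin_cases j
    exacts [continuous_const, continuous_const, continuous_const, continuous_const,
      continuous_const, continuous_id]
  have e : Cy.mk 0 (1 / 2) 0 0 μ 0 + bv (2, 1) = Cy.mk 0 (1 / 2) 0 0 μ 1 := by
    refine ext6 ?_ ?_ ?_ ?_ ?_ ?_ <;> simp [bv]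
  have k := hT.joint isPreconnected_univ ha.continuousOn hb.continuousOn (fun t _ => h1 t)
    (fun t _ => h2 t) (fun t _ => h3 t) (mem_univ 0) (mem_univ 1)
  rw [e, ← hT.mul s _ .f (b 0), k, h4, hT.mul, hT.self]

theorem K10_dom (hD : D.Ok) {μ : ℝ} (h : |μ| ≤ 1 / 16) : D.dom 0 μ :=
  ⟨fun _ => ⟨by norm_num, by norm_num⟩, by linarith [hD.lo, (abs_le.1 h).1],
    by linarith [hD.hi, (abs_le.1 h).2]⟩

theorem K10_f (hD : D.Ok) {u w : ℂ} (hu : normSq u ≤ 1 / 64) (hw : normSq w ≤ 1 / 64) :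
    cplx u w 0 0 ∈ D.W .f := by
  have u0 := normSq_nonneg u
  have w0 := normSq_nonneg w
  refine ⟨?_, ?_, ?_⟩
  · rw [K10_uu, K10_ww, map_mul]
    nlinarith
  · show D.lo < normSq u - normSq w
    linarith [hD.lo]
  · show normSq u - normSq w < D.hi
    linarith [hD.hi]

theorem K10_nsq (t : ℝ) : normSq (((1 / 8 : ℝ) : ℂ) * ee t) ≤ 1 / 64 := by
  rw [map_mul, normSq_ee, normSq_ofReal]
  norm_num

theorem TM.loop (h : TM D q) (hT : Coc q D.W T) {s : K3} (hs : s ≠ .f) :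
    Hol (fun x y => T s x s y) (D.W s) D.κ (D.As s) 0 0 0 0 := by
  have c := contDiff_ee.continuous
  have z0 : normSq (0 : ℂ) ≤ 1 / 64 := by norm_num
  have e8 : (0 : ℝ) < 1 / 8 := by norm_num
  cases s with
  | f => exact (hs rfl).elim
  | m =>
    have h1 : ∀ t, Cy.mk 0 (1 / 2) 0 0 (-(1 / 8) ^ 2) t ∈ D.W .m := fun t =>
      ⟨K10_dom h.ok (by norm_num [abs_le]), Or.inr (by norm_num)⟩
    have h2 := fun t : ℝ => K10_f h.ok z0 (K10_nsq (-t - D.A 1 0 * 0 / 2))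
    refine hol_center hT (h.deck hs) (preconn_W h.ok _) (h1 0) (K10_path hT
      (K10_cplx continuous_const (by fun_prop)) h1 h2 (fun t => (h.eq _ _ _ (h1 t) _ (h2 t)).2 ?_) ?_)
    · rw [io_f_w e8]
      exact TD.RN.refl _
    · rw [(ee_eq_iff (t := -0 - D.A 1 0 * 0 / 2)).2 ⟨-1, by push_cast; ring⟩]
  | p =>
    have h1 : ∀ t, Cy.mk 0 (1 / 2) 0 0 ((1 / 8) ^ 2) t ∈ D.W .p := fun t =>
      ⟨K10_dom h.ok (by norm_num [abs_le]), Or.inr (by norm_num)⟩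
    have h2 := fun t : ℝ => K10_f h.ok (K10_nsq (t + D.A 1 0 * 0 / 2)) z0
    refine hol_center hT (h.deck hs) (preconn_W h.ok _) (h1 0) (K10_path hT
      (K10_cplx (by fun_prop) continuous_const) h1 h2 (fun t => (h.eq _ _ _ (h1 t) _ (h2 t)).2 ?_) ?_)
    · rw [io_f_u e8]
      exact TD.RN.refl _
    · rw [(ee_eq_iff (t := 0 + D.A 1 0 * 0 / 2)).2 ⟨1, by push_cast; ring⟩]

theorem K10_setF {z : E6} (hz : z ∈ D.W .m) (h0 : gz z ≠ 0) (t : ℝ) : setF t z ∈ D.W .p :=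
  ⟨hz.1, Or.inl h0⟩

theorem K10_rel (h : TM D q) {z : E6} (hz : z ∈ D.W .m) (h0 : gz z ≠ 0) {t : ℝ}
    (ht : gz z = ‖gz z‖ * ee (t - z (2, 1))) : q .m z = q .p (setF t z) :=
  (h.eq _ _ _ hz _ (K10_setF hz h0 t)).2 (io_mp' h0 ht ▸ TD.RN.refl _)

theorem K10_gz0 (a b c l : ℝ) (n : ℤ) : gz (Cy.mk a n b c 0 l) = 1 := gg_int a n

theorem K10_0 : gz 0 = 1 := by
  have := gg_int 0 0
  rwa [Int.cast_zero] at this

theorem K10_W0 (hD : D.Ok) {s : K3} (hs : s ≠ .f) : (0 : E6) ∈ D.W s := by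
  have d : D.dom 0 0 := K10_dom hD (by norm_num)
  have g : gz 0 ≠ 0 := K10_0 ▸ one_ne_zero
  cases s with
  | f => exact (hs rfl).elim
  | m => exact ⟨d, Or.inl g⟩
  | p => exact ⟨d, Or.inl g⟩

theorem TM.mp (h : TM D q) (hT : Coc q D.W T) : ∃ g : H, ∀ z ∈ D.W .m, gz z ≠ 0 → ∀ t : ℝ,
    gz z = ‖gz z‖ * ee (t - z (2, 1)) → T .m z .p (setF t z) = g := by
  have ind : ∀ z ∈ D.W .m, gz z ≠ 0 → ∀ t t' : ℝ, gz z = ‖gz z‖ * ee (t - z (2, 1)) →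
      gz z = ‖gz z‖ * ee (t' - z (2, 1)) → T .m z .p (setF t z) = T .m z .p (setF t' z) := by
    intro z hz h0 t t' e e'
    obtain ⟨n, hn⟩ := ee_eq_iff.1 (mul_left_cancel₀ (ofReal_ne_zero.2 (norm_ne_zero_iff.2 h0))
      (e.symm.trans e'))
    have k : T .p _ .p _ = 1 := h.loop hT (s := .p) (by decide) _ (K10_setF hz h0 t') n
    have e2 : hact (D.As .p) (D.κ * 0) 0 0 0 n (setF t' z) = setF t z := by
      refine ext6 ?_ ?_ ?_ ?_ ?_ ?_ <;> simp [hact, setF]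
      linarith
    rw [e2] at k
    rw [← hT.mul .m z .p (setF t' z), k, mul_one]
  choose τ hτ using fun z => exists_ee (gz z)
  have hτ' : ∀ z, gz z = ‖gz z‖ * ee (τ z + z (2, 1) - z (2, 1)) := fun z => by
    rw [add_sub_cancel_right]
    exact hτ z
  refine ⟨T .m 0 .p (setF (τ 0 + (0 : E6) (2, 1)) 0), fun z hz h0 t ht =>
    (ind z hz h0 _ _ ht (hτ' z)).trans (G9a_const
      (φ := fun z => T .m z .p (setF (τ z + z (2, 1)) z)) (preconn_gz h.ok) (fun x hx => ?_)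
      ⟨hz, h0⟩ ⟨K10_W0 h.ok (by decide), K10_0 ▸ one_ne_zero⟩)⟩
  obtain ⟨G, G1, G2, G3⟩ := ee_lift contDiff_gz.contDiffAt hx.2 (hτ x)
  have c : ContinuousAt (fun y : E6 => (y, setF (G y + y (2, 1)) y)) x :=
    continuousAt_id.prodMk (continuousAt_id.update _
      (G1.continuousAt.add (continuous_apply _).continuousAt))
  have l := hT.lc .m .p _ hx.1 _ (K10_setF hx.1 hx.2 _) (K10_rel h hx.1 hx.2 (hτ' x))
  rw [← G2] at l
  filter_upwards [nhdsWithin_le_nhds (c.eventually l), nhdsWithin_le_nhds G3,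
    self_mem_nhdsWithin] with y k1 k2 hy
  rw [← add_sub_cancel_right (G y) (y (2, 1))] at k2
  rw [ind y hy.1 hy.2 _ _ (hτ' y) k2, k1 (K10_rel h hy.1 hy.2 k2), G2]

theorem TM.hol_mp (h : TM D q) (hT : Coc q D.W T) (m₀ m₁ n₀ n₁ : ℤ) :
    Hol (fun x y => T .m x .m y) (D.W .m) D.κ (D.As .m) m₀ m₁ n₀ n₁ ↔
      Hol (fun x y => T .p x .p y) (D.W .p) D.κ (D.As .p) m₀ m₁ n₀ n₁ := by
  obtain ⟨g, hg⟩ := h.mp hT
  have m : K3.m ≠ .f := by decide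
  have p : K3.p ≠ .f := by decide
  have e : ∀ K, hact K (D.κ * m₀) m₁ n₀ n₁ 0 0 = Cy.mk (D.κ * m₀ : ℤ) n₀ m₁ n₁ 0 0 := fun K => by
    refine ext6 ?_ ?_ ?_ ?_ ?_ ?_ <;> simp [hact]
  have k : ∀ z ∈ D.W .m, gz z = 1 → T .m z .p z = g := fun z hz h1 => by
    have := hg z hz (h1 ▸ one_ne_zero) (z (2, 1)) (by rw [h1, sub_self, ee_zero]; simp)
    rwa [setF, Function.update_eq_self] at this
  have k0 := k 0 (K10_W0 h.ok m) K10_0
  have k1 := k _ (e _ ▸ (h.deck m).maps _ (K10_mem _ _ m₀ m₁ n₀ n₁ 0) (K10_W0 h.ok m))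
    (K10_gz0 _ _ _ _ _)
  constructor
  · intro h1
    refine hol_of_pt hT (h.deck p) (preconn_W h.ok _) (h.loop hT p) (K10_W0 h.ok p) (l := 0) ?_
    have h2 : T .m 0 .m _ = 1 := h1 0 (K10_W0 h.ok m) 0
    rw [e] at h2 ⊢
    rw [← hT.mul .p 0 .m 0, ← hT.mul .m 0 .m _ .p, h2, k1, hT.inv, k0, one_mul, inv_mul_cancel]
  · intro h1
    refine hol_of_pt hT (h.deck m) (preconn_W h.ok _) (h.loop hT m) (K10_W0 h.ok m) (l := 0) ?_
    have h2 : T .p 0 .p _ = 1 := h1 0 (K10_W0 h.ok p) 0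
    rw [e] at h2 ⊢
    rw [← hT.mul .m 0 .p 0, ← hT.mul .p 0 .p _ .m, h2, k0, hT.inv, k1, one_mul, mul_inv_cancel]

theorem K10_pt (hD : D.Ok) : ∃ x ∈ D.W .f, uu x ≠ 0 ∧ ww x ≠ 0 := by
  have k : ((1 / 8 : ℝ) : ℂ) * ee 0 ≠ 0 := mul_ne_zero (by norm_num) (ee_ne_zero 0)
  exact ⟨_, K10_f hD (K10_nsq 0) (K10_nsq 0), k, k⟩

theorem K10_fm (h : TM D q) {x : E6} (hx : x ∈ D.W .f) (h0 : ww x ≠ 0) :
    ∃ y ∈ D.W .m, q .f x = q .m y := by
  obtain ⟨y, hy, e⟩ := f_exists_m hx h0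
  exact ⟨y, hy.1, (h.eq _ _ _ hx _ hy.1).2 (e ▸ TD.RN.refl _)⟩

theorem K10_fp (h : TM D q) {x : E6} (hx : x ∈ D.W .f) (h0 : uu x ≠ 0) :
    ∃ y ∈ D.W .p, q .f x = q .p y := by
  obtain ⟨y, hy, -, e⟩ := f_exists_p hx h0
  exact ⟨y, hy, (h.eq _ _ _ hx _ hy).2 (e ▸ TD.RN.refl _)⟩

theorem TM.pi (h : TM D q) (hT : Coc q D.W T)
    (hm : ∀ x ∈ D.W .m, ∀ y ∈ D.W .m, q .m x = q .m y → T .m x .m y = 1) :
    ∃ g : K3 → H, g .m = 1 ∧
      ∀ s s', ∀ x ∈ D.W s, ∀ y ∈ D.W s', q s x = q s' y → T s x s' y = (g s)⁻¹ * g s' := by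
  have m : K3.m ≠ .f := by decide
  have p : K3.p ≠ .f := by decide
  have hp := hol_all (T := T) (h.deck p) fun a b c d => (h.hol_mp hT a b c d).1 fun z hz l =>
    hm z hz _ ((h.deck m).maps _ (K10_mem _ _ a b c d l) hz)
      ((h.deck m).eq _ (K10_mem _ _ a b c d l) z hz).symm
  obtain ⟨g0, hg0⟩ := h.mp hT
  have mp : ∀ x ∈ D.W .m, ∀ y ∈ D.W .p, q .m x = q .p y → T .m x .p y = g0 := by
    intro x hx y hy e
    have h0 := (gz_ne h.ok hx hy ((h.eq _ _ _ hx _ hy).1 e)).1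
    obtain ⟨t, ht⟩ := exists_ee (gz x)
    rw [← add_sub_cancel_right t (x (2, 1))] at ht
    rw [← hT.mul .m x .p (setF (t + x (2, 1)) x), hg0 x hx h0 _ ht,
      hp _ (K10_setF hx h0 _) _ hy ((K10_rel h hx h0 ht).symm.trans e), mul_one]
  obtain ⟨g1, hg1⟩ := hT.over h.par (preconn_ww h.ok) (fun _ k => k.1) hm
    fun x hx => K10_fm h hx.1 hx.2
  obtain ⟨g2, hg2⟩ := hT.over h.par (preconn_uu h.ok) (fun _ k => k.1) hp
    fun x hx => K10_fp h hx.1 hx.2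
  have fm : ∀ x ∈ D.W .f, ∀ y ∈ D.W .m, q .f x = q .m y → T .f x .m y = g1 := fun x hx y hy e =>
    hg1 x ⟨hx, ww_ne hy ((h.eq _ _ _ hy _ hx).1 e.symm)⟩ y hy e
  have fp : ∀ x ∈ D.W .f, ∀ y ∈ D.W .p, q .f x = q .p y → T .f x .p y = g2 := fun x hx y hy e =>
    hg2 x ⟨hx, uu_ne hy ((h.eq _ _ _ hy _ hx).1 e.symm)⟩ y hy e
  obtain ⟨x0, hx0, u0, w0⟩ := K10_pt h.ok
  obtain ⟨y0, hy0, e0⟩ := K10_fm h hx0 w0
  obtain ⟨y1, hy1, e1⟩ := K10_fp h hx0 u0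
  have e2 : g2 = g1 * g0 := by
    rw [← fp _ hx0 _ hy1 e1, ← fm _ hx0 _ hy0 e0, ← mp _ hy0 _ hy1 (e0.symm.trans e1), hT.mul]
  have ff : ∀ x ∈ D.W .f, ∀ y ∈ D.W .f, q .f x = q .f y → T .f x .f y = 1 := by
    intro x hx y hy e
    obtain ⟨f, hf, rfl⟩ := h.deck_f.trans x hx y hy e
    rw [K10_all hT h.deck_f (preconn_W h.ok _) hf hx hx0, ← hT.mul .f x0 .m y0, hT.inv .f (f x0),
      fm _ hx0 _ hy0 e0, fm _ (h.deck_f.maps f hf hx0) _ hy0 ((h.deck_f.eq f hf x0 hx0).trans e0),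
      mul_inv_cancel]
  refine ⟨fun s => match s with | .m => 1 | .p => g0 | .f => g1⁻¹, rfl,
    fun s s' x hx y hy e => ?_⟩
  cases s <;> cases s'
  · simp [hm x hx y hy e]
  · simp [mp x hx y hy e]
  · simp [hT.inv .f y, fm y hy x hx e.symm]
  · simp [hT.inv .m y, mp y hy x hx e.symm]
  · simp [hp x hx y hy e]
  · simp [hT.inv .f y .p, fp y hy x hx e.symm, e2]
  · simp [fm x hx y hy e]
  · simp [fp x hx y hy e, e2]
  · simp [ff x hx y hy e]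

theorem TM.meet (h : TM D q) (s : K3) : ∃ x ∈ D.W s, ∃ y ∈ D.W .m, q s x = q .m y := by
  have m := K10_W0 h.ok (s := .m) (by decide)
  cases s with
  | m => exact ⟨0, m, 0, m, rfl⟩
  | p =>
    have p := K10_W0 h.ok (s := .p) (by decide)
    exact ⟨0, p, 0, m, (h.eq _ _ _ p _ m).2 (io_mp (D := D) K10_0 ▸ TD.RN.refl _)⟩
  | f =>
    obtain ⟨x, hx, -, w⟩ := K10_pt h.ok
    exact ⟨x, hx, K10_fm h hx w⟩


end Pool.Agent.Work.MP_bf98aa_gt.Cy
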