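import Pool.Agent.Work.MP_bf98aa_gt.Cy.K1

/-!
The cut-off functions and the smoothness of the invariant primitive.

PLAN. `Real.smoothTransition.monotone` gives `0 ≤ deriv`. `tau1` is locally constant near `t ≤ 1/128` and a quotient with nonzero denominator elsewhere. The square roots are smooth where
`μ² + 4 tau t psi μ > 0`, that is for `t > 0`, `psi μ > 0` or `μ ≠ 0` (if `μ = 0` then `psi μ = 1`). On `Am`, near a point with `U = W = 0` one has `kk = 0` and
`rt (atq a) (amu a) = |U|² + |W|²` (`r0_am`).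
-/

set_option autoImplicit false

open scoped Manifold ContDiff Topology
open Set Complex

namespace Pool.Agent.Work.MP_bf98aa_gt.Cy

open Pool.Agent.Work.MP_bf98aa_gt.Th

theorem K2_st {f : ℝ → ℝ} (hf : ContDiff ℝ ∞ f) :
    ContDiff ℝ ∞ fun t => Real.smoothTransition (f t) :=
  Real.smoothTransition.contDiff.comp hf

theorem K2_s : ContDiff ℝ ∞ fun t : ℝ => Real.smoothTransition (128 * t - 1) :=
  K2_st (by fun_prop)

theorem contDiff_tau : ContDiff ℝ ∞ tau :=
  (contDiff_id.mul (contDiff_const.sub K2_s)).add (K2_s.div_const _)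

theorem tau_eq {t : ℝ} (h : t ≤ 1 / 128) : tau t = t := by
  rw [tau, Real.smoothTransition.zero_of_nonpos (by linarith)]
  ring

theorem tau1_eq {t : ℝ} (h : t ≤ 1 / 128) : tau1 t = 1 := by
  rw [tau1, Real.smoothTransition.zero_of_nonpos (by linarith)]
  ring

theorem contDiff_tau1 : ContDiff ℝ ∞ tau1 := by
  refine contDiff_iff_contDiffAt.2 fun t => ?_
  rcases lt_or_ge t (1 / 128) with h | h
  · exact contDiffAt_const.congr_of_eventuallyEq
      ((Iio_mem_nhds h : Iio _ ∈ _) |> fun k => Filter.mem_of_superset k fun u hu => tau1_eq (le_of_lt hu))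
  · exact (contDiff_const.sub K2_s).contDiffAt.add
      (K2_s.contDiffAt.div (by fun_prop) (by positivity))

theorem tau_const {t : ℝ} (h : 1 / 64 ≤ t) : tau t = 1 / 64 := by
  rw [tau, Real.smoothTransition.one_of_one_le (by linarith)]
  ring

theorem mul_tau1 (t : ℝ) : t * tau1 t = tau t := by
  rcases eq_or_ne t 0 with rfl | h
  · rw [tau_eq (by norm_num), zero_mul]
  · rw [tau, tau1]
    field_simp

theorem K2_mono : Monotone tau := by
  have k : ∀ u, 1 / 64 - tau u = (1 / 64 - u) * (1 - Real.smoothTransition (128 * u - 1)) :=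
    fun u => by rw [tau]; ring
  intro u v h
  rcases le_total (1 / 64) u with hu | hu
  · rw [tau_const hu, tau_const (hu.trans h)]
  have h1 := sub_nonneg.2 (Real.smoothTransition.le_one (128 * u - 1))
  have h2 := sub_nonneg.2 (Real.smoothTransition.le_one (128 * v - 1))
  have h3 := Real.smoothTransition.monotone (by linarith : 128 * u - 1 ≤ 128 * v - 1)
  have : (1 / 64 - v) * (1 - Real.smoothTransition (128 * v - 1)) ≤
      (1 / 64 - u) * (1 - Real.smoothTransition (128 * u - 1)) :=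
    mul_le_mul (by linarith) (by linarith) h2 (by linarith)
  linarith [k u, k v]

theorem K2_le (t : ℝ) : tau t ≤ 1 / 64 :=
  (K2_mono (le_max_left t (1 / 64))).trans_eq (tau_const (le_max_right _ _))

theorem tau_pos {t : ℝ} (h : 0 < t) : 0 < tau t :=
  ((lt_min h (by norm_num)).trans_eq (tau_eq (min_le_right t _)).symm).trans_le
    (K2_mono (min_le_left _ _))

theorem tau_le {t : ℝ} (h : 0 ≤ t) : 0 ≤ tau t ∧ tau t ≤ 1 / 64 :=
  ⟨(tau_eq (by norm_num)).symm.trans_le (K2_mono h), K2_le t⟩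

theorem deriv_tau_nonneg (t : ℝ) : 0 ≤ deriv tau t := K2_mono.deriv_nonneg

theorem deriv_tau_zero {t : ℝ} (h : 1 / 64 ≤ t) : deriv tau t = 0 :=
  IsLocalMax.deriv_eq_zero (Filter.Eventually.of_forall fun u => tau_const h ▸ K2_le u)

theorem contDiff_psi : ContDiff ℝ ∞ psi := (K2_st (by fun_prop)).mul (K2_st (by fun_prop))

theorem psi_one {μ : ℝ} (h : |μ| ≤ 1 / 32) : psi μ = 1 := by
  rw [abs_le] at h
  rw [psi, Real.smoothTransition.one_of_one_le (by linarith),
    Real.smoothTransition.one_of_one_le (by linarith), one_mul]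

theorem psi_zero {μ : ℝ} (h : 1 / 16 ≤ |μ|) : psi μ = 0 := by
  rcases le_abs.1 h with h | h
  · rw [psi, Real.smoothTransition.zero_of_nonpos (by linarith), zero_mul]
  · rw [psi, Real.smoothTransition.zero_of_nonpos (x := 2 + _) (by linarith), mul_zero]

theorem psi_mem (μ : ℝ) : 0 ≤ psi μ ∧ psi μ ≤ 1 :=
  ⟨mul_nonneg (Real.smoothTransition.nonneg _) (Real.smoothTransition.nonneg _),
    mul_le_one₀ (Real.smoothTransition.le_one _) (Real.smoothTransition.nonneg _)
      (Real.smoothTransition.le_one _)⟩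

theorem K2_max (μ : ℝ) : max μ 0 = (|μ| + μ) / 2 := by
  rcases le_total 0 μ with h | h
  · rw [max_eq_left h, abs_of_nonneg h]; ring
  · rw [max_eq_right h, abs_of_nonpos h]; ring

theorem K2_tp {t : ℝ} (h : 0 ≤ t) (μ : ℝ) :
    0 ≤ 4 * tau t * psi μ ∧ 4 * tau t * psi μ ≤ 1 / 16 := by
  obtain ⟨h1, h2⟩ := tau_le h
  obtain ⟨h3, h4⟩ := psi_mem μ
  exact ⟨by positivity, by nlinarith⟩

theorem hm_bounds {t : ℝ} (h : 0 ≤ t) (μ : ℝ) : max μ 0 ≤ hm t μ ∧ hm t μ ≤ max μ 0 + 1 / 8 := by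
  obtain ⟨h1, h2⟩ := K2_tp h μ
  have k1 : |μ| ≤ rt t μ := Real.abs_le_sqrt (by linarith)
  have k2 : rt t μ ≤ |μ| + 1 / 4 := Real.sqrt_le_iff.2
    ⟨by positivity, by nlinarith [abs_nonneg μ, sq_abs μ]⟩
  rw [K2_max, hm]
  constructor <;> linarith

theorem hm_eq (t : ℝ) {μ : ℝ} (h : 1 / 16 ≤ |μ|) : hm t μ = max μ 0 := by
  rw [hm, rt, psi_zero h, mul_zero, add_zero, Real.sqrt_sq_eq_abs, K2_max]

theorem hm_far {t : ℝ} (h : 1 / 64 ≤ t) (μ : ℝ) : hm t μ = hinf μ := by
  rw [hinf, hm, hm, rt, rt, tau_const h, tau_const (by norm_num)]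

theorem contDiffAt_rt {t μ : ℝ} (h : 0 ≤ t) (h0 : t ≠ 0 ∨ μ ≠ 0) :
    0 < rt t μ ∧ ContDiffAt ℝ ∞ (fun x : ℝ × ℝ => rt x.1 x.2) (t, μ) := by
  have k : 0 < μ ^ 2 + 4 * tau t * psi μ := by
    rcases eq_or_ne μ 0 with rfl | e
    · have := tau_pos (h.lt_of_ne' (h0.resolve_right fun k => k rfl))
      rw [psi_one (by norm_num)]
      positivity
    · have := (K2_tp h μ).1
      positivity
  exact ⟨Real.sqrt_pos.2 k, ContDiffAt.sqrt ((contDiff_snd.pow 2).add ((contDiff_const.mul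
    (contDiff_tau.comp contDiff_fst)).mul (contDiff_psi.comp contDiff_snd))).contDiffAt k.ne'⟩

theorem contDiff_hinf : ContDiff ℝ ∞ hinf :=
  contDiff_iff_contDiffAt.2 fun μ => (((contDiffAt_rt zero_le_one (Or.inl one_ne_zero)).2.comp μ
    (contDiffAt_const.prodMk contDiffAt_id)).add contDiffAt_id).div_const 2

theorem contDiffAt_r0 {t μ : ℝ} (h : 0 ≤ t) (h0 : t ≠ 0 ∨ μ ≠ 0) :
    0 < r0 t μ ∧ ContDiffAt ℝ ∞ (fun x : ℝ × ℝ => r0 x.1 x.2) (t, μ) := by
  have k : 0 < μ ^ 2 + 4 * t := by rcases h0 with e | e <;> positivity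
  exact ⟨Real.sqrt_pos.2 k, ContDiffAt.sqrt
    ((contDiff_snd.pow 2).add (contDiff_const.mul contDiff_fst)).contDiffAt k.ne'⟩

theorem mul_kk {t μ : ℝ} (h : 0 ≤ t) : t * kk t μ = (rt t μ - r0 t μ) / 2 := by
  have k1 : rt t μ ^ 2 = μ ^ 2 + 4 * tau t * psi μ :=
    Real.sq_sqrt (by have := (K2_tp h μ).1; positivity)
  have k2 : r0 t μ ^ 2 = μ ^ 2 + 4 * t := Real.sq_sqrt (by positivity)
  have k3 : 0 ≤ rt t μ := Real.sqrt_nonneg _
  have k4 : 0 ≤ r0 t μ := Real.sqrt_nonneg _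
  rw [kk]
  rcases eq_or_ne (rt t μ + r0 t μ) 0 with e | e
  · rw [e, div_zero]
    linarith
  · rw [← mul_div_assoc, div_eq_iff e]
    linear_combination 2 * psi μ * mul_tau1 t - k1 / 2 + k2 / 2

theorem r0_am (a : Am) : r0 (atq a) (amu a) = normSq a.2.1 + normSq a.2.2 := by
  rw [r0, atq, amu, map_mul, Real.sqrt_eq_iff_mul_self_eq
    (by have := normSq_nonneg a.2.1; have := normSq_nonneg a.2.2; positivity)
    (add_nonneg (normSq_nonneg _) (normSq_nonneg _))]
  ring

theorem K2_nsq : ContDiff ℝ ∞ fun u : ℂ => normSq u :=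
  (reCLM.contDiff.mul reCLM.contDiff).add (imCLM.contDiff.mul imCLM.contDiff)

theorem K2_U : ContDiff ℝ ∞ fun a : Am => a.2.1 := contDiff_snd.fst

theorem K2_W : ContDiff ℝ ∞ fun a : Am => a.2.2 := contDiff_snd.snd

theorem K2_atq : ContDiff ℝ ∞ atq := K2_nsq.comp (K2_U.mul K2_W)

theorem K2_amu : ContDiff ℝ ∞ amu := (K2_nsq.comp K2_U).sub (K2_nsq.comp K2_W)

theorem K2_cases (a : Am) : (atq a ≠ 0 ∨ amu a ≠ 0) ∨
    ∀ᶠ b in 𝓝 a, atq b ≤ 1 / 128 ∧ |amu b| ≤ 1 / 32 := by
  by_cases h : atq a = 0 ∧ amu a = 0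
  · refine Or.inr (Filter.Eventually.and ?_ ?_)
    · exact (K2_atq.continuous.tendsto a).eventually (Iic_mem_nhds (by rw [h.1]; norm_num))
    · exact (K2_amu.continuous.abs.tendsto a).eventually (Iic_mem_nhds (by rw [h.2]; norm_num))
  · exact Or.inl (not_and_or.1 h)

theorem contDiff_hm_am : ContDiff ℝ ∞ fun a : Am => hm (atq a) (amu a) := by
  refine contDiff_iff_contDiffAt.2 fun a => ?_
  rcases K2_cases a with h | h
  · exact (((contDiffAt_rt (normSq_nonneg _) h).2.comp a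
      (K2_atq.prodMk K2_amu).contDiffAt).add K2_amu.contDiffAt).div_const 2
  · refine ((((K2_nsq.comp K2_U).add (K2_nsq.comp K2_W)).add K2_amu).div_const
      2).contDiffAt.congr_of_eventuallyEq (h.mono fun b hb => ?_)
    have := r0_am b
    rw [r0] at this
    simp only [hm, rt, tau_eq hb.1, psi_one hb.2, mul_one, this, Function.comp]

theorem contDiff_kk_am : ContDiff ℝ ∞ fun a : Am => kk (atq a) (amu a) := by
  refine contDiff_iff_contDiffAt.2 fun a => ?_
  rcases K2_cases a with h | h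
  · have h1 := contDiffAt_rt (normSq_nonneg _) h
    have h2 := contDiffAt_r0 (normSq_nonneg _) h
    exact (contDiff_const.mul (((contDiff_tau1.comp K2_atq).mul (contDiff_psi.comp K2_amu)).sub
      contDiff_const)).contDiffAt.div ((h1.2.comp a (K2_atq.prodMk K2_amu).contDiffAt).add
        (h2.2.comp a (K2_atq.prodMk K2_amu).contDiffAt)) (add_pos h1.1 h2.1).ne'
  · refine (contDiffAt_const (c := 0)).congr_of_eventuallyEq (h.mono fun b hb => ?_)
    simp only [kk, tau1_eq hb.1, psi_one hb.2, mul_one, sub_self, mul_zero, zero_div]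

theorem imd_apply (u : ℂ) (L : Am →L[ℝ] ℂ) (v : Am) :
    imd u L v = (u.re * (L v).im - u.im * (L v).re) / (2 * Real.pi) := by
  simp [imd, div_eq_inv_mul]

theorem K2_imd {u : Am → ℂ} {L : Am → Am →L[ℝ] ℂ} (hu : ContDiff ℝ ∞ u) (hL : ContDiff ℝ ∞ L) :
    ContDiff ℝ ∞ fun a => imd (u a) (L a) :=
  (((reCLM.contDiff.comp hu).smul (contDiff_const.clm_comp hL)).sub
    ((imCLM.contDiff.comp hu).smul (contDiff_const.clm_comp hL))).const_smul _

theorem TD.contDiff_lamL (D : TD) : ContDiff ℝ ∞ D.lamL := by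
  have x : ∀ i, ContDiff ℝ ∞ fun a : Am => a.1 i := fun i => contDiff_pi.1 contDiff_fst i
  have b : ContDiff ℝ ∞ D.bA :=
    (((contDiff_const.mul (x 0)).add (contDiff_const.mul (x 2))).smul contDiff_const).add
      (((contDiff_const.mul (x 0)).add (contDiff_const.mul (x 2))).smul contDiff_const)
  exact ((((K2_imd K2_U contDiff_const).add (K2_imd K2_W contDiff_const)).add (K2_amu.smul b)).sub
    (((contDiff_const.mul contDiff_hm_am).mul (x 0)).smul contDiff_const)).add (contDiff_kk_am.smul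
      (K2_imd (K2_U.mul K2_W) ((K2_U.smul contDiff_const).add (K2_W.smul contDiff_const))))

end Pool.Agent.Work.MP_bf98aa_gt.Cy
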