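import Pool.Agent.Work.MP_bf98aa_gt.Cy.K2
import Pool.Agent.Work.MP_bf98aa_gt.Cy.G11

/-!
The maps to the ambient space and the orbit relation.

PLAN. On `W m`: `rad (-1) z > 0`, `rad 1 z * rad (-1) z = ‖gz z‖`, `rad 1 ^ 2 - rad (-1) ^ 2 = μ`. `RN` is the orbit relation of `nact` (the twist changes by integers, `ee_int`).
`RN_iff_RS`: `gg_add_int`, `ee_eq_iff`, and `μ` is recovered from `amu`.
-/

set_option autoImplicit false

open scoped Manifold ContDiff Topology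
open Set Complex

namespace Pool.Agent.Work.MP_bf98aa_gt.Cy

open Pool.Agent.Work.MP_bf98aa_gt.Th

variable {D : TD} {s s' : K3} {z z' : E6} {a a' a'' : Am}

theorem K3_cd_mk {X : Type} [NormedAddCommGroup X] [NormedSpace ℝ X] {f g : X → ℝ}
    (hf : ContDiff ℝ ∞ f) (hg : ContDiff ℝ ∞ g) : ContDiff ℝ ∞ fun x => (⟨f x, g x⟩ : ℂ) := by
  have e : (fun x => (⟨f x, g x⟩ : ℂ)) = fun x => ofRealCLM (f x) + ofRealCLM (g x) * I := by
    funext x
    exact Complex.mk_eq_add_mul_I _ _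
  rw [e]
  exact (ofRealCLM.contDiff.comp hf).add ((ofRealCLM.contDiff.comp hg).mul contDiff_const)

theorem K3_cd_uu : ContDiff ℝ ∞ uu := K3_cd_mk (contDiff_apply ℝ ℝ _) (contDiff_apply ℝ ℝ _)

theorem K3_cd_ww : ContDiff ℝ ∞ ww := K3_cd_mk (contDiff_apply ℝ ℝ _) (contDiff_apply ℝ ℝ _)

theorem K3_cd_nsq : ContDiff ℝ ∞ fun c : ℂ => normSq c :=
  (reCLM.contDiff.mul reCLM.contDiff).add (imCLM.contDiff.mul imCLM.contDiff)

theorem K3_cd_mF : ContDiff ℝ ∞ mF := (K3_cd_nsq.comp K3_cd_uu).sub (K3_cd_nsq.comp K3_cd_ww)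

theorem K3_dom_open (D : TD) : IsOpen {z : E6 | D.dom (z (0, 0)) (z (2, 0))} := by
  refine IsOpen.inter ?_ ((isOpen_lt continuous_const (continuous_apply _)).inter
    (isOpen_lt (continuous_apply _) continuous_const))
  by_cases h : D.κ = 0
  · simp only [h, forall_const]
    exact (isOpen_lt continuous_const (continuous_apply _)).inter
      (isOpen_lt (continuous_apply _) continuous_const)
  · simp only [h, false_imp_iff]
    exact isOpen_univ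

theorem TD.isOpen_W (D : TD) (s : K3) : IsOpen (D.W s) := by
  have h : IsOpen {z : E6 | gz z ≠ 0} := isOpen_ne_fun contDiff_gz.continuous continuous_const
  cases s
  · exact (K3_dom_open D).inter (h.union (isOpen_lt (continuous_apply _) continuous_const))
  · exact (K3_dom_open D).inter (h.union (isOpen_lt continuous_const (continuous_apply _)))
  · exact (isOpen_lt (K3_cd_nsq.comp (K3_cd_uu.mul K3_cd_ww)).continuous continuous_const).inter
      ((isOpen_lt continuous_const K3_cd_mF.continuous).inter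
        (isOpen_lt K3_cd_mF.continuous continuous_const))

theorem K3_r0 (z : E6) : |z (2, 0)| ≤ r0 (normSq (gz z)) (z (2, 0)) :=
  Real.abs_le_sqrt (by nlinarith [normSq_nonneg (gz z)])

theorem K3_r0_sq (z : E6) :
    r0 (normSq (gz z)) (z (2, 0)) ^ 2 = z (2, 0) ^ 2 + 4 * normSq (gz z) :=
  Real.sq_sqrt (by nlinarith [normSq_nonneg (gz z), sq_nonneg (z (2, 0))])

theorem K3_rad_nonneg (e : ℝ) (z : E6) : 0 ≤ rad e z := Real.sqrt_nonneg _

theorem rad_sq (e : ℝ) (he : e = 1 ∨ e = -1) (z : E6) :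
    rad e z ^ 2 = (r0 (normSq (gz z)) (z (2, 0)) + e * z (2, 0)) / 2 := by
  have h := abs_le.1 (K3_r0 z)
  refine Real.sq_sqrt ?_
  rcases he with rfl | rfl <;> linarith [h.1, h.2]

theorem rad_mul (z : E6) : rad 1 z * rad (-1) z = ‖gz z‖ := by
  refine (pow_left_inj₀ (mul_nonneg (K3_rad_nonneg _ _) (K3_rad_nonneg _ _)) (norm_nonneg _)
    two_ne_zero).1 ?_
  rw [mul_pow, rad_sq 1 (Or.inl rfl), rad_sq (-1) (Or.inr rfl), ← Complex.normSq_eq_norm_sq]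
  linarith [K3_r0_sq z]

theorem rad_pos_m (h : gz z ≠ 0 ∨ z (2, 0) < 0) : 0 < rad (-1) z := by
  rcases h with h | h
  · refine (K3_rad_nonneg _ _).lt_of_ne fun h0 => h ?_
    have h1 := rad_mul z
    rw [← h0, mul_zero] at h1
    exact norm_eq_zero.1 h1.symm
  · refine Real.sqrt_pos.2 ?_
    linarith [(abs_nonneg _).trans (K3_r0 z)]

theorem rad_pos_p (h : gz z ≠ 0 ∨ 0 < z (2, 0)) : 0 < rad 1 z := by
  rcases h with h | h
  · refine (K3_rad_nonneg _ _).lt_of_ne fun h0 => h ?_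
    have h1 := rad_mul z
    rw [← h0, zero_mul] at h1
    exact norm_eq_zero.1 h1.symm
  · refine Real.sqrt_pos.2 ?_
    linarith [(abs_nonneg _).trans (K3_r0 z)]

theorem K3_cd_rad {e : ℝ} (h : gz z ≠ 0 ∨ z (2, 0) ≠ 0) (hp : 0 < rad e z) :
    ContDiffAt ℝ ∞ (fun z => (rad e z : ℂ)) z := by
  have h1 := (contDiffAt_r0 (normSq_nonneg (gz z))
    (h.imp_left fun h0 h1 => h0 (normSq_eq_zero.1 h1))).2
  have h2 : ContDiffAt ℝ ∞ (fun z : E6 => r0 (normSq (gz z)) (z (2, 0))) z :=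
    h1.comp z (f := fun z : E6 => (normSq (gz z), z (2, 0)))
      ((K3_cd_nsq.comp contDiff_gz).prodMk (contDiff_apply ℝ ℝ _)).contDiffAt
  refine ofRealCLM.contDiff.contDiffAt.comp z (ContDiffAt.sqrt ?_ (Real.sqrt_pos.1 hp).ne')
  exact (h2.add (contDiff_const.mul (contDiff_apply ℝ ℝ _)).contDiffAt).div_const 2

theorem K3_cd_vec {X : Type} [NormedAddCommGroup X] [NormedSpace ℝ X] {f₀ f₁ f₂ f₃ : X → ℝ} {x : X}
    (h0 : ContDiffAt ℝ ∞ f₀ x) (h1 : ContDiffAt ℝ ∞ f₁ x) (h2 : ContDiffAt ℝ ∞ f₂ x)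
    (h3 : ContDiffAt ℝ ∞ f₃ x) : ContDiffAt ℝ ∞ (fun y => ![f₀ y, f₁ y, f₂ y, f₃ y]) x := by
  refine contDiffAt_pi.2 fun i => ?_
  fin_cases i
  exacts [h0, h1, h2, h3]

theorem K3_cd_div {f g : E6 → ℂ} (hf : ContDiffAt ℝ ∞ f z) (hg : ContDiffAt ℝ ∞ g z)
    (h : g z ≠ 0) : ContDiffAt ℝ ∞ (fun y => f y / g y) z := by
  simp only [div_eq_mul_inv]
  exact hf.mul (((contDiffAt_inv ℂ h).restrict_scalars ℝ).comp z hg)

theorem io_contDiffAt (hz : z ∈ D.W s) : ContDiffAt ℝ ∞ (D.io s) z := by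
  have hc : ∀ i, ContDiffAt ℝ ∞ (fun z : E6 => z i) z := fun i => (contDiff_apply ℝ ℝ i).contDiffAt
  have hv := K3_cd_vec (hc (0, 0)) (hc (0, 1)) (hc (1, 0)) (hc (1, 1))
  have e1 := contDiff_ee.contDiffAt.comp z (hc (2, 1))
  have e2 := contDiff_ee.contDiffAt.comp z (hc (2, 1)).neg
  have hg := contDiff_gz.contDiffAt (x := z)
  cases s
  · have hp := rad_pos_m hz.2
    have hr := K3_cd_rad (hz.2.imp_right ne_of_lt) hp
    exact hv.prodMk ((K3_cd_div (hg.mul e1) hr (ofReal_ne_zero.2 hp.ne')).prodMk (hr.mul e2))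
  · have hp := rad_pos_p hz.2
    have hr := K3_cd_rad (hz.2.imp_right ne_of_gt) hp
    exact hv.prodMk ((hr.mul e1).prodMk (K3_cd_div (hg.mul e2) hr (ofReal_ne_zero.2 hp.ne')))
  · have hs := (K3_cd_uu.mul K3_cd_ww).contDiffAt (x := z)
    have hP := (contDiffAt_PP hz.1.le).comp z hs
    have hQ := (contDiffAt_QQ hz.1.le).comp z hs
    have ha : ContDiffAt ℝ ∞ (fun z : E6 => (D.A 1 0 : ℝ) * z (1, 0) * QQ (uu z * ww z)) z :=
      (contDiffAt_const.mul (hc _)).mul hQ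
    exact (K3_cd_vec hP hQ (hc (1, 0)) (hc (1, 1))).prodMk
      ((K3_cd_uu.contDiffAt.mul (contDiff_ee.contDiffAt.comp z ha.neg)).prodMk
        (K3_cd_ww.contDiffAt.mul (contDiff_ee.contDiffAt.comp z ha)))

theorem K3_uw (u w : ℂ) (t : ℝ) : u * ee (-t) * (w * ee t) = u * w := by
  linear_combination u * w * ee_mul_neg t

theorem io_mul (hz : z ∈ D.W s) :
    (D.io s z).2.1 * (D.io s z).2.2 = gg ((D.io s z).1 0) ((D.io s z).1 1) := by
  cases s
  · have hp : (rad (-1) z : ℂ) ≠ 0 := ofReal_ne_zero.2 (rad_pos_m hz.2).ne'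
    change gz z * ee (z (2, 1)) / rad (-1) z * (rad (-1) z * ee (-z (2, 1))) = gz z
    rw [← mul_assoc, div_mul_cancel₀ _ hp, mul_assoc, ee_mul_neg, mul_one]
  · have hp : (rad 1 z : ℂ) ≠ 0 := ofReal_ne_zero.2 (rad_pos_p hz.2).ne'
    change rad 1 z * ee (z (2, 1)) * (gz z * ee (-z (2, 1)) / rad 1 z) = gz z
    rw [mul_comm, ← mul_assoc, div_mul_cancel₀ _ hp, mul_assoc, mul_comm (ee _), ee_mul_neg, mul_one]
  · exact (K3_uw _ _ _).trans (gg_PQ hz.1.le).symm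

theorem K3_rad_sub (z : E6) : rad 1 z ^ 2 - rad (-1) z ^ 2 = z (2, 0) := by
  rw [rad_sq 1 (Or.inl rfl), rad_sq (-1) (Or.inr rfl)]
  ring

theorem K3_nsq (z : E6) : normSq (gz z) = rad 1 z ^ 2 * rad (-1) z ^ 2 := by
  rw [← mul_pow, rad_mul, Complex.normSq_eq_norm_sq]

theorem io_amu (hs : s ≠ .f) (hz : z ∈ D.W s) : amu (D.io s z) = z (2, 0) := by
  cases s
  · have hp := (rad_pos_m hz.2).ne'
    change normSq (gz z * ee (z (2, 1)) / rad (-1) z) - normSq (rad (-1) z * ee (-z (2, 1))) = _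
    rw [map_div₀, map_mul, map_mul, normSq_ee, normSq_ee, normSq_ofReal, K3_nsq, ← K3_rad_sub z]
    field_simp
  · have hp := (rad_pos_p hz.2).ne'
    change normSq (rad 1 z * ee (z (2, 1))) - normSq (gz z * ee (-z (2, 1)) / rad 1 z) = _
    rw [map_div₀, map_mul, map_mul, normSq_ee, normSq_ee, normSq_ofReal, K3_nsq, ← K3_rad_sub z]
    field_simp
  · exact absurd rfl hs

theorem io_amu_f (z : E6) : amu (D.io .f z) = mF z := by
  change normSq (uu z * ee _) - normSq (ww z * ee _) = _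
  rw [map_mul, map_mul, normSq_ee, normSq_ee, mul_one, mul_one]
  rfl

theorem io_atq (hs : s ≠ .f) (hz : z ∈ D.W s) : atq (D.io s z) = normSq (gz z) := by
  have h := congrArg normSq (io_mul hz)
  cases s
  exacts [h, h, absurd rfl hs]

theorem io_atq_f (z : E6) : atq (D.io .f z) = normSq (uu z * ww z) := congrArg normSq (K3_uw _ _ _)

theorem io_dom (hz : z ∈ D.W s) : D.dom ((D.io s z).1 0) (amu (D.io s z)) := by
  cases s
  · rw [io_amu (by decide) hz]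
    exact hz.1
  · rw [io_amu (by decide) hz]
    exact hz.1
  · rw [io_amu_f]
    have h := abs_lt.1 (abs_PP hz.1.le)
    refine ⟨fun _ => ?_, hz.2⟩
    change -1 / 2 < PP (uu z * ww z) ∧ PP (uu z * ww z) < 3 / 4
    constructor <;> linarith [h.1, h.2]

theorem K3_mp (h : gz z ≠ 0) {t : ℝ} (ht : gz z = ‖gz z‖ * ee (t - z (2, 1))) :
    gz z * ee (z (2, 1)) / rad (-1) z = rad 1 z * ee t ∧
      rad (-1) z * ee (-z (2, 1)) = gz z * ee (-t) / rad 1 z := by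
  have hp : (rad (-1) z : ℂ) ≠ 0 := ofReal_ne_zero.2 (rad_pos_m (Or.inl h)).ne'
  have hp' : (rad 1 z : ℂ) ≠ 0 := ofReal_ne_zero.2 (rad_pos_p (Or.inl h)).ne'
  rw [← rad_mul, ofReal_mul] at ht
  have e1 : ee t = ee (t - z (2, 1)) * ee (z (2, 1)) := by rw [← ee_add, sub_add_cancel]
  have e2 : ee (-z (2, 1)) = ee (t - z (2, 1)) * ee (-t) := by
    rw [← ee_add]
    congr 1
    ring
  rw [div_eq_iff hp, eq_div_iff hp', e2]
  refine ⟨?_, ?_⟩
  · rw [e1]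
    linear_combination ee (z (2, 1)) * ht
  · linear_combination (-ee (-t)) * ht

theorem io_mp (h : gz z = 1) : D.io .m z = D.io .p z := by
  obtain ⟨h1, h2⟩ := K3_mp (z := z) (t := z (2, 1)) (by rw [h]; exact one_ne_zero)
    (by rw [h, sub_self, ee_zero]; simp)
  exact Prod.ext rfl (Prod.ext h1 h2)

theorem io_mp' (h : gz z ≠ 0) {t : ℝ} (ht : gz z = ‖gz z‖ * ee (t - z (2, 1))) :
    D.io .m z = D.io .p (setF t z) := by
  obtain ⟨h1, h2⟩ := K3_mp h ht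
  exact Prod.ext rfl (Prod.ext h1 h2)

theorem K3_g0 : gg 0 (1 / 2) = 0 := gg_eq_zero_iff.2 ⟨⟨0, by simp⟩, 0, by simp⟩

theorem K3_rad0 {ρ e : ℝ} (hρ : 0 < ρ) (he : e = 1 ∨ e = -1) (h : gz z = 0)
    (h' : z (2, 0) = e * ρ ^ 2) : rad e z = ρ := by
  have h1 : r0 (normSq (gz z)) (z (2, 0)) = ρ ^ 2 := by
    rw [r0, h, h', Real.sqrt_eq_iff_mul_self_eq (by simpa using sq_nonneg _) (sq_nonneg _)]
    rcases he with rfl | rfl <;> simp <;> ring
  rw [rad, h1, h', Real.sqrt_eq_iff_mul_self_eq ?_ hρ.le]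
  · rcases he with rfl | rfl <;> ring
  · rcases he with rfl | rfl <;> nlinarith [sq_nonneg ρ]

theorem io_f_w {ρ : ℝ} (hρ : 0 < ρ) (t x y : ℝ) :
    D.io .f (cplx 0 (ρ * ee (-t - D.A 1 0 * x / 2)) x y) = D.io .m (mk 0 (1 / 2) x y (-ρ ^ 2) t) := by
  have hg : gz (mk 0 (1 / 2) x y (-ρ ^ 2) t) = 0 := K3_g0
  have hr := K3_rad0 hρ (Or.inr rfl) hg (neg_one_mul _).symm
  change ((![PP (0 * _), QQ (0 * _), x, y], 0 * _, ρ * ee _ * ee (_ * x * QQ (0 * _))) : Am) =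
    (![0, 1 / 2, x, y], gz _ * _ / _, rad (-1) _ * ee (-t))
  rw [hg, hr]
  simp only [zero_mul, zero_div, PP_zero, QQ_zero]
  rw [mul_assoc, ← ee_add]
  congr 4
  ring

theorem io_f_u {ρ : ℝ} (hρ : 0 < ρ) (t x y : ℝ) :
    D.io .f (cplx (ρ * ee (t + D.A 1 0 * x / 2)) 0 x y) = D.io .p (mk 0 (1 / 2) x y (ρ ^ 2) t) := by
  have hg : gz (mk 0 (1 / 2) x y (ρ ^ 2) t) = 0 := K3_g0
  have hr := K3_rad0 hρ (Or.inl rfl) hg (one_mul _).symm
  change ((![PP (_ * 0), QQ (_ * 0), x, y], ρ * ee _ * ee (-(_ * x * QQ (_ * 0))), 0 * _) : Am) =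
    (![0, 1 / 2, x, y], rad 1 _ * ee t, gz _ * _ / _)
  rw [hg, hr]
  simp only [zero_mul, mul_zero, zero_div, PP_zero, QQ_zero]
  rw [mul_assoc, ← ee_add]
  congr 4
  ring

theorem TD.contDiff_nact (D : TD) (m₀ m₁ n₀ n₁ : ℤ) : ContDiff ℝ ∞ (D.nact m₀ m₁ n₀ n₁) := by
  have hc : ∀ i, ContDiff ℝ ∞ fun a : Am => a.1 i := fun i => (contDiff_apply ℝ ℝ i).comp contDiff_fst
  have ht : ContDiff ℝ ∞ fun a : Am => (D.κ : ℝ) * m₀ * (D.A 0 0 * a.1 1 + D.A 0 1 * a.1 3) +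
      m₁ * (D.A 1 0 * a.1 1 + D.A 1 1 * a.1 3) :=
    (contDiff_const.mul ((contDiff_const.mul (hc 1)).add (contDiff_const.mul (hc 3)))).add
      (contDiff_const.mul ((contDiff_const.mul (hc 1)).add (contDiff_const.mul (hc 3))))
  refine ContDiff.prodMk (contDiff_iff_contDiffAt.2 fun a => K3_cd_vec
    ((hc 0).add contDiff_const).contDiffAt ((hc 1).add contDiff_const).contDiffAt
    ((hc 2).add contDiff_const).contDiffAt ((hc 3).add contDiff_const).contDiffAt) ?_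
  exact (contDiff_snd.fst.mul (contDiff_ee.comp ((contDiff_const.mul (hc 1)).sub ht))).prodMk
    (contDiff_snd.snd.mul (contDiff_ee.comp ht))

theorem K3_vec {v : Fin 4 → ℝ} {b₀ b₁ b₂ b₃ : ℝ} (h0 : v 0 = b₀) (h1 : v 1 = b₁) (h2 : v 2 = b₂)
    (h3 : v 3 = b₃) : v = ![b₀, b₁, b₂, b₃] := by
  funext i
  fin_cases i
  exacts [h0, h1, h2, h3]

theorem RN_iff_nact : D.RN a a' ↔ ∃ m₀ m₁ n₀ n₁ : ℤ, a' = D.nact m₀ m₁ n₀ n₁ a := by
  constructor
  · rintro ⟨⟨m₀, h0⟩, ⟨n₀, h1⟩, ⟨m₁, h2⟩, ⟨n₁, h3⟩, h4, h5⟩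
    rw [TD.tw, h0, h2] at h4 h5
    exact ⟨m₀, m₁, n₀, n₁, Prod.ext (K3_vec (by linarith) (by linarith) (by linarith) (by linarith))
      (Prod.ext h4 h5)⟩
  · rintro ⟨m₀, m₁, n₀, n₁, rfl⟩
    have h0 : (D.nact m₀ m₁ n₀ n₁ a).1 0 - a.1 0 = D.κ * m₀ := add_sub_cancel_left _ _
    have h2 : (D.nact m₀ m₁ n₀ n₁ a).1 2 - a.1 2 = m₁ := add_sub_cancel_left _ _
    refine ⟨⟨m₀, h0⟩, ⟨n₀, add_sub_cancel_left _ _⟩, ⟨m₁, h2⟩, ⟨n₁, add_sub_cancel_left _ _⟩, ?_⟩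
    rw [TD.tw, h0, h2]
    exact ⟨rfl, rfl⟩

theorem K3_ee {r t u : ℝ} (n : ℤ) (h : r + t = u + n) (c : ℂ) : c * ee r * ee t = c * ee u := by
  rw [mul_assoc, ← ee_add, ee_eq_iff.2 ⟨n, h⟩]

theorem K3_zero (a : Am) : D.nact 0 0 0 0 a = a := by
  refine Prod.ext (K3_vec ?_ ?_ ?_ ?_).symm (Prod.ext ?_ ?_) <;> simp [TD.nact, ee_zero]

theorem K3_comp (m₀ m₁ n₀ n₁ m₀' m₁' n₀' n₁' : ℤ) (a : Am) :
    D.nact m₀' m₁' n₀' n₁' (D.nact m₀ m₁ n₀ n₁ a) =
      D.nact (m₀ + m₀') (m₁ + m₁') (n₀ + n₀') (n₁ + n₁') a := by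
  refine Prod.ext (K3_vec ?_ ?_ ?_ ?_) (Prod.ext
    (K3_ee (D.κ * (D.κ * m₀') * n₀ - (D.κ * m₀' * (D.A 0 0 * n₀ + D.A 0 1 * n₁) +
      m₁' * (D.A 1 0 * n₀ + D.A 1 1 * n₁))) ?_ _)
    (K3_ee (D.κ * m₀' * (D.A 0 0 * n₀ + D.A 0 1 * n₁) + m₁' * (D.A 1 0 * n₀ + D.A 1 1 * n₁)) ?_ _))
  all_goals
    simp only [TD.nact, Matrix.cons_val_zero, Matrix.cons_val_one, Matrix.cons_val]
    push_cast
    ring

theorem TD.RN.refl (a : Am) : D.RN a a := RN_iff_nact.2 ⟨0, 0, 0, 0, (K3_zero a).symm⟩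

theorem TD.RN.symm (h : D.RN a a') : D.RN a' a := by
  obtain ⟨m₀, m₁, n₀, n₁, rfl⟩ := RN_iff_nact.1 h
  refine RN_iff_nact.2 ⟨-m₀, -m₁, -n₀, -n₁, ?_⟩
  simp only [K3_comp, add_neg_cancel, K3_zero]

theorem TD.RN.trans (h : D.RN a a') (h' : D.RN a' a'') : D.RN a a'' := by
  obtain ⟨m₀, m₁, n₀, n₁, rfl⟩ := RN_iff_nact.1 h
  obtain ⟨m₀', m₁', n₀', n₁', rfl⟩ := RN_iff_nact.1 h'
  exact RN_iff_nact.2 ⟨_, _, _, _, K3_comp ..⟩

theorem TD.RN.amu (h : D.RN a a') : amu a' = amu a := by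
  rw [Cy.amu, Cy.amu, h.2.2.2.2.1, h.2.2.2.2.2, map_mul, map_mul, normSq_ee, normSq_ee, mul_one,
    mul_one]

theorem TD.RN.atq (h : D.RN a a') : atq a' = atq a := by
  rw [Cy.atq, Cy.atq, h.2.2.2.2.1, h.2.2.2.2.2]
  simp only [map_mul, normSq_ee, mul_one]

theorem K3_closed (k : ℤ) : IsClosed {t : ℝ | ∃ m : ℤ, t = k * m} := by
  have h := Int.isClosedEmbedding_coe_real.isClosedMap (range fun m => k * m) (isClosed_discrete _)
  have e : {t : ℝ | ∃ m : ℤ, t = k * m} = ((↑) : ℤ → ℝ) '' range fun m => k * m := by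
    ext t
    constructor
    · rintro ⟨m, rfl⟩
      exact ⟨_, ⟨m, rfl⟩, Int.cast_mul _ _⟩
    · rintro ⟨_, ⟨m, rfl⟩, rfl⟩
      exact ⟨m, Int.cast_mul _ _⟩
  rwa [e]

theorem K3_closed1 : IsClosed {t : ℝ | ∃ m : ℤ, t = m} := by simpa using K3_closed 1

theorem isClosed_RN (D : TD) : IsClosed {p : Am × Am | D.RN p.1 p.2} := by
  have hc : ∀ i, Continuous fun p : Am × Am => p.2.1 i - p.1.1 i := fun i => by fun_prop
  have ht : Continuous fun p : Am × Am => D.tw p.1 p.2 := by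
    unfold TD.tw
    fun_prop
  have he := contDiff_ee.continuous
  refine ((K3_closed D.κ).preimage (hc 0)).inter ((K3_closed1.preimage (hc 1)).inter
    ((K3_closed1.preimage (hc 2)).inter ((K3_closed1.preimage (hc 3)).inter
      (IsClosed.inter (isClosed_eq ?_ ?_) (isClosed_eq ?_ ?_)))))
  all_goals fun_prop

theorem K3_int {u v : ℤ} (h : |(u : ℝ) - v| < 1) : u = v := by
  have h1 : |u - v| < 1 := by exact_mod_cast h
  exact sub_eq_zero.1 (Int.abs_lt_one_iff.1 h1)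

theorem RN_local {X : Type} [TopologicalSpace X] {f g : X → Am} {x : X} (hf : ContinuousAt f x)
    (hg : ContinuousAt g x) (h : ∀ᶠ y in 𝓝 x, D.RN (f y) (g y)) :
    ∃ m₀ m₁ n₀ n₁ : ℤ, ∀ᶠ y in 𝓝 x, g y = D.nact m₀ m₁ n₀ n₁ (f y) := by
  obtain ⟨m₀, m₁, n₀, n₁, h0⟩ := RN_iff_nact.1 h.self_of_nhds
  have hc : ∀ i, ∀ᶠ y in 𝓝 x, |((g y).1 i - (f y).1 i) - ((g x).1 i - (f x).1 i)| < 1 := fun i => by
    have h1 : ContinuousAt (fun y => (g y).1 i - (f y).1 i) x :=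
      ((continuous_apply i).continuousAt.comp hg.fst).sub
        ((continuous_apply i).continuousAt.comp hf.fst)
    exact Metric.tendsto_nhds.1 h1 1 one_pos
  refine ⟨m₀, m₁, n₀, n₁, ?_⟩
  filter_upwards [h, hc 0, hc 1, hc 2, hc 3] with y h1 a0 a1 a2 a3
  obtain ⟨m₀', m₁', n₀', n₁', h2⟩ := RN_iff_nact.1 h1
  rw [h0, h2] at a0 a1 a2 a3
  simp only [TD.nact, Matrix.cons_val_zero, Matrix.cons_val_one, Matrix.cons_val,
    add_sub_cancel_left] at a0 a1 a2 a3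
  have b0 : D.κ * m₀' = D.κ * m₀ := K3_int (by push_cast; exact a0)
  have b0' : (D.κ : ℝ) * m₀' = D.κ * m₀ := by exact_mod_cast b0
  rw [h2, K3_int a1, K3_int a2, K3_int a3]
  simp only [TD.nact, b0']

theorem K3_gz {k n : ℤ} (h0 : z' (0, 0) = z (0, 0) + k) (h1 : z' (0, 1) = z (0, 1) + n) :
    gz z' = ee (k * z (0, 1)) * gz z := by
  rw [gz, h0, h1, gg_add_int]
  rfl

theorem K3_rad {k n : ℤ} (h0 : z' (0, 0) = z (0, 0) + k) (h1 : z' (0, 1) = z (0, 1) + n)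
    (h2 : z' (2, 0) = z (2, 0)) (e : ℝ) : rad e z' = rad e z := by
  rw [rad, K3_gz h0 h1, h2, map_mul, normSq_ee, one_mul]
  rfl

theorem K3_ee2 {r t u v : ℝ} (n : ℤ) (h : r + t = u + v + n) (c d : ℂ) :
    ee r * c * ee t / d = c * ee u / d * ee v := by
  have h1 : ee r * ee t = ee u * ee v := by rw [← ee_add, ← ee_add, ee_eq_iff.2 ⟨n, h⟩]
  linear_combination c / d * h1

theorem K3_kk (hD : D.Ok) : (D.κ : ℝ) * D.κ = D.κ := by
  rcases hD.κ01 with h | h <;> simp [h]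

theorem RN_iff_RS (hD : D.Ok) (hs : s ≠ .f) (hz : z ∈ D.W s) (hz' : z' ∈ D.W s) :
    D.RN (D.io s z) (D.io s z') ↔ RS D.κ (D.As s) z z' := by
  have hk := K3_kk hD
  rw [RS_iff]
  constructor
  · intro h
    have hμ := h.amu
    rw [io_amu hs hz, io_amu hs hz'] at hμ
    obtain ⟨m₀, m₁, n₀, n₁, h1⟩ := RN_iff_nact.1 h
    cases s
    · have a0 : z' (0, 0) = z (0, 0) + D.κ * m₀ := congrArg (fun a : Am => a.1 0) h1
      have a1 : z' (0, 1) = z (0, 1) + n₀ := congrArg (fun a : Am => a.1 1) h1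
      have hr := K3_rad (k := D.κ * m₀) (by push_cast; exact a0) a1 hμ (-1)
      have a2 : rad (-1) z' * ee (-z' (2, 1)) = rad (-1) z * ee (-z (2, 1)) * ee _ :=
        congrArg (fun a : Am => a.2.2) h1
      rw [hr, mul_assoc, ← ee_add, mul_right_inj' (ofReal_ne_zero.2 (rad_pos_m hz.2).ne')] at a2
      obtain ⟨n, a3⟩ := ee_eq_iff.1 a2
      refine ⟨m₀, m₁, n₀, n₁, -n, a0, a1, congrArg (fun a : Am => a.1 2) h1,
        congrArg (fun a : Am => a.1 3) h1, hμ, ?_⟩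
      simp only [TD.io, TD.As, Matrix.cons_val_one, Matrix.cons_val_zero, Matrix.cons_val] at a3 ⊢
      push_cast
      linarith
    · have a0 : z' (0, 0) = z (0, 0) + D.κ * m₀ := congrArg (fun a : Am => a.1 0) h1
      have a1 : z' (0, 1) = z (0, 1) + n₀ := congrArg (fun a : Am => a.1 1) h1
      have hr := K3_rad (k := D.κ * m₀) (by push_cast; exact a0) a1 hμ 1
      have a2 : rad 1 z' * ee (z' (2, 1)) = rad 1 z * ee (z (2, 1)) * ee _ :=
        congrArg (fun a : Am => a.2.1) h1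
      rw [hr, mul_assoc, ← ee_add, mul_right_inj' (ofReal_ne_zero.2 (rad_pos_p hz.2).ne')] at a2
      obtain ⟨n, a3⟩ := ee_eq_iff.1 a2
      refine ⟨m₀, m₁, n₀, n₁, n, a0, a1, congrArg (fun a : Am => a.1 2) h1,
        congrArg (fun a : Am => a.1 3) h1, hμ, ?_⟩
      simp only [TD.io, Matrix.cons_val_one, Matrix.cons_val_zero, Matrix.cons_val] at a3
      simp [TD.As]
      linarith
    · exact absurd rfl hs
  · rintro ⟨m₀, m₁, n₀, n₁, l, a0, a1, a2, a3, a4, a5⟩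
    have hr := K3_rad (k := D.κ * m₀) (by push_cast; exact a0) a1 a4
    have hg := K3_gz (k := D.κ * m₀) (by push_cast; exact a0) a1
    refine RN_iff_nact.2 ⟨m₀, m₁, n₀, n₁, ?_⟩
    cases s
    · refine Prod.ext (K3_vec a0 a1 a2 a3) (Prod.ext ?_ ?_)
      · change gz z' * ee (z' (2, 1)) / rad (-1) z' = gz z * ee (z (2, 1)) / rad (-1) z * ee _
        rw [hg, hr]
        refine K3_ee2 l ?_ _ _
        simp only [TD.io, TD.As, Matrix.cons_val_one, Matrix.cons_val_zero, Matrix.cons_val] at a5 ⊢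
        push_cast
        linear_combination a5 - m₀ * z (0, 1) * hk
      · change rad (-1) z' * ee (-z' (2, 1)) = rad (-1) z * ee (-z (2, 1)) * ee _
        rw [hr]
        refine (K3_ee l ?_ _).symm
        simp only [TD.io, TD.As, Matrix.cons_val_one, Matrix.cons_val_zero, Matrix.cons_val] at a5 ⊢
        linear_combination a5
    · simp [TD.As] at a5
      refine Prod.ext (K3_vec a0 a1 a2 a3) (Prod.ext ?_ ?_)
      · change rad 1 z' * ee (z' (2, 1)) = rad 1 z * ee (z (2, 1)) * ee _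
        rw [hr]
        refine (K3_ee (-l) ?_ _).symm
        simp only [TD.io, Matrix.cons_val_one, Matrix.cons_val_zero, Matrix.cons_val]
        push_cast
        linear_combination -a5
      · change gz z' * ee (-z' (2, 1)) / rad 1 z' = gz z * ee (-z (2, 1)) / rad 1 z * ee _
        rw [hg, hr]
        refine K3_ee2 (-l) ?_ _ _
        simp only [TD.io, Matrix.cons_val_one, Matrix.cons_val_zero, Matrix.cons_val]
        push_cast
        linear_combination -a5 - m₀ * z (0, 1) * hk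
    · exact absurd rfl hs

theorem K3_fact (c m n : ℤ) (z : E6) : uu (fact c m n z) * ww (fact c m n z) = uu z * ww z :=
  K3_uw _ _ _

theorem K3_ee3 {r t u v : ℝ} (h : r + t = u + v) (c : ℂ) : c * ee r * ee t = c * ee u * ee v := by
  rw [mul_assoc c, mul_assoc c, ← ee_add, ← ee_add, h]

theorem K3_cplx (z : E6) : cplx (uu z) (ww z) (z (1, 0)) (z (1, 1)) = z :=
  ext6 rfl rfl rfl rfl rfl rfl

theorem RN_iff_fact (hD : D.Ok) (hz : z ∈ D.W .f) (hz' : z' ∈ D.W .f) :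
    D.RN (D.io .f z) (D.io .f z') ↔ ∃ f ∈ FT (D.A 1 1), f z = z' := by
  constructor
  · intro h
    obtain ⟨m₀, m₁, n₀, n₁, h1⟩ := RN_iff_nact.1 h
    have a0 : PP (uu z' * ww z') = PP (uu z * ww z) + D.κ * m₀ := congrArg (fun a : Am => a.1 0) h1
    have a1 : QQ (uu z' * ww z') = QQ (uu z * ww z) + n₀ := congrArg (fun a : Am => a.1 1) h1
    have a2 : z' (1, 0) = z (1, 0) + m₁ := congrArg (fun a : Am => a.1 2) h1
    have a3 : z' (1, 1) = z (1, 1) + n₁ := congrArg (fun a : Am => a.1 3) h1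
    have p1 := abs_lt.1 (abs_PP hz.1.le)
    have p2 := abs_lt.1 (abs_PP hz'.1.le)
    have q1 := abs_lt.1 (abs_QQ (uu z * ww z))
    have q2 := abs_lt.1 (abs_QQ (uu z' * ww z'))
    have b0 : D.κ * m₀ = 0 := K3_int (abs_lt.2 ⟨by push_cast; linarith, by push_cast; linarith⟩)
    have b0' : (D.κ : ℝ) * m₀ = 0 := by exact_mod_cast b0
    obtain rfl : n₀ = 0 := K3_int (abs_lt.2 ⟨by push_cast; linarith, by push_cast; linarith⟩)
    rw [Int.cast_zero, add_zero] at a1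
    have a4 : uu z' * ee _ = uu z * ee _ * ee _ := congrArg (fun a : Am => a.2.1) h1
    have a5 : ww z' * ee _ = ww z * ee _ * ee _ := congrArg (fun a : Am => a.2.2) h1
    simp only [TD.io, Matrix.cons_val_one, Matrix.cons_val_zero, Matrix.cons_val, b0', a1, a2]
      at a4 a5
    refine ⟨_, ⟨m₁, n₁, rfl⟩, ?_⟩
    rw [← K3_cplx z', fact, a2, a3]
    congr 1
    · refine mul_right_cancel₀ (ee_ne_zero _) (Eq.trans ?_ a4.symm)
      exact K3_ee3 (by ring) _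
    · refine mul_right_cancel₀ (ee_ne_zero _) (Eq.trans ?_ a5.symm)
      exact K3_ee3 (by ring) _
  · rintro ⟨_, ⟨m, n, rfl⟩, rfl⟩
    refine RN_iff_nact.2 ⟨0, m, 0, n, ?_⟩
    simp only [TD.io, TD.nact, K3_fact, Matrix.cons_val_one, Matrix.cons_val_zero, Matrix.cons_val,
      Int.cast_zero, mul_zero, add_zero, zero_mul, zero_add, zero_sub]
    refine Prod.ext rfl (Prod.ext ?_ ?_)
    · change uu z * ee _ * ee (-(_ * (z (1, 0) + m) * _)) = uu z * ee _ * ee _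
      exact K3_ee3 (by ring) _
    · change ww z * ee _ * ee (_ * (z (1, 0) + m) * _) = ww z * ee _ * ee _
      exact K3_ee3 (by ring) _

theorem hact_maps (hD : D.Ok) (hs : s ≠ .f) {f : E6 → E6} (hf : f ∈ HT D.κ (D.As s)) :
    MapsTo f (D.W s) (D.W s) := by
  obtain ⟨m₀, m₁, n₀, n₁, l, rfl⟩ := hf
  intro z hz
  have hg : gz (hact (D.As s) (D.κ * m₀) m₁ n₀ n₁ l z) = _ := K3_gz rfl rfl
  have hd : D.dom (z (0, 0)) (z (2, 0)) → D.dom (z (0, 0) + (D.κ * m₀ : ℤ)) (z (2, 0)) := fun h =>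
    ⟨fun h0 => by simpa [h0] using h.1 h0, h.2⟩
  cases s
  · exact ⟨hd hz.1, hz.2.imp_left fun h => hg ▸ mul_ne_zero (ee_ne_zero _) h⟩
  · exact ⟨hd hz.1, hz.2.imp_left fun h => hg ▸ mul_ne_zero (ee_ne_zero _) h⟩
  · exact absurd rfl hs

theorem fact_maps {f : E6 → E6} {c : ℤ} (hf : f ∈ FT c) : MapsTo f (D.W .f) (D.W .f) := by
  obtain ⟨m, n, rfl⟩ := hf
  intro z hz
  have h : mF (fact c m n z) = mF z := by
    change normSq (uu z * ee _) - normSq (ww z * ee _) = _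
    rw [map_mul, map_mul, normSq_ee, normSq_ee, mul_one, mul_one]
    rfl
  exact ⟨K3_fact c m n z ▸ hz.1, h ▸ hz.2⟩

theorem contDiff_fact (c m n : ℤ) : ContDiff ℝ ∞ (fact c m n) := by
  have h : ContDiff ℝ ∞ fun z : E6 => (m : ℝ) * c * z (1, 1) :=
    contDiff_const.mul (contDiff_apply ℝ ℝ _)
  have h1 := K3_cd_uu.mul (contDiff_ee.comp h.neg)
  have h2 := K3_cd_ww.mul (contDiff_ee.comp h)
  refine contDiff_pi.2 fun ⟨i, j⟩ => ?_
  fin_cases i <;> fin_cases j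
  exacts [reCLM.contDiff.comp h1, imCLM.contDiff.comp h1,
    (contDiff_apply ℝ ℝ _).add contDiff_const, (contDiff_apply ℝ ℝ _).add contDiff_const,
    reCLM.contDiff.comp h2, imCLM.contDiff.comp h2]


end Pool.Agent.Work.MP_bf98aa_gt.Cy
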