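import Pool.Agent.Work.MP_bf98aa_gt.Cy.K3

/-!
The atlas of a kink; related points.

PLAN. Local inverses of `io s` at a point `a` of the hypersurface: for `m`, `j b = mk p q x y (amu b) (G b)` with `b.W = ‖b.W‖ * ee (-G b)` (`ee_lift`); for `f`,
`j b = cplx (U * ee (A 1 0 x q)) (W * ee (-(A 1 0 x q))) x y` (`PQ_gg`). `loc`: compose `io s`, `nact`, `j`. `inj`: near a point the integers vanish (for `κ = 0` the map `nact` does
not depend on `m₀`). `clo`: `isClosed_RN` and continuity of `io`.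
-/

set_option autoImplicit false

open scoped Manifold ContDiff Topology
open Set Complex

namespace Pool.Agent.Work.MP_bf98aa_gt.Cy

open Pool.Agent.Work.MP_bf98aa_gt.Th

variable {D : TD} {s s' : K3} {z z' : E6}

/-- The hypersurface. -/
def K4_H (b : Am) : Prop := b.2.1 * b.2.2 = gg (b.1 0) (b.1 1)

/-- The point of the charts `m`, `p` over a point of the hypersurface. -/
def K4_pt (b : Am) (t : ℝ) : E6 := Cy.mk (b.1 0) (b.1 1) (b.1 2) (b.1 3) (amu b) t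

/-- The point of the chart `f` over a point of the hypersurface. -/
noncomputable def K4_pf (D : TD) (b : Am) : E6 :=
  cplx (b.2.1 * ee (D.A 1 0 * b.1 2 * b.1 1)) (b.2.2 * ee (-(D.A 1 0 * b.1 2 * b.1 1))) (b.1 2)
    (b.1 3)

theorem K4_vec (v : Fin 4 → ℝ) : ![v 0, v 1, v 2, v 3] = v := by
  funext i
  fin_cases i <;> rfl

theorem K4_gz {b : Am} (h : K4_H b) (t : ℝ) : gz (K4_pt b t) = b.2.1 * b.2.2 := h.symm

theorem K4_rad {b : Am} (h : K4_H b) (t : ℝ) :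
    rad 1 (K4_pt b t) = ‖b.2.1‖ ∧ rad (-1) (K4_pt b t) = ‖b.2.2‖ := by
  have e : r0 (normSq (gz (K4_pt b t))) (K4_pt b t (2, 0)) = normSq b.2.1 + normSq b.2.2 := by
    rw [K4_gz h]
    exact r0_am b
  have e' : K4_pt b t (2, 0) = normSq b.2.1 - normSq b.2.2 := rfl
  constructor <;> rw [rad, e, e', Complex.norm_def] <;> congr 1 <;> ring

theorem K4_m {b : Am} (h : K4_H b) (h0 : b.2.2 ≠ 0) {t : ℝ} (ht : b.2.2 = ‖b.2.2‖ * ee (-t)) :
    D.io .m (K4_pt b t) = b := by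
  have n : (‖b.2.2‖ : ℂ) ≠ 0 := by simpa using h0
  refine Prod.ext (K4_vec b.1) (Prod.ext ?_ ?_)
  · show gz (K4_pt b t) * ee t / rad (-1) (K4_pt b t) = b.2.1
    rw [K4_gz h, (K4_rad h t).2, div_eq_iff n]
    linear_combination b.2.1 * ee t * ht + b.2.1 * ‖b.2.2‖ * ee_mul_neg t
  · show rad (-1) (K4_pt b t) * ee (-t) = b.2.2
    rw [(K4_rad h t).2, ← ht]

theorem K4_p {b : Am} (h : K4_H b) (h0 : b.2.1 ≠ 0) {t : ℝ} (ht : b.2.1 = ‖b.2.1‖ * ee t) :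
    D.io .p (K4_pt b t) = b := by
  have n : (‖b.2.1‖ : ℂ) ≠ 0 := by simpa using h0
  refine Prod.ext (K4_vec b.1) (Prod.ext ?_ ?_)
  · show rad 1 (K4_pt b t) * ee t = b.2.1
    rw [(K4_rad h t).1, ← ht]
  · show gz (K4_pt b t) * ee (-t) / rad 1 (K4_pt b t) = b.2.2
    rw [K4_gz h, (K4_rad h t).1, div_eq_iff n]
    linear_combination b.2.2 * ee (-t) * ht + b.2.2 * ‖b.2.1‖ * ee_mul_neg t

theorem K4_uw (b : Am) : uu (K4_pf D b) * ww (K4_pf D b) = b.2.1 * b.2.2 := by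
  show b.2.1 * ee _ * (b.2.2 * ee (-_)) = _
  rw [mul_mul_mul_comm, ee_mul_neg, mul_one]

theorem K4_f {b : Am} (h : K4_H b) (hp : |b.1 0| ≤ 1 / 8) (hq : |b.1 1 - 1 / 2| < 1 / 4) :
    D.io .f (K4_pf D b) = b := by
  have e := PQ_gg hp hq
  rw [← h, ← K4_uw (D := D)] at e
  refine Prod.ext ?_ (Prod.ext ?_ ?_)
  · show ![PP _, QQ _, b.1 2, b.1 3] = b.1
    rw [e.1, e.2, K4_vec]
  · show b.2.1 * ee _ * ee (-(D.A 1 0 * b.1 2 * QQ _)) = b.2.1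
    rw [e.2, mul_assoc, ee_mul_neg, mul_one]
  · show b.2.2 * ee _ * ee (D.A 1 0 * b.1 2 * QQ _) = b.2.2
    rw [e.2, mul_assoc, mul_comm (ee _), ee_mul_neg, mul_one]

theorem K4_exm {b : Am} (h : K4_H b) (hd : D.dom (b.1 0) (amu b)) (h0 : b.2.2 ≠ 0) :
    ∃ t, K4_pt b t ∈ D.W .m ∧ D.io .m (K4_pt b t) = b := by
  obtain ⟨t, ht⟩ := exists_ee b.2.2
  refine ⟨-t, ⟨hd, ?_⟩, K4_m h h0 (by rwa [neg_neg])⟩
  by_cases k : b.2.1 = 0
  · exact Or.inr (show amu b < 0 by simpa [amu, k] using h0)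
  · exact Or.inl (K4_gz h _ ▸ mul_ne_zero k h0)

theorem K4_exp {b : Am} (h : K4_H b) (hd : D.dom (b.1 0) (amu b)) (h0 : b.2.1 ≠ 0) :
    ∃ t, K4_pt b t ∈ D.W .p ∧ D.io .p (K4_pt b t) = b := by
  obtain ⟨t, ht⟩ := exists_ee b.2.1
  refine ⟨t, ⟨hd, ?_⟩, K4_p h h0 ht⟩
  by_cases k : b.2.2 = 0
  · exact Or.inr (show 0 < amu b by simpa [amu, k] using h0)
  · exact Or.inl (K4_gz h _ ▸ mul_ne_zero h0 k)

theorem K4_exf {b : Am} (h : K4_H b) (hd : D.dom (b.1 0) (amu b)) (hp : |b.1 0| ≤ 1 / 8)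
    (hq : |b.1 1 - 1 / 2| < 1 / 4) (hn : atq b < 1 / 128) :
    K4_pf D b ∈ D.W .f ∧ D.io .f (K4_pf D b) = b := by
  have e := K4_f (D := D) h hp hq
  refine ⟨⟨K4_uw (D := D) b ▸ hn, ?_⟩, e⟩
  rw [← io_amu_f (D := D), e]
  exact hd.2

theorem K4_RN (hD : D.Ok) {a b : Am} (h : D.RN a b) :
    (K4_H a → K4_H b) ∧ (D.dom (a.1 0) (amu a) → D.dom (b.1 0) (amu b)) := by
  have e := h.amu
  obtain ⟨⟨m, hm⟩, ⟨n, hn⟩, -, -, h1, h2⟩ := h
  refine ⟨fun k => ?_, fun k => ⟨fun k0 => ?_, e ▸ k.2⟩⟩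
  · have e1 : (D.κ : ℝ) * (D.κ * m) = (D.κ * m : ℤ) := by
      rcases hD.κ01 with k | k <;> simp [k]
    have e2 : b.1 0 = a.1 0 + (D.κ * m : ℤ) := by
      push_cast
      linarith
    rw [K4_H, h1, h2, mul_mul_mul_comm, ← ee_add, sub_add_cancel, hm, e1, k, e2,
      eq_add_of_sub_eq' hn, gg_add_int, mul_comm]
  · rw [k0, Int.cast_zero, zero_mul, sub_eq_zero] at hm
    exact hm ▸ k.1 k0

theorem K4_exf' (hD : D.Ok) {a : Am} (h : K4_H a) (hd : D.dom (a.1 0) (amu a))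
    (hn : atq a < 1 / 128) : ∃ y ∈ D.W .f, D.RN a (D.io .f y) := by
  obtain ⟨h1, n, h2⟩ := gg_small (p := a.1 0) (q := a.1 1) (by
    rw [← h]
    exact hn.trans (by norm_num))
  have e : (D.κ : ℝ) * (-round (a.1 0) : ℤ) = -round (a.1 0) := by
    rcases hD.κ01 with k | k
    · have k1 := hd.1 k
      have k2 := abs_lt.1 h1
      have k3 : (-1 : ℤ) < round (a.1 0) := by exact_mod_cast (by linarith : (-1 : ℝ) < round (a.1 0))
      have k4 : round (a.1 0) < (1 : ℤ) := by exact_mod_cast (by linarith : round (a.1 0) < (1 : ℝ))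
      simp [show round (a.1 0) = 0 by omega]
    · simp [k]
  have r : D.RN a (D.nact (-round (a.1 0)) 0 (-n) 0 a) := RN_iff_nact.2 ⟨_, _, _, _, rfl⟩
  have k := K4_exf ((K4_RN hD r).1 h) ((K4_RN hD r).2 hd)
    (show |a.1 0 + D.κ * (-round (a.1 0) : ℤ)| ≤ 1 / 8 by rw [e]; exact h1.le)
    (show |a.1 1 + (-n : ℤ) - 1 / 2| < 1 / 4 by rw [Int.cast_neg]; exact h2) (r.atq ▸ hn)
  exact ⟨_, k.1, k.2.symm ▸ r⟩

theorem K4_W (hz : z ∈ D.W .m) : (D.io .m z).2.2 ≠ 0 :=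
  mul_ne_zero (ofReal_ne_zero.2 (rad_pos_m hz.2).ne') (ee_ne_zero _)

theorem K4_U (hz : z ∈ D.W .p) : (D.io .p z).2.1 ≠ 0 :=
  mul_ne_zero (ofReal_ne_zero.2 (rad_pos_p hz.2).ne') (ee_ne_zero _)

theorem K4_setF (hs : s ≠ .f) (hz : z ∈ D.W s) (t : ℝ) : K4_pt (D.io s z) t = setF t z := by
  have e := io_amu hs hz
  cases s
  · exact ext6 rfl rfl rfl rfl e rfl
  · exact ext6 rfl rfl rfl rfl e rfl
  · exact absurd rfl hs

theorem K4_mk {X : Type} [NormedAddCommGroup X] [NormedSpace ℝ X] {a b c d e f : X → ℝ} {x : X}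
    (ha : ContDiffAt ℝ ∞ a x) (hb : ContDiffAt ℝ ∞ b x) (hc : ContDiffAt ℝ ∞ c x)
    (hd : ContDiffAt ℝ ∞ d x) (he : ContDiffAt ℝ ∞ e x) (hf : ContDiffAt ℝ ∞ f x) :
    ContDiffAt ℝ ∞ (fun y => Cy.mk (a y) (b y) (c y) (d y) (e y) (f y)) x :=
  contDiffAt_pi.2 fun ⟨i, j⟩ => by
    fin_cases i <;> fin_cases j <;> assumption

theorem K4_pt_sm {G : Am → ℝ} {a : Am} (h : ContDiffAt ℝ ∞ G a) :
    ContDiffAt ℝ ∞ (fun b => K4_pt b (G b)) a := by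
  refine K4_mk (by fun_prop) (by fun_prop) (by fun_prop) (by fun_prop) ?_ h
  unfold amu
  simp only [normSq_eq_norm_sq]
  exact (ContDiffAt.norm_sq ℝ (by fun_prop)).sub (ContDiffAt.norm_sq ℝ (by fun_prop))

theorem K4_ee {r : ℝ} (h : 0 < r) (t : ℝ) : r * ee t = (‖r * ee t‖ : ℝ) * ee t := by
  rw [norm_mul, norm_ee, mul_one, norm_real, Real.norm_of_nonneg h.le]

theorem K4_int {a b : ℝ} {n : ℤ} (h : dist a b < 1) (e : b = a + n) : n = 0 := by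
  rw [e, dist_self_add_right, Real.norm_eq_abs, ← Int.cast_abs] at h
  exact Int.abs_lt_one_iff.1 (by exact_mod_cast h)

theorem io_inv (hD : D.Ok) (hz : z ∈ D.W s) :
    ∃ j : Am → E6, ContDiffAt ℝ ∞ j (D.io s z) ∧ j (D.io s z) = z ∧ ∀ᶠ b in 𝓝 (D.io s z),
      b.2.1 * b.2.2 = gg (b.1 0) (b.1 1) → D.io s (j b) = b := by
  have ca : ∀ {f : Am → ℂ}, Continuous f → f (D.io s z) ≠ 0 → ∀ᶠ b in 𝓝 (D.io s z), f b ≠ 0 :=
    fun hf k => hf.continuousAt.eventually_ne k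
  cases s
  · obtain ⟨G, h1, h2, h3⟩ := ee_lift (c := fun b : Am => b.2.2) (by fun_prop) (K4_W hz)
      (K4_ee (rad_pos_m hz.2) _)
    refine ⟨fun b => K4_pt b (-G b), K4_pt_sm h1.neg, ?_, ?_⟩
    · simp only [h2, neg_neg, K4_setF (by simp) hz, setF, Function.update_eq_self]
    · filter_upwards [h3, ca continuous_snd.snd (K4_W hz)] with b k1 k2 k3
      exact K4_m k3 k2 (by rwa [neg_neg])
  · obtain ⟨G, h1, h2, h3⟩ := ee_lift (c := fun b : Am => b.2.1) (by fun_prop) (K4_U hz)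
      (K4_ee (rad_pos_p hz.2) _)
    refine ⟨fun b => K4_pt b (G b), K4_pt_sm h1, ?_, ?_⟩
    · simp only [h2, K4_setF (by simp) hz, setF, Function.update_eq_self]
    · filter_upwards [h3, ca continuous_snd.fst (K4_U hz)] with b k1 k2 k3
      exact K4_p k3 k2 k1
  · have h1 : ContDiff ℝ ∞ fun b : Am => b.2.1 * ee (D.A 1 0 * b.1 2 * b.1 1) :=
      ContDiff.mul (by fun_prop) (contDiff_ee.comp (by fun_prop))
    have h2 : ContDiff ℝ ∞ fun b : Am => b.2.2 * ee (-(D.A 1 0 * b.1 2 * b.1 1)) :=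
      ContDiff.mul (by fun_prop) (contDiff_ee.comp (by fun_prop))
    refine ⟨K4_pf D, K4_mk (reCLM.contDiff.comp h1).contDiffAt (imCLM.contDiff.comp h1).contDiffAt
      (by fun_prop) (by fun_prop) (reCLM.contDiff.comp h2).contDiffAt
      (imCLM.contDiff.comp h2).contDiffAt, ?_, ?_⟩
    · show cplx (uu z * ee (-_) * ee _) (ww z * ee _ * ee (-_)) (z (1, 0)) (z (1, 1)) = z
      rw [mul_assoc (uu z), mul_comm (ee (-_)), mul_assoc (ww z)]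
      erw [ee_mul_neg]
      rw [mul_one, mul_one]
      exact ext6 rfl rfl rfl rfl rfl rfl
    · have k1 : ∀ᶠ b : Am in 𝓝 (D.io .f z), |b.1 0| < 1 / 8 :=
        ContinuousAt.eventually_lt (by fun_prop) continuousAt_const (abs_PP hz.1.le)
      have k2 : ∀ᶠ b : Am in 𝓝 (D.io .f z), |b.1 1 - 1 / 2| < 1 / 4 :=
        ContinuousAt.eventually_lt (by fun_prop) continuousAt_const (abs_QQ _)
      filter_upwards [k1, k2] with b k1 k2 k3
      exact K4_f k3 k1.le k2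

theorem exists_p (hz : z ∈ D.W .m) (h : gz z ≠ 0) :
    ∃ t, setF t z ∈ D.W .p ∧ D.io .m z = D.io .p (setF t z) := by
  obtain ⟨t, h1, h2⟩ := K4_exp (io_mul hz) (io_dom hz)
    (left_ne_zero_of_mul ((io_mul hz).trans_ne h))
  rw [K4_setF (by simp) hz] at h1 h2
  exact ⟨t, h1, h2.symm⟩

theorem exists_m (hz : z ∈ D.W .p) (h : gz z ≠ 0) :
    ∃ t, setF t z ∈ D.W .m ∧ D.io .p z = D.io .m (setF t z) := by
  obtain ⟨t, h1, h2⟩ := K4_exm (io_mul hz) (io_dom hz)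
    (right_ne_zero_of_mul ((io_mul hz).trans_ne h))
  rw [K4_setF (by simp) hz] at h1 h2
  exact ⟨t, h1, h2.symm⟩

theorem f_exists_m (hz : z ∈ D.W .f) (h : ww z ≠ 0) : ∃ y ∈ D.U0, D.io .m y = D.io .f z := by
  obtain ⟨t, h1, h2⟩ := K4_exm (io_mul hz) (io_dom hz) (mul_ne_zero h (ee_ne_zero _))
  refine ⟨_, ⟨h1, abs_PP hz.1.le, abs_QQ _, ?_⟩, h2⟩
  rw [K4_gz (io_mul hz)]
  exact (io_atq_f z).trans_lt hz.1

theorem f_exists_p (hz : z ∈ D.W .f) (h : uu z ≠ 0) :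
    ∃ y ∈ D.W .p, |y (0, 0)| < 1 / 8 ∧ D.io .p y = D.io .f z := by
  obtain ⟨t, h1, h2⟩ := K4_exp (io_mul hz) (io_dom hz) (mul_ne_zero h (ee_ne_zero _))
  exact ⟨_, h1, abs_PP hz.1.le, h2⟩

theorem U0_exists_f (hz : z ∈ D.U0) : ∃ y ∈ D.W .f, ww y ≠ 0 ∧ D.io .m z = D.io .f y := by
  have k := K4_exf (io_mul hz.1) (io_dom hz.1) hz.2.1.le hz.2.2.1
    ((io_atq (by simp) hz.1).trans_lt hz.2.2.2)
  exact ⟨_, k.1, mul_ne_zero (K4_W hz.1) (ee_ne_zero _), k.2.symm⟩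

theorem exists_f (hD : D.Ok) (hs : s ≠ .f) (hz : z ∈ D.W s) (h : normSq (gz z) < 1 / 128) :
    ∃ y ∈ D.W .f, D.RN (D.io s z) (D.io .f y) :=
  K4_exf' hD (io_mul hz) (io_dom hz) ((io_atq hs hz).trans_lt h)

theorem ww_ne (hz : z ∈ D.W .m) (h : D.RN (D.io .m z) (D.io .f z')) : ww z' ≠ 0 :=
  left_ne_zero_of_mul (h.2.2.2.2.2.trans_ne (mul_ne_zero (K4_W hz) (ee_ne_zero _)))

theorem uu_ne (hz : z ∈ D.W .p) (h : D.RN (D.io .p z) (D.io .f z')) : uu z' ≠ 0 :=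
  left_ne_zero_of_mul (h.2.2.2.2.1.trans_ne (mul_ne_zero (K4_U hz) (ee_ne_zero _)))

theorem gz_ne (hD : D.Ok) (hz : z ∈ D.W .m) (hz' : z' ∈ D.W .p)
    (h : D.RN (D.io .m z) (D.io .p z')) : gz z ≠ 0 ∧ gz z' ≠ 0 :=
  ⟨(io_mul hz).symm.trans_ne (mul_ne_zero
      (left_ne_zero_of_mul (h.2.2.2.2.1.symm.trans_ne (K4_U hz'))) (K4_W hz)),
    (io_mul hz').symm.trans_ne (mul_ne_zero (K4_U hz')
      (h.2.2.2.2.2.trans_ne (mul_ne_zero (K4_W hz) (ee_ne_zero _))))⟩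

theorem K4_loc (hD : D.Ok) {a : Am} (hz : z ∈ D.W s) (h : D.RN a (D.io s z)) :
    ∃ j : Am → E6, ContDiffAt ℝ ∞ j a ∧ j a = z ∧
      ∀ᶠ b in 𝓝 a, K4_H b → D.RN b (D.io s (j b)) := by
  obtain ⟨m₀, m₁, n₀, n₁, e⟩ := RN_iff_nact.1 h
  obtain ⟨j, h1, h2, h3⟩ := io_inv hD hz
  have c := (D.contDiff_nact m₀ m₁ n₀ n₁).contDiffAt (x := a)
  rw [e] at h1 h2 h3
  refine ⟨fun b => j (D.nact m₀ m₁ n₀ n₁ b), h1.comp a c, h2, ?_⟩
  filter_upwards [c.continuousAt.eventually h3] with b k1 k2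
  have r : D.RN b (D.nact m₀ m₁ n₀ n₁ b) := RN_iff_nact.2 ⟨_, _, _, _, rfl⟩
  rwa [k1 ((K4_RN hD r).1 k2)]

theorem K4_inj (hD : D.Ok) (hz : z ∈ D.W s) (hz' : z' ∈ D.W s) (hd : dist z z' < 1)
    (h : D.RN (D.io s z) (D.io s z')) : z = z' := by
  have d := fun i => (dist_le_pi_dist z z' i).trans_lt hd
  by_cases hs : s = .f
  · subst hs
    obtain ⟨_, ⟨m, n, rfl⟩, rfl⟩ := (RN_iff_fact hD hz hz').1 h
    obtain rfl := K4_int (d (1, 0)) (n := m) rfl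
    obtain rfl := K4_int (d (1, 1)) (n := n) rfl
    simp only [fact, Int.cast_zero, zero_mul, neg_zero, ee_zero, mul_one, add_zero]
    exact ext6 rfl rfl rfl rfl rfl rfl
  · obtain ⟨m₀, m₁, n₀, n₁, l, h1, h2, h3, h4, h5, h6⟩ := RS_iff.1 ((RN_iff_RS hD hs hz hz').1 h)
    rw [← Int.cast_mul] at h1 h6
    generalize D.κ * m₀ = m at h1 h6
    obtain rfl := K4_int (d _) h1
    obtain rfl := K4_int (d _) h2
    obtain rfl := K4_int (d _) h3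
    obtain rfl := K4_int (d _) h4
    simp only [Int.cast_zero, zero_mul, add_zero, sub_zero] at h1 h2 h3 h4 h6
    rw [K4_int (d _) h6, Int.cast_zero, add_zero] at h6
    exact (ext6 h1 h2 h3 h4 h5 h6).symm

theorem TD.Ok.pre (hD : D.Ok) : D.atl.Pre := by
  refine ⟨D.isOpen_W, fun h => ⟨h.1, h.2.1⟩, fun h => ⟨h, h, .refl _⟩,
    fun h => ⟨h.2.1, h.1, h.2.2.symm⟩, fun h h' => ⟨h.1, h'.2.1, h.2.2.trans h'.2.2⟩,
    fun {i x j y} h => ?_, fun {i x} _ => ?_, fun {i x j y} hx hy h => ⟨hx, hy, ?_⟩⟩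
  · obtain ⟨J, h1, h2, h3⟩ := K4_loc hD h.2.1 h.2.2
    have c := io_contDiffAt h.1
    have c' := h1.comp x c
    refine ⟨fun z => J (D.io i z), c', h2, ?_⟩
    filter_upwards [c.continuousAt.eventually h3, (D.isOpen_W i).mem_nhds h.1,
      c'.continuousAt.eventually ((D.isOpen_W j).mem_nhds (show J (D.io i x) ∈ _ from h2 ▸ h.2.1))]
      with z k1 k2 k3
    exact ⟨k2, k3, k1 (io_mul k2)⟩
  · have k : ∀ᶠ p : E6 × E6 in 𝓝 (x, x), dist p.1 p.2 < 1 :=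
      ContinuousAt.eventually_lt (by fun_prop) continuousAt_const (by simp)
    exact k.mono fun p k1 k2 => K4_inj hD k2.1 k2.2.1 k1 k2.2.2
  · have c : ContinuousAt (fun p : E6 × E6 => (D.io i p.1, D.io j p.2)) (x, y) :=
      ((io_contDiffAt hx).continuousAt.comp_of_eq continuousAt_fst rfl).prodMk
        ((io_contDiffAt hy).continuousAt.comp_of_eq continuousAt_snd rfl)
    exact (isClosed_RN D).closure_subset
      (c.continuousWithinAt.mem_closure h fun p hp => hp.2.2)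

theorem K4_cpt {C : Set (ℝ × ℝ)} (hC : IsCompact C) : IsCompact {b : Am | K4_H b ∧
    (b.1 0, amu b) ∈ C ∧ b.1 1 ∈ Icc (0 : ℝ) 1 ∧ b.1 2 ∈ Icc (0 : ℝ) 1 ∧ b.1 3 ∈ Icc (0 : ℝ) 1} := by
  have c1 := contDiff_gg.continuous
  have c2 : Continuous amu := by
    unfold amu
    fun_prop
  obtain ⟨M, hM⟩ := (hC.prod (isCompact_Icc (a := (0 : ℝ)) (b := 1))).bddAbove_image
    (f := fun c => |c.1.1| + r0 (normSq (gg c.1.1 c.2)) c.1.2) (Continuous.continuousOn (by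
      have := c1.comp (f := fun c : (ℝ × ℝ) × ℝ => (c.1.1, c.2)) (by fun_prop)
      unfold r0
      exact (by fun_prop : Continuous fun c : (ℝ × ℝ) × ℝ => |c.1.1|).add
        (((by fun_prop : Continuous fun c : (ℝ × ℝ) × ℝ => c.1.2 ^ 2).add
          (continuous_const.mul (continuous_normSq.comp this))).sqrt)))
  refine (isCompact_closedBall (0 : Am) (M + 1)).of_isClosed_subset ?_ fun b hb => ?_
  · exact (isClosed_eq (by fun_prop) (c1.comp (f := fun b : Am => (b.1 0, b.1 1))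
      (by fun_prop))).inter ((hC.isClosed.preimage (by fun_prop)).inter
        ((isClosed_Icc.preimage (by fun_prop)).inter ((isClosed_Icc.preimage (by fun_prop)).inter
          (isClosed_Icc.preimage (by fun_prop)))))
  · obtain ⟨h1, h2, h3, h4, h5⟩ := hb
    have k : |b.1 0| + r0 (normSq (gg (b.1 0) (b.1 1))) (amu b) ≤ M :=
      hM ⟨((b.1 0, amu b), b.1 1), ⟨h2, h3⟩, rfl⟩
    rw [← h1] at k
    erw [r0_am] at k
    rw [normSq_eq_norm_sq, normSq_eq_norm_sq] at k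
    have k0 := abs_nonneg (b.1 0)
    have k1 := sq_nonneg ‖b.2.1‖
    have k2 := sq_nonneg ‖b.2.2‖
    have k3 : ∀ t ∈ Icc (0 : ℝ) 1, |t| ≤ M + 1 := fun t ht =>
      abs_le.2 ⟨by linarith [ht.1], by linarith [ht.2]⟩
    rw [mem_closedBall_zero_iff, Prod.norm_def, Prod.norm_def]
    refine max_le ((pi_norm_le_iff_of_nonneg (by linarith)).2 fun i => ?_)
      (max_le (by nlinarith) (by nlinarith))
    fin_cases i
    · exact (show |b.1 0| ≤ _ by linarith)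
    · exact k3 _ h3
    · exact k3 _ h4
    · exact k3 _ h5

theorem TD.Ok.cpt (hD : D.Ok) {C : Set (ℝ × ℝ)} (hC : IsCompact C) (hd : ∀ c ∈ C, D.dom c.1 c.2) :
    ∃ K : K3 → Set E6, (∀ s, IsCompact (K s) ∧ K s ⊆ D.W s) ∧ ∀ s, ∀ z ∈ D.W s, ∀ m : ℤ,
      ((D.io s z).1 0 + D.κ * m, amu (D.io s z)) ∈ C →
        ∃ s', ∃ y ∈ K s', D.RN (D.io s z) (D.io s' y) := by
  obtain ⟨K, h1, h2⟩ := (K4_cpt hC).induction_on (p := fun S => ∃ K : K3 → Set E6,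
      (∀ s, IsCompact (K s) ∧ K s ⊆ D.W s) ∧ ∀ b ∈ S, K4_H b → ∃ s, ∃ y ∈ K s, D.RN b (D.io s y))
    ⟨fun _ => ∅, fun _ => ⟨isCompact_empty, empty_subset _⟩, fun _ h => h.elim⟩
    (fun _ _ h ⟨K, h1, h2⟩ => ⟨K, h1, fun b hb => h2 b (h hb)⟩)
    (fun _ _ ⟨K, h1, h2⟩ ⟨K', h3, h4⟩ => ⟨fun s => K s ∪ K' s,
      fun s => ⟨(h1 s).1.union (h3 s).1, union_subset (h1 s).2 (h3 s).2⟩, fun b hb k => by
        rcases hb with hb | hb
        · obtain ⟨s, y, k1, k2⟩ := h2 b hb k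
          exact ⟨s, y, Or.inl k1, k2⟩
        · obtain ⟨s, y, k1, k2⟩ := h4 b hb k
          exact ⟨s, y, Or.inr k1, k2⟩⟩)
    fun a ha => by
      have d := hd _ ha.2.1
      obtain ⟨s, y, hy, r⟩ : ∃ s, ∃ y ∈ D.W s, D.RN a (D.io s y) := by
        by_cases k : a.2.2 = 0
        · exact ⟨.f, K4_exf' hD ha.1 d (by simp [atq, k])⟩
        · obtain ⟨t, k1, k2⟩ := K4_exm ha.1 d k
          exact ⟨.m, _, k1, k2.symm ▸ .refl _⟩
      obtain ⟨j, h1, rfl, h3⟩ := K4_loc hD hy r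
      obtain ⟨K, k1, k2, k3⟩ := exists_compact_subset (D.isOpen_W s) hy
      refine ⟨_, mem_nhdsWithin_of_mem_nhds (h3.and (h1.continuousAt.eventually
        (mem_interior_iff_mem_nhds.1 k2))), Function.update (fun _ => ∅) s K, fun s' => ?_,
        fun b hb k => ⟨s, j b, by rw [Function.update_self]; exact hb.2, hb.1 k⟩⟩
      rcases eq_or_ne s' s with rfl | k
      · simpa using ⟨k1, k3⟩
      · simp [k]
  refine ⟨K, h1, fun s z hz m hm => ?_⟩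
  have r : D.RN (D.io s z) (D.nact m (-⌊(D.io s z).1 2⌋) (-⌊(D.io s z).1 1⌋) (-⌊(D.io s z).1 3⌋)
      (D.io s z)) := RN_iff_nact.2 ⟨_, _, _, _, rfl⟩
  have f : ∀ t : ℝ, t + (-⌊t⌋ : ℤ) ∈ Icc (0 : ℝ) 1 := fun t => by
    rw [Int.cast_neg]
    exact ⟨Int.fract_nonneg t, (Int.fract_lt_one t).le⟩
  have k := (K4_RN hD r).1 (io_mul hz)
  obtain ⟨s', y, k1, k2⟩ := h2 _ ⟨k, by rw [r.amu]; exact hm, f _, f _, f _⟩ k
  exact ⟨s', y, k1, r.trans k2⟩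


end Pool.Agent.Work.MP_bf98aa_gt.Cy
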