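import Pool.Agent.Work.MP_bf98aa_gt.Cy.G10b
import Pool.Agent.Work.MP_bf98aa_gt.Cy.G4

-- merged part: Pool.Agent.Work.MP_bf98aa_gt.Cy.G10c
section
/-!
The projection to decomposable forms.

PLAN. `th` is linear in `(ρ, σ)`. `th_det`: `Matrix.det_fin_three`, `fin_cases j`. `agr_iff`: `update fr j u` is a permutation of `![fr a, fr b, u]` (`map_swap`); conversely expand the vertical vectors
`a = ∑ i, a (i, 1) • fr i` and compare real and imaginary parts of `th_apply`. `proj_spec`: `thN ρ σ = ∑ (t k * ρ k fr / ρ fr) • thN (ρ k) (σ k)` is a convex combination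
(`Convex.sum_mem` over the `k` with `t k ≠ 0`, `tame_th`, `convex_tame`), then `tame_det`, `th_det`, `agr_iff`. `proj_uniq`: `Agr` gives equal values on `fr` and equal `th`; `tame_th`.
`proj_cont`: `contDiffAt_alt_iff` with `n = 0` (`contDiffAt_zero`... or prove a continuity version from `FBasic_expand`), everything is polynomial in the values and `(ρ fr)⁻¹`.
-/

set_option autoImplicit false

open scoped Manifold ContDiff Topology
open Set

namespace Pool.Agent.Work.MP_bf98aa_gt.Cy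

open Pool.Agent.Work.MP_bf98aa_gt.Th

variable {η : Alt E6 2} {ρ σ ρ' σ' : Alt E6 3} {S : CF}

theorem G10c_upd (h : NormS S) (u : E6) (j : Fin 3) : detC S (Function.update fr j u) = S u j := by
  fin_cases j <;> simp [detC, Matrix.det_fin_three, h 0, h 1, h 2]

theorem G10c_s1 (α : Alt E6 3) (a b c : E6) : α ![a, b, c] = -α ![b, a, c] := by
  rw [← α.coe_toAlternatingMap, ← α.toAlternatingMap.map_swap _ (show (0 : Fin 3) ≠ 1 by decide)]
  exact congrArg α (funext fun i => by fin_cases i <;> rfl)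

theorem G10c_s2 (α : Alt E6 3) (a b c : E6) : α ![a, b, c] = -α ![a, c, b] := by
  rw [← α.coe_toAlternatingMap, ← α.toAlternatingMap.map_swap _ (show (1 : Fin 3) ≠ 2 by decide)]
  exact congrArg α (funext fun i => by fin_cases i <;> rfl)

theorem G10c_u (α : Alt E6 3) (u : E6) : α (Function.update fr 0 u) = α ![fr 1, fr 2, u] ∧
    α (Function.update fr 1 u) = -α ![fr 0, fr 2, u] ∧
      α (Function.update fr 2 u) = α ![fr 0, fr 1, u] := by
  refine ⟨?_, ?_, congrArg α (funext fun i => by fin_cases i <;> rfl)⟩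
  · rw [G10c_s2, ← G10c_s1]
    exact congrArg α (funext fun i => by fin_cases i <;> rfl)
  · rw [← G10c_s2]
    exact congrArg α (funext fun i => by fin_cases i <;> rfl)

theorem G10c_vert (j : Fin 3) : Vert (fr j) := fun i => by simp [fr, bv]

theorem G10c_to (h : Agr ρ ρ') (u : E6) (j : Fin 3) :
    ρ (Function.update fr j u) = ρ' (Function.update fr j u) := by
  obtain ⟨h0, h1, h2⟩ := G10c_u ρ u
  obtain ⟨k0, k1, k2⟩ := G10c_u ρ' u
  fin_cases j
  · exact h0.trans ((h _ _ _ (G10c_vert _) (G10c_vert _)).trans k0.symm)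
  · exact h1.trans ((congrArg Neg.neg (h _ _ _ (G10c_vert _) (G10c_vert _))).trans k1.symm)
  · exact h2.trans ((h _ _ _ (G10c_vert _) (G10c_vert _)).trans k2.symm)

theorem G10c_exp (α : Alt E6 3) {a : E6} (ha : Vert a) (b c : E6) : α ![a, b, c] =
    a (0, 1) * α ![fr 0, b, c] + a (1, 1) * α ![fr 1, b, c] + a (2, 1) * α ![fr 2, b, c] := by
  conv_lhs => rw [show a = a (0, 1) • fr 0 + a (1, 1) • fr 1 + a (2, 1) • fr 2 from
    ext6 (by simp [fr, bv, ha 0]) (by simp [fr, bv]) (by simp [fr, bv, ha 1]) (by simp [fr, bv])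
      (by simp [fr, bv, ha 2]) (by simp [fr, bv])]
  simp only [α.vecCons_add, α.vecCons_smul, smul_eq_mul]

theorem G10c_of (h : ∀ u j, ρ (Function.update fr j u) = ρ' (Function.update fr j u)) :
    Agr ρ ρ' := fun a b u ha hb => by
  have z : ∀ (α : Alt E6 3) x, α ![x, x, u] = 0 := fun α x =>
    α.map_eq_zero_of_eq _ (i := 0) (j := 1) rfl (by decide)
  obtain ⟨h0, h1, h2⟩ := G10c_u ρ u
  obtain ⟨k0, k1, k2⟩ := G10c_u ρ' u
  have e0 := h0.symm.trans ((h u 0).trans k0)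
  have e1 := neg_injective (h1.symm.trans ((h u 1).trans k1))
  have e2 := h2.symm.trans ((h u 2).trans k2)
  have key : ∀ j, ρ ![fr j, b, u] = ρ' ![fr j, b, u] := fun j => by
    rw [G10c_s1 ρ, G10c_s1 ρ', G10c_exp ρ hb, G10c_exp ρ' hb]
    have := G10c_s1 ρ (fr 1) (fr 0) u
    have := G10c_s1 ρ (fr 2) (fr 0) u
    have := G10c_s1 ρ (fr 2) (fr 1) u
    have := G10c_s1 ρ' (fr 1) (fr 0) u
    have := G10c_s1 ρ' (fr 2) (fr 0) u
    have := G10c_s1 ρ' (fr 2) (fr 1) u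
    fin_cases j <;> simp [*]
  rw [G10c_exp ρ ha, G10c_exp ρ' ha, key, key, key]

theorem G10c_cont {X : Type} [NormedAddCommGroup X] [NormedSpace ℝ X] {α : X → Alt E6 3}
    (h : ∀ v, Continuous fun x => α x v) : Continuous α :=
  continuous_iff_continuousAt.2 fun _ => (contDiffAt_alt_iff.2 fun v =>
    (contDiff_zero.2 (h v)).contDiffAt).continuousAt

theorem th_det (h : NormS S) (r : ℝ) :
    th (dre r S) (dim r S) = r • S ∧ dre r S fr = r ∧ dim r S fr = 0 := by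
  have h1 : detC S fr = 1 := by
    rw [← Function.update_eq_self 0 fr, G10c_upd h, h 0]
    simp
  refine ⟨ContinuousLinearMap.ext fun u => funext fun j => ?_, ?_, ?_⟩
  · rw [th_apply, dre_apply, dim_apply, G10c_upd h, mul_comm Complex.I, Complex.re_add_im]
    simp
  · rw [dre_apply, h1]
    simp
  · rw [dim_apply, h1]
    simp

theorem agr_iff : Agr ρ ρ' ∧ Agr σ σ' ↔ th ρ σ = th ρ' σ' := by
  refine ⟨fun h => ContinuousLinearMap.ext fun u => funext fun j => ?_, fun h => ?_⟩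
  · rw [th_apply, th_apply, G10c_to h.1, G10c_to h.2]
  · have h1 := fun u j => (th_apply ρ σ u j).symm.trans
      ((congrFun (DFunLike.congr_fun h u) j).trans (th_apply ρ' σ' u j))
    exact ⟨G10c_of fun u j => by simpa using congrArg Complex.re (h1 u j),
      G10c_of fun u j => by simpa using congrArg Complex.im (h1 u j)⟩

theorem proj_spec (h : Lag η) {κ : Type} (s : Finset κ) (t : κ → ℝ) (a b : κ → Alt E6 3)
    (h0 : ∀ k ∈ s, 0 ≤ t k) (h1 : ∑ k ∈ s, t k = 1)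
    (hT : ∀ k ∈ s, t k ≠ 0 → Tame η (a k) (b k) ∧ b k fr = 0 ∧ 0 < a k fr)
    (hρ : ρ = ∑ k ∈ s, t k • a k) (hσ : σ = ∑ k ∈ s, t k • b k) :
    0 < ρ fr ∧ σ fr = 0 ∧ Tame η (pre ρ σ) (pim ρ σ) ∧ Agr (pre ρ σ) ρ ∧ Agr (pim ρ σ) σ := by
  classical
  have e1 : ρ fr = ∑ k ∈ s, t k * a k fr := by
    rw [hρ, ContinuousAlternatingMap.sum_apply]
    rfl
  have e2 : σ fr = 0 := by
    rw [hσ, ContinuousAlternatingMap.sum_apply]
    refine Finset.sum_eq_zero fun k hk => ?_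
    change t k * b k fr = 0
    by_cases h2 : t k = 0
    · rw [h2, zero_mul]
    · rw [(hT k hk h2).2.1, mul_zero]
  have nn : ∀ k ∈ s, 0 ≤ t k * a k fr := fun k hk => by
    by_cases h2 : t k = 0
    · rw [h2, zero_mul]
    · exact mul_nonneg (h0 k hk) (hT k hk h2).2.2.le
  have pos : 0 < ρ fr := by
    obtain ⟨k, hk, h2⟩ := Finset.exists_ne_zero_of_sum_ne_zero (h1 ▸ one_ne_zero : ∑ k ∈ s, t k ≠ 0)
    exact e1 ▸ Finset.sum_pos' nn ⟨k, hk, mul_pos ((h0 k hk).lt_of_ne' h2) (hT k hk h2).2.2⟩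
  have e3 : thN ρ σ = ∑ k ∈ s with t k ≠ 0, ((ρ fr)⁻¹ * (t k * a k fr)) • thN (a k) (b k) := by
    have e4 : th ρ σ = ∑ k ∈ s, t k • th (a k) (b k) := by
      refine ContinuousLinearMap.ext fun u => funext fun j => ?_
      rw [th_apply, hρ, hσ, ContinuousAlternatingMap.sum_apply, ContinuousAlternatingMap.sum_apply,
        sum_apply, Finset.sum_apply, Complex.ofReal_sum, Complex.ofReal_sum,
        Finset.mul_sum, ← Finset.sum_add_distrib]
      refine Finset.sum_congr rfl fun k _ => ?_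
      change ((t k * a k _ : ℝ) : ℂ) + Complex.I * ((t k * b k _ : ℝ) : ℂ) =
        t k • th (a k) (b k) u j
      rw [th_apply, Complex.real_smul]
      push_cast
      ring
    rw [thN, e4, ← Finset.sum_filter_of_ne (p := fun k => t k ≠ 0)
      (fun k _ hk e => hk (by rw [e]; exact zero_smul ℝ (th (a k) (b k)))), Finset.smul_sum]
    refine Finset.sum_congr rfl fun k hk => ?_
    obtain ⟨hk, h2⟩ := Finset.mem_filter.1 hk
    rw [thN, smul_smul, smul_smul, mul_assoc, mul_inv_cancel_right₀ (hT k hk h2).2.2.ne']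
  have m : thN ρ σ ∈ {S : CF | NormS S ∧ TameS η S} := by
    rw [e3]
    refine (convex_tame h).sum_mem (fun k hk => mul_nonneg (inv_nonneg.2 pos.le)
      (nn k (Finset.mem_filter.1 hk).1)) ?_ fun k hk => ?_
    · rw [← Finset.mul_sum, Finset.sum_filter_of_ne fun k _ hk => left_ne_zero_of_mul hk, ← e1,
        inv_mul_cancel₀ pos.ne']
    · obtain ⟨hk, h2⟩ := Finset.mem_filter.1 hk
      obtain ⟨h3, h4, h5⟩ := hT k hk h2
      exact ⟨(tame_th h3 h4 h5.ne').2.1, (tame_th h3 h4 h5.ne').1⟩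
  refine ⟨pos, e2, tame_det m.2 (Complex.ofReal_ne_zero.2 pos.ne'), agr_iff.2 ?_⟩
  rw [pre, pim, (th_det m.1 _).1, thN, smul_smul, mul_inv_cancel₀ pos.ne', one_smul]

theorem proj_uniq (h : Tame η ρ' σ') (h1 : Agr ρ' ρ) (h2 : Agr σ' σ) (h0 : σ fr = 0)
    (hr : ρ fr ≠ 0) : ρ' = pre ρ σ ∧ σ' = pim ρ σ := by
  have e : ∀ {α β : Alt E6 3}, Agr α β → α fr = β fr := fun h => by
    simpa using G10c_to h (fr 0) 0
  obtain ⟨-, -, h3, h4⟩ := tame_th h ((e h2).trans h0) (e h1 ▸ hr)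
  have h5 : thN ρ' σ' = thN ρ σ := by rw [thN, thN, agr_iff.1 ⟨h1, h2⟩, e h1]
  rw [pre, h5, e h1] at h3
  rw [pim, h5, e h1] at h4
  exact ⟨h3.symm, h4.symm⟩

theorem det_cont : Continuous (fun p : ℂ × CF => dre p.1 p.2) ∧
    Continuous (fun p : ℂ × CF => dim p.1 p.2) := by
  have h : ∀ v, Continuous fun p : ℂ × CF => p.1 * detC p.2 v := fun v =>
    continuous_fst.mul (Continuous.matrix_det (continuous_matrix fun i j =>
      (continuous_apply i).comp (continuous_snd.clm_apply continuous_const)))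
  refine ⟨G10c_cont fun v => ?_, G10c_cont fun v => ?_⟩
  · simp only [dre_apply]
    exact Complex.continuous_re.comp (h v)
  · simp only [dim_apply]
    exact Complex.continuous_im.comp (h v)

theorem proj_cont {p : Alt E6 3 × Alt E6 3} (h : p.1 fr ≠ 0) :
    ContinuousAt (fun p : Alt E6 3 × Alt E6 3 => pre p.1 p.2) p ∧
      ContinuousAt (fun p : Alt E6 3 × Alt E6 3 => pim p.1 p.2) p := by
  have ev : ∀ v, Continuous fun α : Alt E6 3 => α v := fun v =>
    (ContinuousAlternatingMap.apply ℝ E6 ℝ v).continuous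
  have h1 : Continuous fun p : Alt E6 3 × Alt E6 3 => th p.1 p.2 :=
    continuous_clm_apply.2 fun u => continuous_pi fun j => by
      simp only [th_apply]
      exact (Complex.continuous_ofReal.comp ((ev _).comp continuous_fst)).add
        (continuous_const.mul (Complex.continuous_ofReal.comp ((ev _).comp continuous_snd)))
  have h2 : ContinuousAt (fun p : Alt E6 3 × Alt E6 3 => (((p.1 fr : ℝ) : ℂ), thN p.1 p.2)) p :=
    (Complex.continuous_ofReal.comp ((ev _).comp continuous_fst)).continuousAt.prodMk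
      ((((ev fr).comp continuous_fst).continuousAt.inv₀ h).smul h1.continuousAt)
  exact ⟨(det_cont.1.continuousAt.comp h2 :), (det_cont.2.continuousAt.comp h2 :)⟩

end Pool.Agent.Work.MP_bf98aa_gt.Cy
end

-- merged part: Pool.Agent.Work.MP_bf98aa_gt.Cy.G10
section
/-!
Patching of `(3, 0)`-forms: local forms, a partition of unity, and the projection to decomposable
forms at regular points.
-/

set_option autoImplicit false

open scoped Manifold ContDiff Topology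
open Set

namespace Pool.Agent.Work.MP_bf98aa_gt.Cy

open Pool.Agent.Work.MP_bf98aa_gt.Th

variable {M : Type} [TopologicalSpace M] [ChartedSpace E6 M] [IsManifold 𝓘(ℝ, E6) ∞ M]
  {F F' : Type} [NormedAddCommGroup F] [NormedSpace ℝ F] [FiniteDimensional ℝ F]
  [NormedAddCommGroup F'] [NormedSpace ℝ F'] [FiniteDimensional ℝ F'] {k : ℕ}
  {ψ ψ' ψ'' : E6 → M} {U U' U'' V : Set E6} {O O' A B : Set M}

/-- Continuity of a form at a point. -/
def G10_Ct (w : Fo M k) (m : M) : Prop :=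
  ∀ ψ U x, Par ψ U → x ∈ U → ψ x = m → ContinuousAt (pl ψ w) x

theorem G10_ct_of {w : Fo M k} (hP : Par ψ U) {x : E6} (hx : x ∈ U)
    (h : ContinuousAt (pl ψ w) x) : G10_Ct w (ψ x) := by
  intro ψ' U' y hP' hy he
  obtain ⟨f, hf, rfl⟩ := hP.tr hx (hP'.sm y hy) he
  refine ContinuousAt.congr ?_ (hf.pl_ev hP hx w).symm
  exact (continuous_alt_comp.continuousAt (x := (pl ψ w (f y), fderiv ℝ f y))).comp
    (f := fun z => (pl ψ w (f z), fderiv ℝ f z))
    ((h.comp hf.1.continuousAt).prodMk (hf.1.fderiv_right (m := 0) (by simp)).continuousAt)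

theorem G10_ct_on {w : Fo M k} (hP : Par ψ U) {α : Fm E6 k} (he : ∀ x ∈ U, pl ψ w x = α x)
    {x : E6} (hx : x ∈ U) (h : ContinuousAt α x) : G10_Ct w (ψ x) :=
  G10_ct_of hP hx (h.congr (Filter.eventually_of_mem (hP.opn.mem_nhds hx) fun y hy =>
    (he y hy).symm))

theorem G10_congr {w w' : Fo M k} {m : M} (h : G10_Ct w m) (he : ∀ᶠ m' in 𝓝 m, w' m' = w m') :
    G10_Ct w' m := by
  intro ψ U x hP hx hm
  subst hm
  refine (h ψ U x hP hx rfl).congr ?_
  filter_upwards [(hP.continuousOn.continuousAt (hP.opn.mem_nhds hx)).eventually he] with y hy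
  exact (pl_congr' ψ hy).symm

theorem G10_cont {w : Fo M k} (h : ∀ m, G10_Ct w m) : Cont (E := E6) (M := M) w :=
  fun p y hy => (h _ _ _ y (par_chart p) hy rfl).continuousWithinAt

omit [IsManifold 𝓘(ℝ, E6) ∞ M] in
theorem G10_pl_sum {κ : Type} [Fintype κ] (t : κ → M → ℝ) (a : κ → Fo M k) (x : E6) :
    pl ψ (fun m => ∑ j, t j m • a j m) x = ∑ j, t j (ψ x) • pl ψ (a j) x := by
  ext v
  simp [pl]

theorem G10_sum {κ : Type} [Fintype κ] {t : κ → M → ℝ} (ht : ∀ j, Continuous (t j))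
    {a : κ → Fo M k} {m : M} (h : ∀ j, G10_Ct (a j) m ∨ ∀ᶠ m' in 𝓝 m, t j m' = 0) :
    G10_Ct (fun m => ∑ j, t j m • a j m) m := by
  intro ψ U x hP hx hm
  subst hm
  have hc := hP.continuousOn.continuousAt (hP.opn.mem_nhds hx)
  rw [show pl ψ (fun m => ∑ j, t j m • a j m) = fun y => ∑ j, t j (ψ y) • pl ψ (a j) y from
    funext (G10_pl_sum t a)]
  refine tendsto_finsetSum _ fun j _ => ?_
  rcases h j with h | h
  · exact ((ht j).continuousAt.comp hc).smul (h ψ U x hP hx rfl)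
  · refine ContinuousAt.congr (f := fun _ => (0 : Alt E6 k)) continuousAt_const ?_
    filter_upwards [hc.eventually h] with y hy
    rw [hy, zero_smul]

theorem G10_agr {ρ ρ' : Alt E6 3} (h : Agr ρ ρ') {L : E6 →L[ℝ] E6} (hL : VOk L) :
    Agr (ρ.compContinuousLinearMap L) (ρ'.compContinuousLinearMap L) := by
  intro a b u ha hb
  have e : (L ∘ ![a, b, u]) = ![L a, L b, L u] := funext fun i => by fin_cases i <;> rfl
  simp only [ContinuousAlternatingMap.compContinuousLinearMap_apply, e]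
  exact h _ _ _ (hL.1 a ha) (hL.1 b hb)

/-- Tamed, and positive on the vertical frames. -/
def G10_Gd {ι : Type} (η : Fo M 2) (q : ι → E6 → M) (W : ι → Set E6) (a b : Fo M 3) (m : M) :
    Prop :=
  G10_Ct a m ∧ G10_Ct b m ∧ Tame (η m) (a m) (b m) ∧
    ∀ l, ∀ z ∈ W l, q l z = m → pl (q l) b z fr = 0 ∧ 0 < pl (q l) a z fr

section
variable {ι : Type} {η : Fo M 2} {q : ι → E6 → M} {W : ι → Set E6}

theorem G10_vc (hP : ∀ i, Par (q i) (W i)) {l l' : ι} {z z' : E6} (hz : z ∈ W l)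
    (h : VCmp (q l') z' (q l) z) : ∃ L : E6 →L[ℝ] E6, VOk L ∧ ∀ (k : ℕ) (w : Fo M k),
      pl (q l') w z' = (pl (q l) w z).compContinuousLinearMap L := by
  obtain ⟨f, hf, rfl, hV⟩ := h
  exact ⟨_, hV, fun k w => hf.pl ((hP l).sm _ hz) w⟩

theorem G10_all (hP : ∀ i, Par (q i) (W i))
    (hc : ∀ i j, ∀ x ∈ W i, ∀ y ∈ W j, q i x = q j y → VCmp (q i) x (q j) y) {a b : Fo M 3}
    {l : ι} {z : E6} (hz : z ∈ W l) (h : pl (q l) b z fr = 0 ∧ 0 < pl (q l) a z fr) :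
    ∀ l', ∀ z' ∈ W l', q l' z' = q l z → pl (q l') b z' fr = 0 ∧ 0 < pl (q l') a z' fr := by
  intro l' z' hz' he
  obtain ⟨L, hL, e⟩ := G10_vc hP hz (hc l' l z' hz' z hz he)
  rw [e, e, hL.fr_eq, hL.fr_eq]
  exact h

theorem G10_tame_open (hη : SmO η univ) (hP : Par ψ U) {S : E6 → CF} (hS : ContinuousOn S U) :
    IsOpen (U ∩ {x | TameS (pl ψ η x) (S x)}) :=
  ((hη ψ U hP (mapsTo_univ _ _)).continuousOn.prodMk hS).isOpen_inter_preimage hP.opn isOpen_tame

theorem G10_reg (hη : SmO η univ) (hP : ∀ i, Par (q i) (W i))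
    (hnd : ∀ i, ∀ x ∈ W i, ∀ u, (∀ v, pl (q i) η x ![u, v] = 0) → u = 0)
    (hV : ∀ i, ∀ x ∈ W i, ∀ u v, Vert u → Vert v → pl (q i) η x ![u, v] = 0)
    (hc : ∀ i j, ∀ x ∈ W i, ∀ y ∈ W j, q i x = q j y → VCmp (q i) x (q j) y) (m : M) :
    ∃ (O : Set M) (a b : Fo M 3), IsOpen O ∧ (∀ m' ∈ O, ∃ l, ∃ z ∈ W l, q l z = m') ∧
      ((∃ l, ∃ z ∈ W l, q l z = m) → m ∈ O) ∧ ∀ m' ∈ O, G10_Gd η q W a b m' := by
  by_cases hm : ∃ l, ∃ z ∈ W l, q l z = m
  swap
  · exact ⟨∅, 0, 0, isOpen_empty, fun _ h => h.elim, fun h => (hm h).elim, fun _ h => h.elim⟩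
  obtain ⟨l, z, hz, rfl⟩ := hm
  obtain ⟨S, hN, hT⟩ := exists_tame (hnd l z hz) (hV l z hz)
  obtain ⟨χ, -, hχ, -⟩ := (hP l).inv z hz
  let V : Set E6 := (W l ∩ {x | TameS (pl (q l) η x) S}) ∩ interior {y | χ (q l y) = y}
  have hVo : IsOpen V :=
    (G10_tame_open hη (hP l) (S := fun _ => S) continuousOn_const).inter isOpen_interior
  have hVW : V ⊆ W l := fun x hx => hx.1.1
  have hPV := (hP l).mono hVo hVW
  have hd : ∀ c : Alt E6 3, ∃ w : Fo M 3, ∀ x ∈ V, pl (q l) w x = c := fun c => by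
    obtain ⟨w, hw⟩ := desc (ι := Unit) (q := fun _ => q l) (W := fun _ => V) (fun _ => hPV)
      (fun _ _ => c) fun _ _ x hx y hy he => by
        have e : x = y := by
          have h1 := interior_subset hx.2
          have h2 := interior_subset hy.2
          rw [mem_ofPred_eq] at h1 h2
          rw [← h1, ← h2, he]
        subst e
        exact ⟨fun y => y, ⟨contDiffAt_id, Filter.Eventually.of_forall fun _ => rfl⟩, rfl,
          by rw [pb_id]⟩
    exact ⟨w, hw ()⟩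
  obtain ⟨a, ha⟩ := hd (dre (1 : ℝ) S)
  obtain ⟨b, hb⟩ := hd (dim (1 : ℝ) S)
  refine ⟨q l '' V, a, b, (hP l).isOpen_image hVo hVW, ?_,
    fun _ => ⟨z, ⟨⟨hz, hT⟩, mem_interior_iff_mem_nhds.2 hχ⟩, rfl⟩, ?_⟩
  · rintro _ ⟨x, hx, rfl⟩
    exact ⟨l, x, hVW hx, rfl⟩
  · rintro _ ⟨x, hx, rfl⟩
    refine ⟨G10_ct_on hPV ha hx continuousAt_const, G10_ct_on hPV hb hx continuousAt_const,
      Tame.of_comp (hPV.bij hx) ?_, G10_all hP hc (hVW hx) ?_⟩
    · have h := tame_det hx.1.2 (c := (1 : ℝ)) (by simp)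
      rw [← ha x hx, ← hb x hx] at h
      exact h
    · rw [ha x hx, hb x hx, (th_det hN 1).2.1, (th_det hN 1).2.2]
      exact ⟨rfl, one_pos⟩

theorem G10_sing (η : Fo M 2) (hP : ∀ i, Par (q i) (W i))
    (hc : ∀ i j, ∀ x ∈ W i, ∀ y ∈ W j, q i x = q j y → VCmp (q i) x (q j) y) {χ : E6 → M}
    {N : Set E6} {S : E6 → CF} (hP' : Par χ N) (hS : ContinuousOn S N)
    (hinv : ∀ x ∈ N, ∀ y ∈ N, χ x = χ y → ∃ f, Tr χ χ f x ∧ f x = y ∧
      ∀ v, detC ((S y).comp (fderiv ℝ f x)) v = detC (S x) v)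
    (hpos : ∀ x ∈ N, (∃ l, ∃ z ∈ W l, q l z = χ x) → ∃ l, ∃ z ∈ W l, ∃ f,
      Tr (q l) χ f z ∧ f z = x ∧ ∃ r : ℝ, 0 < r ∧
        detC ((S x).comp (fderiv ℝ f z)) (fun j => bv (j, 1)) = r) :
    ∃ a b : Fo M 3, ∀ x ∈ N, TameS (pl χ η x) (S x) → G10_Gd η q W a b (χ x) := by
  have hre : ∀ (S : CF) (L : E6 →L[ℝ] E6) v,
      (dre 1 S).compContinuousLinearMap L v = (detC (S.comp L) v).re := fun S L v => by
    rw [ContinuousAlternatingMap.compContinuousLinearMap_apply, dre_apply, one_mul]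
    rfl
  have him : ∀ (S : CF) (L : E6 →L[ℝ] E6) v,
      (dim 1 S).compContinuousLinearMap L v = (detC (S.comp L) v).im := fun S L v => by
    rw [ContinuousAlternatingMap.compContinuousLinearMap_apply, dim_apply, one_mul]
    rfl
  obtain ⟨a, ha⟩ := desc (ι := Unit) (q := fun _ => χ) (W := fun _ => N) (fun _ => hP')
    (fun _ x => dre 1 (S x)) fun _ _ x hx y hy he => by
      obtain ⟨f, hf, rfl, h⟩ := hinv x hx y hy he
      refine ⟨f, hf, rfl, ?_⟩
      ext v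
      rw [pb, hre, h, dre_apply, one_mul]
  obtain ⟨b, hb⟩ := desc (ι := Unit) (q := fun _ => χ) (W := fun _ => N) (fun _ => hP')
    (fun _ x => dim 1 (S x)) fun _ _ x hx y hy he => by
      obtain ⟨f, hf, rfl, h⟩ := hinv x hx y hy he
      refine ⟨f, hf, rfl, ?_⟩
      ext v
      rw [pb, him, h, dim_apply, one_mul]
  replace ha : ∀ x ∈ N, pl χ a x = dre 1 (S x) := ha ()
  replace hb : ∀ x ∈ N, pl χ b x = dim 1 (S x) := hb ()
  refine ⟨a, b, fun x hx hT => ?_⟩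
  have hSx : ContinuousAt (fun y => ((1 : ℂ), S y)) x :=
    continuousAt_const.prodMk (hS.continuousAt (hP'.opn.mem_nhds hx))
  have c1 : ContinuousAt (fun y => dre 1 (S y)) x :=
    ContinuousAt.comp (f := fun y => ((1 : ℂ), S y)) det_cont.1.continuousAt hSx
  have c2 : ContinuousAt (fun y => dim 1 (S y)) x :=
    ContinuousAt.comp (f := fun y => ((1 : ℂ), S y)) det_cont.2.continuousAt hSx
  refine ⟨G10_ct_on hP' ha hx c1, G10_ct_on hP' hb hx c2, Tame.of_comp (hP'.bij hx) ?_, ?_⟩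
  · have h := tame_det hT (c := 1) one_ne_zero
    rw [← ha x hx, ← hb x hx] at h
    exact h
  · intro l z hz he
    obtain ⟨l₀, z₀, hz₀, f, hf, rfl, r, hr, e⟩ := hpos x hx ⟨l, z, hz, he⟩
    replace e : detC ((S (f z₀)).comp (fderiv ℝ f z₀)) fr = r := e
    refine G10_all hP hc hz₀ ?_ l z hz (he.trans hf.2.self_of_nhds)
    rw [hf.pl (hP'.sm _ hx) a, hf.pl (hP'.sm _ hx) b, pb, pb, ha _ hx, hb _ hx, hre, him, e]
    simpa using hr

end

theorem su3 [T2Space M] [CompactSpace M] {ι ι' : Type} [Finite ι] [Finite ι'] {η : Fo M 2}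
    (hη : SmO η univ) {q : ι → E6 → M} {W : ι → Set E6} {χ : ι' → E6 → M} {N : ι' → Set E6}
    {S : ι' → E6 → E6 →L[ℝ] (Fin 3 → ℂ)} (hP : ∀ i, Par (q i) (W i)) (hP' : ∀ i, Par (χ i) (N i))
    (hnd : ∀ i, ∀ x ∈ W i, ∀ u, (∀ v, pl (q i) η x ![u, v] = 0) → u = 0)
    (hV : ∀ i, ∀ x ∈ W i, ∀ u v, Vert u → Vert v → pl (q i) η x ![u, v] = 0)
    (hc : ∀ i j, ∀ x ∈ W i, ∀ y ∈ W j, q i x = q j y → VCmp (q i) x (q j) y)
    (hS : ∀ i, ContinuousOn (S i) (N i))
    (hinv : ∀ i, ∀ x ∈ N i, ∀ y ∈ N i, χ i x = χ i y → ∃ f, Tr (χ i) (χ i) f x ∧ f x = y ∧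
      ∀ v, detC ((S i y).comp (fderiv ℝ f x)) v = detC (S i x) v)
    (huniq : ∀ i j, i ≠ j → ∀ x ∈ N i, ∀ y ∈ N j, χ i x = χ j y → ∃ l, ∃ z ∈ W l, q l z = χ i x)
    (htame : ∀ m, (∃ l, ∃ z ∈ W l, q l z = m) ∨
      ∃ i, ∃ x ∈ N i, χ i x = m ∧ TameS (pl (χ i) η x) (S i x))
    (hpos : ∀ i, ∀ x ∈ N i, (∃ l, ∃ z ∈ W l, q l z = χ i x) → ∃ l, ∃ z ∈ W l, ∃ f,
      Tr (q l) (χ i) f z ∧ f z = x ∧ ∃ r : ℝ, 0 < r ∧
        detC ((S i x).comp (fderiv ℝ f z)) (fun j => bv (j, 1)) = r) :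
    CalabiYau (E := E6) (M := M) η := by
  classical
  choose O₁ a₁ b₁ hO₁ hR₁ hm₁ hG₁ using G10_reg hη hP hnd hV hc
  choose a₂ b₂ hG₂ using fun i => G10_sing η hP hc (hP' i) (hS i) (hinv i) (hpos i)
  let O : ι' ⊕ M → Set M :=
    Sum.elim (fun i => χ i '' (N i ∩ {x | TameS (pl (χ i) η x) (S i x)})) O₁
  let a : ι' ⊕ M → Fo M 3 := Sum.elim a₂ a₁
  let b : ι' ⊕ M → Fo M 3 := Sum.elim b₂ b₁
  have hO : ∀ j, IsOpen (O j) := by
    rintro (i | m)
    exacts [(hP' i).isOpen_image (G10_tame_open hη (hP' i) (hS i)) inter_subset_left, hO₁ m]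
  have hG : ∀ j, ∀ m ∈ O j, G10_Gd η q W (a j) (b j) m := by
    rintro (i | m)
    · rintro _ ⟨x, hx, rfl⟩
      exact hG₂ i x hx.1 hx.2
    · exact hG₁ m
  obtain ⟨s, hs⟩ := isCompact_univ.elim_finite_subcover O hO fun m _ => by
    rcases htame m with h | ⟨i, x, hx, rfl, h⟩
    · exact mem_iUnion.2 ⟨Sum.inr m, hm₁ m h⟩
    · exact mem_iUnion.2 ⟨Sum.inl i, x, ⟨hx, h⟩, rfl⟩
  obtain ⟨t, ht⟩ := PartitionOfUnity.exists_isSubordinate (ι := s) isClosed_univ
    (fun j => O j.1) (fun j => hO j.1) fun m hm => by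
      obtain ⟨j, hj, h⟩ := mem_iUnion₂.1 (hs hm)
      exact mem_iUnion.2 ⟨⟨j, hj⟩, h⟩
  have t1 : ∀ m, ∑ j, t j m = 1 := fun m => by
    rw [← finsum_eq_sum_of_fintype]
    exact t.sum_eq_one (mem_univ m)
  have t0 : ∀ (j : s) m, m ∉ O j.1 → ∀ᶠ m' in 𝓝 m, t j m' = 0 := fun j m h =>
    notMem_tsupport_iff_eventuallyEq.1 fun h' => h (ht j h')
  have tO : ∀ (j : s) m, t j m ≠ 0 → m ∈ O j.1 := fun j m h =>
    by_contra fun h' => h (t0 j m h').self_of_nhds
  let A : Fo M 3 := fun m => ∑ j : s, t j m • a j.1 m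
  let B : Fo M 3 := fun m => ∑ j : s, t j m • b j.1 m
  have cA : ∀ m, G10_Ct A m := fun m => G10_sum (fun j => (t j).continuous) fun j =>
    (em (m ∈ O j.1)).imp (fun h => (hG _ m h).1) (t0 j m)
  have cB : ∀ m, G10_Ct B m := fun m => G10_sum (fun j => (t j).continuous) fun j =>
    (em (m ∈ O j.1)).imp (fun h => (hG _ m h).2.1) (t0 j m)
  have hsing : ∀ m, (¬ ∃ l, ∃ z ∈ W l, q l z = m) → ∀ᶠ m' in 𝓝 m, Tame (η m') (A m') (B m') := by
    intro m hm
    obtain ⟨i, x, hx, rfl, hT⟩ := (htame m).resolve_left hm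
    have h1 : ∀ j : s, ∀ᶠ m' in 𝓝 (χ i x), j.1 = Sum.inl i ∨ t j m' = 0 := by
      rintro ⟨j, hj⟩
      by_cases e : j = Sum.inl i
      · exact Filter.Eventually.of_forall fun _ => Or.inl e
      refine (t0 ⟨j, hj⟩ _ fun h => hm ?_).mono fun _ h => Or.inr h
      rcases j with j | m
      · obtain ⟨y, hy, e'⟩ := h
        exact huniq i j (fun k => e (k ▸ rfl)) x hx y hy.1 e'.symm
      · exact hR₁ m _ h
    filter_upwards [Filter.eventually_all.2 h1, (hO (Sum.inl i)).mem_nhds ⟨x, ⟨hx, hT⟩, rfl⟩]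
      with m' h2 h3
    have e : ∀ c : ι' ⊕ M → Fo M 3, ∑ j : s, t j m' • c j.1 m' = c (Sum.inl i) m' := fun c => by
      rw [← one_smul ℝ (c (Sum.inl i) m'), ← t1 m', Finset.sum_smul]
      refine Finset.sum_congr rfl fun j _ => ?_
      rcases h2 j with h | h
      · rw [h]
      · rw [h, zero_smul, zero_smul]
    have h4 := (hG _ m' h3).2.2.1
    rw [← e a, ← e b] at h4
    exact h4
  have hsp : ∀ l, ∀ z ∈ W l, _ := fun l z hz => proj_spec (η := pl (q l) η z) (hV l z hz)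
    Finset.univ (fun j : s => t j (q l z)) (fun j => pl (q l) (a j.1) z)
    (fun j => pl (q l) (b j.1) z) (fun j _ => t.nonneg j _) (t1 _)
    (fun j _ h => ⟨(hG _ _ (tO j _ h)).2.2.1.comp ((hP l).bij hz),
      (hG _ _ (tO j _ h)).2.2.2 l z hz rfl⟩) (ρ := pl (q l) A z) (σ := pl (q l) B z)
    (G10_pl_sum _ _ _) (G10_pl_sum _ _ _)
  have hex : ∀ m, ∃ a' b' : Alt E6 3, Tame (η m) a' b' ∧
      (∀ l, ∀ z ∈ W l, q l z = m → Agr (pl (q l) (fun _ => a') z) (pl (q l) A z) ∧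
        Agr (pl (q l) (fun _ => b') z) (pl (q l) B z)) ∧
      ((¬ ∃ l, ∃ z ∈ W l, q l z = m) → a' = A m ∧ b' = B m) := by
    intro m
    by_cases hm : ∃ l, ∃ z ∈ W l, q l z = m
    swap
    · exact ⟨A m, B m, (hsing m hm).self_of_nhds, fun l z hz e => (hm ⟨l, z, hz, e⟩).elim,
        fun _ => ⟨rfl, rfl⟩⟩
    obtain ⟨l, z, hz, rfl⟩ := hm
    let e : E6 ≃L[ℝ] E6 := (LinearEquiv.ofBijective (dM (q l) z : E6 →ₗ[ℝ] E6)
      ((hP l).bij hz)).toContinuousLinearEquiv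
    have he : ∀ c : Alt E6 3,
        pl (q l) (fun _ => c.compContinuousLinearMap (e.symm : E6 →L[ℝ] E6)) z = c := fun c => by
      ext v
      exact congrArg c (funext fun i => e.symm_apply_apply (v i))
    obtain ⟨-, -, h1, h2, h3⟩ := hsp l z hz
    refine ⟨(pre (pl (q l) A z) (pl (q l) B z)).compContinuousLinearMap (e.symm : E6 →L[ℝ] E6),
      (pim (pl (q l) A z) (pl (q l) B z)).compContinuousLinearMap (e.symm : E6 →L[ℝ] E6),
      Tame.of_comp ((hP l).bij hz) ?_, fun l' z' hz' e' => ?_,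
      fun h => (h ⟨l, z, hz, rfl⟩).elim⟩
    · rw [← he (pre _ _), ← he (pim _ _)] at h1
      exact h1
    · obtain ⟨L, hL, k⟩ := G10_vc hP hz (hc l' l z' hz' z hz e')
      rw [k, k, k, k, he, he]
      exact ⟨G10_agr h2 hL, G10_agr h3 hL⟩
  choose ρ σ hT hA hE using hex
  have hpr : ∀ l, ∀ z ∈ W l, pl (q l) ρ z = pre (pl (q l) A z) (pl (q l) B z) ∧
      pl (q l) σ z = pim (pl (q l) A z) (pl (q l) B z) := fun l z hz =>
    proj_uniq ((hT _).comp ((hP l).bij hz)) (hA _ l z hz rfl).1 (hA _ l z hz rfl).2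
      (hsp l z hz).2.1 (hsp l z hz).1.ne'
  have hct : ∀ m, G10_Ct ρ m ∧ G10_Ct σ m := by
    intro m
    by_cases hm : ∃ l, ∃ z ∈ W l, q l z = m
    · obtain ⟨l, z, hz, rfl⟩ := hm
      have h1 := (cA _ _ _ z (hP l) hz rfl).prodMk (cB _ _ _ z (hP l) hz rfl)
      have h2 := proj_cont (p := (pl (q l) A z, pl (q l) B z)) (hsp l z hz).1.ne'
      exact ⟨G10_ct_on (hP l) (fun x hx => (hpr l x hx).1) hz
          (ContinuousAt.comp (f := fun x => (pl (q l) A x, pl (q l) B x)) h2.1 h1),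
        G10_ct_on (hP l) (fun x hx => (hpr l x hx).2) hz
          (ContinuousAt.comp (f := fun x => (pl (q l) A x, pl (q l) B x)) h2.2 h1)⟩
    · have h1 : ∀ᶠ m' in 𝓝 m, ρ m' = A m' ∧ σ m' = B m' := by
        filter_upwards [hsing m hm] with m' h
        by_cases hm' : ∃ l, ∃ z ∈ W l, q l z = m'
        · obtain ⟨l, z, hz, rfl⟩ := hm'
          have h2 := proj_uniq (h.comp ((hP l).bij hz)) (fun _ _ _ _ _ => rfl)
            (fun _ _ _ _ _ => rfl) (hsp l z hz).2.1 (hsp l z hz).1.ne'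
          exact ⟨fo_ext (hP l) hz ((hpr l z hz).1.trans h2.1.symm),
            fo_ext (hP l) hz ((hpr l z hz).2.trans h2.2.symm)⟩
        · exact hE m' hm'
      exact ⟨G10_congr (cA m) (h1.mono fun _ h => h.1), G10_congr (cB m) (h1.mono fun _ h => h.2)⟩
  exact ⟨ρ, σ, G10_cont fun m => (hct m).1, G10_cont fun m => (hct m).2, hT⟩

end Pool.Agent.Work.MP_bf98aa_gt.Cy
end

-- merged part: Pool.Agent.Work.MP_bf98aa_gt.Cy.Q10a
section
/-!
Special unitary frames on a manifold.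

PLAN. In a chart `ψ = (chartAt x₀).symm` restricted to the preimage of the open set (`par_chart`, `Par.mono`, `Par.isOpen_pre`) let `A y = F (ψ y) ∘ dM ψ y`; it is invertible (`Par.bij`) and continuous, so is its inverse (`cont_symm`).
The transition is `A' y ∘ (A y)⁻¹` and `psh (F x) (w x) = (pl ψ w y).compContinuousLinearMap (A y)⁻¹` at `y = chartAt x₀ x` (`continuous_alt_comp`). `adm_of_par`: for another `Par ψ' U'` use `Par.tr`; near the point
`dM ψ' = dM ψ ∘ fderiv f` (see `G1_pl`, `Tr.pl_ev`). `exists_frames`: at `m` take `b` from `Ty.exists_b` for `pl ψ ρ`, `pl ψ σ` (`Ty.push` with the equivalence `dM ψ y`), `θ` from `exists_cof`,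
`O m = ψ '' {y | om3 .. b ≠ 0}`, frame `θ (..) ∘ (dM ψ y)⁻¹` on `O m` (anything elsewhere); its `det3` is `om3 (ρ x) (σ x)`. Then `su_frames`, `Adm.comp`.
-/

set_option autoImplicit false

open scoped Manifold ContDiff Topology ComplexConjugate
open Set Complex

namespace Pool.Agent.Work.MP_bf98aa_gt.Cy

open Pool.Agent.Work.MP_bf98aa_gt.Th

variable {M : Type} [TopologicalSpace M] [ChartedSpace E6 M] [IsManifold 𝓘(ℝ, E6) ∞ M]
  {F F' : M → E6 ≃L[ℝ] V3} {O O' : Set M}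

theorem Q10a_dM {ψ ψ' : E6 → M} {U : Set E6} {f : E6 → E6} {x : E6} (h : Tr ψ' ψ f x)
    (hP : Par ψ U) (hx : f x ∈ U) :
    ∀ᶠ z in 𝓝 x, dM ψ' z = (dM ψ (f z)).comp (fderiv ℝ f z) := by
  have h1 : ∀ᶠ z in 𝓝 x, ContDiffAt ℝ 1 f z := (h.1.of_le (by simp)).eventually (by simp)
  have h2 : ∀ᶠ z in 𝓝 x, f z ∈ U := h.1.continuousAt.eventually (hP.opn.mem_nhds hx)
  filter_upwards [h1, h2, h.2.eventually_nhds] with z h3 h4 h5
  have h6 := mfderiv_comp z (ContMDiffAt.mdifferentiableAt (hP.sm _ h4) (by simp))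
    (mdifferentiableAt_iff_differentiableAt.mpr (h3.differentiableAt (by simp)))
  rw [mfderiv_eq_fderiv] at h6
  have h7 : ψ' =ᶠ[𝓝 z] ψ ∘ f := h5.mono fun _ hz => hz.symm
  have h8 : dM ψ' z = dM (ψ ∘ f) z := h7.mfderiv_eq
  exact h8.trans h6

theorem Q10a_loc {Z : Type} [TopologicalSpace Z] {g : M → Z} (hO : IsOpen O)
    (h : ∀ ψ U, Par ψ U → MapsTo ψ U O → (∃ p, ψ = (chartAt E6 p).symm ∧
      U ⊆ (chartAt E6 p).target) → ContinuousOn (fun y => g (ψ y)) U) : ContinuousOn g O := by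
  intro x hx
  have hP := par_chart x
  have hU := hP.isOpen_pre hO
  have hm : chartAt E6 x x ∈ (chartAt E6 x).target ∩ (chartAt E6 x).symm ⁻¹' O :=
    ⟨mem_chart_target E6 x, by
      simpa [(chartAt E6 x).left_inv (mem_chart_source E6 x)] using hx⟩
  have h1 := (h _ _ (hP.mono hU inter_subset_left) (fun _ hy => hy.2)
    ⟨x, rfl, inter_subset_left⟩).continuousAt (hU.mem_nhds hm)
  have h2 := h1.comp ((chartAt E6 x).continuousAt (mem_chart_source E6 x))
  refine (h2.congr ?_).continuousWithinAt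
  filter_upwards [chart_source_mem_nhds E6 x] with z hz
  simp [(chartAt E6 x).left_inv hz]

theorem Q10a_eqv {ψ : E6 → M} {U : Set E6} (hP : Par ψ U) :
    ∃ D : E6 → E6 ≃L[ℝ] E6, ∀ y ∈ U, (D y : E6 →L[ℝ] E6) = dM ψ y := by
  have : ∀ y, ∃ D : E6 ≃L[ℝ] E6, y ∈ U → (D : E6 →L[ℝ] E6) = dM ψ y := fun y => by
    by_cases hy : y ∈ U
    · exact ⟨(LinearEquiv.ofBijective (dM ψ y).toLinearMap (hP.bij hy)).toContinuousLinearEquiv,
        fun _ => by ext v; rfl⟩
    · exact ⟨.refl ℝ E6, fun h => absurd h hy⟩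
  choose D hD using this
  exact ⟨D, hD⟩

theorem Q10a_inv (h : Adm F O) {ψ : E6 → M} {U : Set E6} (hP : Par ψ U) (hm : MapsTo ψ U O) :
    ∃ B : E6 → V3 →L[ℝ] E6, ContinuousOn B U ∧
      ∀ y ∈ U, ∀ v, dM ψ y (B y v) = (F (ψ y)).symm v := by
  obtain ⟨D, hD⟩ := Q10a_eqv hP
  have h1 : ContinuousOn (fun y => ((D y).trans (F (ψ y)) : E6 →L[ℝ] V3)) U :=
    (h ψ U hP hm).congr fun y hy => by
      simp only [← hD y hy]
      rfl
  refine ⟨_, cont_symm h1, fun y hy v => ?_⟩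
  rw [← hD y hy]
  simp

theorem adm_of_par {ψ : E6 → M} {U : Set E6} (hP : Par ψ U)
    (h : ContinuousOn (fun y => (F (ψ y) : CF).comp (dM ψ y)) U) : Adm F (ψ '' U) := by
  intro ψ' U' hP' hm x hx
  obtain ⟨y, hy, he⟩ := hm hx
  obtain ⟨f, hf, rfl⟩ := hP.tr hy (hP'.sm x hx) he.symm
  have h1 := ((h.continuousAt (hP.opn.mem_nhds hy)).comp hf.1.continuousAt).clm_comp
    (hf.1.fderiv_right (m := 0) (by simp)).continuousAt
  refine (h1.congr ?_).continuousWithinAt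
  filter_upwards [Q10a_dM hf hP hy, hf.2] with z h2 h3
  rw [h2, ← h3]
  rfl

omit [IsManifold 𝓘(ℝ, E6) ∞ M] in
theorem Q10a_comp (h : Adm F O) {T : M → Au} (hT : ContinuousOn (fun x => (T x : En)) O)
    {ψ : E6 → M} {U : Set E6} (hP : Par ψ U) (hc : ContinuousOn ψ U) (hm : MapsTo ψ U O) :
    ContinuousOn (fun y => ((F (ψ y)).trans (T (ψ y)) : CF).comp (dM ψ y)) U :=
  ((hT.comp hc hm).clm_comp (h ψ U hP hm)).congr fun _ _ => rfl

theorem Adm.comp (h : Adm F O) {T : M → Au} (hT : ContinuousOn (fun x => (T x : En)) O) :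
    Adm (fun x => (F x).trans (T x)) O :=
  fun _ _ hP hm => Q10a_comp h hT hP hP.continuousOn hm

theorem Adm.trans_cont (h : Adm F O) (h' : Adm F' O') (hO : IsOpen O) (hO' : IsOpen O') :
    ContinuousOn (fun x => ((F x).symm.trans (F' x) : En)) (O ∩ O') := by
  refine Q10a_loc (hO.inter hO') fun ψ U hP hm _ => ?_
  obtain ⟨B, hB, he⟩ := Q10a_inv h hP (hm.mono_right inter_subset_left)
  refine ((h' ψ U hP (hm.mono_right inter_subset_right)).clm_comp hB).congr fun y hy => ?_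
  refine ContinuousLinearMap.ext fun v => ?_
  simp [he y hy]

theorem Adm.form (h : Adm F O) (hO : IsOpen O) {k : ℕ} {w : Fo M k}
    (hw : Cont (E := E6) (M := M) w) : ContinuousOn (fun x => psh (F x) (w x)) O := by
  refine Q10a_loc hO fun ψ U hP hm hp => ?_
  obtain ⟨B, hB, he⟩ := Q10a_inv h hP hm
  obtain ⟨p, rfl, hU⟩ := hp
  have h1 : ContinuousOn (pl (chartAt E6 p).symm w) U := (hw p).mono hU
  refine (continuous_alt_comp.comp_continuousOn (h1.prodMk hB)).congr fun y hy => ?_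
  ext v
  simp only [psh, pl, Function.comp, ContinuousAlternatingMap.compContinuousLinearMap_apply]
  congr 1
  funext j
  exact (he y hy (v j)).symm

end Pool.Agent.Work.MP_bf98aa_gt.Cy
end

-- merged part: Pool.Agent.Work.MP_bf98aa_gt.Cy.Q10
section
/-!
Special unitary frames on a manifold.

PLAN. In a chart `ψ = (chartAt x₀).symm` restricted to the preimage of the open set (`par_chart`, `Par.mono`, `Par.isOpen_pre`) let `A y = F (ψ y) ∘ dM ψ y`; it is invertible (`Par.bij`) and continuous, so is its inverse (`cont_symm`).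
The transition is `A' y ∘ (A y)⁻¹` and `psh (F x) (w x) = (pl ψ w y).compContinuousLinearMap (A y)⁻¹` at `y = chartAt x₀ x` (`continuous_alt_comp`). `adm_of_par`: for another `Par ψ' U'` use `Par.tr`; near the point
`dM ψ' = dM ψ ∘ fderiv f` (see `G1_pl`, `Tr.pl_ev`). `exists_frames`: at `m` take `b` from `Ty.exists_b` for `pl ψ ρ`, `pl ψ σ` (`Ty.push` with the equivalence `dM ψ y`), `θ` from `exists_cof`,
`O m = ψ '' {y | om3 .. b ≠ 0}`, frame `θ (..) ∘ (dM ψ y)⁻¹` on `O m` (anything elsewhere); its `det3` is `om3 (ρ x) (σ x)`. Then `su_frames`, `Adm.comp`.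
-/

set_option autoImplicit false

open scoped Manifold ContDiff Topology ComplexConjugate
open Set Complex

namespace Pool.Agent.Work.MP_bf98aa_gt.Cy

open Pool.Agent.Work.MP_bf98aa_gt.Th

variable {M : Type} [TopologicalSpace M] [ChartedSpace E6 M] [IsManifold 𝓘(ℝ, E6) ∞ M]

theorem Q10_eqv {X W : Type} [NormedAddCommGroup W] [NormedSpace ℝ W] {S : Set X}
    {A : X → E6 →L[ℝ] W} (h : ∀ x ∈ S, Function.Bijective (A x)) {x₀ : X} (hx : x₀ ∈ S) :
    ∃ e : X → E6 ≃L[ℝ] W, ∀ x ∈ S, ∀ v, e x v = A x v := by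
  have h1 : ∀ x ∈ S, ∃ e : E6 ≃L[ℝ] W, ∀ v, e v = A x v := fun x hx =>
    ⟨(LinearEquiv.ofBijective (A x : E6 →ₗ[ℝ] W) (h x hx)).toContinuousLinearEquiv, fun _ => rfl⟩
  have : Nonempty (E6 ≃L[ℝ] W) := ⟨(h1 x₀ hx).choose⟩
  choose! e he using h1
  exact ⟨e, he⟩

theorem Q10_loc {ρ σ : Fo M 3} {J : M → E6 →L[ℝ] E6}
    (hρ : Cont (E := E6) (M := M) ρ) (hσ : Cont (E := E6) (M := M) σ)
    (hJ : ∀ x, Ty (J x) (ρ x) (σ x)) (m : M) :
    ∃ (O : Set M) (F : M → E6 ≃L[ℝ] V3), IsOpen O ∧ m ∈ O ∧ Adm F O ∧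
      (∀ x ∈ O, ∀ v, F x (J x v) = I • F x v) ∧
      ∀ x ∈ O, ∀ v : Fin 3 → E6, det3 (fun k => F x (v k)) = om3 (ρ x) (σ x) v := by
  have hP := par_chart m
  have hm := mem_chart_target E6 m
  have hr : ∀ y ∈ (chartAt E6 m).target, chartAt E6 m ((chartAt E6 m).symm y) = y :=
    fun y hy => (chartAt E6 m).right_inv hy
  have hl : (chartAt E6 m).symm (chartAt E6 m m) = m :=
    (chartAt E6 m).left_inv (mem_chart_source E6 m)
  have hc : ContinuousOn (fun y => (pl (chartAt E6 m).symm ρ y, pl (chartAt E6 m).symm σ y))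
    (chartAt E6 m).target := (hρ m).prodMk (hσ m)
  generalize (chartAt E6 m).target = T at hP hm hr hc
  generalize ((chartAt E6 m).symm : E6 → M) = ψ at hP hr hl hc
  generalize (chartAt E6 m : M → E6) = c at hm hr hl
  obtain ⟨g, hg⟩ := Q10_eqv (fun y hy => hP.bij hy) hm
  have hp : ∀ y ∈ T, ∀ w : Fo M 3, pl ψ w y = psh (g y).symm (w (ψ y)) := fun y hy w => by
    ext v
    exact congrArg (w (ψ y)) (funext fun j => (hg y hy (v j)).symm)
  have hT : ∀ y ∈ T, Ty (cj (g y).symm (J (ψ y))) (pl ψ ρ y) (pl ψ σ y) := fun y hy => by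
    rw [hp y hy, hp y hy]
    exact (hJ _).push _
  obtain ⟨b, hb⟩ := (hT _ hm).exists_b
  obtain ⟨θ, h1, h2⟩ := exists_cof (V := E6) (by simp) b
  have ho : IsOpen {p : Alt E6 3 × Alt E6 3 | om3 p.1 p.2 b ≠ 0} :=
    isOpen_ne_fun (by unfold om3; fun_prop) continuous_const
  have hU := hc.isOpen_inter_preimage hP.opn ho
  obtain ⟨e, he⟩ := Q10_eqv (S := T ∩ (fun y => (pl ψ ρ y, pl ψ σ y)) ⁻¹' {p | om3 p.1 p.2 b ≠ 0})
    (fun y hy => (h2 _ _ _ (hT y hy.1) hy.2).1) ⟨hm, hb⟩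
  refine ⟨ψ '' _, fun x => (g (c x)).symm.trans (e (c x)), hP.isOpen_image hU inter_subset_left,
    ⟨_, ⟨hm, hb⟩, hl⟩, adm_of_par (hP.mono hU inter_subset_left)
      ((h1.comp (hc.mono inter_subset_left) fun y hy => hy.2).congr fun y hy => ?_), ?_, ?_⟩
  · refine ContinuousLinearMap.ext fun v => ?_
    show e (c (ψ y)) ((g (c (ψ y))).symm (dM ψ y v)) = _
    rw [hr y hy.1, ← hg y hy.1, ContinuousLinearEquiv.symm_apply_apply, he y hy]
    rfl
  · rintro _ ⟨y, hy, rfl⟩ v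
    simp only [ContinuousLinearEquiv.trans_apply, hr y hy.1, he y hy]
    rw [← cj_apply, (h2 _ _ _ (hT y hy.1) hy.2).2.1]
  · rintro _ ⟨y, hy, rfl⟩ v
    simp only [ContinuousLinearEquiv.trans_apply, hr y hy.1, he y hy]
    rw [(h2 _ _ _ (hT y hy.1) hy.2).2.2, om3, om3, hp y hy.1, hp y hy.1, psh_apply, psh_apply]

theorem exists_frames [T2Space M] [CompactSpace M] {ρ σ : Fo M 3} {J : M → E6 →L[ℝ] E6}
    (hρ : Cont (E := E6) (M := M) ρ) (hσ : Cont (E := E6) (M := M) σ)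
    (hJ : ∀ x, Ty (J x) (ρ x) (σ x)) :
    ∃ (O : M → Set M) (F : M → M → E6 ≃L[ℝ] V3), (∀ i, IsOpen (O i)) ∧ (∀ x, x ∈ O x) ∧
      (∀ i, Adm (F i) (O i)) ∧ (∀ i, ∀ x ∈ O i, ∀ v, F i x (J x v) = I • F i x v) ∧
      ∀ i j, ∀ x ∈ O i ∩ O j, SUn ((F i x).symm.trans (F j x)) := by
  choose O θ h1 h2 h3 h4 h5 using Q10_loc hρ hσ hJ
  obtain ⟨T, t1, t2, t3⟩ := su_frames h1 (fun x => ⟨x, h2 x⟩) h4
    (fun i j x hx v => (h5 i x hx.1 v).trans (h5 j x hx.2 v).symm)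
    fun i j => (h3 i).trans_cont (h3 j) (h1 i) (h1 j)
  refine ⟨O, fun i x => (θ i x).trans (T i x), h1, h2, fun i => (h3 i).comp (t1 i),
    fun i x hx v => ?_, t3⟩
  rw [ContinuousLinearEquiv.trans_apply, ContinuousLinearEquiv.trans_apply, h4 i x hx, t2 i x hx]

end Pool.Agent.Work.MP_bf98aa_gt.Cy
end
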