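import Pool.Agent.Work.MP_bf98aa_gt.Cy.G10b
import Pool.Agent.Work.MP_bf98aa_gt.Cy.G4
import Pool.Agent.Work.MP_bf98aa_gt.B3.XMain
import Pool.Agent.Work.MP_bf98aa_gt.Cy.Q10
import Pool.Agent.Work.MP_bf98aa_gt.Cy.G6
import Pool.Agent.Work.MP_bf98aa_gt.B3.KMain
import Pool.Agent.Work.MP_bf98aa_gt.Th.IPf

-- merged part: Pool.Agent.Work.MP_bf98aa_gt.B3.Y5
section
-- merged part: Pool.Agent.Work.MP_bf98aa_gt.B3.YDefs
section
/-!
Definitions for the triviality of the canonical bundle.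
-/

set_option autoImplicit false

open scoped Manifold ContDiff Topology ComplexConjugate
open Set Complex

namespace Pool.Agent.Work.MP_bf98aa_gt.B3

open Pool.Agent.Work.MP_bf98aa_gt.Th Pool.Agent.Work.MP_bf98aa_gt.Cy

noncomputable section

/-- `J` is compatible with `β` and with the metric induced by `D`. -/
structure Cpa {V H : Type} [NormedAddCommGroup V] [NormedSpace ℝ V] [NormedAddCommGroup H]
    [InnerProductSpace ℝ H] (β : Alt V 2) (D : V →L[ℝ] H) (J : V →L[ℝ] V) : Prop where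
  sq : ∀ v, J (J v) = -v
  iso : ∀ u v, inner ℝ (D (J u)) (D (J v)) = inner ℝ (D u) (D v)
  sym : ∀ u v, β ![u, J v] = β ![v, J u]
  pos : Tms β J

/-- The connection form of a unit vector. -/
def cn {H : Type} [NormedAddCommGroup H] [InnerProductSpace ℂ H] (s : E6 → H) : Fm E6 1 :=
  fun x => alt1 (imCLM.comp (((innerSL ℂ (s x)).restrictScalars ℝ).comp (fderiv ℝ s x)))

/-- Local unit sections of a line bundle. -/
structure Ln {M ι H : Type} [TopologicalSpace M] [ChartedSpace E6 M] [NormedAddCommGroup H]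
    [InnerProductSpace ℂ H] (q : ι → E6 → M) (W : ι → Set E6) (s : ι → E6 → H) : Prop where
  par : ∀ i, Par (q i) (W i)
  cov : ∀ m, ∃ i, ∃ x ∈ W i, q i x = m
  sm : ∀ i, ContDiffOn ℝ ∞ (s i) (W i)
  unit : ∀ i, ∀ x ∈ W i, ‖s i x‖ = 1
  prop : ∀ i j, ∀ x ∈ W i, ∀ y ∈ W j, q i x = q j y → ∃ c : ℂ, s j y = c • s i x

/-- The ambient space. -/
abbrev Rn (n : ℕ) : Type := EuclideanSpace ℝ (Fin n)

/-- The space of minors. -/
abbrev Cn (n : ℕ) : Type := EuclideanSpace ℂ (Fin 3 → Fin n)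

/-- Three coordinates of `D - i D J`. -/
def cx {n : ℕ} (D : E6 →L[ℝ] Rn n) (J : E6 →L[ℝ] E6) (p : Fin 3 → Fin n) : CF :=
  ContinuousLinearMap.pi fun k => ofRealCLM.comp ((EuclideanSpace.proj (p k)).comp D) -
    I • ofRealCLM.comp ((EuclideanSpace.proj (p k)).comp (D.comp J))

theorem cx_apply {n : ℕ} (D : E6 →L[ℝ] Rn n) (J : E6 →L[ℝ] E6) (p : Fin 3 → Fin n) (v : E6)
    (k : Fin 3) : cx D J p v k = D v (p k) - I * D (J v) (p k) := rfl

/-- The minors of `D - i D J` on three vectors. -/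
def plu {n : ℕ} (D : E6 →L[ℝ] Rn n) (J : E6 →L[ℝ] E6) (v : Fin 3 → E6) : Cn n :=
  WithLp.toLp 2 fun p => detC (cx D J p) v

theorem plu_apply {n : ℕ} (D : E6 →L[ℝ] Rn n) (J : E6 →L[ℝ] E6) (v : Fin 3 → E6)
    (p : Fin 3 → Fin n) : plu D J v p = detC (cx D J p) v := rfl

/-- A Lagrangian frame. -/
def LagF (α : Alt E6 2) (v : Fin 3 → E6) : Prop :=
  LinearIndependent ℝ v ∧ ∀ i k, α ![v i, v k] = 0

end

end Pool.Agent.Work.MP_bf98aa_gt.B3
end

-- merged part: Pool.Agent.Work.MP_bf98aa_gt.B3.Y1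
section
/-!
The positive square root is smooth.

PLAN. `riesz`: `bs` is an orthonormal real basis, `v = ∑ k, ip v (bs k) • bs k`. `sq_inj`: with `h k = H (bs k)`, the sum over `k` of `ip (R (H b) + H (R b)) (H b)` is
`∑ ip (R h) h + ∑ ip (R h') h'` where `h' k = Hᵀ (bs k)`; or use `Q4a_E`, `Q4a_mat`, `Q4a_pd` and traces of matrices; or an eigenbasis of `R`: `R v = l v` gives `R (H v) = -l H v`.
`sqt_smooth`: `R x = sqt (B x)` is continuous on `S` (`sqt_cont`), `R x * R x = T x` with `T` from `riesz` smooth (`contDiffOn_clm_apply`); the map `Y ↦ Y * Y` on `En` has at `R x₀` the injective,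
hence invertible, derivative `H ↦ R H + H R`; `ContDiffAt.to_localInverse`, `HasStrictFDerivAt.eventually_left_inverse` give `R x = localInverse (T x)` near `x₀`.
`smooth_symm`: `contDiffAt_map_inverse`, as in `cont_symm`.
-/

set_option autoImplicit false

open scoped Manifold ContDiff Topology ComplexConjugate
open Set Complex

namespace Pool.Agent.Work.MP_bf98aa_gt.B3

open Pool.Agent.Work.MP_bf98aa_gt.Th Pool.Agent.Work.MP_bf98aa_gt.Cy

variable {X : Type} [NormedAddCommGroup X] [NormedSpace ℝ X] {S : Set X}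

theorem Y1_exp (v : V3) : v = ∑ k, ip v (bs k) • bs k := by
  funext i
  fin_cases i <;> refine Complex.ext ?_ ?_ <;> simp [bs, ip, herm, Fin.sum_univ_six]

theorem Y1_lin {f : V3 → ℝ} (hf : IsLinearMap ℝ f) (v : V3) :
    f v = ∑ k, ip v (bs k) * f (bs k) := by
  have h2 := congrArg (hf.mk' f) (Y1_exp v)
  rw [map_sum] at h2
  simpa only [map_smul, IsLinearMap.mk'_apply, smul_eq_mul] using h2

theorem Y1_par (u v : V3) : ip u v = ∑ k, ip u (bs k) * ip v (bs k) := by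
  rw [Y1_lin (ip_lin v) u]
  simp only [ip_symm v]

theorem riesz {B : V3 → V3 → ℝ} (h1 : ∀ v, IsLinearMap ℝ fun u => B u v)
    (h2 : ∀ u, IsLinearMap ℝ (B u)) :
    ∃ T : En, (∀ u, T u = ∑ k, B u (bs k) • bs k) ∧ ∀ u v, ip (T u) v = B u v := by
  let L : V3 →ₗ[ℝ] V3 :=
    { toFun := fun u => ∑ k, B u (bs k) • bs k
      map_add' := fun a b => by
        simp only [(h1 _).map_add, add_smul, Finset.sum_add_distrib]
      map_smul' := fun r a => by
        simp only [(h1 _).map_smul, smul_eq_mul, mul_smul, Finset.smul_sum, RingHom.id_apply] }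
  refine ⟨LinearMap.toContinuousLinearMap L, fun _ => rfl, fun u v => ?_⟩
  have h3 := map_sum ((ip_lin v).mk' _) (fun k => B u (bs k) • bs k) Finset.univ
  simp only [map_smul, IsLinearMap.mk'_apply, smul_eq_mul] at h3
  refine h3.trans ?_
  rw [Y1_lin (h2 u) v]
  exact Finset.sum_congr rfl fun k _ => by rw [mul_comm, ip_symm]

theorem Y1_nonneg {R : En} (h : SP R) (u : V3) : 0 ≤ ip (R u) u := by
  by_cases hu : u = 0
  · rw [hu, (ip_lin' _).map_zero]
  · exact (h.2 u hu).le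

theorem sq_inj {R H : En} (h : SP R) (he : ∀ v, R (H v) + H (R v) = 0) : H = 0 := by
  obtain ⟨H', -, hH'⟩ := riesz (B := fun u v => ip u (H v)) (fun _ => ip_lin _) fun u =>
    ⟨fun a b => by rw [map_add, (ip_lin' u).map_add], fun r a => by
      rw [map_smul, (ip_lin' u).map_smul]⟩
  have h1 : ∑ k, ip (H (R (bs k))) (H (bs k)) = ∑ l, ip (R (H' (bs l))) (H' (bs l)) := by
    have e1 : ∀ k, ip (H (R (bs k))) (H (bs k)) =
        ∑ l, ip (R (H' (bs l))) (bs k) * ip (H' (bs l)) (bs k) := fun k => by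
      rw [Y1_par]
      refine Finset.sum_congr rfl fun l _ => ?_
      rw [h.1, hH', hH', ip_symm (bs l), ip_symm (bs l)]
    simp only [e1]
    rw [Finset.sum_comm]
    exact Finset.sum_congr rfl fun l _ => (Y1_par _ _).symm
  have h2 : ∑ k, ip (R (H (bs k))) (H (bs k)) + ∑ k, ip (H (R (bs k))) (H (bs k)) = 0 := by
    rw [← Finset.sum_add_distrib]
    refine Finset.sum_eq_zero fun k _ => ?_
    rw [← (ip_lin _).map_add, he, (ip_lin _).map_zero]
  have h3 : 0 ≤ ∑ l, ip (R (H' (bs l))) (H' (bs l)) :=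
    Finset.sum_nonneg fun l _ => Y1_nonneg h _
  have h4 : ∑ k, ip (R (H (bs k))) (H (bs k)) = 0 :=
    le_antisymm (by linarith) (Finset.sum_nonneg fun l _ => Y1_nonneg h _)
  have h5 : ∀ k, H (bs k) = 0 := fun k => by_contra fun hk =>
    (h.2 _ hk).ne' ((Finset.sum_eq_zero_iff_of_nonneg fun l _ => Y1_nonneg h _).1 h4 k
      (Finset.mem_univ k))
  ext1 v
  rw [Y1_exp v]
  simp only [map_sum, map_smul, h5, smul_zero, Finset.sum_const_zero, zero_apply]

theorem Y1_inv {R : En} (h : SP R) : ∃ g : En → En, ContDiffAt ℝ ∞ g (R * R) ∧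
    ∀ᶠ Y in 𝓝 R, g (Y * Y) = Y := by
  let L : En →ₗ[ℝ] En :=
    { toFun := fun H => R * H + H * R
      map_add' := fun a b => by rw [mul_add, add_mul, add_add_add_comm]
      map_smul' := fun r a => ContinuousLinearMap.ext fun v => by
        change R (r • a v) + r • a (R v) = r • (R (a v) + a (R v))
        rw [map_smul, smul_add] }
  have hL : Function.Injective L := (injective_iff_map_eq_zero L).2 fun H hH =>
    sq_inj h fun v => DFunLike.congr_fun hH v
  let D : En ≃L[ℝ] En := (LinearEquiv.ofInjectiveEndo L hL).toContinuousLinearEquiv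
  have hc : ContDiffAt ℝ ∞ (fun Y : En => Y * Y) R := (contDiff_id.mul contDiff_id).contDiffAt
  have hd : HasFDerivAt (fun Y : En => Y * Y) (D : En →L[ℝ] En) R :=
    ((hasFDerivAt_id R).fun_mul' (hasFDerivAt_id R)).congr_fderiv
      (ContinuousLinearMap.ext fun _ => rfl)
  exact ⟨hc.localInverse hd (by simp), hc.to_localInverse hd (by simp),
    (hc.hasStrictFDerivAt' hd (by simp)).eventually_left_inverse⟩

theorem sqt_smooth (hS : IsOpen S) {B : X → V3 → V3 → ℝ} (hp : ∀ x ∈ S, PDf (B x))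
    (hB : ∀ u v, ContDiffOn ℝ ∞ (fun x => B x u v) S) :
    ContDiffOn ℝ ∞ (fun x => (sqt (B x) : En)) S := by
  have hc : ContinuousOn (fun x => (sqt (B x) : En)) S :=
    sqt_cont.comp (continuousOn_pi.2 fun u => continuousOn_pi.2 fun v => (hB u v).continuousOn) hp
  have hT : ContDiffOn ℝ ∞ (fun x => (sqt (B x) : En) * (sqt (B x) : En)) S := by
    refine contDiffOn_clm_apply.2 fun u => ?_
    refine (ContDiffOn.sum (s := Finset.univ) fun k _ =>
      (hB u (bs k)).smul (contDiffOn_const (c := bs k))).congr fun x hx => ?_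
    obtain ⟨h1, h2⟩ := sqt_spec (hp x hx)
    refine (Y1_exp _).trans (Finset.sum_congr rfl fun k _ => ?_)
    change ip (sqt (B x) (sqt (B x) u)) (bs k) • bs k = B x u (bs k) • bs k
    rw [h1.1, h2]
  intro x hx
  obtain ⟨g, hg, he⟩ := Y1_inv (R := (sqt (B x) : En)) (sqt_spec (hp x hx)).1
  have h1 : ContDiffAt ℝ ∞ (fun x => g ((sqt (B x) : En) * (sqt (B x) : En))) x :=
    hg.comp x (hT.contDiffAt (hS.mem_nhds hx))
  refine (h1.congr_of_eventuallyEq ?_).contDiffWithinAt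
  filter_upwards [(hc.continuousAt (hS.mem_nhds hx)).eventually he] with y hy using hy.symm

theorem smooth_symm {V W : Type} [NormedAddCommGroup V] [NormedSpace ℝ V] [FiniteDimensional ℝ V]
    [NormedAddCommGroup W] [NormedSpace ℝ W] {T : X → V ≃L[ℝ] W}
    (h : ContDiffOn ℝ ∞ (fun x => (T x : V →L[ℝ] W)) S) :
    ContDiffOn ℝ ∞ (fun x => ((T x).symm : W →L[ℝ] V)) S := by
  have := FiniteDimensional.complete ℝ V
  intro x hx
  have h1 := (contDiffAt_map_inverse (n := ∞) (T x)).comp_contDiffWithinAt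
    (f := fun x => (T x : V →L[ℝ] W)) x (h x hx)
  simpa only [Function.comp_def, ContinuousLinearMap.inverse_equiv] using h1

end Pool.Agent.Work.MP_bf98aa_gt.B3
end

-- merged part: Pool.Agent.Work.MP_bf98aa_gt.B3.Y2
section
/-!
Compatible complex structures.

PLAN. Fix `C : V3 ≃L[ℝ] E6` (dimension). For `β`, `D` put `B u v = ⟪D (C u), D (C v)⟫`, `R = sqt B`, `g = C ∘ R⁻¹` (so `⟪D (g u), D (g v)⟫ = ip u v`), `A` with `ip (A u) v = β ![g u, g v]` (`riesz`), skew and injective.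
`cpa_unique`: for compatible `J` and `K = g⁻¹ J g` (an isometry with square `-1`, hence skew), `Y = -K A` satisfies `ip (Y u) v = β ![g u, J (g v)]`, so `SP Y`, and `ip (Y u) (Y v) = ip (A u) (A v)`; `sp_unique` and the surjectivity of `A`.
`cpa_exists`: `P = sqt fun u v => ip (A u) (A v)`, `O = A P⁻¹` is an isometry with `A = O P`. `O P O⁻¹` is symmetric positive with `ip (O P O⁻¹ u) (O P O⁻¹ v) = ip (A u) (A v)`
(since `P O⁻¹ = Aᵀ = -A`), so it equals `P` (`sp_unique`); hence `O⁻¹ = -O`. Take `j = g O g⁻¹`; `β ![g u, g (O v)] = ip (A u) (O v) = ip (P u) v`. Smoothness: `sqt_smooth` twice, `smooth_symm`, `contDiffOn_clm_apply`, `contDiffAt_alt_iff`.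
-/

set_option autoImplicit false

open scoped Manifold ContDiff Topology ComplexConjugate
open Set Complex

namespace Pool.Agent.Work.MP_bf98aa_gt.B3

open Pool.Agent.Work.MP_bf98aa_gt.Th Pool.Agent.Work.MP_bf98aa_gt.Cy

variable {H : Type} [NormedAddCommGroup H] [InnerProductSpace ℝ H]

theorem Y2_cmp {V W : Type} [NormedAddCommGroup V] [NormedSpace ℝ V] [NormedAddCommGroup W]
    [NormedSpace ℝ W] (β : Alt W 2) (L : V →L[ℝ] W) (u v : V) :
    β.compContinuousLinearMap L ![u, v] = β ![L u, L v] :=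
  congrArg β (by funext i; fin_cases i <;> rfl)

theorem Cpa.pull {V W : Type} [NormedAddCommGroup V] [NormedSpace ℝ V] [NormedAddCommGroup W]
    [NormedSpace ℝ W] {β : Alt W 2} {D : W →L[ℝ] H} {J : W →L[ℝ] W} (h : Cpa β D J)
    {L : V →L[ℝ] W} (hL : Function.Injective L) {j : V →L[ℝ] V} (hj : ∀ v, L (j v) = J (L v)) :
    Cpa (β.compContinuousLinearMap L) (D.comp L) j := by
  refine ⟨fun v => hL ?_, fun u v => ?_, fun u v => ?_, fun v hv => ?_⟩
  · rw [hj, hj, h.sq, map_neg]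
  · simp only [ContinuousLinearMap.comp_apply, hj, h.iso]
  · rw [Y2_cmp, Y2_cmp, hj, hj, h.sym]
  · rw [Y2_cmp, hj]
    exact h.pos _ fun e => hv (hL (e.trans (map_zero L).symm))

/-- A fixed identification. -/
noncomputable def Y2_C : V3 ≃L[ℝ] E6 :=
  ContinuousLinearEquiv.ofFinrankEq (by simp [Module.finrank_pi_fintype])

/-- The induced metric. -/
noncomputable def Y2_B (D : E6 →L[ℝ] H) : V3 → V3 → ℝ :=
  fun u v => inner ℝ (D (Y2_C u)) (D (Y2_C v))

/-- An orthonormal frame. -/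
noncomputable def Y2_g (D : E6 →L[ℝ] H) : V3 ≃L[ℝ] E6 := (sqt (Y2_B D)).symm.trans Y2_C

theorem Y2_pdf {D : E6 →L[ℝ] H} (hD : Function.Injective D) : PDf (Y2_B D) :=
  ⟨fun v => ⟨fun a b => by simp only [Y2_B, map_add, inner_add_left], fun r a => by
    simp only [Y2_B, map_smul, real_inner_smul_left, smul_eq_mul]⟩,
    fun u v => real_inner_comm _ _, fun u hu => real_inner_self_pos.2 fun e =>
      hu (Y2_C.injective ((hD (e.trans (map_zero D).symm)).trans (map_zero Y2_C).symm))⟩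

theorem Y2_iso {D : E6 →L[ℝ] H} (hD : Function.Injective D) (u v : V3) :
    inner ℝ (D (Y2_g D u)) (D (Y2_g D v)) = ip u v := by
  have h := (sqt_spec (Y2_pdf hD)).2 ((sqt (Y2_B D)).symm u) ((sqt (Y2_B D)).symm v)
  rw [ContinuousLinearEquiv.apply_symm_apply, ContinuousLinearEquiv.apply_symm_apply] at h
  exact h.symm

theorem Y2_riesz (β : Alt E6 2) (g : V3 ≃L[ℝ] E6) :
    ∃ A : En, (∀ u, A u = ∑ k, β ![g u, g (bs k)] • bs k) ∧
      ∀ u v, ip (A u) v = β ![g u, g v] := by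
  obtain ⟨b, hb⟩ := exists_bilin β
  exact riesz (B := fun u v => β ![g u, g v])
    (fun v => ⟨fun a c => by simp [hb], fun r a => by simp [hb]⟩)
    fun u => ⟨fun a c => by simp [hb], fun r a => by simp [hb]⟩

theorem Y2_neg (u v : V3) : ip (-u) v = -ip u v := (ip_lin v).map_neg u

theorem Y2_sp {β : Alt E6 2} {D : E6 →L[ℝ] H} (hD : Function.Injective D) {J : E6 →L[ℝ] E6}
    (h : Cpa β D J) {A : En} (hA : ∀ u v, ip (A u) v = β ![Y2_g D u, Y2_g D v]) :
    ∃ Y : En, SP Y ∧ (∀ u v, ip (Y u) v = β ![Y2_g D u, J (Y2_g D v)]) ∧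
      ∀ u v, ip (Y u) (Y v) = ip (A u) (A v) := by
  obtain ⟨K, hK⟩ : ∃ K : En, ∀ u, Y2_g D (K u) = J (Y2_g D u) :=
    ⟨cj (Y2_g D).symm J, fun u => (Y2_g D).apply_symm_apply _⟩
  have h1 : ∀ u v, ip (K u) (K v) = ip u v := fun u v => by
    rw [← Y2_iso hD, hK, hK, h.iso, Y2_iso hD]
  have h2 : ∀ u, K (K u) = -u := fun u => (Y2_g D).injective (by rw [hK, hK, h.sq, map_neg])
  have h3 : ∀ u v, ip (-(K (A u))) v = β ![Y2_g D u, J (Y2_g D v)] := fun u v => by
    rw [← h1, map_neg, h2, neg_neg, hA, hK]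
  refine ⟨-(K.comp A), ⟨fun u v => ?_, fun u hu => ?_⟩, h3, fun u v => ?_⟩
  · exact (h3 u v).trans ((h.sym _ _).trans ((h3 v u).symm.trans (ip_symm _ _)))
  · exact (h3 u u).symm ▸ h.pos _ fun e => hu ((Y2_g D).injective (e.trans (map_zero _).symm))
  · change ip (-(K (A u))) (-(K (A v))) = _
    rw [Y2_neg, ip_symm, Y2_neg, neg_neg, h1, ip_symm]

theorem cpa_unique {β : Alt E6 2} {D : E6 →L[ℝ] H} (hD : Function.Injective D)
    {J J' : E6 →L[ℝ] E6} (h : Cpa β D J) (h' : Cpa β D J') : J = J' := by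
  obtain ⟨A, -, hA⟩ := Y2_riesz β (Y2_g D)
  obtain ⟨Y, h1, h2, h3⟩ := Y2_sp hD h hA
  obtain ⟨Y', k1, k2, k3⟩ := Y2_sp hD h' hA
  have e : Y = Y' := sp_unique h1 k1 fun u v => (h3 u v).trans (k3 u v).symm
  obtain ⟨b, hb⟩ := exists_bilin β
  refine ContinuousLinearMap.ext fun y => sub_eq_zero.1 (not_not.1 fun hw => ?_)
  have h4 := h.pos _ hw
  obtain ⟨u, hu⟩ := (Y2_g D).surjective (J (J y - J' y))
  obtain ⟨v, rfl⟩ := (Y2_g D).surjective y
  have h5 := (h2 u v).symm.trans (e ▸ k2 u v)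
  rw [alt2_swap, ← hu, hb, map_sub, ← hb, ← hb, h5, sub_self, neg_zero] at h4
  exact lt_irrefl _ h4

theorem Y2_pdA {A : En} (hi : ∀ u, A u = 0 → u = 0) : PDf fun u v => ip (A u) (A v) :=
  ⟨fun v => ⟨fun a b => by simp only [map_add, (ip_lin _).map_add], fun r a => by
    simp only [map_smul, (ip_lin _).map_smul]⟩, fun _ _ => ip_symm _ _,
    fun u hu => ip_pos fun e => hu (hi u e)⟩

/-- The polar decomposition of a skew map. -/
theorem Y2_polar {A : En} (hs : ∀ u v, ip (A u) v = -ip (A v) u) (hi : ∀ u, A u = 0 → u = 0)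
    {P : Au} (hP : P = sqt fun u v => ip (A u) (A v)) :
    (∀ u, A (P.symm (A (P.symm u))) = -u) ∧
      (∀ u v, ip (A (P.symm u)) (A (P.symm v)) = ip u v) ∧
      (∀ u v, ip (A u) (A (P.symm v)) = ip (P u) v) ∧ SP P := by
  obtain ⟨h1, h2⟩ := sqt_spec (Y2_pdA hi)
  rw [← hP] at h1 h2
  have h3 : ∀ u v, ip (A u) (A (P.symm v)) = ip (P u) v := fun u v => by
    rw [← h2, P.apply_symm_apply]
  have h4 : ∀ u v, ip (A (P.symm u)) (A (P.symm v)) = ip u v := fun u v => by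
    rw [h3, P.apply_symm_apply]
  have hinj : Function.Injective A := (injective_iff_map_eq_zero A).2 hi
  obtain ⟨O, hO⟩ : ∃ O : Au, ∀ u, O u = A (P.symm u) :=
    ⟨P.symm.trans (LinearEquiv.ofInjectiveEndo A.toLinearMap hinj).toContinuousLinearEquiv,
      fun _ => rfl⟩
  have h5 : ∀ w, P w = -A (O w) := fun w => ip_ext fun v => by
    rw [Y2_neg, hs, neg_neg, hO, h3, h1.1, ip_symm]
  have h6 : (fun u v => ip (A (O.symm u)) (A (O.symm v))) = fun u v => ip (A u) (A v) := by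
    funext u v
    rw [← h2, h5, h5, O.apply_symm_apply, O.apply_symm_apply, Y2_neg, ip_symm, Y2_neg, neg_neg,
      ip_symm]
  have h7 : ∀ v, P (O v) = A v := fun v => by
    have h := sqt_conj (Y2_pdA hi) (g := O) (fun u v => by rw [hO, hO, h4]) v
    rw [h6, ← hP] at h
    rw [h, hO, P.symm_apply_apply]
  refine ⟨fun u => P.injective ?_, h4, h3, h1⟩
  rw [← hO, ← hO, h7, map_neg, h5, neg_neg]

theorem Y2_ip {X : Type} [NormedAddCommGroup X] [NormedSpace ℝ X] {S : Set X} {f g : X → V3}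
    (hf : ContDiffOn ℝ ∞ f S) (hg : ContDiffOn ℝ ∞ g S) :
    ContDiffOn ℝ ∞ (fun x => ip (f x) (g x)) S := by
  let L : V3 →ₗ[ℝ] V3 →L[ℝ] ℝ :=
    { toFun := fun u => LinearMap.toContinuousLinearMap ((ip_lin' u).mk' _)
      map_add' := fun a b => ContinuousLinearMap.ext fun v => (ip_lin v).map_add a b
      map_smul' := fun r a => ContinuousLinearMap.ext fun v => (ip_lin v).map_smul r a }
  exact ((LinearMap.toContinuousLinearMap L).contDiff.comp_contDiffOn hf).clm_apply hg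

theorem cpa_exists {X : Type} [NormedAddCommGroup X] [NormedSpace ℝ X] {S : Set X} (hS : IsOpen S)
    {β : X → Alt E6 2} {D : X → E6 →L[ℝ] H} (hβ : ContDiffOn ℝ ∞ β S) (hD : ContDiffOn ℝ ∞ D S)
    (hn : ∀ x ∈ S, ∀ u, (∀ v, β x ![u, v] = 0) → u = 0) (hi : ∀ x ∈ S, Function.Injective (D x)) :
    ∃ j : X → E6 →L[ℝ] E6, ContDiffOn ℝ ∞ j S ∧ ∀ x ∈ S, Cpa (β x) (D x) (j x) := by
  choose A hA1 hA2 using fun x => Y2_riesz (β x) (Y2_g (D x))
  obtain ⟨P, hP⟩ : ∃ P : X → Au, ∀ x, P x = sqt fun u v => ip (A x u) (A x v) := ⟨_, fun _ => rfl⟩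
  have hAi : ∀ x ∈ S, ∀ u, A x u = 0 → u = 0 := fun x hx u e =>
    (Y2_g (D x)).injective ((hn x hx _ fun v => by
      obtain ⟨v, rfl⟩ := (Y2_g (D x)).surjective v
      rw [← hA2, e]
      exact (ip_lin v).map_zero).trans (map_zero _).symm)
  have hR : ContDiffOn ℝ ∞ (fun x => (sqt (Y2_B (D x)) : En)) S :=
    sqt_smooth hS (fun x hx => Y2_pdf (hi x hx)) fun u v =>
      (hD.clm_apply contDiffOn_const).inner ℝ (hD.clm_apply contDiffOn_const)
  have hg : ContDiffOn ℝ ∞ (fun x => (Y2_g (D x) : V3 →L[ℝ] E6)) S :=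
    (contDiffOn_const (c := (Y2_C : V3 →L[ℝ] E6))).clm_comp (smooth_symm hR)
  have hA : ContDiffOn ℝ ∞ A S := contDiffOn_clm_apply.2 fun u => by
    simp only [hA1]
    refine ContDiffOn.sum fun k _ => ContDiffOn.smul_const (fun x hx => ?_) _
    have h1 : ∀ w, ContDiffAt ℝ ∞ (fun y => Y2_g (D y) w) x := fun w =>
      (hg.contDiffAt (hS.mem_nhds hx)).clm_apply contDiffAt_const
    refine (ContDiffAt.alt_apply (v := fun y => ![Y2_g (D y) u, Y2_g (D y) (bs k)])
      (hβ.contDiffAt (hS.mem_nhds hx)) fun i => ?_).contDiffWithinAt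
    fin_cases i
    exacts [h1 u, h1 (bs k)]
  have hP' : ContDiffOn ℝ ∞ (fun x => (P x : En)) S := by
    simp only [hP]
    exact sqt_smooth hS (fun x hx => Y2_pdA (hAi x hx)) fun u v =>
      Y2_ip (hA.clm_apply contDiffOn_const) (hA.clm_apply contDiffOn_const)
  refine ⟨fun x => cj (Y2_g (D x)) ((A x).comp ((P x).symm : En)),
    hg.clm_comp ((hA.clm_comp (smooth_symm hP')).clm_comp (smooth_symm hg)), fun x hx => ?_⟩
  obtain ⟨h1, h2, h3, h4⟩ := Y2_polar (A := A x)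
    (fun u v => by rw [hA2, hA2, alt2_swap]) (hAi x hx) (hP x)
  have h5 : ∀ u, cj (Y2_g (D x)) ((A x).comp ((P x).symm : En)) (Y2_g (D x) u) =
      Y2_g (D x) (A x ((P x).symm u)) := fun u => cj_apply _ _ u
  have h6 : ∀ u v, β x ![Y2_g (D x) u, Y2_g (D x) (A x ((P x).symm v))] = ip (P x u) v :=
    fun u v => by rw [← hA2, h3]
  refine ⟨fun v => ?_, fun u v => ?_, fun u v => ?_, fun v hv => ?_⟩
  · obtain ⟨v, rfl⟩ := (Y2_g (D x)).surjective v
    rw [h5, h5, h1, map_neg]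
  · obtain ⟨u, rfl⟩ := (Y2_g (D x)).surjective u
    obtain ⟨v, rfl⟩ := (Y2_g (D x)).surjective v
    rw [h5, h5, Y2_iso (hi x hx), Y2_iso (hi x hx), h2]
  · obtain ⟨u, rfl⟩ := (Y2_g (D x)).surjective u
    obtain ⟨v, rfl⟩ := (Y2_g (D x)).surjective v
    rw [h5, h5, h6, h6, h4.1, ip_symm]
  · obtain ⟨v, rfl⟩ := (Y2_g (D x)).surjective v
    rw [h5, h6]
    exact h4.2 v fun e => hv (by rw [e, map_zero])

end Pool.Agent.Work.MP_bf98aa_gt.B3
end

-- merged part: Pool.Agent.Work.MP_bf98aa_gt.B3.Y4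
section
/-!
The connection form and the curvature.

PLAN. `cn_gauge`: product rule, `⟪c • s, dc • s + c • ds⟫ = conj c * dc + ⟪s, ds⟫` for `|c| = 1`, `‖s‖ = 1`, and `dc = i c dθ`. `exists_phase`: `c z = ⟪s z, s' z⟫` is smooth (`ContDiffAt.inner`) of norm one,
`θ z = (log (c z * conj (c x))).im` (`Complex.contDiffAt_log`, `exp_log`, real part `log 1 = 0`; or `norm_mul_exp_arg_mul_I`). `tr_ev`: `f` is continuous near `x` (`ContDiffAt.of_le`, `ContDiffAt.eventually`),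
so near `z` it is `χ ∘ ψ` with `χ` from `hP'.inv (f z)`. `Ln.gauge`: `exists_phase` for `σ j ∘ f` and `σ i` on the interior of the set in `tr_ev`, `cn_gauge`, `cn_congr`, `cn_comp`. `Ln.curv`: `G2_desc` for `extDeriv (cn (s i))` (`IsD.cl`, `extDeriv_pb`, `G2_cl1`, `Filter.EventuallyEq.extDeriv_eq`).
-/

set_option autoImplicit false

open scoped Manifold ContDiff Topology ComplexConjugate
open Set Complex

namespace Pool.Agent.Work.MP_bf98aa_gt.B3

open Pool.Agent.Work.MP_bf98aa_gt.Th Pool.Agent.Work.MP_bf98aa_gt.Cy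

variable {H : Type} [NormedAddCommGroup H] [InnerProductSpace ℂ H] {s s' : E6 → H} {x : E6}

theorem cn_apply (s : E6 → H) (x v : E6) :
    cn s x ![v] = (inner ℂ (s x) (fderiv ℝ s x v)).im := rfl

theorem cn_congr (h : s =ᶠ[𝓝 x] s') : cn s x = cn s' x := by
  rw [cn, cn, h.eq_of_nhds, h.fderiv_eq]

theorem cn_sm {U : Set E6} (hU : IsOpen U) (h : ContDiffOn ℝ ∞ s U) : Sm (cn s) U := by
  intro x hx
  have h1 := h.contDiffAt (hU.mem_nhds hx)
  refine (contDiffAt_alt_iff.2 fun v => ?_).contDiffWithinAt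
  exact imCLM.contDiff.contDiffAt.comp x (h1.inner ℂ
    ((h1.fderiv_right (m := ∞) (by simp)).clm_apply (contDiffAt_const (c := v 0))))

theorem cn_comp {f : E6 → E6} (hf : DifferentiableAt ℝ f x) (hs : DifferentiableAt ℝ s (f x)) :
    cn (fun z => s (f z)) x = pb f (cn s) x := by
  refine alt_ext_one fun u => ?_
  rw [cn_apply, fderiv_fun_comp x hs hf]
  rfl

theorem cn_gauge {θ : E6 → ℝ} {c : ℂ} (hc : ‖c‖ = 1) (hs : DifferentiableAt ℝ s x)
    (hθ : DifferentiableAt ℝ θ x) (h1 : ‖s x‖ = 1) :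
    cn (fun z => (c * exp (I * θ z)) • s z) x = cn s x + alt1 (fderiv ℝ θ x) := by
  refine alt_ext_one fun u => ?_
  have h2 := (((ofRealCLM.hasFDerivAt.comp x hθ.hasFDerivAt).const_mul I).cexp.const_mul c).fun_smul
    hs.hasFDerivAt
  have h3 : conj (c * exp (I * θ x)) * (c * exp (I * θ x)) = 1 := by
    rw [conj_mul', norm_mul, hc, mul_comm I, norm_exp_ofReal_mul_I]
    simp
  have h4 : inner ℂ (s x) (s x) = 1 := by rw [inner_self_eq_norm_sq_to_K, h1]; simp
  rw [cn_apply, ContinuousAlternatingMap.add_apply, cn_apply, alt1_apply]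
  erw [h2.fderiv]
  have h5 : inner ℂ ((c * exp (I * θ x)) • s x) ((c * exp (I * θ x)) • fderiv ℝ s x u +
      (c * (exp (I * θ x) * (I * fderiv ℝ θ x u))) • s x) =
      inner ℂ (s x) (fderiv ℝ s x u) + I * fderiv ℝ θ x u := by
    rw [inner_smul_left, inner_add_right, inner_smul_right, inner_smul_right, h4]
    linear_combination (inner ℂ (s x) (fderiv ℝ s x u) + I * fderiv ℝ θ x u) * h3
  exact (congrArg im h5).trans (by simp)

theorem exists_phase {U : Set E6} (hU : IsOpen U) (hx : x ∈ U) (hs : ContDiffOn ℝ ∞ s U)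
    (hs' : ContDiffOn ℝ ∞ s' U) (h : ∀ z ∈ U, ‖s z‖ = 1 ∧ ‖s' z‖ = 1 ∧ ∃ c : ℂ, s' z = c • s z) :
    ∃ (c : ℂ) (θ : E6 → ℝ) (N : Set E6), ‖c‖ = 1 ∧ IsOpen N ∧ x ∈ N ∧ N ⊆ U ∧
      ContDiffOn ℝ ∞ θ N ∧ ∀ z ∈ N, s' z = (c * exp (I * θ z)) • s z := by
  have h1 : ∀ z ∈ U, ‖inner ℂ (s z) (s' z)‖ = 1 ∧ s' z = inner ℂ (s z) (s' z) • s z := fun z hz => by
    obtain ⟨a, b, c, e⟩ := h z hz
    have : inner ℂ (s z) (s' z) = c := by
      rw [e, inner_smul_right, inner_self_eq_norm_sq_to_K, a]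
      simp
    rw [e, norm_smul, a, mul_one] at b
    exact this.symm ▸ ⟨b, e⟩
  have h2 : ContDiffOn ℝ ∞ (fun z => inner ℂ (s z) (s' z) * conj (inner ℂ (s x) (s' x))) U :=
    (hs.inner ℂ hs').mul contDiffOn_const
  have h3 : inner ℂ (s x) (s' x) * conj (inner ℂ (s x) (s' x)) = 1 := by
    rw [mul_conj', (h1 x hx).1]
    simp
  refine ⟨inner ℂ (s x) (s' x), fun z => (log (inner ℂ (s z) (s' z) * conj (inner ℂ (s x) (s' x)))).im,
    _, (h1 x hx).1, h2.continuousOn.isOpen_inter_preimage hU isOpen_slitPlane,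
    ⟨hx, by rw [mem_preimage, h3]; exact one_mem_slitPlane⟩, inter_subset_left, fun z hz => ?_,
    fun z hz => ?_⟩
  · exact (imCLM.contDiff.contDiffAt.comp z (((contDiffAt_log hz.2).restrict_scalars ℝ).comp z
      (h2.contDiffAt (hU.mem_nhds hz.1)))).contDiffWithinAt
  · have h4 := norm_mul_exp_arg_mul_I (inner ℂ (s z) (s' z) * conj (inner ℂ (s x) (s' x)))
    rw [norm_mul, norm_conj, (h1 z hz.1).1, (h1 x hx).1, mul_one, ofReal_one, one_mul] at h4
    beta_reduce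
    rw [log_im, mul_comm I, h4, mul_left_comm, h3, mul_one]
    exact (h1 z hz.1).2

variable {M ι : Type} [TopologicalSpace M] [ChartedSpace E6 M] [IsManifold 𝓘(ℝ, E6) ∞ M]
  {q : ι → E6 → M} {W : ι → Set E6} {σ : ι → E6 → H}

theorem tr_ev {ψ ψ' : E6 → M} {U U' : Set E6} (hP : Par ψ U) (hP' : Par ψ' U') {f : E6 → E6}
    (hx : x ∈ U) (hy : f x ∈ U') (hf : Tr ψ ψ' f x) :
    ∀ᶠ z in 𝓝 x, z ∈ U ∧ f z ∈ U' ∧ Tr ψ ψ' f z := by
  have h1 : ∀ᶠ z in 𝓝 x, ContDiffAt ℝ 1 f z := (hf.1.of_le (by simp)).eventually (by simp)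
  filter_upwards [h1, hP.opn.mem_nhds hx, hf.1.continuousAt.eventually (hP'.opn.mem_nhds hy),
    hf.2.eventually_nhds] with z h2 h3 h4 h5
  obtain ⟨χ, a, b, -⟩ := hP'.inv (f z) h4
  rw [h5.self_of_nhds] at a
  refine ⟨h3, h4, (ContMDiffAt.comp z a (hP.sm z h3)).contDiffAt.congr_of_eventuallyEq ?_, h5⟩
  filter_upwards [h2.continuousAt.eventually b, h5] with y h6 h7
  rw [← h6, h7]
  rfl

theorem Ln.gauge (h : Ln q W σ) {i j : ι} {f : E6 → E6} (hx : x ∈ W i) (hy : f x ∈ W j)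
    (hf : Tr (q i) (q j) f x) : ∃ (c : ℂ) (θ : E6 → ℝ) (N : Set E6), ‖c‖ = 1 ∧ IsOpen N ∧ x ∈ N ∧
      ContDiffOn ℝ ∞ θ N ∧ ∀ z ∈ N, z ∈ W i ∧ f z ∈ W j ∧ Tr (q i) (q j) f z ∧
        σ j (f z) = (c * exp (I * θ z)) • σ i z ∧
        pb f (cn (σ j)) z = cn (σ i) z + alt1 (fderiv ℝ θ z) := by
  have h0 := mem_interior_iff_mem_nhds.2 (tr_ev (h.par i) (h.par j) hx hy hf)
  have hσ : ∀ k, ∀ z ∈ W k, ContDiffAt ℝ ∞ (σ k) z := fun k z hz =>
    (h.sm k).contDiffAt ((h.par k).opn.mem_nhds hz)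
  obtain ⟨c, θ, N, h1, h2, h3, h4, h5, h6⟩ := exists_phase (s := σ i) (s' := fun z => σ j (f z))
    isOpen_interior h0 (fun z hz => (hσ i z (interior_subset hz).1).contDiffWithinAt)
    (fun z hz => ((hσ j _ (interior_subset hz).2.1).comp z
      (interior_subset hz).2.2.1).contDiffWithinAt) fun z hz => by
      obtain ⟨a, b, e⟩ := interior_subset hz
      exact ⟨h.unit i z a, h.unit j _ b, h.prop i j z a _ b e.2.self_of_nhds.symm⟩
  refine ⟨c, θ, N, h1, h2, h3, h5, fun z hz => ?_⟩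
  obtain ⟨a, b, e⟩ := interior_subset (h4 hz)
  refine ⟨a, b, e, h6 z hz, ?_⟩
  rw [← cn_comp (e.1.differentiableAt (by simp)) ((hσ j _ b).differentiableAt (by simp)),
    cn_congr (Filter.eventually_of_mem (h2.mem_nhds hz) h6)]
  exact cn_gauge h1 ((hσ i z a).differentiableAt (by simp))
    ((h5.contDiffAt (h2.mem_nhds hz)).differentiableAt (by simp)) (h.unit i z a)

theorem Ln.curv (h : Ln q W σ) :
    ∃ w : Fo M 2, ClO w univ ∧ ∀ i, IsD (cn (σ i)) (pl (q i) w) (W i) := by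
  have hs : ∀ i, Sm (cn (σ i)) (W i) := fun i => cn_sm (h.par i).opn (h.sm i)
  obtain ⟨w, h1, h2⟩ := G2_desc h.par (fun i => extDeriv (cn (σ i)))
    (fun i => IsD.cl ⟨hs i, fun _ _ => rfl⟩ (h.par i).opn) fun i j f x hx hy hf => by
      obtain ⟨c, θ, N, -, a, b, e, g⟩ := h.gauge hx hy hf
      have k := G2_cl1 a e
      have : pb f (cn (σ j)) =ᶠ[𝓝 x] cn (σ i) + fun z => alt1 (fderiv ℝ θ z) :=
        Filter.eventually_of_mem (a.mem_nhds b) fun z hz => (g z hz).2.2.2.2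
      rw [← extDeriv_pb ((hs j).diffAt (h.par j).opn hy) hf.1, this.extDeriv_eq,
        extDeriv_add ((hs i).diffAt (h.par i).opn hx) (k.1.diffAt a b), k.2 x b, add_zero]
  refine ⟨w, h1.mono fun m _ => ?_, fun i => ⟨hs i, fun x hx => (h2 i x hx).symm⟩⟩
  obtain ⟨i, x, hx, e⟩ := h.cov m
  exact mem_iUnion.2 ⟨i, x, hx, e⟩

end Pool.Agent.Work.MP_bf98aa_gt.B3
end

-- merged part: Pool.Agent.Work.MP_bf98aa_gt.B3.Y5
section
/-!
Flat line bundles on simply connected manifolds.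

PLAN. `lc_glob`: copy `sign_glob` (`Cy/Q6a`) with the fibre `G` and the topology `⊥`, `coordChange i j x v = e i x / e j x * v`. `Ln.loc`: on a ball `B ⊆ W i` around `x`, `cn (σ i) - pl (q i) β = du` (`RA_convex`, `G11_pot` or `G4_zero`, `G4_ext`);
`s = exp (-i u) • σ i` has `cn s = pl (q i) β` (`cn_gauge`). `Ln.flat`: index by the pairs `(i, x)`; the family `(q i, B, s)` is again `Ln`, and in `Ln.gauge` for it `dθ = 0` (`Tr.pl_ev`), so `θ` is constant near the point.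
Shrink `B` so that `q i` is injective on it (`Par.inv`), `N = q i '' B`, `τ = s ∘ invFunOn`; `τ k m = e k m • τ (k₀ m) m` with `e k m : Circle`; `F m = ε m • τ (k₀ m) m`.
-/

set_option autoImplicit false

open scoped Manifold ContDiff Topology ComplexConjugate
open Set Complex

namespace Pool.Agent.Work.MP_bf98aa_gt.B3

open Pool.Agent.Work.MP_bf98aa_gt.Th Pool.Agent.Work.MP_bf98aa_gt.Cy

theorem lc_glob {X ι G : Type} [TopologicalSpace X] [SimplyConnectedSpace X]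
    [LocallyPathConnectedSpace X] [CommGroup G] {N : ι → Set X} (hN : ∀ k, IsOpen (N k))
    (hc : ∀ x, ∃ k, x ∈ N k) {e : ι → X → G}
    (h : ∀ k l, ∀ x ∈ N k ∩ N l, ∀ᶠ y in 𝓝 x, e k y / e l y = e k x / e l x) :
    ∃ ε : X → G, ∀ k, ∀ x ∈ N k, ∀ᶠ y in 𝓝 x, ε y / e k y = ε x / e k x := by
  choose k₀ hk₀ using hc
  let : TopologicalSpace G := ⊥
  have : DiscreteTopology G := ⟨rfl⟩
  let Z : FiberBundleCore ι X G :=
    { baseSet := N
      isOpen_baseSet := hN
      indexAt := k₀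
      mem_baseSet_at := hk₀
      coordChange := fun i j x v => e i x / e j x * v
      coordChange_self := fun i x _ v => by rw [div_self', one_mul]
      continuousOn_coordChange := fun i j p hp => by
        have h1 : ∀ᶠ p' : X × G in 𝓝 p, e i p'.1 / e j p'.1 = e i p.1 / e j p.1 :=
          continuous_fst.continuousAt.eventually (h i j p.1 hp.1)
        have h2 : ∀ᶠ p' : X × G in 𝓝 p, p'.2 = p.2 :=
          continuous_snd.continuousAt.eventually ((isOpen_discrete {p.2}).mem_nhds rfl)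
        refine (Filter.EventuallyEq.continuousAt (y := e i p.1 / e j p.1 * p.2) ?_).continuousWithinAt
        filter_upwards [h1, h2] with p' h3 h4
        rw [h3, h4]
      coordChange_comp := fun i j k x _ v => by
        rw [← mul_assoc, mul_comm (e j x / e k x), div_mul_div_cancel] }
  have hcov : IsCoveringMap Z.proj :=
    IsFiberBundle.isCoveringMap fun x => ⟨Z.localTriv (k₀ x), hk₀ x⟩
  obtain ⟨x₀⟩ : Nonempty X := inferInstance
  obtain ⟨σ, ⟨-, hσ⟩, -⟩ := hcov.existsUnique_continuousMap_lifts (ContinuousMap.id X) x₀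
    ⟨x₀, (1 : G)⟩ rfl
  have hσ' : ∀ x, (σ x).1 = x := congrFun hσ
  let v : X → G := fun x => (σ x).2
  refine ⟨fun x => e (k₀ x) x * v x, fun k x hx => ?_⟩
  have h1 : ContinuousOn (fun x => Z.localTriv k (σ x)) (N k) :=
    (Z.localTriv k).continuousOn.comp σ.continuous.continuousOn fun x hx => by
      change (σ x).1 ∈ N k
      rwa [hσ']
  have h2 : ∀ y, (Z.localTriv k (σ y)).2 = e (k₀ y) y * v y / e k y := fun y => by
    change e (k₀ (σ y).1) (σ y).1 / e k (σ y).1 * v y = _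
    rw [hσ', div_mul_eq_mul_div]
  have h3 : ContinuousAt (fun y => (Z.localTriv k (σ y)).2) x :=
    continuous_snd.continuousAt.comp (h1.continuousAt ((hN k).mem_nhds hx))
  filter_upwards [h3.eventually ((isOpen_discrete {(Z.localTriv k (σ x)).2}).mem_nhds rfl)]
    with y hy
  rw [← h2, ← h2]
  exact hy

variable {H : Type} [NormedAddCommGroup H] [InnerProductSpace ℂ H]
  {M ι : Type} [TopologicalSpace M] [ChartedSpace E6 M] [IsManifold 𝓘(ℝ, E6) ∞ M]
  {q : ι → E6 → M} {W : ι → Set E6} {σ : ι → E6 → H} {β : Fo M 1}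

theorem Ln.loc (h : Ln q W σ) (hβ : ∀ i, Cl (cn (σ i) - pl (q i) β) (W i)) {i : ι} {x : E6}
    (hx : x ∈ W i) : ∃ (B : Set E6) (u : E6 → ℝ), IsOpen B ∧ x ∈ B ∧ B ⊆ W i ∧ InjOn (q i) B ∧
      ContDiffOn ℝ ∞ u B ∧ ∀ z ∈ B, cn (fun y => exp (I * u y) • σ i y) z = pl (q i) β z := by
  obtain ⟨χ, -, h2, -⟩ := (h.par i).inv x hx
  obtain ⟨r, hr, hb⟩ := Metric.mem_nhds_iff.1 (h2.and ((h.par i).opn.mem_nhds hx))
  have hW : Metric.ball x r ⊆ W i := fun y hy => (hb hy).2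
  obtain ⟨γ, hγ, hd⟩ := RA_convex Metric.isOpen_ball (convex_ball x r) 1 _ (FMV_mono (hβ i) hW)
  have hf : ∀ z ∈ Metric.ball x r, ContDiffAt ℝ ∞ (fun y => γ y ![]) z := fun z hz =>
    contDiffAt_alt_iff.1 (hγ.at Metric.isOpen_ball hz) ![]
  refine ⟨Metric.ball x r, fun y => -γ y ![], Metric.isOpen_ball, Metric.mem_ball_self hr, hW,
    fun y hy y' hy' e => ?_, fun z hz => (hf z hz).neg.contDiffWithinAt, fun z hz => ?_⟩
  · rw [← (hb hy).1, ← (hb hy').1, e]
  · have h3 : alt1 (fderiv ℝ (fun y => γ y ![]) z) = cn (σ i) z - pl (q i) β z := by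
      rw [← G4_ext]
      refine Eq.trans ?_ (hd z hz)
      congr 1
      funext y
      exact (G4_zero (γ y)).symm
    have h4 := cn_gauge (s := σ i) (θ := fun y => -γ y ![]) (c := 1) norm_one
      (((h.sm i).contDiffAt ((h.par i).opn.mem_nhds (hW hz))).differentiableAt (by simp))
      ((hf z hz).neg.differentiableAt (by simp)) (h.unit i z (hW hz))
    simp only [one_mul] at h4
    rw [h4, fderiv_fun_neg]
    have h5 : alt1 (-fderiv ℝ (fun y => γ y ![]) z) = -alt1 (fderiv ℝ (fun y => γ y ![]) z) :=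
      map_neg (ContinuousAlternatingMap.ofSubsingletonLIE (0 : Fin 1)) _
    rw [h5, h3]
    abel

omit [IsManifold 𝓘(ℝ, E6) ∞ M] in
theorem Y5_le {ψ : E6 → M} {U : Set E6} (hP : Par ψ U) {x : E6} (hx : x ∈ U) :
    𝓝 (ψ x) ≤ Filter.map ψ (𝓝 x) := fun S hS => by
  obtain ⟨χ, h1, h2, h3⟩ := hP.inv x hx
  have h4 : ψ ⁻¹' S ∈ 𝓝 (χ (ψ x)) := by
    rw [h2.self_of_nhds]
    exact hS
  filter_upwards [h3, h1.continuousAt.eventually h4] with m h5 h6
  rw [← h5]
  exact h6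

theorem Y5_const (h : Ln q W σ) (hcn : ∀ i, ∀ z ∈ W i, cn (σ i) z = pl (q i) β z) {i j : ι}
    {x : E6} {f : E6 → E6} (hx : x ∈ W i) (hy : f x ∈ W j) (hf : Tr (q i) (q j) f x) :
    ∃ c : ℂ, c ≠ 0 ∧ ∀ᶠ z in 𝓝 x, σ j (f z) = c • σ i z := by
  obtain ⟨c, θ, N, hc, hN, hxN, hθ, h1⟩ := h.gauge hx hy hf
  obtain ⟨r, hr, hb⟩ := Metric.isOpen_iff.1 hN x hxN
  have h0 : ∀ z ∈ Metric.ball x r, fderiv ℝ θ z = 0 := fun z hz => by
    obtain ⟨h2, h3, h4, -, h5⟩ := h1 z (hb hz)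
    have h6 := h4.pl ((h.par j).sm _ h3) β
    rw [pb, ← hcn _ _ h3, ← hcn _ _ h2] at h6
    rw [pb, ← h6, left_eq_add] at h5
    ext v
    exact (alt1_apply _ ![v]).symm.trans (congrArg (fun w : Alt E6 1 => w ![v]) h5)
  refine ⟨c * exp (I * θ x), mul_ne_zero (fun h2 => by simp [h2] at hc) (exp_ne_zero _), ?_⟩
  filter_upwards [Metric.ball_mem_nhds x hr] with z hz
  rw [(h1 z (hb hz)).2.2.2.1, Metric.isOpen_ball.is_const_of_fderiv_eq_zero (𝕜 := ℝ)
    (convex_ball x r).isPreconnected ((hθ.mono hb).differentiableOn (by simp)) h0 hz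
    (Metric.mem_ball_self hr)]

theorem Y5_glue [SimplyConnectedSpace M] (h : Ln q W σ) (hinj : ∀ i, InjOn (q i) (W i))
    (hc : ∀ i j x f, x ∈ W i → f x ∈ W j → Tr (q i) (q j) f x →
      ∃ c : ℂ, c ≠ 0 ∧ ∀ᶠ z in 𝓝 x, σ j (f z) = c • σ i z) : ∃ F : M → H, Continuous F ∧
      ∀ i, ∀ x ∈ W i, ∃ c : ℂ, c ≠ 0 ∧ F (q i x) = c • σ i x := by
  have := ChartedSpace.locallyPathConnectedSpace E6 M
  let τ : ι → M → H := fun i m => σ i (Function.invFunOn (q i) (W i) m)
  have hτ : ∀ i, ∀ x ∈ W i, τ i (q i x) = σ i x := fun i x hx =>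
    congrArg (σ i) ((hinj i).leftInvOn_invFunOn hx)
  have hN : ∀ i, IsOpen (q i '' W i) := fun i => (h.par i).isOpen_image (h.par i).opn subset_rfl
  have hne : ∀ i, ∀ m ∈ q i '' W i, τ i m ≠ 0 := by
    rintro i _ ⟨x, hx, rfl⟩ h0
    have h1 := h.unit i x hx
    rw [← hτ i x hx, h0, norm_zero] at h1
    exact zero_ne_one h1
  have key : ∀ i j, ∀ m ∈ q i '' W i, m ∈ q j '' W j →
      ∃ c : ℂˣ, ∀ᶠ m' in 𝓝 m, τ j m' = (c : ℂ) • τ i m' := by
    rintro i j _ ⟨x, hx, rfl⟩ ⟨y, hy, e⟩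
    obtain ⟨f, hf, e'⟩ := (h.par j).tr hy ((h.par i).sm x hx) e.symm
    have hy' : f x ∈ W j := e' ▸ hy
    obtain ⟨c, h0, h1⟩ := hc i j x f hx hy' hf
    refine ⟨Units.mk0 c h0, Filter.Eventually.filter_mono (Y5_le (h.par i) hx)
      (Filter.eventually_map.2 ?_)⟩
    filter_upwards [h1, hf.2, (h.par i).opn.mem_nhds hx,
      hf.1.continuousAt.eventually ((h.par j).opn.mem_nhds hy')] with z h2 h3 h4 h5
    change τ j (q i z) = c • τ i (q i z)
    rw [hτ i z h4, ← h3, hτ j _ h5, h2]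
  have hcov : ∀ m, ∃ i, m ∈ q i '' W i := h.cov
  choose k₀ hk₀ using id hcov
  have he : ∀ i m, ∃ c : ℂˣ, m ∈ q i '' W i → τ i m = (c : ℂ) • τ (k₀ m) m := fun i m => by
    by_cases hm : m ∈ q i '' W i
    · obtain ⟨c, h1⟩ := key _ i m (hk₀ m) hm
      exact ⟨c, fun _ => h1.self_of_nhds⟩
    · exact ⟨1, fun h1 => (hm h1).elim⟩
  choose e he using he
  obtain ⟨ε, hε⟩ := lc_glob hN hcov (e := e) fun i j m hm => by
    obtain ⟨c, h1⟩ := key j i m hm.2 hm.1
    have h2 : ∀ᶠ m' in 𝓝 m, e i m' / e j m' = c := by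
      filter_upwards [h1, (hN i).mem_nhds hm.1, (hN j).mem_nhds hm.2] with m' h3 h4 h5
      rw [he i m' h4, he j m' h5, smul_smul] at h3
      rw [div_eq_iff_eq_mul]
      exact Units.ext (smul_left_injective ℂ (hne _ _ (hk₀ m')) h3)
    filter_upwards [h2] with m' h3
    rw [h3, h2.self_of_nhds]
  have hF : ∀ i, ∀ m ∈ q i '' W i,
      (ε m : ℂ) • τ (k₀ m) m = ((ε m / e i m : ℂˣ) : ℂ) • τ i m := fun i m hm => by
    rw [he i m hm, smul_smul, ← Units.val_mul, div_mul_cancel]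
  refine ⟨fun m => (ε m : ℂ) • τ (k₀ m) m, continuous_iff_continuousAt.2 fun m => ?_,
    fun i x hx => ⟨_, (ε (q i x) / e i (q i x)).ne_zero, ?_⟩⟩
  · obtain ⟨i, x, hx, rfl⟩ := h.cov m
    have h1 : ContinuousAt (fun z => τ i (q i z)) x :=
      ((h.sm i).contDiffAt ((h.par i).opn.mem_nhds hx)).continuousAt.congr
        (Filter.mem_of_superset ((h.par i).opn.mem_nhds hx) fun z hz => (hτ i z hz).symm)
    have h2 : ContinuousAt (τ i) (q i x) :=
      (Filter.tendsto_map'_iff.2 (show Filter.Tendsto (τ i ∘ q i) _ _ from h1)).mono_left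
        (Y5_le (h.par i) hx)
    refine (h2.const_smul ((ε (q i x) / e i (q i x) : ℂˣ) : ℂ)).congr ?_
    filter_upwards [hε i _ ⟨x, hx, rfl⟩, (hN i).mem_nhds ⟨x, hx, rfl⟩] with m h3 h4
    rw [hF i m h4, h3]
    rfl
  · rw [← hτ i x hx]
    exact hF i _ ⟨x, hx, rfl⟩

theorem Ln.flat [SimplyConnectedSpace M] (h : Ln q W σ)
    (hβ : ∀ i, Cl (cn (σ i) - pl (q i) β) (W i)) : ∃ F : M → H, Continuous F ∧
      ∀ i, ∀ x ∈ W i, ∃ c : ℂ, c ≠ 0 ∧ F (q i x) = c • σ i x := by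
  choose B u hB hxB hBW hinj hu hcn using
    fun k : {p : ι × E6 // p.2 ∈ W p.1} => h.loc hβ k.2
  have hL : Ln (fun k : {p : ι × E6 // p.2 ∈ W p.1} => q k.1.1) B
      fun k y => exp (I * u k y) • σ k.1.1 y := by
    refine ⟨fun k => (h.par _).mono (hB k) (hBW k), fun m => ?_, fun k => ?_, fun k x hx => ?_,
      fun k l x hx y hy e => ?_⟩
    · obtain ⟨i, x, hx, e⟩ := h.cov m
      exact ⟨⟨(i, x), hx⟩, x, hxB _, e⟩
    · exact (contDiffOn_const.mul (ofRealCLM.contDiff.comp_contDiffOn (hu k))).cexp.smul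
        ((h.sm _).mono (hBW k))
    · rw [norm_smul, h.unit _ x (hBW k hx), mul_comm I, norm_exp_ofReal_mul_I, one_mul]
    · obtain ⟨c, hc⟩ := h.prop _ _ x (hBW k hx) y (hBW l hy) e
      refine ⟨exp (I * u l y) * c * (exp (I * u k x))⁻¹, ?_⟩
      rw [hc, smul_smul, smul_smul, inv_mul_cancel_right₀ (exp_ne_zero _)]
  obtain ⟨F, hF, h1⟩ := Y5_glue hL hinj fun k l x f hx hy hf => Y5_const hL hcn hx hy hf
  refine ⟨F, hF, fun i x hx => ?_⟩
  obtain ⟨c, hc, h2⟩ := h1 ⟨(i, x), hx⟩ x (hxB _)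
  exact ⟨c * exp (I * u ⟨(i, x), hx⟩ x), mul_ne_zero hc (exp_ne_zero _), by rw [h2, smul_smul]⟩

end Pool.Agent.Work.MP_bf98aa_gt.B3
end
end

-- merged part: Pool.Agent.Work.MP_bf98aa_gt.Cy.N6
section
-- merged part: Pool.Agent.Work.MP_bf98aa_gt.B3.Sa
section
/-!
A radial plane map of degree one, and the standard forms.
-/

set_option autoImplicit false

open scoped Manifold ContDiff Topology Matrix ComplexConjugate
open Set Complex Filter

namespace Pool.Agent.Work.MP_bf98aa_gt.B3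

open Pool.Agent.Work.MP_bf98aa_gt.Th Pool.Agent.Work.MP_bf98aa_gt.Cy

/-- The cut-off function. -/
noncomputable def Sa_χ (t : ℝ) : ℝ := Real.smoothTransition (7 - 8 * t)

/-- The radial factor. -/
noncomputable def Sa_c (t : ℝ) : ℝ := Sa_χ t * √((1 - t) / t)

/-- The radial profile. -/
noncomputable def Sa_N (t : ℝ) : ℝ := Sa_χ t ^ 2 * (1 - t)

/-- The plane map of the second half. -/
noncomputable def Sa_g (ζ : ℂ) : ℂ := Sa_c (normSq ζ) * (starRingEnd ℂ) ζ

theorem Sa_χ_one {t : ℝ} (h : t ≤ 3 / 4) : Sa_χ t = 1 :=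
  Real.smoothTransition.one_of_one_le (by linarith)

theorem Sa_χ_zero {t : ℝ} (h : 7 / 8 ≤ t) : Sa_χ t = 0 :=
  Real.smoothTransition.zero_of_nonpos (by linarith)

theorem Sa_χ_sm : ContDiff ℝ ∞ Sa_χ :=
  Real.smoothTransition.contDiff.comp (contDiff_const.sub (contDiff_const.mul contDiff_id))

theorem Sa_N_sm : ContDiff ℝ ∞ Sa_N := (Sa_χ_sm.pow 2).mul (contDiff_const.sub contDiff_id)

theorem Sa_c_sm {t : ℝ} (h : 0 < t) : ContDiffAt ℝ ∞ Sa_c t := by
  rcases lt_or_ge t 1 with h1 | h1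
  · exact Sa_χ_sm.contDiffAt.mul (((contDiffAt_const.sub contDiffAt_id).div contDiffAt_id
      h.ne').sqrt (div_pos (sub_pos.2 h1) h).ne')
  · refine (contDiffAt_const (c := 0)).congr_of_eventuallyEq ?_
    filter_upwards [Ioi_mem_nhds (show 7 / 8 < t by linarith)] with x hx
    rw [Sa_c, Sa_χ_zero (le_of_lt hx), zero_mul]

theorem Sa_cN {t : ℝ} (h : 0 < t) : Sa_c t ^ 2 * t = Sa_N t := by
  rcases le_total t 1 with h1 | h1
  · rw [Sa_c, Sa_N, mul_pow, Real.sq_sqrt (div_nonneg (sub_nonneg.2 h1) h.le), mul_assoc,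
      div_mul_cancel₀ _ h.ne']
  · rw [Sa_c, Sa_N, Sa_χ_zero (by linarith)]
    ring

theorem Sa_g_norm {ζ : ℂ} (h : 0 < normSq ζ) : normSq (Sa_g ζ) = Sa_N (normSq ζ) := by
  rw [Sa_g, map_mul, normSq_ofReal, normSq_conj, ← sq, Sa_cN h]

theorem Sa_N_lt {t : ℝ} (h : 1 / 16 < t) : Sa_N t < 15 / 16 := by
  have h1 : Sa_χ t ^ 2 ≤ 1 := pow_le_one₀ (Real.smoothTransition.nonneg _)
    (Real.smoothTransition.le_one _)
  rcases le_total t 1 with h2 | h2
  · exact (mul_le_of_le_one_left (sub_nonneg.2 h2) h1).trans_lt (by linarith)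
  · exact (mul_nonpos_of_nonneg_of_nonpos (sq_nonneg _) (sub_nonpos.2 h2)).trans_lt (by norm_num)

theorem Sa_nsq : ContDiff ℝ ∞ (normSq : ℂ → ℝ) :=
  (reCLM.contDiff.mul reCLM.contDiff).add (imCLM.contDiff.mul imCLM.contDiff)

theorem Sa_g_sm {ζ : ℂ} (h : 0 < normSq ζ) : ContDiffAt ℝ ∞ Sa_g ζ :=
  (ofRealCLM.contDiff.contDiffAt.comp ζ ((Sa_c_sm h).comp ζ Sa_nsq.contDiffAt)).mul
    conjCLE.contDiff.contDiffAt

theorem Sa_jac {ζ : ℂ} (h : 0 < normSq ζ) : (fderiv ℝ Sa_g ζ 1).re * (fderiv ℝ Sa_g ζ I).im -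
    (fderiv ℝ Sa_g ζ 1).im * (fderiv ℝ Sa_g ζ I).re = -deriv Sa_N (normSq ζ) := by
  have h1 := ((Sa_c_sm h).differentiableAt (by simp)).hasDerivAt
  have h2 : HasFDerivAt (normSq : ℂ → ℝ) _ ζ :=
    (reCLM.hasFDerivAt.mul reCLM.hasFDerivAt).add (imCLM.hasFDerivAt.mul imCLM.hasFDerivAt)
  have h3 : HasFDerivAt Sa_g _ ζ :=
    (ofRealCLM.hasFDerivAt.comp ζ (h1.comp_hasFDerivAt ζ h2)).mul conjCLE.hasFDerivAt
  have h4 : HasDerivAt Sa_N _ (normSq ζ) :=
    ((h1.pow 2).mul (hasDerivAt_id _)).congr_of_eventuallyEq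
      (Filter.mem_of_superset (Ioi_mem_nhds h) fun t ht => (Sa_cN ht).symm)
  rw [h3.fderiv, h4.deriv]
  generalize deriv Sa_c (normSq ζ) = c'
  simp [normSq_apply]
  ring

theorem Sa_int : ∫ ζ : ℂ, -deriv Sa_N (normSq ζ) / Real.pi = 1 := by
  have h1 := MeasureTheory.integral_fun_norm_addHaar (MeasureTheory.volume : MeasureTheory.Measure ℂ)
    fun y => -deriv Sa_N (y ^ 2) / Real.pi
  have h2 : HasCompactSupport fun y : ℝ => Sa_N (y ^ 2) :=
    HasCompactSupport.intro (isCompact_Icc (a := -1) (b := 1)) fun y hy => by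
      have h3 : 1 < |y| := not_le.1 fun h => hy (abs_le.1 h)
      rw [Sa_N, Sa_χ_zero (by nlinarith [sq_abs y]), zero_pow two_ne_zero, zero_mul]
  have h6 : ContDiff ℝ 1 fun y : ℝ => Sa_N (y ^ 2) :=
    (Sa_N_sm.of_le (by simp)).comp (contDiff_id.pow 2)
  have h3 := h2.integral_Ioi_deriv_eq h6 0
  have h4 : ∀ y : ℝ, y ^ (2 - 1) • (-deriv Sa_N (y ^ 2) / Real.pi) =
      -(2 * Real.pi)⁻¹ * deriv (fun y : ℝ => Sa_N (y ^ 2)) y := fun y => by
    have h5 : HasDerivAt (fun y : ℝ => Sa_N (y ^ 2)) _ y := HasDerivAt.comp (h := fun y => y ^ 2) y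
      (Sa_N_sm.differentiable (by simp) _).hasDerivAt (hasDerivAt_pow 2 y)
    rw [h5.deriv, smul_eq_mul]
    push_cast
    ring
  simp only [normSq_eq_norm_sq]
  rw [h1, finrank_real_complex]
  simp only [h4]
  rw [MeasureTheory.integral_const_mul, h3, MeasureTheory.measureReal_def, Complex.volume_ball, Sa_N,
    Sa_χ_one (by norm_num)]
  simp

theorem Sa_N_nonneg (t : ℝ) : 0 ≤ Sa_N t := by
  rcases le_total t 1 with h | h
  · exact mul_nonneg (sq_nonneg _) (sub_nonneg.2 h)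
  · rw [Sa_N, Sa_χ_zero (by linarith)]
    simp

theorem d1_lamS (z u v : E6) : d1 lamS z ![u, v] =
    (∑ j, (u (j, 0) * v (j, 1) - u (j, 1) * v (j, 0))) / Real.pi := by
  have h := fun i => (contDiff_rot1 i).contDiffAt (x := z)
  have e : lamS = fun z => (rot1 0 z + rot1 1 z) + rot1 2 z := rfl
  rw [e, d1_add ((h 0).add (h 1)) (h 2), d1_add (h 0) (h 1)]
  simp only [ContinuousAlternatingMap.add_apply, d1_rot1, Fin.sum_univ_three]
  ring

theorem d1_lamL (z u v : E6) : d1 (lamX .L) z ![u, v] =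
    (u (0, 0) * v (0, 1) - u (0, 1) * v (0, 0) + (u (1, 0) * v (1, 1) - u (1, 1) * v (1, 0))) /
      Real.pi + (u (2, 0) * v (2, 1) - u (2, 1) * v (2, 0)) := by
  have h := fun i => (contDiff_rot1 i).contDiffAt (x := z)
  have h2 : ContDiffAt ℝ ∞ (fun z : E6 => z (2, 0)) z := (dc (2, 0)).contDiff.contDiffAt
  have e : lamX .L = fun z => (rot1 0 z + rot1 1 z) + z (2, 0) • dc (2, 1) := rfl
  have e2 : fderiv ℝ (fun z : E6 => z (2, 0)) z = dc (2, 0) := (dc (2, 0)).fderiv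
  rw [e, d1_add (l' := fun z => z (2, 0) • dc (2, 1)) ((h 0).add (h 1))
    (h2.smul contDiffAt_const), d1_add (h 0) (h 1),
    d1_smul h2 contDiffAt_const, d1_const, smul_zero, add_zero, e2]
  simp only [ContinuousAlternatingMap.add_apply, d1_rot1, wedge_apply, dc_apply,
    Matrix.cons_val_zero, Matrix.cons_val_one]
  ring

theorem pb_two {F : Type} [NormedAddCommGroup F] [NormedSpace ℝ F] (f : F → E6) (w : Fm E6 2)
    (x u v : F) : pb f w x ![u, v] = w (f x) ![fderiv ℝ f x u, fderiv ℝ f x v] := by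
  rw [pb, ContinuousAlternatingMap.compContinuousLinearMap_apply]
  congr 1
  funext i
  fin_cases i <;> rfl

end Pool.Agent.Work.MP_bf98aa_gt.B3
end

-- merged part: Pool.Agent.Work.MP_bf98aa_gt.B3.Y3
section
/-!
The minors of a complex linear injection.

PLAN. `exists_lagF`: `exists_darboux`, `v j = A (fr j)` (see `G10b_one`). `minor_ne`: a left inverse `L` of `c ↦ ∑ c k • u k` gives `1 = det (L u) = ∑ p, (∏ L k (p k)) * minor p` (`MultilinearMap.map_sum`
for `Matrix.detRowAlternating`), or `Matrix.rank` and `exists_linearIndependent` on the rows. `lag_ind`: `x + J y = 0` with `x y` in the span of `v` gives `α ![y, J y] = 0`, so `y = 0`, `x = 0`.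
`plu_ne`: `Θ w = D w - i D (J w)` is `J`-linear and injective (real part), `∑ c k • Θ (v k) = Θ (x + J y)`. `exists_cofr`: invert `z ↦ ∑ (z k).re • v k + (z k).im • J (v k)` (injective, dimension 6).
`plu_line`: `det_lin` for `cx D J p ∘ S⁻¹`, `det3_apply`. `plu_smooth`: `contDiffOn_euclidean` (or `PiLp.continuousLinearEquiv`), `Matrix.det_fin_three`.
-/

set_option autoImplicit false

open scoped Manifold ContDiff Topology ComplexConjugate
open Set Complex

namespace Pool.Agent.Work.MP_bf98aa_gt.B3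

open Pool.Agent.Work.MP_bf98aa_gt.Th Pool.Agent.Work.MP_bf98aa_gt.Cy

variable {n : ℕ} {α : Alt E6 2} {D : E6 →L[ℝ] Rn n} {J : E6 →L[ℝ] E6} {v : Fin 3 → E6}

theorem Y3_det (S : CF) (w : Fin 3 → E6) : det3 (fun j => S (w j)) = detC S w :=
  det3_apply S w

/-- The real linear map with `e3 k ↦ v k` and `i • e3 k ↦ J (v k)`. -/
noncomputable def Y3_phi (J : E6 →L[ℝ] E6) (v : Fin 3 → E6) : V3 →ₗ[ℝ] E6 where
  toFun z := ∑ k, (z k).re • v k + J (∑ k, (z k).im • v k)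
  map_add' z z' := by
    simp only [Pi.add_apply, add_re, add_im, add_smul, Finset.sum_add_distrib, map_add]
    abel
  map_smul' c z := by
    simp only [Pi.smul_apply, smul_re, smul_im, smul_eq_mul, mul_smul, ← Finset.smul_sum, map_smul,
      RingHom.id_apply, smul_add]

theorem Y3_phi_apply (z : V3) :
    Y3_phi J v z = ∑ k, (z k).re • v k + J (∑ k, (z k).im • v k) := rfl

theorem Y3_phi_I (hJ : ∀ u, J (J u) = -u) (z : V3) : Y3_phi J v (I • z) = J (Y3_phi J v z) := by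
  rw [Y3_phi_apply, Y3_phi_apply, map_add, hJ, add_comm]
  simp

theorem Y3_phi_e (k : Fin 3) : Y3_phi J v (e3 k) = v k := by
  rw [Y3_phi_apply]
  fin_cases k <;> simp [e3, Fin.sum_univ_three]

theorem exists_lagF (hn : ∀ u, (∀ v, α ![u, v] = 0) → u = 0) : ∃ v, LagF α v := by
  obtain ⟨A, hA⟩ := exists_darboux α hn
  have hi : ∀ u, A u = 0 → u = 0 := fun u h2 => by
    by_contra h0
    obtain ⟨u', e⟩ := G10b_std.1.2 (Complex.I • G10b_C u)
    have h1 := G10b_std.2 u u' h0 e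
    rw [← hA, IPf_comp, h2, alt2_swap, G10b_zero, neg_zero] at h1
    exact lt_irrefl _ h1
  refine ⟨fun j => A (Cy.fr j), Fintype.linearIndependent_iff.2 fun g hg i => ?_, fun i k => ?_⟩
  · have h1 : (∑ j, g j • Cy.fr j : E6) = 0 := hi _ (by simpa only [map_sum, map_smul] using hg)
    exact (G10b_c1 g i).symm.trans (congrFun h1 (i, 1))
  · rw [← IPf_comp, hA, IPf_omA]
    simp [Cy.fr, bv]

theorem minor_ne {u : Fin 3 → Fin n → ℂ} (h : LinearIndependent ℂ u) :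
    ∃ p : Fin 3 → Fin n, (Matrix.of fun i j : Fin 3 => u j (p i)).det ≠ 0 := by
  by_contra hc
  simp only [not_exists, not_not] at hc
  obtain ⟨g, hg⟩ := (Fintype.linearCombination ℂ u).exists_leftInverse_of_injective
    (LinearMap.ker_eq_bot.2 h.fintypeLinearCombination_injective)
  have h1 : ∀ j, g (u j) = Pi.single j 1 := fun j => by
    simpa [Fintype.linearCombination_apply_single] using LinearMap.congr_fun hg (Pi.single j 1)
  have h2 : (1 : Matrix (Fin 3) (Fin 3) ℂ) =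
      fun i => ∑ a, g (Pi.single a 1) i • fun j => u j a := by
    ext i j
    have h3 := congrFun (h1 j) i
    rw [pi_eq_sum_univ' (u j), map_sum, Finset.sum_apply] at h3
    rw [Finset.sum_apply, Matrix.one_apply, ← Pi.single_apply, ← h3]
    exact Finset.sum_congr rfl fun a _ => by simp [mul_comm]
  have h4 := (Matrix.detRowAlternating :
    (Fin 3 → ℂ) [⋀^Fin 3]→ₗ[ℂ] ℂ).toMultilinearMap.map_sum
      fun (i : Fin 3) (a : Fin n) => g (Pi.single a 1) i • fun j => u j a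
  rw [← h2, Finset.sum_eq_zero fun p _ => by
    rw [MultilinearMap.map_smul_univ]
    exact smul_eq_zero_of_right _ (hc p)] at h4
  exact one_ne_zero (Matrix.det_one.symm.trans h4)

theorem lag_ind (hv : LagF α v) (ht : Tms α J) {a b : Fin 3 → ℝ}
    (h : ∑ k, a k • v k + J (∑ k, b k • v k) = 0) : a = 0 ∧ b = 0 := by
  obtain ⟨B, hB⟩ := exists_bilin α
  have h0 : ∀ i k, B (v i) (v k) = 0 := fun i k => (hB _ _).symm.trans (hv.2 i k)
  have h1 : ∑ k, b k • v k = 0 := by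
    by_contra h2
    have h3 := ht _ h2
    rw [hB, ← neg_eq_iff_add_eq_zero.2 h] at h3
    simp [h0] at h3
  rw [h1, map_zero, add_zero] at h
  exact ⟨funext (Fintype.linearIndependent_iff.1 hv.1 a h),
    funext (Fintype.linearIndependent_iff.1 hv.1 b h1)⟩

theorem cx_J (hJ : ∀ u, J (J u) = -u) (p : Fin 3 → Fin n) (u : E6) :
    cx D J p (J u) = I • cx D J p u := by
  funext k
  rw [Pi.smul_apply, cx_apply, cx_apply, hJ, map_neg, smul_eq_mul, PiLp.neg_apply, ofReal_neg]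
  linear_combination (D (J u) (p k) : ℂ) * I_mul_I

theorem plu_ne (hv : LagF α v) (ht : Tms α J) (hJ : ∀ u, J (J u) = -u)
    (hD : Function.Injective D) : plu D J v ≠ 0 := by
  have h : LinearIndependent ℂ fun j (a : Fin n) => (D (v j) a - I * D (J (v j)) a : ℂ) := by
    refine Fintype.linearIndependent_iff.2 fun c hc i => ?_
    have h1 : ∑ k, (c k).re • v k + J (∑ k, (c k).im • v k) = 0 := by
      apply hD
      ext a
      have h2 := congrArg re (congrFun hc a)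
      simp only [Fin.sum_univ_three] at h2 ⊢
      simp at h2 ⊢
      linarith
    obtain ⟨h3, h4⟩ := lag_ind hv ht h1
    exact Complex.ext (congrFun h3 i) (congrFun h4 i)
  obtain ⟨p, hp⟩ := minor_ne h
  intro h0
  exact hp ((plu_apply D J v p).symm.trans (by rw [h0]; rfl))

theorem exists_cofr (hv : LagF α v) (ht : Tms α J) (hJ : ∀ u, J (J u) = -u) :
    ∃ S : CF, TameS α S ∧ (∀ u, S (J u) = I • S u) ∧ ∀ k, S (v k) = e3 k := by
  have hi : Function.Injective (Y3_phi J v) := (injective_iff_map_eq_zero _).2 fun z hz => by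
    obtain ⟨h3, h4⟩ := lag_ind hv ht hz
    exact funext fun i => Complex.ext (congrFun h3 i) (congrFun h4 i)
  let e : V3 ≃L[ℝ] E6 := ((Y3_phi J v).linearEquivOfInjective hi
    (by simp [Module.finrank_pi_fintype])).toContinuousLinearEquiv
  have he : ∀ z, e z = Y3_phi J v z := fun z => rfl
  have h1 : ∀ u, e.symm (J u) = I • e.symm u := fun u =>
    e.symm_apply_eq.2 (by rw [he, Y3_phi_I hJ, ← he, e.apply_symm_apply])
  refine ⟨e.symm, ⟨e.symm.bijective, fun u u' hu k => ?_⟩, h1,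
    fun k => e.symm_apply_eq.2 ((he _).trans (Y3_phi_e k)).symm⟩
  rw [e.symm.injective (k.trans (h1 u).symm)]
  exact ht u hu

theorem plu_line (hJ : ∀ u, J (J u) = -u) {S : CF} (hS : Function.Bijective S)
    (hI : ∀ u, S (J u) = I • S u) (hv : ∀ k, S (v k) = e3 k) (w : Fin 3 → E6) :
    plu D J w = detC S w • plu D J v := by
  ext p
  let e : E6 ≃L[ℝ] V3 := (LinearEquiv.ofBijective S.toLinearMap hS).toContinuousLinearEquiv
  have he : ∀ u, e.symm (S u) = u := fun u => e.symm_apply_apply u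
  have h1 : ∀ z, e.symm (I • z) = J (e.symm z) := fun z =>
    e.symm_apply_eq.2 ((congrArg (I • ·) (e.apply_symm_apply z)).symm.trans (hI _).symm)
  have h2 := det_lin (T := (cx D J p).comp (e.symm : V3 →L[ℝ] E6))
    (fun z => (congrArg (cx D J p) (h1 z)).trans (cx_J hJ p _)) fun j => S (w j)
  simp only [← hv, ContinuousLinearMap.comp_apply, ContinuousLinearEquiv.coe_coe, he,
    Y3_det] at h2
  rw [PiLp.smul_apply, plu_apply, plu_apply, h2, smul_eq_mul, mul_comm]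

theorem plu_comp {L j : E6 →L[ℝ] E6} (h : ∀ u, L (j u) = J (L u)) (w : Fin 3 → E6) :
    plu (D.comp L) j w = plu D J fun k => L (w k) := by
  ext p
  rw [plu_apply, plu_apply, detC, detC]
  simp only [cx_apply, ContinuousLinearMap.comp_apply, h]

theorem cx_smooth {X : Type} [NormedAddCommGroup X] [NormedSpace ℝ X] {S : Set X}
    {D : X → E6 →L[ℝ] Rn n} {J : X → E6 →L[ℝ] E6} (hD : ContDiffOn ℝ ∞ D S)
    (hJ : ContDiffOn ℝ ∞ J S) (p : Fin 3 → Fin n) :
    ContDiffOn ℝ ∞ (fun x => cx (D x) (J x) p) S := by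
  refine contDiffOn_clm_apply.2 fun u => contDiffOn_pi.2 fun k => ?_
  have h : ∀ {f : X → Rn n}, ContDiffOn ℝ ∞ f S → ContDiffOn ℝ ∞ (fun x => (f x (p k) : ℂ)) S :=
    fun hf => ofRealCLM.contDiff.comp_contDiffOn (contDiffOn_euclidean.1 hf (p k))
  exact (h (hD.clm_apply contDiffOn_const)).sub
    (contDiffOn_const.mul (h (hD.clm_apply (hJ.clm_apply contDiffOn_const))))

theorem plu_smooth {X : Type} [NormedAddCommGroup X] [NormedSpace ℝ X] {S : Set X}
    {D : X → E6 →L[ℝ] Rn n} {J : X → E6 →L[ℝ] E6} (hD : ContDiffOn ℝ ∞ D S)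
    (hJ : ContDiffOn ℝ ∞ J S) (w : Fin 3 → E6) :
    ContDiffOn ℝ ∞ (fun x => plu (D x) (J x) w) S := by
  refine (contDiffOn_piLp 2).2 fun p => ?_
  have h : ∀ i j, ContDiffOn ℝ ∞ (fun x => cx (D x) (J x) p (w j) i) S := fun i j =>
    contDiffOn_pi.1 ((cx_smooth hD hJ p).clm_apply contDiffOn_const) i
  simp only [plu_apply, detC, Matrix.det_fin_three, Matrix.of_apply]
  exact ((((((h 0 0).mul (h 1 1)).mul (h 2 2)).sub (((h 0 0).mul (h 1 2)).mul (h 2 1))).sub
    (((h 0 1).mul (h 1 0)).mul (h 2 2))).add (((h 0 1).mul (h 1 2)).mul (h 2 0)) |>.add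
    (((h 0 2).mul (h 1 0)).mul (h 2 1))).sub (((h 0 2).mul (h 1 1)).mul (h 2 0))

end Pool.Agent.Work.MP_bf98aa_gt.B3
end

-- merged part: Pool.Agent.Work.MP_bf98aa_gt.B3.YMain
section
/-!
The canonical bundle is trivial if the second cohomology is spanned by the symplectic form and there
is a flat torus of nonzero area.
-/

set_option autoImplicit false

open scoped Manifold ContDiff Topology ComplexConjugate
open Set Complex

namespace Pool.Agent.Work.MP_bf98aa_gt.B3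

open Pool.Agent.Work.MP_bf98aa_gt.Th Pool.Agent.Work.MP_bf98aa_gt.Cy

variable {M : Type} [TopologicalSpace M] [ChartedSpace E6 M] [IsManifold 𝓘(ℝ, E6) ∞ M]
  {η : Fo M 2}

theorem YMain_nd (hn : Form.Nondeg (E := E6) (M := M) η) {ψ : E6 → M} {U : Set E6}
    (hP : Par ψ U) {x : E6} (hx : x ∈ U) (u : E6) (h : ∀ v, pl ψ η x ![u, v] = 0) : u = 0 := by
  refine (injective_iff_map_eq_zero _).1 (hP.bij hx).1 u (hn (ψ x) _ fun v => ?_)
  obtain ⟨v, rfl⟩ := (hP.bij hx).2 v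
  exact (G10a_c2 (η (ψ x)) (dM ψ x) u v).symm.trans (h v)

theorem exists_J [T2Space M] [CompactSpace M] (hη : SmO η univ)
    (hn : Form.Nondeg (E := E6) (M := M) η) :
    ∃ (n : ℕ) (D : M → E6 →L[ℝ] Rn n) (J : M → E6 →L[ℝ] E6),
      (∀ m, Function.Injective (D m) ∧ Cpa (η m) (D m) (J m)) ∧
      ∀ ψ U, Par ψ U → ∃ j : E6 → E6 →L[ℝ] E6, ContDiffOn ℝ ∞ j U ∧
        ContDiffOn ℝ ∞ (fun y => (D (ψ y)).comp (dM ψ y)) U ∧
        ∀ y ∈ U, ∀ v, dM ψ y (j y v) = J (ψ y) (dM ψ y v) := by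
  obtain ⟨n, e, he, -, hi⟩ := exists_embedding_euclidean_of_compact (I := 𝓘(ℝ, E6)) (M := M)
  let D : M → E6 →L[ℝ] Rn n := fun m => mfderiv 𝓘(ℝ, E6) 𝓘(ℝ, Rn n) e m
  have h1 : ∀ m, ∃ J, Cpa (η m) (D m) J := fun m =>
    let ⟨j, _, hj⟩ := cpa_exists (X := ℝ) isOpen_univ (β := fun _ => η m) (D := fun _ => D m)
      contDiffOn_const contDiffOn_const (fun _ _ => hn m) fun _ _ => hi m
    ⟨j 0, hj 0 trivial⟩
  choose J hJ using h1
  refine ⟨n, D, J, fun m => ⟨hi m, hJ m⟩, fun ψ U hP => ?_⟩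
  have hs : ContDiffOn ℝ ∞ (fun y => e (ψ y)) U := fun y hy =>
    (ContMDiffAt.comp y (he _) (hP.sm y hy)).contDiffAt.contDiffWithinAt
  have hg : ContDiffOn ℝ ∞ (fun y => (D (ψ y)).comp (dM ψ y)) U := by
    refine (hs.fderiv_of_isOpen hP.opn le_rfl).congr fun y hy => ?_
    have := mfderiv_comp y ((he (ψ y)).mdifferentiableAt (by simp))
      (ContMDiffAt.mdifferentiableAt (hP.sm y hy) (by simp))
    rw [mfderiv_eq_fderiv] at this
    exact this.symm
  have hin : ∀ y ∈ U, Function.Injective ((D (ψ y)).comp (dM ψ y)) := fun y hy =>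
    (hi (ψ y)).comp (hP.bij hy).1
  obtain ⟨j, j1, j2⟩ := cpa_exists hP.opn (hη ψ U hP (mapsTo_univ _ _)) hg
    (fun y hy => YMain_nd hn hP hy) hin
  refine ⟨j, j1, hg, fun y hy => ?_⟩
  obtain ⟨K, hK⟩ := G10a_conj (dM ψ y : E6 →ₗ[ℝ] E6) (hP.bij hy) (J (ψ y) : E6 →ₗ[ℝ] E6)
  rw [cpa_unique (hin y hy) (j2 y hy)
    ((hJ (ψ y)).pull (hP.bij hy).1 (j := LinearMap.toContinuousLinearMap K) hK)]
  exact hK

omit [IsManifold 𝓘(ℝ, E6) ∞ M] in
theorem YMain_dM {ψ : E6 → M} {U : Set E6} (hP : Par ψ U) {c : E6}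
    (hc : ∀ x ∈ U, x + c ∈ U ∧ ψ (x + c) = ψ x) {x : E6} (hx : x ∈ U) :
    dM ψ (x + c) = dM ψ x := by
  have e : (fun y => ψ (y + c)) =ᶠ[𝓝 x] ψ :=
    Filter.mem_of_superset (hP.opn.mem_nhds hx) fun y hy => (hc y hy).2
  have h := mfderiv_comp (f := fun y => y + c) x
    (ContMDiffAt.mdifferentiableAt (hP.sm _ (hc x hx).1) (by simp))
    (mdifferentiableAt_iff_differentiableAt.2 (by fun_prop))
  rw [mfderiv_eq_fderiv, fderiv_add_const, fderiv_fun_id] at h
  exact h.symm.trans e.mfderiv_eq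

theorem YMain_sum {κ : Type} [Fintype κ] (f : κ → Alt E6 3) (L : E6 →L[ℝ] E6) :
    (∑ p, f p).compContinuousLinearMap L = ∑ p, (f p).compContinuousLinearMap L := by
  ext u
  simp [ContinuousAlternatingMap.sum_apply]

theorem YMain_cx {n : ℕ} {D : E6 →L[ℝ] Rn n} {J L j : E6 →L[ℝ] E6} (h : ∀ u, L (j u) = J (L u))
    (p : Fin 3 → Fin n) : (cx D J p).comp L = cx (D.comp L) j p := by
  ext u k
  simp [cx_apply, h]

theorem cy_of_torus [T2Space M] [CompactSpace M] [SimplyConnectedSpace M] (hη : ClO η univ)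
    (hn : Form.Nondeg (E := E6) (M := M) η)
    (h2 : ∀ w, ClO w univ → ∃ t : ℝ, ExO (w - t • η) univ) {ψ : E6 → M} {U : Set E6}
    (hP : Par ψ U) {z a b : E6} (hz : ∀ s t : ℝ, z + s • a + t • b ∈ U)
    (ha : ∀ x ∈ U, x + a ∈ U ∧ ψ (x + a) = ψ x) (hb : ∀ x ∈ U, x + b ∈ U ∧ ψ (x + b) = ψ x)
    {α : Alt E6 2} (hα : ∀ s t : ℝ, pl ψ η (z + s • a + t • b) = α) (h0 : α ![a, b] ≠ 0) :
    CalabiYau (E := E6) (M := M) η := by
  obtain ⟨n, D, J, hD, hj⟩ := exists_J hη.sm hn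
  choose j j1 j2 j3 using hj
  let P : (E6 → M) → (Fin 3 → E6) → E6 → Cn n := fun φ v y =>
    plu (D (φ y)) (J (φ y)) fun k => dM φ y (v k)
  have P1 : ∀ φ V (h : Par φ V) v, ContDiffOn ℝ ∞ (P φ v) V := fun φ V h v =>
    (plu_smooth (j2 φ V h) (j1 φ V h) v).congr fun y hy => (plu_comp (j3 φ V h y hy) v).symm
  have P2 : ∀ φ V (h : Par φ V) v, Par φ (V ∩ P φ v ⁻¹' {0}ᶜ) := fun φ V h v =>
    h.mono ((P1 φ V h v).continuousOn.isOpen_inter_preimage h.opn isOpen_compl_singleton)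
      inter_subset_left
  have P3 : ∀ φ V (h : Par φ V) v, ∀ y ∈ V, LagF (pl φ η y) v → P φ v y ≠ 0 :=
    fun φ V h v y hy hv => by
      have c := (hD (φ y)).2.pull (h.bij hy).1 (j3 φ V h y hy)
      exact (plu_comp (j3 φ V h y hy) v).symm.trans_ne
        (plu_ne hv c.pos c.sq ((hD _).1.comp (h.bij hy).1))
  have P4 : ∀ m, ∃ (S : CF) (p : Cn n), TameS (η m) S ∧
      ∀ w, plu (D m) (J m) w = detC S w • p := fun m => by
    obtain ⟨v, hv⟩ := exists_lagF (hn m)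
    obtain ⟨S, s1, s2, s3⟩ := exists_cofr hv (hD m).2.pos (hD m).2.sq
    exact ⟨S, _, s1, plu_line (hD m).2.sq s1.1 s2 s3⟩
  let ι := {t : (E6 → M) × Set E6 × (Fin 3 → E6) //
    Par t.1 t.2.1 ∧ ∀ y ∈ t.2.1, P t.1 t.2.2 y ≠ 0}
  let s : ι → E6 → Cn n := fun i y => ‖P i.1.1 i.1.2.2 y‖⁻¹ • P i.1.1 i.1.2.2 y
  have s1 : ∀ i : ι, ∀ x ∈ i.1.2.1, ∀ (S : CF) (p : Cn n),
      (∀ w, plu (D (i.1.1 x)) (J (i.1.1 x)) w = detC S w • p) → ∃ c : ℂ, c ≠ 0 ∧ p ≠ 0 ∧
        s i x = c • p := fun i x hx S p h => by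
    have h0 := i.2.2 x hx
    have h1 := smul_ne_zero_iff.1 ((h _).symm.trans_ne h0)
    refine ⟨_, mul_ne_zero (ofReal_ne_zero.2 (inv_ne_zero (norm_ne_zero_iff.2 h0))) h1.1, h1.2, ?_⟩
    rw [mul_smul, ← h]
    rfl
  have hL : Ln (fun i : ι => i.1.1) (fun i => i.1.2.1) s := by
    refine ⟨fun i => i.2.1, fun m => ?_, fun i => ?_, fun i x hx => ?_, fun i k x hx y hy e => ?_⟩
    · have hm := mem_chart_target E6 m
      obtain ⟨v, hv⟩ := exists_lagF (YMain_nd hn (par_chart m) hm)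
      exact ⟨⟨(_, _, v), P2 _ _ (par_chart m) v, fun y hy => hy.2⟩, _,
        ⟨hm, P3 _ _ (par_chart m) v _ hm hv⟩, (chartAt E6 m).left_inv (mem_chart_source E6 m)⟩
    · have := P1 _ _ i.2.1 i.1.2.2
      exact ((this.norm ℂ i.2.2).inv fun y hy => norm_ne_zero_iff.2 (i.2.2 y hy)).smul this
    · rw [norm_smul, norm_inv, norm_norm, inv_mul_cancel₀ (norm_ne_zero_iff.2 (i.2.2 x hx))]
    · obtain ⟨S, p, -, h⟩ := P4 (i.1.1 x)
      obtain ⟨c, c0, -, hc⟩ := s1 i x hx S p h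
      obtain ⟨d, -, -, hd⟩ := s1 k y hy S p ((show i.1.1 x = k.1.1 y from e) ▸ h)
      exact ⟨d * c⁻¹, by rw [hc, hd, smul_smul, inv_mul_cancel_right₀ c0]⟩
  obtain ⟨w, hw, hd⟩ := hL.curv
  obtain ⟨t, β, hβ⟩ := h2 w hw
  have hγ : ∀ i : ι, IsD (cn (s i) - pl i.1.1 β) (fun x => t • pl i.1.1 η x - 0) i.1.2.1 := by
    intro i
    have b := hβ _ _ i.2.1 (mapsTo_univ _ _)
    refine ⟨(hd i).1.sub b.1, fun x hx => ?_⟩
    rw [extDeriv_sub' ((hd i).1.diffAt i.2.1.opn hx) (b.1.diffAt i.2.1.opn hx), (hd i).2 x hx,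
      b.2 x hx, pl_sub, pl_smul]
    exact (sub_sub_cancel _ _).trans (sub_zero _).symm
  have t0 : t = 0 := by
    obtain ⟨v, hv⟩ := exists_lagF (hα 0 0 ▸ YMain_nd hn hP (hz 0 0) :)
    let i : ι := ⟨(ψ, _, v), P2 _ _ hP v, fun y hy => hy.2⟩
    have hi : ∀ c : E6, (∀ x ∈ U, x + c ∈ U ∧ ψ (x + c) = ψ x) → ∀ x ∈ i.1.2.1,
        pb (fun y => y + c) (cn (s i) - pl ψ β) x = (cn (s i) - pl ψ β) x := fun c hc x hx => by
      have e : (fun y => s i (y + c)) =ᶠ[𝓝 x] s i := by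
        filter_upwards [hP.opn.mem_nhds hx.1] with y hy
        simp only [s, i, P, YMain_dM hP hc hy, (hc y hy).2]
      rw [G6a_pb, Pi.sub_apply, Pi.sub_apply, ← cn_congr e]
      simp only [cn, pl, fderiv_comp_add_right, YMain_dM hP hc hx.1, (hc x hx.1).2]
    have e := per2_eq i.2.1.opn (hγ i) (fun s t => ⟨hz s t, P3 _ _ hP v _ (hz s t) (hα s t ▸ hv)⟩)
      (contDiff_id.add contDiff_const) (contDiff_id.add contDiff_const) (fun _ _ => rfl)
      (fun _ _ => rfl) (hi a ha) (hi b hb)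
    rw [per2_const (x := t * α ![a, b]) fun s r => by rw [← hα s r]; rfl] at e
    exact (mul_eq_zero.1 e).resolve_right h0
  obtain ⟨F, F1, F2⟩ := hL.flat fun i => ⟨(hγ i).1, fun x hx => by
    simp only [(hγ i).2 x hx, t0, zero_smul, sub_zero]⟩
  have hc : ∀ f : ℂ → CF → Alt E6 3, (Continuous fun p : ℂ × CF => f p.1 p.2) →
      (∀ c S L, (f c S).compContinuousLinearMap L = f c (S.comp L)) →
      Cont (E := E6) (M := M) fun m => ∑ p, f (conj (F m p)) (cx (D m) (J m) p) := by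
    intro f f1 f2 m
    have h := par_chart (M := M) m
    refine (continuousOn_finsetSum Finset.univ fun p _ => f1.comp_continuousOn
      ((continuous_conj.comp_continuousOn (((EuclideanSpace.proj p).continuous.comp
        F1).comp_continuousOn h.continuousOn)).prodMk
          (cx_smooth (j2 _ _ h) (j1 _ _ h) p).continuousOn)).congr fun y hy => ?_
    refine (YMain_sum _ (dM (chartAt E6 m).symm y)).trans (Finset.sum_congr rfl fun p _ => ?_)
    rw [f2, YMain_cx (j3 _ _ h y hy)]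
    rfl
  refine ⟨_, _, hc dre det_cont.1 fun _ _ _ => rfl, hc dim det_cont.2 fun _ _ _ => rfl, fun m => ?_⟩
  obtain ⟨i, x, hx, rfl⟩ := hL.cov m
  obtain ⟨S, p, hS, h⟩ := P4 (i.1.1 x)
  obtain ⟨c, c0, p0, e1⟩ := s1 i x hx S p h
  obtain ⟨d, d0, e2⟩ := F2 i x hx
  have key : ∀ u, ∑ r, conj (F (i.1.1 x) r) * detC (cx (D (i.1.1 x)) (J (i.1.1 x)) r) u =
      inner ℂ (F (i.1.1 x)) p * detC S u := fun u => by
    rw [mul_comm, ← inner_smul_right, ← h, PiLp.inner_apply]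
    exact Finset.sum_congr rfl fun r _ => mul_comm _ _
  have := tame_det hS (c := inner ℂ (F (i.1.1 x)) p) (by
    rw [e2, e1, smul_smul, inner_smul_left]
    exact mul_ne_zero ((map_ne_zero _).2 (mul_ne_zero d0 c0)) (inner_self_ne_zero.2 p0))
  refine (congrArg₂ (Tame (η (i.1.1 x))) ?_ ?_).mp this <;> ext u
  · rw [dre_apply, ← key, re_sum]
    exact (Finset.sum_congr rfl fun r _ => (dre_apply _ _ _).symm).trans
      (ContinuousAlternatingMap.sum_apply _ u).symm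
  · rw [dim_apply, ← key, im_sum]
    exact (Finset.sum_congr rfl fun r _ => (dim_apply _ _ _).symm).trans
      (ContinuousAlternatingMap.sum_apply _ u).symm

end Pool.Agent.Work.MP_bf98aa_gt.B3
end

-- merged part: Pool.Agent.Work.MP_bf98aa_gt.B3.SMain
section
/-!
The sphere of area one, the big domain, the canonical bundle.
-/

set_option autoImplicit false

open scoped Manifold ContDiff Topology Matrix ComplexConjugate
open Set Complex Filter

namespace Pool.Agent.Work.MP_bf98aa_gt.B3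

open Pool.Agent.Work.MP_bf98aa_gt.Th Pool.Agent.Work.MP_bf98aa_gt.Cy

variable {M : Type} [TopologicalSpace M] [ChartedSpace E6 M] [IsManifold 𝓘(ℝ, E6) ∞ M]
  {D : GD} {q : Ch M} {η : Fo M 2}

theorem S_fd {f : ℂ → E6} {ζ : ℂ} (hf : ContDiffAt ℝ ∞ f ζ) (i : Cx) (u : ℂ) :
    fderiv ℝ f ζ u i = fderiv ℝ (fun x => f x i) ζ u := by
  rw [fderiv_apply (hf.differentiableAt (by simp)) i]
  rfl

theorem WM.sphere (h : WM D q η) : UnitSphere (E := E6) (M := M) η := by
  have hμ := (h.ok.ok true).hμ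
  let gL : ℂ → E6 := fun ζ => mkc ζ 0 ⟨(D.H true).μ₁ - 1, 0⟩
  let gV : ℂ → E6 := fun ζ => mkc (√(1 + Sa_N (normSq ζ)) : ℝ) 0 (Sa_g ζ)
  have mL : ∀ ζ, normSq ζ < 1 → gL ζ ∈ (D.H true).WX .L := fun ζ h1 => by
    simp only [HD.WX, mem_ofPred_eq, gL, r1, HD.tt, HD.M, cc_mkc0, cc_mkc1, mkc_20, map_zero]
    refine ⟨?_, ?_, ?_, ?_, ?_⟩ <;> linarith
  have mV : ∀ ζ, 1 / 16 < normSq ζ → gV ζ ∈ (D.H true).WX .V := fun ζ h1 => by
    have h2 := Sa_N_nonneg (normSq ζ)
    simp only [HD.WX, mem_ofPred_eq, gV, HD.nuF, HD.M, cc_mkc0, cc_mkc1, cc_mkc2, map_zero,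
      Sa_g_norm (show 0 < normSq ζ by linarith), normSq_ofReal,
      Real.mul_self_sqrt (show 0 ≤ 1 + Sa_N (normSq ζ) by linarith)]
    refine ⟨Sa_N_lt h1, ?_, ?_⟩ <;> linarith
  have he : ∀ ζ, 1 / 16 < normSq ζ → normSq ζ < 3 / 4 →
      q.X (0, 0) true .L (gL ζ) = q.X (0, 0) true .V (gV ζ) := fun ζ h1 h2 => by
    have h0 : 0 < normSq ζ := by linarith
    have a1 : Sa_N (normSq ζ) = 1 - normSq ζ := by rw [Sa_N, Sa_χ_one h2.le]; ring
    have a2 : Sa_g ζ * (√(normSq ζ) : ℝ) = conj ζ * (√(1 - normSq ζ) : ℝ) := by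
      have a3 : 0 < √(normSq ζ) := Real.sqrt_pos.2 h0
      rw [Sa_g, Sa_c, Sa_χ_one h2.le, one_mul, Real.sqrt_div' _ h0.le, mul_right_comm,
        ← ofReal_mul, div_mul_cancel₀ _ a3.ne', mul_comm]
    refine (h.eX _ _ _ _ _ _ _ (mL ζ (by linarith)) _ (mV ζ h1)).2 ⟨rfl, Or.inl ⟨rfl, ?_⟩⟩
    simp only [HD.amb, gL, gV, r1, r2, HD.tt, cc_mkc0, cc_mkc1, cc_mkc2, mkc_20, mkc_21, map_zero,
      Sa_g_norm h0, a1, neg_zero, mul_zero, ee_zero, mul_one, one_mul, zero_mul, zero_add,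
      sub_sub_cancel, a2, Prod.mk.injEq, and_true]
    congr 2
    ring
  let f : ℂ → M := fun ζ => if normSq ζ < 1 / 2 then q.X (0, 0) true .L (gL ζ)
    else q.X (0, 0) true .V (gV ζ)
  have key : ∀ ζ, SmAt f ζ ∧ pl f η ζ ![1, I] = -deriv Sa_N (normSq ζ) / Real.pi := fun ζ => by
    rcases lt_or_ge (normSq ζ) (3 / 4) with h1 | h1
    · have h2 : f =ᶠ[𝓝 ζ] fun x => q.X (0, 0) true .L (gL x) := by
        filter_upwards [(isOpen_lt continuous_normSq continuous_const).mem_nhds h1] with x hx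
        by_cases h3 : normSq x < 1 / 2
        · exact if_pos h3
        · exact (if_neg h3).trans (he x (by linarith) hx).symm
      have h3 : ContDiffAt ℝ ∞ gL ζ := contDiffAt_mkc contDiffAt_id contDiffAt_const contDiffAt_const
      have h4 := (h.pX (0, 0) true .L).sm _ (mL ζ (by linarith))
      have h5 : HasDerivAt Sa_N (-1) (normSq ζ) :=
        ((hasDerivAt_id _).const_sub 1).congr_of_eventuallyEq
          (Filter.mem_of_superset (Iio_mem_nhds h1) fun t ht => by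
            change Sa_N t = 1 - t
            rw [Sa_N, Sa_χ_one (le_of_lt ht), one_pow, one_mul])
      refine ⟨(h4.comp h3).congr h2, ?_⟩
      have e0 : fderiv ℝ (fun x : ℂ => x.re) ζ = reCLM := reCLM.fderiv
      have e1 : fderiv ℝ (fun x : ℂ => x.im) ζ = imCLM := imCLM.fderiv
      rw [pl_congr h2, pl_comp h4 h3, pb_two, h.oX _ _ _ _ (mL ζ (by linarith)), d1_lamL, h5.deriv]
      simp only [S_fd h3]
      simp [gL, e0, e1]
    · have h0 : 0 < normSq ζ := by linarith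
      have h2 : f =ᶠ[𝓝 ζ] fun x => q.X (0, 0) true .V (gV x) := by
        filter_upwards [(isOpen_lt continuous_const continuous_normSq).mem_nhds
          (show 1 / 2 < normSq ζ by linarith)] with x hx
        exact if_neg (not_lt.2 (le_of_lt hx))
      have h6 := Sa_g_sm h0
      have h3 : ContDiffAt ℝ ∞ gV ζ := contDiffAt_mkc (contDiffAt_ofReal
        ((contDiffAt_const.add (Sa_N_sm.contDiffAt.comp ζ Sa_nsq.contDiffAt)).sqrt
          (by linarith [Sa_N_nonneg (normSq ζ)] : 0 < 1 + Sa_N (normSq ζ)).ne'))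
        contDiffAt_const h6
      have h4 := (h.pX (0, 0) true .V).sm _ (mV ζ (by linarith))
      have h7 := (h6.differentiableAt (by simp)).hasFDerivAt
      have e0 : ∀ u, fderiv ℝ (fun x : ℂ => (Sa_g x).re) ζ u = (fderiv ℝ Sa_g ζ u).re := fun u =>
        congrArg (fun L => L u) (reCLM.hasFDerivAt.comp ζ h7).fderiv
      have e1 : ∀ u, fderiv ℝ (fun x : ℂ => (Sa_g x).im) ζ u = (fderiv ℝ Sa_g ζ u).im := fun u =>
        congrArg (fun L => L u) (imCLM.hasFDerivAt.comp ζ h7).fderiv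
      refine ⟨(h4.comp h3).congr h2, ?_⟩
      rw [pl_congr h2, pl_comp h4 h3, pb_two, h.oX _ _ _ _ (mV ζ (by linarith)), ← Sa_jac h0]
      refine (d1_lamS _ _ _).trans ?_
      simp only [S_fd h3, Fin.sum_univ_three]
      simp [gV, e0, e1]
  refine ⟨f, fun ζ => (key ζ).1, ⟨q.X (0, 0) true .V (mkc 1 0 0), 1, fun ζ h1 => ?_⟩,
    (congrArg _ (funext fun ζ => (key ζ).2)).trans Sa_int⟩
  have h2 : 1 ≤ normSq ζ := by
    rw [normSq_eq_norm_sq]
    exact one_le_pow₀ h1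
  refine (if_neg (by linarith)).trans ?_
  simp only [gV, Sa_g, Sa_c, Sa_N, Sa_χ_zero (show 7 / 8 ≤ normSq ζ by linarith)]
  simp

theorem WM.big (h : WM D q η) : BigDomain (n := 3) (M := M) η (D.H true).μ₁ := by
  have hμ := (h.ok.ok true).hμ
  have hp := Real.pi_pos
  have hp' := Real.pi_lt_d2
  obtain ⟨r, hr, hr'⟩ : ∃ r, 0 < r ∧ r * r = (D.H true).μ₁ :=
    ⟨_, Real.sqrt_pos.2 (by linarith), Real.mul_self_sqrt (by linarith)⟩
  let S : E6 →L[ℝ] E6 := ContinuousLinearMap.pi fun i =>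
    Cy.mk 1 Real.pi 1 Real.pi 1 Real.pi i • dc i
  have hS : ∀ y, S y = Cy.mk (y (0, 0)) (Real.pi * y (0, 1)) (y (1, 0)) (Real.pi * y (1, 1))
      (y (2, 0)) (Real.pi * y (2, 1)) := fun y =>
    ext6 (one_mul _) rfl (one_mul _) rfl (one_mul _) rfl
  let R : E6 := Cy.mk r (r / Real.pi) (13 / 10) (13 / 10 / Real.pi) (2 / 3) (2 / 3 / Real.pi)
  let W : Set E6 := Set.pi univ fun i => Ioo (-R i) (R i)
  have hW : ∀ y ∈ W, S y ∈ (D.H true).WX .V := fun y hy => by
    have k : ∀ i, |y i| < R i := fun i => abs_lt.2 (hy i trivial)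
    have k1 : ∀ {s t : ℝ}, |s| < t → s ^ 2 < t ^ 2 := fun hs => sq_lt_sq' (abs_lt.1 hs).1
      (abs_lt.1 hs).2
    have k2 : ∀ {s t : ℝ}, |s| < t / Real.pi → (Real.pi * s) ^ 2 < t ^ 2 := fun hs =>
      k1 (by rwa [abs_mul, abs_of_pos hp, ← lt_div_iff₀' hp])
    have a1 := k1 (k (0, 0))
    have a2 := k2 (k (0, 1))
    have a3 := k1 (k (1, 0))
    have a4 := k2 (k (1, 1))
    have a5 := k1 (k (2, 0))
    have a6 := k2 (k (2, 1))
    simp only [R, mk00, mk10, mk20] at a1 a3 a5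
    simp only [HD.WX, mem_ofPred_eq, HD.nuF, HD.M, normSq_cc, hS, mk00, mk01, mk10, mk11, mk20, mk21]
    refine ⟨?_, ?_, ?_⟩ <;> nlinarith [sq_nonneg (y (2, 0)), sq_nonneg (Real.pi * y (2, 1))]
  have hs : ∀ y ∈ W, SmAt (q.X (0, 0) true .V) (S y) := fun y hy =>
    (h.pX (0, 0) true .V).sm _ (hW y hy)
  refine ⟨W, fun y => q.X (0, 0) true .V (S y), isOpen_set_pi finite_univ fun i _ => isOpen_Ioo,
    fun y hy => ((hs y hy).comp S.contDiff.contDiffAt).contMDiffWithinAt, fun y hy y' hy' e => ?_,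
    fun y hy u v => ?_, ?_⟩
  · rcases ((h.eX _ _ _ _ _ _ _ (hW y hy) _ (hW y' hy')).1 e).2 with k | k
    · have k1 := amb_V_inj (hW y hy) (hW y' hy') k.2
      rw [hS, hS] at k1
      exact ext6 (congrFun k1 (0, 0)) (mul_left_cancel₀ hp.ne' (congrFun k1 (0, 1)))
        (congrFun k1 (1, 0)) (mul_left_cancel₀ hp.ne' (congrFun k1 (1, 1)))
        (congrFun k1 (2, 0)) (mul_left_cancel₀ hp.ne' (congrFun k1 (2, 1)))
    · exact (k.1 rfl).elim
  · rw [pull_eq, pl_comp (hs y hy) S.contDiff.contDiffAt, pb_two, S.fderiv, h.oX _ _ _ _ (hW y hy)]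
    refine (d1_lamS _ _ _).trans ?_
    simp only [Fin.sum_univ_three, hS, mk00, mk01, mk10, mk11, mk20, mk21]
    field_simp
  · rw [Real.volume_pi_Ioo, ← ENNReal.ofReal_prod_of_nonneg fun i _ => ?_]
    · refine ENNReal.ofReal_le_ofReal ?_
      rw [Fintype.prod_prod_type]
      simp only [Fin.prod_univ_three, Fin.prod_univ_two, R, mk00, mk01, mk10, mk11, mk20, mk21]
      have k : Real.pi ^ 3 ≤ 32 := (pow_le_pow_left₀ hp.le hp'.le 3).trans (by norm_num)
      calc (D.H true).μ₁ ≤ r * r * (10816 / 225) / Real.pi ^ 3 := by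
            rw [le_div_iff₀ (by positivity), hr']
            nlinarith
        _ = _ := by field_simp; ring
    · obtain ⟨i, j⟩ := i
      fin_cases i <;> fin_cases j <;> simp [R] <;> positivity

theorem WM.cy [T2Space M] [CompactSpace M] [SimplyConnectedSpace M] (h : WM D q η)
    (h2 : ∀ w : Fo M 2, ClO w univ → ∃ t : ℝ, ExO (w - t • η) univ) :
    CalabiYau (E := E6) (M := M) η := by
  have hl := contDiff_lamK (D.H true)
  have k0 : ∀ (x : E6) (s t : ℝ), cc 1 (x + Cy.mk 0 0 0 0 s t) = cc 1 x := fun x s t => by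
    simp [cc]
  have k1 : ∀ x ∈ WK, ∀ n n' : ℤ, x + Cy.mk 0 0 0 0 (2 * n) n' ∈ WK ∧
      q.K true (0, 0) (x + Cy.mk 0 0 0 0 (2 * n) n') = q.K true (0, 0) x := fun x hx n n' => by
    have k2 : x + Cy.mk 0 0 0 0 (2 * n) n' ∈ WK := by
      rw [WK, mem_ofPred_eq, k0]
      exact hx
    refine ⟨k2, ((h.eK _ _ _ _ _ hx _ k2).2 ⟨rfl, rfl, 2 * n, n', by simp, by simp, ?_, ?_⟩).symm⟩
    · simp [qK, nT, cc, zpow_mul]
    · funext i
      fin_cases i <;> simp [B3.pK, nT, cc, zpow_mul]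
  have k3 : ∀ s t : ℝ, (0 : E6) + s • Cy.mk 0 0 0 0 2 0 + t • Cy.mk 0 0 0 0 0 1 =
      0 + Cy.mk 0 0 0 0 (2 * s) t := fun s t => by
    apply ext6 <;> simp [mul_comm]
  have k4 : ∀ s t : ℝ, (0 : E6) + Cy.mk 0 0 0 0 s t ∈ WK := fun s t => by
    rw [WK, mem_ofPred_eq, k0]
    exact (norm_zero (E := ℂ)).trans_lt (by norm_num)
  refine cy_of_torus h.cl h.nd h2 (h.pK true (0, 0)) (z := 0) (a := Cy.mk 0 0 0 0 2 0)
    (b := Cy.mk 0 0 0 0 0 1) (α := d1 (D.H true).lamK 0) (fun s t => k3 s t ▸ k4 _ _)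
    (fun x hx => by simpa using k1 x hx 1 0) (fun x hx => by simpa using k1 x hx 0 1)
    (fun s t => ?_) ?_
  · rw [k3, h.oK _ _ _ (k4 _ _)]
    have k5 := symp_of' (f := fun z => z + Cy.mk 0 0 0 0 (2 * s) t) (x := 0)
      (c := fun _ => ((D.H true).a * (2 * s)) • dc (2, 1)) (by fun_prop) hl.contDiffAt
      hl.contDiffAt contDiffAt_const (d1_const _) (Eventually.of_forall fun z => by
        simp [pb1, HD.lamK, nT, cc, mul_add, add_smul, add_right_comm])
    rw [← k5]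
    ext v
    simp [pb]
  · rw [d1_apply' hl.contDiffAt]
    have e1 : (fun z => (D.H true).lamK z (Cy.mk 0 0 0 0 0 1)) =
        ((D.H true).a • dc (2, 0) : E6 →L[ℝ] ℝ) := by
      funext z
      simp [HD.lamK, dc_apply]
    have e2 : (fun z => (D.H true).lamK z (Cy.mk 0 0 0 0 2 0)) = fun _ => 0 := by
      funext z
      simp [HD.lamK, dc_apply]
    rw [e1, e2, ContinuousLinearMap.fderiv]
    simpa [dc_apply] using (h.ok.ok true).ha.ne'

end Pool.Agent.Work.MP_bf98aa_gt.B3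
end

-- merged part: Pool.Agent.Work.MP_bf98aa_gt.Cy.NDefs
section
/-!
Definitions for the comparison of different manifolds: spheres, Cech data, the volume functional.
-/

set_option autoImplicit false

open scoped Manifold ContDiff Topology
open Set Complex

namespace Pool.Agent.Work.MP_bf98aa_gt.Cy

open Pool.Agent.Work.MP_bf98aa_gt.Th

section
variable {M : Type} [TopologicalSpace M] [ChartedSpace E6 M]

/-- A smooth map of the plane that is constant outside a disc. -/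
def Sph (f : ℂ → M) : Prop := (∀ z, SmAt f z) ∧ ∃ (m : M) (R : ℝ), ∀ z, R ≤ ‖z‖ → f z = m

/-- The area of a sphere. -/
noncomputable def area (f : ℂ → M) (w : Fo M 2) : ℝ := ∫ z, pl f w z ![1, I]

/-- Cech data of a closed form. -/
structure Cech {ι : Type} (V : ι → Set M) (w : Fo M 2) (l : ι → Fo M 1) (g : ι → ι → Fo M 0) :
    Prop where
  opn : ∀ i, IsOpen (V i)
  cov : ∀ m, ∃ i, m ∈ V i
  d1 : ∀ i, IsDO (l i) w (V i)
  d0 : ∀ i j, IsDO (g i j) (l i - l j) (V i ∩ V j)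

/-- The volume functional of `η`. -/
structure Vol (η : Fo M 2) (J : (M → ℝ) → ℝ) : Prop where
  add : ∀ u v, Continuous u → Continuous v → J (u + v) = J u + J v
  smul : ∀ (t : ℝ) u, J (t • u) = t * J u
  loc : ∀ ψ U, Par ψ U → InjOn ψ U → ∀ u, Continuous u → tsupport u ⊆ ψ '' U →
    J u = ∫ y in U, u (ψ y) * |pf fun _ : Fin 3 => pl ψ η y|
  le : ∀ (f : E6 → M) W, IsOpen W → (∀ y ∈ W, SmAt f y) → InjOn f W → ∀ u, Continuous u →
    (∀ m, 0 ≤ u m) →
    ∫⁻ y in W, ENNReal.ofReal (u (f y) * |pf fun _ : Fin 3 => pl f η y|) ≤ ENNReal.ofReal (J u)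

end

/-- The Cech cocycle. -/
noncomputable def coc {M ι : Type} (g : ι → ι → Fo M 0) (i j k : ι) (m : M) : ℝ :=
  g i j m ![] + g j k m ![] - g i k m ![]

/-- The integral of a 1-form over a segment. -/
noncomputable def seg1 (β : Fm ℂ 1) (p v : ℂ) : ℝ := ∫ t in (0 : ℝ)..1, β (p + t • v) ![v]

/-- The integral of a 2-form over a parallelogram. -/
noncomputable def seg2 (α : Fm ℂ 2) (p a b : ℂ) : ℝ :=
  ∫ s in (0 : ℝ)..1, ∫ t in (0 : ℝ)..1, α (p + s • a + t • b) ![a, b]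

/-- A vertex of the grid with mesh `h` and corner `-R - R i`. -/
noncomputable def vx (R h : ℝ) (a b : ℕ) : ℂ := ⟨-R + a * h, -R + b * h⟩

/-- The ratio of top forms. -/
noncomputable def rat {M : Type} (η a b c : Fo M 2) (m : M) : ℝ :=
  pf ![a m, b m, c m] / pf fun _ : Fin 3 => η m


end Pool.Agent.Work.MP_bf98aa_gt.Cy
end

-- merged part: Pool.Agent.Work.MP_bf98aa_gt.Cy.N1
section
/-!
Calculus in the plane.

PLAN. `seg1_d`: fundamental theorem of calculus for `t ↦ γ (p + t • v) ![]` (the exterior derivative of a 0-form on `![u]` is `fderiv γ x u ![]`).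
`green`: pull back by `(s, t) ↦ p + s • a + t • b` and use `MeasureTheory.integral2_divergence_prod_of_hasFDerivAt_off_countable` with `extDeriv_one_apply`.
`sum_cells`: `Complex.volume_preserving_equiv_real_prod`, Fubini, `intervalIntegral.sum_integral_adjacent_intervals`, `intervalIntegral.smul_integral_comp_add_mul`; `α z ![h, h i] = h ^ 2 * α z ![1, i]`.
`exists_mesh`: `lebesgue_number_lemma_of_metric` on `closedBall 0 (2 R)`.
-/

set_option autoImplicit false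

open scoped Manifold ContDiff Topology
open Set Complex

namespace Pool.Agent.Work.MP_bf98aa_gt.Cy

open Pool.Agent.Work.MP_bf98aa_gt.Th

variable {N : Set ℂ}

/-- Evaluation of a form. -/
noncomputable def N1_ev {k : ℕ} (v : Fin k → ℂ) : Alt ℂ k →L[ℝ] ℝ :=
  ContinuousAlternatingMap.apply ℝ ℂ ℝ v

theorem N1_int {β : Fm ℂ 1} (h : Sm β N) {p v : ℂ} (hs : ∀ t ∈ Icc (0 : ℝ) 1, p + t • v ∈ N) :
    IntervalIntegrable (fun t : ℝ => β (p + t • v) ![v]) MeasureTheory.volume 0 1 :=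
  ContinuousOn.intervalIntegrable_of_Icc zero_le_one ((N1_ev ![v]).continuous.comp_continuousOn
    (h.continuousOn.comp (f := fun t : ℝ => p + t • v) (by fun_prop) hs))

theorem seg1_sub (hN : IsOpen N) {β β' : Fm ℂ 1} (h : Sm β N) (h' : Sm β' N) {p v : ℂ}
    (hs : ∀ t ∈ Icc (0 : ℝ) 1, p + t • v ∈ N) : seg1 (β - β') p v = seg1 β p v - seg1 β' p v :=
  intervalIntegral.integral_sub (N1_int h hs) (N1_int h' hs)

theorem seg1_d (hN : IsOpen N) {γ : Fm ℂ 0} {β : Fm ℂ 1} (h : IsD γ β N) {p v : ℂ}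
    (hs : ∀ t ∈ Icc (0 : ℝ) 1, p + t • v ∈ N) : seg1 β p v = γ (p + v) ![] - γ p ![] := by
  have key := intervalIntegral.integral_eq_sub_of_hasDerivAt (a := 0) (b := 1)
    (f := fun t : ℝ => γ (p + t • v) ![]) (fun t ht => ?_) (N1_int (h.cl hN).1 hs)
  · simpa [seg1] using key
  rw [uIcc_of_le zero_le_one] at ht
  have h1 : HasDerivAt (fun t : ℝ => p + t • v) v t := by
    simpa using ((hasDerivAt_id t).smul_const v).const_add p
  have h2 := (N1_ev ![]).hasFDerivAt.comp_hasDerivAt t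
    ((h.1.diffAt hN (hs t ht)).hasFDerivAt.comp_hasDerivAt t h1)
  have h3 : β (p + t • v) ![v] = N1_ev ![] (fderiv ℝ γ (p + t • v) v) := by
    rw [← h.2 _ (hs t ht), extDeriv, ContinuousAlternatingMap.alternatizeUncurryFin_apply,
      Fin.sum_univ_one, Subsingleton.elim (Fin.removeNth 0 ![v]) ![]]
    simp [N1_ev]
  rw [h3]
  exact h2

theorem green (hN : IsOpen N) {β : Fm ℂ 1} {α : Fm ℂ 2} (h : IsD β α N) {p a b : ℂ}
    (hs : ∀ s ∈ Icc (0 : ℝ) 1, ∀ t ∈ Icc (0 : ℝ) 1, p + s • a + t • b ∈ N) :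
    seg2 α p a b = seg1 β p a + seg1 β (p + a) b - seg1 β (p + b) a - seg1 β p b := by
  let A : ℝ × ℝ →L[ℝ] ℂ := (ContinuousLinearMap.fst ℝ ℝ ℝ).smulRight a +
    (ContinuousLinearMap.snd ℝ ℝ ℝ).smulRight b
  let c : ℝ × ℝ → ℂ := fun q => p + q.1 • a + q.2 • b
  have hc : ∀ q, HasFDerivAt c A q := fun q => by
    have h1 : c = fun q => p + A q := by
      funext q; simp [c, A, add_assoc]
    rw [h1]; exact A.hasFDerivAt.const_add p
  have hcc : Continuous c := by fun_prop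
  have hm : MapsTo c (uIcc 0 1 ×ˢ uIcc 0 1) N := fun q hq => by
    rw [uIcc_of_le zero_le_one] at hq
    exact hs _ hq.1 _ hq.2
  have hC : ∀ v, ContinuousOn (fun q => β (c q) ![v]) (uIcc 0 1 ×ˢ uIcc 0 1) := fun v =>
    (N1_ev ![v]).continuous.comp_continuousOn (h.1.continuousOn.comp hcc.continuousOn hm)
  have hD : ∀ v, ∀ q ∈ Ioo (min (0 : ℝ) 1) (max 0 1) ×ˢ Ioo (min (0 : ℝ) 1) (max 0 1),
      HasFDerivAt (fun q => β (c q) ![v]) ((N1_ev ![v]).comp ((fderiv ℝ β (c q)).comp A)) q :=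
    fun v q hq => (N1_ev ![v]).hasFDerivAt.comp q
      ((h.1.diffAt hN (hm ⟨Ioo_subset_Icc_self hq.1, Ioo_subset_Icc_self hq.2⟩)).hasFDerivAt.comp q
        (hc q))
  have he : ∀ q ∈ uIcc (0 : ℝ) 1 ×ˢ uIcc (0 : ℝ) 1,
      ((N1_ev ![b]).comp ((fderiv ℝ β (c q)).comp A)) (1, 0) +
        (-(N1_ev ![a]).comp ((fderiv ℝ β (c q)).comp A)) (0, 1) = α (c q) ![a, b] := fun q hq => by
    rw [← h.2 _ (hm hq), extDeriv_one_apply (h.1.diffAt hN (hm hq))]
    simp [N1_ev, A, sub_eq_add_neg]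
  have key := MeasureTheory.integral2_divergence_prod_of_hasFDerivAt (fun q => β (c q) ![b])
    (fun q => -β (c q) ![a]) _ _ 0 0 1 1 (hC b) (hC a).neg (hD b) (fun q hq => (hD a q hq).neg)
    ((((N1_ev ![a, b]).continuous.comp_continuousOn
      ((h.cl hN).1.continuousOn.comp hcc.continuousOn hm)).congr he).integrableOn_compact
        (isCompact_uIcc.prod isCompact_uIcc))
  rw [intervalIntegral.integral_congr (g := fun s => ∫ t in (0 : ℝ)..1, α (c (s, t)) ![a, b])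
    fun s hs' => intervalIntegral.integral_congr fun t ht => he (s, t) ⟨hs', ht⟩] at key
  simp only [c, one_smul, zero_smul, add_zero, intervalIntegral.integral_neg,
    add_right_comm p _ b] at key
  unfold seg2 seg1
  linarith

theorem N1_cells {G : ℝ → ℝ} (hG : Continuous G) (R : ℝ) {n : ℕ} (hn : 0 < n) :
    ∫ x in (-R)..R, G x = ∑ a ∈ Finset.range n,
      ∫ s in (0 : ℝ)..1, 2 * R / n * G (-R + a * (2 * R / n) + 2 * R / n * s) := by
  have h0 : (n : ℝ) ≠ 0 := Nat.cast_ne_zero.2 hn.ne'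
  have key := intervalIntegral.sum_integral_adjacent_intervals (μ := MeasureTheory.volume)
    (a := fun k : ℕ => -R + k * (2 * R / n)) (n := n) fun k _ => hG.intervalIntegrable _ _
  rw [show -R + (n : ℝ) * (2 * R / n) = R by field_simp; ring, Nat.cast_zero, zero_mul,
    add_zero] at key
  rw [← key]
  refine Finset.sum_congr rfl fun a _ => ?_
  rw [intervalIntegral.integral_const_mul]
  refine Eq.trans ?_ (intervalIntegral.smul_integral_comp_add_mul G _ _).symm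
  congr 1
  · ring
  · push_cast; ring

theorem N1_supp {G : ℝ → ℝ} {R : ℝ} (h : ∀ x, R ≤ |x| → G x = 0) :
    ∫ x, G x = ∫ x in (-R)..R, G x :=
  (intervalIntegral.integral_eq_integral_of_support_subset fun x hx => by
    have h1 := abs_lt.1 (not_le.1 fun h2 => hx (h x h2))
    exact ⟨h1.1, h1.2.le⟩).symm

theorem sum_cells {α : Fm ℂ 2} (hα : Continuous α) {R : ℝ} (hR : 0 < R)
    (h0 : ∀ z, R ≤ ‖z‖ → α z = 0) {n : ℕ} (hn : 0 < n) :
    ∫ z, α z ![1, I] = ∑ a ∈ Finset.range n, ∑ b ∈ Finset.range n,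
      seg2 α (vx R (2 * R / n) a b) (2 * R / n : ℝ) ((2 * R / n : ℝ) * I) := by
  let F : ℝ × ℝ → ℝ := fun q => α (q.1 + q.2 * I) ![1, I]
  have hF : Continuous F := (N1_ev ![1, I]).continuous.comp (hα.comp (by fun_prop))
  have h1 : ∀ x y, R ≤ |x| → F (x, y) = 0 := fun x y hx => by
    have h := abs_re_le_norm (x + y * I)
    simp only [F]
    rw [h0 _ (hx.trans (by simpa using h))]; rfl
  have h2 : ∀ x y, R ≤ |y| → F (x, y) = 0 := fun x y hx => by
    have h := abs_im_le_norm (x + y * I)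
    simp only [F]
    rw [h0 _ (hx.trans (by simpa using h))]; rfl
  have hI : MeasureTheory.Integrable F (MeasureTheory.volume.prod MeasureTheory.volume) :=
    hF.integrable_of_hasCompactSupport (HasCompactSupport.intro
      ((isCompact_Icc (a := -R) (b := R)).prod (isCompact_Icc (a := -R) (b := R))) fun q hq => by
        by_contra hne
        have a1 := abs_lt.1 (not_le.1 fun h => hne (h1 q.1 q.2 h))
        have a2 := abs_lt.1 (not_le.1 fun h => hne (h2 q.1 q.2 h))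
        exact hq ⟨⟨a1.1.le, a1.2.le⟩, a2.1.le, a2.2.le⟩)
  have e1 : ∫ z, α z ![1, I] = ∫ q, F q := by
    rw [← volume_preserving_equiv_real_prod.integral_comp' F]
    simp [F]
  have hP : ∀ f : ℝ → ℝ → ℝ, Continuous f.uncurry → ∀ a b, Continuous fun x => ∫ y in a..b, f x y :=
    fun f hf a b => intervalIntegral.continuous_parametric_intervalIntegral_of_continuous' hf a b
  have e2 : ∀ x, ∫ y, F (x, y) = ∫ y in (-R)..R, F (x, y) := fun x => N1_supp (h2 x)
  rw [e1, MeasureTheory.Measure.volume_eq_prod, MeasureTheory.integral_prod _ hI,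
    N1_supp (R := R) fun x hx => by simp [h1 x _ hx], funext e2, N1_cells (hP (fun x y => F (x, y)) hF _ _) R hn]
  refine Finset.sum_congr rfl fun a _ => ?_
  have e3 : ∀ x, ∫ y in (-R)..R, F (x, y) = _ := fun x =>
    N1_cells (G := fun y => F (x, y)) (hF.comp (Continuous.prodMk_right x)) R hn
  simp only [e3, Finset.mul_sum, ← intervalIntegral.integral_const_mul]
  rw [intervalIntegral.integral_finsetSum fun (b : ℕ) _ => (hP (fun s t => 2 * R / n * (2 * R / n *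
    F (-R + a * (2 * R / n) + 2 * R / n * s, -R + b * (2 * R / n) + 2 * R / n * t)))
      (continuous_const.mul (continuous_const.mul (hF.comp (f := fun q : ℝ × ℝ =>
        (-R + a * (2 * R / n) + 2 * R / n * q.1, -R + b * (2 * R / n) + 2 * R / n * q.2))
          (by clear hα; fun_prop)))) 0 1).intervalIntegrable _ _]
  refine Finset.sum_congr rfl fun b _ => ?_
  unfold seg2
  generalize 2 * R / n = h
  refine congrArg (fun f : ℝ → ℝ => ∫ s in (0 : ℝ)..1, f s) (funext fun s =>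
    congrArg (fun f : ℝ → ℝ => ∫ t in (0 : ℝ)..1, f t) (funext fun t => ?_))
  have e4 : vx R h a b + s • (h : ℂ) + t • ((h : ℂ) * I) =
      ((-R + a * h + h * s : ℝ) : ℂ) + ((-R + b * h + h * t : ℝ) : ℂ) * I := by
    apply Complex.ext <;> simp [vx, mul_comm]
  obtain ⟨B, hB⟩ := exists_bilin (α (vx R h a b + s • (h : ℂ) + t • ((h : ℂ) * I)))
  simp only [F]
  rw [← e4, hB, hB, show (h : ℂ) * I = h • I by simp, show (h : ℂ) = h • (1 : ℂ) by simp]
  simp only [map_smul, smul_apply, smul_eq_mul]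

theorem exists_mesh {ι : Type} {U : ι → Set ℂ} (hU : ∀ i, IsOpen (U i)) (hc : ∀ z, ∃ i, z ∈ U i)
    {R : ℝ} (hR : 0 < R) : ∃ n : ℕ, 0 < n ∧ ∀ a < n, ∀ b < n, ∃ i, ∀ s ∈ Icc (0 : ℝ) 1,
      ∀ t ∈ Icc (0 : ℝ) 1, vx R (2 * R / n) a b + s • ((2 * R / n : ℝ) : ℂ) +
        t • (((2 * R / n : ℝ) : ℂ) * I) ∈ U i := by
  obtain ⟨δ, hδ, hb⟩ := lebesgue_number_lemma_of_metric (isCompact_closedBall (0 : ℂ) (2 * R)) hU
    fun z _ => mem_iUnion.2 (hc z)
  obtain ⟨n, hn⟩ := exists_nat_gt (4 * R / δ)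
  have hn0 : (0 : ℝ) < n := lt_trans (by positivity) hn
  have hh : 0 < 2 * R / n := by positivity
  have hδ' : 2 * (2 * R / n) < δ := by
    rw [div_lt_iff₀ hδ] at hn
    rw [← mul_div_assoc, div_lt_iff₀ hn0]
    linarith
  have hnh : n * (2 * R / n) = 2 * R := by field_simp
  refine ⟨n, Nat.cast_pos.1 hn0, ?_⟩
  generalize 2 * R / n = h at *
  have hv : ∀ a < n, |-R + (a : ℕ) * h| ≤ R := fun a ha => by
    have h1 : (a : ℝ) * h ≤ n * h := mul_le_mul_of_nonneg_right (Nat.cast_le.2 ha.le) hh.le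
    have h2 : 0 ≤ (a : ℝ) * h := by positivity
    rw [abs_le]; constructor <;> linarith
  intro a ha b hb'
  obtain ⟨i, hi⟩ := hb (vx R h a b) (by
    rw [mem_closedBall_zero_iff]
    refine (norm_le_abs_re_add_abs_im _).trans ?_
    have h1 := hv a ha
    have h2 := hv b hb'
    simp only [vx]
    linarith)
  refine ⟨i, fun s hs t ht => hi ?_⟩
  rw [Metric.mem_ball, dist_eq_norm, add_assoc, add_sub_cancel_left]
  refine (norm_add_le _ _).trans_lt ?_
  simp only [norm_smul, norm_mul, norm_I, norm_real, Real.norm_eq_abs, abs_of_pos hh,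
    abs_of_nonneg hs.1, abs_of_nonneg ht.1, mul_one]
  nlinarith [hs.2, ht.2]


end Pool.Agent.Work.MP_bf98aa_gt.Cy
end

-- merged part: Pool.Agent.Work.MP_bf98aa_gt.Cy.N2
section
/-!
The integral of a form with Cech data in the plane.

PLAN. Choose labels `ℓ p` with `p ∈ U (ℓ p)`, `ℓ p = i₀` for `R ≤ ‖p‖`. For a segment from `p` to `p + v` inside `U i` put
`E i p v = seg1 (l i) p v - g (ℓ p) i p ![] + g (ℓ (p + v)) i (p + v) ![]`. Its class in `ℝ ⧸ Γ` does not depend on `i` (`seg1_sub`, `seg1_d`, `hΓ` at both ends with the indices `ℓ, i, j`); call it `τ p v`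
(0 if there is no such `i`). By `green` the class of `seg2` of a cell is `τ p a + τ (p + a) b - τ (p + b) a - τ p b`. The sum over the grid telescopes (`Finset.sum_range_sub`, `Finset.sum_comm`) and `τ = 0` on the
boundary edges, which lie in `R ≤ ‖z‖` (take `i = i₀`). `α` is continuous because it is smooth on every `U i` (`IsD.cl`).
-/

set_option autoImplicit false

open scoped Manifold ContDiff Topology
open Set Complex

namespace Pool.Agent.Work.MP_bf98aa_gt.Cy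

open Pool.Agent.Work.MP_bf98aa_gt.Th

theorem N2_tel (H V : ℕ → ℕ → ℝ) (n : ℕ) :
    ∑ a ∈ Finset.range n, ∑ b ∈ Finset.range n, (H a b + V (a + 1) b - H a (b + 1) - V a b) =
      ∑ a ∈ Finset.range n, (H a 0 - H a n) + ∑ b ∈ Finset.range n, (V n b - V 0 b) := by
  have e : ∀ a b, H a b + V (a + 1) b - H a (b + 1) - V a b =
      H a b - H a (b + 1) + (V (a + 1) b - V a b) := fun a b => by ring
  simp only [e, Finset.sum_add_distrib, Finset.sum_range_sub']
  rw [Finset.sum_comm]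
  exact congrArg _ (Finset.sum_congr rfl fun b _ => Finset.sum_range_sub (fun a => V a b) n)

theorem N2_mem {Γ : AddSubgroup ℝ} {x y : ℝ} (h : x ∈ Γ) (e : y = x) : y ∈ Γ := e ▸ h

theorem N2_ends {S : ℂ → Prop} {p v : ℂ} (h : ∀ t ∈ Icc (0 : ℝ) 1, S (p + t • v)) :
    S p ∧ S (p + v) :=
  ⟨by simpa using h 0 (by simp), by simpa using h 1 (by simp)⟩

theorem N2_tau {ι : Type} (Γ : AddSubgroup ℝ) {U : ι → Set ℂ} (hU : ∀ i, IsOpen (U i))
    {l : ι → Fm ℂ 1} {g : ι → ι → Fm ℂ 0} (h1 : ∀ i, Sm (l i) (U i))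
    (h0 : ∀ i j, IsD (g i j) (l i - l j) (U i ∩ U j))
    (hΓ : ∀ i j k, ∀ z ∈ U i ∩ U j ∩ U k, g i j z ![] + g j k z ![] - g i k z ![] ∈ Γ)
    {ℓ : ℂ → ι} (hℓ : ∀ z, z ∈ U (ℓ z)) : ∃ τ : ℂ → ℂ → ℝ, ∀ i p v,
      (∀ t ∈ Icc (0 : ℝ) 1, p + t • v ∈ U i) →
      seg1 (l i) p v - g (ℓ p) i p ![] + g (ℓ (p + v)) i (p + v) ![] - τ p v ∈ Γ := by
  classical
  refine ⟨fun p v => if h : ∃ j, ∀ t ∈ Icc (0 : ℝ) 1, p + t • v ∈ U j then
    seg1 (l h.choose) p v - g (ℓ p) h.choose p ![] + g (ℓ (p + v)) h.choose (p + v) ![] else 0,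
    fun i p v hi => ?_⟩
  have h : ∃ j, ∀ t ∈ Icc (0 : ℝ) 1, p + t • v ∈ U j := ⟨i, hi⟩
  have hj := h.choose_spec
  simp only [dif_pos h]
  generalize h.choose = j at hj
  have hs : ∀ t ∈ Icc (0 : ℝ) 1, p + t • v ∈ U i ∩ U j := fun t ht => ⟨hi t ht, hj t ht⟩
  have e := (seg1_sub ((hU i).inter (hU j)) ((h1 i).mono inter_subset_left)
    ((h1 j).mono inter_subset_right) hs).symm.trans (seg1_d ((hU i).inter (hU j)) (h0 i j) hs)
  obtain ⟨hp, hq⟩ := N2_ends (S := fun z => z ∈ U i ∩ U j) hs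
  exact N2_mem (sub_mem (hΓ _ i j _ ⟨⟨hℓ _, hq.1⟩, hq.2⟩) (hΓ _ i j _ ⟨⟨hℓ _, hp.1⟩, hp.2⟩))
    (by linarith)

theorem grid {ι : Type} (Γ : AddSubgroup ℝ) {U : ι → Set ℂ} (hU : ∀ i, IsOpen (U i))
    (hc : ∀ z, ∃ i, z ∈ U i) {α : Fm ℂ 2} {l : ι → Fm ℂ 1} {g : ι → ι → Fm ℂ 0}
    (h1 : ∀ i, IsD (l i) α (U i)) (h0 : ∀ i j, IsD (g i j) (l i - l j) (U i ∩ U j))
    (hΓ : ∀ i j k, ∀ z ∈ U i ∩ U j ∩ U k, g i j z ![] + g j k z ![] - g i k z ![] ∈ Γ)
    {R : ℝ} (hR : 0 < R) {i₀ : ι} {c : ℝ}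
    (ho : ∀ z, R ≤ ‖z‖ → z ∈ U i₀ ∧ α z = 0 ∧ l i₀ z = 0 ∧ g i₀ i₀ z ![] = c) :
    ∫ z, α z ![1, I] ∈ Γ := by
  classical
  obtain ⟨ℓ, hℓ, hℓ'⟩ : ∃ ℓ : ℂ → ι, (∀ z, z ∈ U (ℓ z)) ∧ ∀ z, R ≤ ‖z‖ → ℓ z = i₀ :=
    ⟨fun z => if R ≤ ‖z‖ then i₀ else (hc z).choose, fun z => by
      dsimp only
      split_ifs with h
      exacts [(ho z h).1, (hc z).choose_spec], fun z h => if_pos h⟩
  obtain ⟨τ, hτ⟩ := N2_tau Γ hU (fun i => (h1 i).1) h0 hΓ hℓ
  have hb : ∀ p v, (∀ t ∈ Icc (0 : ℝ) 1, R ≤ ‖p + t • v‖) → τ p v ∈ Γ := fun p v h => by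
    obtain ⟨hp, hq⟩ := N2_ends (S := fun z => R ≤ ‖z‖) h
    have h2 : seg1 (l i₀) p v = 0 := by
      rw [seg1, intervalIntegral.integral_congr (g := fun _ => 0) fun t ht => by
        simp only [(ho _ (h t (uIcc_of_le (zero_le_one' ℝ) ▸ ht))).2.2.1]
        rfl]
      simp
    simpa [h2, hℓ' _ hp, hℓ' _ hq, (ho _ hp).2.2.2, (ho _ hq).2.2.2] using
      hτ i₀ p v fun t ht => (ho _ (h t ht)).1
  have hα : Continuous α := continuous_iff_continuousAt.2 fun z => by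
    obtain ⟨i, hi⟩ := hc z
    exact (((h1 i).cl (hU i)).1.at (hU i) hi).continuousAt
  obtain ⟨n, hn, hm⟩ := exists_mesh hU hc hR
  rw [sum_cells hα hR (fun z hz => (ho z hz).2.1) hn]
  have hh : n * (2 * R / n) = 2 * R := mul_div_cancel₀ _ (Nat.cast_ne_zero.2 hn.ne')
  generalize 2 * R / n = h at hm hh
  have e1 : ∀ a b, vx R h (a + 1) b = vx R h a b + h := fun a b =>
    Complex.ext (by simp [vx]; ring) (by simp [vx])
  have e2 : ∀ a b, vx R h a (b + 1) = vx R h a b + h * I := fun a b =>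
    Complex.ext (by simp [vx]) (by simp [vx]; ring)
  have hR' : |-R + 2 * R| = R := by rw [abs_of_pos] <;> linarith
  have hs : ∑ a ∈ Finset.range n, ∑ b ∈ Finset.range n, (τ (vx R h a b) h +
      τ (vx R h (a + 1) b) (h * I) - τ (vx R h a (b + 1)) h - τ (vx R h a b) (h * I)) ∈ Γ := by
    rw [N2_tel (fun a b => τ (vx R h a b) h) fun a b => τ (vx R h a b) (h * I)]
    exact add_mem (sum_mem fun a _ => sub_mem
      (hb _ _ fun t _ => le_trans (by simp [vx, le_abs_self]) (abs_im_le_norm _))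
      (hb _ _ fun t _ => le_trans (by simp [vx, hh, hR']) (abs_im_le_norm _)))
      (sum_mem fun b _ => sub_mem
      (hb _ _ fun t _ => le_trans (by simp [vx, hh, hR']) (abs_re_le_norm _))
      (hb _ _ fun t _ => le_trans (by simp [vx, le_abs_self]) (abs_re_le_norm _)))
  rw [← sub_add_cancel (∑ a ∈ _, _) _]
  refine add_mem ?_ hs
  simp only [← Finset.sum_sub_distrib]
  refine sum_mem fun a ha => sum_mem fun b hb => ?_
  obtain ⟨i, hi⟩ := hm a (Finset.mem_range.1 ha) b (Finset.mem_range.1 hb)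
  rw [green (hU i) (h1 i) hi, e1, e2]
  generalize vx R h a b = p at hi
  have t1 := hτ i p h fun t ht => by simpa using hi t ht 0 (by simp)
  have t2 := hτ i (p + h) (h * I) fun t ht => by simpa using hi 1 (by simp) t ht
  have t3 := hτ i (p + h * I) h fun t ht => by simpa [add_right_comm] using hi t ht 1 (by simp)
  have t4 := hτ i p (h * I) fun t ht => by simpa using hi 0 (by simp) t ht
  rw [add_right_comm p (h * I)] at t3
  exact N2_mem (sub_mem (sub_mem (add_mem t1 t2) t3) t4) (by ring)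


end Pool.Agent.Work.MP_bf98aa_gt.Cy
end

-- merged part: Pool.Agent.Work.MP_bf98aa_gt.Cy.N3
section
/-!
Existence of Cech data.

PLAN. Call `B` good if `B = ψ '' U` with `Par ψ U`, `InjOn ψ U`, `U` a ball (charts: `par_chart`); closed 1-forms and 2-forms on a good set are exact (`RA_star`, `Deck.ex_of_inv` with `T = {id}` or `desc`).
Every point has arbitrarily small good neighbourhoods. `M` is compact Hausdorff, so it has a uniform structure (`uniformSpaceOfCompactR1`, `lebesgue_number_lemma`) or a metric. Take a Lebesgue number `δ` of the cover by good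
sets and a finite cover by good sets `V i` inside balls of radius `δ / 3`. If `V i ∩ V j` is nonempty then `V i ∪ V j` lies in a good set `B` with primitive `b`; `l i - b = d u` on `V i`, `l j - b = d u'` on `V j`, `g i j = u - u'`
(`IsDO.sub_cl`, `G3_sub`, `IsDO.congr`). `shrink`: `V' i` is the support of a partition of unity subordinate to `V`; a locally constant function has finitely many values on the compact set `⋂ tsupport`.
-/

set_option autoImplicit false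

open scoped Manifold ContDiff Topology
open Set Complex

namespace Pool.Agent.Work.MP_bf98aa_gt.Cy

open Pool.Agent.Work.MP_bf98aa_gt.Th

variable {M : Type} [TopologicalSpace M] [ChartedSpace E6 M] [IsManifold 𝓘(ℝ, E6) ∞ M]

variable {ι : Type} {V : ι → Set M} {w w' : Fo M 2} {l l' : ι → Fo M 1} {g g' : ι → ι → Fo M 0}

theorem N3_ball {O : Set M} (hO : IsOpen O) {m : M} (hm : m ∈ O) :
    ∃ (ψ : E6 → M) (x : E6) (r : ℝ), 0 < r ∧ Par ψ (Metric.ball x r) ∧ ψ x = m ∧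
      MapsTo ψ (Metric.ball x r) O ∧ InjOn ψ (Metric.ball x r) := by
  obtain ⟨r, hr, h⟩ := Metric.isOpen_iff.1 (G3_par m hO).opn _ (G3_mem hm).1
  exact ⟨_, _, r, hr, (G3_par m hO).mono Metric.isOpen_ball h, (G3_mem hm).2, fun y hy => (h hy).2,
    (chartAt E6 m).symm.injOn.mono fun y hy => (h hy).1⟩

theorem N3_good {O : Set M} (hO : IsOpen O) {m : M} (hm : m ∈ O) : ∃ B, IsOpen B ∧ m ∈ B ∧ B ⊆ O ∧
    ∀ (k : ℕ) (c : Fo M (k + 1)), ClO c B → ExO c B := by
  obtain ⟨ψ, x, r, hr, hP, rfl, h1, h2⟩ := N3_ball hO hm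
  refine ⟨_, hP.isOpen_image hP.opn subset_rfl, mem_image_of_mem _ (Metric.mem_ball_self hr),
    h1.image_subset, fun k c hc => ?_⟩
  obtain ⟨β, hβ⟩ := RA_star hP.opn (Metric.mem_ball_self hr)
    ((convex_ball x r).starConvex (Metric.mem_ball_self hr)) (k + 1) _
    (hc ψ _ hP (mapsTo_image _ _))
  refine Deck.ex_of_inv (T := {fun y => y}) ⟨hP, ?_, ?_, ?_, fun y hy z hz e =>
    ⟨_, rfl, h2 hy hz e⟩⟩ hβ ?_ <;> rintro f rfl
  exacts [contDiff_id, mapsTo_id _, fun _ _ => rfl, fun y _ => congrFun (pb_id β) y]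

theorem exists_cech [T2Space M] [CompactSpace M] (hw : ClO w univ) :
    ∃ (n : ℕ) (V : Fin n → Set M) (l : Fin n → Fo M 1) (g : Fin n → Fin n → Fo M 0),
      Cech V w l g := by
  have := Manifold.metrizableSpace 𝓘(ℝ, E6) M
  letI := TopologicalSpace.metrizableSpaceMetric M
  choose B b1 b2 _ b4 using fun m : M => N3_good isOpen_univ (mem_univ m)
  obtain ⟨δ, δ0, hδ⟩ := lebesgue_number_lemma_of_metric isCompact_univ b1
    fun m _ => mem_iUnion.2 ⟨m, b2 m⟩
  choose W c1 c2 c3 c4 using fun m : M =>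
    N3_good Metric.isOpen_ball (Metric.mem_ball_self (half_pos δ0) : m ∈ _)
  obtain ⟨t, ht⟩ := isCompact_univ.elim_finite_subcover W c1 fun m _ => mem_iUnion.2 ⟨m, c2 m⟩
  choose l hl using fun m => c4 m 1 w (hw.mono (subset_univ _))
  have : ∀ i j, ExO (l i - l j) (W i ∩ W j) := fun i j => by
    rcases (W i ∩ W j).eq_empty_or_nonempty with e | ⟨z, hz⟩
    · exact ⟨0, IsDO.of_loc fun m hm => (e ▸ hm : m ∈ (∅ : Set M)).elim⟩
    obtain ⟨p, hp⟩ := hδ z (mem_univ z)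
    obtain ⟨b, hb⟩ := b4 p 1 w (hw.mono (subset_univ _))
    have k : ∀ i, z ∈ W i → ExO (l i - b) (W i) := fun i hi => c4 i 0 _ ((hl i).sub_cl
      (hb.mono fun y hy => hp (by
        have := dist_triangle_right y z i
        rw [Metric.mem_ball]
        linarith [Metric.mem_ball.1 (c3 i hy), Metric.mem_ball.1 (c3 i hi)])))
    exact (((k i hz.1).mono inter_subset_left).sub ((k j hz.2).mono inter_subset_right)).congr
      fun m _ => by rw [sub_sub_sub_cancel_right]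
  choose g hg using this
  refine ⟨t.card, fun i => W (t.equivFin.symm i), fun i => l (t.equivFin.symm i), fun i j =>
    g (t.equivFin.symm i) (t.equivFin.symm j), fun _ => c1 _, fun m => ?_, fun _ => hl _,
    fun _ _ => hg _ _⟩
  obtain ⟨i, hi, h⟩ := mem_iUnion₂.1 (ht (mem_univ m))
  exact ⟨t.equivFin ⟨i, hi⟩, by rwa [Equiv.symm_apply_apply]⟩

theorem Cech.sub (h : Cech V w l g) (h' : Cech V w' l' g') : Cech V (w - w') (l - l') (g - g') :=
  ⟨h.opn, h.cov, fun i => G3_sub (h.d1 i) (h'.d1 i), fun i j =>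
    (G3_sub (h.d0 i j) (h'.d0 i j)).congr (fun _ _ => rfl) fun m _ => by
      rw [sub_sub_sub_comm]; rfl⟩

theorem Cech.lc (h : Cech V w l g) {i j k : ι} {m : M} (hm : m ∈ V i ∩ V j ∩ V k) :
    ∀ᶠ m' in 𝓝 m, coc g i j k m' = coc g i j k m := by
  have c : ClO (g i j + g j k - g i k) (V i ∩ V j ∩ V k) :=
    ((G2a_add ((h.d0 i j).mono inter_subset_left) ((h.d0 j k).mono fun _ q =>
      ⟨q.1.2, q.2⟩)).congr (fun _ _ => rfl) fun m _ => by rw [sub_add_sub_cancel]).sub_cl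
        ((h.d0 i k).mono fun _ q => ⟨q.1.1, q.2⟩)
  obtain ⟨ψ, x, r, hr, hP, rfl, h1, -⟩ :=
    N3_ball (((h.opn i).inter (h.opn j)).inter (h.opn k)) hm
  have e : ∀ y, pl ψ (g i j + g j k - g i k) y ![] = coc g i j k (ψ y) := fun y =>
    congrArg ((g i j + g j k - g i k) (ψ y)) (Subsingleton.elim _ ![])
  filter_upwards [(hP.isOpen_image hP.opn subset_rfl).mem_nhds
    (mem_image_of_mem _ (Metric.mem_ball_self hr))]
  rintro _ ⟨y, hy, rfl⟩
  rw [← e, ← e, (c ψ _ hP h1).const hP.opn (convex_ball x r).isPreconnected hy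
    (Metric.mem_ball_self hr)]

theorem Cech.shrink [T2Space M] [CompactSpace M] [Finite ι] (h : Cech V w l g) :
    ∃ V' : ι → Set M, Cech V' w l g ∧
      {x | ∃ i j k, ∃ m ∈ V' i ∩ V' j ∩ V' k, coc g i j k m = x}.Finite := by
  obtain ⟨W, h1, h2, h3⟩ := exists_iUnion_eq_closure_subset h.opn (fun _ => toFinite _)
    (iUnion_eq_univ_iff.2 h.cov)
  have s := fun i => subset_closure.trans (h3 i)
  refine ⟨W, ⟨h2, iUnion_eq_univ_iff.1 h1, fun i => (h.d1 i).mono (s i), fun i j =>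
    (h.d0 i j).mono (inter_subset_inter (s i) (s j))⟩, ?_⟩
  simp only [setOf_exists]
  refine finite_iUnion fun i => finite_iUnion fun j => finite_iUnion fun k => ?_
  obtain ⟨t, -, ht⟩ := ((isClosed_closure.inter isClosed_closure).inter
    isClosed_closure).isCompact.elim_nhds_subcover (fun m => {y | coc g i j k y = coc g i j k m})
    fun m hm => h.lc ⟨⟨h3 i hm.1.1, h3 j hm.1.2⟩, h3 k hm.2⟩
  refine (t.finite_toSet.image (coc g i j k)).subset (iUnion_subset fun m x hx => ?_)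
  obtain ⟨y, hy, e⟩ := mem_iUnion₂.1 (ht ⟨⟨subset_closure hx.1.1.1, subset_closure hx.1.1.2⟩,
    subset_closure hx.1.2⟩)
  exact ⟨y, hy, e.symm.trans hx.2⟩

end Pool.Agent.Work.MP_bf98aa_gt.Cy
end

-- merged part: Pool.Agent.Work.MP_bf98aa_gt.Cy.N4
section
/-!
From a Cech cocycle to a closed form.

PLAN. `ρ` a smooth partition of unity subordinate to `V` (`SmoothPartitionOfUnity.exists_isSubordinate`), `one` the constant 0-form. `g' i j m = ∑ a, ρ a m • (φ (coc g a i j m) • one)` is smooth on `V i ∩ V j`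
(`G3_cut` with `B = V a`, `Cech.lc`), and `coc g a i j + coc g a j k - coc g a i k = coc g i j k` identically. `e i j = d (g' i j)` (`exists_d`); `e i j + e j k - e i k = 0` on triple intersections (`G3_uniq`, a locally constant 0-form
has derivative 0). `l' i = ∑ a, ρ a • e i a` is smooth on `V i` and `l' i - l' j = e i j`. The forms `d (l' i)` agree on overlaps (`IsDO.cl`, `G3_sub`, `G3_uniq`) and define `w'`.
-/

set_option autoImplicit false

open scoped Manifold ContDiff Topology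
open Set Complex

namespace Pool.Agent.Work.MP_bf98aa_gt.Cy

open Pool.Agent.Work.MP_bf98aa_gt.Th

variable {M : Type} [TopologicalSpace M] [ChartedSpace E6 M] [IsManifold 𝓘(ℝ, E6) ∞ M]

theorem N4_lc {O : Set M} {f : M → ℝ} (h : ∀ m ∈ O, ∀ᶠ m' in 𝓝 m, f m' = f m) :
    ClO (fun m => G4_c E6 (f m)) O := by
  intro ψ U hP hm
  have e : ∀ x ∈ U, pl ψ (fun m => G4_c E6 (f m)) =ᶠ[𝓝 x] fun _ => G4_c E6 (f (ψ x)) :=
    fun x hx => ((hP.sm x hx).continuousAt.eventually (h _ (hm hx))).mono fun y hy => by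
      rw [← hy]
      ext v
      rfl
  refine ⟨fun x hx => (contDiffAt_const.congr_of_eventuallyEq (e x hx)).contDiffWithinAt,
    fun x hx => ?_⟩
  rw [(e x hx).extDeriv_eq, extDeriv_const]

theorem N4_sum {ι : Type} [Fintype ι] {k : ℕ} {O : Set M} {b : ι → Fo M k}
    (h : ∀ a, SmO (b a) O) : SmO (fun m => ∑ a, b a m) O := by
  intro ψ U hP hm
  have e : pl ψ (fun m => ∑ a, b a m) = fun y => ∑ a, pl ψ (b a) y := by
    funext y
    ext v
    simp [pl, ContinuousAlternatingMap.sum_apply]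
  rw [e]
  exact ContDiffOn.sum fun a _ => h a ψ U hP hm

theorem N4_pou [T2Space M] [CompactSpace M] {ι : Type} [Fintype ι] {V : ι → Set M}
    (ho : ∀ i, IsOpen (V i)) (hc : ∀ m, ∃ i, m ∈ V i) : ∃ ρ : ι → M → ℝ,
      (∀ m, ∑ a, ρ a m = 1) ∧ (∀ a m, m ∉ V a → ρ a m = 0) ∧
      ∀ (k : ℕ) (A : Set M) (γ : ι → Fo M k), IsOpen A → (∀ a, SmO (γ a) (A ∩ V a)) →
        SmO (fun m => ∑ a, ρ a m • γ a m) A := by
  obtain ⟨ρ, hρ⟩ := SmoothPartitionOfUnity.exists_isSubordinate 𝓘(ℝ, E6) isClosed_univ V ho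
    fun m _ => mem_iUnion.2 (hc m)
  have h0 : ∀ a m, m ∉ V a → ∀ᶠ y in 𝓝 m, ρ a y = 0 := fun a m hm =>
    notMem_tsupport_iff_eventuallyEq.1 fun h => hm (hρ a h)
  refine ⟨fun a => ρ a, fun m => ?_, fun a m hm => (h0 a m hm).self_of_nhds,
    fun k A γ hA hγ => N4_sum fun a => G3_cut hA (ho a) (fun x _ => (ρ a).contMDiff x)
      (fun x _ hx => h0 a x hx) (hγ a)⟩
  rw [← finsum_eq_sum_of_fintype]
  exact ρ.sum_eq_one (mem_univ m)

theorem Cech.map [T2Space M] [CompactSpace M] {ι : Type} [Finite ι] {V : ι → Set M} {w : Fo M 2}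
    {l : ι → Fo M 1} {g : ι → ι → Fo M 0} (h : Cech V w l g) (φ : ℝ →+ ℝ) :
    ∃ (w' : Fo M 2) (l' : ι → Fo M 1) (g' : ι → ι → Fo M 0), ClO w' univ ∧ Cech V w' l' g' ∧
      ∀ i j k, ∀ m ∈ V i ∩ V j ∩ V k, coc g' i j k m = φ (coc g i j k m) := by
  have := Fintype.ofFinite ι
  obtain ⟨ρ, ρ1, ρ0, ρs⟩ := N4_pou h.opn h.cov
  have o2 : ∀ i j, IsOpen (V i ∩ V j) := fun i j => (h.opn i).inter (h.opn j)
  have lc : ∀ i j k, ClO (fun m => G4_c E6 (φ (coc g i j k m))) (V i ∩ V j ∩ V k) :=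
    fun i j k => N4_lc fun m hm => (h.lc hm).mono fun y hy => by rw [hy]
  obtain ⟨g', hg'⟩ : ∃ g' : ι → ι → Fo M 0,
      g' = fun i j m => ∑ a, ρ a m • G4_c E6 (φ (coc g a i j m)) := ⟨_, rfl⟩
  have c1 : ∀ i j k m, coc g' i j k m = φ (coc g i j k m) := fun i j k m => by
    have e : ∀ a, ρ a m * φ (coc g i j k m) = ρ a m * φ (coc g a i j m) +
        ρ a m * φ (coc g a j k m) - ρ a m * φ (coc g a i k m) := fun a => by
      rw [← mul_add, ← mul_sub, ← map_add, ← map_sub]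
      congr 2
      unfold coc
      ring
    rw [← one_mul (φ _), ← ρ1 m, Finset.sum_mul, Finset.sum_congr rfl fun a _ => e a,
      Finset.sum_sub_distrib, Finset.sum_add_distrib, coc, hg']
    simp [ContinuousAlternatingMap.sum_apply, G4_c]
  have s1 : ∀ i j, SmO (g' i j) (V i ∩ V j) := fun i j => by
    rw [hg']
    exact ρs 0 _ _ (o2 i j) fun a => (lc a i j).sm.mono fun m hm => ⟨⟨hm.2, hm.1.1⟩, hm.1.2⟩
  choose e he using fun i j => exists_d (o2 i j) (s1 i j)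
  have c2 : ∀ i j k, ∀ m ∈ V i ∩ V j ∩ V k, e i k m - e j k m = e i j m := fun i j k m hm => by
    have h1 : IsDO (g' i j + g' j k - g' i k) (e i j + e j k - e i k) (V i ∩ V j ∩ V k) :=
      G2a_sub (G2a_add ((he i j).mono fun _ hx => hx.1) ((he j k).mono fun _ hx => ⟨hx.1.2, hx.2⟩))
        ((he i k).mono fun _ hx => ⟨hx.1.1, hx.2⟩)
    have h2 : IsDO (g' i j + g' j k - g' i k) 0 (V i ∩ V j ∩ V k) :=
      (G2a_cl.1 (lc i j k)).congr (fun x _ => by rw [← c1]; exact G4_zero _) fun _ _ => rfl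
    have h3 : e i j m + e j k m - e i k m = 0 := G3_uniq ((o2 i j).inter (h.opn k)) h1 h2 hm
    rw [← sub_eq_zero.1 h3, add_sub_cancel_right]
  obtain ⟨l', hl'⟩ : ∃ l' : ι → Fo M 1, l' = fun i m => ∑ a, ρ a m • e i a m := ⟨_, rfl⟩
  have c3 : ∀ i j, ∀ m ∈ V i ∩ V j, (l' i - l' j) m = e i j m := fun i j m hm => by
    rw [← one_smul ℝ (e i j m), ← ρ1 m, Finset.sum_smul, hl', Pi.sub_apply,
      ← Finset.sum_sub_distrib]
    refine Finset.sum_congr rfl fun a _ => ?_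
    by_cases ha : m ∈ V a
    · rw [← c2 i j a m ⟨hm, ha⟩]
      exact (smul_sub _ _ _).symm
    · rw [ρ0 a m ha, zero_smul, zero_smul, zero_smul, sub_zero]
  have s2 : ∀ i, SmO (l' i) (V i) := fun i => by
    rw [hl']
    exact ρs 1 _ _ (h.opn i) fun a => (he i a).cl.sm
  choose u hu using fun i => exists_d (h.opn i) (s2 i)
  have c4 : ∀ i j, ∀ m ∈ V i ∩ V j, u i m = u j m := fun i j m hm =>
    sub_eq_zero.1 (G3_uniq (o2 i j)
      (G2a_sub ((hu i).mono inter_subset_left) ((hu j).mono inter_subset_right))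
      ((G2a_cl.1 (he i j).cl).congr (c3 i j) fun _ _ => rfl) hm)
  choose n hn using h.cov
  have d1 : ∀ i, IsDO (l' i) (fun m => u (n m) m) (V i) := fun i =>
    (hu i).congr (fun _ _ => rfl) fun m hm => c4 _ _ m ⟨hn m, hm⟩
  exact ⟨fun m => u (n m) m, l', g',
    (ClO.iUnion h.opn fun i => (d1 i).cl).mono fun m _ => mem_iUnion.2 ⟨n m, hn m⟩,
    ⟨h.opn, fun m => ⟨n m, hn m⟩, d1, fun i j => (he i j).congr (fun _ _ => rfl) (c3 i j)⟩,
    fun i j k m _ => c1 i j k m⟩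


end Pool.Agent.Work.MP_bf98aa_gt.Cy
end

-- merged part: Pool.Agent.Work.MP_bf98aa_gt.Cy.N5
section
/-!
The areas of spheres form a discrete set.

PLAN. `Cech.area`: `grid` with `U i = f ⁻¹' V i`, `IsDO.pl`, `pl_sub`; outside the disc of radius `|R| + 1` the map is locally constant, so `dM f z = 0`. `area_ex`: one set `univ`, `g = 0`, `Γ = ⊥`.
`area_sub`: the integrands are continuous with compact support. `area_discrete`: `exists_cech`, `Cech.shrink`; `r : ℝ →ₗ[ℚ] ℚ` a left inverse of the cast (`LinearMap.exists_leftInverse_of_injective`), `φ x = r x`; `D` a common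
denominator of the finitely many `r (coc ..)`. With `w'` from `Cech.map`: `area f w' ∈ zmultiples (1 / D)`, `area f (η - w') ∈ φ.ker` (`Cech.sub`), `area f w' = s * area f η` (`h2`). The unit sphere gives `s ∈ ℚ` and
`φ (1 - s) = 0`, so `s = 1`.
-/

set_option autoImplicit false

open scoped Manifold ContDiff Topology
open Set Complex

namespace Pool.Agent.Work.MP_bf98aa_gt.Cy

open Pool.Agent.Work.MP_bf98aa_gt.Th

variable {M : Type} [TopologicalSpace M] [ChartedSpace E6 M] [IsManifold 𝓘(ℝ, E6) ∞ M]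

variable {f : ℂ → M} {w w' η : Fo M 2}

omit [IsManifold 𝓘(ℝ, E6) ∞ M] in
theorem N5_zero (γ : Fo M 0) (z : ℂ) : pl f γ z ![] = γ (f z) ![] :=
  congrArg (γ (f z)) (Subsingleton.elim _ _)

theorem N5_out (hf : Sph f) : ∃ (m : M) (R : ℝ), 0 < R ∧ ∀ z, R ≤ ‖z‖ → f z = m ∧
    ∀ (k : ℕ) (γ : Fo M (k + 1)), pl f γ z = 0 := by
  obtain ⟨m, R, h⟩ := hf.2
  have h1 := le_abs_self R
  refine ⟨m, |R| + 1, by positivity, fun z hz => ⟨h z (by linarith), fun k γ => ?_⟩⟩
  have h2 : f =ᶠ[𝓝 z] fun _ => m := by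
    filter_upwards [(isOpen_lt continuous_const continuous_norm).mem_nhds
      (show |R| < ‖z‖ by linarith)] with y hy
    exact h y (h1.trans (le_of_lt hy))
  rw [pl_congr h2]
  ext v
  refine (γ m).map_coord_zero 0 ?_
  change dM (fun _ : ℂ => m) z (v 0) = 0
  rw [dM, mfderiv_const]
  rfl

theorem N5_int (h : SmO w univ) (hf : Sph f) :
    MeasureTheory.Integrable fun z => pl f w z ![1, I] := by
  obtain ⟨m, R, -, h0⟩ := N5_out hf
  have hc : Continuous (pl f w) := continuousOn_univ.1 (ContDiffOn.continuousOn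
    (h.pl isOpen_univ isOpen_univ (fun z _ => hf.1 z) (mapsTo_univ _ _)))
  refine Continuous.integrable_of_hasCompactSupport (hc.eval_const _)
    (HasCompactSupport.intro (isCompact_closedBall 0 R) fun z hz => ?_)
  rw [(h0 z (le_of_lt (by simpa using hz))).2 1 w]
  rfl

theorem Cech.area {ι : Type} {V : ι → Set M} {l : ι → Fo M 1} {g : ι → ι → Fo M 0}
    (h : Cech V w l g) (Γ : AddSubgroup ℝ) (hΓ : ∀ i j k, ∀ m ∈ V i ∩ V j ∩ V k, coc g i j k m ∈ Γ)
    (hf : Sph f) : Cy.area f w ∈ Γ := by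
  obtain ⟨m, R, hR, h0⟩ := N5_out hf
  obtain ⟨i₀, hi⟩ := h.cov m
  have hc : Continuous f := continuous_iff_continuousAt.2 fun z => ContMDiffAt.continuousAt (hf.1 z)
  refine grid Γ (U := fun i => f ⁻¹' V i) (fun i => (h.opn i).preimage hc) (fun z => h.cov (f z))
    (l := fun i => pl f (l i)) (g := fun i j => pl f (g i j))
    (fun i => (h.d1 i).pl (h.opn i) ((h.opn i).preimage hc) (fun z _ => hf.1 z) fun _ hz => hz)
    (fun i j => ?_) (fun i j k z hz => ?_) hR (i₀ := i₀) (c := g i₀ i₀ m ![]) fun z hz => ?_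
  · rw [← pl_sub]
    exact (h.d0 i j).pl ((h.opn i).inter (h.opn j))
      (((h.opn i).preimage hc).inter ((h.opn j).preimage hc)) (fun z _ => hf.1 z) fun _ hz => hz
  · simp only [N5_zero]
    exact hΓ i j k (f z) hz
  · obtain ⟨h1, h2⟩ := h0 z hz
    exact ⟨by rw [mem_preimage, h1]; exact hi, h2 _ w, h2 _ (l i₀), by rw [N5_zero, h1]⟩

theorem area_ex (h : ExO w univ) (hf : Sph f) : area f w = 0 := by
  obtain ⟨b, hb⟩ := h
  have hC : Cech (fun _ : Unit => (univ : Set M)) w (fun _ => b) fun _ _ => 0 :=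
    ⟨fun _ => isOpen_univ, fun _ => ⟨(), mem_univ _⟩, fun _ => hb, fun _ _ => by
      rw [sub_self]
      exact G2a_cl.1 ClO.zero⟩
  exact AddSubgroup.mem_bot.1 (hC.area ⊥ (fun _ _ _ _ _ => by simp [coc]) hf)

theorem area_sub (h : SmO w univ) (h' : SmO w' univ) (hf : Sph f) (t : ℝ) :
    area f (w - t • w') = area f w - t * area f w' := by
  rw [area, area, area, ← MeasureTheory.integral_const_mul,
    ← MeasureTheory.integral_sub (N5_int h hf) ((N5_int h' hf).const_mul t), pl_sub, pl_smul]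
  rfl

theorem unitSphere_iff : UnitSphere (E := E6) (M := M) η ↔ ∃ f, Sph f ∧ area f η = 1 := by
  exact ⟨fun ⟨f, h1, h2, h3⟩ => ⟨f, ⟨h1, h2⟩, h3⟩, fun ⟨f, ⟨h1, h2⟩, h3⟩ => ⟨f, h1, h2, h3⟩⟩

theorem N5_proj : ∃ φ : ℝ →+ ℝ, (∀ q : ℚ, φ q = q) ∧ ∀ x, ∃ q : ℚ, φ x = q := by
  obtain ⟨r, hr⟩ := (Algebra.linearMap ℚ ℝ).exists_leftInverse_of_injective
    (LinearMap.ker_eq_bot.2 (algebraMap ℚ ℝ).injective)
  refine ⟨(Rat.castHom ℝ).toAddMonoidHom.comp r.toAddMonoidHom, fun q => ?_, fun x => ⟨r x, rfl⟩⟩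
  exact congrArg (Rat.cast : ℚ → ℝ) (LinearMap.congr_fun hr q)

theorem N5_den {S : Set ℝ} (hS : S.Finite) {φ : ℝ → ℝ} (h : ∀ x, ∃ q : ℚ, φ x = q) :
    ∃ D : ℕ, 0 < D ∧ ∀ x ∈ S, φ x ∈ AddSubgroup.zmultiples (D : ℝ)⁻¹ := by
  choose q hq using h
  refine ⟨∏ x ∈ hS.toFinset, (q x).den, Finset.prod_pos fun x _ => (q x).den_pos, fun x hx => ?_⟩
  obtain ⟨c, hc⟩ := Finset.dvd_prod_of_mem (fun x => (q x).den) (hS.mem_toFinset.2 hx)
  have h0 : c ≠ 0 := fun h => (Finset.prod_pos fun x _ => (q x).den_pos).ne' (by rw [hc, h, mul_zero])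
  have h1 : (c : ℝ) ≠ 0 := by exact_mod_cast h0
  refine AddSubgroup.mem_zmultiples_iff.2 ⟨(q x).num * c, ?_⟩
  rw [hc, hq, Rat.cast_def, zsmul_eq_mul]
  push_cast
  field_simp

theorem area_discrete [T2Space M] [CompactSpace M] (hη : ClO η univ)
    (h2 : ∀ w, ClO w univ → ∃ t : ℝ, ExO (w - t • η) univ) (h1 : ∃ f, Sph f ∧ area f η = 1) :
    ∃ D : ℝ, ∀ f, Sph f → ∀ t : ℝ, t * area f η = 1 → |t| ≤ D := by
  obtain ⟨n, V₀, l, g, hC₀⟩ := exists_cech hη
  obtain ⟨V, hC, hfin⟩ := hC₀.shrink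
  obtain ⟨φ, hφ, hq⟩ := N5_proj
  obtain ⟨D, hD, hDm⟩ := N5_den hfin hq
  obtain ⟨w', l', g', hw', hC', hc⟩ := hC.map φ
  obtain ⟨s, hs⟩ := h2 w' hw'
  have h3 : ∀ f, Sph f → ∃ a : ℤ, area f w' = a / D := fun f hf => by
    obtain ⟨a, ha⟩ := AddSubgroup.mem_zmultiples_iff.1
      (hC'.area (AddSubgroup.zmultiples (D : ℝ)⁻¹) (fun i j k m hm => by
        rw [hc i j k m hm]
        exact hDm _ ⟨i, j, k, m, hm, rfl⟩) hf)
    exact ⟨a, by rw [← ha, zsmul_eq_mul, div_eq_mul_inv]⟩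
  have h4 : ∀ f, Sph f → area f w' = s * area f η := fun f hf => by
    have h := area_ex hs hf
    rwa [area_sub hw'.sm hη.sm hf, sub_eq_zero] at h
  obtain ⟨f₀, hf₀, h5⟩ := h1
  have h6 : φ (area f₀ (η - w')) = 0 := (hC.sub hC').area φ.ker (fun i j k m hm => by
    have e : coc (g - g') i j k m = coc g i j k m - coc g' i j k m := by
      simp only [coc, Pi.sub_apply, ContinuousAlternatingMap.sub_apply]
      ring
    obtain ⟨q, hq'⟩ := hq (coc g i j k m)
    rw [AddMonoidHom.mem_ker, e, hc i j k m hm, map_sub, hq', hφ, sub_self]) hf₀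
  obtain ⟨a₀, ha₀⟩ := h3 f₀ hf₀
  have h7 := area_sub hη.sm hw'.sm hf₀ 1
  rw [one_smul, one_mul, h5, ha₀] at h7
  have h8 : (1 - a₀ / D : ℝ) = ((1 - a₀ / D : ℚ) : ℝ) := by push_cast; rfl
  rw [h7, h8, hφ, ← h8, ← ha₀, h4 f₀ hf₀, h5, mul_one, sub_eq_zero] at h6
  refine ⟨D, fun f hf t ht => ?_⟩
  obtain ⟨a, ha⟩ := h3 f hf
  rw [h4 f hf, ← h6, one_mul] at ha
  have hD' : (0 : ℝ) < D := by exact_mod_cast hD
  rw [ha, ← mul_div_assoc, div_eq_one_iff_eq hD'.ne'] at ht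
  have h9 : a ≠ 0 := fun h => hD'.ne' (by rw [← ht, h, Int.cast_zero, mul_zero])
  have h10 : (1 : ℝ) ≤ |(a : ℝ)| := by exact_mod_cast Int.one_le_abs h9
  calc |t| ≤ |t| * |(a : ℝ)| := le_mul_of_one_le_right (abs_nonneg t) h10
    _ = D := by rw [← abs_mul, ht, abs_of_pos hD']


end Pool.Agent.Work.MP_bf98aa_gt.Cy
end

-- merged part: Pool.Agent.Work.MP_bf98aa_gt.Cy.N6
section
/-!
The volume functional.

PLAN. `exists_part` of `Th/IMain.lean` (copy its 15 lines, do not import that file) gives `t`, `ρ`. `J u = ∑ p ∈ t, ∫ y in target p, ρ p (symm y) * u (symm y) * |pf (pl symm η y)|`; the integrands have compact support inside the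
target. Change of variables: for `f` smooth and injective on `W`, `W p = W ∩ f ⁻¹' source p`, `τ = chartAt p ∘ f` is a lift (`Tr f symm τ y`), so `pf (pl f η y) = det (fderiv τ y) * pf (pl symm η (τ y))` (`Tr.pl`, `pf_comp`);
`integral_image_eq_integral_abs_det_fderiv_smul`, `lintegral_image_eq_lintegral_abs_det_fderiv_mul`. For `loc` the set `U ∩ ψ ⁻¹' tsupport u` is compact (`Par.isOpen_image`, or the image under the continuous inverse).
-/

set_option autoImplicit false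

open scoped Manifold ContDiff Topology
open Set Complex

namespace Pool.Agent.Work.MP_bf98aa_gt.Cy

open Pool.Agent.Work.MP_bf98aa_gt.Th

variable {M : Type} [TopologicalSpace M] [ChartedSpace E6 M] [IsManifold 𝓘(ℝ, E6) ∞ M]

theorem pf_pl (f : E6 → M) (w : Fin 3 → Fo M 2) (y : E6) :
    (pf fun s => pl f (w s) y) = (dM f y).det * pf fun s => w s (f y) :=
  pf_comp (fun s => w s (f y)) (dM f y)

open MeasureTheory in
theorem N6_int [CompactSpace M] {η : Fo M 2} (hη : SmO η univ) (p : M) {v : M → ℝ}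
    (hv : Continuous v) (hs : tsupport v ⊆ (chartAt E6 p).source) :
    IntegrableOn (fun y => v ((chartAt E6 p).symm y) * |pf fun _ : Fin 3 => pl (chartAt E6 p).symm η y|)
      (chartAt E6 p).target := by
  have hK := (isClosed_tsupport v).isCompact.image_of_continuousOn
    ((chartAt E6 p).continuousOn.mono hs)
  have c : ContinuousOn (fun y => v ((chartAt E6 p).symm y) *
      |pf fun _ : Fin 3 => pl (chartAt E6 p).symm η y|) (chartAt E6 p).target :=
    (hv.comp_continuousOn (chartAt E6 p).continuousOn_symm).mul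
      ((contDiff_pf (S := Fin 3)).continuous.comp_continuousOn (continuousOn_pi.2 fun _ =>
        (hη _ _ (par_chart p) (mapsTo_univ _ _)).continuousOn)).abs
  refine ((c.mono ?_).integrableOn_compact hK).of_forall_sdiff_eq_zero
    (chartAt E6 p).open_target.measurableSet fun y hy => ?_
  · rintro _ ⟨m, hm, rfl⟩
    exact (chartAt E6 p).map_source (hs hm)
  · rw [image_eq_zero_of_notMem_tsupport fun k => hy.2 ⟨_, k, (chartAt E6 p).right_inv hy.1⟩,
      zero_mul]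

open MeasureTheory in
theorem N6_cv [CompactSpace M] {η : Fo M 2} (hη : SmO η univ) (p : M) {v : M → ℝ}
    (hv : Continuous v) (hs : tsupport v ⊆ (chartAt E6 p).source) {f : E6 → M} {W : Set E6}
    (hW : IsOpen W) (hf : ∀ y ∈ W, SmAt f y) (hi : InjOn f W) :
    ∃ Z ⊆ (chartAt E6 p).target, (∀ y ∈ (chartAt E6 p).target, (chartAt E6 p).symm y ∈ f '' W → y ∈ Z) ∧
      IntegrableOn (fun y => v (f y) * |pf fun _ : Fin 3 => pl f η y|) W ∧
      ∫ y in W, v (f y) * |pf fun _ : Fin 3 => pl f η y| =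
        ∫ y in Z, v ((chartAt E6 p).symm y) * |pf fun _ : Fin 3 => pl (chartAt E6 p).symm η y| := by
  have c : ContinuousOn f W := fun y hy => (ContMDiffAt.continuousAt (hf y hy)).continuousWithinAt
  have o := c.isOpen_inter_preimage hW (chartAt E6 p).open_source
  have tr : ∀ y ∈ W ∩ f ⁻¹' (chartAt E6 p).source,
      Tr f (chartAt E6 p).symm (fun z => chartAt E6 p (f z)) y := fun y hy =>
    ⟨(ContMDiffAt.comp y ((contMDiffOn_chart (n := ∞)).contMDiffAt
      ((chartAt E6 p).open_source.mem_nhds hy.2)) (hf y hy.1)).contDiffAt,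
      Filter.eventually_of_mem (o.mem_nhds hy) fun z hz => (chartAt E6 p).left_inv hz.2⟩
  have d := fun y hy => ((tr y hy).1.differentiableAt (by simp)).hasFDerivAt.hasFDerivWithinAt
    (s := W ∩ f ⁻¹' (chartAt E6 p).source)
  have i : InjOn (fun z => chartAt E6 p (f z)) (W ∩ f ⁻¹' (chartAt E6 p).source) :=
    fun y hy z hz e => hi hy.1 hz.1 ((chartAt E6 p).injOn hy.2 hz.2 e)
  have s : (fun z => chartAt E6 p (f z)) '' (W ∩ f ⁻¹' (chartAt E6 p).source) ⊆
      (chartAt E6 p).target := by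
    rintro _ ⟨y, hy, rfl⟩
    exact (chartAt E6 p).map_source hy.2
  have e : EqOn (fun y => |(fderiv ℝ (fun z => chartAt E6 p (f z)) y).det| •
      (v ((chartAt E6 p).symm (chartAt E6 p (f y))) *
        |pf fun _ : Fin 3 => pl (chartAt E6 p).symm η (chartAt E6 p (f y))|))
      (fun y => v (f y) * |pf fun _ : Fin 3 => pl f η y|) (W ∩ f ⁻¹' (chartAt E6 p).source) :=
    fun y hy => by
      have k := (tr y hy).pl ((par_chart p).sm _ ((chartAt E6 p).map_source hy.2)) η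
      simp only [k, pb]
      rw [pf_comp, abs_mul, (chartAt E6 p).left_inv hy.2, smul_eq_mul, mul_left_comm]
  have z : ∀ y ∈ W \ (W ∩ f ⁻¹' (chartAt E6 p).source),
      v (f y) * |pf fun _ : Fin 3 => pl f η y| = 0 := fun y hy => by
    rw [image_eq_zero_of_notMem_tsupport fun k => hy.2 ⟨hy.1, hs k⟩, zero_mul]
  refine ⟨_, s, ?_, ?_, ?_⟩
  · rintro y hy ⟨x, hx, k⟩
    exact ⟨x, ⟨hx, show f x ∈ _ from k ▸ (chartAt E6 p).map_target hy⟩,
      (congrArg _ k).trans ((chartAt E6 p).right_inv hy)⟩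
  · exact (((integrableOn_image_iff_integrableOn_abs_det_fderiv_smul volume o.measurableSet d i
      _).1 ((N6_int hη p hv hs).mono_set s)).congr_fun e o.measurableSet).of_forall_sdiff_eq_zero
      hW.measurableSet z
  · rw [integral_image_eq_integral_abs_det_fderiv_smul volume o.measurableSet d i,
      setIntegral_congr_fun o.measurableSet e,
      setIntegral_eq_of_subset_of_forall_sdiff_eq_zero hW.measurableSet inter_subset_left z]

omit [IsManifold 𝓘(ℝ, E6) ∞ M] in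
theorem N6_part [T2Space M] [CompactSpace M] :
    ∃ (t : Finset M) (ρ : M → M → ℝ), (∀ p, Continuous (ρ p)) ∧
      (∀ p, tsupport (ρ p) ⊆ (chartAt E6 p).source) ∧ (∀ x, ∑ p ∈ t, ρ p x = 1) ∧
      ∀ p x, 0 ≤ ρ p x := by
  obtain ⟨f, hf⟩ := PartitionOfUnity.exists_isSubordinate (X := M) isClosed_univ
    (fun p : M => (chartAt E6 p).source) (fun p => (chartAt E6 p).open_source)
    fun x _ => mem_iUnion.2 ⟨x, mem_chart_source E6 x⟩
  have hfin := f.locallyFinite.finite_nonempty_of_compact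
  refine ⟨hfin.toFinset, fun p => f p, fun p => (f p).continuous, hf, fun x => ?_,
    fun p x => f.nonneg p x⟩
  rw [← f.sum_eq_one (mem_univ x)]
  refine (finsum_eq_sum_of_support_subset _ fun p hp => ?_).symm
  exact Finset.mem_coe.2 (hfin.mem_toFinset.2 ⟨x, hp⟩)

theorem exists_vol [T2Space M] [CompactSpace M] {η : Fo M 2} (hη : SmO η univ) : ∃ J, Vol η J := by
  obtain ⟨t, ρ, h1, h2, h3, h4⟩ := N6_part (M := M)
  have s : ∀ p (u : M → ℝ), tsupport (fun m => ρ p m * u m) ⊆ (chartAt E6 p).source :=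
    fun p u => tsupport_mul_subset_left.trans (h2 p)
  have key : ∀ (f : E6 → M) W, IsOpen W → (∀ y ∈ W, SmAt f y) → InjOn f W → ∀ u, Continuous u →
      MeasureTheory.IntegrableOn (fun y => u (f y) * |pf fun _ : Fin 3 => pl f η y|) W ∧
      ∫ y in W, u (f y) * |pf fun _ : Fin 3 => pl f η y| =
        ∑ p ∈ t, ∫ y in W, ρ p (f y) * u (f y) * |pf fun _ : Fin 3 => pl f η y| := by
    intro f W hW hf hi u hu
    have k := fun p (_ : p ∈ t) =>
      (N6_cv hη p ((h1 p).mul hu) (s p u) hW hf hi).choose_spec.2.2.1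
    have e : (fun y => u (f y) * |pf fun _ : Fin 3 => pl f η y|) =
        fun y => ∑ p ∈ t, ρ p (f y) * u (f y) * |pf fun _ : Fin 3 => pl f η y| := funext fun y => by
      rw [← Finset.sum_mul, ← Finset.sum_mul, h3, one_mul]
    rw [e]
    exact ⟨MeasureTheory.integrable_finsetSum t k, MeasureTheory.integral_finsetSum t k⟩
  refine ⟨fun u => ∑ p ∈ t, ∫ y in (chartAt E6 p).target,
    ρ p ((chartAt E6 p).symm y) * u ((chartAt E6 p).symm y) *
      |pf fun _ : Fin 3 => pl (chartAt E6 p).symm η y|, fun u v hu hv => ?_, fun c u => ?_,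
    fun ψ U hP hi u hu hs => ?_, fun f W hW hf hi u hu h0 => ?_⟩
  · rw [← Finset.sum_add_distrib]
    refine Finset.sum_congr rfl fun p _ => ?_
    simp only [Pi.add_apply, mul_add, add_mul]
    exact MeasureTheory.integral_add (N6_int hη p ((h1 p).mul hu) (s p u))
      (N6_int hη p ((h1 p).mul hv) (s p v))
  · rw [Finset.mul_sum]
    refine Finset.sum_congr rfl fun p _ => ?_
    rw [← MeasureTheory.integral_const_mul]
    simp only [Pi.smul_apply, smul_eq_mul, mul_assoc, mul_left_comm c]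
  · rw [(key ψ U hP.opn hP.sm hi u hu).2]
    refine Finset.sum_congr rfl fun p _ => ?_
    obtain ⟨Z, z1, z2, -, z3⟩ := N6_cv hη p ((h1 p).mul hu) (s p u) hP.opn hP.sm hi
    refine (MeasureTheory.setIntegral_eq_of_subset_of_forall_sdiff_eq_zero
      (chartAt E6 p).open_target.measurableSet z1 fun y hy => ?_).trans z3.symm
    rw [image_eq_zero_of_notMem_tsupport (f := u) fun k => hy.2 (z2 y hy.1 (hs k)), mul_zero,
      zero_mul]
  · obtain ⟨k1, k2⟩ := key f W hW hf hi u hu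
    rw [← MeasureTheory.ofReal_integral_eq_lintegral_ofReal k1
      (Filter.Eventually.of_forall fun y => mul_nonneg (h0 _) (abs_nonneg _)), k2]
    refine ENNReal.ofReal_le_ofReal (Finset.sum_le_sum fun p _ => ?_)
    obtain ⟨Z, z1, -, -, z3⟩ := N6_cv hη p ((h1 p).mul hu) (s p u) hW hf hi
    exact z3.trans_le (MeasureTheory.setIntegral_mono_set (N6_int hη p ((h1 p).mul hu) (s p u))
      (Filter.Eventually.of_forall fun y => mul_nonneg (mul_nonneg (h4 _ _) (h0 _)) (abs_nonneg _))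
      z1.eventuallyLE)


end Pool.Agent.Work.MP_bf98aa_gt.Cy
end
end
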