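import Pool.Agent.Work.MP_bf98aa_gt.Cy.H2

/-!
Special points of the gluing domains.
-/

set_option autoImplicit false

open scoped Manifold ContDiff Topology
open Set Complex

namespace Pool.Agent.Work.MP_bf98aa_gt.Cy

open Pool.Agent.Work.MP_bf98aa_gt.Th

/-- A point of a node chart with vanishing angles. -/
def np (p μ : ℝ) : E6 := Cy.mk p 0 0 0 μ 0

variable {d : HD} {G : GD} {j : Fin 3} {s : K3} {z : E6}

theorem P1_rot (j : Fin 3) (p μ : ℝ) : rot^[j] (LL' j (np p μ)) = np (p + 2) μ := by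
  have h := LL_LL' j (np p μ)
  have e : ∀ y : E6, sh 2 (sh (-2) y) = y := fun y => by
    refine ext6 ?_ ?_ ?_ ?_ ?_ ?_ <;> simp [sh]
  rw [← e (rot^[j] _)]
  show sh 2 (LL j _) = _
  rw [h]
  refine ext6 ?_ ?_ ?_ ?_ ?_ ?_ <;> simp [sh, np]

theorem P1_succ (j : Fin 3) (z : E6) : rot^[(j + 1 : Fin 3)] z = rot (rot^[j] z) := by
  fin_cases j
  · rfl
  · rfl
  · exact (rot_three z).symm

theorem P1_rot' (j : Fin 3) (p μ : ℝ) :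
    rot^[(j + 1 : Fin 3)] (LL' j (np p μ)) = np (p + 2 + μ) (-3 * (p + 2) - 2 * μ) := by
  rw [P1_succ, P1_rot]
  refine ext6 ?_ ?_ ?_ ?_ ?_ ?_ <;> simp [rot, np]

theorem P1_gz (p μ : ℝ) : gz (np p μ) = 1 := by
  have := gg_int p 0
  rwa [Int.cast_zero] at this

theorem P1_dom {p μ : ℝ} (h1 : -1 / 2 < p) (h2 : p < 3 / 4) (h3 : -1 / 8 < μ) (h4 : μ < 1 / 8) :
    TN.dom (np p μ (0, 0)) (np p μ (2, 0)) := ⟨fun _ => ⟨h1, h2⟩, h3, h4⟩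

theorem P1_Wm {p μ : ℝ} (h : TN.dom (np p μ (0, 0)) (np p μ (2, 0))) : np p μ ∈ TN.W .m :=
  ⟨h, Or.inl (P1_gz p μ ▸ one_ne_zero)⟩

theorem P1_h1 : hinf (-3 / 25) = 0 := by
  rw [hinf, hm_eq 1 (by norm_num [abs_of_neg]), max_eq_right (by norm_num)]

theorem P1_h2 : hinf (3 / 25) = 3 / 25 := by
  rw [hinf, hm_eq 1 (by norm_num [abs_of_pos]), max_eq_left (by norm_num)]

theorem P1_e1 (d : HD) (j : Fin 3) : LL' j (np (3 / 5) (-3 / 25)) ∈ DS j ∧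
    LL' j (np (3 / 5) (-3 / 25)) ∈ DI j .m ∧ np (3 / 5) (-3 / 25) ∈ DU ∧
    d.oS j (LL' j (np (3 / 5) (-3 / 25))) = d.oU j (np (3 / 5) (-3 / 25)) := by
  have hd : TN.dom (np (3 / 5) (-3 / 25) (0, 0)) (np (3 / 5) (-3 / 25) (2, 0)) :=
    P1_dom (by norm_num) (by norm_num) (by norm_num) (by norm_num)
  have hI : LL' j (np (3 / 5) (-3 / 25)) ∈ DI j .m :=
    LL'_mem_DI (by decide) hd (Or.inr (by norm_num [np, sg]))
  refine ⟨⟨hI.1, ?_⟩, hI, ⟨P1_Wm hd, ?_⟩, ?_⟩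
  · rw [P1_rot]
    norm_num [np]
  · show 1 / 2 < 3 / 5 + hinf (-3 / 25)
    rw [P1_h1]
    norm_num
  · have h10 := rot_10 j (LL' j (np (3 / 5) (-3 / 25)))
    rw [HD.oS, HD.oU, ← h10.1, ← h10.2, P1_rot]
    simp only [np, mk00, mk01, mk10, mk11, mk20, mk21, P1_h1]
    norm_num

theorem P1_e2 (j : Fin 3) : LL' j (np (1 / 2) (3 / 25)) ∈ DS (j + 1) ∧
    LL' j (np (1 / 2) (3 / 25)) ∈ DI j .p ∧ np (1 / 2) (3 / 25) ∈ DU := by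
  have hd : TN.dom (np (1 / 2) (3 / 25) (0, 0)) (np (1 / 2) (3 / 25) (2, 0)) :=
    P1_dom (by norm_num) (by norm_num) (by norm_num) (by norm_num)
  have hI : LL' j (np (1 / 2) (3 / 25)) ∈ DI j .p :=
    LL'_mem_DI (by decide) hd (Or.inr (by norm_num [np, sg]))
  refine ⟨⟨hI.1, ?_⟩, hI, ⟨P1_Wm hd, ?_⟩⟩
  · rw [P1_rot']
    norm_num [np]
  · show 1 / 2 < 1 / 2 + hinf (3 / 25)
    rw [P1_h2]
    norm_num

theorem P1_o2 (d : HD) (j : Fin 3) : d.oS (j + 1) (LL' j (np (1 / 2) (3 / 25))) =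
      np (387 / 1179 - ((j + 1 : Fin 3) : ℕ) / 3) (131 / 50 - d.a / 9) ∧
    d.oU j (np (1 / 2) (3 / 25)) = np (-6 / 1179 - (j : ℕ) / 3) (131 / 50 - d.a / 9) := by
  have h10 := rot_10 (j + 1 : Fin 3) (LL' j (np (1 / 2) (3 / 25)))
  constructor
  · rw [HD.oS, ← h10.1, ← h10.2, P1_rot']
    refine ext6 ?_ ?_ ?_ ?_ ?_ ?_ <;> norm_num [np, HD.toO]
  · refine ext6 ?_ ?_ ?_ ?_ ?_ ?_ <;>
      simp only [np, HD.oU, HD.toO, mk00, mk01, mk10, mk11, mk20, mk21, P1_h2] <;> norm_num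

theorem P1_e2' (d : HD) (hj : j ≠ 2) :
    d.oS (j + 1) (LL' j (np (1 / 2) (3 / 25))) = d.oU j (np (1 / 2) (3 / 25)) := by
  rw [(P1_o2 d j).1, (P1_o2 d j).2]
  fin_cases j
  · norm_num
  · show np (_ - ((2 : ℕ) : ℝ) / 3) _ = np (_ - ((1 : ℕ) : ℝ) / 3) _
    norm_num
  · exact (hj rfl).elim

theorem P1_e2'' (d : HD) : d.oS 0 (LL' 2 (np (1 / 2) (3 / 25))) =
    hact A9 1 0 0 0 0 (d.oU 2 (np (1 / 2) (3 / 25))) := by
  have h := (P1_o2 d 2).1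
  rw [show (2 + 1 : Fin 3) = 0 from rfl] at h
  rw [h, (P1_o2 d 2).2]
  refine ext6 ?_ ?_ ?_ ?_ ?_ ?_ <;> norm_num [np, hact]

theorem P1_e3 (j : Fin 3) (hs : s ≠ .f) : LL' j (np (-1 / 3) 0) ∈ DI j s :=
  LL'_mem_DI hs (P1_dom (by norm_num) (by norm_num) (by norm_num) (by norm_num))
    (Or.inl (by norm_num [np]))

theorem P1_e4 (d : HD) (z : E6) : LL 0 (z - bv (2, 1)) = hact 0 (0 * 0) 0 0 0 (-1) (LL 0 z) ∧
    d.oS 0 (z - bv (2, 1)) = hact A9 0 0 1 0 0 (d.oS 0 z) := by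
  constructor <;> refine ext6 ?_ ?_ ?_ ?_ ?_ ?_ <;>
    simp [LL, sh, hact, bv, HD.oS, HD.toO, sub_eq_add_neg, add_comm]

theorem P1_base {f : E6 → E6} {K : Matrix (Fin 2) (Fin 2) ℤ} (hf : f ∈ HT 0 K) (z : E6) :
    f z (0, 0) = z (0, 0) ∧ f z (2, 0) = z (2, 0) := by
  obtain ⟨a, b, c, e, l, rfl⟩ := hf
  simp [hact]

theorem P1_DS {z' : E6} (h0 : z' (0, 0) = z (0, 0)) (h2 : z' (2, 0) = z (2, 0)) (h : z ∈ DS 0) :
    z' ∈ DS 0 := by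
  refine ⟨mem_WI_congr h0 h2 h.1, ?_⟩
  have := h.2
  simp only [Fin.val_zero, Function.iterate_zero, id] at this ⊢
  rwa [h0, h2]

theorem P1_DU {f : E6 → E6} (hf : f ∈ HT TN.κ (TN.As .m)) (h : z ∈ DU) : f z ∈ DU := by
  refine ⟨hact_maps TN_ok (by decide) hf h.1, ?_⟩
  rw [(P1_base hf z).1, (P1_base hf z).2]
  exact h.2

end Pool.Agent.Work.MP_bf98aa_gt.Cy
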