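import Pool.Agent.Work.MP_bf98aa_gt.Cy.P1
import Pool.Agent.Work.MP_bf98aa_gt.Cy.H6
import Pool.Agent.Work.MP_bf98aa_gt.Cy.K10

/-!
Holonomy on a half.
-/

set_option autoImplicit false

open scoped Manifold ContDiff Topology
open Set Complex

namespace Pool.Agent.Work.MP_bf98aa_gt.Cy

open Pool.Agent.Work.MP_bf98aa_gt.Th

variable {M : Type} [TopologicalSpace M] [ChartedSpace E6 M] [IsManifold 𝓘(ℝ, E6) ∞ M]

variable {H : Type} [Group H]

section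
variable {ι : Type} {ψ : ι → E6 → M} {W : ι → Set E6} {T : ι → E6 → ι → E6 → H} {i : ι} {κ : ℤ}
  {K : Matrix (Fin 2) (Fin 2) ℤ}

theorem P2_conj (h : Coc ψ W T) {j : ι} {x x' y y' : E6} (h1 : T i x j y = T i x' j y')
    (h2 : T j y j y' = 1) : T i x i x' = 1 := by
  rw [← h.mul i x j y i x', ← h.mul j y j y' i x', h2, one_mul, h1, h.mul, h.self]

theorem P2_triv (h : Coc ψ W T) {𝒯 : Set (E6 → E6)} (hD : Deck (ψ i) (W i) 𝒯)
    (hc : IsPreconnected (W i)) {z : E6} (hz : z ∈ W i) (h1 : ∀ f ∈ 𝒯, T i z i (f z) = 1) :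
    ∀ x ∈ W i, ∀ y ∈ W i, ψ i x = ψ i y → T i x i y = 1 := by
  intro x hx y hy e
  obtain ⟨f, hf, rfl⟩ := hD.trans x hx y hy e
  rw [K10_all h hD hc hf hx hz, h1 f hf]

theorem P2_gen (h : Coc ψ W T) (hD : Deck (ψ i) (W i) (HT κ K)) {a b c e a' b' c' e' : ℤ}
    (hd : (a * e - b * c) ^ 2 = 1) (hd' : (a' * e' - b' * c') ^ 2 = 1)
    (h1 : Hol (fun x y => T i x i y) (W i) κ K a b 0 0)
    (h2 : Hol (fun x y => T i x i y) (W i) κ K c e 0 0)
    (h3 : Hol (fun x y => T i x i y) (W i) κ K 0 0 a' b')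
    (h4 : Hol (fun x y => T i x i y) (W i) κ K 0 0 c' e') (m₀ m₁ n₀ n₁ : ℤ) :
    Hol (fun x y => T i x i y) (W i) κ K m₀ m₁ n₀ n₁ := by
  have k := hol_add h hD
    (hol_add h hD (hol_zsmul h hD h1 ((a * e - b * c) * (e * m₀ - c * m₁)))
      (hol_zsmul h hD h2 ((a * e - b * c) * (a * m₁ - b * m₀))))
    (hol_add h hD (hol_zsmul h hD h3 ((a' * e' - b' * c') * (e' * n₀ - c' * n₁)))
      (hol_zsmul h hD h4 ((a' * e' - b' * c') * (a' * n₁ - b' * n₀))))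
  convert k using 1
  · linear_combination (-m₀) * hd
  · linear_combination (-m₁) * hd
  · linear_combination (-n₀) * hd'
  · linear_combination (-n₁) * hd'

end

variable {d : HD} {q : Ix → E6 → M} {T : Ix → E6 → Ix → E6 → H}

omit [TopologicalSpace M] [ChartedSpace E6 M] [IsManifold 𝓘(ℝ, E6) ∞ M] in
theorem P2_N (hT : Coc q d.W T) (j : Fin 3) :
    Coc (fun s => q (.N j s)) TN.W fun s x s' y => T (.N j s) x (.N j s') y :=
  ⟨fun _ _ _ _ _ _ => hT.mul _ _ _ _ _ _, fun s s' => hT.lc (.N j s) (.N j s')⟩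

omit [TopologicalSpace M] [ChartedSpace E6 M] [IsManifold 𝓘(ℝ, E6) ∞ M] in
theorem P2_K (hT : Coc q d.W T) :
    Coc (fun s => q (.K s)) d.TK.W fun s x s' y => T (.K s) x (.K s') y :=
  ⟨fun _ _ _ _ _ _ => hT.mul _ _ _ _ _ _, fun s s' => hT.lc (.K s) (.K s')⟩

theorem P2_oS (h : d.Ok) {j : Fin 3} {z : E6} (hz : z ∈ DS j) : d.La (d.oS j z) ∈ d.TK.W .m :=
  La_mem_m ⟨(oS_mem h hz).1, (oS_mem h hz).2.trans (by linarith [h.ha])⟩

theorem P2_oU (h : d.Ok) (j : Fin 3) {z : E6} (hz : z ∈ DU) : d.La (d.oU j z) ∈ d.TK.W .m :=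
  La_mem_m ⟨(oU_mem h hz).1, (oU_mem h hz).2.trans (by norm_num)⟩

theorem P2_S (h : HM d q) (hT : Coc q d.W T) {j : Fin 3} {z z' : E6} (hz : z ∈ DS j)
    (hz' : z' ∈ DS j) :
    T .I z (.K .m) (d.La (d.oS j z)) = T .I z' (.K .m) (d.La (d.oS j z')) :=
  hT.joint (convex_DS j).isPreconnected (i := .I) (j := .K .m) (a := id)
    (b := fun z => d.La (d.oS j z)) continuousOn_id
    (d.contDiff_La.continuous.comp_continuousOn fun _ hx =>
      (oS_inv hx).1.continuousAt.continuousWithinAt)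
    (fun _ hx => hx.1) (fun _ hx => P2_oS h.ok hx) (h.gIK j) hz hz'

theorem P2_U (h : HM d q) (hT : Coc q d.W T) (j : Fin 3) {z z' : E6} (hz : z ∈ DU) (hz' : z' ∈ DU) :
    T (.N j .m) z (.K .m) (d.La (d.oU j z)) = T (.N j .m) z' (.K .m) (d.La (d.oU j z')) :=
  hT.joint preconn_DU (i := .N j .m) (j := .K .m) (a := id)
    (b := fun z => d.La (d.oU j z)) continuousOn_id
    (d.contDiff_La.continuous.comp_continuousOn fun _ hx =>
      (oU_inv hx).1.continuousAt.continuousWithinAt)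
    (fun _ hx => hx.1) (fun _ hx => P2_oU h.ok j hx) (h.gNK j) hz hz'

theorem P2_I (h : HM d q) (hT : Coc q d.W T) {j : Fin 3} {s : K3} {z z' : E6} (hz : z ∈ DI j s)
    (hz' : z' ∈ DI j s) : T .I z (.N j s) (LL j z) = T .I z' (.N j s) (LL j z') :=
  hT.joint (preconn_DI j s) (i := .I) (j := .N j s) (a := id) (b := LL j) continuousOn_id
    (contDiff_LL j).continuous.continuousOn (fun _ hx => hx.1) (fun _ hx => hx.2.2.1)
    (h.gIN j s) hz hz'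

theorem P2_mp (h : HM d q) (hT : Coc q d.W T) (j : Fin 3) :
    T (.N j .m) (np (1 / 2) (3 / 25)) (.N j .p) (np (1 / 2) (3 / 25)) =
      T (.N j .m) (np (-1 / 3) 0) (.N j .p) (np (-1 / 3) 0) := by
  obtain ⟨g, hg⟩ := (h.tN j).mp (P2_N hT j)
  have e : ∀ p μ : ℝ, np p μ ∈ TN.W .m → T (.N j .m) (np p μ) (.N j .p) (np p μ) = g := fun p μ hm => by
    have k := hg _ hm (P1_gz p μ ▸ one_ne_zero) 0 (by rw [P1_gz]; simp [np, ee_zero])
    rwa [show setF 0 (np p μ) = np p μ from Function.update_eq_self _ _] at k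
  have h3 := (P1_e3 j (s := .m) (by decide)).2.2.1
  rw [LL_LL'] at h3
  rw [e _ _ (P1_e2 j).2.2.1, e _ _ h3]

theorem P2_step (h : HM d q) (hT : Coc q d.W T) (j : Fin 3) {z z' : E6} (hz : z ∈ DS j)
    (hz' : z' ∈ DS (j + 1)) : T .I z' (.K .m) (d.La (d.oS (j + 1) z')) =
      T .I z (.K .m) (d.La (d.oS j z)) * T (.K .m) (d.La (d.oU j (np (1 / 2) (3 / 25)))) (.K .m)
        (d.La (d.oS (j + 1) (LL' j (np (1 / 2) (3 / 25))))) := by
  obtain ⟨a1, a2, a3, a4⟩ := P1_e1 d j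
  obtain ⟨b1, b2, b3⟩ := P1_e2 j
  have k1 := P2_I h hT a2 (P1_e3 j (by decide))
  have k2 := P2_I h hT b2 (P1_e3 j (by decide))
  simp only [LL_LL'] at k1 k2
  rw [P2_S h hT hz a1, P2_S h hT hz' b1, a4,
    ← hT.mul .I (LL' j (np (3 / 5) (-3 / 25))) (.N j .m) (np (3 / 5) (-3 / 25)), k1,
    P2_U h hT j a3 b3, mul_assoc, hT.mul,
    ← hT.mul .I (LL' j (np (1 / 2) (3 / 25))) (.N j .p) (np (1 / 2) (3 / 25)), k2,
    ← hT.mul (.N j .p) _ (.N j .m) (np (1 / 2) (3 / 25)), hT.inv (.N j .m) _ (.N j .p),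
    P2_mp h hT j, ← hT.inv, ← mul_assoc, hT.mul]

theorem P2_round (h : HM d q) (hT : Coc q d.W T) :
    (∃ a, ∀ j, ∀ z ∈ DS j, T .I z (.K .m) (d.La (d.oS j z)) = a) ∧
      Hol (fun x y => T (.K .m) x (.K .m) y) (d.TK.W .m) 1 (d.TK.As .m) (d.u 0) (d.u' 0) 0 0 := by
  have z0 := (P1_e1 d 0).1
  have z1 := (P1_e1 d 1).1
  have z2 := (P1_e1 d 2).1
  have k0 := P2_step h hT 0 z0 z1
  have k1 := P2_step h hT 1 z1 z2
  have k2 := P2_step h hT 2 z2 z0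
  rw [P1_e2' d (by decide), hT.self, mul_one] at k0 k1
  refine ⟨⟨T .I (LL' 0 (np (3 / 5) (-3 / 25))) (.K .m)
    (d.La (d.oS 0 (LL' 0 (np (3 / 5) (-3 / 25))))), fun j z hz => ?_⟩, ?_⟩
  · fin_cases j
    · exact P2_S h hT hz z0
    · exact (P2_S h hT hz z1).trans k0
    · exact (P2_S h hT hz z2).trans (k1.trans k0)
  · have k3 := left_eq_mul.1 ((k1.trans k0).trans k2)
    rw [show (2 + 1 : Fin 3) = 0 from rfl, P1_e2'', La_hact_m h.ok] at k3
    refine hol_of_pt (P2_K hT) (h.tK.deck (by decide)) (preconn_W h.tK.ok _)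
      (h.tK.loop (P2_K hT) (by decide)) (P2_oU h.ok 2 (P1_e2 2).2.2) (l := 0) ?_
    simpa only [mul_one, mul_zero, add_zero, one_mul] using k3

theorem P2_holY (h : HM d q) (hT : Coc q d.W T) :
    Hol (fun x y => T (.K .m) x (.K .m) y) (d.TK.W .m) 1 (d.TK.As .m) 0 0 (d.w 0) (d.w' 0) := by
  obtain ⟨a1, a2, -, -⟩ := P1_e1 d 0
  generalize LL' 0 (np (3 / 5) (-3 / 25)) = z at a1 a2
  have e0 : (z - bv (2, 1)) (0, 0) = z (0, 0) := by simp [bv]
  have e2 : (z - bv (2, 1)) (2, 0) = z (2, 0) := by simp [bv]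
  have k1 : T .I z .I (z - bv (2, 1)) = 1 := by
    refine P2_conj hT (P2_I h hT a2 (DI_congr e0 e2 a2)) ?_
    rw [(P1_e4 d z).1]
    have := (h.tN 0).loop (P2_N hT 0) (s := .m) (by decide) _ a2.2.2.1 (-1)
    rwa [TN_As] at this
  have k2 := P2_S h hT a1 (P1_DS e0 e2 a1)
  have k3 : T (.K .m) (d.La (d.oS 0 z)) (.K .m) (d.La (d.oS 0 (z - bv (2, 1)))) = 1 :=
    P2_conj hT (by rw [hT.inv .I z, hT.inv .I (z - bv (2, 1)), k2]) k1
  rw [(P1_e4 d z).2, La_hact_m h.ok] at k3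
  refine hol_of_pt (P2_K hT) (h.tK.deck (by decide)) (preconn_W h.tK.ok _)
    (h.tK.loop (P2_K hT) (by decide)) (P2_oS h.ok a1) (l := 0) ?_
  simpa only [mul_one, mul_zero, add_zero, one_mul] using k3

theorem P2_half (h : HM d q) (hT : Coc q d.W T)
    (hm : ∀ x ∈ d.TK.W .m, ∀ y ∈ d.TK.W .m, q (.K .m) x = q (.K .m) y →
      T (.K .m) x (.K .m) y = 1) :
    ∃ g : Ix → H, ∀ c c', ∀ x ∈ d.W c, ∀ y ∈ d.W c', q c x = q c' y →
      T c x c' y = (g c)⁻¹ * g c' := by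
  obtain ⟨⟨a, ha⟩, -⟩ := P2_round h hT
  have a3 := (P1_e1 d 0).2.2.1
  have hI : ∀ x ∈ WI, ∀ y ∈ WI, q .I x = q .I y → T .I x .I y = 1 := by
    have a1 := (P1_e1 d 0).1
    refine P2_triv hT (i := Ix.I) h.deck_I
      (starConvex_WI.2.isPathConnected starConvex_WI.1).isConnected.isPreconnected a1.1
      fun f hf => ?_
    have b1 := P1_DS (P1_base hf _).1 (P1_base hf _).2 a1
    refine P2_conj hT (P2_S h hT a1 b1) (hm _ (P2_oS h.ok a1) _ (P2_oS h.ok b1) ?_)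
    rw [← h.gIK 0 _ a1, ← h.gIK 0 _ b1, h.deck_I.eq f hf _ a1.1]
  have hN : ∀ j, ∀ x ∈ TN.W .m, ∀ y ∈ TN.W .m, q (.N j .m) x = q (.N j .m) y →
      T (.N j .m) x (.N j .m) y = 1 := fun j => by
    have hD := (h.tN j).deck (s := .m) (by decide)
    refine P2_triv hT (i := Ix.N j .m) hD (preconn_W TN_ok .m) a3.1 fun f hf => ?_
    have b1 := P1_DU hf a3
    refine P2_conj hT (P2_U h hT j a3 b1) (hm _ (P2_oU h.ok j a3) _ (P2_oU h.ok j b1) ?_)
    rw [← h.gNK j _ a3, ← h.gNK j _ b1]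
    exact (hD.eq f hf _ a3.1).symm
  obtain ⟨gK, gK1, gK2⟩ := h.tK.pi (P2_K hT) hm
  choose gN gN1 gN2 using fun j => (h.tN j).pi (P2_N hT j) (hN j)
  let b : Fin 3 → H := fun j =>
    T (.N j .m) (np (3 / 5) (-3 / 25)) (.K .m) (d.La (d.oU j (np (3 / 5) (-3 / 25))))
  have cm : ∀ j, ∀ z ∈ DI j .m, T .I z (.N j .m) (LL j z) = a * (b j)⁻¹ := fun j z hz => by
    obtain ⟨a1, a2, -, a4⟩ := P1_e1 d j
    rw [P2_I h hT hz a2, LL_LL', ← ha j _ a1, a4, ← hT.inv, hT.mul]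
  refine ⟨fun c => match c with
    | .I => a⁻¹
    | .N j s => (b j)⁻¹ * gN j s
    | .K s => gK s, h.ind (fun c c' x _ y _ e => ?_) (fun c c' c'' _ x _ y _ z _ e e' => ?_)
      (fun z hz z' hz' e => ?_) (fun j s s' x hx y hy e => ?_) gK2 (fun j s z hz => ?_)
      (fun j z hz => ?_) (fun j z hz => ?_)⟩
  · rw [hT.inv, e, mul_inv_rev, inv_inv]
  · rw [← hT.mul c x c' y, e, e', mul_assoc, mul_inv_cancel_left]
  · rw [hI z hz z' hz' ((h.eI z hz z' hz').2 e), inv_mul_cancel]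
  · rw [gN2 j s s' x hx y hy e]
    simp only [mul_inv_rev, inv_inv, mul_assoc, mul_inv_cancel_left]
  · simp only [inv_inv]
    cases s with
    | f => exact (hz.2.1 rfl).elim
    | m => rw [cm j z hz, gN1, mul_one]
    | p =>
      have e1 := P1_e3 j (s := .m) (by decide)
      have e2 := P1_e3 j (s := .p) (by decide)
      rw [P2_I h hT hz e2, ← hT.mul _ _ (.N j .m) (LL j (LL' j (np (-1 / 3) 0))), cm j _ e1,
        gN2 j .m .p _ e1.2.2.1 _ e2.2.2.1 ((h.gIN j _ _ e1).symm.trans (h.gIN j _ _ e2)), gN1,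
        inv_one, one_mul, mul_assoc]
  · simp only [inv_inv]
    rw [ha j z hz, gK1, mul_one]
  · simp only [gN1, gK1, mul_one, inv_inv]
    exact P2_U h hT j hz a3

end Pool.Agent.Work.MP_bf98aa_gt.Cy
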