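import Pool.Agent.Work.MP_bf98aa_gt.Th.Stmt

/-!
Symplectic Calabi-Yau structures, spheres of area one and Darboux domains.
-/

set_option autoImplicit false

open scoped Manifold ContDiff

namespace Pool.Agent.Work.MP_bf98aa_gt.Cy

open Pool.Agent.Work.MP_bf98aa_gt.Th

/-- `ρ + i σ` is a nonzero form of type `(3, 0)` for a complex structure tamed by `η`. -/
def Tame {V : Type} [AddCommGroup V] [Module ℝ V] [TopologicalSpace V] (η : V [⋀^Fin 2]→L[ℝ] ℝ)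
    (ρ σ : V [⋀^Fin 3]→L[ℝ] ℝ) : Prop :=
  ∃ J : V →ₗ[ℝ] V, (∀ v, J (J v) = -v) ∧ (∀ v, v ≠ 0 → 0 < η ![v, J v]) ∧ ρ ≠ 0 ∧
    ∀ u v z, ρ ![J u, v, z] = -σ ![u, v, z] ∧ σ ![J u, v, z] = ρ ![u, v, z]

section
variable {E : Type} [NormedAddCommGroup E] [NormedSpace ℝ E] {M : Type} [TopologicalSpace M]
  [ChartedSpace E M] {F : Type} [NormedAddCommGroup F] [NormedSpace ℝ F] {k : ℕ}

/-- The pull-back of a form under a map from a vector space. -/
noncomputable def pull (f : F → M) (w : Form E M k) (y : F) : F [⋀^Fin k]→L[ℝ] ℝ :=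
  (w (f y)).compContinuousLinearMap (mfderiv 𝓘(ℝ, F) 𝓘(ℝ, E) f y)

/-- Continuous in every chart. -/
def Cont (w : Form E M k) : Prop := ∀ p, ContinuousOn (w.loc p) (chartAt E p).target

/-- The canonical bundle is trivial. -/
def CalabiYau (η : Form E M 2) : Prop :=
  ∃ ρ σ : Form E M 3, Cont ρ ∧ Cont σ ∧ ∀ x, Tame (η x) (ρ x) (σ x)

/-- A smooth sphere (a map of the plane that is constant outside a disc) of area one. -/
def UnitSphere (η : Form E M 2) : Prop :=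
  ∃ f : ℂ → M, ContMDiff 𝓘(ℝ, ℂ) 𝓘(ℝ, E) ∞ f ∧ (∃ (m : M) (R : ℝ), ∀ z, R ≤ ‖z‖ → f z = m) ∧
    ∫ z, pull f η z ![1, Complex.I] = 1

end

/-- An open subset of the standard symplectic space of volume at least `N` embeds
symplectically. -/
def BigDomain {n : ℕ} {M : Type} [TopologicalSpace M] [ChartedSpace (Sp (Fin n)) M]
    (η : Form (Sp (Fin n)) M 2) (N : ℝ) : Prop :=
  ∃ (W : Set (Sp (Fin n))) (f : Sp (Fin n) → M), IsOpen W ∧
    ContMDiffOn 𝓘(ℝ, Sp (Fin n)) 𝓘(ℝ, Sp (Fin n)) ∞ f W ∧ Set.InjOn f W ∧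
    (∀ y ∈ W, ∀ u v, pull f η y ![u, v] = ∑ j, (u (j, 0) * v (j, 1) - u (j, 1) * v (j, 0))) ∧
    ENNReal.ofReal N ≤ MeasureTheory.volume W

end Pool.Agent.Work.MP_bf98aa_gt.Cy
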